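import Pool.Agent.Lib.MP_455d73_gt.Mg.G016

section

/-!
TASK T1a (easy, kernel computations): facts about the table `rr` of the adjacencies.

Pattern: reduce to a closed statement over `κ : Bool`, `i < 7`, `c < 200` and prove it by `decide +kernel`, e.g.
`private theorem T1a_1 : ∀ κ : Bool, ∀ i < 7, ∀ c < 200, (i = 5 → isIn c = false ∧ isOut c = false) → rr κ i c < 200 := by decide +kernel`
(if the instance for `Bool` is not found use `∀ κ ∈ [true, false]` and conclude by cases). All functions are written with recursors and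
evaluate fast in the kernel (each statement below a few seconds). If the decidability of an implication or of `=` of `Bool`s makes trouble,
write the statement as `(… : Bool) = true` with `List.all` over `List.range 200`. All statements have been checked by a program.
-/

set_option autoImplicit false

namespace Pool.Agent.MP_455d73_gt.CS

open K

private theorem T1a_1 : ([true, false].all fun κ => (List.range 7).all fun i => (List.range 200).all fun c =>
    (Nat.beq i 5 && (isIn c || isOut c)) || (Nat.blt (rr κ i c) 200 && Nat.beq (rr κ i (rr κ i c)) c)) = true := by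
  decide +kernel

private theorem T1a_2 : ([true, false].all fun κ => (List.range 200).all fun c =>
    (isIn c || isOut c) || (!(isIn (rr κ 5 c)) && !(isOut (rr κ 5 c)))) = true := by
  decide +kernel

private theorem T1a_3 : ([true, false].all fun κ => [1, 2, 3, 4].all fun i => (List.range 200).all fun c =>
    (isIn (rr κ i c) == isIn c) && (isOut (rr κ i c) == isOut c)) = true := by
  decide +kernel

private theorem T1a_4 : ((List.range 200).all fun c => !(isIn c) || !(isOut c)) = true := by
  decide +kernel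

private theorem T1a_5 (κ : Bool) (i c : ℕ) (hi : i < 7) (hc : c < 200)
    (hp : i = 5 → isIn c = false ∧ isOut c = false) : rr κ i c < 200 ∧ rr κ i (rr κ i c) = c := by
  have h := T1a_1
  rw [List.all_eq_true] at h
  have h1 := h κ (by cases κ <;> simp)
  rw [List.all_eq_true] at h1
  have h2 := h1 i (List.mem_range.2 hi)
  rw [List.all_eq_true] at h2
  have h3 := h2 c (List.mem_range.2 hc)
  rw [Bool.or_eq_true] at h3
  rcases h3 with h3 | h3
  · rw [Bool.and_eq_true] at h3
    obtain ⟨e, h4⟩ := h3
    obtain ⟨p, q⟩ := hp (Nat.eq_of_beq_eq_true e)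
    rw [p, q] at h4
    exact absurd h4 (by decide)
  · rw [Bool.and_eq_true] at h3
    exact ⟨by simpa using h3.1, Nat.eq_of_beq_eq_true h3.2⟩

theorem rr_lt (κ : Bool) (i c : ℕ) (hi : i < 7) (hc : c < 200) (hp : i = 5 → isIn c = false ∧ isOut c = false) :
    rr κ i c < 200 :=
  (T1a_5 κ i c hi hc hp).1

theorem rr_rr (κ : Bool) (i c : ℕ) (hi : i < 7) (hc : c < 200) (hp : i = 5 → isIn c = false ∧ isOut c = false) :
    rr κ i (rr κ i c) = c :=
  (T1a_5 κ i c hi hc hp).2

/-- The wall `5` of a chamber which is not in a port leads to such a chamber. -/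
theorem rr5_port (κ : Bool) (c : ℕ) (hc : c < 200) (hp : isIn c = false ∧ isOut c = false) :
    isIn (rr κ 5 c) = false ∧ isOut (rr κ 5 c) = false := by
  have h := T1a_2
  rw [List.all_eq_true] at h
  have h1 := h κ (by cases κ <;> simp)
  rw [List.all_eq_true] at h1
  have h3 := h1 c (List.mem_range.2 hc)
  rw [hp.1, hp.2] at h3
  simpa using h3

/-- The ports are invariant under the walls `1, 2, 3, 4`. -/
theorem rr_port (κ : Bool) (i c : ℕ) (h1 : 1 ≤ i) (h4 : i ≤ 4) (hc : c < 200) :
    isIn (rr κ i c) = isIn c ∧ isOut (rr κ i c) = isOut c := by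
  have h := T1a_3
  rw [List.all_eq_true] at h
  have h2 := h κ (by cases κ <;> simp)
  rw [List.all_eq_true] at h2
  have hi : i ∈ [1, 2, 3, 4] := by
    interval_cases i <;> simp
  have h3 := h2 i hi
  rw [List.all_eq_true] at h3
  have h5 := h3 c (List.mem_range.2 hc)
  rw [Bool.and_eq_true] at h5
  exact ⟨by simpa using h5.1, by simpa using h5.2⟩

theorem port_disj (c : ℕ) (hc : c < 200) (h : isIn c = true) : isOut c = false := by
  have h1 := T1a_4
  rw [List.all_eq_true] at h1
  have h3 := h1 c (List.mem_range.2 hc)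
  rw [h] at h3
  simpa using h3

end Pool.Agent.MP_455d73_gt.CS
end

section

/-!
TASK T1c (easy, kernel computations): the gluing maps `gl`, `gi` and the folds `fo`, `fi`. Closed statements by `decide +kernel` as in T1a.
-/

set_option autoImplicit false

namespace Pool.Agent.MP_455d73_gt.CS

open K

private theorem T1c_b (r : Bool) : r ∈ [true, false] := by cases r <;> simp

private theorem T1c_i (i : ℕ) (h1 : 1 ≤ i) (h4 : i ≤ 4) : i ∈ [1, 2, 3, 4] := by
  have h : i = 1 ∨ i = 2 ∨ i = 3 ∨ i = 4 := by omega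
  rcases h with rfl | rfl | rfl | rfl <;> simp

private theorem T1c_1 : ∀ r ∈ [true, false], ∀ c ∈ List.range 200,
    (isOut c = false ∨ (gl r c < 200 ∧ isIn (gl r c) = true ∧ gi r (gl r c) = c)) := by
  decide +kernel

private theorem T1c_2 : ∀ r ∈ [true, false], ∀ c ∈ List.range 200,
    (isIn c = false ∨ (gi r c < 200 ∧ isOut (gi r c) = true ∧ gl r (gi r c) = c)) := by
  decide +kernel

private theorem T1c_3 : ∀ c ∈ List.range 200,
    (isOut c = false ∨ (fo c < 200 ∧ isOut (fo c) = true ∧ fo (fo c) = c)) := by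
  decide +kernel

private theorem T1c_4 : ∀ c ∈ List.range 200,
    (isIn c = false ∨ (fi c < 200 ∧ isIn (fi c) = true ∧ fi (fi c) = c)) := by
  decide +kernel

private theorem T1c_5 : ∀ r ∈ [true, false], ∀ κ ∈ [true, false], ∀ κ' ∈ [true, false], ∀ i ∈ [1, 2, 3, 4],
    ∀ c ∈ List.range 200, (isOut c = false ∨ gl r (rr κ i c) = rr κ' i (gl r c)) := by
  decide +kernel

private theorem T1c_6 : ∀ r ∈ [true, false], ∀ κ ∈ [true, false], ∀ κ' ∈ [true, false], ∀ i ∈ [1, 2, 3, 4],
    ∀ c ∈ List.range 200, (isIn c = false ∨ gi r (rr κ i c) = rr κ' i (gi r c)) := by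
  decide +kernel

private theorem T1c_7 : ∀ κ ∈ [true, false], ∀ i ∈ [1, 2, 3, 4],
    ∀ c ∈ List.range 200, (isOut c = false ∨ fo (rr κ i c) = rr κ i (fo c)) := by
  decide +kernel

private theorem T1c_8 : ∀ κ ∈ [true, false], ∀ i ∈ [1, 2, 3, 4],
    ∀ c ∈ List.range 200, (isIn c = false ∨ fi (rr κ i c) = rr κ i (fi c)) := by
  decide +kernel

private theorem T1c_9 : ∀ κ ∈ [true, false], ∀ κ' ∈ [true, false], ∀ i ∈ [1, 2, 3, 4],
    ∀ c ∈ List.range 200, ((isIn c = false ∧ isOut c = false) ∨ rr κ i c = rr κ' i c) := by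
  decide +kernel

theorem gl_spec (r : Bool) (c : ℕ) (hc : c < 200) (h : isOut c = true) :
    gl r c < 200 ∧ isIn (gl r c) = true ∧ gi r (gl r c) = c := by
  rcases T1c_1 r (T1c_b r) c (List.mem_range.2 hc) with h' | h'
  · rw [h] at h'; exact absurd h' (by decide)
  · exact h'

theorem gi_spec (r : Bool) (c : ℕ) (hc : c < 200) (h : isIn c = true) :
    gi r c < 200 ∧ isOut (gi r c) = true ∧ gl r (gi r c) = c := by
  rcases T1c_2 r (T1c_b r) c (List.mem_range.2 hc) with h' | h'
  · rw [h] at h'; exact absurd h' (by decide)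
  · exact h'

theorem fo_spec (c : ℕ) (hc : c < 200) (h : isOut c = true) : fo c < 200 ∧ isOut (fo c) = true ∧ fo (fo c) = c := by
  rcases T1c_3 c (List.mem_range.2 hc) with h' | h'
  · rw [h] at h'; exact absurd h' (by decide)
  · exact h'

theorem fi_spec (c : ℕ) (hc : c < 200) (h : isIn c = true) : fi c < 200 ∧ isIn (fi c) = true ∧ fi (fi c) = c := by
  rcases T1c_4 c (List.mem_range.2 hc) with h' | h'
  · rw [h] at h'; exact absurd h' (by decide)
  · exact h'

theorem gl_rr (r κ κ' : Bool) (i c : ℕ) (h1 : 1 ≤ i) (h4 : i ≤ 4) (hc : c < 200) (h : isOut c = true) :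
    gl r (rr κ i c) = rr κ' i (gl r c) := by
  rcases T1c_5 r (T1c_b r) κ (T1c_b κ) κ' (T1c_b κ') i (T1c_i i h1 h4) c (List.mem_range.2 hc) with h' | h'
  · rw [h] at h'; exact absurd h' (by decide)
  · exact h'

theorem gi_rr (r κ κ' : Bool) (i c : ℕ) (h1 : 1 ≤ i) (h4 : i ≤ 4) (hc : c < 200) (h : isIn c = true) :
    gi r (rr κ i c) = rr κ' i (gi r c) := by
  rcases T1c_6 r (T1c_b r) κ (T1c_b κ) κ' (T1c_b κ') i (T1c_i i h1 h4) c (List.mem_range.2 hc) with h' | h'
  · rw [h] at h'; exact absurd h' (by decide)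
  · exact h'

theorem fo_rr (κ : Bool) (i c : ℕ) (h1 : 1 ≤ i) (h4 : i ≤ 4) (hc : c < 200) (h : isOut c = true) :
    fo (rr κ i c) = rr κ i (fo c) := by
  rcases T1c_7 κ (T1c_b κ) i (T1c_i i h1 h4) c (List.mem_range.2 hc) with h' | h'
  · rw [h] at h'; exact absurd h' (by decide)
  · exact h'

theorem fi_rr (κ : Bool) (i c : ℕ) (h1 : 1 ≤ i) (h4 : i ≤ 4) (hc : c < 200) (h : isIn c = true) :
    fi (rr κ i c) = rr κ i (fi c) := by
  rcases T1c_8 κ (T1c_b κ) i (T1c_i i h1 h4) c (List.mem_range.2 hc) with h' | h'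
  · rw [h] at h'; exact absurd h' (by decide)
  · exact h'

/-- The adjacencies in the ports do not depend on the kind. -/
theorem rr_kind (κ κ' : Bool) (i c : ℕ) (h1 : 1 ≤ i) (h4 : i ≤ 4) (hc : c < 200) (h : isIn c = true ∨ isOut c = true) :
    rr κ i c = rr κ' i c := by
  rcases T1c_9 κ (T1c_b κ) κ' (T1c_b κ') i (T1c_i i h1 h4) c (List.mem_range.2 hc) with h' | h'
  · rcases h with h | h
    · rw [h] at h'; exact absurd h'.1 (by decide)
    · rw [h] at h'; exact absurd h'.2 (by decide)
  · exact h'

end Pool.Agent.MP_455d73_gt.CS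
end

section

/-!
TASK T2a (easy, kernel computations): the labels `lab κ a c` of the faces. Closed statements by `decide +kernel` as in T1a
(e.g. `∀ κ, ∀ a ∈ faceL, ∀ c < 200, …`; split by `κ` if it is slow).
-/

set_option autoImplicit false

namespace Pool.Agent.MP_455d73_gt.CS

open K

private noncomputable def T2a_all (n : ℕ) (p : ℕ → Bool) : Bool := Nat.rec true (fun k ih => Bool.rec false ih (p k)) n

private noncomputable def T2a_allL (l : List ℕ) (p : ℕ → Bool) : Bool := List.rec true (fun a _ ih => Bool.rec false ih (p a)) l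

private noncomputable def T2a_imp (b c : Bool) : Bool := Bool.rec true c b

private noncomputable def T2a_and (b c : Bool) : Bool := Bool.rec false c b

private noncomputable def T2a_or (b c : Bool) : Bool := Bool.rec c true b

private theorem T2a_all_spec (n : ℕ) (p : ℕ → Bool) (h : T2a_all n p = true) (c : ℕ) (hc : c < n) : p c = true := by
  induction n with
  | zero => exact absurd hc (Nat.not_lt_zero c)
  | succ k ih =>
    have h' : (Bool.rec false (T2a_all k p) (p k) : Bool) = true := h
    cases hk : p k with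
    | false => rw [hk] at h'; exact absurd h' Bool.false_ne_true
    | true =>
      rw [hk] at h'
      rcases Nat.lt_succ_iff_lt_or_eq.mp hc with h1 | h1
      · exact ih h' h1
      · rw [h1]; exact hk

private theorem T2a_allL_spec (l : List ℕ) (p : ℕ → Bool) (h : T2a_allL l p = true) (a : ℕ) (ha : a ∈ l) : p a = true := by
  induction l with
  | nil => exact absurd ha List.not_mem_nil
  | cons x t ih =>
    have h' : (Bool.rec false (T2a_allL t p) (p x) : Bool) = true := h
    cases hk : p x with
    | false => rw [hk] at h'; exact absurd h' Bool.false_ne_true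
    | true =>
      rw [hk] at h'
      rcases List.mem_cons.mp ha with h1 | h1
      · rw [h1]; exact hk
      · exact ih h' h1

private theorem T2a_imp_spec {b c : Bool} (h : T2a_imp b c = true) (hb : b = true) : c = true := by
  subst hb; exact h

private theorem T2a_and_spec {b c : Bool} (h : T2a_and b c = true) : b = true ∧ c = true := by
  cases b with
  | false => exact absurd h Bool.false_ne_true
  | true => exact ⟨rfl, h⟩

private theorem T2a_or_right {b c : Bool} (hb : c = true) : T2a_or b c = true := by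
  subst hb; cases b <;> rfl

private theorem T2a_or_left {b c : Bool} (hb : b = true) : T2a_or b c = true := by
  subst hb; rfl

private noncomputable def T2a_np (a c : ℕ) : Bool := T2a_or (T2a_imp (Nat.testBit a 5) false) (T2a_and (T2a_imp (isIn c) false) (T2a_imp (isOut c) false))

private theorem T2a_np_spec {a c : ℕ} (hp : a.testBit 5 = true → isIn c = false ∧ isOut c = false) : T2a_np a c = true := by
  cases h : a.testBit 5 with
  | false =>
    refine T2a_or_left ?_
    rw [h]; rfl
  | true =>
    obtain ⟨h1, h2⟩ := hp h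
    refine T2a_or_right ?_
    rw [h1, h2]; rfl

private noncomputable def T2a_c1 (κ : Bool) : Bool :=
  T2a_allL faceL (fun a => T2a_all 7 (fun i => T2a_imp (Nat.testBit a i)
    (T2a_all 200 (fun c => T2a_imp (T2a_np a c) (Nat.beq (lab κ a (rr κ i c)) (lab κ a c))))))

private theorem T2a_1t : T2a_c1 true = true := by decide +kernel

private theorem T2a_1f : T2a_c1 false = true := by decide +kernel

private theorem T2a_1 (κ : Bool) : T2a_c1 κ = true := by
  cases κ
  · exact T2a_1f
  · exact T2a_1t

private noncomputable def T2a_c2 (κ : Bool) : Bool :=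
  T2a_allL faceL (fun a => T2a_all 200 (fun c => T2a_imp (T2a_np a c) (Nat.ble (Nat.succ (lab κ a c)) 2393)))

private theorem T2a_2 (κ : Bool) : T2a_c2 κ = true := by
  cases κ <;> decide +kernel

private noncomputable def T2a_mem (x : ℕ) (l : List ℕ) : Bool := List.rec false (fun a _ ih => Bool.rec ih true (Nat.beq a x)) l

private theorem T2a_mem_spec (x : ℕ) (l : List ℕ) (h : x ∈ l) : T2a_mem x l = true := by
  induction l with
  | nil => exact absurd h List.not_mem_nil
  | cons a t ih =>
    have e : T2a_mem x (a :: t) = (Bool.rec (T2a_mem x t) true (Nat.beq a x) : Bool) := rfl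
    rw [e]
    rcases List.mem_cons.mp h with h1 | h1
    · have : Nat.beq a x = true := by rw [h1]; exact Nat.beq_refl a
      rw [this]
    · rw [ih h1]; cases Nat.beq a x <;> rfl

private noncomputable def T2a_c3 (κ : Bool) : Bool :=
  T2a_allL faceL (fun a => T2a_imp (T2a_mem (a + 32) faceL) (T2a_imp (T2a_imp (Nat.testBit a 5) false)
    (T2a_all 200 (fun c => T2a_and
      (T2a_imp (isOut c) (T2a_and (Nat.beq (lab κ a c) (lab true a c)) (Nat.ble (Nat.succ (lab κ a c)) 52)))
      (T2a_imp (isIn c) (T2a_and (Nat.beq (lab κ a c) (lab true a c))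
        (T2a_and (Nat.ble 52 (lab κ a c)) (Nat.ble (Nat.succ (lab κ a c)) 104))))))))

private theorem T2a_3 (κ : Bool) : T2a_c3 κ = true := by
  cases κ <;> decide +kernel

/-- The label is constant on the orbits of the walls through the face. -/
theorem lab_rr (κ : Bool) (a i c : ℕ) (ha : a ∈ faceL) (hi : i < 7) (hai : a.testBit i = true) (hc : c < 200)
    (hp : a.testBit 5 = true → isIn c = false ∧ isOut c = false) : lab κ a (rr κ i c) = lab κ a c := by
  have h1 := T2a_allL_spec _ _ (T2a_1 κ) a ha
  have h2 := T2a_all_spec _ _ h1 i hi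
  have h3 := T2a_all_spec _ _ (T2a_imp_spec h2 hai) c hc
  exact Nat.eq_of_beq_eq_true (T2a_imp_spec h3 (T2a_np_spec hp))

theorem lab_lt (κ : Bool) (a c : ℕ) (ha : a ∈ faceL) (hc : c < 200)
    (hp : a.testBit 5 = true → isIn c = false ∧ isOut c = false) : lab κ a c < 2393 := by
  have h1 := T2a_allL_spec _ _ (T2a_2 κ) a ha
  have h3 := T2a_all_spec _ _ h1 c hc
  exact Nat.le_of_ble_eq_true (T2a_imp_spec h3 (T2a_np_spec hp))

/-- The labels of the faces of a port in the port. -/
theorem lab_out (κ : Bool) (a c : ℕ) (ha : a ∈ faceL) (ha' : a + 32 ∈ faceL) (h5 : a.testBit 5 = false) (hc : c < 200)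
    (h : isOut c = true) : lab κ a c = lab true a c ∧ lab κ a c < 52 := by
  have h1 := T2a_allL_spec _ _ (T2a_3 κ) a ha
  have h2 := T2a_imp_spec h1 (T2a_mem_spec _ _ ha')
  have h3 := T2a_imp_spec h2 (by rw [h5]; rfl)
  have h4 := T2a_imp_spec (T2a_and_spec (T2a_all_spec _ _ h3 c hc)).1 h
  have h6 := T2a_and_spec h4
  exact ⟨Nat.eq_of_beq_eq_true h6.1, Nat.le_of_ble_eq_true h6.2⟩

theorem lab_in (κ : Bool) (a c : ℕ) (ha : a ∈ faceL) (ha' : a + 32 ∈ faceL) (h5 : a.testBit 5 = false) (hc : c < 200)
    (h : isIn c = true) : lab κ a c = lab true a c ∧ 52 ≤ lab κ a c ∧ lab κ a c < 104 := by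
  have h1 := T2a_allL_spec _ _ (T2a_3 κ) a ha
  have h2 := T2a_imp_spec h1 (T2a_mem_spec _ _ ha')
  have h3 := T2a_imp_spec h2 (by rw [h5]; rfl)
  have h4 := T2a_imp_spec (T2a_and_spec (T2a_all_spec _ _ h3 c hc)).2 h
  have h6 := T2a_and_spec h4
  have h7 := T2a_and_spec h6.2
  exact ⟨Nat.eq_of_beq_eq_true h6.1, Nat.le_of_ble_eq_true h7.1, Nat.le_of_ble_eq_true h7.2⟩

end Pool.Agent.MP_455d73_gt.CS
end
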