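import Pool.Agent.Lib.MP_455d73_gt.Mg.G016

section

/-!
TASK K3 (medium): construction and deletion. Equations by `rfl`, inductions as in K2.

`treeN_flat`: for general `cur`, `c` by induction on `N`: `x ∈ flat (treeN N cur c) [] ↔ x ∈ N ∨ x ∈ cur`, and `WF`.
`bal_spec`: first `take_spec`: `take n l acc k = true → ∃ T r, k T r = true ∧ WF T ∧ ∀ x, (x ∈ flat T [] ∨ x ∈ r) ↔ (x ∈ l ∨ x ∈ acc)` (induction
on `n`, for all `l`, `acc`); then induction on `d` for all `l`, `k`.
`spl_spec`: `spl a l r t k = true → ∃ r' t', k r' t' = true ∧ ∀ x, x ∈ r' ↔ (x ∈ l ∧ Nat.land a x ≠ a) ∨ x ∈ r` (induction on `l`).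
`del_spec`: induction on `T`, for all `N`, `k`. Leaf: `spl_spec`; cases `t'`, `N`. Node: if `Nat.land a m ≠ a` nothing below contains `a` (as
`a ⊆ f ⊆ m` would give `Nat.land a m = a`). Else use the induction hypotheses for `s`, then `t`, and `flat_node`, `WF_node`.
-/

set_option autoImplicit false

namespace Pool.Agent.MP_455d73_gt.CS.K

private theorem K3_treeN_nil (cur : List Nat) (c : Nat) : treeN [] cur c = Tr.lf cur := rfl

private theorem K3_treeN_cons (f : Nat) (N cur : List Nat) (c : Nat) :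
    treeN (f :: N) cur c = Bool.rec (treeN N (f :: cur) (Nat.succ c))
      (node (Tr.lf (f :: cur)) (treeN N [] 0)) (Nat.beq c 7) := rfl

theorem treeN_spec (N cur : List Nat) (c : Nat) :
    WF (treeN N cur c) ∧ ∀ x, x ∈ flat (treeN N cur c) [] ↔ x ∈ N ∨ x ∈ cur := by
  induction N generalizing cur c with
  | nil =>
    rw [K3_treeN_nil]
    refine ⟨trivial, fun x => ?_⟩
    rw [flat_lf]
    simp
  | cons f N ih =>
    rw [K3_treeN_cons]
    cases Nat.beq c 7 with
    | false =>
      obtain ⟨h1, h2⟩ := ih (f :: cur) (Nat.succ c)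
      refine ⟨h1, fun x => ?_⟩
      show x ∈ flat (treeN N (f :: cur) (Nat.succ c)) [] ↔ _
      rw [h2 x, List.mem_cons, List.mem_cons]
      constructor
      · rintro (h | h | h)
        · exact Or.inl (Or.inr h)
        · exact Or.inl (Or.inl h)
        · exact Or.inr h
      · rintro ((h | h) | h)
        · exact Or.inr (Or.inl h)
        · exact Or.inl h
        · exact Or.inr (Or.inr h)
    | true =>
      obtain ⟨h1, h2⟩ := ih [] 0
      refine ⟨WF_node _ _ trivial h1, fun x => ?_⟩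
      show x ∈ flat (node (Tr.lf (f :: cur)) (treeN N [] 0)) [] ↔ _
      rw [flat_node, List.mem_append, h2 x, flat_lf, List.append_nil, List.mem_cons, List.mem_cons]
      constructor
      · rintro ((h | h) | (h | h))
        · exact Or.inl (Or.inl h)
        · exact Or.inr h
        · exact Or.inl (Or.inr h)
        · exact absurd h (List.not_mem_nil)
      · rintro ((h | h) | h)
        · exact Or.inl (Or.inl h)
        · exact Or.inr (Or.inl h)
        · exact Or.inl (Or.inr h)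

private theorem K3_take_zero (l acc : List Nat) (k : Tr → List Nat → Bool) : take 0 l acc k = k (Tr.lf acc) l := rfl

private theorem K3_take_nil (n : Nat) (acc : List Nat) (k : Tr → List Nat → Bool) :
    take (n + 1) [] acc k = k (Tr.lf acc) [] := rfl

private theorem K3_take_cons (n : Nat) (f : Nat) (l acc : List Nat) (k : Tr → List Nat → Bool) :
    take (n + 1) (f :: l) acc k = take n l (f :: acc) k := rfl

private theorem K3_take_spec (n : Nat) (l acc : List Nat) (k : Tr → List Nat → Bool) (h : take n l acc k = true) :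
    ∃ T r, k T r = true ∧ WF T ∧ ∀ x, (x ∈ flat T [] ∨ x ∈ r) ↔ (x ∈ l ∨ x ∈ acc) := by
  induction n generalizing l acc with
  | zero =>
    rw [K3_take_zero] at h
    refine ⟨Tr.lf acc, l, h, trivial, fun x => ?_⟩
    rw [flat_lf, List.append_nil]
    exact Or.comm
  | succ n ih =>
    cases l with
    | nil =>
      rw [K3_take_nil] at h
      refine ⟨Tr.lf acc, [], h, trivial, fun x => ?_⟩
      rw [flat_lf, List.append_nil]
      exact Or.comm
    | cons f l =>
      rw [K3_take_cons] at h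
      obtain ⟨T, r, h1, h2, h3⟩ := ih l (f :: acc) h
      refine ⟨T, r, h1, h2, fun x => ?_⟩
      rw [h3 x, List.mem_cons, List.mem_cons]
      constructor
      · rintro (h | h | h)
        · exact Or.inl (Or.inr h)
        · exact Or.inl (Or.inl h)
        · exact Or.inr h
      · rintro ((h | h) | h)
        · exact Or.inr (Or.inl h)
        · exact Or.inl h
        · exact Or.inr (Or.inr h)

private theorem K3_bal_zero (l : List Nat) (k : Tr → List Nat → Bool) : bal 0 l k = take 6 l [] k := rfl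

private theorem K3_bal_succ (d : Nat) (l : List Nat) (k : Tr → List Nat → Bool) :
    bal (d + 1) l k = bal d l fun s l1 => bal d l1 fun t l2 => k (node s t) l2 := rfl

theorem bal_spec (d : Nat) (l : List Nat) (k : Tr → List Nat → Bool) (h : bal d l k = true) :
    ∃ T r, k T r = true ∧ WF T ∧ ∀ x, (x ∈ flat T [] ∨ x ∈ r) ↔ x ∈ l := by
  induction d generalizing l k with
  | zero =>
    rw [K3_bal_zero] at h
    obtain ⟨T, r, h1, h2, h3⟩ := K3_take_spec 6 l [] k h
    refine ⟨T, r, h1, h2, fun x => ?_⟩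
    rw [h3 x]
    constructor
    · rintro (h | h)
      · exact h
      · exact absurd h (List.not_mem_nil)
    · exact Or.inl
  | succ d ih =>
    rw [K3_bal_succ] at h
    obtain ⟨s, l1, h1, h2, h3⟩ := ih l _ h
    obtain ⟨t, l2, g1, g2, g3⟩ := ih l1 _ h1
    refine ⟨node s t, l2, g1, WF_node s t h2 g2, fun x => ?_⟩
    rw [flat_node, List.mem_append, or_assoc, g3 x, h3 x]

private theorem K3_spl_nil (a : Nat) (r : List Nat) (t : Bool) (k : List Nat → Bool → Bool) :
    spl a [] r t k = k r t := rfl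

private theorem K3_spl_cons (a f : Nat) (l r : List Nat) (t : Bool) (k : List Nat → Bool → Bool) :
    spl a (f :: l) r t k = Bool.rec (spl a l (f :: r) t k) (spl a l r true k) (Nat.beq (Nat.land a f) a) := rfl

private theorem K3_spl_spec (a : Nat) (l r : List Nat) (t : Bool) (k : List Nat → Bool → Bool)
    (h : spl a l r t k = true) :
    ∃ r' t', k r' t' = true ∧ ∀ x, x ∈ r' ↔ (x ∈ l ∧ Nat.land a x ≠ a) ∨ x ∈ r := by
  induction l generalizing r t with
  | nil =>
    rw [K3_spl_nil] at h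
    refine ⟨r, t, h, fun x => ?_⟩
    constructor
    · exact Or.inr
    · rintro (⟨h, _⟩ | h)
      · exact absurd h (List.not_mem_nil)
      · exact h
  | cons f l ih =>
    rw [K3_spl_cons] at h
    cases hb : Nat.beq (Nat.land a f) a with
    | false =>
      rw [hb] at h
      have hne : Nat.land a f ≠ a := by
        intro he
        rw [he, Nat.beq_refl] at hb
        exact Bool.noConfusion hb
      obtain ⟨r', t', h1, h2⟩ := ih (f :: r) t h
      refine ⟨r', t', h1, fun x => ?_⟩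
      rw [h2 x, List.mem_cons, List.mem_cons]
      constructor
      · rintro (⟨h3, h4⟩ | h3 | h3)
        · exact Or.inl ⟨Or.inr h3, h4⟩
        · exact Or.inl ⟨Or.inl h3, by rw [h3]; exact hne⟩
        · exact Or.inr h3
      · rintro (⟨h3 | h3, h4⟩ | h3)
        · exact Or.inr (Or.inl h3)
        · exact Or.inl ⟨h3, h4⟩
        · exact Or.inr (Or.inr h3)
    | true =>
      rw [hb] at h
      have he : Nat.land a f = a := Nat.eq_of_beq_eq_true hb
      obtain ⟨r', t', h1, h2⟩ := ih r true h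
      refine ⟨r', t', h1, fun x => ?_⟩
      rw [h2 x, List.mem_cons]
      constructor
      · rintro (⟨h3, h4⟩ | h3)
        · exact Or.inl ⟨Or.inr h3, h4⟩
        · exact Or.inr h3
      · rintro (⟨h3 | h3, h4⟩ | h3)
        · exact absurd (by rw [h3]; exact he) h4
        · exact Or.inl ⟨h3, h4⟩
        · exact Or.inr h3

private theorem K3_del_lf (a : Nat) (l N : List Nat) (k : Tr → List Nat → Bool) :
    del a (Tr.lf l) N k = spl a l [] false fun r t =>
      Bool.rec (k (Tr.lf r) N) (List.rec (k (Tr.lf r) N) (fun _ _ _ => k (node (Tr.lf r) (treeN N [] 0)) []) N) t := rfl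

private theorem K3_del_nd (a m : Nat) (s t : Tr) (N : List Nat) (k : Tr → List Nat → Bool) :
    del a (Tr.nd m s t) N k = Bool.rec (k (Tr.nd m s t) N)
      (del a s N fun s' N' => del a t N' fun t' N'' => k (node s' t') N'') (Nat.beq (Nat.land a m) a) := rfl

private theorem K3_land_trans (a f m : Nat) (h1 : Nat.land a f = a) (h2 : Nat.land f m = f) : Nat.land a m = a := by
  have h3 : a &&& f = a := h1
  have h4 : f &&& m = f := h2
  show a &&& m = a
  calc a &&& m = (a &&& f) &&& m := by rw [h3]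
    _ = a &&& (f &&& m) := Nat.and_assoc a f m
    _ = a &&& f := by rw [h4]
    _ = a := h3

theorem del_spec (a : Nat) (T : Tr) (hT : WF T) (N : List Nat) (k : Tr → List Nat → Bool) (h : del a T N k = true) :
    ∃ T' N', k T' N' = true ∧ WF T' ∧
      ∀ x, (x ∈ flat T' [] ∨ x ∈ N') ↔ ((x ∈ flat T [] ∧ Nat.land a x ≠ a) ∨ x ∈ N) := by
  induction T generalizing N k with
  | lf l =>
    rw [K3_del_lf] at h
    obtain ⟨r', t', h1, h2⟩ := K3_spl_spec a l [] false _ h
    have h2' : ∀ x, x ∈ r' ↔ (x ∈ l ∧ Nat.land a x ≠ a) := by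
      intro x
      rw [h2 x]
      constructor
      · rintro (h | h)
        · exact h
        · exact absurd h (List.not_mem_nil)
      · exact Or.inl
    have key : k (Tr.lf r') N = true → ∃ T' N', k T' N' = true ∧ WF T' ∧
        ∀ x, (x ∈ flat T' [] ∨ x ∈ N') ↔ ((x ∈ flat (Tr.lf l) [] ∧ Nat.land a x ≠ a) ∨ x ∈ N) := by
      intro h3
      refine ⟨Tr.lf r', N, h3, trivial, fun x => ?_⟩
      rw [flat_lf, flat_lf, List.append_nil, List.append_nil, h2' x]
    cases t' with
    | false => exact key h1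
    | true =>
      cases N with
      | nil => exact key h1
      | cons f N =>
        have h3 : k (node (Tr.lf r') (treeN (f :: N) [] 0)) [] = true := h1
        obtain ⟨g1, g2⟩ := treeN_spec (f :: N) [] 0
        refine ⟨_, [], h3, WF_node _ _ trivial g1, fun x => ?_⟩
        rw [flat_node, List.mem_append, g2 x, flat_lf, flat_lf, List.append_nil, List.append_nil, h2' x]
        constructor
        · rintro ((h | (h | h)) | h)
          · exact Or.inl h
          · exact Or.inr h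
          · exact absurd h (List.not_mem_nil)
          · exact absurd h (List.not_mem_nil)
        · rintro (h | h)
          · exact Or.inl (Or.inl h)
          · exact Or.inl (Or.inr (Or.inl h))
  | nd m s t ihs iht =>
    obtain ⟨w1, w2, w3, w4⟩ := hT
    rw [K3_del_nd] at h
    cases hb : Nat.beq (Nat.land a m) a with
    | false =>
      rw [hb] at h
      have hne : Nat.land a m ≠ a := by
        intro he
        rw [he, Nat.beq_refl] at hb
        exact Bool.noConfusion hb
      refine ⟨Tr.nd m s t, N, h, ⟨w1, w2, w3, w4⟩, fun x => ?_⟩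
      have h3 : x ∈ flat (Tr.nd m s t) [] → Nat.land a x ≠ a := by
        intro h4 h5
        rw [flat_nd, List.mem_append] at h4
        rcases h4 with h4 | h4
        · exact hne (K3_land_trans a x m h5 (w1 x h4))
        · exact hne (K3_land_trans a x m h5 (w2 x h4))
      constructor
      · rintro (h4 | h4)
        · exact Or.inl ⟨h4, h3 h4⟩
        · exact Or.inr h4
      · rintro (⟨h4, _⟩ | h4)
        · exact Or.inl h4
        · exact Or.inr h4
    | true =>
      rw [hb] at h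
      have h' : (del a s N fun s' N' => del a t N' fun t' N'' => k (node s' t') N'') = true := h
      obtain ⟨s', N', h1, h2, h3⟩ := ihs w3 N _ h'
      obtain ⟨t', N'', g1, g2, g3⟩ := iht w4 N' _ h1
      refine ⟨node s' t', N'', g1, WF_node _ _ h2 g2, fun x => ?_⟩
      rw [flat_node, flat_nd, List.mem_append, List.mem_append, or_assoc, g3 x]
      have h3x := h3 x
      constructor
      · rintro (h4 | ⟨h4, h5⟩ | h4)
        · rcases h3x.1 (Or.inl h4) with ⟨h6, h7⟩ | h6
          · exact Or.inl ⟨Or.inl h6, h7⟩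
          · exact Or.inr h6
        · exact Or.inl ⟨Or.inr h4, h5⟩
        · rcases h3x.1 (Or.inr h4) with ⟨h6, h7⟩ | h6
          · exact Or.inl ⟨Or.inl h6, h7⟩
          · exact Or.inr h6
      · rintro (⟨h4 | h4, h5⟩ | h4)
        · rcases h3x.2 (Or.inl ⟨h4, h5⟩) with h6 | h6
          · exact Or.inl h6
          · exact Or.inr (Or.inr h6)
        · exact Or.inr (Or.inl ⟨h4, h5⟩)
        · rcases h3x.2 (Or.inr h4) with h6 | h6
          · exact Or.inl h6
          · exact Or.inr (Or.inr h6)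

end Pool.Agent.MP_455d73_gt.CS.K
end

section

/-!
TASK K4 (medium): one step of the program satisfies `St`. Equations by `rfl`, inductions as in K2.

Small lemmas (induction on the list): `memN x l = true ↔ x ∈ l`; `subL l l' = true → ∀ x ∈ l, x ∈ l'`; `eqL l l' = true → l = l'`;
`one b Bs s = true → ∀ f ∈ s, Nat.xor b (Nat.land b f) ∈ Bs`; `y ∈ parts ab x s ↔ ∃ f ∈ s, Nat.land f x = 0 ∧ y = Nat.xor (Nat.lor f ab) ab`;
`allB ab s Ls Bs = true → ∀ x ∈ Bs, ∀ y, y ∈ Ls ↔ y ∈ parts ab x s`; `y ∈ newF ab As Ls ↔ ∃ l ∈ Ls, ∃ v ∈ As, y = Nat.add (Nat.sub ab v) l`;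
`offJ a b J = true → ∀ j ∈ J, Nat.land a j ≠ a ∧ Nat.land b j ≠ b`; `ifNil l k = true → l = [] ∧ k = true`.
`step_spec`: unfold `step`, `step2` (nested `Bool.rec false X c = true` means `c = true` and `X = true`); `Bs = b0 :: Bt`;
`Ls = parts (a + b) b0 s` and by `allB` every `parts (a + b) x s`, `x ∈ Bs`, has the same elements; `s = star a T []` (`mem_star`).
`part`: `f` with `Nat.land f x = 0` gives an element of `parts (a + b) x s`, so of `parts (a + b) y s`.
`mem`: `del_spec` with `N' = []` and `newF`; an `f` in the star misses exactly one element of `Bs` (`one`), i.e. `Nat.land f x = 0` for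
`x = Nat.xor b (Nat.land b f) ∈ Bs` (as `x` has the digits of `b` not in `f`), so its part is in `Ls`.
`bits_spec`: every element of `bits k x` is a power of two (`vtx`).
-/

set_option autoImplicit false

namespace Pool.Agent.MP_455d73_gt.CS.K

private theorem K4_and (X c : Bool) (h : @Bool.rec (fun _ => Bool) false X c = true) : c = true ∧ X = true := by
  cases c
  · exact absurd h (by simp)
  · exact ⟨rfl, h⟩

private theorem K4_beq (x y : Nat) (h : Nat.beq x y = true) : x = y := Nat.eq_of_beq_eq_true h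

private theorem K4_beq_false (x y : Nat) (h : Nat.beq x y = false) : x ≠ y := Nat.ne_of_beq_eq_false h

private theorem K4_memN (x : Nat) (l : List Nat) (h : memN x l = true) : x ∈ l := by
  induction l with
  | nil => exact absurd h (by simp [memN])
  | cons y l ih =>
    have e : memN x (y :: l) = @Bool.rec (fun _ => Bool) (memN x l) true (Nat.beq x y) := rfl
    rw [e] at h
    cases hb : Nat.beq x y with
    | false =>
      rw [hb] at h
      exact List.mem_cons_of_mem _ (ih h)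
    | true =>
      rw [K4_beq x y hb]
      exact List.mem_cons_self

theorem eqL_spec (l l' : List Nat) (h : eqL l l' = true) : l = l' := by
  induction l generalizing l' with
  | nil =>
    cases l' with
    | nil => rfl
    | cons y t => exact absurd h (by simp [eqL])
  | cons x l ih =>
    cases l' with
    | nil => exact absurd h (by simp [eqL])
    | cons y t =>
      have e : eqL (x :: l) (y :: t) = @Bool.rec (fun _ => Bool) false (eqL l t) (Nat.beq x y) := rfl
      rw [e] at h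
      obtain ⟨h1, h2⟩ := K4_and _ _ h
      rw [K4_beq x y h1, ih t h2]

theorem subL_spec (l l' : List Nat) (h : subL l l' = true) : ∀ x ∈ l, x ∈ l' := by
  induction l with
  | nil => intro x hx; exact absurd hx (by simp)
  | cons y l ih =>
    have e : subL (y :: l) l' = @Bool.rec (fun _ => Bool) false (subL l l') (memN y l') := rfl
    rw [e] at h
    obtain ⟨h1, h2⟩ := K4_and _ _ h
    intro x hx
    rcases List.mem_cons.1 hx with rfl | hx
    · exact K4_memN _ _ h1
    · exact ih h2 x hx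

theorem ifNil_spec (l : List Nat) (k : Bool) (h : ifNil l k = true) : l = [] ∧ k = true := by
  cases l with
  | nil => exact ⟨rfl, h⟩
  | cons y l => exact absurd h (by simp [ifNil])

theorem bits_spec (k x : Nat) : ∀ y ∈ bits k x, ∃ v, y = 2 ^ v := by
  induction k generalizing x with
  | zero => intro y hy; exact absurd hy (by simp [bits])
  | succ k ih =>
    have e : bits (k + 1) x = vtx x :: bits k (Nat.div x 4096) := rfl
    rw [e]
    intro y hy
    rcases List.mem_cons.1 hy with rfl | hy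
    · exact ⟨Nat.mod x 4096, rfl⟩
    · exact ih _ y hy

private theorem K4_one (b : Nat) (Bs s : List Nat) (h : one b Bs s = true) : ∀ f ∈ s, Nat.xor b (Nat.land f b) ∈ Bs := by
  induction s with
  | nil => intro f hf; exact absurd hf (by simp)
  | cons g s ih =>
    have e : one b Bs (g :: s) = @Bool.rec (fun _ => Bool) false (one b Bs s) (memN (Nat.xor b (Nat.land g b)) Bs) := rfl
    rw [e] at h
    obtain ⟨h1, h2⟩ := K4_and _ _ h
    intro f hf
    rcases List.mem_cons.1 hf with rfl | hf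
    · exact K4_memN _ _ h1
    · exact ih h2 f hf

private theorem K4_parts (ab x : Nat) (s : List Nat) (y : Nat) :
    y ∈ parts ab x s ↔ ∃ f ∈ s, Nat.land f x = 0 ∧ y = Nat.xor (Nat.lor f ab) ab := by
  induction s with
  | nil => simp [parts]
  | cons g s ih =>
    have e : parts ab x (g :: s) = @Bool.rec (fun _ => List Nat) (parts ab x s) (Nat.xor (Nat.lor g ab) ab :: parts ab x s)
      (Nat.beq (Nat.land g x) 0) := rfl
    rw [e]
    cases hb : Nat.beq (Nat.land g x) 0 with
    | false =>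
      have hne := K4_beq_false _ _ hb
      change y ∈ parts ab x s ↔ _
      rw [ih]
      constructor
      · rintro ⟨f, hf, h⟩
        exact ⟨f, List.mem_cons_of_mem _ hf, h⟩
      · rintro ⟨f, hf, h⟩
        rcases List.mem_cons.1 hf with rfl | hf
        · exact absurd h.1 hne
        · exact ⟨f, hf, h⟩
    | true =>
      have he := K4_beq _ _ hb
      change y ∈ Nat.xor (Nat.lor g ab) ab :: parts ab x s ↔ _
      rw [List.mem_cons, ih]
      constructor
      · rintro (rfl | ⟨f, hf, h⟩)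
        · exact ⟨g, List.mem_cons_self, he, rfl⟩
        · exact ⟨f, List.mem_cons_of_mem _ hf, h⟩
      · rintro ⟨f, hf, h⟩
        rcases List.mem_cons.1 hf with rfl | hf
        · exact Or.inl h.2
        · exact Or.inr ⟨f, hf, h⟩

private theorem K4_allB (ab : Nat) (s Ls Bs : List Nat) (h : allB ab s Ls Bs = true) :
    ∀ x ∈ Bs, ∀ y, y ∈ Ls ↔ y ∈ parts ab x s := by
  induction Bs with
  | nil => intro x hx; exact absurd hx (by simp)
  | cons b Bs ih =>
    have e : allB ab s Ls (b :: Bs) = @Bool.rec (fun _ => Bool) (@Bool.rec (fun _ => Bool) false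
      (@Bool.rec (fun _ => Bool) false (allB ab s Ls Bs) (subL (parts ab b s) Ls)) (subL Ls (parts ab b s)))
      (allB ab s Ls Bs) (eqL Ls (parts ab b s)) := rfl
    rw [e] at h
    cases hb : eqL Ls (parts ab b s) with
    | true =>
      rw [hb] at h
      have he := eqL_spec _ _ hb
      intro x hx
      rcases List.mem_cons.1 hx with rfl | hx
      · intro y
        rw [← he]
      · exact ih h x hx
    | false =>
      rw [hb] at h
      obtain ⟨h1, h2⟩ := K4_and _ _ h
      obtain ⟨h3, h4⟩ := K4_and _ _ h2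
      intro x hx
      rcases List.mem_cons.1 hx with rfl | hx
      · exact fun y => ⟨fun hy => subL_spec _ _ h1 y hy, fun hy => subL_spec _ _ h3 y hy⟩
      · exact ih h4 x hx

private theorem K4_insA (ab l : Nat) (As t : List Nat) (y : Nat) :
    y ∈ insA ab l As t ↔ (∃ v ∈ As, y = Nat.add (Nat.sub ab v) l) ∨ y ∈ t := by
  induction As with
  | nil =>
    change y ∈ t ↔ _
    simp
  | cons a As ih =>
    have e : insA ab l (a :: As) t = Nat.add (Nat.sub ab a) l :: insA ab l As t := rfl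
    rw [e, List.mem_cons, ih]
    constructor
    · rintro (rfl | ⟨v, hv, h⟩ | h)
      · exact Or.inl ⟨a, List.mem_cons_self, rfl⟩
      · exact Or.inl ⟨v, List.mem_cons_of_mem _ hv, h⟩
      · exact Or.inr h
    · rintro (⟨v, hv, h⟩ | h)
      · rcases List.mem_cons.1 hv with rfl | hv
        · exact Or.inl h
        · exact Or.inr (Or.inl ⟨v, hv, h⟩)
      · exact Or.inr (Or.inr h)

private theorem K4_newF (ab : Nat) (As Ls : List Nat) (y : Nat) :
    y ∈ newF ab As Ls ↔ ∃ l ∈ Ls, ∃ v ∈ As, y = Nat.add (Nat.sub ab v) l := by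
  induction Ls with
  | nil => simp [newF]
  | cons l Ls ih =>
    have e : newF ab As (l :: Ls) = insA ab l As (newF ab As Ls) := rfl
    rw [e, K4_insA, ih]
    constructor
    · rintro (⟨v, hv, h⟩ | ⟨l', hl', h⟩)
      · exact ⟨l, List.mem_cons_self, v, hv, h⟩
      · exact ⟨l', List.mem_cons_of_mem _ hl', h⟩
    · rintro ⟨l', hl', h⟩
      rcases List.mem_cons.1 hl' with rfl | hl'
      · exact Or.inl h
      · exact Or.inr ⟨l', hl', h⟩

private theorem K4_off (a b : Nat) (J : List Nat) (h : offJ a b J = true) :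
    ∀ j ∈ J, Nat.land a j ≠ a ∧ Nat.land b j ≠ b := by
  induction J with
  | nil => intro x hx; exact absurd hx (by simp)
  | cons c J ih =>
    have e : offJ a b (c :: J) = @Bool.rec (fun _ => Bool) (@Bool.rec (fun _ => Bool) (offJ a b J) false
      (Nat.beq (Nat.land b c) b)) false (Nat.beq (Nat.land a c) a) := rfl
    rw [e] at h
    cases h1 : Nat.beq (Nat.land a c) a with
    | true =>
      rw [h1] at h
      exact absurd h (by simp)
    | false =>
      rw [h1] at h
      cases h2 : Nat.beq (Nat.land b c) b with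
      | true =>
        rw [h2] at h
        exact absurd h (by simp)
      | false =>
        rw [h2] at h
        intro x hx
        rcases List.mem_cons.1 hx with rfl | hx
        · exact ⟨K4_beq_false _ _ h1, K4_beq_false _ _ h2⟩
        · exact ih h x hx

private theorem K4_miss (b f : Nat) : Nat.land f (Nat.xor b (Nat.land b f)) = 0 := by
  change f &&& (b ^^^ (b &&& f)) = 0
  apply Nat.eq_of_testBit_eq
  intro i
  simp only [Nat.testBit_and, Nat.testBit_xor, Nat.zero_testBit]
  cases f.testBit i <;> cases b.testBit i <;> rfl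

private theorem K4_comm (b f : Nat) : Nat.land f b = Nat.land b f := by
  change f &&& b = b &&& f
  exact Nat.and_comm f b

private theorem K4_step2 (a b : Nat) (As Bs s : List Nat) (T : Tr) (k : Tr → Bool) (h : step2 a b As Bs s T k = true) :
    one b Bs s = true ∧ ∃ b0 Bt, Bs = b0 :: Bt ∧ allB (Nat.add a b) s (parts (Nat.add a b) b0 s) Bt = true ∧
      del a T (newF (Nat.add a b) As (parts (Nat.add a b) b0 s)) (fun T' N => ifNil N (k T')) = true := by
  cases Bs with
  | nil =>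
    have e : step2 a b As [] s T k = @Bool.rec (fun _ => Bool) false false (one b [] s) := rfl
    rw [e] at h
    exact absurd (K4_and _ _ h).2 (by simp)
  | cons b0 Bt =>
    have e : step2 a b As (b0 :: Bt) s T k = @Bool.rec (fun _ => Bool) false (@Bool.rec (fun _ => Bool) false
      (del a T (newF (Nat.add a b) As (parts (Nat.add a b) b0 s)) (fun T' N => ifNil N (k T')))
      (allB (Nat.add a b) s (parts (Nat.add a b) b0 s) Bt)) (one b (b0 :: Bt) s) := rfl
    rw [e] at h
    obtain ⟨h1, h2⟩ := K4_and _ _ h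
    obtain ⟨h3, h4⟩ := K4_and _ _ h2
    exact ⟨h1, b0, Bt, rfl, h3, h4⟩

theorem step_spec (U : Nat) (J : List Nat) (As Bs : List Nat) (hA : ∀ x ∈ As, ∃ v, x = 2 ^ v)
    (hB : ∀ x ∈ Bs, ∃ v, x = 2 ^ v) (T : Tr) (hT : WF T) (k : Tr → Bool)
    (h : step U J (sumL As) (sumL Bs) As Bs T k = true) :
    ∃ T', k T' = true ∧ WF T' ∧ St U J (sumL As) (sumL Bs) As Bs (flat T []) (flat T' []) := by
  generalize ha : sumL As = a at h ⊢
  generalize hb : sumL Bs = b at h ⊢
  have e : step U J a b As Bs T k = @Bool.rec (fun _ => Bool) false (@Bool.rec (fun _ => Bool) false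
    (@Bool.rec (fun _ => Bool) false (@Bool.rec (fun _ => Bool) false (@Bool.rec (fun _ => Bool) false
    (@Bool.rec (fun _ => Bool) false (step2 a b As Bs (star a T []) T k) (noB b T)) (Nat.beq (Nat.land b U) b))
    (offJ a b J)) (Nat.beq (Nat.land a b) 0)) (Nat.beq (orL Bs) b)) (Nat.beq (orL As) a) := rfl
  rw [e] at h
  obtain ⟨h1, h⟩ := K4_and _ _ h
  obtain ⟨h2, h⟩ := K4_and _ _ h
  obtain ⟨h3, h⟩ := K4_and _ _ h
  obtain ⟨h4, h⟩ := K4_and _ _ h
  obtain ⟨h5, h⟩ := K4_and _ _ h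
  obtain ⟨h6, h⟩ := K4_and _ _ h
  obtain ⟨h7, b0, Bt, hBs, h8, h9⟩ := K4_step2 _ _ _ _ _ _ _ h
  obtain ⟨T', N', hk, hW, hm⟩ := del_spec a T hT _ _ h9
  obtain ⟨hN, hk⟩ := ifNil_spec _ _ hk
  subst hN
  have hstar : ∀ x, x ∈ star a T [] ↔ (x ∈ flat T [] ∧ Nat.land a x = a) := by
    intro x
    rw [mem_star a T hT x []]
    simp
  have hall : ∀ x ∈ Bs, ∀ y, y ∈ parts (Nat.add a b) b0 (star a T []) ↔ y ∈ parts (Nat.add a b) x (star a T []) := by
    intro x hx
    rw [hBs] at hx
    rcases List.mem_cons.1 hx with rfl | hx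
    · exact fun y => Iff.rfl
    · exact K4_allB _ _ _ _ h8 x hx
  have hone : ∀ f ∈ flat T [], Nat.land a f = a → Nat.xor b (Nat.land b f) ∈ Bs := by
    intro f hf haf
    have := K4_one _ _ _ h7 f ((hstar f).2 ⟨hf, haf⟩)
    rwa [K4_comm] at this
  refine ⟨T', hk, hW, ?_⟩
  refine ⟨hA, hB, ha, hb, K4_beq _ _ h1, K4_beq _ _ h2, K4_beq _ _ h3, K4_off _ _ _ h4, K4_beq _ _ h5,
    noB_spec b T hT h6, ?_, hone, ?_, ?_⟩
  · rw [hBs]
    exact List.cons_ne_nil _ _
  · intro x hx y hy f hf haf hfx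
    have hz : Nat.xor (Nat.lor f (Nat.add a b)) (Nat.add a b) ∈ parts (Nat.add a b) x (star a T []) :=
      (K4_parts _ _ _ _).2 ⟨f, (hstar f).2 ⟨hf, haf⟩, hfx, rfl⟩
    rw [← hall x hx, hall y hy] at hz
    obtain ⟨g, hg, hgy, hgz⟩ := (K4_parts _ _ _ _).1 hz
    obtain ⟨hg1, hg2⟩ := (hstar g).1 hg
    exact ⟨g, hg1, hg2, hgy, hgz.symm⟩
  · intro x
    have hx := hm x
    simp only [List.not_mem_nil, or_false] at hx
    rw [hx, K4_newF]
    constructor
    · rintro (h | ⟨l, hl, v, hv, hxl⟩)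
      · exact Or.inl h
      · obtain ⟨f, hf, -, hfl⟩ := (K4_parts _ _ _ _).1 hl
        obtain ⟨hf1, hf2⟩ := (hstar f).1 hf
        exact Or.inr ⟨f, hf1, hf2, v, hv, by rw [hxl, hfl]⟩
    · rintro (h | ⟨f, hf, haf, v, hv, hxf⟩)
      · exact Or.inl h
      · refine Or.inr ⟨Nat.xor (Nat.lor f (Nat.add a b)) (Nat.add a b), ?_, v, hv, hxf⟩
        rw [hall _ (hone f hf haf)]
        exact (K4_parts _ _ _ _).2 ⟨f, (hstar f).2 ⟨hf, haf⟩, K4_miss b f, rfl⟩

end Pool.Agent.MP_455d73_gt.CS.K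
end

section

/-!
TASK M1a (medium, elementary): masks and sets. `bs m = {v | m.testBit v}`.

`mem_bs`: if `m.testBit v` then `2 ^ v ≤ m` (`Nat.testBit_implies_ge` or `Nat.ge_two_pow_of_testBit`), so `v < 2 ^ v ≤ m`.
`bs_lor`, `bs_land`: `Nat.testBit_lor` (`Nat.testBit_or`), `Nat.testBit_and`; note that `Nat.lor m n` is `m ||| n`, `Nat.land m n` is `m &&& n`,
`Nat.xor m n` is `m ^^^ n` (by `rfl`). `land_eq_iff`: by `Nat.eq_of_testBit_eq`. `add_eq_lor`: if `m &&& n = 0` then
`m + n = m ||| n` (`Nat.add_eq_or_of_and_eq_zero`, or prove by binary induction / `Nat.xor` + `Nat.and` add). `bs_two_pow`: `Nat.testBit_two_pow`.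
`bs_orL`: induction on the list. `bs_sub`: if `x ||| r = m`, `x &&& r = 0` then `m - x = r` …: for `x = 2 ^ v` with `v ∈ bs m`:
`m = 2 ^ v + r` with `r = m ^^^ 2 ^ v`, `2 ^ v &&& r = 0`, so `m - 2 ^ v = r` and `bs r = (bs m).erase v`.
`bs_part`: `(f ||| m) ^^^ m` has the digits `(f_v ∨ m_v) xor m_v = f_v ∧ ¬ m_v`.
`sum_or`: a list of powers of two with `sumL = orL` has no repetition: not needed; but `bs (orL As) = {v | 2 ^ v ∈ As}` is `bs_orL_pow`.
-/

set_option autoImplicit false

open Finset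
open scoped Classical

namespace Pool.Agent.MP_455d73_gt.CS

theorem mem_bs (m v : ℕ) : v ∈ bs m ↔ m.testBit v = true := by
  unfold bs
  rw [mem_filter, mem_range]
  refine ⟨fun h => h.2, fun h => ⟨?_, h⟩⟩
  have h1 : 2 ^ v ≤ m := Nat.ge_two_pow_of_testBit h
  exact lt_of_lt_of_le Nat.lt_two_pow_self h1

theorem bs_zero : bs 0 = ∅ := by
  unfold bs
  rw [range_zero, filter_empty]

theorem bs_lor (m n : ℕ) : bs (Nat.lor m n) = bs m ∪ bs n := by
  ext v
  rw [mem_union, mem_bs, mem_bs, mem_bs]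
  show (m ||| n).testBit v = true ↔ _
  rw [Nat.testBit_or, Bool.or_eq_true]

theorem bs_land (m n : ℕ) : bs (Nat.land m n) = bs m ∩ bs n := by
  ext v
  rw [mem_inter, mem_bs, mem_bs, mem_bs]
  show (m &&& n).testBit v = true ↔ _
  rw [Nat.testBit_and, Bool.and_eq_true]

theorem bs_xor_land (b f : ℕ) : bs (Nat.xor b (Nat.land b f)) = bs b \ bs f := by
  ext v
  rw [mem_sdiff, mem_bs, mem_bs, mem_bs]
  show (b ^^^ (b &&& f)).testBit v = true ↔ _
  rw [Nat.testBit_xor, Nat.testBit_and]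
  cases b.testBit v <;> cases f.testBit v <;> simp

theorem bs_part (f m : ℕ) : bs (Nat.xor (Nat.lor f m) m) = bs f \ bs m := by
  ext v
  rw [mem_sdiff, mem_bs, mem_bs, mem_bs]
  show ((f ||| m) ^^^ m).testBit v = true ↔ _
  rw [Nat.testBit_xor, Nat.testBit_or]
  cases f.testBit v <;> cases m.testBit v <;> simp

theorem land_eq_iff (a f : ℕ) : Nat.land a f = a ↔ bs a ⊆ bs f := by
  constructor
  · intro h v hv
    rw [← h, bs_land, mem_inter] at hv
    exact hv.2
  · intro h
    refine Nat.eq_of_testBit_eq fun i => ?_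
    show (a &&& f).testBit i = a.testBit i
    rw [Nat.testBit_and]
    cases ha : a.testBit i
    · rfl
    · have h1 := h ((mem_bs a i).2 ha)
      rw [mem_bs] at h1
      rw [h1]
      rfl

theorem land_zero_iff (a f : ℕ) : Nat.land a f = 0 ↔ Disjoint (bs a) (bs f) := by
  rw [Finset.disjoint_left]
  constructor
  · intro h v h1 h2
    have h3 : v ∈ bs (Nat.land a f) := by
      rw [bs_land, mem_inter]
      exact ⟨h1, h2⟩
    rw [h, bs_zero] at h3
    simp at h3
  · intro h
    refine Nat.eq_of_testBit_eq fun i => ?_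
    rw [Nat.zero_testBit]
    by_contra hc
    rw [Bool.not_eq_false, ← mem_bs, bs_land, mem_inter] at hc
    exact h hc.1 hc.2

theorem bs_inj {m n : ℕ} (h : bs m = bs n) : m = n := by
  refine Nat.eq_of_testBit_eq fun i => ?_
  rw [Bool.eq_iff_iff, ← mem_bs, ← mem_bs, h]

theorem add_eq_lor (m n : ℕ) (h : Nat.land m n = 0) : Nat.add m n = Nat.lor m n := by
  have hm : m < 2 ^ (m + n) := lt_of_lt_of_le Nat.lt_two_pow_self (Nat.pow_le_pow_right (by norm_num) (Nat.le_add_right _ _))
  have hn : n < 2 ^ (m + n) := lt_of_lt_of_le Nat.lt_two_pow_self (Nat.pow_le_pow_right (by norm_num) (Nat.le_add_left _ _))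
  have hmn : m + n < 2 ^ (m + n) := Nat.lt_two_pow_self
  have h' : m &&& n = 0 := h
  have h1 : (BitVec.ofNat (m + n) m) &&& (BitVec.ofNat (m + n) n) = 0#(m + n) := by
    refine BitVec.eq_of_toNat_eq ?_
    rw [BitVec.toNat_and, BitVec.toNat_ofNat, BitVec.toNat_ofNat, Nat.mod_eq_of_lt hm, Nat.mod_eq_of_lt hn, h']
    simp
  have h2 := congrArg BitVec.toNat (BitVec.add_eq_or_of_and_eq_zero _ _ h1)
  rw [BitVec.toNat_add, BitVec.toNat_or, BitVec.toNat_ofNat, BitVec.toNat_ofNat, Nat.mod_eq_of_lt hm,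
    Nat.mod_eq_of_lt hn, Nat.mod_eq_of_lt hmn] at h2
  exact h2

theorem bs_two_pow (v : ℕ) : bs (2 ^ v) = {v} := by
  ext w
  rw [mem_bs, Nat.testBit_two_pow, mem_singleton, decide_eq_true_eq]
  exact eq_comm

theorem bs_sub (m v : ℕ) (h : v ∈ bs m) : bs (Nat.sub m (2 ^ v)) = (bs m).erase v := by
  have hv : m.testBit v = true := (mem_bs m v).1 h
  have h1 : Nat.land (2 ^ v) (Nat.xor m (2 ^ v)) = 0 := by
    refine Nat.eq_of_testBit_eq fun i => ?_
    show ((2 ^ v) &&& (m ^^^ (2 ^ v))).testBit i = (0 : ℕ).testBit i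
    rw [Nat.testBit_and, Nat.testBit_xor, Nat.testBit_two_pow, Nat.zero_testBit]
    by_cases hi : v = i
    · subst hi
      rw [hv]
      simp
    · simp [hi]
  have h2 : Nat.lor (2 ^ v) (Nat.xor m (2 ^ v)) = m := by
    refine Nat.eq_of_testBit_eq fun i => ?_
    show ((2 ^ v) ||| (m ^^^ (2 ^ v))).testBit i = m.testBit i
    rw [Nat.testBit_or, Nat.testBit_xor, Nat.testBit_two_pow]
    by_cases hi : v = i
    · subst hi
      rw [hv]
      simp
    · simp [hi]
  have h3 : 2 ^ v + Nat.xor m (2 ^ v) = m := (add_eq_lor _ _ h1).trans h2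
  have h4 : Nat.sub m (2 ^ v) = Nat.xor m (2 ^ v) := by
    show m - 2 ^ v = Nat.xor m (2 ^ v)
    omega
  rw [h4]
  ext w
  rw [mem_erase, mem_bs, mem_bs]
  show (m ^^^ (2 ^ v)).testBit w = true ↔ _
  rw [Nat.testBit_xor, Nat.testBit_two_pow]
  by_cases hi : v = w
  · subst hi
    rw [hv]
    simp
  · have hi' : ¬ w = v := fun h => hi h.symm
    simp [hi, hi']

theorem mem_bs_orL (l : List ℕ) (v : ℕ) : v ∈ bs (K.orL l) ↔ ∃ m ∈ l, v ∈ bs m := by
  induction l with
  | nil =>
    show v ∈ bs 0 ↔ _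
    rw [bs_zero]
    simp
  | cons f l ih =>
    show v ∈ bs (Nat.lor f (K.orL l)) ↔ _
    rw [bs_lor, mem_union, ih]
    simp

end Pool.Agent.MP_455d73_gt.CS
end

section

/-!
TASK M1b (HARD): a correct step of the program is a move of the complexes.

Notation: `K = cx lam l ∪ R`, `A = (bs a).image lam`, `B = (bs b).image lam`, `S f = bs f \ (bs a ∪ bs b)` (by `bs_part`,
`bs (Nat.xor (Nat.lor f (a + b)) (a + b)) = S f`, as `bs (a + b) = bs a ∪ bs b` by `add_eq_lor`, `h.ab`).
`bs a = {v | 2 ^ v ∈ As}` (`h.orA`, `mem_bs_orL`, `bs_two_pow`, `h.powA`), the same for `b`.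

Case 1: no `f ∈ l` has `Nat.land a f = a`. Then `l'` and `l` have the same elements (`h.mem`), so `cx lam l' = cx lam l`: `FlipEq.refl`.
Case 2: some `f₀ ∈ l` with `bs a ⊆ bs f₀ ⊆ bs U`. Then `bs a ⊆ bs U`, `bs b ⊆ bs U` (`h.bU`), and every mask of `l` and `J` is in `U`, so
inclusions of images under `lam` are inclusions of the sets (injectivity on `bs U`). We prove `Flip K A B (cx lam l' ∪ R)`.
Facts: (i) every `f ∈ l` with `bs a ⊆ bs f` has `bs b \ bs f = {x}` for one `x` with `2 ^ x ∈ Bs` (`h.one`, `bs_xor_land`, `bs_two_pow`), so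
`bs f = bs a ∪ (bs b \ {x}) ∪ S f`; (ii) for such `f` and every `y ∈ bs b` there is `g ∈ l`, `bs g = bs a ∪ (bs b \ {y}) ∪ S f` (`h.part` for
`2 ^ x`, `2 ^ y`, then (i) for `g`: `g` misses `y`, so its missing element is `y`); (iii) the new facets: for such `f` and `v ∈ bs a` the mask
`(a + b - 2 ^ v) + S f` has `bs = (bs a \ {v}) ∪ bs b ∪ S f` (`bs_sub`, `add_eq_lor`, `bs_lor`).
* `down`: clear for `cx`, `hR` for `R`. `A`, `B` nonempty: if `a = 0` then `Nat.land a j = a` for the elements `j` of `J ≠ []`, against `h.off`;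
  the same for `b`. Disjoint: `h.ab`, injectivity.
* `B ∉ K`: not in `cx lam l` by `h.noB`; if `B ∈ R`, then `B ⊆ (bs j).image lam` for a `j ∈ J`, so `bs b ⊆ bs j`, against `h.off`.
* `link`: let `F ∈ K`, `A ⊆ F`, `B' ⊂ B`. `F ∉ R` (else `A ∈ R`, and `A ⊆ (bs j).image lam` contradicts `h.off`). So `F ⊆ (bs f).image lam`,
  `f ∈ l`, `bs a ⊆ bs f`. Choose `y ∈ bs b` with `lam y ∈ B \ B'` and `g` from (ii): `(F \ B) ∪ B' ⊆ (bs g).image lam`.
* `eq`, `⊆` (every `F` in `cx lam l' ∪ R` is in the right side): `F ∈ R`: `F ∈ K`, `¬ A ⊆ F` as above. `F ⊆ (bs x).image lam` with `x ∈ l`, `¬ bs a ⊆ bs x`: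
  first alternative. `F ⊆ (bs x).image lam` with `bs x = (bs a \ {v}) ∪ bs b ∪ S f`: `¬ A ⊆ F`; if `B ⊆ F`: `(F \ B) ∪ A ⊆ (bs g).image lam` for a `g` of (ii), second
  alternative; if not, some `y ∈ bs b` has `lam y ∉ F`, and `F ⊆ (bs g).image lam` for the `g` of (ii), first alternative.
* `eq`, `⊇`: `F ∈ K`, `¬ A ⊆ F`: if `F ∈ R` fine; if `F ⊆ (bs f).image lam`, `f ∈ l`: if `¬ bs a ⊆ bs f` then `f ∈ l'`; otherwise there is `v ∈ bs a`, `lam v ∉ F`, and
  `F` is contained in the new facet of `(f, v)`. `B ⊆ F`, `¬ A ⊆ F`, `G = (F \ B) ∪ A ∈ K`: as `A ⊆ G`, `G ∉ R`, `G ⊆ (bs f).image lam`, `f ∈ l`, `bs a ⊆ bs f`; with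
  `v ∈ bs a`, `lam v ∉ F`: `F ⊆` the new facet of `(f, v)`.
Split off lemmas as you like (in this file).
-/

set_option autoImplicit false

open Finset
open scoped Classical

namespace Pool.Agent.MP_455d73_gt.CS

private def M1b_cxs {V : Type} (lam : ℕ → V) (L : Set (Finset ℕ)) : Set (Finset V) :=
  {F | F.Nonempty ∧ ∃ m ∈ L, F ⊆ m.image lam}

private def M1b_new (α β : Finset ℕ) (L : Set (Finset ℕ)) : Set (Finset ℕ) :=
  {s | (s ∈ L ∧ ¬ α ⊆ s) ∨ ∃ f ∈ L, α ⊆ f ∧ ∃ v ∈ α, s = (α.erase v ∪ β) ∪ (f \ (α ∪ β))}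

private theorem M1b_mem_of {V : Type} {lam : ℕ → V} {W X : Finset ℕ}
    (hlam : Set.InjOn lam (W : Set ℕ)) (hX : X ⊆ W) {v : ℕ} (hv : v ∈ W)
    (h : lam v ∈ X.image lam) : v ∈ X := by
  rw [mem_image] at h
  obtain ⟨u, hu, hu2⟩ := h
  have : u = v := hlam (by exact_mod_cast hX hu) (by exact_mod_cast hv) hu2
  exact this ▸ hu

private theorem M1b_sub_of {V : Type} {lam : ℕ → V} {W X Y : Finset ℕ}
    (hlam : Set.InjOn lam (W : Set ℕ)) (hX : X ⊆ W) (hY : Y ⊆ W)
    (h : Y.image lam ⊆ X.image lam) : Y ⊆ X := fun v hv =>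
  M1b_mem_of hlam hX (hY hv) (h (mem_image_of_mem lam hv))

private theorem M1b_exg {α β : Finset ℕ} {L : Set (Finset ℕ)}
    (one : ∀ f ∈ L, α ⊆ f → ∃ x ∈ β, β \ f = {x})
    (part : ∀ x ∈ β, ∀ y ∈ β, ∀ f ∈ L, α ⊆ f → x ∉ f →
      ∃ g ∈ L, α ⊆ g ∧ y ∉ g ∧ g \ (α ∪ β) = f \ (α ∪ β))
    {f : Finset ℕ} (hf : f ∈ L) (haf : α ⊆ f) {y : ℕ} (hy : y ∈ β) :
    ∃ g ∈ L, α ⊆ g ∧ (∀ w, w ∈ α → w ∈ g) ∧ (∀ w ∈ β, w ≠ y → w ∈ g) ∧
      (∀ w ∈ f, w ∉ β → w ∈ g) := by
  obtain ⟨x, hx, hx2⟩ := one f hf haf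
  have hxf : x ∉ f := by
    have : x ∈ β \ f := by rw [hx2]; exact mem_singleton_self x
    exact (mem_sdiff.1 this).2
  obtain ⟨g, hg, hag, hyg, hS⟩ := part x hx y hy f hf haf hxf
  obtain ⟨x', hx', hx2'⟩ := one g hg hag
  have hyx : y = x' := by
    have : y ∈ β \ g := mem_sdiff.2 ⟨hy, hyg⟩
    rw [hx2'] at this
    exact mem_singleton.1 this
  refine ⟨g, hg, hag, fun w hw => hag hw, fun w hw hwy => ?_, fun w hw hwb => ?_⟩
  · by_contra hc
    have : w ∈ β \ g := mem_sdiff.2 ⟨hw, hc⟩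
    rw [hx2', mem_singleton, ← hyx] at this
    exact hwy this
  · by_cases hwa : w ∈ α
    · exact hag hwa
    · have : w ∈ f \ (α ∪ β) := mem_sdiff.2 ⟨hw, by
        rw [mem_union]
        rintro (h | h)
        · exact hwa h
        · exact hwb h⟩
      rw [← hS] at this
      exact (mem_sdiff.1 this).1

private theorem M1b_flip {V : Type} {lam : ℕ → V} {W α β : Finset ℕ} {L J : Set (Finset ℕ)}
    {R : Set (Finset V)} (hlam : Set.InjOn lam (W : Set ℕ)) (hR : Down R)
    (hRJ : ∀ F ∈ R, F ⊆ W.image lam → ∃ j ∈ J, F ⊆ j.image lam)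
    (haW : α ⊆ W) (hbW : β ⊆ W) (hL : ∀ f ∈ L, f ⊆ W) (hJ : ∀ j ∈ J, j ⊆ W)
    (hane : α.Nonempty) (hbne : β.Nonempty) (hab : Disjoint α β)
    (off : ∀ j ∈ J, ¬ α ⊆ j ∧ ¬ β ⊆ j) (noB : ∀ f ∈ L, ¬ β ⊆ f)
    (one : ∀ f ∈ L, α ⊆ f → ∃ x ∈ β, β \ f = {x})
    (part : ∀ x ∈ β, ∀ y ∈ β, ∀ f ∈ L, α ⊆ f → x ∉ f →
      ∃ g ∈ L, α ⊆ g ∧ y ∉ g ∧ g \ (α ∪ β) = f \ (α ∪ β)) :
    Flip (M1b_cxs lam L ∪ R) (α.image lam) (β.image lam) (M1b_cxs lam (M1b_new α β L) ∪ R) := by
  have hA : (α.image lam).Nonempty := hane.image lam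
  have hB : (β.image lam).Nonempty := hbne.image lam
  have hdisj : ∀ p, p ∈ α.image lam → p ∈ β.image lam → False := by
    intro p h1 h2
    rw [mem_image] at h1
    obtain ⟨v, hv, rfl⟩ := h1
    have h3 := M1b_mem_of hlam hbW (haW hv) h2
    exact (Finset.disjoint_left.1 hab hv) h3
  have hAR : ∀ F ∈ R, ¬ α.image lam ⊆ F := by
    intro F hF hc
    have h1 : α.image lam ∈ R := hR.2 F hF _ hc hA
    obtain ⟨j, hj, hj2⟩ := hRJ _ h1 (image_subset_image haW)
    exact (off j hj).1 (M1b_sub_of hlam (hJ j hj) haW hj2)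
  have hBR : β.image lam ∉ R := by
    intro h1
    obtain ⟨j, hj, hj2⟩ := hRJ _ h1 (image_subset_image hbW)
    exact (off j hj).2 (M1b_sub_of hlam (hJ j hj) hbW hj2)
  have hfa : ∀ F ∈ M1b_cxs lam L ∪ R, α.image lam ⊆ F →
      ∃ f ∈ L, α ⊆ f ∧ F ⊆ f.image lam := by
    rintro F (⟨_, f, hf, hFf⟩ | hF) hAF
    · exact ⟨f, hf, M1b_sub_of hlam (hL f hf) haW (hAF.trans hFf), hFf⟩
    · exact absurd hAF (hAR F hF)
  have hnew : ∀ F : Finset V, F.Nonempty → ∀ f ∈ L, α ⊆ f → (∀ p ∈ F, p ∈ f.image lam ∨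
      p ∈ β.image lam) → ¬ α.image lam ⊆ F → F ∈ M1b_cxs lam (M1b_new α β L) := by
    intro F hF f hf haf hFf hAF
    rw [not_subset] at hAF
    obtain ⟨p, hp, hpF⟩ := hAF
    rw [mem_image] at hp
    obtain ⟨v, hv, rfl⟩ := hp
    refine ⟨hF, (α.erase v ∪ β) ∪ (f \ (α ∪ β)), Or.inr ⟨f, hf, haf, v, hv, rfl⟩, ?_⟩
    intro q hq
    rcases hFf q hq with h | h
    · rw [mem_image] at h
      obtain ⟨w, hw, rfl⟩ := h
      refine mem_image_of_mem lam ?_
      have hwv : w ≠ v := by
        rintro rfl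
        exact hpF hq
      by_cases h1 : w ∈ α
      · exact mem_union_left _ (mem_union_left _ (mem_erase.2 ⟨hwv, h1⟩))
      · by_cases h2 : w ∈ β
        · exact mem_union_left _ (mem_union_right _ h2)
        · refine mem_union_right _ (mem_sdiff.2 ⟨hw, ?_⟩)
          rw [mem_union]
          rintro (h | h)
          · exact h1 h
          · exact h2 h
    · rw [mem_image] at h
      obtain ⟨w, hw, rfl⟩ := h
      exact mem_image_of_mem lam (mem_union_left _ (mem_union_right _ hw))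
  refine ⟨⟨?_, ?_⟩, hA, hB, Finset.disjoint_left.2 fun p h1 h2 => hdisj p h1 h2, ?_, ?_, ?_⟩
  · rintro F (hF | hF)
    · exact hF.1
    · exact hR.1 F hF
  · rintro F (⟨_, m, hm, hFm⟩ | hF) G hGF hG
    · exact Or.inl ⟨hG, m, hm, hGF.trans hFm⟩
    · exact Or.inr (hR.2 F hF G hGF hG)
  · rintro (⟨_, m, hm, hBm⟩ | hB)
    · exact noB m hm (M1b_sub_of hlam (hL m hm) hbW hBm)
    · exact hBR hB
  · intro F hF hAF B' hB'
    obtain ⟨f, hf, haf, hFf⟩ := hfa F hF hAF
    obtain ⟨p, hpB, hpB'⟩ := exists_of_ssubset hB'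
    rw [mem_image] at hpB
    obtain ⟨y, hy, rfl⟩ := hpB
    obtain ⟨g, hg, hag, hg1, hg2, hg3⟩ := M1b_exg one part hf haf hy
    refine Or.inl ⟨?_, g, hg, ?_⟩
    · obtain ⟨q, hq⟩ := hA
      exact ⟨q, mem_union_left _ (mem_sdiff.2 ⟨hAF hq, fun h => hdisj q hq h⟩)⟩
    · intro q hq
      rw [mem_union, mem_sdiff] at hq
      rcases hq with ⟨hq1, hq2⟩ | hq
      · have := hFf hq1
        rw [mem_image] at this
        obtain ⟨w, hw, rfl⟩ := this
        exact mem_image_of_mem lam (hg3 w hw fun h => hq2 (mem_image_of_mem lam h))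
      · have := hB'.1 hq
        rw [mem_image] at this
        obtain ⟨w, hw, rfl⟩ := this
        refine mem_image_of_mem lam (hg2 w hw ?_)
        rintro rfl
        exact hpB' hq
  · ext F
    constructor
    · rintro (⟨hFne, m, hm, hFm⟩ | hF)
      · rcases hm with ⟨hmL, hma⟩ | ⟨f, hf, haf, v, hv, rfl⟩
        · refine Or.inl ⟨Or.inl ⟨hFne, m, hmL, hFm⟩, fun hAF => hma ?_⟩
          exact M1b_sub_of hlam (hL m hmL) haW (hAF.trans hFm)
        · have hAF : ¬ α.image lam ⊆ F := by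
            intro hAF
            have hsub : (α.erase v ∪ β) ∪ (f \ (α ∪ β)) ⊆ W := by
              intro w hw
              rw [mem_union, mem_union, mem_erase, mem_sdiff] at hw
              rcases hw with (h | h) | h
              · exact haW h.2
              · exact hbW h
              · exact hL f hf h.1
            have h2 := M1b_sub_of hlam hsub haW (hAF.trans hFm) hv
            rw [mem_union, mem_union, mem_erase, mem_sdiff, mem_union] at h2
            rcases h2 with (h | h) | h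
            · exact h.1 rfl
            · exact Finset.disjoint_left.1 hab hv h
            · exact h.2 (Or.inl hv)
          by_cases hBF : β.image lam ⊆ F
          · obtain ⟨y, hy⟩ := hbne
            obtain ⟨g, hg, hag, hg1, hg2, hg3⟩ := M1b_exg one part hf haf hy
            refine Or.inr ⟨hBF, hAF, Or.inl ⟨?_, g, hg, ?_⟩⟩
            · obtain ⟨q, hq⟩ := hA
              exact ⟨q, mem_union_right _ hq⟩
            · intro q hq
              rw [mem_union, mem_sdiff] at hq
              rcases hq with ⟨hq1, hq2⟩ | hq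
              · have := hFm hq1
                rw [mem_image] at this
                obtain ⟨w, hw, rfl⟩ := this
                have hwb : w ∉ β := fun h => hq2 (mem_image_of_mem lam h)
                rw [mem_union, mem_union, mem_erase, mem_sdiff] at hw
                rcases hw with (h | h) | h
                · exact mem_image_of_mem lam (hg1 w h.2)
                · exact absurd h hwb
                · exact mem_image_of_mem lam (hg3 w h.1 hwb)
              · rw [mem_image] at hq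
                obtain ⟨w, hw, rfl⟩ := hq
                exact mem_image_of_mem lam (hg1 w hw)
          · rw [not_subset] at hBF
            obtain ⟨p, hp, hpF⟩ := hBF
            rw [mem_image] at hp
            obtain ⟨y, hy, rfl⟩ := hp
            obtain ⟨g, hg, hag, hg1, hg2, hg3⟩ := M1b_exg one part hf haf hy
            refine Or.inl ⟨Or.inl ⟨hFne, g, hg, ?_⟩, hAF⟩
            intro q hq
            have := hFm hq
            rw [mem_image] at this
            obtain ⟨w, hw, rfl⟩ := this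
            refine mem_image_of_mem lam ?_
            rw [mem_union, mem_union, mem_erase, mem_sdiff, mem_union] at hw
            rcases hw with (h | h) | h
            · exact hg1 w h.2
            · refine hg2 w h ?_
              rintro rfl
              exact hpF hq
            · exact hg3 w h.1 fun h3 => h.2 (Or.inr h3)
      · exact Or.inl ⟨Or.inr hF, hAR F hF⟩
    · rintro (⟨hF, hAF⟩ | ⟨hBF, hAF, hG⟩)
      · rcases hF with ⟨hFne, f, hf, hFf⟩ | hF
        · by_cases haf : α ⊆ f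
          · exact Or.inl (hnew F hFne f hf haf (fun p hp => Or.inl (hFf hp)) hAF)
          · exact Or.inl ⟨hFne, f, Or.inl ⟨hf, haf⟩, hFf⟩
        · exact Or.inr hF
      · obtain ⟨f, hf, haf, hGf⟩ := hfa _ hG (subset_union_right)
        refine Or.inl (hnew F (hB.mono hBF) f hf haf (fun p hp => ?_) hAF)
        by_cases hpB : p ∈ β.image lam
        · exact Or.inr hpB
        · exact Or.inl (hGf (mem_union_left _ (mem_sdiff.2 ⟨hp, hpB⟩)))

private theorem M1b_mem_pow {As : List ℕ} {a : ℕ} (powA : ∀ x ∈ As, ∃ v, x = 2 ^ v)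
    (orA : K.orL As = a) (v : ℕ) : v ∈ bs a ↔ 2 ^ v ∈ As := by
  rw [← orA, mem_bs_orL]
  constructor
  · rintro ⟨m, hm, hv⟩
    obtain ⟨u, rfl⟩ := powA m hm
    rw [bs_two_pow, mem_singleton] at hv
    rw [hv]
    exact hm
  · intro h
    exact ⟨2 ^ v, h, by rw [bs_two_pow]; exact mem_singleton_self v⟩

private theorem M1b_bs_new {a b f v : ℕ} (hab : Nat.land a b = 0) (hv : v ∈ bs a) :
    bs (Nat.add (Nat.sub (Nat.add a b) (2 ^ v)) (Nat.xor (Nat.lor f (Nat.add a b)) (Nat.add a b))) =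
      ((bs a).erase v ∪ bs b) ∪ (bs f \ (bs a ∪ bs b)) := by
  have h1 : bs (Nat.add a b) = bs a ∪ bs b := by rw [add_eq_lor a b hab, bs_lor]
  have hd : Disjoint (bs a) (bs b) := (land_zero_iff a b).1 hab
  have hvb : v ∉ bs b := Finset.disjoint_left.1 hd hv
  have h2 : bs (Nat.sub (Nat.add a b) (2 ^ v)) = (bs a).erase v ∪ bs b := by
    rw [bs_sub _ _ (by rw [h1]; exact mem_union_left _ hv), h1, erase_union_distrib,
      erase_eq_of_notMem hvb]
  have h3 : bs (Nat.xor (Nat.lor f (Nat.add a b)) (Nat.add a b)) = bs f \ (bs a ∪ bs b) := by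
    rw [bs_part, h1]
  have h4 : Nat.land (Nat.sub (Nat.add a b) (2 ^ v))
      (Nat.xor (Nat.lor f (Nat.add a b)) (Nat.add a b)) = 0 := by
    rw [land_zero_iff, h2, h3]
    refine Finset.disjoint_left.2 fun w hw hw2 => (mem_sdiff.1 hw2).2 ?_
    rw [mem_union] at hw ⊢
    rcases hw with h | h
    · exact Or.inl (mem_of_mem_erase h)
    · exact Or.inr h
  rw [add_eq_lor _ _ h4, bs_lor, h2, h3]

private theorem M1b_new_eq {U : ℕ} {J : List ℕ} {a b : ℕ} {As Bs l l' : List ℕ}
    (h : St U J a b As Bs l l') :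
    {s | ∃ f ∈ l', bs f = s} = M1b_new (bs a) (bs b) {s | ∃ f ∈ l, bs f = s} := by
  ext s
  constructor
  · rintro ⟨x, hx, rfl⟩
    rcases (h.mem x).1 hx with ⟨h1, h2⟩ | ⟨f, hf, haf, v, hv, rfl⟩
    · exact Or.inl ⟨⟨x, h1, rfl⟩, fun h3 => h2 ((land_eq_iff a x).2 h3)⟩
    · obtain ⟨u, rfl⟩ := h.powA v hv
      have hu : u ∈ bs a := (M1b_mem_pow h.powA h.orA u).2 hv
      exact Or.inr ⟨bs f, ⟨f, hf, rfl⟩, (land_eq_iff a f).1 haf, u, hu, M1b_bs_new h.ab hu⟩
  · rintro (⟨⟨x, hx, rfl⟩, h2⟩ | ⟨_, ⟨f, hf, rfl⟩, haf, v, hv, rfl⟩)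
    · exact ⟨x, (h.mem x).2 (Or.inl ⟨hx, fun h3 => h2 ((land_eq_iff a x).1 h3)⟩), rfl⟩
    · exact ⟨_, (h.mem _).2 (Or.inr ⟨f, hf, (land_eq_iff a f).2 haf, 2 ^ v,
        (M1b_mem_pow h.powA h.orA v).1 hv, rfl⟩), M1b_bs_new h.ab hv⟩

private theorem M1b_cx_eq {V : Type} (lam : ℕ → V) (l : List ℕ) :
    cx lam l = M1b_cxs lam {s | ∃ f ∈ l, bs f = s} := by
  ext F
  constructor
  · rintro ⟨hF, m, hm, hFm⟩
    exact ⟨hF, bs m, ⟨m, hm, rfl⟩, hFm⟩
  · rintro ⟨hF, _, ⟨m, hm, rfl⟩, hFm⟩
    exact ⟨hF, m, hm, hFm⟩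

theorem St.flipEq {U : ℕ} {J : List ℕ} {a b : ℕ} {As Bs l l' : List ℕ} (h : St U J a b As Bs l l') (hJ : J ≠ [])
    (hJU : ∀ j ∈ J, Nat.land j U = j) (hl : ∀ f ∈ l, Nat.land f U = f) {V : Type} (lam : ℕ → V)
    (hlam : Set.InjOn lam (bs U)) (R : Set (Finset V)) (hR : Down R)
    (hRJ : ∀ F ∈ R, F ⊆ (bs U).image lam → ∃ j ∈ J, F ⊆ (bs j).image lam) :
    FlipEq (cx lam l ∪ R) (cx lam l' ∪ R) := by
  rw [M1b_cx_eq lam l, M1b_cx_eq lam l', M1b_new_eq h]
  by_cases hex : ∃ f ∈ l, bs a ⊆ bs f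
  · obtain ⟨f0, hf0, haf0⟩ := hex
    obtain ⟨j0, hj0⟩ := List.exists_mem_of_ne_nil J hJ
    have haU : bs a ⊆ bs U := haf0.trans ((land_eq_iff f0 U).1 (hl f0 hf0))
    have hbU : bs b ⊆ bs U := (land_eq_iff b U).1 h.bU
    have hane : (bs a).Nonempty := by
      rw [nonempty_iff_ne_empty]
      intro h0
      exact (h.off j0 hj0).1 ((land_eq_iff a j0).2 (by rw [h0]; exact empty_subset _))
    have hbne : (bs b).Nonempty := by
      rw [nonempty_iff_ne_empty]
      intro h0
      exact (h.off j0 hj0).2 ((land_eq_iff b j0).2 (by rw [h0]; exact empty_subset _))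
    have hab : Disjoint (bs a) (bs b) := (land_zero_iff a b).1 h.ab
    have hlorab : bs (Nat.add a b) = bs a ∪ bs b := by rw [add_eq_lor a b h.ab, bs_lor]
    refine Relation.EqvGen.rel _ _ ⟨(bs a).image lam, (bs b).image lam,
      M1b_flip (W := bs U) (J := {s | ∃ j ∈ J, bs j = s}) hlam hR ?_ haU hbU ?_ ?_ hane hbne hab
        ?_ ?_ ?_ ?_⟩
    · intro F hF hFU
      obtain ⟨j, hj, hj2⟩ := hRJ F hF hFU
      exact ⟨bs j, ⟨j, hj, rfl⟩, hj2⟩
    · rintro _ ⟨f, hf, rfl⟩
      exact (land_eq_iff f U).1 (hl f hf)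
    · rintro _ ⟨j, hj, rfl⟩
      exact (land_eq_iff j U).1 (hJU j hj)
    · rintro _ ⟨j, hj, rfl⟩
      exact ⟨fun h1 => (h.off j hj).1 ((land_eq_iff a j).2 h1),
        fun h1 => (h.off j hj).2 ((land_eq_iff b j).2 h1)⟩
    · rintro _ ⟨f, hf, rfl⟩ h1
      exact h.noB f hf ((land_eq_iff b f).2 h1)
    · rintro _ ⟨f, hf, rfl⟩ h1
      have h2 := h.one f hf ((land_eq_iff a f).2 h1)
      obtain ⟨x, hx⟩ := h.powB _ h2
      have h3 := bs_xor_land b f
      rw [hx, bs_two_pow] at h3
      rw [hx] at h2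
      exact ⟨x, (M1b_mem_pow h.powB h.orB x).2 h2, h3.symm⟩
    · rintro x hx y hy _ ⟨f, hf, rfl⟩ h1 hxf
      have hxf2 : Nat.land f (2 ^ x) = 0 := by
        rw [land_zero_iff, bs_two_pow]
        exact Finset.disjoint_singleton_right.2 hxf
      obtain ⟨g, hg, hag, hgy, hS⟩ := h.part (2 ^ x) ((M1b_mem_pow h.powB h.orB x).1 hx) (2 ^ y)
        ((M1b_mem_pow h.powB h.orB y).1 hy) f hf ((land_eq_iff a f).2 h1) hxf2
      refine ⟨bs g, ⟨g, hg, rfl⟩, (land_eq_iff a g).1 hag, ?_, ?_⟩
      · rw [land_zero_iff, bs_two_pow] at hgy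
        exact Finset.disjoint_singleton_right.1 hgy
      · have h5 := congrArg bs hS
        rw [bs_part, bs_part, hlorab] at h5
        exact h5
  · have : M1b_new (bs a) (bs b) {s | ∃ f ∈ l, bs f = s} = {s | ∃ f ∈ l, bs f = s} := by
      ext s
      constructor
      · rintro (⟨h1, _⟩ | ⟨_, ⟨f, hf, rfl⟩, haf, _⟩)
        · exact h1
        · exact absurd ⟨f, hf, haf⟩ hex
      · rintro ⟨f, hf, rfl⟩
        exact Or.inl ⟨⟨f, hf, rfl⟩, fun h1 => hex ⟨f, hf, h1⟩⟩
    rw [this]
    exact FlipEq.refl _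

/-- The new facets are contained in `U`. -/
theorem St.subU {U : ℕ} {J : List ℕ} {a b : ℕ} {As Bs l l' : List ℕ} (h : St U J a b As Bs l l')
    (hl : ∀ f ∈ l, Nat.land f U = f) : ∀ f ∈ l', Nat.land f U = f := by
  intro x hx
  rcases (h.mem x).1 hx with ⟨h1, _⟩ | ⟨f, hf, haf, v, hv, rfl⟩
  · exact hl x h1
  · obtain ⟨u, rfl⟩ := h.powA v hv
    have hu : u ∈ bs a := (M1b_mem_pow h.powA h.orA u).2 hv
    have hfU := (land_eq_iff f U).1 (hl f hf)
    have haU : bs a ⊆ bs U := ((land_eq_iff a f).1 haf).trans hfU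
    have hbU : bs b ⊆ bs U := (land_eq_iff b U).1 h.bU
    rw [land_eq_iff, M1b_bs_new h.ab hu]
    intro w hw
    rw [mem_union, mem_union, mem_erase, mem_sdiff] at hw
    rcases hw with (h | h) | h
    · exact haU h.2
    · exact hbU h
    · exact hfU h.1

end Pool.Agent.MP_455d73_gt.CS
end
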