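import Pool.Agent.Lib.MP_455d73_gt.CS.Chart

section

/-!
TASK A5 (medium): the neighbourhoods defined by the Lorentz product.

`nbhd_lor`: for every point `p` and every neighbourhood `U` of `p` there are `δ > 0` and a neighbourhood `V` of `p` such that
`z ∈ U` if `q ∈ V` and `- lor q z < 1 + δ`.
Proof. Let `M = p.2 + 1` and let `q` be a point with `q.2 ≤ M`, let `z` be a point with `- lor q z = 1 + η`, `η ≥ 0` (see below).
Put `w = z - q`. Then `lor w w = -2 - 2 lor q z = 2 η` and `lor q w = lor q z + 1 = - η`. With `a = √(∑ (w.1 i)^2)`, `b = |w.2|`,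
`s = √(∑ (q.1 i)^2)`, `q.2 ^ 2 = 1 + s ^ 2`: `a^2 = 2 η + b^2` and, by Cauchy-Schwarz, `q.2 * b ≤ η + s a`. Hence
`q.2^2 a^2 ≤ 2 η q.2^2 + (η + s a)^2`, so `a^2 = (q.2^2 - s^2) a^2 ≤ 2 η q.2^2 + η^2 + 2 η s a ≤ 2 η M^2 + η^2 + 2 η M a`, which
gives `a ≤ 2 η M + √(2 η M^2 + η^2)`, and `b ≤ η + M a`. So `a` and `b` are as small as we like if `η` is small: the distance of
`z` and `q` (maximum of the coordinates) is at most `max a b`. Choose `ε` with the ball of radius `2 ε` about `p` inside `U`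
(`Metric.mem_nhds_iff` in `Mk n`; `Hyp n` has the induced metric), `δ` so small that `max a b < ε` for all `η < δ`, and
`V` = the ball of radius `min ε 1` about `p` (there `q.2 ≤ p.2 + 1`).
`lor_le_neg_one`: `lor q z ≤ -1`: reversed Cauchy-Schwarz: `∑ q.1 i * z.1 i ≤ s s'` with `q.2 = √(1+s^2)`, `z.2 = √(1+s'^2)`, and
`√(1+s^2) √(1+s'^2) ≥ 1 + s s'` (square: `1 + s^2 + s'^2 + s^2 s'^2 ≥ 1 + 2 s s' + s^2 s'^2`).
`lor_eq_neg_one`: equality gives `η = 0`, so `a = b = 0` in the computation above.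
-/

set_option autoImplicit false

open Finset
open scoped Classical

namespace Pool.Agent.MP_455d73_gt.CS

variable {n : ℕ}

private theorem A5_scal (q z : Hyp n) :
    ∃ X Y Z : ℝ, X = ∑ i, q.1.1 i ^ 2 ∧ Y = ∑ i, z.1.1 i ^ 2 ∧ Z = ∑ i, q.1.1 i * z.1.1 i ∧
      X = q.1.2 ^ 2 - 1 ∧ Y = z.1.2 ^ 2 - 1 ∧ lor q.1 z.1 = Z - q.1.2 * z.1.2 ∧
      ∑ i, (z.1.1 i - q.1.1 i) ^ 2 = Y - 2 * Z + X ∧
      (Z - X) ^ 2 ≤ X * (Y - 2 * Z + X) ∧ Z ^ 2 ≤ X * Y := by
  have hq : ∑ i, q.1.1 i ^ 2 - q.1.2 ^ 2 = -1 := by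
    have := q.2.1
    simp only [lor, ← sq] at this
    exact this
  have hz : ∑ i, z.1.1 i ^ 2 - z.1.2 ^ 2 = -1 := by
    have := z.2.1
    simp only [lor, ← sq] at this
    exact this
  have h1 : ∑ i, (z.1.1 i - q.1.1 i) ^ 2 =
      ∑ i, z.1.1 i ^ 2 - 2 * ∑ i, q.1.1 i * z.1.1 i + ∑ i, q.1.1 i ^ 2 := by
    rw [Finset.mul_sum, ← Finset.sum_sub_distrib, ← Finset.sum_add_distrib]
    exact Finset.sum_congr rfl fun i _ => by ring
  have h2 : ∑ i, q.1.1 i * (z.1.1 i - q.1.1 i) =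
      ∑ i, q.1.1 i * z.1.1 i - ∑ i, q.1.1 i ^ 2 := by
    rw [← Finset.sum_sub_distrib]
    exact Finset.sum_congr rfl fun i _ => by ring
  have h3 := Finset.sum_mul_sq_le_sq_mul_sq univ q.1.1 fun i => z.1.1 i - q.1.1 i
  have h4 := Finset.sum_mul_sq_le_sq_mul_sq univ q.1.1 z.1.1
  rw [h2, h1] at h3
  exact ⟨_, _, _, rfl, rfl, rfl, by linarith, by linarith, rfl, h1, h3, h4⟩

private theorem A5_one_le (q : Hyp n) : 1 ≤ q.1.2 := by
  have hq : ∑ i, q.1.1 i ^ 2 - q.1.2 ^ 2 = -1 := by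
    have := q.2.1
    simp only [lor, ← sq] at this
    exact this
  have h0 : 0 ≤ ∑ i, q.1.1 i ^ 2 := Finset.sum_nonneg fun i _ => sq_nonneg _
  nlinarith [q.2.2]

theorem lor_le_neg_one (q z : Hyp n) : lor q.1 z.1 ≤ -1 := by
  obtain ⟨X, Y, Z, -, -, -, hX, hY, hl, -, -, h4⟩ := A5_scal q z
  have h1 := A5_one_le q
  have h2 := A5_one_le z
  have h3 : 0 ≤ q.1.2 * z.1.2 - 1 := by nlinarith
  have h5 : Z ^ 2 ≤ (q.1.2 * z.1.2 - 1) ^ 2 := by
    rw [hX, hY] at h4
    nlinarith [sq_nonneg (q.1.2 - z.1.2)]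
  have h6 := abs_le_of_sq_le_sq h5 h3
  rw [hl]
  linarith [(abs_le.1 h6).2]

/-- The main estimate. -/
private theorem A5_key (q z : Hyp n) (η : ℝ) (hη : lor q.1 z.1 = -1 - η) :
    0 ≤ η ∧ ∑ i, (z.1.1 i - q.1.1 i) ^ 2 = 2 * η + (z.1.2 - q.1.2) ^ 2 ∧
      (z.1.2 - q.1.2) ^ 2 ≤ 2 * q.1.2 ^ 2 * η + 2 * q.1.2 * (z.1.2 - q.1.2) * η := by
  have h0 : 0 ≤ η := by linarith [lor_le_neg_one q z]
  obtain ⟨X, Y, Z, -, -, -, hX, hY, hl, h1, h3, -⟩ := A5_scal q z
  have hZ : Z = q.1.2 * z.1.2 - 1 - η := by linarith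
  refine ⟨h0, ?_, ?_⟩
  · rw [h1, hX, hY, hZ]
    ring
  · rw [hX, hY, hZ] at h3
    nlinarith [sq_nonneg η]

theorem eq_of_lor_eq (q z : Hyp n) (h : lor q.1 z.1 = -1) : q = z := by
  obtain ⟨-, h1, h2⟩ := A5_key q z 0 (by rw [h]; ring)
  simp only [mul_zero, add_zero, zero_add] at h1 h2
  have h3 : z.1.2 - q.1.2 = 0 := by
    have : (z.1.2 - q.1.2) ^ 2 = 0 := le_antisymm h2 (sq_nonneg _)
    exact pow_eq_zero_iff (two_ne_zero) |>.1 this
  rw [h3, zero_pow two_ne_zero] at h1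
  have h4 := (Finset.sum_eq_zero_iff_of_nonneg fun i _ => sq_nonneg (z.1.1 i - q.1.1 i)).1 h1
  refine Subtype.ext (Prod.ext (funext fun i => ?_) (by linarith))
  have h5 := pow_eq_zero_iff (two_ne_zero) |>.1 (h4 i (mem_univ i))
  linarith

theorem nbhd_lor (p : Hyp n) (U : Set (Hyp n)) (hU : U ∈ nhds p) :
    ∃ δ : ℝ, 0 < δ ∧ ∃ V ∈ nhds p, ∀ q ∈ V, ∀ z : Hyp n, - lor q.1 z.1 < 1 + δ → z ∈ U := by
  obtain ⟨ε, hε, hU⟩ := Metric.mem_nhds_iff.1 hU
  set M : ℝ := p.1.2 + 1 with hM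
  have hM1 : 1 ≤ M := by linarith [A5_one_le p]
  have hM0 : 0 < M := by linarith
  refine ⟨min 1 ((ε / 2) ^ 2 / (10 * M ^ 2)), lt_min one_pos (by positivity),
    Metric.ball p (min (ε / 2) 1), Metric.ball_mem_nhds p (lt_min (half_pos hε) one_pos), ?_⟩
  intro q hq z hz
  obtain ⟨η, hη⟩ : ∃ η : ℝ, lor q.1 z.1 = -1 - η := ⟨-1 - lor q.1 z.1, by ring⟩
  obtain ⟨h0, h1, h2⟩ := A5_key q z η hη
  have hη1 : η < min 1 ((ε / 2) ^ 2 / (10 * M ^ 2)) := by rw [hη] at hz; linarith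
  have hη2 : η < 1 := hη1.trans_le (min_le_left _ _)
  have hη3 : 10 * M ^ 2 * η < (ε / 2) ^ 2 := by
    have := hη1.trans_le (min_le_right _ _)
    rw [lt_div_iff₀ (by positivity)] at this
    linarith
  have hq1 : dist q.1.2 p.1.2 < 1 := by
    have h3 : dist q.1 p.1 < 1 := (Metric.mem_ball.1 hq).trans_le (min_le_right _ _)
    exact lt_of_le_of_lt (by rw [Prod.dist_eq]; exact le_max_right _ _) h3
  have hqM : q.1.2 ≤ M := by
    rw [Real.dist_eq] at hq1
    linarith [(abs_lt.1 hq1).2]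
  have hq0 := A5_one_le q
  have hb : (z.1.2 - q.1.2) ^ 2 ≤ 8 * M ^ 2 * η := by
    have h3 : 2 * q.1.2 * (z.1.2 - q.1.2) * η ≤
        (z.1.2 - q.1.2) ^ 2 / 2 + 2 * (q.1.2 * η) ^ 2 := by
      nlinarith [sq_nonneg ((z.1.2 - q.1.2) - 2 * (q.1.2 * η))]
    have h4 : q.1.2 ^ 2 ≤ M ^ 2 := by nlinarith
    have h5 : (q.1.2 * η) ^ 2 ≤ M ^ 2 * η := by
      have : (q.1.2 * η) ^ 2 = q.1.2 ^ 2 * (η * η) := by ring
      rw [this]
      have h6 : η * η ≤ η := by nlinarith
      exact mul_le_mul h4 h6 (mul_nonneg h0 h0) (by positivity)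
    have h7 : 2 * q.1.2 ^ 2 * η ≤ 2 * M ^ 2 * η := by
      have := mul_le_mul_of_nonneg_right h4 h0
      linarith
    linarith
  have ha : ∑ i, (z.1.1 i - q.1.1 i) ^ 2 ≤ 10 * M ^ 2 * η := by
    rw [h1]
    have : 2 * η ≤ 2 * M ^ 2 * η := by
      have h6 : 1 ≤ M ^ 2 := by nlinarith
      nlinarith
    linarith
  have hzq : dist z.1 q.1 < ε / 2 := by
    rw [Prod.dist_eq]
    refine max_lt ((dist_pi_lt_iff (half_pos hε)).2 fun i => ?_) ?_
    · rw [Real.dist_eq]
      refine abs_lt_of_sq_lt_sq ?_ (half_pos hε).le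
      exact ((Finset.single_le_sum (f := fun i => (z.1.1 i - q.1.1 i) ^ 2)
        (fun i _ => sq_nonneg _) (mem_univ i)).trans ha).trans_lt hη3
    · rw [Real.dist_eq]
      refine abs_lt_of_sq_lt_sq ?_ (half_pos hε).le
      refine lt_of_le_of_lt (hb.trans ?_) hη3
      have : 0 ≤ M ^ 2 * η := by positivity
      linarith
  refine hU (Metric.mem_ball.2 ?_)
  have h8 : dist q p < ε / 2 := (Metric.mem_ball.1 hq).trans_le (min_le_left _ _)
  calc dist z p ≤ dist z q + dist q p := dist_triangle _ _ _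
    _ < ε / 2 + ε / 2 := add_lt_add hzq h8
    _ = ε := add_halves ε

end Pool.Agent.MP_455d73_gt.CS
end

section

/-!
TASK B0 (easy): the outer half-spaces of two walls with `lor ≤ -1` are disjoint; walls through a common point.

`disj`. Put `c = e i + e j`. Then `lor c c = 2 + 2 * lor (e i) (e j) ≤ 0` and `lor ctr c < 0` (sum of two negative numbers).
If `0 < c.2`: `lor_neg_of_causal x c` (with `lor x x = -1 < 0`, `0 < x.2`) gives the claim. If `c.2 < 0`: apply
`lor_neg_of_causal` to `ctr` and `-c`: `lor ctr (-c) < 0`, so `0 < lor ctr c`, a contradiction. If `c.2 = 0`: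
`lor c c = ∑ c.1 i ^ 2 ≤ 0`, so `c.1 = 0`, `c = 0`, `lor ctr c = 0`, a contradiction.

`orth_of_common`. By `R.gram`, `lor = 0` or `≤ -1`; the second is impossible by `disj` (the sum would be `0`).

`orth_of_act`: the same in the chart: `k ∈ P1` with `∑ k j ^ 2 < 1` and `i, j ∈ act k`, `i ≠ j`: use the point `up k`;
`lor (up k) (e i) = - (√(1 - ∑ k j ^ 2))⁻¹ * al i k` (unfold `up` with `dif_pos`, `lor_smul_left`).
-/

set_option autoImplicit false

open Finset
open scoped Classical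

namespace Pool.Agent.MP_455d73_gt.CS

variable {n : ℕ} {I : Type}

theorem CX.disj (R : CX n I) (i j : I) (h : lor (R.e i) (R.e j) ≤ -1) (x : Hyp n) :
    lor x.1 (R.e i) + lor x.1 (R.e j) < 0 := by
  have hcc : lor (R.e i + R.e j) (R.e i + R.e j) ≤ 0 := by
    rw [lor_add_left, lor_add_right, lor_add_right, R.unit i, R.unit j, lor_comm (R.e j) (R.e i)]
    linarith
  have hctr : lor R.ctr.1 (R.e i + R.e j) < 0 := by
    rw [lor_add_right]
    have h1 := R.ctr_neg i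
    have h2 := R.ctr_neg j
    linarith
  rw [← lor_add_right]
  rcases lt_trichotomy 0 (R.e i + R.e j).2 with h0 | h0 | h0
  · exact lor_neg_of_causal x.1 _ (by rw [x.2.1]; norm_num) x.2.2 hcc h0
  · exfalso
    have h3 : lor (R.e i + R.e j) (R.e i + R.e j) = ∑ k, (R.e i + R.e j).1 k ^ 2 := by
      simp only [lor, ← h0, mul_zero, sub_zero, sq]
    rw [h3] at hcc
    have h4 : ∀ k, (R.e i + R.e j).1 k = 0 := by
      intro k
      have h5 : (R.e i + R.e j).1 k ^ 2 ≤ ∑ k, (R.e i + R.e j).1 k ^ 2 :=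
        Finset.single_le_sum (f := fun k => (R.e i + R.e j).1 k ^ 2)
          (fun k _ => sq_nonneg _) (Finset.mem_univ k)
      have h6 : (R.e i + R.e j).1 k ^ 2 ≤ 0 := h5.trans hcc
      exact pow_eq_zero_iff (two_ne_zero) |>.1 (le_antisymm h6 (sq_nonneg _))
    have h7 : lor R.ctr.1 (R.e i + R.e j) = 0 := by
      unfold lor
      rw [← h0, mul_zero, sub_zero]
      refine Finset.sum_eq_zero fun k _ => ?_
      rw [h4 k, mul_zero]
    linarith
  · exfalso
    have h1 := lor_neg_of_causal R.ctr.1 (-(R.e i + R.e j)) (by rw [R.ctr.2.1]; norm_num)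
      R.ctr.2.2 (by rw [lor_neg_left, lor_neg_right, neg_neg]; exact hcc)
      (by rw [Prod.snd_neg]; linarith)
    rw [lor_neg_right] at h1
    linarith

theorem lor_up (R : CX n I) (i : I) (k : Fin n → ℝ) (hk : ∑ j, k j ^ 2 < 1) :
    lor (up k).1 (R.e i) = - ((√(1 - ∑ j, k j ^ 2))⁻¹ * R.al i k) := by
  unfold up
  rw [dif_pos hk]
  simp only
  rw [lor_smul_left]
  unfold lor CX.al
  simp only
  ring

end Pool.Agent.MP_455d73_gt.CS
end

section

/-!
Campaign CS: the elements of `R.G` are continuous isometries (proved).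
-/

set_option autoImplicit false

open Finset
open scoped Classical

namespace Pool.Agent.MP_455d73_gt.CS

variable {n : ℕ} {I : Type}

private theorem B2a_s_cont (R : CX n I) (i : I) : Continuous (R.s i) := by
  refine Continuous.subtype_mk ?_ _
  show Continuous (fun x : Hyp n => x.1 - (2 * lor x.1 (R.e i)) • R.e i)
  have h : Continuous (fun x : Hyp n => lor x.1 (R.e i)) :=
    continuous_lor.comp (continuous_subtype_val.prodMk continuous_const)
  exact continuous_subtype_val.sub ((continuous_const.mul h).smul continuous_const)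

private theorem B2a_s_sq (R : CX n I) (i : I) : R.s i * R.s i = 1 := by
  refine Equiv.ext fun x => Subtype.ext ?_
  exact reflFun_reflFun (R.e i) (R.unit i) x.1

private theorem B2a_s_inv (R : CX n I) (i : I) : (R.s i)⁻¹ = R.s i :=
  inv_eq_of_mul_eq_one_left (B2a_s_sq R i)

theorem CX.G_cont (R : CX n I) (g : Equiv.Perm (Hyp n)) (hg : g ∈ R.G) : Continuous g := by
  have key : Continuous g ∧ Continuous (g⁻¹ : Equiv.Perm (Hyp n)) := by
    unfold CX.G at hg
    induction hg using Subgroup.closure_induction with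
    | mem x hx =>
      obtain ⟨i, rfl⟩ := hx
      refine ⟨B2a_s_cont R i, ?_⟩
      rw [B2a_s_inv]
      exact B2a_s_cont R i
    | one =>
      refine ⟨continuous_id, ?_⟩
      rw [inv_one]
      exact continuous_id
    | mul x y _ _ hx hy =>
      refine ⟨hx.1.comp hy.1, ?_⟩
      rw [mul_inv_rev]
      exact hy.2.comp hx.2
    | inv x _ hx =>
      refine ⟨hx.2, ?_⟩
      rw [inv_inv]
      exact hx.1
  exact key.1

theorem CX.G_isom (R : CX n I) : R.G ≤ Isom n := by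
  unfold CX.G
  rw [Subgroup.closure_le]
  rintro _ ⟨i, rfl⟩ x y
  exact lor_reflFun (R.e i) (R.unit i) x.1 y.1

end Pool.Agent.MP_455d73_gt.CS
end

section

/-!
TASK M1 (medium): facts on the chart `kl` (Klein model) and the polytope in the chart.

`al_kl`: `∑ j, (x_j / t) e_j - e.2 = lor x e / t` with `t = x.1.2 > 0`. `kl_mem_P1`, `mem_act_kl` follow.
`kl_ball`: `lor x x = -1`. `kl_up`: unfold (`dif_pos`). `up_kl`: `1 - ∑ (x_j/t)^2 = 1 / t^2`. `continuousOn_up`: on the open ball `up`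
is given by the formula (`ContinuousOn` of a subtype-valued map: `Topology.IsInducing.subtypeVal.continuousOn_iff`), the square root
is positive there.
`P1_ball`: Suppose `k ∈ P1` and `1 ≤ ∑ k_j^2`. `k₀ = kl ctr ∈ P1` is in the open ball. For `s ∈ [0,1]` put `k_s = k₀ + s (k - k₀)`, in
`P1` (convex), `q(s) = ∑ (k_s)_j ^ 2`, continuous, `q(0) < 1 ≤ q(1)`. The times of the points of the compact set `R.P` are bounded by
some `M > 0`. For every `s ∈ [0,1]` with `q(s) < 1`, the point `up k_s` is in `R.P` (`kl_mem_P1`, `kl_up`) and has time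
`(√(1 - q(s)))⁻¹ ≤ M`, so `1 - q(s) ≥ M⁻²`. So `q` takes no value in `(1 - M⁻², 1)` on `[0,1]`, which contradicts the intermediate
value theorem.
`P1_compact`: closed (finite or arbitrary intersection of closed half-spaces) and bounded by `P1_ball`.
-/

set_option autoImplicit false

open Finset
open scoped Classical

namespace Pool.Agent.MP_455d73_gt.CS

variable {n : ℕ} {I : Type}

theorem al_kl (R : CX n I) (i : I) (x : Hyp n) : R.al i (kl x) = - lor x.1 (R.e i) / x.1.2 := by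
  have ht : x.1.2 ≠ 0 := x.2.2.ne'
  unfold CX.al kl lor
  have h1 : ∑ j, x.1.1 j / x.1.2 * (R.e i).1 j = (∑ j, x.1.1 j * (R.e i).1 j) / x.1.2 := by
    rw [Finset.sum_div]
    refine Finset.sum_congr rfl fun j _ => ?_
    ring
  rw [h1]
  field_simp
  ring

theorem kl_mem_P1 (R : CX n I) (x : Hyp n) : kl x ∈ R.P1 ↔ x ∈ R.P := by
  have ht : 0 < x.1.2 := x.2.2
  constructor
  · intro h i
    have h1 := h i
    rw [al_kl] at h1
    by_contra hc
    push Not at hc
    have : -lor x.1 (R.e i) / x.1.2 < 0 := div_neg_of_neg_of_pos (by linarith) ht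
    linarith
  · intro h i
    have h1 : lor x.1 (R.e i) ≤ 0 := h i
    rw [al_kl]
    exact div_nonneg (by linarith) ht.le

theorem mem_act_kl (R : CX n I) (x : Hyp n) (i : I) : i ∈ R.act (kl x) ↔ lor x.1 (R.e i) = 0 := by
  have ht : x.1.2 ≠ 0 := x.2.2.ne'
  change R.al i (kl x) = 0 ↔ lor x.1 (R.e i) = 0
  rw [al_kl, div_eq_zero_iff, neg_eq_zero]
  constructor
  · rintro (h | h)
    · exact h
    · exact absurd h ht
  · intro h
    exact Or.inl h

private theorem M1_sum_kl (x : Hyp n) : ∑ j, kl x j ^ 2 = 1 - 1 / x.1.2 ^ 2 := by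
  have ht : x.1.2 ≠ 0 := x.2.2.ne'
  have h1 : lor x.1 x.1 = ∑ j, x.1.1 j ^ 2 - x.1.2 ^ 2 := by
    simp [lor, sq]
  rw [x.2.1] at h1
  have h2 : ∑ j, x.1.1 j ^ 2 = x.1.2 ^ 2 - 1 := by linarith
  unfold kl
  have h3 : ∑ j, (x.1.1 j / x.1.2) ^ 2 = (∑ j, x.1.1 j ^ 2) / x.1.2 ^ 2 := by
    rw [Finset.sum_div]
    refine Finset.sum_congr rfl fun j _ => ?_
    rw [div_pow]
  rw [h3, h2]
  field_simp

private theorem M1_abs_le {a : ℝ} (h : a ^ 2 ≤ 1) : |a| ≤ 1 := by
  rw [← sq_abs] at h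
  have h0 := abs_nonneg a
  nlinarith

private theorem M1_al_comb (R : CX n I) (i : I) (k l : Fin n → ℝ) (a c : ℝ) (hac : a + c = 1) :
    R.al i (a • k + c • l) = a * R.al i k + c * R.al i l := by
  unfold CX.al
  have h1 : ∑ j, (a • k + c • l) j * (R.e i).1 j =
      a * ∑ j, k j * (R.e i).1 j + c * ∑ j, l j * (R.e i).1 j := by
    rw [Finset.mul_sum, Finset.mul_sum, ← Finset.sum_add_distrib]
    refine Finset.sum_congr rfl fun j _ => ?_
    simp only [Pi.add_apply, Pi.smul_apply, smul_eq_mul]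
    ring
  rw [h1]
  have h2 : (R.e i).2 = a * (R.e i).2 + c * (R.e i).2 := by
    rw [← add_mul, hac, one_mul]
  calc (R.e i).2 - (a * ∑ j, k j * (R.e i).1 j + c * ∑ j, l j * (R.e i).1 j)
      = (a * (R.e i).2 + c * (R.e i).2) -
        (a * ∑ j, k j * (R.e i).1 j + c * ∑ j, l j * (R.e i).1 j) := by rw [← h2]
    _ = _ := by ring

theorem kl_ball (x : Hyp n) : ∑ j, kl x j ^ 2 < 1 := by
  have ht : 0 < x.1.2 := x.2.2
  rw [M1_sum_kl]
  have : 0 < 1 / x.1.2 ^ 2 := by positivity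
  linarith

theorem kl_up (k : Fin n → ℝ) (h : ∑ j, k j ^ 2 < 1) : kl (up k) = k := by
  have h0 : 0 < 1 - ∑ j, k j ^ 2 := by linarith
  have h1 : 0 < √(1 - ∑ j, k j ^ 2) := Real.sqrt_pos.mpr h0
  funext j
  unfold kl up
  rw [dif_pos h]
  simp only [Prod.smul_fst, Prod.smul_snd, Pi.smul_apply, smul_eq_mul, mul_one]
  field_simp

theorem up_kl (x : Hyp n) : up (kl x) = x := by
  have ht : 0 < x.1.2 := x.2.2
  have hb := kl_ball x
  have hs := M1_sum_kl x
  apply Subtype.ext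
  unfold up
  rw [dif_pos hb]
  have h1 : √(1 - ∑ j, kl x j ^ 2) = 1 / x.1.2 := by
    rw [hs, sub_sub_cancel]
    rw [Real.sqrt_eq_iff_mul_self_eq (by positivity) (by positivity)]
    field_simp
  refine Prod.ext ?_ ?_
  · funext j
    simp only [Prod.smul_fst, Pi.smul_apply, smul_eq_mul, h1]
    unfold kl
    field_simp
  · simp only [Prod.smul_snd, smul_eq_mul, h1]
    field_simp

theorem continuous_kl : Continuous (kl : Hyp n → Fin n → ℝ) := by
  unfold kl
  refine continuous_pi fun j => ?_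
  refine Continuous.div ?_ ?_ fun x => x.2.2.ne'
  · exact (continuous_apply j).comp (continuous_fst.comp continuous_subtype_val)
  · exact continuous_snd.comp continuous_subtype_val

theorem continuousOn_up : ContinuousOn (up : (Fin n → ℝ) → Hyp n) {k | ∑ j, k j ^ 2 < 1} := by
  rw [Topology.IsInducing.subtypeVal.continuousOn_iff]
  have h1 : ContinuousOn (fun k : Fin n → ℝ => ((√(1 - ∑ j, k j ^ 2))⁻¹ • ((k, 1) : Mk n) : Mk n))
      {k | ∑ j, k j ^ 2 < 1} := by
    refine ContinuousOn.fun_smul ?_ ?_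
    · apply ContinuousOn.inv₀
      · apply Continuous.continuousOn
        fun_prop
      · intro k hk
        have hk' : ∑ j, k j ^ 2 < 1 := hk
        have h0 : 0 < 1 - ∑ j, k j ^ 2 := by linarith
        exact (Real.sqrt_pos.mpr h0).ne'
    · apply Continuous.continuousOn
      fun_prop
  refine h1.congr fun k hk => ?_
  have hk' : ∑ j, k j ^ 2 < 1 := hk
  simp only [Function.comp_apply]
  unfold up
  rw [dif_pos hk']

theorem P1_convex (R : CX n I) : Convex ℝ R.P1 := by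
  intro k hk l hl a c ha hc hac i
  have h1 := hk i
  have h2 := hl i
  rw [M1_al_comb R i k l a c hac]
  have := mul_nonneg ha h1
  have := mul_nonneg hc h2
  linarith

theorem P1_ball (R : CX n I) (k : Fin n → ℝ) (hk : k ∈ R.P1) : ∑ j, k j ^ 2 < 1 := by
  by_contra hcon
  push Not at hcon
  set k₀ := kl R.ctr with hk₀
  have hk₀P : k₀ ∈ R.P1 := (kl_mem_P1 R R.ctr).2 fun i => (R.ctr_neg i).le
  have hk₀b : ∑ j, k₀ j ^ 2 < 1 := kl_ball R.ctr
  -- the segment
  let f : ℝ → Fin n → ℝ := fun s j => (1 - s) * k₀ j + s * k j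
  have hf : ∀ s, f s = (1 - s) • k₀ + s • k := by
    intro s
    funext j
    simp [f]
  have hfP : ∀ s, 0 ≤ s → s ≤ 1 → f s ∈ R.P1 := by
    intro s hs0 hs1
    rw [hf]
    exact P1_convex R hk₀P hk (by linarith) hs0 (by ring)
  let q : ℝ → ℝ := fun s => ∑ j, f s j ^ 2
  have hq : Continuous q := by
    simp only [q, f]
    fun_prop
  have hq0 : q 0 < 1 := by
    simp only [q, f]
    simpa using hk₀b
  have hq1 : 1 ≤ q 1 := by
    simp only [q, f]
    simpa using hcon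
  -- the bound for the times
  obtain ⟨M, hM⟩ : ∃ M : ℝ, ∀ x ∈ R.P, x.1.2 ≤ M := by
    have hc : IsCompact R.P := R.cpt
    have hcont : ContinuousOn (fun x : Hyp n => x.1.2) R.P :=
      (continuous_snd.comp continuous_subtype_val).continuousOn
    obtain ⟨M, hM⟩ := (hc.image_of_continuousOn hcont).bddAbove
    exact ⟨M, fun x hx => hM (Set.mem_image_of_mem _ hx)⟩
  have hctrP : R.ctr ∈ R.P := fun i => (R.ctr_neg i).le
  have hM0 : 0 < M := lt_of_lt_of_le R.ctr.2.2 (hM _ hctrP)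
  have key : ∀ s, 0 ≤ s → s ≤ 1 → q s < 1 → (M⁻¹) ^ 2 ≤ 1 - q s := by
    intro s hs0 hs1 hqs
    have hqs' : ∑ j, f s j ^ 2 < 1 := hqs
    have h0 : 0 < 1 - q s := by linarith
    have h1 : 0 < √(1 - q s) := Real.sqrt_pos.mpr h0
    have hup : up (f s) ∈ R.P := by
      rw [← kl_mem_P1, kl_up _ hqs']
      exact hfP s hs0 hs1
    have h2 := hM _ hup
    have h3 : (up (f s)).1.2 = (√(1 - q s))⁻¹ := by
      unfold up
      rw [dif_pos hqs']
      simp only [Prod.smul_snd, smul_eq_mul, mul_one, q]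
    rw [h3] at h2
    have h4 : M⁻¹ ≤ √(1 - q s) := inv_le_of_inv_le₀ h1 h2
    calc (M⁻¹) ^ 2 ≤ (√(1 - q s)) ^ 2 := pow_le_pow_left₀ (by positivity) h4 2
      _ = 1 - q s := Real.sq_sqrt h0.le
  have hMi : 0 < (M⁻¹) ^ 2 := by positivity
  have hk0 := key 0 le_rfl zero_le_one hq0
  have hiv := intermediate_value_Icc (zero_le_one : (0 : ℝ) ≤ 1) hq.continuousOn
  have hmem : 1 - (M⁻¹) ^ 2 / 2 ∈ Set.Icc (q 0) (q 1) := ⟨by linarith, by linarith⟩
  obtain ⟨s, ⟨hs0, hs1⟩, hs⟩ := hiv hmem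
  have h5 := key s hs0 hs1 (by rw [hs]; linarith)
  rw [hs] at h5
  linarith

theorem P1_compact (R : CX n I) : IsCompact R.P1 := by
  apply Metric.isCompact_of_isClosed_isBounded
  · have h1 : R.P1 = ⋂ i, {k | 0 ≤ R.al i k} := by
      ext k
      simp [CX.P1]
    rw [h1]
    refine isClosed_iInter fun i => ?_
    refine isClosed_le continuous_const ?_
    unfold CX.al
    fun_prop
  · refine (Metric.isBounded_closedBall (x := (0 : Fin n → ℝ)) (r := 1)).subset ?_
    intro k hk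
    rw [mem_closedBall_zero_iff, pi_norm_le_iff_of_nonneg zero_le_one]
    intro j
    have h1 := P1_ball R k hk
    have h2 : k j ^ 2 ≤ ∑ j, k j ^ 2 :=
      Finset.single_le_sum (f := fun j => k j ^ 2) (fun _ _ => sq_nonneg _) (Finset.mem_univ j)
    rw [Real.norm_eq_abs]
    exact M1_abs_le (by linarith)

theorem up_mem_P (R : CX n I) (k : Fin n → ℝ) (hk : k ∈ R.P1) : up k ∈ R.P := by
  have h1 := P1_ball R k hk
  rw [← kl_mem_P1, kl_up k h1]
  exact hk

end Pool.Agent.MP_455d73_gt.CS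
end
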