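import Pool.Agent.Lib.MP_455d73_gt.CS.Chart
import Pool.Agent.Lib.MP_455d73_gt.Mg.G001
import Pool.Agent.Lib.MP_455d73_gt.CS.Hd

section

/-!
TASK L0 (medium): elementary facts on convex polyhedra and piecewise affine maps.

`HPoly.inter`: union of the two finsets of functionals. `HPoly.univ`: empty finset. `HPoly.preimage`: compose the functionals with
the affine map (`AffineMap.comp`, `Finset.image`). `HPoly.isClosed`: affine maps on a finite-dimensional space are continuous
(`AffineMap.continuous_of_finiteDimensional`). `HPoly.le`: the functional `g - f`.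
`PA_mk`, `PAr_mk`: only the continuity is to be proved: `f` is continuous on each of the sets `X ∩ C j`, which are closed in `X`, finitely
many and cover `X`. For a point `x ∈ X` and a neighbourhood `U` of `f x`: for each `j` with `x ∈ C j` there is a neighbourhood on which
`A j` has values in `U`; for each `j` with `x ∉ C j` the complement of `C j` is a neighbourhood of `x`; intersect these finitely many
neighbourhoods. `PA.comp`: pieces `C j ∩ (A j)⁻¹' C' l`, affine maps `(A' l).comp (A j)`. `PA.mono`, `PA.congr`: clear. `PA.affine`: one piece.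
The index types `Fin m`: use `Fintype.equivFin`/`Finite.equivFin` to pass from a finite type of pieces (`PA_mk'` has an
arbitrary finite index type `J`).
-/

set_option autoImplicit false

open Finset
open scoped Classical

namespace Pool.Agent.MP_455d73_gt.CS

variable {ι κ μ : Type} [Fintype ι] [Fintype κ] [Fintype μ]

theorem HPoly.univ : HPoly (Set.univ : Set (ι → ℝ)) := by
  refine ⟨∅, ?_⟩
  ext x
  simp

theorem HPoly.inter {C D : Set (ι → ℝ)} (hC : HPoly C) (hD : HPoly D) : HPoly (C ∩ D) := by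
  obtain ⟨L, rfl⟩ := hC
  obtain ⟨L', rfl⟩ := hD
  refine ⟨L ∪ L', ?_⟩
  ext x
  simp only [Set.mem_inter_iff, Set.mem_setOf_eq, Finset.mem_union]
  constructor
  · rintro ⟨h1, h2⟩ l (hl | hl)
    · exact h1 l hl
    · exact h2 l hl
  · intro h
    exact ⟨fun l hl => h l (Or.inl hl), fun l hl => h l (Or.inr hl)⟩

theorem HPoly.preimage {C : Set (κ → ℝ)} (hC : HPoly C) (A : (ι → ℝ) →ᵃ[ℝ] (κ → ℝ)) :
    HPoly (A ⁻¹' C) := by
  obtain ⟨L, rfl⟩ := hC
  refine ⟨L.image (fun l => l.comp A), ?_⟩
  ext x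
  simp only [Set.mem_preimage, Set.mem_setOf_eq, Finset.mem_image]
  constructor
  · rintro h l' ⟨l, hl, rfl⟩
    exact h l hl
  · intro h l hl
    exact h _ ⟨l, hl, rfl⟩

theorem HPoly.isClosed {C : Set (ι → ℝ)} (hC : HPoly C) : IsClosed C := by
  obtain ⟨L, rfl⟩ := hC
  have h : {x : ι → ℝ | ∀ l ∈ L, 0 ≤ l x} = ⋂ l ∈ L, {x | 0 ≤ l x} := by
    ext x
    simp
  rw [h]
  refine isClosed_biInter fun l _ => ?_
  exact isClosed_le continuous_const l.continuous_of_finiteDimensional

theorem HPoly.le (f g : (ι → ℝ) →ᵃ[ℝ] ℝ) : HPoly {x | f x ≤ g x} := by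
  refine ⟨{g - f}, ?_⟩
  ext x
  simp

theorem HPoly.iInter {J : Type} [Finite J] (C : J → Set (ι → ℝ)) (h : ∀ j, HPoly (C j)) :
    HPoly (⋂ j, C j) := by
  choose L hL using h
  have : Fintype J := Fintype.ofFinite J
  refine ⟨Finset.univ.biUnion L, ?_⟩
  ext x
  simp only [Set.mem_iInter, Set.mem_setOf_eq, Finset.mem_biUnion, Finset.mem_univ, true_and]
  constructor
  · rintro h l ⟨j, hj⟩
    have h1 := h j
    rw [hL j] at h1
    exact h1 l hj
  · intro h j
    rw [hL j]
    exact fun l hl => h l ⟨j, hl⟩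

private theorem L0_cont {J : Type} [Finite J] {β : Type} [TopologicalSpace β] {X : Set (ι → ℝ)}
    {f : (ι → ℝ) → β} (C : J → Set (ι → ℝ)) (A : J → (ι → ℝ) → β) (hA : ∀ j, Continuous (A j))
    (h1 : ∀ j, HPoly (C j)) (h2 : ∀ x ∈ X, ∃ j, x ∈ C j)
    (h3 : ∀ j, ∀ x ∈ X, x ∈ C j → f x = A j x) : ContinuousOn f X := by
  rw [continuousOn_iff_continuous_restrict]
  refine (locallyFinite_of_finite (fun j => (Subtype.val ⁻¹' C j : Set X))).continuous ?_ ?_ ?_
  · ext x
    simp only [Set.mem_iUnion, Set.mem_preimage, Set.mem_univ, iff_true]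
    exact h2 x.1 x.2
  · intro j
    exact (HPoly.isClosed (h1 j)).preimage continuous_subtype_val
  · intro j
    refine (((hA j).comp continuous_subtype_val).continuousOn).congr ?_
    intro x hx
    exact h3 j x.1 x.2 hx

theorem PA_mk' {J : Type} [Finite J] {X : Set (ι → ℝ)} {f : (ι → ℝ) → (κ → ℝ)} (C : J → Set (ι → ℝ))
    (A : J → ((ι → ℝ) →ᵃ[ℝ] (κ → ℝ))) (h1 : ∀ j, HPoly (C j)) (h2 : ∀ x ∈ X, ∃ j, x ∈ C j)
    (h3 : ∀ j, ∀ x ∈ X, x ∈ C j → f x = A j x) : PA X f := by
  refine ⟨L0_cont C (fun j => A j) (fun j => (A j).continuous_of_finiteDimensional) h1 h2 h3,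
    Nat.card J, fun i => C ((Finite.equivFin J).symm i), fun i => A ((Finite.equivFin J).symm i),
    fun i => h1 _, ?_, fun i x hx hC => h3 _ x hx hC⟩
  intro x hx
  obtain ⟨j, hj⟩ := h2 x hx
  refine ⟨Finite.equivFin J j, ?_⟩
  change x ∈ C ((Finite.equivFin J).symm (Finite.equivFin J j))
  rw [Equiv.symm_apply_apply]
  exact hj

theorem PAr_mk' {J : Type} [Finite J] {X : Set (ι → ℝ)} {f : (ι → ℝ) → ℝ} (C : J → Set (ι → ℝ))
    (A : J → ((ι → ℝ) →ᵃ[ℝ] ℝ)) (h1 : ∀ j, HPoly (C j)) (h2 : ∀ x ∈ X, ∃ j, x ∈ C j)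
    (h3 : ∀ j, ∀ x ∈ X, x ∈ C j → f x = A j x) : PAr X f := by
  refine ⟨L0_cont C (fun j => A j) (fun j => (A j).continuous_of_finiteDimensional) h1 h2 h3,
    Nat.card J, fun i => C ((Finite.equivFin J).symm i), fun i => A ((Finite.equivFin J).symm i),
    fun i => h1 _, ?_, fun i x hx hC => h3 _ x hx hC⟩
  intro x hx
  obtain ⟨j, hj⟩ := h2 x hx
  refine ⟨Finite.equivFin J j, ?_⟩
  change x ∈ C ((Finite.equivFin J).symm (Finite.equivFin J j))
  rw [Equiv.symm_apply_apply]
  exact hj

theorem PA.mono {X Y : Set (ι → ℝ)} {f : (ι → ℝ) → (κ → ℝ)} (h : PA X f) (hY : Y ⊆ X) : PA Y f := by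
  obtain ⟨h0, m, C, A, h1, h2, h3⟩ := h
  exact ⟨h0.mono hY, m, C, A, h1, fun x hx => h2 x (hY hx), fun j x hx hC => h3 j x (hY hx) hC⟩

theorem PA.congr {X : Set (ι → ℝ)} {f g : (ι → ℝ) → (κ → ℝ)} (h : PA X f) (hfg : ∀ x ∈ X, f x = g x) :
    PA X g := by
  obtain ⟨h0, m, C, A, h1, h2, h3⟩ := h
  refine ⟨h0.congr fun x hx => (hfg x hx).symm, m, C, A, h1, h2, fun j x hx hC => ?_⟩
  rw [← hfg x hx]
  exact h3 j x hx hC

theorem PA.affine (X : Set (ι → ℝ)) (A : (ι → ℝ) →ᵃ[ℝ] (κ → ℝ)) : PA X A := by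
  exact PA_mk' (J := Unit) (fun _ => Set.univ) (fun _ => A) (fun _ => HPoly.univ)
    (fun x _ => ⟨(), Set.mem_univ x⟩) (fun _ _ _ _ => rfl)

theorem PA.comp {X : Set (ι → ℝ)} {Y : Set (κ → ℝ)} {f : (ι → ℝ) → (κ → ℝ)} {g : (κ → ℝ) → (μ → ℝ)}
    (hf : PA X f) (hg : PA Y g) (h : ∀ x ∈ X, f x ∈ Y) : PA X (fun x => g (f x)) := by
  obtain ⟨_, m, C, A, h1, h2, h3⟩ := hf
  obtain ⟨_, m', C', A', h1', h2', h3'⟩ := hg
  refine PA_mk' (J := Fin m × Fin m') (fun q => C q.1 ∩ (A q.1) ⁻¹' C' q.2)
    (fun q => (A' q.2).comp (A q.1)) (fun q => HPoly.inter (h1 q.1) (HPoly.preimage (h1' q.2) _))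
    ?_ ?_
  · intro x hx
    obtain ⟨j, hj⟩ := h2 x hx
    obtain ⟨l, hl⟩ := h2' (f x) (h x hx)
    refine ⟨(j, l), hj, ?_⟩
    rw [Set.mem_preimage, ← h3 j x hx hj]
    exact hl
  · rintro ⟨j, l⟩ x hx ⟨hj, hl⟩
    have e := h3 j x hx hj
    rw [Set.mem_preimage, ← e] at hl
    rw [h3' l (f x) (h x hx) hl, AffineMap.comp_apply, e]

end Pool.Agent.MP_455d73_gt.CS
end

section

/-!
M2: barycentric subdivision of the polytope.
-/

set_option autoImplicit false

open Finset
open scoped Classical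

namespace Pool.Agent.MP_455d73_gt.CS

variable {n : ℕ} {I : Type}

theorem CX.b_spec (R : CX n I) (A : Set I) (hA : A ∈ R.faces) : R.b A ∈ R.P1 ∧ R.act (R.b A) = A := by
  have h : ∃ k ∈ R.P1, R.act k = A := hA
  have e : R.b A = h.choose := dif_pos h
  rw [e]
  exact h.choose_spec

private theorem M2_al_sum [Fintype I] (R : CX n I) (i : I) (t : Set I → ℝ) (x : Set I → Fin n → ℝ)
    (h1 : ∑ A, t A = 1) : R.al i (∑ A, t A • x A) = ∑ A, t A * R.al i (x A) := by
  unfold CX.al
  simp only [mul_sub, Finset.sum_sub_distrib, ← Finset.sum_mul, h1, one_mul]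
  congr 1
  simp only [Finset.sum_apply, Pi.smul_apply, smul_eq_mul, Finset.sum_mul, Finset.mul_sum]
  rw [Finset.sum_comm]
  refine Finset.sum_congr rfl (fun A _ => Finset.sum_congr rfl (fun j _ => by ring))

private theorem M2_al_line (R : CX n I) (i : I) (b k : Fin n → ℝ) (s : ℝ) :
    R.al i (b + s • (k - b)) = R.al i b + s * (R.al i k - R.al i b) := by
  unfold CX.al
  simp only [Pi.add_apply, Pi.smul_apply, Pi.sub_apply, smul_eq_mul, add_mul, Finset.sum_add_distrib,
    sub_mul, mul_assoc, ← Finset.mul_sum, Finset.sum_sub_distrib]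
  ring

/-- The smallest element of a nonempty finite chain. -/
private theorem M2_min [Fintype I] (T : Finset (Set I)) (hT : T.Nonempty)
    (hc : ∀ A ∈ T, ∀ B ∈ T, A ⊆ B ∨ B ⊆ A) : ∃ A ∈ T, ∀ B ∈ T, A ⊆ B := by
  obtain ⟨A, hA, hmin⟩ := Finset.exists_minimal hT
  refine ⟨A, hA, fun B hB => ?_⟩
  rcases hc A hA B hB with h | h
  · exact h
  · exact hmin hB h

/-- The zero set of the functionals at a weighted sum. -/
private theorem M2_zero [Fintype I] (R : CX n I) (t : Set I → ℝ) (h0 : ∀ A, 0 ≤ t A)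
    (hf : ∀ A, t A ≠ 0 → A ∈ R.faces) (hc : ∀ A B, t A ≠ 0 → t B ≠ 0 → A ⊆ B ∨ B ⊆ A)
    (hne : ∃ A, t A ≠ 0) :
    ∃ A, t A ≠ 0 ∧ (∀ B, t B ≠ 0 → A ⊆ B) ∧ ∀ i, ∑ B, t B * R.al i (R.b B) = 0 ↔ i ∈ A := by
  obtain ⟨A1, hA1⟩ := hne
  obtain ⟨A, hA, hmin⟩ := M2_min (Finset.univ.filter (fun A => t A ≠ 0)) ⟨A1, by simpa using hA1⟩
    (fun A hA B hB => hc A B (by simpa using hA) (by simpa using hB))
  have hA' : t A ≠ 0 := by simpa using hA
  refine ⟨A, hA', fun B hB => hmin B (by simpa using hB), fun i => ?_⟩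
  have hnn : ∀ B, 0 ≤ t B * R.al i (R.b B) := by
    intro B
    by_cases hB : t B = 0
    · rw [hB, zero_mul]
    · exact mul_nonneg (h0 B) ((R.b_spec B (hf B hB)).1 i)
  rw [Finset.sum_eq_zero_iff_of_nonneg (fun B _ => hnn B)]
  constructor
  · intro h
    have h1 := h A (Finset.mem_univ A)
    have h2 : R.al i (R.b A) = 0 := (mul_eq_zero.mp h1).resolve_left hA'
    have h3 : i ∈ R.act (R.b A) := h2
    rwa [(R.b_spec A (hf A hA')).2] at h3
  · intro hi B _
    by_cases hB : t B = 0
    · rw [hB, zero_mul]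
    · have h1 : i ∈ B := hmin B (by simpa using hB) hi
      rw [← (R.b_spec B (hf B hB)).2] at h1
      have h2 : R.al i (R.b B) = 0 := h1
      rw [h2, mul_zero]

theorem CX.bary_mem [Fintype I] (R : CX n I) (k : Fin n → ℝ) (t : Set I → ℝ) (h : R.Bary k t) :
    k ∈ R.P1 ∧ t (R.act k) ≠ 0 ∧ ∀ B, t B ≠ 0 → R.act k ⊆ B := by
  obtain ⟨h0, hf, hc, h1, hk⟩ := h
  have hal : ∀ i, R.al i k = ∑ A, t A * R.al i (R.b A) := by
    intro i
    rw [← hk, M2_al_sum R i t _ h1]
  have hne : ∃ A, t A ≠ 0 := by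
    by_contra hcon
    push Not at hcon
    rw [Finset.sum_eq_zero (fun A _ => hcon A)] at h1
    exact zero_ne_one h1
  obtain ⟨A, hA, hmin, hz⟩ := M2_zero R t h0 hf hc hne
  have hact : R.act k = A := by
    ext i
    rw [← hz i, ← hal i]
    rfl
  rw [hact]
  refine ⟨fun i => ?_, hA, hmin⟩
  rw [hal i]
  refine Finset.sum_nonneg (fun B _ => ?_)
  by_cases hB : t B = 0
  · rw [hB, zero_mul]
  · exact mul_nonneg (h0 B) ((R.b_spec B (hf B hB)).1 i)

private theorem M2_rec (R : CX n I) (b k : Fin n → ℝ) (hb : b ∈ R.P1)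
    (h : ∀ i, R.al i b ≤ R.al i k) : k = b := by
  by_contra hne
  obtain ⟨j, hj⟩ := Function.ne_iff.mp hne
  have hd : 0 < |k j - b j| := abs_pos.mpr (sub_ne_zero.mpr hj)
  have hs : 0 ≤ 2 / |k j - b j| := by positivity
  have hy : b + (2 / |k j - b j|) • (k - b) ∈ R.P1 := by
    intro i
    rw [M2_al_line]
    have h1 := hb i
    have h2 := mul_nonneg hs (sub_nonneg.mpr (h i))
    linarith
  have hball := P1_ball R _ hy
  have hball2 := P1_ball R b hb
  have h3 : (b + (2 / |k j - b j|) • (k - b)) j ^ 2 < 1 :=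
    lt_of_le_of_lt (Finset.single_le_sum (f := fun l => (b + (2 / |k j - b j|) • (k - b)) l ^ 2)
      (fun l _ => sq_nonneg _) (Finset.mem_univ j)) hball
  have h4 : b j ^ 2 < 1 :=
    lt_of_le_of_lt (Finset.single_le_sum (f := fun l => b l ^ 2)
      (fun l _ => sq_nonneg _) (Finset.mem_univ j)) hball2
  have h5 : |2 / |k j - b j| * (k j - b j)| = 2 := by
    rw [abs_mul, abs_div, abs_abs, abs_of_pos (by norm_num : (0 : ℝ) < 2)]
    field_simp
  have h6 : (b + (2 / |k j - b j|) • (k - b)) j = b j + 2 / |k j - b j| * (k j - b j) := rfl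
  rw [h6] at h3
  have h7 := (sq_lt_one_iff_abs_lt_one _).mp h3
  have h8 := (sq_lt_one_iff_abs_lt_one _).mp h4
  have h9 : |2 / |k j - b j| * (k j - b j)| ≤
      |b j + 2 / |k j - b j| * (k j - b j)| + |b j| := by
    have := abs_sub (b j + 2 / |k j - b j| * (k j - b j)) (b j)
    rwa [add_sub_cancel_left] at this
  linarith

private theorem M2_single [Fintype I] (R : CX n I) (A : Set I) (hA : A ∈ R.faces) :
    R.Bary (R.b A) (fun B => if B = A then 1 else 0) := by
  refine ⟨fun B => by by_cases h : B = A <;> simp [h], ?_, ?_, by simp, by simp⟩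
  · intro B hB
    by_cases h : B = A
    · rwa [h]
    · simp [h] at hB
  · intro B C hB hC
    have h1 : B = A := by
      by_contra h
      simp [h] at hB
    have h2 : C = A := by
      by_contra h
      simp [h] at hC
    rw [h1, h2]
    exact Or.inl subset_rfl

theorem CX.bary_exists [Fintype I] (R : CX n I) (k : Fin n → ℝ) (hk : k ∈ R.P1) : ∃ t, R.Bary k t := by
  suffices H : ∀ N : ℕ, ∀ k ∈ R.P1, (Finset.univ.filter (fun i => i ∉ R.act k)).card ≤ N →
      ∃ t, R.Bary k t from H _ k hk le_rfl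
  intro N
  induction N with
  | zero =>
    intro k hk hN
    have hall : ∀ i, R.al i k = 0 := by
      intro i
      by_contra h
      have : i ∈ Finset.univ.filter (fun i => i ∉ R.act k) :=
        Finset.mem_filter.mpr ⟨Finset.mem_univ i, h⟩
      rw [Finset.card_eq_zero.mp (Nat.le_zero.mp hN)] at this
      simp at this
    have hface : R.act k ∈ R.faces := ⟨k, hk, rfl⟩
    obtain ⟨hb, hba⟩ := R.b_spec _ hface
    have hkb : k = R.b (R.act k) := by
      refine M2_rec R _ k hb (fun i => ?_)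
      have h1 : i ∈ R.act k := hall i
      rw [← hba] at h1
      have h2 : R.al i (R.b (R.act k)) = 0 := h1
      rw [h2, hall i]
    refine ⟨fun B => if B = R.act k then 1 else 0, ?_⟩
    have := M2_single R (R.act k) hface
    rwa [← hkb] at this
  | succ N ih =>
    intro k hk hN
    have hface : R.act k ∈ R.faces := ⟨k, hk, rfl⟩
    obtain ⟨hb, hba⟩ := R.b_spec _ hface
    by_cases hkb : k = R.b (R.act k)
    · refine ⟨fun B => if B = R.act k then 1 else 0, ?_⟩
      have := M2_single R (R.act k) hface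
      rwa [← hkb] at this
    obtain ⟨A, hAdef⟩ : ∃ A, A = R.act k := ⟨_, rfl⟩
    rw [← hAdef] at hface hb hba hkb
    obtain ⟨b, hbdef⟩ : ∃ b, b = R.b A := ⟨_, rfl⟩
    rw [← hbdef] at hb hba hkb
    have hzero : ∀ i, i ∈ A ↔ R.al i b = 0 := by
      intro i
      rw [← hba]
      rfl
    have hzero' : ∀ i, i ∈ A ↔ R.al i k = 0 := by
      intro i
      rw [hAdef]
      rfl
    have hbpos : ∀ i, i ∉ A → 0 < R.al i b := fun i hi =>
      lt_of_le_of_ne (hb i) (fun h => hi ((hzero i).mpr h.symm))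
    -- the set of the walls which decrease
    let J := Finset.univ.filter (fun i => R.al i k < R.al i b)
    have hJ : J.Nonempty := by
      by_contra hcon
      rw [Finset.not_nonempty_iff_eq_empty] at hcon
      apply hkb
      refine M2_rec R b k hb (fun i => ?_)
      by_contra hlt
      push Not at hlt
      have : i ∈ J := by
        simp only [J, Finset.mem_filter, Finset.mem_univ, true_and]
        exact hlt
      rw [hcon] at this
      simp at this
    obtain ⟨i0, hi0, hmin⟩ := Finset.exists_min_image J (fun i => R.al i k / R.al i b) hJ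
    have hi0' : R.al i0 k < R.al i0 b := by
      simpa [J] using hi0
    have hb0 : 0 < R.al i0 b := lt_of_le_of_lt (hk i0) hi0'
    have hi0A : i0 ∉ A := fun h => hb0.ne' ((hzero i0).mp h)
    have hk0 : 0 < R.al i0 k := lt_of_le_of_ne (hk i0) (fun h => hi0A ((hzero' i0).mpr h.symm))
    obtain ⟨c, hc⟩ : ∃ c, c = R.al i0 k / R.al i0 b := ⟨_, rfl⟩
    have hc0 : 0 < c := by rw [hc]; positivity
    have hc1 : c < 1 := by rw [hc]; exact (div_lt_one hb0).mpr hi0'
    have h1c : 0 < 1 - c := by linarith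
    have hall : ∀ i, c * R.al i b ≤ R.al i k := by
      intro i
      by_cases hi : R.al i k < R.al i b
      · have hbi : 0 < R.al i b := lt_of_le_of_lt (hk i) hi
        have := hmin i (by simpa [J] using hi)
        rw [← hc] at this
        exact (le_div_iff₀ hbi).mp this
      · push Not at hi
        have h1 : c * R.al i b ≤ 1 * R.al i b := mul_le_mul_of_nonneg_right hc1.le (hb i)
        linarith
    obtain ⟨y, hy⟩ : ∃ y, y = b + (1 / (1 - c)) • (k - b) := ⟨_, rfl⟩
    have hyal : ∀ i, R.al i y = (R.al i k - c * R.al i b) / (1 - c) := by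
      intro i
      rw [hy, M2_al_line]
      field_simp
      ring
    have hyP : y ∈ R.P1 := by
      intro i
      rw [hyal i]
      exact div_nonneg (by linarith [hall i]) h1c.le
    have hsub : ∀ i, i ∈ A → i ∈ R.act y := by
      intro i hi
      show R.al i y = 0
      rw [hyal i, (hzero i).mp hi, (hzero' i).mp hi]
      simp
    have hi0y : i0 ∈ R.act y := by
      show R.al i0 y = 0
      rw [hyal i0, hc]
      have : R.al i0 k - R.al i0 k / R.al i0 b * R.al i0 b = 0 := by
        field_simp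
        ring
      rw [this, zero_div]
    have hcard : (Finset.univ.filter (fun i => i ∉ R.act y)).card <
        (Finset.univ.filter (fun i => i ∉ R.act k)).card := by
      refine Finset.card_lt_card ?_
      rw [Finset.ssubset_iff_of_subset]
      · refine ⟨i0, ?_, ?_⟩
        · rw [← hAdef]
          simpa using hi0A
        · simpa using hi0y
      · intro i hi
        rw [Finset.mem_filter] at hi ⊢
        refine ⟨hi.1, fun h => hi.2 ?_⟩
        rw [← hAdef] at h
        exact hsub i h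
    obtain ⟨t, ht⟩ := ih y hyP (by omega)
    obtain ⟨-, -, htB⟩ := R.bary_mem y t ht
    obtain ⟨h0, hf, hch, h1, hyt⟩ := ht
    have hAsub : ∀ B, t B ≠ 0 → A ⊆ B := fun B hB i hi => htB B hB (hsub i hi)
    refine ⟨fun B => (if B = A then c else 0) + (1 - c) * t B, ?_, ?_, ?_, ?_, ?_⟩
    · intro B
      have := mul_nonneg h1c.le (h0 B)
      show 0 ≤ (if B = A then c else 0) + (1 - c) * t B
      split
      · linarith
      · linarith
    · intro B hB
      by_cases h : B = A
      · rwa [h]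
      · have : t B ≠ 0 := by
          intro h'
          simp [h, h'] at hB
        exact hf B this
    · intro B C hB hC
      have key : ∀ D, (if D = A then c else 0) + (1 - c) * t D ≠ 0 → D = A ∨ t D ≠ 0 := by
        intro D hD
        by_cases h : D = A
        · exact Or.inl h
        · right
          intro h'
          simp [h, h'] at hD
      rcases key B hB with hB' | hB'
      · rcases key C hC with hC' | hC'
        · rw [hB', hC']
          exact Or.inl subset_rfl
        · rw [hB']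
          exact Or.inl (hAsub C hC')
      · rcases key C hC with hC' | hC'
        · rw [hC']
          exact Or.inr (hAsub B hB')
        · exact hch B C hB' hC'
    · rw [Finset.sum_add_distrib, ← Finset.mul_sum, h1]
      simp
    · simp only [add_smul, Finset.sum_add_distrib, mul_smul, ← Finset.smul_sum, hyt]
      have h2 : ∑ B, (if B = A then c else 0) • R.b B = c • b := by
        rw [Finset.sum_eq_single A]
        · simp [hbdef]
        · intro B _ hB
          simp [hB]
        · simp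
      rw [h2, hy]
      ext j
      simp only [Pi.add_apply, Pi.smul_apply, Pi.sub_apply, smul_eq_mul]
      field_simp
      ring

private theorem M2_uniq [Fintype I] (R : CX n I) : ∀ N : ℕ, ∀ t t' : Set I → ℝ,
    (∀ A, 0 ≤ t A) → (∀ A, t A ≠ 0 → A ∈ R.faces) → (∀ A B, t A ≠ 0 → t B ≠ 0 → A ⊆ B ∨ B ⊆ A) →
    (∀ A, 0 ≤ t' A) → (∀ A, t' A ≠ 0 → A ∈ R.faces) → (∀ A B, t' A ≠ 0 → t' B ≠ 0 → A ⊆ B ∨ B ⊆ A) →
    (∑ A, t A = ∑ A, t' A) → (∀ i, ∑ A, t A * R.al i (R.b A) = ∑ A, t' A * R.al i (R.b A)) →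
    (Finset.univ.filter (fun A => t A ≠ 0)).card + (Finset.univ.filter (fun A => t' A ≠ 0)).card ≤ N →
    t = t' := by
  intro N
  induction N with
  | zero =>
    intro t t' _ _ _ _ _ _ _ _ hN
    have h1 : (Finset.univ.filter (fun A => t A ≠ 0)).card = 0 := by omega
    have h2 : (Finset.univ.filter (fun A => t' A ≠ 0)).card = 0 := by omega
    rw [Finset.card_eq_zero, Finset.filter_eq_empty_iff] at h1 h2
    funext A
    have h3 := h1 (Finset.mem_univ A)
    have h4 := h2 (Finset.mem_univ A)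
    push Not at h3 h4
    rw [h3, h4]
  | succ N ih =>
    -- the step, for `t A ≤ t' A`
    have step : ∀ t t' : Set I → ℝ,
        (∀ A, 0 ≤ t A) → (∀ A, t A ≠ 0 → A ∈ R.faces) →
        (∀ A B, t A ≠ 0 → t B ≠ 0 → A ⊆ B ∨ B ⊆ A) →
        (∀ A, 0 ≤ t' A) → (∀ A, t' A ≠ 0 → A ∈ R.faces) →
        (∀ A B, t' A ≠ 0 → t' B ≠ 0 → A ⊆ B ∨ B ⊆ A) →
        (∑ A, t A = ∑ A, t' A) →
        (∀ i, ∑ A, t A * R.al i (R.b A) = ∑ A, t' A * R.al i (R.b A)) →
        (Finset.univ.filter (fun A => t A ≠ 0)).card +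
          (Finset.univ.filter (fun A => t' A ≠ 0)).card ≤ N + 1 →
        ∀ A, t A ≠ 0 → t A ≤ t' A → t = t' := by
      intro t t' a1 a2 a3 b1 b2 b3 hs hl hN A hA hle
      have hA' : t' A ≠ 0 := (lt_of_lt_of_le (lt_of_le_of_ne (a1 A) hA.symm) hle).ne'
      have hne1 : ∀ B, t B - (if B = A then t A else 0) ≠ 0 → t B ≠ 0 := by
        intro B hB h
        by_cases hBA : B = A
        · rw [hBA] at h
          exact hA h
        · simp [hBA, h] at hB
      have hne2 : ∀ B, t' B - (if B = A then t A else 0) ≠ 0 → t' B ≠ 0 := by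
        intro B hB h
        by_cases hBA : B = A
        · rw [hBA] at h
          exact hA' h
        · simp [hBA, h] at hB
      have hsum : ∀ f : Set I → ℝ, ∑ B, (f B - (if B = A then t A else 0)) = ∑ B, f B - t A := by
        intro f
        rw [Finset.sum_sub_distrib]
        simp
      have hsum2 : ∀ (f : Set I → ℝ) (i : I), ∑ B, (f B - (if B = A then t A else 0)) * R.al i (R.b B) =
          ∑ B, f B * R.al i (R.b B) - t A * R.al i (R.b A) := by
        intro f i
        simp only [sub_mul, Finset.sum_sub_distrib]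
        simp
      have heq := ih (fun B => t B - (if B = A then t A else 0)) (fun B => t' B - (if B = A then t A else 0))
        (by
          intro B
          by_cases hBA : B = A
          · simp [hBA]
          · simp [hBA, a1 B])
        (fun B hB => a2 B (hne1 B hB)) (fun B C hB hC => a3 B C (hne1 B hB) (hne1 C hC))
        (by
          intro B
          by_cases hBA : B = A
          · simp [hBA, hle]
          · simp [hBA, b1 B])
        (fun B hB => b2 B (hne2 B hB)) (fun B C hB hC => b3 B C (hne2 B hB) (hne2 C hC))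
        (by rw [hsum, hsum, hs]) (by intro i; rw [hsum2, hsum2, hl i])
        (by
          have h1 : (Finset.univ.filter (fun B => t B - (if B = A then t A else 0) ≠ 0)).card <
              (Finset.univ.filter (fun B => t B ≠ 0)).card := by
            refine Finset.card_lt_card ?_
            rw [Finset.ssubset_iff_of_subset]
            · exact ⟨A, by simpa using hA, by simp⟩
            · intro B hB
              rw [Finset.mem_filter] at hB ⊢
              exact ⟨hB.1, hne1 B hB.2⟩
          have h2 : (Finset.univ.filter (fun B => t' B - (if B = A then t A else 0) ≠ 0)).card ≤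
              (Finset.univ.filter (fun B => t' B ≠ 0)).card := by
            refine Finset.card_le_card ?_
            intro B hB
            rw [Finset.mem_filter] at hB ⊢
            exact ⟨hB.1, hne2 B hB.2⟩
          omega)
      funext B
      have : t B - (if B = A then t A else 0) = t' B - (if B = A then t A else 0) := congrFun heq B
      linarith
    intro t t' a1 a2 a3 b1 b2 b3 hs hl hN
    by_cases hne : ∃ A, t A ≠ 0
    · have hne' : ∃ A, t' A ≠ 0 := by
        by_contra hcon
        push Not at hcon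
        obtain ⟨A, hA⟩ := hne
        rw [Finset.sum_eq_zero (fun A _ => hcon A)] at hs
        rw [Finset.sum_eq_zero_iff_of_nonneg (fun A _ => a1 A)] at hs
        exact hA (hs A (Finset.mem_univ A))
      obtain ⟨A, hA, -, hz⟩ := M2_zero R t a1 a2 a3 hne
      obtain ⟨A', hA', -, hz'⟩ := M2_zero R t' b1 b2 b3 hne'
      have hAA : A = A' := by
        ext i
        rw [← hz i, ← hz' i, hl i]
      rw [← hAA] at hA'
      rcases le_total (t A) (t' A) with hle | hle
      · exact step t t' a1 a2 a3 b1 b2 b3 hs hl hN A hA hle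
      · exact (step t' t b1 b2 b3 a1 a2 a3 hs.symm (fun i => (hl i).symm) (by omega) A hA' hle).symm
    · push Not at hne
      rw [Finset.sum_eq_zero (fun A _ => hne A)] at hs
      have := (Finset.sum_eq_zero_iff_of_nonneg (fun A _ => b1 A)).mp hs.symm
      funext A
      rw [hne A, this A (Finset.mem_univ A)]

theorem CX.bary_unique [Fintype I] (R : CX n I) (k : Fin n → ℝ) (t t' : Set I → ℝ) (h : R.Bary k t)
    (h' : R.Bary k t') : t = t' := by
  obtain ⟨a1, a2, a3, a4, a5⟩ := h
  obtain ⟨b1, b2, b3, b4, b5⟩ := h'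
  refine M2_uniq R _ t t' a1 a2 a3 b1 b2 b3 (by rw [a4, b4]) (fun i => ?_) le_rfl
  rw [← M2_al_sum R i t _ a4, ← M2_al_sum R i t' _ b4, a5, b5]

theorem CX.t_spec [Fintype I] (R : CX n I) (k : Fin n → ℝ) (hk : k ∈ R.P1) : R.Bary k (R.t k) :=
  Classical.epsilon_spec (R.bary_exists k hk)

theorem CX.t_eq [Fintype I] (R : CX n I) (k : Fin n → ℝ) (t : Set I → ℝ) (h : R.Bary k t) : R.t k = t :=
  R.bary_unique k _ _ (R.t_spec k (R.bary_mem k t h).1) h

theorem CX.t_b [Fintype I] (R : CX n I) (A : Set I) (hA : A ∈ R.faces) :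
    R.t (R.b A) = fun B => if B = A then 1 else 0 :=
  R.t_eq _ _ (M2_single R A hA)

end Pool.Agent.MP_455d73_gt.CS
end

section

/-!
TASK H1 (medium): the model `R.X σ` is the realisation of the complex `R.KX σ`.

`⊆`: `z = R.inc σ k c`, `k ∈ R.P1`, `t = R.t k`, `R.Bary k t` (`CX.t_spec`). Let `C = univ.filter (fun A => t A ≠ 0)` (`Set I` is a finite type), `F = C.image (fun A => (A, orb σ A c))`: `z (A, O) = t A` if
`O = orb σ A c` and `0` otherwise, so `z > 0` on `F` and `z = 0` outside; `∑_F z = ∑_C t = 1` (`sum_image`, the map is injective: first coordinate), `F` nonempty as the sum is `1`.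
`⊇`: `z` with `F ∈ R.KX σ`, `c`, `C`. Put `t A = z (A, orb σ A c)`, `k = ∑ A, t A • R.b A`. `R.Bary k t`: `t A ≥ 0` (`z ≥ 0` everywhere: positive on `F`, zero outside); `t A ≠ 0` implies `(A, _) ∈ F`, so `A ∈ C`;
the sum: `∑_A t A = ∑_{v ∈ F} z v` (every `v ∈ F` is `(A, orb σ A c)` for exactly one `A`). `k ∈ R.P1`: `CX.bary_mem`. `R.t k = t` (`CX.t_eq`), and `z = R.inc σ k c`: for `v = (A, O)`: if `O = orb σ A c` both are `t A`;
otherwise `v ∉ F`, so `z v = 0`.
-/

set_option autoImplicit false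

open Finset
open scoped Classical

namespace Pool.Agent.MP_455d73_gt.CS

theorem CX.X_eq {n : ℕ} {I S : Type} [Fintype I] (R : CX n I) (σ : I → Equiv.Perm S) : R.X σ = real (R.KX σ) := by
  ext z
  constructor
  · rintro ⟨k, hk, c, rfl⟩
    obtain ⟨h0, hf, hc, h1, -⟩ := R.t_spec k hk
    set t := R.t k with ht
    set C : Finset (Set I) := Finset.univ.filter (fun A => t A ≠ 0) with hC
    have hCm : ∀ A, A ∈ C ↔ t A ≠ 0 := fun A => by simp [hC]
    have hinj : Set.InjOn (fun A : Set I => (A, orb σ A c)) (C : Set (Set I)) :=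
      fun A _ B _ h => (Prod.mk.inj h).1
    have hzv : ∀ A, R.inc σ k c (A, orb σ A c) = t A := fun A => by
      unfold CX.inc
      simp [ht]
    have hsum : ∑ A ∈ C, t A = 1 := by
      rw [← h1]
      refine Finset.sum_subset (Finset.subset_univ _) (fun A _ hA => ?_)
      by_contra h
      exact hA ((hCm A).2 h)
    have hsumF : ∑ v ∈ C.image (fun A : Set I => (A, orb σ A c)), R.inc σ k c v = 1 := by
      rw [Finset.sum_image hinj, ← hsum]
      exact Finset.sum_congr rfl (fun A _ => hzv A)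
    refine ⟨C.image (fun A => (A, orb σ A c)), ⟨?_, c, C, fun A hA => hf A ((hCm A).1 hA),
      fun A hA B hB => hc A B ((hCm A).1 hA) ((hCm B).1 hB), Finset.Subset.refl _⟩, ?_, ?_, hsumF⟩
    · rw [Finset.nonempty_iff_ne_empty]
      intro he
      rw [he, Finset.sum_empty] at hsumF
      exact zero_ne_one hsumF
    · intro v hv
      obtain ⟨A, hA, rfl⟩ := Finset.mem_image.1 hv
      rw [hzv A]
      exact lt_of_le_of_ne (h0 A) (Ne.symm ((hCm A).1 hA))
    · rintro ⟨A, O⟩ hv
      unfold CX.inc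
      by_cases hO : O = orb σ A c
      · subst hO
        have hA : t A = 0 := by
          by_contra h
          exact hv (Finset.mem_image.2 ⟨A, (hCm A).2 h, rfl⟩)
        simp only [if_true]
        exact hA
      · simp only [if_neg hO]
  · rintro ⟨F, ⟨hF, c, C, hCf, hCc, hFC⟩, hpos, hzero, hsum⟩
    set t : Set I → ℝ := fun A => z (A, orb σ A c) with ht
    have hznn : ∀ v, 0 ≤ z v := by
      intro v
      by_cases hv : v ∈ F
      · exact (hpos v hv).le
      · exact (hzero v hv).ge
    have hmem : ∀ A, t A ≠ 0 → (A, orb σ A c) ∈ F ∧ A ∈ C := by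
      intro A hA
      have h1 : (A, orb σ A c) ∈ F := by
        by_contra h
        exact hA (hzero _ h)
      obtain ⟨B, hB, hBA⟩ := Finset.mem_image.1 (hFC h1)
      have h2 : B = A := (Prod.mk.inj hBA).1
      exact ⟨h1, h2 ▸ hB⟩
    have hFv : ∀ v ∈ F, v = (v.1, orb σ v.1 c) := by
      intro v hv
      obtain ⟨B, hB, hBv⟩ := Finset.mem_image.1 (hFC hv)
      rw [← hBv]
    have ht1 : ∑ A, t A = 1 := by
      rw [← hsum]
      have h1 : ∑ v ∈ F, z v = ∑ A ∈ F.image Prod.fst, t A := by
        rw [Finset.sum_image]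
        · refine Finset.sum_congr rfl (fun v hv => ?_)
          exact congrArg z (hFv v hv)
        · intro v hv v' hv' hvv
          rw [hFv v hv, hFv v' hv']
          have hvv' : v.1 = v'.1 := hvv
          rw [hvv']
      rw [h1]
      symm
      refine Finset.sum_subset (Finset.subset_univ _) (fun A _ hA => ?_)
      by_contra h
      exact hA (Finset.mem_image.2 ⟨_, (hmem A h).1, rfl⟩)
    have hB : R.Bary (∑ A, t A • R.b A) t :=
      ⟨fun A => hznn _, fun A hA => hCf A (hmem A hA).2,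
        fun A B hA hB => hCc A (hmem A hA).2 B (hmem B hB).2, ht1, rfl⟩
    refine ⟨∑ A, t A • R.b A, (R.bary_mem _ t hB).1, c, ?_⟩
    funext v
    unfold CX.inc
    rw [R.t_eq _ t hB]
    by_cases hv : v.2 = orb σ v.1 c
    · rw [if_pos hv]
      simp only [ht]
      rw [← hv]
    · rw [if_neg hv]
      refine hzero v (fun h => hv ?_)
      have h2 := hFv v h
      exact congrArg Prod.snd h2

end Pool.Agent.MP_455d73_gt.CS
end
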