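import Pool.Agent.Lib.MP_455d73_gt.CS.Fl
import Pool.Agent.Lib.MP_455d73_gt.Mg.G005
import Pool.Agent.Lib.MP_455d73_gt.Mg.G018
import Pool.Agent.Lib.MP_455d73_gt.CS.Chart

section

/-!
Campaign CS: complexes given by lists of masks (definitions only).
-/

set_option autoImplicit false

open Finset
open scoped Classical

namespace Pool.Agent.MP_455d73_gt.CS

noncomputable section

/-- The set of the binary digits `1` of `m`. -/
def bs (m : ℕ) : Finset ℕ := (range m).filter (fun v => m.testBit v = true)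

/-- The complex with the facets given by the masks in `l`, the vertices named by `lam`. -/
def cx {V : Type} (lam : ℕ → V) (l : List ℕ) : Set (Finset V) :=
  {F | F.Nonempty ∧ ∃ m ∈ l, F ⊆ (bs m).image lam}

/-- For every naming of the vertices, the complexes of `l` and `l'` are related by moves, in the presence of any
further simplices `R` which meet the vertices in `U` only in simplices contained in masks of `J`. -/
def Eqv (U : ℕ) (J l l' : List ℕ) : Prop :=
  ∀ (V : Type) (lam : ℕ → V), Set.InjOn lam (bs U) → ∀ R : Set (Finset V), Down R →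
    (∀ F ∈ R, F ⊆ (bs U).image lam → ∃ j ∈ J, F ⊆ (bs j).image lam) → FlipEq (cx lam l ∪ R) (cx lam l' ∪ R)

/-- The list `l'` arises from `l` by the move which replaces the mask `a` by the mask `b`: the exact conditions checked by
the program. `As`, `Bs` are the lists of the powers of two in `a`, `b`. -/
structure St (U : ℕ) (J : List ℕ) (a b : ℕ) (As Bs l l' : List ℕ) : Prop where
  powA : ∀ x ∈ As, ∃ v, x = 2 ^ v
  powB : ∀ x ∈ Bs, ∃ v, x = 2 ^ v
  sumA : K.sumL As = a
  sumB : K.sumL Bs = b
  orA : K.orL As = a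
  orB : K.orL Bs = b
  ab : Nat.land a b = 0
  off : ∀ j ∈ J, Nat.land a j ≠ a ∧ Nat.land b j ≠ b
  bU : Nat.land b U = b
  noB : ∀ f ∈ l, Nat.land b f ≠ b
  Bs_ne : Bs ≠ []
  one : ∀ f ∈ l, Nat.land a f = a → Nat.xor b (Nat.land b f) ∈ Bs
  part : ∀ x ∈ Bs, ∀ y ∈ Bs, ∀ f ∈ l, Nat.land a f = a → Nat.land f x = 0 →
    ∃ g ∈ l, Nat.land a g = a ∧ Nat.land g y = 0 ∧
      Nat.xor (Nat.lor g (Nat.add a b)) (Nat.add a b) = Nat.xor (Nat.lor f (Nat.add a b)) (Nat.add a b)
  mem : ∀ x, x ∈ l' ↔ (x ∈ l ∧ Nat.land a x ≠ a) ∨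
    ∃ f ∈ l, Nat.land a f = a ∧ ∃ v ∈ As,
      x = Nat.add (Nat.sub (Nat.add a b) v) (Nat.xor (Nat.lor f (Nat.add a b)) (Nat.add a b))

end

end Pool.Agent.MP_455d73_gt.CS
end

section

/-!
TASK K2 (medium): the functions on trees. `WF T`: the mask of every node contains all facets below it.

All functions are written with recursors, so their defining equations hold by `rfl`, e.g.
`flat (Tr.nd m s t) acc = flat s (flat t acc)`, `flat (Tr.lf l) acc` = the elements of `l` in front of `acc` (induction on `l`),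
`K.noB b (Tr.nd m s t) = Bool.rec true (Bool.rec false (noB b t) (noB b s)) (Nat.beq (Nat.land b m) b)`, etc.: state them as private
lemmas proved by `rfl`, then use induction on `T` or `l` (with `cases h : Nat.beq x y`, `Nat.eq_of_beq_eq_true`, `Nat.beq_refl`).
`flat_append`: induction on `T`. `mem_flat_node`: the cases of the definition; an empty leaf has no facets.
`WF_node`: `orT s` contains all facets of `s` if `WF s` (for a leaf: `orL`). Containment of masks: `Nat.land f m = f`; use
`Nat.testBit` extensionality (`Nat.eq_of_testBit_eq`, `Nat.testBit_and`, `Nat.testBit_or`); `Nat.land x y` is `x &&& y`, `Nat.lor x y` is `x ||| y`.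
`noB_spec`: if `b ⊆ f ⊆ m` then `Nat.land b m = b`. `mem_star`: for `acc` general: `x ∈ star a T acc ↔ (x ∈ flat T [] ∧ Nat.land a x = a) ∨ x ∈ acc`.
-/

set_option autoImplicit false

namespace Pool.Agent.MP_455d73_gt.CS.K

/-- The mask of every node contains all facets below it. -/
def WF : Tr → Prop
  | Tr.lf _ => True
  | Tr.nd m s t => (∀ f ∈ flat s [], Nat.land f m = f) ∧ (∀ f ∈ flat t [], Nat.land f m = f) ∧ WF s ∧ WF t

private theorem K2_flat_lf_cons (f : Nat) (l acc : List Nat) : flat (Tr.lf (f :: l)) acc = f :: flat (Tr.lf l) acc := rfl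

private theorem K2_flat_nd' (m : Nat) (s t : Tr) (acc : List Nat) : flat (Tr.nd m s t) acc = flat s (flat t acc) := rfl

private theorem K2_noB_nd (b m : Nat) (s t : Tr) :
    noB b (Tr.nd m s t) = Bool.rec true (Bool.rec false (noB b t) (noB b s)) (Nat.beq (Nat.land b m) b) := rfl

private theorem K2_noB_lf (b : Nat) (l : List Nat) : noB b (Tr.lf l) = noSub b l := rfl

private theorem K2_noSub_cons (b f : Nat) (l : List Nat) :
    noSub b (f :: l) = Bool.rec (noSub b l) false (Nat.beq (Nat.land b f) b) := rfl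

private theorem K2_filt_cons (a f : Nat) (l acc : List Nat) :
    filt a (f :: l) acc = Bool.rec (filt a l acc) (filt a l (f :: acc)) (Nat.beq (Nat.land a f) a) := rfl

private theorem K2_star_nd (a m : Nat) (s t : Tr) (acc : List Nat) :
    star a (Tr.nd m s t) acc = Bool.rec acc (star a t (star a s acc)) (Nat.beq (Nat.land a m) a) := rfl

private theorem K2_orL_cons (f : Nat) (l : List Nat) : orL (f :: l) = Nat.lor f (orL l) := rfl

private theorem K2_ne_of_beq {x y : Nat} (h : Nat.beq x y = false) : x ≠ y := by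
  rintro rfl
  rw [Nat.beq_refl] at h
  exact Bool.noConfusion h

private theorem K2_land_assoc (x y z : Nat) : Nat.land (Nat.land x y) z = Nat.land x (Nat.land y z) :=
  Nat.land_assoc x y z

private theorem K2_trans {b f m : Nat} (h1 : Nat.land b f = b) (h2 : Nat.land f m = f) : Nat.land b m = b := by
  calc Nat.land b m = Nat.land (Nat.land b f) m := by rw [h1]
    _ = Nat.land b (Nat.land f m) := K2_land_assoc _ _ _
    _ = b := by rw [h2, h1]

private theorem K2_land_lor_left (f g : Nat) : Nat.land f (Nat.lor f g) = f := by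
  apply Nat.eq_of_testBit_eq
  intro i
  change (f &&& (f ||| g)).testBit i = f.testBit i
  rw [Nat.testBit_and, Nat.testBit_or]
  cases f.testBit i <;> simp

private theorem K2_land_lor_right (f g : Nat) : Nat.land g (Nat.lor f g) = g := by
  apply Nat.eq_of_testBit_eq
  intro i
  change (g &&& (f ||| g)).testBit i = g.testBit i
  rw [Nat.testBit_and, Nat.testBit_or]
  cases g.testBit i <;> simp

private theorem K2_orL (l : List Nat) : ∀ f ∈ l, Nat.land f (orL l) = f := by
  induction l with
  | nil => intro f hf; simp at hf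
  | cons g l ih =>
    intro f hf
    rw [K2_orL_cons]
    rcases List.mem_cons.1 hf with h | h
    · subst h
      exact K2_land_lor_left _ _
    · exact K2_trans (ih f h) (K2_land_lor_right _ _)

theorem flat_lf (l acc : List Nat) : flat (Tr.lf l) acc = l ++ acc := by
  induction l with
  | nil => rfl
  | cons f l ih => rw [K2_flat_lf_cons, ih]; rfl

theorem flat_append (T : Tr) (acc : List Nat) : flat T acc = flat T [] ++ acc := by
  induction T generalizing acc with
  | lf l => rw [flat_lf, flat_lf, List.append_nil]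
  | nd m s t ihs iht =>
    rw [K2_flat_nd', K2_flat_nd', ihs (flat t acc), iht acc, ihs (flat t []), List.append_assoc]

theorem flat_nd (m : Nat) (s t : Tr) : flat (Tr.nd m s t) [] = flat s [] ++ flat t [] := by
  rw [K2_flat_nd', flat_append s]

private theorem K2_node_cases (s t : Tr) :
    (s = Tr.lf [] ∧ node s t = t) ∨ (t = Tr.lf [] ∧ node s t = s) ∨ node s t = Tr.nd (Nat.lor (orT s) (orT t)) s t := by
  cases s with
  | lf l =>
    cases l with
    | nil => exact Or.inl ⟨rfl, rfl⟩
    | cons f l =>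
      cases t with
      | lf l' =>
        cases l' with
        | nil => exact Or.inr (Or.inl ⟨rfl, rfl⟩)
        | cons f' l' => exact Or.inr (Or.inr rfl)
      | nd m' s' t' => exact Or.inr (Or.inr rfl)
  | nd m s1 s2 =>
    cases t with
    | lf l' =>
      cases l' with
      | nil => exact Or.inr (Or.inl ⟨rfl, rfl⟩)
      | cons f' l' => exact Or.inr (Or.inr rfl)
    | nd m' s' t' => exact Or.inr (Or.inr rfl)

theorem flat_node (s t : Tr) : flat (node s t) [] = flat s [] ++ flat t [] := by
  rcases K2_node_cases s t with ⟨h, h'⟩ | ⟨h, h'⟩ | h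
  · rw [h', h, flat_lf]; rfl
  · rw [h', h, flat_lf]; simp
  · rw [h, flat_nd]

theorem orT_spec (T : Tr) (h : WF T) : ∀ f ∈ flat T [], Nat.land f (orT T) = f := by
  cases T with
  | lf l =>
    intro f hf
    rw [flat_lf, List.append_nil] at hf
    exact K2_orL l f hf
  | nd m s t =>
    intro f hf
    rw [flat_nd, List.mem_append] at hf
    have h' : (∀ f ∈ flat s [], Nat.land f m = f) ∧ (∀ f ∈ flat t [], Nat.land f m = f) ∧ WF s ∧ WF t := h
    rcases hf with hf | hf
    · exact h'.1 f hf
    · exact h'.2.1 f hf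

theorem WF_node (s t : Tr) (hs : WF s) (ht : WF t) : WF (node s t) := by
  rcases K2_node_cases s t with ⟨h, h'⟩ | ⟨h, h'⟩ | h
  · rw [h']; exact ht
  · rw [h']; exact hs
  · rw [h]
    refine ⟨?_, ?_, hs, ht⟩
    · intro f hf
      exact K2_trans (orT_spec s hs f hf) (K2_land_lor_left _ _)
    · intro f hf
      exact K2_trans (orT_spec t ht f hf) (K2_land_lor_right _ _)

private theorem K2_noSub (b : Nat) (l : List Nat) (h : noSub b l = true) : ∀ f ∈ l, Nat.land b f ≠ b := by
  induction l with
  | nil => intro f hf; simp at hf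
  | cons g l ih =>
    rw [K2_noSub_cons] at h
    cases hb : Nat.beq (Nat.land b g) b with
    | false =>
      rw [hb] at h
      intro f hf
      rcases List.mem_cons.1 hf with h1 | h1
      · subst h1
        exact K2_ne_of_beq hb
      · exact ih h f h1
    | true =>
      rw [hb] at h
      exact Bool.noConfusion h

theorem noB_spec (b : Nat) (T : Tr) (hT : WF T) (h : noB b T = true) : ∀ f ∈ flat T [], Nat.land b f ≠ b := by
  induction T with
  | lf l =>
    intro f hf
    rw [flat_lf, List.append_nil] at hf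
    exact K2_noSub b l h f hf
  | nd m s t ihs iht =>
    have h' : (∀ f ∈ flat s [], Nat.land f m = f) ∧ (∀ f ∈ flat t [], Nat.land f m = f) ∧ WF s ∧ WF t := hT
    rw [K2_noB_nd] at h
    intro f hf
    rw [flat_nd, List.mem_append] at hf
    cases hb : Nat.beq (Nat.land b m) b with
    | false =>
      intro hbf
      have hfm : Nat.land f m = f := by
        rcases hf with hf | hf
        · exact h'.1 f hf
        · exact h'.2.1 f hf
      exact K2_ne_of_beq hb (K2_trans hbf hfm)
    | true =>
      rw [hb] at h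
      cases hs : noB b s with
      | false =>
        rw [hs] at h
        exact Bool.noConfusion h
      | true =>
        rw [hs] at h
        rcases hf with hf | hf
        · exact ihs h'.2.2.1 hs f hf
        · exact iht h'.2.2.2 h f hf

private theorem K2_filt (a x : Nat) (l acc : List Nat) :
    x ∈ filt a l acc ↔ (x ∈ l ∧ Nat.land a x = a) ∨ x ∈ acc := by
  induction l generalizing acc with
  | nil =>
    have e : filt a [] acc = acc := rfl
    rw [e]; simp
  | cons f l ih =>
    rw [K2_filt_cons]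
    cases hb : Nat.beq (Nat.land a f) a with
    | false =>
      change x ∈ filt a l acc ↔ _
      rw [ih, List.mem_cons]
      have hne := K2_ne_of_beq hb
      constructor
      · rintro (⟨h1, h2⟩ | h)
        · exact Or.inl ⟨Or.inr h1, h2⟩
        · exact Or.inr h
      · rintro (⟨h1 | h1, h2⟩ | h)
        · subst h1
          exact absurd h2 hne
        · exact Or.inl ⟨h1, h2⟩
        · exact Or.inr h
    | true =>
      change x ∈ filt a l (f :: acc) ↔ _
      rw [ih, List.mem_cons, List.mem_cons]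
      have he := Nat.eq_of_beq_eq_true hb
      constructor
      · rintro (⟨h1, h2⟩ | h | h)
        · exact Or.inl ⟨Or.inr h1, h2⟩
        · subst h
          exact Or.inl ⟨Or.inl rfl, he⟩
        · exact Or.inr h
      · rintro (⟨h1 | h1, h2⟩ | h)
        · exact Or.inr (Or.inl h1)
        · exact Or.inl ⟨h1, h2⟩
        · exact Or.inr (Or.inr h)

theorem mem_star (a : Nat) (T : Tr) (hT : WF T) (x : Nat) (acc : List Nat) :
    x ∈ star a T acc ↔ (x ∈ flat T [] ∧ Nat.land a x = a) ∨ x ∈ acc := by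
  induction T generalizing acc with
  | lf l =>
    rw [flat_lf, List.append_nil]
    exact K2_filt a x l acc
  | nd m s t ihs iht =>
    have h' : (∀ f ∈ flat s [], Nat.land f m = f) ∧ (∀ f ∈ flat t [], Nat.land f m = f) ∧ WF s ∧ WF t := hT
    rw [K2_star_nd, flat_nd, List.mem_append]
    cases hb : Nat.beq (Nat.land a m) a with
    | false =>
      change x ∈ acc ↔ _
      have hne := K2_ne_of_beq hb
      constructor
      · exact Or.inr
      · rintro (⟨h1, h2⟩ | h)
        · exfalso
          have hxm : Nat.land x m = x := by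
            rcases h1 with h1 | h1
            · exact h'.1 x h1
            · exact h'.2.1 x h1
          exact hne (K2_trans h2 hxm)
        · exact h
    | true =>
      change x ∈ star a t (star a s acc) ↔ _
      rw [iht h'.2.2.2, ihs h'.2.2.1]
      constructor
      · rintro (⟨h1, h2⟩ | ⟨h1, h2⟩ | h)
        · exact Or.inl ⟨Or.inr h1, h2⟩
        · exact Or.inl ⟨Or.inl h1, h2⟩
        · exact Or.inr h
      · rintro (⟨h1 | h1, h2⟩ | h)
        · exact Or.inr (Or.inl ⟨h1, h2⟩)
        · exact Or.inl ⟨h1, h2⟩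
        · exact Or.inr (Or.inr h)

end Pool.Agent.MP_455d73_gt.CS.K
end

section

/-!
TASK F1 (medium): the map of a move is piecewise affine.

Use `PA_mk'` (file L0) with `J = A` (the subtype `{a // a ∈ A}`, finite): for `a ∈ A` the polyhedron
`C a = {z | ∀ a' ∈ A, z a ≤ z a'}` (a finite intersection of the polyhedra `HPoly.le (coordinate a) (coordinate a')`,
`HPoly.iInter` over the finite type `A`; the coordinate `z ↦ z a` as an affine map is `(LinearMap.proj a).toAffineMap`), and on
`C a`: `A.inf' hA z = z a`, so `mv A B hA z v = z v - (if v ∈ A then z a else 0) + (if v ∈ B then z a * (A.card / B.card) else 0)`,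
an affine (linear) map of `z`. The polyhedra cover: take `a` with `z a` minimal (`Finset.exists_min_image`).
Look at the exact form of `PA_mk'` in L0 (hypotheses: `HPoly`, covering, affine on the pieces).
-/

set_option autoImplicit false

open Finset
open scoped Classical

namespace Pool.Agent.MP_455d73_gt.CS

variable {V : Type}

/-- The linear map which agrees with the move where the coordinate `a` is minimal on `A`. -/
private noncomputable def F1_lin (A B : Finset V) (a : V) : (V → ℝ) →ₗ[ℝ] (V → ℝ) where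
  toFun z := fun v =>
    z v - (if v ∈ A then z a else 0) + (if v ∈ B then z a * (A.card / B.card) else 0)
  map_add' z z' := by
    funext v
    simp only [Pi.add_apply]
    split_ifs <;> ring
  map_smul' c z := by
    funext v
    simp only [Pi.smul_apply, smul_eq_mul, RingHom.id_apply]
    split_ifs <;> ring

private theorem F1_poly (A : Finset V) (a : V) : HPoly {z : V → ℝ | ∀ a' ∈ A, z a ≤ z a'} := by
  refine ⟨A.image (fun a' =>
    ((LinearMap.proj a' : (V → ℝ) →ₗ[ℝ] ℝ) - (LinearMap.proj a : (V → ℝ) →ₗ[ℝ] ℝ)).toAffineMap), ?_⟩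
  ext z
  simp only [Set.mem_setOf_eq, Finset.mem_image]
  constructor
  · rintro h l ⟨a', ha', rfl⟩
    have := h a' ha'
    simp only [LinearMap.coe_toAffineMap, LinearMap.sub_apply, LinearMap.proj_apply]
    linarith
  · intro h a' ha'
    have := h _ ⟨a', ha', rfl⟩
    simp only [LinearMap.coe_toAffineMap, LinearMap.sub_apply, LinearMap.proj_apply] at this
    linarith

private theorem F1_inf (A : Finset V) (hA : A.Nonempty) (a : V) (ha : a ∈ A) (z : V → ℝ)
    (h : ∀ a' ∈ A, z a ≤ z a') : A.inf' hA z = z a :=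
  le_antisymm (Finset.inf'_le _ ha) (Finset.le_inf' _ _ h)

theorem PA_mv (A B : Finset V) (hA : A.Nonempty) (X : Set (V → ℝ)) : PA X (mv A B hA) := by
  refine ⟨?_, A.card, fun i => {z : V → ℝ | ∀ a' ∈ A, z (A.equivFin.symm i : V) ≤ z a'},
    fun i => (F1_lin A B (A.equivFin.symm i : V)).toAffineMap, fun i => F1_poly A _, ?_, ?_⟩
  · refine Continuous.continuousOn ?_
    refine continuous_pi fun v => ?_
    have h1 : Continuous fun z : V → ℝ => A.inf' hA z := by
      have := Continuous.finset_inf'_apply hA (f := fun (a : V) (z : V → ℝ) => z a)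
        (fun a _ => continuous_apply a)
      exact this
    unfold mv
    refine ((continuous_apply v).sub ?_).add ?_
    · by_cases hv : v ∈ A
      · simp only [hv, if_true]
        exact h1
      · simp only [hv, if_false]
        exact continuous_const
    · by_cases hv : v ∈ B
      · simp only [hv, if_true]
        exact h1.mul continuous_const
      · simp only [hv, if_false]
        exact continuous_const
  · intro z _
    obtain ⟨a, ha, hmin⟩ := Finset.exists_min_image A z hA
    refine ⟨A.equivFin ⟨a, ha⟩, ?_⟩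
    change ∀ a' ∈ A, z (A.equivFin.symm (A.equivFin ⟨a, ha⟩) : V) ≤ z a'
    rw [Equiv.symm_apply_apply]
    exact hmin
  · intro i z _ hz
    have h := F1_inf A hA (A.equivFin.symm i : V) (A.equivFin.symm i).2 z hz
    funext v
    unfold mv
    rw [h]
    rfl

end Pool.Agent.MP_455d73_gt.CS
end

section

/-!
TASK F2 (medium): a move gives a PL homeomorphism of the realisations.

The maps are `mv A B` and `mv B A` (both PA by `PA_mv`). Let `z ∈ real K` with support `F ∈ K`, `α = min_A z ≥ 0`.
(a) `min_B z = 0`: all `z ≥ 0`, and `B ⊄ F` since `B ∉ K` (`F ∈ K`, `B ⊆ F` would give `B ∈ K` by `down`).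
(b) `z' = mv A B z`. If `A ⊄ F` then `α = 0`, `z' = z`, and `z ∈ real K'` with support `F` (first alternative of `eq`).
If `A ⊆ F`: `α > 0`. Let `A₀ = {a ∈ A | z a = α}`, nonempty. The support of `z'` is `G = (F \ A₀) ∪ B`: `z' v = z v - α ≥ 0` for
`v ∈ A`, `= 0` iff `v ∈ A₀`; `z' v = z v + α |A| / |B| > 0` for `v ∈ B`; `z' v = z v` otherwise. The sum is
`1 - α |A| + |B| (α |A| / |B|) = 1`. `G ∈ K'`: `B ⊆ G`, `A ⊄ G` (`A₀` is disjoint from `B` and nonempty), and
`(G \ B) ∪ A = F \ B ∪ … = F \ B` (as `A ⊆ F`, `A ∩ B = ∅`) is in `K` by `down` (nonempty: contains `A`).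
(c) `mv B A z' = z`: `min_B z' = min_B z + α |A| / |B| = α |A| / |B|` (by (a)); so `mv B A` subtracts `α |A| / |B|` on `B` and adds
`(α |A| / |B|) (|B| / |A|) = α` on `A`.
(d) Conversely let `z ∈ real K'` with support `G ∈ K'`. `min_A z = 0` since `A ⊄ G` in both alternatives. Put `β = min_B z`,
`z' = mv B A z`. If `B ⊄ G`: `β = 0`, `z' = z`, and `G ∈ K` by `eq` (the second alternative has `B ⊆ G`). If `B ⊆ G`: `G ∉ K`
(else `B ∈ K`), so `F₁ := (G \ B) ∪ A ∈ K`; with `B₀ = {b ∈ B | z b = β}`, nonempty, the support of `z'` is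
`(G \ B₀) ∪ A = (F₁ \ B) ∪ (B \ B₀)`, which is in `K` by `link` (for `F₁`, `B' = B \ B₀ ⊂ B`). The sum is `1` as before.
(e) `mv A B z' = z` as in (c), using `min_A z = 0`.
-/

set_option autoImplicit false

open Finset
open scoped Classical

namespace Pool.Agent.MP_455d73_gt.CS

variable {V : Type}

private lemma F2_nn {F : Finset V} {z : V → ℝ} (hpos : ∀ v ∈ F, 0 < z v) (h0 : ∀ v, v ∉ F → z v = 0)
    (v : V) : 0 ≤ z v := by
  by_cases hv : v ∈ F
  · exact (hpos v hv).le
  · exact (h0 v hv).ge

private lemma F2_zero {A F : Finset V} (hA : A.Nonempty) {z : V → ℝ} (hpos : ∀ v ∈ F, 0 < z v)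
    (h0 : ∀ v, v ∉ F → z v = 0) (h : ¬ A ⊆ F) : A.inf' hA z = 0 := by
  obtain ⟨a, ha, haF⟩ := Finset.not_subset.1 h
  refine le_antisymm ?_ (Finset.le_inf' hA z fun v _ => F2_nn hpos h0 v)
  exact (Finset.inf'_le z ha).trans (h0 a haF).le

private lemma F2_mv_zero (A B : Finset V) (hA : A.Nonempty) {z : V → ℝ} (h : A.inf' hA z = 0) :
    mv A B hA z = z := by
  funext v
  simp [mv, h]

private lemma F2_val_B {A B : Finset V} (hA : A.Nonempty) (hd : Disjoint A B) (z : V → ℝ) {v : V}
    (hv : v ∈ B) : mv A B hA z v = z v + A.inf' hA z * (A.card / B.card) := by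
  have hvA : v ∉ A := fun h => (Finset.disjoint_left.1 hd h) hv
  simp [mv, hv, hvA]

private lemma F2_val_A {A B : Finset V} (hA : A.Nonempty) (hd : Disjoint A B) (z : V → ℝ) {v : V}
    (hv : v ∈ A) : mv A B hA z v = z v - A.inf' hA z := by
  have hvB : v ∉ B := fun h => (Finset.disjoint_left.1 hd hv) h
  simp [mv, hv, hvB]

private lemma F2_val_o {A B : Finset V} (hA : A.Nonempty) (z : V → ℝ) {v : V}
    (hvA : v ∉ A) (hvB : v ∉ B) : mv A B hA z v = z v := by
  simp [mv, hvA, hvB]

private lemma F2_inv {A B : Finset V} (hA : A.Nonempty) (hB : B.Nonempty) (hd : Disjoint A B)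
    {z : V → ℝ} (h : B.inf' hB z = 0) : mv B A hB (mv A B hA z) = z := by
  have hAc : (A.card : ℝ) ≠ 0 := by
    have := hA.card_pos
    positivity
  have hBc : (B.card : ℝ) ≠ 0 := by
    have := hB.card_pos
    positivity
  have h1 : B.inf' hB (mv A B hA z) = A.inf' hA z * (A.card / B.card) := by
    obtain ⟨b, hb, hb'⟩ := Finset.exists_mem_eq_inf' hB z
    refine le_antisymm ?_ (Finset.le_inf' hB _ fun v hv => ?_)
    · refine (Finset.inf'_le _ hb).trans ?_
      rw [F2_val_B hA hd z hb, ← hb', h, zero_add]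
    · rw [F2_val_B hA hd z hv]
      have h2 : 0 ≤ z v := h ▸ Finset.inf'_le z hv
      linarith
  funext v
  by_cases hvA : v ∈ A
  · rw [F2_val_B hB hd.symm _ hvA, F2_val_A hA hd z hvA, h1]
    field_simp
    ring
  · by_cases hvB : v ∈ B
    · rw [F2_val_A hB hd.symm _ hvB, F2_val_B hA hd z hvB, h1]
      ring
    · rw [F2_val_o hB _ hvB hvA, F2_val_o hA z hvA hvB]

private lemma F2_supp {A B F : Finset V} (hA : A.Nonempty) (hB : B.Nonempty) (hd : Disjoint A B)
    {z : V → ℝ} (hpos : ∀ v ∈ F, 0 < z v) (h0 : ∀ v, v ∉ F → z v = 0) (hs : ∑ v ∈ F, z v = 1)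
    (hAF : A ⊆ F) :
    (∀ v ∈ (F \ A.filter fun a => z a = A.inf' hA z) ∪ B, 0 < mv A B hA z v) ∧
      (∀ v, v ∉ (F \ A.filter fun a => z a = A.inf' hA z) ∪ B → mv A B hA z v = 0) ∧
      ∑ v ∈ (F \ A.filter fun a => z a = A.inf' hA z) ∪ B, mv A B hA z v = 1 := by
  have hAc : (0 : ℝ) < A.card := by
    have := hA.card_pos
    positivity
  have hBc : (0 : ℝ) < B.card := by
    have := hB.card_pos
    positivity
  have hα : 0 < A.inf' hA z := by
    obtain ⟨a, ha, ha'⟩ := Finset.exists_mem_eq_inf' hA z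
    rw [ha']
    exact hpos a (hAF ha)
  have hout : ∀ v, v ∉ (F \ A.filter fun a => z a = A.inf' hA z) ∪ B → mv A B hA z v = 0 := by
    intro v hv
    rw [Finset.mem_union, not_or] at hv
    obtain ⟨hv1, hvB⟩ := hv
    by_cases hvA : v ∈ A
    · have h1 : z v = A.inf' hA z := by
        by_contra h2
        exact hv1 (Finset.mem_sdiff.2 ⟨hAF hvA, fun h3 => h2 (Finset.mem_filter.1 h3).2⟩)
      rw [F2_val_A hA hd z hvA, h1, sub_self]
    · rw [F2_val_o hA z hvA hvB]
      refine h0 v fun h2 => hv1 (Finset.mem_sdiff.2 ⟨h2, fun h3 => ?_⟩)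
      exact hvA (Finset.mem_filter.1 h3).1
  refine ⟨fun v hv => ?_, hout, ?_⟩
  · by_cases hvB : v ∈ B
    · rw [F2_val_B hA hd z hvB]
      have h1 := F2_nn hpos h0 v
      have h2 : 0 < A.inf' hA z * (A.card / B.card : ℝ) := by positivity
      linarith
    · rw [Finset.mem_union, or_iff_left hvB, Finset.mem_sdiff] at hv
      by_cases hvA : v ∈ A
      · rw [F2_val_A hA hd z hvA]
        have h1 : A.inf' hA z ≤ z v := Finset.inf'_le z hvA
        have h2 : z v ≠ A.inf' hA z := fun h3 => hv.2 (Finset.mem_filter.2 ⟨hvA, h3⟩)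
        exact sub_pos.2 (lt_of_le_of_ne h1 (Ne.symm h2))
      · rw [F2_val_o hA z hvA hvB]
        exact hpos v hv.1
  · have hsub : (F \ A.filter fun a => z a = A.inf' hA z) ∪ B ⊆ F ∪ B :=
      Finset.union_subset_union Finset.sdiff_subset (Finset.Subset.refl B)
    rw [Finset.sum_subset hsub fun v _ hv => hout v hv]
    have e1 : ∑ v ∈ F ∪ B, z v = 1 := by
      rw [← hs]
      exact (Finset.sum_subset Finset.subset_union_left fun v _ hv => h0 v hv).symm
    have e2 : ∑ v ∈ F ∪ B, (if v ∈ A then A.inf' hA z else 0) = A.card * A.inf' hA z := by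
      rw [← Finset.sum_filter, Finset.sum_const, nsmul_eq_mul]
      congr 2
      congr 1
      ext v
      rw [Finset.mem_filter]
      exact ⟨fun h => h.2, fun h => ⟨Finset.mem_union_left _ (hAF h), h⟩⟩
    have e3 : ∑ v ∈ F ∪ B, (if v ∈ B then A.inf' hA z * (A.card / B.card : ℝ) else 0) =
        B.card * (A.inf' hA z * (A.card / B.card : ℝ)) := by
      rw [← Finset.sum_filter, Finset.sum_const, nsmul_eq_mul]
      congr 2
      congr 1
      ext v
      rw [Finset.mem_filter]
      exact ⟨fun h => h.2, fun h => ⟨Finset.mem_union_right _ h, h⟩⟩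
    have e4 : ∑ v ∈ F ∪ B, mv A B hA z v = ∑ v ∈ F ∪ B, z v
        - ∑ v ∈ F ∪ B, (if v ∈ A then A.inf' hA z else 0)
        + ∑ v ∈ F ∪ B, (if v ∈ B then A.inf' hA z * (A.card / B.card : ℝ) else 0) := by
      rw [← Finset.sum_sub_distrib, ← Finset.sum_add_distrib]
      rfl
    rw [e4, e1, e2, e3]
    field_simp
    ring

theorem Flip.plHomeo {K K' : Set (Finset V)} {A B : Finset V} (h : Flip K A B K') : PLHomeo (real K) (real K') := by
  have hA := h.A_ne
  have hB := h.B_ne
  have hd := h.disj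
  have hBF : ∀ F ∈ K, ¬ B ⊆ F := fun F hF hBF => h.B_not (h.down.2 F hF B hBF hB)
  have hK' : ∀ G, G ∈ K' ↔ ((G ∈ K ∧ ¬ A ⊆ G) ∨ (B ⊆ G ∧ ¬ A ⊆ G ∧ (G \ B) ∪ A ∈ K)) := by
    intro G
    rw [h.eq]
    exact Iff.rfl
  refine ⟨mv A B hA, mv B A hB, PA_mv A B hA _, PA_mv B A hB _, ?_, ?_⟩
  · rintro z ⟨F, hF, hpos, h0, hs⟩
    have hB0 : B.inf' hB z = 0 := F2_zero hB hpos h0 (hBF F hF)
    refine ⟨?_, F2_inv hA hB hd hB0⟩
    by_cases hAF : A ⊆ F
    · obtain ⟨k1, k2, k3⟩ := F2_supp hA hB hd hpos h0 hs hAF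
      refine ⟨_, (hK' _).2 (Or.inr ⟨Finset.subset_union_right, ?_, ?_⟩), k1, k2, k3⟩
      · intro hAG
        obtain ⟨a, ha, ha'⟩ := Finset.exists_mem_eq_inf' hA z
        rcases Finset.mem_union.1 (hAG ha) with h1 | h1
        · exact (Finset.mem_sdiff.1 h1).2 (Finset.mem_filter.2 ⟨ha, ha'.symm⟩)
        · exact Finset.disjoint_left.1 hd ha h1
      · refine h.down.2 F hF _ ?_ (hA.mono Finset.subset_union_right)
        intro v hv
        rcases Finset.mem_union.1 hv with h1 | h1
        · rw [Finset.mem_sdiff, Finset.mem_union] at h1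
          rcases h1.1 with h2 | h2
          · exact (Finset.mem_sdiff.1 h2).1
          · exact absurd h2 h1.2
        · exact hAF h1
    · rw [F2_mv_zero A B hA (F2_zero hA hpos h0 hAF)]
      exact ⟨F, (hK' F).2 (Or.inl ⟨hF, hAF⟩), hpos, h0, hs⟩
  · rintro z ⟨G, hG, hpos, h0, hs⟩
    have hG' := (hK' G).1 hG
    have hAG : ¬ A ⊆ G := by
      rcases hG' with h1 | h1
      · exact h1.2
      · exact h1.2.1
    have hA0 : A.inf' hA z = 0 := F2_zero hA hpos h0 hAG
    refine ⟨?_, F2_inv hB hA hd.symm hA0⟩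
    by_cases hBG : B ⊆ G
    · obtain ⟨k1, k2, k3⟩ := F2_supp hB hA hd.symm hpos h0 hs hBG
      refine ⟨_, ?_, k1, k2, k3⟩
      have hF₁ : (G \ B) ∪ A ∈ K := by
        rcases hG' with h1 | h1
        · exact absurd hBG (hBF G h1.1)
        · exact h1.2.2
      obtain ⟨b, hb, hb'⟩ := Finset.exists_mem_eq_inf' hB z
      have hb₀ : b ∈ B.filter fun b => z b = B.inf' hB z := Finset.mem_filter.2 ⟨hb, hb'.symm⟩
      have hss : B \ (B.filter fun b => z b = B.inf' hB z) ⊂ B := by
        refine Finset.ssubset_iff_subset_ne.2 ⟨Finset.sdiff_subset, fun h1 => ?_⟩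
        rw [← h1, Finset.mem_sdiff] at hb
        exact hb.2 hb₀
      have h2 := h.link _ hF₁ Finset.subset_union_right _ hss
      have e : (((G \ B) ∪ A) \ B) ∪ (B \ (B.filter fun b => z b = B.inf' hB z)) =
          (G \ (B.filter fun b => z b = B.inf' hB z)) ∪ A := by
        ext v
        simp only [Finset.mem_union, Finset.mem_sdiff, Finset.mem_filter]
        constructor
        · rintro (⟨⟨h3, h4⟩ | h3, h5⟩ | ⟨h3, h4⟩)
          · exact Or.inl ⟨h3, fun h6 => h4 h6.1⟩
          · exact Or.inr h3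
          · exact Or.inl ⟨hBG h3, h4⟩
        · rintro (⟨h3, h4⟩ | h3)
          · by_cases h5 : v ∈ B
            · exact Or.inr ⟨h5, h4⟩
            · exact Or.inl ⟨Or.inl ⟨h3, h5⟩, h5⟩
          · exact Or.inl ⟨Or.inr h3, fun h6 => Finset.disjoint_left.1 hd h3 h6⟩
      rw [e] at h2
      exact h2
    · rw [F2_mv_zero B A hB (F2_zero hB hpos h0 hBG)]
      refine ⟨G, ?_, hpos, h0, hs⟩
      rcases hG' with h1 | h1
      · exact h1.1
      · exact absurd h1.1 hBG

end Pool.Agent.MP_455d73_gt.CS
end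

section

/-!
TASK F3 (easy): `PLHomeo` is an equivalence relation, and `FlipEq` implies `PLHomeo`.

`refl`: the identity is affine (`PA.affine` in L0 for `AffineMap.id`). `symm`: exchange the maps. `trans`: compose
(`PA.comp` in L0). `FlipEq.plHomeo`: induction on `Relation.EqvGen`.
-/

set_option autoImplicit false

open Finset
open scoped Classical

namespace Pool.Agent.MP_455d73_gt.CS

variable {V : Type}

theorem F3_inter {ι : Type} {C D : Set (ι → ℝ)} (h : HPoly C) (h' : HPoly D) : HPoly (C ∩ D) := by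
  obtain ⟨L, rfl⟩ := h
  obtain ⟨L', rfl⟩ := h'
  refine ⟨L ∪ L', ?_⟩
  ext x
  simp only [Set.mem_inter_iff, Set.mem_ofPred_eq, Finset.mem_union]
  constructor
  · rintro ⟨h1, h2⟩ l (hl | hl)
    · exact h1 l hl
    · exact h2 l hl
  · intro h
    exact ⟨fun l hl => h l (Or.inl hl), fun l hl => h l (Or.inr hl)⟩

theorem F3_preimage {ι κ : Type} {D : Set (κ → ℝ)} (h : HPoly D) (A : (ι → ℝ) →ᵃ[ℝ] (κ → ℝ)) :
    HPoly (A ⁻¹' D) := by
  obtain ⟨L, rfl⟩ := h
  refine ⟨L.image (fun l => l.comp A), ?_⟩
  ext x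
  simp only [Set.mem_preimage, Set.mem_ofPred_eq, Finset.mem_image]
  constructor
  · rintro h1 _ ⟨l, hl, rfl⟩
    exact h1 l hl
  · intro h l hl
    exact h _ ⟨l, hl, rfl⟩

theorem F3_comp {ι κ μ : Type} {X : Set (ι → ℝ)} {Y : Set (κ → ℝ)} {f : (ι → ℝ) → (κ → ℝ)}
    {g : (κ → ℝ) → (μ → ℝ)} (hf : PA X f) (hg : PA Y g) (h : ∀ x ∈ X, f x ∈ Y) :
    PA X (fun x => g (f x)) := by
  obtain ⟨h0, m, C, A, h1, h2, h3⟩ := hf
  obtain ⟨h0', m', C', A', h1', h2', h3'⟩ := hg
  refine ⟨h0'.comp h0 h, m * m', fun j => C (finProdFinEquiv.symm j).1 ∩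
    (A (finProdFinEquiv.symm j).1) ⁻¹' C' (finProdFinEquiv.symm j).2,
    fun j => (A' (finProdFinEquiv.symm j).2).comp (A (finProdFinEquiv.symm j).1), ?_, ?_, ?_⟩
  · intro j
    exact F3_inter (h1 _) (F3_preimage (h1' _) _)
  · intro x hx
    obtain ⟨j, hj⟩ := h2 x hx
    obtain ⟨l, hl⟩ := h2' (f x) (h x hx)
    refine ⟨finProdFinEquiv (j, l), ?_⟩
    beta_reduce
    rw [Equiv.symm_apply_apply]
    refine ⟨hj, ?_⟩
    rw [Set.mem_preimage, ← h3 j x hx hj]
    exact hl
  · rintro j x hx ⟨hj, hl⟩
    have e := h3 _ x hx hj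
    rw [Set.mem_preimage, ← e] at hl
    beta_reduce
    rw [h3' _ (f x) (h x hx) hl, AffineMap.comp_apply, e]

theorem F3_id {ι : Type} (X : Set (ι → ℝ)) : PA X (fun x : ι → ℝ => x) := by
  refine ⟨continuousOn_id, 1, fun _ => Set.univ, fun _ => AffineMap.id ℝ (ι → ℝ), ?_, ?_, ?_⟩
  · intro _
    exact ⟨∅, by simp⟩
  · intro x _
    exact ⟨0, Set.mem_univ x⟩
  · intro _ x _ _
    rfl

theorem PLHomeo.refl {ι : Type} (X : Set (ι → ℝ)) : PLHomeo X X := by
  exact ⟨fun x => x, fun x => x, F3_id X, F3_id X, fun x hx => ⟨hx, rfl⟩, fun x hx => ⟨hx, rfl⟩⟩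

theorem PLHomeo.symm {ι κ : Type} {X : Set (ι → ℝ)} {Y : Set (κ → ℝ)} (h : PLHomeo X Y) : PLHomeo Y X := by
  obtain ⟨f, g, h1, h2, h3, h4⟩ := h
  exact ⟨g, f, h2, h1, h4, h3⟩

theorem PLHomeo.trans {ι κ μ : Type} {X : Set (ι → ℝ)} {Y : Set (κ → ℝ)} {Z : Set (μ → ℝ)}
    (h : PLHomeo X Y) (h' : PLHomeo Y Z) : PLHomeo X Z := by
  obtain ⟨f, g, h1, h2, h3, h4⟩ := h
  obtain ⟨f', g', h1', h2', h3', h4'⟩ := h'
  refine ⟨fun x => f' (f x), fun z => g (g' z), F3_comp h1 h1' fun x hx => (h3 x hx).1,
    F3_comp h2' h2 fun z hz => (h4' z hz).1, fun x hx => ?_, fun z hz => ?_⟩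
  · refine ⟨(h3' (f x) (h3 x hx).1).1, ?_⟩
    simp only
    rw [(h3' (f x) (h3 x hx).1).2, (h3 x hx).2]
  · refine ⟨(h4 (g' z) (h4' z hz).1).1, ?_⟩
    simp only
    rw [(h4 (g' z) (h4' z hz).1).2, (h4' z hz).2]

theorem FlipEq.refl (K : Set (Finset V)) : FlipEq K K := Relation.EqvGen.refl K

theorem FlipEq.symm {K K' : Set (Finset V)} (h : FlipEq K K') : FlipEq K' K := Relation.EqvGen.symm _ _ h

theorem FlipEq.trans {K K' K'' : Set (Finset V)} (h : FlipEq K K') (h' : FlipEq K' K'') : FlipEq K K'' :=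
  Relation.EqvGen.trans _ _ _ h h'

theorem FlipEq.plHomeo {K K' : Set (Finset V)} (h : FlipEq K K') : PLHomeo (real K) (real K') := by
  unfold FlipEq at h
  induction h with
  | rel K K' h =>
    obtain ⟨A, B, h⟩ := h
    exact h.plHomeo
  | refl K => exact PLHomeo.refl _
  | symm K K' _ ih => exact ih.symm
  | trans K K' K'' _ _ ih ih' => exact ih.trans ih'

end Pool.Agent.MP_455d73_gt.CS
end

section

/-!
Campaign CS: the chamber system of a word, the codes of the faces, the namings of the vertices of the regions (definitions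
only).
-/

set_option autoImplicit false

open Finset
open scoped Classical

namespace Pool.Agent.MP_455d73_gt.CS

open K

noncomputable section

/-- The kind of the letter number `k`. -/
def kd (w : List (Bool × Bool)) (k : ℕ) : Bool := (w.getD k (true, false)).1

/-- The orientation flag of the letter number `k`. -/
def rv (w : List (Bool × Bool)) (k : ℕ) : Bool := (w.getD k (true, false)).2

/-- The chambers: the chamber `x.2 < 200` of the bead number `x.1`. -/
abbrev Ch (w : List (Bool × Bool)) : Type := {x : ℕ × ℕ // x.1 < w.length ∧ x.2 < 200}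

/-- The exponents of the relations of the walls. -/
def mt (i j : ℕ) : ℕ :=
  if min i j = 0 ∧ max i j = 4 then 3 else if min i j = 1 ∧ max i j = 4 then 5 else
  if min i j = 3 ∧ max i j = 4 then 3 else if min i j = 2 ∧ max i j = 3 then 4 else
  if min i j = 0 ∧ max i j = 5 then 0 else if min i j = 2 ∧ max i j = 6 then 0 else
  if min i j = 5 ∧ max i j = 6 then 0 else 2

/-- The chamber adjacent to `x` along the wall `i`. -/
def sgf (w : List (Bool × Bool)) (i : ℕ) (x : ℕ × ℕ) : ℕ × ℕ :=
  if i = 5 ∧ isOut x.2 = true then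
    (if x.1 + 1 < w.length then (x.1 + 1, gl (rv w (x.1 + 1)) x.2) else (x.1, fo x.2))
  else if i = 5 ∧ isIn x.2 = true then
    (if x.1 = 0 then (0, fi x.2) else (x.1 - 1, gi (rv w x.1) x.2))
  else (x.1, rr (kd w x.1) i x.2)

/-- The code of the face with the set of walls `a` (a bit mask) of the chamber `x`. -/
def code (w : List (Bool × Bool)) (a : ℕ) (x : ℕ × ℕ) : ℕ × ℕ :=
  if a.testBit 5 = true ∧ isOut x.2 = true then
    (if x.1 + 1 < w.length then (x.1, 10000 + lab true (a - 32) x.2)
     else (x.1, 20000 + mn (lab true (a - 32) x.2) (lab true (a - 32) (fo x.2))))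
  else if a.testBit 5 = true ∧ isIn x.2 = true then
    (if x.1 = 0 then (0, 30000 + mn (lab true (a - 32) x.2) (lab true (a - 32) (fi x.2)))
     else (x.1 - 1, 10000 + lab true (a - 32) (gi (rv w x.1) x.2)))
  else (x.1, lab (kd w x.1) a x.2)

/-- The set of walls with the bit mask `a`. -/
def fs (a : ℕ) : Set (Fin 7) := {i | a.testBit i = true}

/-- The complex of the quotient: the chains of faces of the chambers, the vertices named by `code`. -/
def KW (w : List (Bool × Bool)) : Set (Finset (ℕ × ℕ)) :=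
  {F | F.Nonempty ∧ ∃ x : Ch w, ∃ f ∈ FL0 ++ FL5, F ⊆ f.toFinset.image (fun a => code w a x.1)}

/-- The simplices of the complexes `G k`, `k < n`. -/
def uni {V : Type} (n : ℕ) (G : ℕ → Set (Finset V)) : Set (Finset V) := {F | ∃ k < n, F ∈ G k}

/-- The nonempty subsets of `t`. -/
def dn {V : Type} (t : Finset V) : Set (Finset V) := {F | F.Nonempty ∧ F ⊆ t}

/-- The cone with apex `z` over the boundary of `t`. -/
def star {V : Type} (t : Finset V) (z : V) : Set (Finset V) := {F | F.Nonempty ∧ F ⊆ insert z t ∧ ¬ t ⊆ F}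

/-- The names of the vertices of the bead number `k`. -/
def lamB (k s : ℕ) : ℕ × ℕ := (k, s)

/-- The names of the vertices of the shell between the beads `k` and `k + 1`. -/
def lamS (k s : ℕ) : ℕ × ℕ :=
  if s < 52 then (k, s) else if s < 104 then (k + 1, s) else if s = 104 then (k, 104) else
  if s = 105 then (k + 1, 104) else (k, 10000 + (s - 106))

/-- The names of the vertices of the end `in`. -/
def lamI (s : ℕ) : ℕ × ℕ := if s < 52 then (0, 70000 + s) else if s < 106 then (0, s) else (0, 30000 + (s - 106))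

/-- The names of the vertices of the end `out` (`n` is the number of the beads). -/
def lamO (n s : ℕ) : ℕ × ℕ :=
  if s < 52 then (n - 1, s) else if s < 104 then (n - 1, 80000 + s) else if s = 104 then (n - 1, 104) else
  if s = 105 then (n - 1, 80105) else (n - 1, 20000 + (s - 106))

/-- The names of the vertices of the absorption region number `k`. -/
def lamA (w : List (Bool × Bool)) (k s : ℕ) : ℕ × ℕ :=
  if s < 5 then (if k = 0 then (0, 40000 + sw (rv w 0) s) else (k - 1, nth xsL (sw (rv w k) s)))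
  else if s < 10 then (k, nth xsL (s - 5))
  else if s < 10 + (exL (kd w k)).length then (k, nth (exL (kd w k)) (s - 10))
  else (k, 50000 + s)

/-- The names of the vertices of the start region. -/
def lamX (w : List (Bool × Bool)) (s : ℕ) : ℕ × ℕ :=
  if s < 5 then (0, 40000 + sw (rv w 0) s) else if s < 10 then (0, nth (ysL (kd w 0)) (s - 5)) else (0, 60000 + s)

/-- The name in the last complex of the vertex `v` of the connected sum. -/
def rho (w : List (Bool × Bool)) (v : ℕ × ℕ) : ℕ × ℕ :=
  if v.2 < 5 then (if v.1 = 0 then (0, 40000 + v.2) else (v.1 - 1, nth xsL v.2))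
  else lamA w v.1 (nth (locL (kd w v.1)) (v.2 - 5))

/-- All facets of the list are contained in the mask `M`. -/
def allIn (M : ℕ) (l : List ℕ) : Bool := List.rec true (fun f _ ih => Bool.rec false ih (Nat.beq (Nat.land f M) f)) l

/-- Every facet of the list is contained in `M` or in `N`. -/
def allIn2 (M N : ℕ) (l : List ℕ) : Bool :=
  List.rec true (fun f _ ih => Bool.rec (Bool.rec false ih (Nat.beq (Nat.land f N) f)) ih (Nat.beq (Nat.land f M) f)) l

/-- The facet `f` with the vertex numbers changed by the table `tr`. -/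
def relab (tr : List (ℕ × ℕ)) (f : ℕ) : ℕ :=
  List.rec 0 (fun p _ ih => Bool.rec ih (Nat.lor (Nat.pow 2 p.2) ih) (Nat.testBit f p.1)) tr

/-- The vertices of the facet `f` in the table `tr`. -/
def cov (tr : List (ℕ × ℕ)) (f : ℕ) : ℕ :=
  List.rec 0 (fun p _ ih => Bool.rec ih (Nat.lor (Nat.pow 2 p.1) ih) (Nat.testBit f p.1)) tr

/-- The table `tr` maps every facet of `l` to a facet of `l'`. -/
def trC (tr : List (ℕ × ℕ)) (l l' : List ℕ) : Bool :=
  List.rec true (fun f _ ih => Bool.rec false (Bool.rec false ih (memN (relab tr f) l')) (Nat.beq (cov tr f) f)) l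

end

end Pool.Agent.MP_455d73_gt.CS
end
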