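import Pool.Agent.Lib.MP_455d73_gt.CS.Fl
import Pool.Agent.Lib.MP_455d73_gt.Mg.G018
import Pool.Agent.Lib.MP_455d73_gt.Mg.G016

section

/-!
TASK F4 (easy-medium): renaming the vertices of a complex gives a PL homeomorphic realisation.

Maps (both linear, so `PA.affine`): `f z = fun v' => if h : ∃ v ∈ verts K, ρ v = v' then z h.choose else 0` (a linear map in `z`;
build the `AffineMap` from the linear map `LinearMap.pi` of coordinates or zero), and
`g z' = fun v => if v ∈ verts K then z' (ρ v) else 0`. For `z ∈ real K` with support `F`: `F ⊆ verts K`, `f z (ρ v) = z v` for `v ∈ verts K`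
(injectivity), so the support of `f z` is `F.image ρ`, and the sum is the same (`Finset.sum_image`). For `z' ∈ real K'` with support
`F.image ρ`, `F ∈ K`: `g z'` has the support `F`: if `g z' v ≠ 0` then `v ∈ verts K`, `ρ v ∈ F.image ρ`, `ρ v = ρ u`, `u ∈ F ⊆ verts K`, `v = u`.
-/

set_option autoImplicit false

open Finset
open scoped Classical

namespace Pool.Agent.MP_455d73_gt.CS

/-- The linear map onto the renamed coordinates. -/
private noncomputable def F4_f {V V' : Type} (K : Set (Finset V)) (ρ : V → V') : (V → ℝ) →ₗ[ℝ] (V' → ℝ) :=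
  LinearMap.pi fun v' => if h : ∃ v ∈ verts K, ρ v = v' then LinearMap.proj h.choose else 0

/-- The linear map back. -/
private noncomputable def F4_g {V V' : Type} (K : Set (Finset V)) (ρ : V → V') : (V' → ℝ) →ₗ[ℝ] (V → ℝ) :=
  LinearMap.pi fun v => if v ∈ verts K then LinearMap.proj (ρ v) else 0

private theorem F4_f_cont {V V' : Type} (K : Set (Finset V)) (ρ : V → V') : Continuous (F4_f K ρ) := by
  refine continuous_pi fun v' => ?_
  by_cases h : ∃ v ∈ verts K, ρ v = v'
  · have e : (fun z : V → ℝ => F4_f K ρ z v') = fun z => z h.choose := by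
      funext z
      simp only [F4_f, LinearMap.pi_apply, dif_pos h, LinearMap.proj_apply]
    rw [e]
    exact continuous_apply _
  · have e : (fun z : V → ℝ => F4_f K ρ z v') = fun _ => 0 := by
      funext z
      simp only [F4_f, LinearMap.pi_apply, dif_neg h, LinearMap.zero_apply]
    rw [e]
    exact continuous_const

private theorem F4_g_cont {V V' : Type} (K : Set (Finset V)) (ρ : V → V') : Continuous (F4_g K ρ) := by
  refine continuous_pi fun v => ?_
  by_cases h : v ∈ verts K
  · have e : (fun z : V' → ℝ => F4_g K ρ z v) = fun z => z (ρ v) := by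
      funext z
      simp only [F4_g, LinearMap.pi_apply, if_pos h, LinearMap.proj_apply]
    rw [e]
    exact continuous_apply _
  · have e : (fun z : V' → ℝ => F4_g K ρ z v) = fun _ => 0 := by
      funext z
      simp only [F4_g, LinearMap.pi_apply, if_neg h, LinearMap.zero_apply]
    rw [e]
    exact continuous_const

private theorem F4_PA {ι κ : Type} (X : Set (ι → ℝ)) (A : (ι → ℝ) →ₗ[ℝ] (κ → ℝ)) (hA : Continuous A) :
    PA X A :=
  ⟨hA.continuousOn, 1, fun _ => Set.univ, fun _ => A.toAffineMap,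
    fun _ => ⟨∅, by ext x; simp⟩, fun x _ => ⟨0, Set.mem_univ x⟩, fun _ _ _ _ => rfl⟩

private theorem F4_f_apply {V V' : Type} {K : Set (Finset V)} {ρ : V → V'} (hρ : Set.InjOn ρ (verts K))
    (z : V → ℝ) {v : V} (hv : v ∈ verts K) : F4_f K ρ z (ρ v) = z v := by
  have h : ∃ u ∈ verts K, ρ u = ρ v := ⟨v, hv, rfl⟩
  have h1 := h.choose_spec
  have h2 : h.choose = v := hρ h1.1 hv h1.2
  simp only [F4_f, LinearMap.pi_apply, dif_pos h, LinearMap.proj_apply]
  rw [h2]

private theorem F4_f_zero {V V' : Type} {K : Set (Finset V)} {ρ : V → V'}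
    (z : V → ℝ) {v' : V'} (hv : ¬ ∃ v ∈ verts K, ρ v = v') : F4_f K ρ z v' = 0 := by
  simp only [F4_f, LinearMap.pi_apply, dif_neg hv, LinearMap.zero_apply]

private theorem F4_g_apply {V V' : Type} {K : Set (Finset V)} {ρ : V → V'}
    (z : V' → ℝ) {v : V} (hv : v ∈ verts K) : F4_g K ρ z v = z (ρ v) := by
  simp only [F4_g, LinearMap.pi_apply, if_pos hv, LinearMap.proj_apply]

private theorem F4_g_zero {V V' : Type} {K : Set (Finset V)} {ρ : V → V'}
    (z : V' → ℝ) {v : V} (hv : v ∉ verts K) : F4_g K ρ z v = 0 := by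
  simp only [F4_g, LinearMap.pi_apply, if_neg hv, LinearMap.zero_apply]

theorem rename {V V' : Type} (K : Set (Finset V)) (ρ : V → V') (hρ : Set.InjOn ρ (verts K)) :
    PLHomeo (real K) (real ((fun F => F.image ρ) '' K)) := by
  have hsub : ∀ F ∈ K, ∀ v ∈ F, v ∈ verts K := fun F hF v hv => ⟨F, hF, hv⟩
  refine ⟨F4_f K ρ, F4_g K ρ, F4_PA _ _ (F4_f_cont K ρ), F4_PA _ _ (F4_g_cont K ρ), ?_, ?_⟩
  · rintro z ⟨F, hF, h1, h2, h3⟩
    have hin : ∀ u ∈ F, ∀ v ∈ F, ρ u = ρ v → u = v := fun u hu v hv huv =>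
      hρ (hsub F hF u hu) (hsub F hF v hv) huv
    refine ⟨⟨F.image ρ, ⟨F, hF, rfl⟩, ?_, ?_, ?_⟩, ?_⟩
    · intro v' hv'
      obtain ⟨v, hv, rfl⟩ := Finset.mem_image.mp hv'
      rw [F4_f_apply hρ z (hsub F hF v hv)]
      exact h1 v hv
    · intro v' hv'
      by_cases h : ∃ v ∈ verts K, ρ v = v'
      · obtain ⟨u, hu, rfl⟩ := h
        rw [F4_f_apply hρ z hu]
        exact h2 u fun huF => hv' (Finset.mem_image_of_mem ρ huF)
      · exact F4_f_zero z h
    · rw [Finset.sum_image (fun u hu v hv huv => hin u hu v hv huv), ← h3]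
      exact Finset.sum_congr rfl fun v hv => F4_f_apply hρ z (hsub F hF v hv)
    · funext v
      by_cases hv : v ∈ verts K
      · rw [F4_g_apply _ hv, F4_f_apply hρ z hv]
      · rw [F4_g_zero _ hv]
        exact (h2 v fun hvF => hv (hsub F hF v hvF)).symm
  · rintro z ⟨F', ⟨F, hF, rfl⟩, h1, h2, h3⟩
    have hin : ∀ u ∈ F, ∀ v ∈ F, ρ u = ρ v → u = v := fun u hu v hv huv =>
      hρ (hsub F hF u hu) (hsub F hF v hv) huv
    refine ⟨⟨F, hF, ?_, ?_, ?_⟩, ?_⟩
    · intro v hv
      rw [F4_g_apply z (hsub F hF v hv)]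
      exact h1 _ (Finset.mem_image_of_mem ρ hv)
    · intro v hv
      by_cases hvK : v ∈ verts K
      · rw [F4_g_apply z hvK]
        refine h2 _ fun hm => hv ?_
        obtain ⟨u, hu, huv⟩ := Finset.mem_image.mp hm
        have := hρ (hsub F hF u hu) hvK huv
        exact this ▸ hu
      · exact F4_g_zero z hvK
    · have h4 : ∑ v' ∈ F.image ρ, z v' = 1 := h3
      rw [Finset.sum_image (fun u hu v hv huv => hin u hu v hv huv)] at h4
      rw [← h4]
      exact Finset.sum_congr rfl fun v hv => F4_g_apply z (hsub F hF v hv)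
    · funext v'
      by_cases h : ∃ v ∈ verts K, ρ v = v'
      · obtain ⟨u, hu, rfl⟩ := h
        rw [F4_f_apply hρ _ hu, F4_g_apply z hu]
      · rw [F4_f_zero _ h]
        refine (h2 v' fun hm => h ?_).symm
        obtain ⟨u, hu, huv⟩ := Finset.mem_image.mp hm
        exact ⟨u, hsub F hF u hu, huv⟩

end Pool.Agent.MP_455d73_gt.CS
end

section

/-!
Campaign CS: the normals of the polytope in hyperbolic 4-space (definitions only).
-/

set_option autoImplicit false

open Finset
open scoped goldenRatio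

namespace Pool.Agent.MP_455d73_gt.CS

noncomputable section

/-- The outer normals of the walls. -/
def ge : Fin 7 → Mk 4 := ![
  (![-1, 0, 0, 0], 0),
  (![0, -1, 0, 0], 0),
  (![0, 0, 1 / √2, φ / √2], √φ / √2),
  (![0, 0, -1, 0], 0),
  (![1 / 2, φ / 2, 1 / 2, 0], 1 / (2 * √φ)),
  (![φ, 0, 0, φ], φ * √φ),
  (![0, 0, 0, -1], 0)]

/-- The functionals of the walls in the coordinates `√φ • k` (up to positive factors). -/
def Lf : Fin 7 → (Fin 4 → ℝ) → ℝ := ![
  fun q => q 0,
  fun q => q 1,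
  fun q => φ - q 2 - φ * q 3,
  fun q => q 2,
  fun q => 1 - q 0 - φ * q 1 - q 2,
  fun q => φ - q 0 - q 3,
  fun q => q 3]

/-- The positive factors. -/
def Lc : Fin 7 → ℝ := ![1 / √φ, 1 / √φ, 1 / (√2 * √φ), 1 / √φ, 1 / (2 * √φ), √φ, 1 / √φ]

/-- The vertices of the polytope in the coordinates `√φ • k`. -/
def Vx : Fin 11 → (Fin 4 → ℝ) := ![
  ![0, 0, 0, 1], ![0, 0, 1, 2 - φ], ![0, 0, 0, 0], ![0, 0, 1, 0], ![0, φ - 1, 0, 1], ![0, φ - 1, 0, 0],
  ![φ - 1, 0, 0, 1], ![4 - 2 * φ, 0, 2 * φ - 3, 3 * φ - 4], ![1, 0, 0, 0], ![1, 0, 0, φ - 1], ![φ - 1, 2 * φ - 3, 0, 1]]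

/-- The walls through the vertices. -/
def Vm : Fin 11 → ℕ := ![15, 23, 75, 83, 29, 89, 46, 54, 90, 58, 60]

end

end Pool.Agent.MP_455d73_gt.CS
end

section

/-!
Campaign CS: the complexes of the stages of the reduction (definitions only). `w` is the word, `n = w.length`.
-/

set_option autoImplicit false

open Finset
open scoped Classical

namespace Pool.Agent.MP_455d73_gt.CS

open K

noncomputable section

/-- The beads, the collars, the folded collars of the two ends. -/
def Q0 (w : List (Bool × Bool)) : Set (Finset (ℕ × ℕ)) :=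
  uni w.length (fun k => cx (lamB k) (beadL (kd w k))) ∪
    (uni (w.length - 1) (fun k => cx (lamS k) (dcL (rv w (k + 1)))) ∪ (cx lamI fiL ∪ cx (lamO w.length) foL))

/-- The beads are reduced. -/
def Q1 (w : List (Bool × Bool)) : Set (Finset (ℕ × ℕ)) :=
  uni w.length (fun k => cx (lamB k) (finB (kd w k))) ∪
    (uni (w.length - 1) (fun k => cx (lamS k) (dcL (rv w (k + 1)))) ∪ (cx lamI fiL ∪ cx (lamO w.length) foL))

/-- The middle parts of the reduced beads. -/
def Yc (w : List (Bool × Bool)) : Set (Finset (ℕ × ℕ)) := uni w.length (fun k => cx (lamB k) (yL (kd w k)))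

/-- The tubes. -/
def Tc (w : List (Bool × Bool)) : Set (Finset (ℕ × ℕ)) :=
  uni (w.length - 1) (fun k => cx (lamS k) (tbL (kd w (k + 1)) (rv w (k + 1))))

/-- The same as `Q1`, the cones and collars collected to shells and ends. -/
def Q2 (w : List (Bool × Bool)) : Set (Finset (ℕ × ℕ)) :=
  uni (w.length - 1) (fun k => cx (lamS k) (shL (kd w (k + 1)) (rv w (k + 1)))) ∪
    (Yc w ∪ (cx lamI (eiL (kd w 0)) ∪ cx (lamO w.length) eoL))

/-- The shells are replaced by tubes. -/
def Q3 (w : List (Bool × Bool)) : Set (Finset (ℕ × ℕ)) :=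
  Tc w ∪ (Yc w ∪ (cx lamI (eiL (kd w 0)) ∪ cx (lamO w.length) eoL))

/-- The ends are replaced by stars. -/
def Q4 (w : List (Bool × Bool)) : Set (Finset (ℕ × ℕ)) :=
  cx lamI (siL (kd w 0)) ∪ (cx (lamO w.length) soL ∪ (Tc w ∪ Yc w))

/-- The last simplex. -/
def tO (w : List (Bool × Bool)) : Finset (ℕ × ℕ) := (bs mO).image (lamB (w.length - 1))

/-- The first simplex. -/
def tX : Finset (ℕ × ℕ) := (range 5).image (fun j => (0, 40000 + j))

/-- The end `in` is replaced by a simplex and a tube, the end `out` by a simplex. -/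
def Q5 (w : List (Bool × Bool)) : Set (Finset (ℕ × ℕ)) :=
  cx (lamX w) (xtL (kd w 0)) ∪ (dn (tO w) ∪ (Tc w ∪ Yc w))

/-- The same as `Q5`, collected to absorption regions. -/
def Q6 (w : List (Bool × Bool)) : Set (Finset (ℕ × ℕ)) :=
  uni w.length (fun k => cx (lamA w k) (appR (tuA (kd w k)) (yA (kd w k)))) ∪ (dn tX ∪ dn (tO w))

/-- The regions are replaced by the templates. -/
def Q7 (w : List (Bool × Bool)) : Set (Finset (ℕ × ℕ)) :=
  uni w.length (fun k => cx (lamA w k) (tA (kd w k))) ∪ (dn tX ∪ dn (tO w))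

/-- The apex of the star of the end `in`. -/
def zI (κ : Bool) : ℕ := if κ then 207 else 61

/-- The apex of the star of the start region. -/
def zX (κ : Bool) : ℕ := if κ then 4 else 0

end

end Pool.Agent.MP_455d73_gt.CS
end
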