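import Pool.Agent.Lib.MP_455d73_gt.Mg.G020
import Pool.Agent.Lib.MP_455d73_gt.Mg.G023

section

/-!
TASK T3 (easy, kernel computations): distances in a bead, the orders of the chambers, the flags. Closed statements by `decide +kernel`
as in T1a. (`FL0`, `FL5` are lists of 168 and 96 flags, each the list of five masks of a complete flag of faces.)
`flag_iff5`: `f ∈ FL0` has no mask with the bit `5`; for `f ∈ FL5` the masks without the bit `5` are faces `a` with `a + 32` a face, and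
the masks with the bit `5` are `a = b + 32` with `b` a face without the bit `5`.
-/

set_option autoImplicit false

namespace Pool.Agent.MP_455d73_gt.CS

open K

private theorem T3_dall : ∀ κ ∈ [true, false], ∀ c < 200, c ≠ 0 →
    ∃ i < 7, (i = 5 → isIn c = false ∧ isOut c = false) ∧ dall κ (rr κ i c) < dall κ c := by
  decide +kernel

private theorem T3_b (κ : Bool) : κ ∈ [true, false] := by
  cases κ <;> simp

private theorem T3_ord1 : ∀ κ ∈ [true, false], ∀ c ∈ ord κ, c < 200 := by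
  decide +kernel

private theorem T3_ord2 : ∀ κ ∈ [true, false], ∀ c < 200, c ∈ ord κ := by
  decide +kernel

private theorem T3_in1 : ∀ c ∈ inL, c < 200 ∧ isIn c = true := by
  decide +kernel

private theorem T3_in2 : ∀ c < 200, isIn c = true → c ∈ inL := by
  decide +kernel

private theorem T3_out1 : ∀ c ∈ outL, c < 200 ∧ isOut c = true := by
  decide +kernel

private theorem T3_out2 : ∀ c < 200, isOut c = true → c ∈ outL := by
  decide +kernel

private theorem T3_chain : ∀ f ∈ FL0 ++ FL5, (∀ a ∈ f, a ∈ faceL) ∧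
    ∀ a ∈ f, ∀ b ∈ f, Nat.land a b = a ∨ Nat.land a b = b := by
  decide +kernel

private theorem T3_flag0 : ∀ f ∈ FL0, ∀ a ∈ f, a.testBit 5 = false := by
  decide +kernel

private theorem T3_flag5 : ∀ f ∈ FL5, ∀ a ∈ f, a.testBit 5 = false → a + 32 ∈ faceL := by
  decide +kernel

private theorem T3_face5 : ∀ a ∈ faceL, a.testBit 5 = true →
    32 ≤ a ∧ a - 32 ∈ faceL ∧ (a - 32).testBit 5 = false ∧ (a - 32) + 32 ∈ faceL ∧
      ∀ i < 7, (a - 32).testBit i = true → 1 ≤ i ∧ i ≤ 4 := by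
  decide +kernel

private theorem T3_lt : ∀ a ∈ faceL, a < 128 := by
  decide +kernel

/-- Every chamber but `0` has a neighbour in the bead closer to the chamber `0`. -/
theorem dall_spec (κ : Bool) (c : ℕ) (hc : c < 200) (h0 : c ≠ 0) :
    ∃ i < 7, (i = 5 → isIn c = false ∧ isOut c = false) ∧ dall κ (rr κ i c) < dall κ c := by
  exact T3_dall κ (T3_b κ) c hc h0

theorem mem_ord (κ : Bool) (c : ℕ) : c ∈ ord κ ↔ c < 200 := by
  exact ⟨T3_ord1 κ (T3_b κ) c, T3_ord2 κ (T3_b κ) c⟩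

theorem mem_inL (c : ℕ) : c ∈ inL ↔ c < 200 ∧ isIn c = true := by
  exact ⟨T3_in1 c, fun h => T3_in2 c h.1 h.2⟩

theorem mem_outL (c : ℕ) : c ∈ outL ↔ c < 200 ∧ isOut c = true := by
  exact ⟨T3_out1 c, fun h => T3_out2 c h.1 h.2⟩

/-- The flags consist of faces and are chains. -/
theorem flag_chain (f : List ℕ) (hf : f ∈ FL0 ++ FL5) :
    (∀ a ∈ f, a ∈ faceL) ∧ ∀ a ∈ f, ∀ b ∈ f, Nat.land a b = a ∨ Nat.land a b = b := by
  exact T3_chain f hf

theorem flag0 (f : List ℕ) (hf : f ∈ FL0) (a : ℕ) (ha : a ∈ f) : a.testBit 5 = false := by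
  exact T3_flag0 f hf a ha

theorem flag5 (f : List ℕ) (hf : f ∈ FL5) (a : ℕ) (ha : a ∈ f) (h : a.testBit 5 = false) : a + 32 ∈ faceL := by
  exact T3_flag5 f hf a ha h

/-- A face in the wall `5`. -/
theorem face5 (a : ℕ) (ha : a ∈ faceL) (h : a.testBit 5 = true) :
    32 ≤ a ∧ a - 32 ∈ faceL ∧ (a - 32).testBit 5 = false ∧ (a - 32) + 32 ∈ faceL ∧
      ∀ i < 7, (a - 32).testBit i = true → 1 ≤ i ∧ i ≤ 4 := by
  exact T3_face5 a ha h

/-- The masks of the faces have seven bits. -/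
theorem face_lt (a : ℕ) (ha : a ∈ faceL) : a < 128 := by
  exact T3_lt a ha

end Pool.Agent.MP_455d73_gt.CS
end

section

/-!
TASK G1 (medium): the Gram matrix of the normals.

Expand `lor` with `Fin.sum_univ_four` and `simp [ge, lor]` for the pairs (`fin_cases i`); facts: `φ ^ 2 = φ + 1` (`Real.goldenRatio_sq`), `√φ ^ 2 = φ`,
`√2 ^ 2 = 2`, `1 < φ` (`Real.one_lt_goldenRatio`), `1 / φ = φ - 1`. Values: `lor e_i e_i = 1`: e.g. `e_2`: `(1 + φ²) / 2 - φ / 2 = 1`; `e_4`: `1/4 + φ²/4 + 1/4 - 1/(4φ) = 1`;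
`e_5`: `2 φ² - φ³ = 1`. Products: `e_0 e_4 = -1/2 = -cos (π/3)`, `e_3 e_4 = -1/2`, `e_1 e_4 = -φ/2 = -cos (π/5)` (`Real.cos_pi_div_five : cos (π/5) = (1 + √5)/4`,
`φ = (1 + √5)/2`), `e_2 e_3 = -1/√2 = -cos (π/4)` (`Real.cos_pi_div_four`), `e_2 e_6 = -φ/√2 ≤ -1` (as `φ² > 2`), `e_0 e_5 = e_5 e_6 = -φ ≤ -1`, all others `0 = -cos (π/2)`
(e.g. `e_4 e_5 = φ/2 - φ √φ / (2 √φ) = 0`, `e_2 e_5 = φ²/√2 - φ √φ √φ/√2 = 0`, `e_2 e_4 = 1/(2√2) - √φ/(2 √φ √2) = 0`). The values of `mt` by `simp [mt]` or `decide`.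
It may be convenient to prove first one lemma for each pair, with the number `lor (ge i) (ge j)`.
-/

set_option autoImplicit false

open Finset
open scoped goldenRatio

namespace Pool.Agent.MP_455d73_gt.CS

/-- The normals with parameters. -/
private noncomputable def G1_gp (p s t : ℝ) : Fin 7 → Mk 4 := ![
  (![-1, 0, 0, 0], 0),
  (![0, -1, 0, 0], 0),
  (![0, 0, t / 2, p * t / 2], s * t / 2),
  (![0, 0, -1, 0], 0),
  (![1 / 2, p / 2, 1 / 2, 0], s * (p - 1) / 2),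
  (![p, 0, 0, p], p * s),
  (![0, 0, 0, -1], 0)]

/-- The table. -/
private noncomputable def G1_tb (p t : ℝ) : Fin 7 → Fin 7 → ℝ := ![
  ![1, 0, 0, 0, -1 / 2, -p, 0],
  ![0, 1, 0, 0, -p / 2, 0, 0],
  ![0, 0, 1, -t / 2, 0, 0, -p * t / 2],
  ![0, 0, -t / 2, 1, -1 / 2, 0, 0],
  ![-1 / 2, -p / 2, 0, -1 / 2, 1, 0, 0],
  ![-p, 0, 0, 0, 0, 1, -p],
  ![0, 0, -p * t / 2, 0, 0, -p, 1]]

private theorem G1_tab {p s t : ℝ} (hp : p ^ 2 = p + 1) (hs : s ^ 2 = p) (ht : t ^ 2 = 2) (i j : Fin 7) :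
    lor (G1_gp p s t i) (G1_gp p s t j) = G1_tb p t i j := by
  fin_cases i <;> fin_cases j <;> simp only [lor, G1_gp, G1_tb, Fin.sum_univ_four, Fin.isValue, Fin.zero_eta, Fin.mk_one,
    Fin.reduceFinMk, Matrix.cons_val, Matrix.cons_val_zero, Matrix.cons_val_one]
  all_goals first
    | ring1
    | linear_combination ht * (1 + p ^ 2 - s ^ 2) / 4 + (hp - hs) / 2
    | linear_combination -hs * (p - 1) ^ 2 / 4 + hp * (2 - p) / 4
    | linear_combination -p ^ 2 * hs + (1 - p) * hp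
    | linear_combination -t * (p - 1) / 4 * hs - t / 4 * hp
    | linear_combination -t * p / 2 * hs
    | linear_combination -p * (p - 1) / 2 * hs - p / 2 * hp

private theorem G1_eq : ge = G1_gp φ (√φ) (√2) := by
  have hφ : 0 < φ := Real.goldenRatio_pos
  have hs : √φ ^ 2 = φ := Real.sq_sqrt hφ.le
  have ht : √(2 : ℝ) ^ 2 = 2 := Real.sq_sqrt (by norm_num)
  have hp : φ ^ 2 = φ + 1 := Real.goldenRatio_sq
  have hs0 : 0 < √φ := Real.sqrt_pos.2 hφ
  have ht0 : 0 < √(2 : ℝ) := Real.sqrt_pos.2 (by norm_num)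
  have e1 : 1 / √(2 : ℝ) = √2 / 2 := by
    rw [div_eq_div_iff ht0.ne' (by norm_num)]
    linear_combination -ht
  have e2 : φ / √(2 : ℝ) = φ * √2 / 2 := by
    rw [div_eq_div_iff ht0.ne' (by norm_num)]
    linear_combination -φ * ht
  have e3 : √φ / √(2 : ℝ) = √φ * √2 / 2 := by
    rw [div_eq_div_iff ht0.ne' (by norm_num)]
    linear_combination -√φ * ht
  have e4 : 1 / (2 * √φ) = √φ * (φ - 1) / 2 := by
    rw [div_eq_div_iff (by positivity) (by norm_num)]
    linear_combination -2 * (φ - 1) * hs - 2 * hp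
  unfold ge G1_gp
  rw [e1, e2, e3, e4]

private theorem G1_lor (i j : Fin 7) : lor (ge i) (ge j) = G1_tb φ (√2) i j := by
  rw [G1_eq]
  exact G1_tab Real.goldenRatio_sq (Real.sq_sqrt Real.goldenRatio_pos.le) (Real.sq_sqrt (by norm_num)) i j

theorem ge_unit (i : Fin 7) : lor (ge i) (ge i) = 1 := by
  rw [G1_lor]
  fin_cases i <;> rfl

theorem ge_gram (i j : Fin 7) (hij : i ≠ j) :
    (2 ≤ mt i j ∧ lor (ge i) (ge j) = - Real.cos (Real.pi / mt i j)) ∨ (mt i j = 0 ∧ lor (ge i) (ge j) ≤ -1) := by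
  rw [G1_lor]
  have c2 : (0 : ℝ) = - Real.cos (Real.pi / (2 : ℕ)) := by
    push_cast
    rw [Real.cos_pi_div_two, neg_zero]
  have c3 : (-1 / 2 : ℝ) = - Real.cos (Real.pi / (3 : ℕ)) := by
    push_cast
    rw [Real.cos_pi_div_three]
    norm_num
  have c4 : (-√2 / 2 : ℝ) = - Real.cos (Real.pi / (4 : ℕ)) := by
    push_cast
    rw [Real.cos_pi_div_four]
    ring
  have c5 : (-φ / 2 : ℝ) = - Real.cos (Real.pi / (5 : ℕ)) := by
    push_cast
    rw [Real.cos_pi_div_five, Real.goldenRatio]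
    ring
  have hφ1 : 1 < φ := Real.one_lt_goldenRatio
  have d1 : -φ ≤ -1 := by linarith
  have d2 : -φ * √2 / 2 ≤ -1 := by
    have ht : √(2 : ℝ) ^ 2 = 2 := Real.sq_sqrt (by norm_num)
    have ht0 : 0 < √(2 : ℝ) := Real.sqrt_pos.2 (by norm_num)
    have hp : φ ^ 2 = φ + 1 := Real.goldenRatio_sq
    have h1 : 2 ≤ φ * √2 := by
      by_contra hlt
      push Not at hlt
      have h2 : (φ * √2) ^ 2 < 2 ^ 2 := by
        apply pow_lt_pow_left₀ hlt (by positivity) (by norm_num)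
      rw [mul_pow, ht, hp] at h2
      linarith
    linarith
  fin_cases i <;> fin_cases j
  all_goals first
    | exact absurd rfl hij
    | exact Or.inl ⟨by decide, c2⟩
    | exact Or.inl ⟨by decide, c3⟩
    | exact Or.inl ⟨by decide, c4⟩
    | exact Or.inl ⟨by decide, c5⟩
    | exact Or.inr ⟨by decide, d1⟩
    | exact Or.inr ⟨by decide, d2⟩

end Pool.Agent.MP_455d73_gt.CS
end
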