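import Pool.Agent.Lib.MP_455d73_gt.Mg.G020
import Pool.Agent.Lib.MP_455d73_gt.Mg.G016
import Pool.Agent.Lib.MP_455d73_gt.Mg.G017
import Pool.Agent.Lib.MP_455d73_gt.Mg.G023
import Pool.Agent.Lib.MP_455d73_gt.Mg.G021

section

/-!
TASK T1b (easy-medium, kernel computations): the relations of the involutions `rr κ i`.

Closed statements by `decide +kernel` as in T1a (for `rr_rel`: `∀ κ, ∀ i < 7, ∀ j < 7, i ≠ j → i ≠ 5 → j ≠ 5 → ∀ c < 200, …`; the
iterate `f^[m] c` unfolds to `f^[m-1] (f c)`; if it is slow, split by pairs or by `κ`, or write the statement for each value of `m`).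
-/

set_option autoImplicit false

namespace Pool.Agent.MP_455d73_gt.CS

open K

private theorem T1b_1 : ∀ κ ∈ [true, false], ∀ i ∈ List.range 7, ∀ j ∈ List.range 7, (i = j ∨ i = 5 ∨ j = 5 ∨
    ∀ c ∈ List.range 200, (fun d => rr κ i (rr κ j d))^[mt i j] c = c) := by
  decide +kernel

theorem rr_rel (κ : Bool) (i j c : ℕ) (hi : i < 7) (hj : j < 7) (hij : i ≠ j) (hi5 : i ≠ 5) (hj5 : j ≠ 5) (hc : c < 200) :
    (fun d => rr κ i (rr κ j d))^[mt i j] c = c := by
  have hk : κ ∈ [true, false] := by cases κ <;> simp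
  rcases T1b_1 κ hk i (List.mem_range.2 hi) j (List.mem_range.2 hj) with h | h | h | h
  · exact absurd h hij
  · exact absurd h hi5
  · exact absurd h hj5
  · exact h c (List.mem_range.2 hc)

private theorem T1b_2 : ∀ κ ∈ [true, false], ∀ j ∈ [1, 2, 3, 4], ∀ c ∈ List.range 200,
    (isIn c = true ∨ isOut c = true ∨ rr κ 5 (rr κ j c) = rr κ j (rr κ 5 c)) := by
  decide +kernel

theorem rr5_comm (κ : Bool) (j c : ℕ) (h1 : 1 ≤ j) (h4 : j ≤ 4) (hc : c < 200) (hp : isIn c = false ∧ isOut c = false) :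
    rr κ 5 (rr κ j c) = rr κ j (rr κ 5 c) := by
  have hk : κ ∈ [true, false] := by cases κ <;> simp
  have hj : j ∈ [1, 2, 3, 4] := by
    have h : j = 1 ∨ j = 2 ∨ j = 3 ∨ j = 4 := by omega
    rcases h with rfl | rfl | rfl | rfl <;> simp
  rcases T1b_2 κ hk j hj c (List.mem_range.2 hc) with h | h | h
  · rw [hp.1] at h; exact absurd h (by decide)
  · rw [hp.2] at h; exact absurd h (by decide)
  · exact h

end Pool.Agent.MP_455d73_gt.CS
end

section

/-!
TASK Es (medium): the cone over the boundary of a simplex may be replaced by the simplex; cones given by lists; renamed lists.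

`star_flip`: `Flip (dn t ∪ R) t {z} (star t z ∪ R)` (definition in `Fl.lean`) and symmetry. `down`: clear. `B_not`: `{z} ∉ dn t` as `z ∉ t`, `{z} ∉ R` as `z ∉ verts R`. `link`: `B' ⊂ {z}` is empty, `(F \ {z}) ∪ ∅ = F` as
`z ∉ F`. `eq`: every simplex of `dn t ∪ R` containing `t` is `t` (if `F ∈ R`, `t ⊆ F`, then `t ∈ R`, excluded). `⊆`: `F ∈ R`: `¬ t ⊆ F`, first alternative; `F ∈ star t z`, `z ∉ F`: `F ∈ dn t`, first alternative; `F ∈ star t z`, `z ∈ F`: second
alternative with `(F \ {z}) ∪ t = t`. `⊇`: `F ∈ dn t ∪ R`, `¬ t ⊆ F`: clear; second alternative: `{z} ⊆ F`, `¬ t ⊆ F`, `(F \ {z}) ∪ t ∈ dn t ∪ R` contains `t`, so it equals `t`, so `F ⊆ insert z t`: `F ∈ star t z`.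
`cx_star`: if the list `l` has the elements `t + z - v` (as masks: `bs f = insert z (bs t) \ {v}`), `v ∈ bs t`. `F ∈ cx lam l` iff `F` is nonempty and `F ⊆ (insert z (bs t) \ {v}).image lam` for some `v ∈ bs t`; as `lam` is injective
on `insert z (bs t)` this says `F ⊆ insert (lam z) T`, `lam v ∉ F`, for some `v`, i.e. `¬ T ⊆ F`, `T = (bs t).image lam`.
`trC_spec`: if `trC tr l l' = true`, every `f ∈ l` has `cov tr f = f` and `relab tr f ∈ l'`; `bs (cov tr f) = {p.1 | p ∈ tr, f.testBit p.1}`, `bs (relab tr f) = {p.2 | p ∈ tr, f.testBit p.1}` (induction on `tr`, `bs_lor`, `bs_two_pow`; a digit of a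
`Bool.rec`: `cases h : Nat.testBit f p.1`), so `(bs f).image lam = (bs (relab tr f)).image lam'`.
`allIn_spec`, `allIn2_spec`: induction on the list. `cx_append`: `F ∈ cx lam (appR l l')` iff in one of the two (`appR l l'` has the elements of `l` and `l'`, induction).
-/

set_option autoImplicit false

open Finset
open scoped Classical

namespace Pool.Agent.MP_455d73_gt.CS

variable {V : Type}

theorem star_flip (R : Set (Finset V)) (hR : Down R) (t : Finset V) (ht : t.Nonempty) (z : V) (hz : z ∉ verts R)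
    (hzt : z ∉ t) (htR : t ∉ R) : FlipEq (star t z ∪ R) (dn t ∪ R) := by
  have hzF : ∀ F ∈ R, z ∉ F := fun F hF h => hz ⟨F, hF, h⟩
  refine Relation.EqvGen.symm _ _ (Relation.EqvGen.rel _ _ ⟨t, {z}, ?_⟩)
  have hdown : Down (dn t ∪ R) := by
    constructor
    · rintro F (hF | hF)
      · exact hF.1
      · exact hR.1 F hF
    · rintro F (hF | hF) G hG hGn
      · exact Or.inl ⟨hGn, hG.trans hF.2⟩
      · exact Or.inr (hR.2 F hF G hG hGn)
  have hzK : ∀ F ∈ dn t ∪ R, z ∉ F := by
    rintro F (hF | hF) h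
    · exact hzt (hF.2 h)
    · exact hzF F hF h
  refine ⟨hdown, ht, Finset.singleton_nonempty z, Finset.disjoint_singleton_right.2 hzt, ?_, ?_, ?_⟩
  · intro h
    exact hzK _ h (Finset.mem_singleton_self z)
  · intro F hF _ B' hB'
    rw [Finset.ssubset_singleton_iff] at hB'
    subst hB'
    rw [Finset.union_empty, Finset.sdiff_singleton_eq_erase, Finset.erase_eq_of_notMem (hzK F hF)]
    exact hF
  · ext F
    simp only [Set.mem_union, Set.mem_setOf_eq, Finset.singleton_subset_iff]
    constructor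
    · rintro (hF | hF)
      · obtain ⟨hne, hsub, hnt⟩ := hF
        by_cases hzF' : z ∈ F
        · right
          refine ⟨hzF', hnt, Or.inl ⟨ht.mono Finset.subset_union_right, ?_⟩⟩
          refine Finset.union_subset ?_ (Finset.Subset.refl t)
          intro x hx
          rw [Finset.mem_sdiff, Finset.mem_singleton] at hx
          rcases Finset.mem_insert.1 (hsub hx.1) with h | h
          · exact absurd h hx.2
          · exact h
        · left
          refine ⟨Or.inl ⟨hne, ?_⟩, hnt⟩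
          intro x hx
          rcases Finset.mem_insert.1 (hsub hx) with h | h
          · exact absurd (h ▸ hx) hzF'
          · exact h
      · left
        refine ⟨Or.inr hF, fun h => htR (hR.2 F hF t h ht)⟩
    · rintro (⟨hF | hF, hnt⟩ | ⟨hzF', hnt, hF⟩)
      · left
        exact ⟨hF.1, hF.2.trans (Finset.subset_insert z t), hnt⟩
      · exact Or.inr hF
      · left
        refine ⟨⟨z, hzF'⟩, ?_, hnt⟩
        have hsub : F \ {z} ∪ t ⊆ t := by
          rcases hF with hF | hF
          · exact hF.2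
          · exact absurd (hR.2 _ hF t Finset.subset_union_right ht) htR
        intro x hx
        by_cases hxz : x = z
        · exact Finset.mem_insert.2 (Or.inl hxz)
        · refine Finset.mem_insert.2 (Or.inr (hsub (Finset.mem_union_left t ?_)))
          rw [Finset.mem_sdiff, Finset.mem_singleton]
          exact ⟨hx, hxz⟩

theorem cx_star (lam : ℕ → V) (l : List ℕ) (t z : ℕ) (hz : z ∉ bs t) (hlam : Set.InjOn lam (insert z (bs t)))
    (h : ∀ f, f ∈ l ↔ ∃ v ∈ bs t, bs f = (insert z (bs t)).erase v) : cx lam l = star ((bs t).image lam) (lam z) := by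
  ext F
  constructor
  · rintro ⟨hne, m, hm, hF⟩
    obtain ⟨v, hv, hmv⟩ := (h m).1 hm
    refine ⟨hne, ?_, ?_⟩
    · intro y hy
      obtain ⟨u, hu, rfl⟩ := Finset.mem_image.1 (hF hy)
      rw [hmv, Finset.mem_erase, Finset.mem_insert] at hu
      rcases hu.2 with h1 | h1
      · subst h1
        exact Finset.mem_insert_self _ _
      · exact Finset.mem_insert_of_mem (Finset.mem_image_of_mem lam h1)
    · intro hT
      have h1 : lam v ∈ F := hT (Finset.mem_image_of_mem lam hv)
      obtain ⟨u, hu, huv⟩ := Finset.mem_image.1 (hF h1)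
      rw [hmv, Finset.mem_erase] at hu
      have h2 : u ∈ (insert z (bs t) : Finset ℕ) := hu.2
      have h3 : v ∈ (insert z (bs t) : Finset ℕ) := Finset.mem_insert_of_mem hv
      exact hu.1 (hlam (by simpa using h2) (by simpa using h3) huv)
  · rintro ⟨hne, hsub, hnt⟩
    obtain ⟨x, hxT, hxF⟩ := Finset.not_subset.1 hnt
    obtain ⟨v, hv, rfl⟩ := Finset.mem_image.1 hxT
    have hex : bs (Nat.sub (Nat.lor t (2 ^ z)) (2 ^ v)) = (insert z (bs t)).erase v := by
      rw [bs_sub _ _ (by rw [bs_lor]; exact Finset.mem_union_left _ hv), bs_lor, bs_two_pow, Finset.union_comm,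
        ← Finset.insert_eq]
    refine ⟨hne, _, (h _).2 ⟨v, hv, hex⟩, ?_⟩
    rw [hex]
    intro y hy
    have hyv : y ≠ lam v := fun h1 => hxF (h1 ▸ hy)
    rcases Finset.mem_insert.1 (hsub hy) with h1 | h1
    · subst h1
      refine Finset.mem_image_of_mem lam ?_
      rw [Finset.mem_erase]
      exact ⟨fun h2 => hyv (by rw [h2]), Finset.mem_insert_self _ _⟩
    · obtain ⟨u, hu, rfl⟩ := Finset.mem_image.1 h1
      refine Finset.mem_image_of_mem lam ?_
      rw [Finset.mem_erase]
      exact ⟨fun h2 => hyv (by rw [h2]), Finset.mem_insert_of_mem hu⟩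

theorem cx_single (lam : ℕ → V) (t : ℕ) : cx lam [t] = dn ((bs t).image lam) := by
  ext F
  constructor
  · rintro ⟨hne, m, hm, hF⟩
    rw [List.mem_singleton] at hm
    subst hm
    exact ⟨hne, hF⟩
  · rintro ⟨hne, hF⟩
    exact ⟨hne, t, List.mem_singleton_self t, hF⟩

private theorem Es_memN (x : ℕ) (l : List ℕ) (h : K.memN x l = true) : x ∈ l := by
  induction l with
  | nil => exact absurd (show false = true from h) (by decide)
  | cons y l ih =>
    have e : K.memN x (y :: l) = Bool.rec (K.memN x l) true (Nat.beq x y) := rfl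
    rw [e] at h
    cases hb : Nat.beq x y with
    | false =>
      rw [hb] at h
      exact List.mem_cons_of_mem y (ih h)
    | true =>
      rw [Nat.eq_of_beq_eq_true hb]
      exact List.mem_cons_self

private theorem Es_relab (f : ℕ) (tr : List (ℕ × ℕ)) (v : ℕ) :
    v ∈ bs (relab tr f) ↔ ∃ p ∈ tr, f.testBit p.1 = true ∧ p.2 = v := by
  induction tr with
  | nil =>
    have e : relab [] f = 0 := rfl
    rw [e, bs_zero]
    simp
  | cons p tr ih =>
    have e : relab (p :: tr) f = Bool.rec (relab tr f) (Nat.lor (Nat.pow 2 p.2) (relab tr f)) (Nat.testBit f p.1) := rfl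
    rw [e]
    cases hb : Nat.testBit f p.1 with
    | false =>
      show v ∈ bs (relab tr f) ↔ _
      rw [ih]
      constructor
      · rintro ⟨q, hq, h⟩
        exact ⟨q, List.mem_cons_of_mem p hq, h⟩
      · rintro ⟨q, hq, h1, h2⟩
        rcases List.mem_cons.1 hq with h3 | h3
        · subst h3
          rw [hb] at h1
          exact absurd h1 (by decide)
        · exact ⟨q, h3, h1, h2⟩
    | true =>
      show v ∈ bs (Nat.lor (2 ^ p.2) (relab tr f)) ↔ _
      rw [bs_lor, bs_two_pow, Finset.mem_union, Finset.mem_singleton, ih]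
      constructor
      · rintro (h | ⟨q, hq, h⟩)
        · exact ⟨p, List.mem_cons_self, hb, h.symm⟩
        · exact ⟨q, List.mem_cons_of_mem p hq, h⟩
      · rintro ⟨q, hq, h1, h2⟩
        rcases List.mem_cons.1 hq with h3 | h3
        · subst h3
          exact Or.inl h2.symm
        · exact Or.inr ⟨q, h3, h1, h2⟩

private theorem Es_cov (f : ℕ) (tr : List (ℕ × ℕ)) (v : ℕ) :
    v ∈ bs (cov tr f) ↔ ∃ p ∈ tr, f.testBit p.1 = true ∧ p.1 = v := by
  induction tr with
  | nil =>
    have e : cov [] f = 0 := rfl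
    rw [e, bs_zero]
    simp
  | cons p tr ih =>
    have e : cov (p :: tr) f = Bool.rec (cov tr f) (Nat.lor (Nat.pow 2 p.1) (cov tr f)) (Nat.testBit f p.1) := rfl
    rw [e]
    cases hb : Nat.testBit f p.1 with
    | false =>
      show v ∈ bs (cov tr f) ↔ _
      rw [ih]
      constructor
      · rintro ⟨q, hq, h⟩
        exact ⟨q, List.mem_cons_of_mem p hq, h⟩
      · rintro ⟨q, hq, h1, h2⟩
        rcases List.mem_cons.1 hq with h3 | h3
        · subst h3
          rw [hb] at h1
          exact absurd h1 (by decide)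
        · exact ⟨q, h3, h1, h2⟩
    | true =>
      show v ∈ bs (Nat.lor (2 ^ p.1) (cov tr f)) ↔ _
      rw [bs_lor, bs_two_pow, Finset.mem_union, Finset.mem_singleton, ih]
      constructor
      · rintro (h | ⟨q, hq, h⟩)
        · exact ⟨p, List.mem_cons_self, hb, h.symm⟩
        · exact ⟨q, List.mem_cons_of_mem p hq, h⟩
      · rintro ⟨q, hq, h1, h2⟩
        rcases List.mem_cons.1 hq with h3 | h3
        · subst h3
          exact Or.inl h2.symm
        · exact Or.inr ⟨q, h3, h1, h2⟩

private theorem Es_trC (tr : List (ℕ × ℕ)) (l l' : List ℕ) (h : trC tr l l' = true) :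
    ∀ f ∈ l, cov tr f = f ∧ relab tr f ∈ l' := by
  induction l with
  | nil => intro f hf; exact absurd hf List.not_mem_nil
  | cons g l ih =>
    have e : trC tr (g :: l) l' = Bool.rec false (Bool.rec false (trC tr l l') (K.memN (relab tr g) l'))
      (Nat.beq (cov tr g) g) := rfl
    rw [e] at h
    cases hb : Nat.beq (cov tr g) g with
    | false => rw [hb] at h; exact absurd (show false = true from h) (by decide)
    | true =>
      rw [hb] at h
      cases hc : K.memN (relab tr g) l' with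
      | false => rw [hc] at h; exact absurd (show false = true from h) (by decide)
      | true =>
        rw [hc] at h
        intro f hf
        rcases List.mem_cons.1 hf with h1 | h1
        · subst h1
          exact ⟨Nat.eq_of_beq_eq_true hb, Es_memN _ _ hc⟩
        · exact ih h f h1

theorem trC_spec (tr : List (ℕ × ℕ)) (l l' : List ℕ) (h : trC tr l l' = true) (lam lam' : ℕ → V)
    (hlam : ∀ p ∈ tr, lam p.1 = lam' p.2) : cx lam l ⊆ cx lam' l' := by
  rintro F ⟨hne, m, hm, hF⟩
  obtain ⟨h1, h2⟩ := Es_trC tr l l' h m hm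
  refine ⟨hne, relab tr m, h2, ?_⟩
  intro y hy
  obtain ⟨u, hu, rfl⟩ := Finset.mem_image.1 (hF hy)
  rw [← h1, Es_cov] at hu
  obtain ⟨p, hp, hpt, hpu⟩ := hu
  refine Finset.mem_image.2 ⟨p.2, (Es_relab m tr p.2).2 ⟨p, hp, hpt, rfl⟩, ?_⟩
  rw [← hpu, hlam p hp]

theorem allIn_spec (M : ℕ) (l : List ℕ) (h : allIn M l = true) : ∀ f ∈ l, Nat.land f M = f := by
  induction l with
  | nil => intro f hf; exact absurd hf List.not_mem_nil
  | cons g l ih =>
    have e : allIn M (g :: l) = Bool.rec false (allIn M l) (Nat.beq (Nat.land g M) g) := rfl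
    rw [e] at h
    cases hb : Nat.beq (Nat.land g M) g with
    | false => rw [hb] at h; exact absurd (show false = true from h) (by decide)
    | true =>
      rw [hb] at h
      intro f hf
      rcases List.mem_cons.1 hf with h1 | h1
      · subst h1
        exact Nat.eq_of_beq_eq_true hb
      · exact ih h f h1

theorem allIn2_spec (M N : ℕ) (l : List ℕ) (h : allIn2 M N l = true) :
    ∀ f ∈ l, Nat.land f M = f ∨ Nat.land f N = f := by
  induction l with
  | nil => intro f hf; exact absurd hf List.not_mem_nil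
  | cons g l ih =>
    have e : allIn2 M N (g :: l) = Bool.rec (Bool.rec false (allIn2 M N l) (Nat.beq (Nat.land g N) g))
      (allIn2 M N l) (Nat.beq (Nat.land g M) g) := rfl
    rw [e] at h
    cases hb : Nat.beq (Nat.land g M) g with
    | false =>
      rw [hb] at h
      cases hc : Nat.beq (Nat.land g N) g with
      | false => rw [hc] at h; exact absurd (show false = true from h) (by decide)
      | true =>
        rw [hc] at h
        intro f hf
        rcases List.mem_cons.1 hf with h1 | h1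
        · subst h1
          exact Or.inr (Nat.eq_of_beq_eq_true hc)
        · exact ih h f h1
    | true =>
      rw [hb] at h
      intro f hf
      rcases List.mem_cons.1 hf with h1 | h1
      · subst h1
        exact Or.inl (Nat.eq_of_beq_eq_true hb)
      · exact ih h f h1

theorem mem_appR (l l' : List ℕ) (x : ℕ) : x ∈ K.appR l l' ↔ x ∈ l ∨ x ∈ l' := by
  induction l with
  | nil =>
    have e : K.appR [] l' = l' := rfl
    rw [e]
    simp
  | cons g l ih =>
    have e : K.appR (g :: l) l' = g :: K.appR l l' := rfl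
    rw [e, List.mem_cons, List.mem_cons, ih, or_assoc]

theorem cx_append (lam : ℕ → V) (l l' : List ℕ) : cx lam (K.appR l l') = cx lam l ∪ cx lam l' := by
  ext F
  constructor
  · rintro ⟨hne, m, hm, hF⟩
    rcases (mem_appR l l' m).1 hm with h | h
    · exact Or.inl ⟨hne, m, h, hF⟩
    · exact Or.inr ⟨hne, m, h, hF⟩
  · rintro (⟨hne, m, hm, hF⟩ | ⟨hne, m, hm, hF⟩)
    · exact ⟨hne, m, (mem_appR l l' m).2 (Or.inl hm), hF⟩
    · exact ⟨hne, m, (mem_appR l l' m).2 (Or.inr hm), hF⟩

theorem cx_nonempty (lam : ℕ → V) (l : List ℕ) (F : Finset V) (h : F ∈ cx lam l) : F.Nonempty := h.1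

end Pool.Agent.MP_455d73_gt.CS
end

section

/-!
TASK Kf (easy-medium): the masks of the lists. Many closed statements are already proved by `decide +kernel`.
`kf_star…`: every element of the list: `f ∈ l ↔ ∃ v ∈ bs t, bs f = (insert z (bs t)).erase v`. Here `bs` is a filter over a long range (classical decidability): do not evaluate it with `decide`; instead show by
`decide +kernel` that `l` has the elements `Nat.sub (Nat.add t (2 ^ z)) (2 ^ v)`, `v` in the explicit list of the digits of `t`, and that these `v` are the digits (`t = 2^v₁ + … + 2^v₅`, `bs_lor`, `bs_two_pow`,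
`add_eq_lor`), and use `bs_sub`. The digits: `mO`: `8, 23, 38, 46, 104`; `mI true`: `54, 77, 88, 101, 104`; `mI false`: `56, 75, 91, 99, 104`; `mI' κ`: the same with `105` instead of `104`; `992`: `5, 6, 7, 8, 9`.
`kf_beadL`: a member of `beadL κ` is `fm κ c f` with `c ∈ ord κ`, `f ∈ FL0` or (`c` in no port and `f ∈ FL5`); `fm κ c f` is the union of the `2 ^ lab κ a c`, `a ∈ f`, with `lab κ a c < 2393` (`lab_lt`, `flag_chain`, `flag0`).
(`mem_beadL`, `bs_fm` are used for this and in the next files: `bindR`, `mapF`, `appR` are bind, map, append: induction on the list.)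
-/

set_option autoImplicit false
set_option maxRecDepth 1000000

open Finset
open scoped Classical

namespace Pool.Agent.MP_455d73_gt.CS

open K

theorem mem_mapF (f : List ℕ → ℕ) (l : List (List ℕ)) (x : ℕ) : x ∈ mapF f l ↔ ∃ y ∈ l, x = f y := by
  induction l with
  | nil =>
    have e : mapF f [] = [] := rfl
    rw [e]
    simp
  | cons g l ih =>
    have e : mapF f (g :: l) = f g :: mapF f l := rfl
    rw [e, List.mem_cons, ih]
    constructor
    · rintro (h | ⟨y, hy, h⟩)
      · exact ⟨g, List.mem_cons_self, h⟩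
      · exact ⟨y, List.mem_cons_of_mem g hy, h⟩
    · rintro ⟨y, hy, h⟩
      rcases List.mem_cons.1 hy with h1 | h1
      · subst h1
        exact Or.inl h
      · exact Or.inr ⟨y, h1, h⟩

theorem mem_bindR (l : List ℕ) (f : ℕ → List ℕ) (x : ℕ) : x ∈ bindR l f ↔ ∃ c ∈ l, x ∈ f c := by
  induction l with
  | nil =>
    have e : bindR [] f = [] := rfl
    rw [e]
    simp
  | cons g l ih =>
    have e : bindR (g :: l) f = appR (f g) (bindR l f) := rfl
    rw [e, mem_appR, ih]
    constructor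
    · rintro (h | ⟨y, hy, h⟩)
      · exact ⟨g, List.mem_cons_self, h⟩
      · exact ⟨y, List.mem_cons_of_mem g hy, h⟩
    · rintro ⟨y, hy, h⟩
      rcases List.mem_cons.1 hy with h1 | h1
      · subst h1
        exact Or.inl h
      · exact Or.inr ⟨y, h1, h⟩

theorem mem_mapR (f : ℕ → ℕ) (l : List ℕ) (x : ℕ) : x ∈ mapR f l ↔ ∃ y ∈ l, x = f y := by
  induction l with
  | nil =>
    have e : mapR f [] = [] := rfl
    rw [e]
    simp
  | cons g l ih =>
    have e : mapR f (g :: l) = f g :: mapR f l := rfl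
    rw [e, List.mem_cons, ih]
    constructor
    · rintro (h | ⟨y, hy, h⟩)
      · exact ⟨g, List.mem_cons_self, h⟩
      · exact ⟨y, List.mem_cons_of_mem g hy, h⟩
    · rintro ⟨y, hy, h⟩
      rcases List.mem_cons.1 hy with h1 | h1
      · subst h1
        exact Or.inl h
      · exact Or.inr ⟨y, h1, h⟩

theorem bs_fm (κ : Bool) (c : ℕ) (f : List ℕ) : bs (fm κ c f) = f.toFinset.image (fun a => lab κ a c) := by
  induction f with
  | nil =>
    have e : fm κ c [] = 0 := rfl
    rw [e, bs_zero]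
    simp
  | cons a f ih =>
    have e : fm κ c (a :: f) = Nat.lor (2 ^ (lab κ a c)) (fm κ c f) := rfl
    rw [e, bs_lor, bs_two_pow, ih, List.toFinset_cons, Finset.image_insert, Finset.insert_eq]

theorem bs_fc (m : ℕ → ℕ) (c : ℕ) (f : List ℕ) (hf : ∀ a ∈ f, a < 64) : bs (fc m c f) =
    f.toFinset.image (fun a => if a.testBit 5 = true then 106 + m (a - 32) else lab true a c) := by
  induction f with
  | nil =>
    have e : fc m c [] = 0 := rfl
    rw [e, bs_zero]
    simp
  | cons a f ih =>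
    have e : fc m c (a :: f) = Nat.lor (2 ^ ((Bool.rec (106 + (m (a - 32))) (lab true a c)
      (Nat.beq (Nat.land a 32) 0) : ℕ))) (fc m c f) := rfl
    have h1 : (Bool.rec (106 + (m (a - 32))) (lab true a c) (Nat.beq (Nat.land a 32) 0) : ℕ) =
        if a.testBit 5 = true then 106 + m (a - 32) else lab true a c := by
      have h2 : ∀ b < 64, Nat.beq (Nat.land b 32) 0 = !(Nat.testBit b 5) := by decide +kernel
      rw [h2 a (hf a List.mem_cons_self)]
      cases hb : Nat.testBit a 5 with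
      | false => rfl
      | true => rfl
    rw [e, h1, bs_lor, bs_two_pow, ih (fun b hb => hf b (List.mem_cons_of_mem a hb)), List.toFinset_cons,
      Finset.image_insert, Finset.insert_eq]

theorem mem_beadL (κ : Bool) (x : ℕ) : x ∈ beadL κ ↔
    ∃ c < 200, (∃ f ∈ FL0, x = fm κ c f) ∨ (isIn c = false ∧ isOut c = false ∧ ∃ f ∈ FL5, x = fm κ c f) := by
  have e : beadL κ = bindR (ord κ) fun c =>
    appR (mapF (fm κ c) FL0) (Bool.rec (Bool.rec (mapF (fm κ c) FL5) [] (isIn c)) [] (isOut c)) := rfl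
  rw [e, mem_bindR]
  constructor
  · rintro ⟨c, hc, hx⟩
    refine ⟨c, (mem_ord κ c).1 hc, ?_⟩
    rcases (mem_appR _ _ x).1 hx with h | h
    · exact Or.inl ((mem_mapF _ _ x).1 h)
    · right
      cases ho : isOut c with
      | true =>
        rw [ho] at h
        exact absurd h List.not_mem_nil
      | false =>
        rw [ho] at h
        cases hi : isIn c with
        | true =>
          rw [hi] at h
          exact absurd h List.not_mem_nil
        | false =>
          rw [hi] at h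
          exact ⟨rfl, rfl, (mem_mapF _ _ x).1 h⟩
  · rintro ⟨c, hc, h⟩
    refine ⟨c, (mem_ord κ c).2 hc, (mem_appR _ _ x).2 ?_⟩
    rcases h with h | ⟨hi, ho, h⟩
    · exact Or.inl ((mem_mapF _ _ x).2 h)
    · right
      rw [hi, ho]
      exact (mem_mapF _ _ x).2 h

private theorem Kf_pow_sub (a b : ℕ) (h : a ≤ b) : bs (2 ^ b - 2 ^ a) = Finset.Ico a b := by
  ext v
  have e : 2 ^ b - 2 ^ a = 2 ^ a * (2 ^ (b - a) - 1) := by
    rw [Nat.mul_sub, ← pow_add, Nat.add_sub_cancel' h, mul_one]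
  rw [mem_bs, e, Nat.testBit_two_pow_mul, Nat.testBit_two_pow_sub_one, Finset.mem_Ico]
  simp only [Bool.and_eq_true, decide_eq_true_eq]
  constructor
  · rintro ⟨h1, h2⟩
    omega
  · rintro ⟨h1, h2⟩
    omega

private theorem Kf_land (n f : ℕ) (h : ∀ v ∈ bs f, v < n) : Nat.land f (2 ^ n - 1) = f := by
  rw [land_eq_iff]
  have e := Kf_pow_sub 0 n (Nat.zero_le n)
  rw [pow_zero] at e
  rw [e]
  intro v hv
  exact Finset.mem_Ico.2 ⟨Nat.zero_le v, h v hv⟩

theorem kf_beadL (κ : Bool) : ∀ f ∈ beadL κ, Nat.land f (2 ^ 2393 - 1) = f := by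
  intro x hx
  refine Kf_land 2393 x ?_
  obtain ⟨c, hc, h⟩ := (mem_beadL κ x).1 hx
  rcases h with ⟨f, hf, rfl⟩ | ⟨hi, ho, f, hf, rfl⟩
  · intro v hv
    rw [bs_fm] at hv
    obtain ⟨a, ha, rfl⟩ := Finset.mem_image.1 hv
    rw [List.mem_toFinset] at ha
    refine lab_lt κ a c ((flag_chain f (List.mem_append_left _ hf)).1 a ha) hc ?_
    intro h5
    rw [flag0 f hf a ha] at h5
    exact absurd h5 (by decide)
  · intro v hv
    rw [bs_fm] at hv
    obtain ⟨a, ha, rfl⟩ := Finset.mem_image.1 hv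
    rw [List.mem_toFinset] at ha
    exact lab_lt κ a c ((flag_chain f (List.mem_append_right _ hf)).1 a ha) hc (fun _ => ⟨hi, ho⟩)

theorem kf_finB (κ : Bool) : allIn (2 ^ 2393 - 1) (finB κ) = true := by
  cases κ <;> decide +kernel

theorem kf_dcL (r : Bool) : allIn2 (2 ^ 52 - 1 + (2 ^ 158 - 2 ^ 106)) (2 ^ 104 - 2 ^ 52 + (2 ^ 158 - 2 ^ 106)) (dcL r) = true := by
  cases r <;> decide +kernel

theorem kf_fiL : allIn (2 ^ 104 - 2 ^ 52 + (2 ^ 210 - 2 ^ 158)) fiL = true := by
  decide +kernel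

theorem kf_foL : allIn (2 ^ 52 - 1 + (2 ^ 158 - 2 ^ 106)) foL = true := by
  decide +kernel

theorem kf_outC : allIn (2 ^ 52 - 1 + 2 ^ 104) (outC 104) = true := by
  decide +kernel

theorem kf_inC (κ : Bool) : allIn (2 ^ 104 - 2 ^ 52 + 2 ^ 104) (inC κ 104) = true := by
  cases κ <;> decide +kernel

theorem kf_yL (κ : Bool) : allIn (Nat.lor mO (Nat.lor (mI κ) (2 ^ 2393 - 2 ^ 1000))) (yL κ) = true := by
  cases κ <;> decide +kernel

theorem kf_yL_no (κ : Bool) : noSub (mI κ) (yL κ) = true ∧ noSub mO (yL κ) = true := by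
  cases κ <;> decide +kernel

theorem kf_shL (κ r : Bool) : allIn (2 ^ 158 - 1) (shL κ r) = true := by
  cases κ <;> cases r <;> decide +kernel

theorem kf_tbL (κ r : Bool) : allIn (Nat.lor mO (mI' κ)) (tbL κ r) = true := by
  cases κ <;> cases r <;> decide +kernel

theorem kf_tbL_no (κ r : Bool) : noSub mO (tbL κ r) = true ∧ noSub (mI' κ) (tbL κ r) = true := by
  cases κ <;> cases r <;> decide +kernel

theorem kf_eiL (κ : Bool) : allIn (2 ^ 105 - 2 ^ 52 + (2 ^ 210 - 2 ^ 158)) (eiL κ) = true := by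
  cases κ <;> decide +kernel

theorem kf_eoL : allIn (2 ^ 52 - 1 + 2 ^ 104 + (2 ^ 158 - 2 ^ 106)) eoL = true := by
  decide +kernel

theorem kf_A (κ : Bool) : allIn (2 ^ 32 - 1) (appR (tuA κ) (yA κ)) = true ∧ allIn (2 ^ 32 - 1) (tA κ) = true := by
  cases κ <;> decide +kernel

private theorem Kf_five (m a b c d e : ℕ)
    (h : m = Nat.lor (2 ^ a) (Nat.lor (2 ^ b) (Nat.lor (2 ^ c) (Nat.lor (2 ^ d) (2 ^ e))))) :
    bs m = {a, b, c, d, e} := by
  rw [h, bs_lor, bs_lor, bs_lor, bs_lor, bs_two_pow, bs_two_pow, bs_two_pow, bs_two_pow, bs_two_pow]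
  simp only [Finset.insert_eq]

theorem bs_mO : bs mO = {8, 23, 38, 46, 104} := by
  exact Kf_five mO 8 23 38 46 104 (by decide +kernel)

theorem bs_mI (κ : Bool) : bs (mI κ) = if κ then {54, 77, 88, 101, 104} else {56, 75, 91, 99, 104} := by
  cases κ with
  | false =>
    have h := Kf_five (mI false) 56 75 91 99 104 (by decide +kernel)
    rw [h]
    simp
  | true =>
    have h := Kf_five (mI true) 54 77 88 101 104 (by decide +kernel)
    rw [h]
    simp

theorem bs_mI' (κ : Bool) : bs (mI' κ) = if κ then {54, 77, 88, 101, 105} else {56, 75, 91, 99, 105} := by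
  cases κ with
  | false =>
    have h := Kf_five (mI' false) 56 75 91 99 105 (by decide +kernel)
    rw [h]
    simp
  | true =>
    have h := Kf_five (mI' true) 54 77 88 101 105 (by decide +kernel)
    rw [h]
    simp

theorem bs_992 : bs 992 = {5, 6, 7, 8, 9} := by
  exact Kf_five 992 5 6 7 8 9 (by decide +kernel)

theorem bs_31 : bs 31 = {0, 1, 2, 3, 4} := by
  exact Kf_five 31 0 1 2 3 4 (by decide +kernel)

/-- The digits of `2 ^ b - 2 ^ a`. -/
theorem bs_pow_sub (a b : ℕ) (h : a ≤ b) : bs (2 ^ b - 2 ^ a) = Finset.Ico a b := by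
  exact Kf_pow_sub a b h

private theorem Kf_star (l : List ℕ) (t z : ℕ) (D : List ℕ) (hD : ∀ v, v ∈ bs t ↔ v ∈ D)
    (h1 : ∀ x ∈ l, ∃ v ∈ D, x = Nat.sub (Nat.lor t (2 ^ z)) (2 ^ v))
    (h2 : ∀ v ∈ D, Nat.sub (Nat.lor t (2 ^ z)) (2 ^ v) ∈ l) :
    ∀ f, f ∈ l ↔ ∃ v ∈ bs t, bs f = (insert z (bs t)).erase v := by
  have hex : ∀ v ∈ bs t, bs (Nat.sub (Nat.lor t (2 ^ z)) (2 ^ v)) = (insert z (bs t)).erase v := by
    intro v hv
    rw [bs_sub _ _ (by rw [bs_lor]; exact Finset.mem_union_left _ hv), bs_lor, bs_two_pow, Finset.union_comm,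
      ← Finset.insert_eq]
  intro f
  constructor
  · intro hf
    obtain ⟨v, hv, rfl⟩ := h1 f hf
    exact ⟨v, (hD v).2 hv, hex v ((hD v).2 hv)⟩
  · rintro ⟨v, hv, h⟩
    rw [bs_inj (h.trans (hex v hv).symm)]
    exact h2 v ((hD v).1 hv)

theorem kf_siL (κ : Bool) : ∀ f, f ∈ siL κ ↔ ∃ v ∈ bs (mI κ), bs f = (insert (zI κ) (bs (mI κ))).erase v := by
  cases κ with
  | false =>
    refine Kf_star (siL false) (mI false) (zI false) [56, 75, 91, 99, 104] ?_ (by decide +kernel) (by decide +kernel)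
    intro v
    rw [bs_mI]
    simp
  | true =>
    refine Kf_star (siL true) (mI true) (zI true) [54, 77, 88, 101, 104] ?_ (by decide +kernel) (by decide +kernel)
    intro v
    rw [bs_mI]
    simp

theorem kf_soL : ∀ f, f ∈ soL ↔ ∃ v ∈ bs mO, bs f = (insert 157 (bs mO)).erase v := by
  refine Kf_star soL mO 157 [8, 23, 38, 46, 104] ?_ (by decide +kernel) (by decide +kernel)
  intro v
  rw [bs_mO]
  simp

theorem kf_sxL (κ : Bool) : ∀ f, f ∈ sxL κ ↔ ∃ v ∈ bs 992, bs f = (insert (zX κ) (bs 992)).erase v := by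
  have hD : ∀ v, v ∈ bs 992 ↔ v ∈ [5, 6, 7, 8, 9] := by
    intro v
    rw [bs_992]
    simp
  cases κ with
  | false => exact Kf_star (sxL false) 992 (zX false) [5, 6, 7, 8, 9] hD (by decide +kernel) (by decide +kernel)
  | true => exact Kf_star (sxL true) 992 (zX true) [5, 6, 7, 8, 9] hD (by decide +kernel) (by decide +kernel)

end Pool.Agent.MP_455d73_gt.CS
end

section

/-!
TASK Z2 (medium): the cones and collars are collected to shells and ends.

`cx lam (appR l l') = cx lam l ∪ cx lam l'` (`cx_append`). `finB κ = appR (outC 104) (appR (inC κ 104) (yL κ))`, `shL κ r = appR (outC 104) (appR (dcL r) (inC κ 105))`, `eiL κ = appR (inC κ 104) fiL`, `eoL = appR (outC 104) foL` (by `rfl`).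
(1) `cx (lamB k) (outC 104) = cx (lamS k) (outC 104)`: the namings agree on `s < 52` and `s = 104` (`kf_outC`: the masks have only these digits); also `cx (lamB (n - 1)) (outC 104) = cx (lamO n) (outC 104)`.
(2) `cx (lamB (k + 1)) (inC κ 104) = cx (lamS k) (inC κ 105)`: `inC κ u` is the list of `Nat.lor t (Nat.pow 2 u)`, `t ∈ inT κ` (`mem_mapR`), `bs t ⊆ Ico 52 104`, `bs (Nat.lor t (2 ^ u)) = insert u (bs t)`, and `lamS k s = (k + 1, s) = lamB (k + 1) s` for `52 ≤ s < 104`,
`lamS k 105 = (k + 1, 104) = lamB (k + 1) 104`. Also `cx (lamB 0) (inC κ 104) = cx lamI (inC κ 104)` (`lamI s = (0, s)` for `52 ≤ s < 106`).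
(3) The two sides: `Q1`: the parts `outC`, `inC`, `yL` of the bead `k < n`; the double collars `k < n - 1`; `fiL`, `foL`. `Q2`: the shell `k < n - 1` collects `outC` of the bead `k`, the double collar `k`, and `inC` of the bead `k + 1`; the end `in` collects `inC` of the bead `0` and `fiL`;
the end `out` collects `outC` of the bead `n - 1` and `foL`; `Yc w` the parts `yL`. Every bead number `k < n` is `< n - 1` or `= n - 1`, and `= 0` or `k' + 1` with `k' < n - 1`.
-/

set_option autoImplicit false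
set_option maxRecDepth 1000000

open Finset
open scoped Classical

namespace Pool.Agent.MP_455d73_gt.CS

open K

private theorem Z2_cone {V : Type} (lam lam' : ℕ → V) (T : List ℕ) (u u' : ℕ)
    (h : ∀ t ∈ T, ∀ v ∈ bs t, lam v = lam' v) (hu : lam u = lam' u') :
    cx lam (mapR (fun t => Nat.lor t (Nat.pow 2 u)) T) =
      cx lam' (mapR (fun t => Nat.lor t (Nat.pow 2 u')) T) := by
  have key : ∀ t ∈ T, (bs (Nat.lor t (Nat.pow 2 u))).image lam = (bs (Nat.lor t (Nat.pow 2 u'))).image lam' := by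
    intro t ht
    have e1 : bs (Nat.lor t (Nat.pow 2 u)) = bs t ∪ {u} := by
      have e : Nat.pow 2 u = 2 ^ u := rfl
      rw [e, bs_lor, bs_two_pow]
    have e2 : bs (Nat.lor t (Nat.pow 2 u')) = bs t ∪ {u'} := by
      have e : Nat.pow 2 u' = 2 ^ u' := rfl
      rw [e, bs_lor, bs_two_pow]
    rw [e1, e2, Finset.image_union, Finset.image_union, Finset.image_singleton, Finset.image_singleton, hu]
    congr 1
    exact Finset.image_congr (fun v hv => h t ht v (Finset.mem_coe.1 hv))
  ext F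
  constructor
  · rintro ⟨hF, m, hm, hs⟩
    obtain ⟨t, ht, rfl⟩ := (mem_mapR _ _ _).1 hm
    refine ⟨hF, _, (mem_mapR _ _ _).2 ⟨t, ht, rfl⟩, ?_⟩
    rw [← key t ht]
    exact hs
  · rintro ⟨hF, m, hm, hs⟩
    obtain ⟨t, ht, rfl⟩ := (mem_mapR _ _ _).1 hm
    refine ⟨hF, _, (mem_mapR _ _ _).2 ⟨t, ht, rfl⟩, ?_⟩
    rw [key t ht]
    exact hs

private theorem Z2_outT : ∀ t ∈ outT, ∀ v ∈ bs t, v < 52 := by
  intro t ht v hv
  have h1 : allIn (2 ^ 52 - 2 ^ 0) outT = true := by decide +kernel
  have h2 := allIn_spec _ _ h1 t ht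
  rw [land_eq_iff, bs_pow_sub 0 52 (by norm_num)] at h2
  exact (Finset.mem_Ico.1 (h2 hv)).2

private theorem Z2_inT (κ : Bool) : ∀ t ∈ inT κ, ∀ v ∈ bs t, 52 ≤ v ∧ v < 104 := by
  intro t ht v hv
  have h1 : allIn (2 ^ 104 - 2 ^ 52) (inT κ) = true := by cases κ <;> decide +kernel
  have h2 := allIn_spec _ _ h1 t ht
  rw [land_eq_iff, bs_pow_sub 52 104 (by norm_num)] at h2
  exact Finset.mem_Ico.1 (h2 hv)

private theorem Z2_o1 (k : ℕ) : cx (lamB k) (outC 104) = cx (lamS k) (outC 104) := by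
  refine Z2_cone (lamB k) (lamS k) outT 104 104 ?_ ?_
  · intro t ht v hv
    have h := Z2_outT t ht v hv
    simp [lamB, lamS, h]
  · simp [lamB, lamS]

private theorem Z2_o2 (n : ℕ) : cx (lamB (n - 1)) (outC 104) = cx (lamO n) (outC 104) := by
  refine Z2_cone (lamB (n - 1)) (lamO n) outT 104 104 ?_ ?_
  · intro t ht v hv
    have h := Z2_outT t ht v hv
    simp [lamB, lamO, h]
  · simp [lamB, lamO]

private theorem Z2_i1 (k : ℕ) (κ : Bool) : cx (lamB (k + 1)) (inC κ 104) = cx (lamS k) (inC κ 105) := by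
  refine Z2_cone (lamB (k + 1)) (lamS k) (inT κ) 104 105 ?_ ?_
  · intro t ht v hv
    have h := Z2_inT κ t ht v hv
    have h1 : ¬ v < 52 := by omega
    simp [lamB, lamS, h.2, h1]
  · simp [lamB, lamS]

private theorem Z2_i2 (κ : Bool) : cx (lamB 0) (inC κ 104) = cx lamI (inC κ 104) := by
  refine Z2_cone (lamB 0) lamI (inT κ) 104 104 ?_ ?_
  · intro t ht v hv
    have h := Z2_inT κ t ht v hv
    have h1 : ¬ v < 52 := by omega
    have h2 : v < 106 := by omega
    simp [lamB, lamI, h2, h1]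
  · simp [lamB, lamI]

theorem Z2_eq (w : List (Bool × Bool)) (hw : w ≠ []) : Q1 w = Q2 w := by
  have hn : 0 < w.length := List.length_pos_of_ne_nil hw
  have hfin : ∀ (k : ℕ) (κ : Bool) (F : Finset (ℕ × ℕ)), F ∈ cx (lamB k) (finB κ) ↔
      F ∈ cx (lamB k) (outC 104) ∨ F ∈ cx (lamB k) (inC κ 104) ∨ F ∈ cx (lamB k) (yL κ) := by
    intro k κ F
    have e : finB κ = appR (outC 104) (appR (inC κ 104) (yL κ)) := rfl
    rw [e, cx_append, cx_append]
    rfl
  have hsh : ∀ (k : ℕ) (κ r : Bool) (F : Finset (ℕ × ℕ)), F ∈ cx (lamS k) (shL κ r) ↔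
      F ∈ cx (lamS k) (outC 104) ∨ F ∈ cx (lamS k) (dcL r) ∨ F ∈ cx (lamS k) (inC κ 105) := by
    intro k κ r F
    have e : shL κ r = appR (outC 104) (appR (dcL r) (inC κ 105)) := rfl
    rw [e, cx_append, cx_append]
    rfl
  have hei : ∀ (κ : Bool) (F : Finset (ℕ × ℕ)), F ∈ cx lamI (eiL κ) ↔
      F ∈ cx lamI (inC κ 104) ∨ F ∈ cx lamI fiL := by
    intro κ F
    have e : eiL κ = appR (inC κ 104) fiL := rfl
    rw [e, cx_append]
    rfl
  have heo : ∀ (F : Finset (ℕ × ℕ)), F ∈ cx (lamO w.length) eoL ↔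
      F ∈ cx (lamO w.length) (outC 104) ∨ F ∈ cx (lamO w.length) foL := by
    intro F
    have e : eoL = appR (outC 104) foL := rfl
    rw [e, cx_append]
    rfl
  ext F
  constructor
  · rintro (⟨k, hk, h⟩ | ⟨k, hk, h⟩ | h | h)
    · rcases (hfin k _ F).1 h with h | h | h
      · rcases Nat.lt_or_ge k (w.length - 1) with h1 | h1
        · rw [Z2_o1] at h
          exact Or.inl ⟨k, h1, (hsh k _ _ F).2 (Or.inl h)⟩
        · have e : k = w.length - 1 := by omega
          subst e
          rw [Z2_o2] at h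
          exact Or.inr (Or.inr (Or.inr ((heo F).2 (Or.inl h))))
      · rcases Nat.eq_zero_or_pos k with h1 | h1
        · subst h1
          rw [Z2_i2] at h
          exact Or.inr (Or.inr (Or.inl ((hei _ F).2 (Or.inl h))))
        · obtain ⟨j, rfl⟩ : ∃ j, k = j + 1 := ⟨k - 1, by omega⟩
          rw [Z2_i1] at h
          exact Or.inl ⟨j, by omega, (hsh j _ _ F).2 (Or.inr (Or.inr h))⟩
      · exact Or.inr (Or.inl ⟨k, hk, h⟩)
    · exact Or.inl ⟨k, hk, (hsh k _ _ F).2 (Or.inr (Or.inl h))⟩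
    · exact Or.inr (Or.inr (Or.inl ((hei _ F).2 (Or.inr h))))
    · exact Or.inr (Or.inr (Or.inr ((heo F).2 (Or.inr h))))
  · rintro (⟨k, hk, h⟩ | ⟨k, hk, h⟩ | h | h)
    · rcases (hsh k _ _ F).1 h with h | h | h
      · rw [← Z2_o1] at h
        exact Or.inl ⟨k, by omega, (hfin k _ F).2 (Or.inl h)⟩
      · exact Or.inr (Or.inl ⟨k, hk, h⟩)
      · rw [← Z2_i1] at h
        exact Or.inl ⟨k + 1, by omega, (hfin (k + 1) _ F).2 (Or.inr (Or.inl h))⟩
    · exact Or.inl ⟨k, hk, (hfin k _ F).2 (Or.inr (Or.inr h))⟩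
    · rcases (hei _ F).1 h with h | h
      · rw [← Z2_i2] at h
        exact Or.inl ⟨0, hn, (hfin 0 _ F).2 (Or.inr (Or.inl h))⟩
      · exact Or.inr (Or.inr (Or.inl h))
    · rcases (heo F).1 h with h | h
      · rw [← Z2_o2] at h
        exact Or.inl ⟨w.length - 1, by omega, (hfin _ _ F).2 (Or.inl h)⟩
      · exact Or.inr (Or.inr (Or.inr h))

end Pool.Agent.MP_455d73_gt.CS
end

section

/-!
TASK Z6 (medium): the tubes and middle parts are collected to absorption regions.

Use `trC_spec` (twice, for the table and the table with exchanged columns, each check `trC tr l l' = true` by `decide +kernel` after `cases κ`, `cases r`):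
(1) `cx (lamB k) (yL κ) = cx (lamA w k) (yA κ)`, `κ = kd w k`, with the table `(23, 5), (46, 6), (8, 7), (38, 8), (104, 9)` and `(exL κ [j], 10 + j)` (`κ = true`: `(88, 10), (54, 11), (101, 12), (77, 13), (1030, 14)`; `κ = false`: `(75, 10), (99, 11), (91, 12), (56, 13), (1055, 14), (2383, 15)`).
(2) `cx (lamS k) (tbL κ r) = cx (lamA w (k + 1)) (tuA κ)`, `κ = kd w (k + 1)`, `r = rv w (k + 1)`: the table `(xsL [sw r j], j)` for `j < 5` (`r = false`: `(23, 0), (46, 1), (8, 2), (38, 3), (104, 4)`; `r = true`: `(46, 0), (23, 1), (8, 2), (38, 3), (104, 4)`) and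
`κ = true`: `(88, 10), (105, 9), (54, 11), (101, 12), (77, 13)`; `κ = false`: `(75, 10), (99, 11), (91, 12), (56, 13), (105, 9)`.
(3) `cx (lamX w) (tuX κ) = cx (lamA w 0) (tuA κ)`, `κ = kd w 0`: the table `(j, j)`, `j < 5`, and `κ = true`: `(5, 10), (6, 9), (7, 11), (8, 12), (9, 13)`; `κ = false`: `(5, 10), (6, 11), (7, 12), (8, 13), (9, 9)`.
(4) `xtL κ = 31 :: tuX κ`: `cx (lamX w) (xtL κ) = dn tX ∪ cx (lamX w) (tuX κ)` (`(bs 31).image (lamX w) = tX`: `sw r` is a permutation of `0, …, 4`).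
The equations of the namings: unfold `lamB`, `lamS`, `lamA`, `lamX`, `nth`, `xsL`, `exL`, `ysL` (after `cases` on the values `kd w k`, `rv w k`; generalize them first), all numbers are concrete except `k`.
Then `Q5 w = Q6 w`: the region `k` of `Q6 w` is `cx (lamA w k) (tuA κ) ∪ cx (lamA w k) (yA κ)` (`cx_append`): for `k = 0` the tube is the one of the start region, for `k = k' + 1` the tube `k' < n - 1` of `Tc w`.
-/

set_option autoImplicit false

open Finset
open scoped Classical

namespace Pool.Agent.MP_455d73_gt.CS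

private theorem Z6_trC (tr tr' : List (ℕ × ℕ)) (l l' : List ℕ) (h : trC tr l l' = true) (h' : trC tr' l' l = true)
    (lam lam' : ℕ → ℕ × ℕ) (hlam : ∀ p ∈ tr, lam p.1 = lam' p.2) (hlam' : ∀ p ∈ tr', lam' p.1 = lam p.2) :
    cx lam l = cx lam' l' :=
  Set.Subset.antisymm (trC_spec tr l l' h lam lam' hlam) (trC_spec tr' l' l h' lam' lam hlam')

private def Z6_t1 (κ : Bool) : List (ℕ × ℕ) :=
  if κ then [(23, 5), (46, 6), (8, 7), (38, 8), (104, 9), (88, 10), (54, 11), (101, 12), (77, 13), (1030, 14)]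
  else [(23, 5), (46, 6), (8, 7), (38, 8), (104, 9), (75, 10), (99, 11), (91, 12), (56, 13), (1055, 14), (2383, 15)]

private def Z6_t1' (κ : Bool) : List (ℕ × ℕ) :=
  if κ then [(5, 23), (6, 46), (7, 8), (8, 38), (9, 104), (10, 88), (11, 54), (12, 101), (13, 77), (14, 1030)]
  else [(5, 23), (6, 46), (7, 8), (8, 38), (9, 104), (10, 75), (11, 99), (12, 91), (13, 56), (14, 1055), (15, 2383)]

private theorem Z6_c1 (κ : Bool) : trC (Z6_t1 κ) (K.yL κ) (K.yA κ) = true := by
  cases κ <;> decide +kernel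

private theorem Z6_c1' (κ : Bool) : trC (Z6_t1' κ) (K.yA κ) (K.yL κ) = true := by
  cases κ <;> decide +kernel

private def Z6_t2 (κ r : Bool) : List (ℕ × ℕ) :=
  (if r then [(46, 0), (23, 1), (8, 2), (38, 3), (104, 4)] else [(23, 0), (46, 1), (8, 2), (38, 3), (104, 4)]) ++
  (if κ then [(88, 10), (105, 9), (54, 11), (101, 12), (77, 13)] else [(75, 10), (99, 11), (91, 12), (56, 13), (105, 9)])

private def Z6_t2' (κ r : Bool) : List (ℕ × ℕ) :=
  (if r then [(0, 46), (1, 23), (2, 8), (3, 38), (4, 104)] else [(0, 23), (1, 46), (2, 8), (3, 38), (4, 104)]) ++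
  (if κ then [(10, 88), (9, 105), (11, 54), (12, 101), (13, 77)] else [(10, 75), (11, 99), (12, 91), (13, 56), (9, 105)])

private theorem Z6_c2 (κ r : Bool) : trC (Z6_t2 κ r) (K.tbL κ r) (K.tuA κ) = true := by
  cases κ <;> cases r <;> decide +kernel

private theorem Z6_c2' (κ r : Bool) : trC (Z6_t2' κ r) (K.tuA κ) (K.tbL κ r) = true := by
  cases κ <;> cases r <;> decide +kernel

private def Z6_t3 (κ : Bool) : List (ℕ × ℕ) :=
  [(0, 0), (1, 1), (2, 2), (3, 3), (4, 4)] ++
  (if κ then [(5, 10), (6, 9), (7, 11), (8, 12), (9, 13)] else [(5, 10), (6, 11), (7, 12), (8, 13), (9, 9)])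

private def Z6_t3' (κ : Bool) : List (ℕ × ℕ) :=
  [(0, 0), (1, 1), (2, 2), (3, 3), (4, 4)] ++
  (if κ then [(10, 5), (9, 6), (11, 7), (12, 8), (13, 9)] else [(10, 5), (11, 6), (12, 7), (13, 8), (9, 9)])

private theorem Z6_c3 (κ : Bool) : trC (Z6_t3 κ) (K.tuX κ) (K.tuA κ) = true := by
  cases κ <;> decide +kernel

private theorem Z6_c3' (κ : Bool) : trC (Z6_t3' κ) (K.tuA κ) (K.tuX κ) = true := by
  cases κ <;> decide +kernel

private theorem Z6_1 (w : List (Bool × Bool)) (k : ℕ) :
    cx (lamB k) (K.yL (kd w k)) = cx (lamA w k) (K.yA (kd w k)) := by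
  refine Z6_trC _ _ _ _ (Z6_c1 _) (Z6_c1' _) _ _ ?_ ?_
  · unfold lamA
    generalize kd w k = κ
    cases κ
    · repeat refine List.forall_mem_cons.2 ⟨rfl, ?_⟩
      exact fun p hp => absurd hp List.not_mem_nil
    · repeat refine List.forall_mem_cons.2 ⟨rfl, ?_⟩
      exact fun p hp => absurd hp List.not_mem_nil
  · unfold lamA
    generalize kd w k = κ
    cases κ
    · repeat refine List.forall_mem_cons.2 ⟨rfl, ?_⟩
      exact fun p hp => absurd hp List.not_mem_nil
    · repeat refine List.forall_mem_cons.2 ⟨rfl, ?_⟩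
      exact fun p hp => absurd hp List.not_mem_nil

private theorem Z6_2 (w : List (Bool × Bool)) (k : ℕ) :
    cx (lamS k) (K.tbL (kd w (k + 1)) (rv w (k + 1))) = cx (lamA w (k + 1)) (K.tuA (kd w (k + 1))) := by
  refine Z6_trC _ _ _ _ (Z6_c2 _ _) (Z6_c2' _ _) _ _ ?_ ?_
  · unfold lamA
    generalize kd w (k + 1) = κ
    generalize rv w (k + 1) = r
    cases κ <;> cases r <;>
      (repeat refine List.forall_mem_cons.2 ⟨rfl, ?_⟩) <;>
      exact fun p hp => absurd hp List.not_mem_nil
  · unfold lamA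
    generalize kd w (k + 1) = κ
    generalize rv w (k + 1) = r
    cases κ <;> cases r <;>
      (repeat refine List.forall_mem_cons.2 ⟨rfl, ?_⟩) <;>
      exact fun p hp => absurd hp List.not_mem_nil

private theorem Z6_3 (w : List (Bool × Bool)) :
    cx (lamX w) (K.tuX (kd w 0)) = cx (lamA w 0) (K.tuA (kd w 0)) := by
  refine Z6_trC _ _ _ _ (Z6_c3 _) (Z6_c3' _) _ _ ?_ ?_
  · unfold lamA lamX
    generalize kd w 0 = κ
    generalize rv w 0 = r
    cases κ <;> cases r <;>
      (repeat refine List.forall_mem_cons.2 ⟨rfl, ?_⟩) <;>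
      exact fun p hp => absurd hp List.not_mem_nil
  · unfold lamA lamX
    generalize kd w 0 = κ
    generalize rv w 0 = r
    cases κ <;> cases r <;>
      (repeat refine List.forall_mem_cons.2 ⟨rfl, ?_⟩) <;>
      exact fun p hp => absurd hp List.not_mem_nil

private theorem Z6_tX (w : List (Bool × Bool)) : (bs 31).image (lamX w) = tX := by
  rw [bs_31]
  unfold tX lamX
  generalize rv w 0 = r
  have e : (range 5) = ({0, 1, 2, 3, 4} : Finset ℕ) := by decide
  rw [e]
  cases r
  · simp [sw]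
  · simp [sw]
    ext x
    simp only [Finset.mem_insert, Finset.mem_singleton]
    tauto

private theorem Z6_tX' (w : List (Bool × Bool)) (i : DecidableEq (ℕ × ℕ)) : @Finset.image _ _ i (lamX w) (bs 31) = tX := by
  have h : i = instDecidableEqProd := Subsingleton.elim _ _
  subst h
  exact Z6_tX w

private theorem Z6_sets {X : Type} (A B C D E : Set X) :
    (D ∪ A) ∪ (B ∪ (C ∪ E)) = ((A ∪ C) ∪ E) ∪ (D ∪ B) := by
  ext F
  simp only [Set.mem_union]
  tauto

private theorem Z6_4 (w : List (Bool × Bool)) (κ : Bool) :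
    cx (lamX w) (K.xtL κ) = dn tX ∪ cx (lamX w) (K.tuX κ) := by
  have e : K.xtL κ = K.appR [31] (K.tuX κ) := rfl
  rw [e, cx_append, cx_single, Z6_tX']

private theorem Z6_uni_union {V : Type} (n : ℕ) (G H : ℕ → Set (Finset V)) :
    uni n (fun k => G k ∪ H k) = uni n G ∪ uni n H := by
  ext F
  constructor
  · rintro ⟨k, hk, h | h⟩
    · exact Or.inl ⟨k, hk, h⟩
    · exact Or.inr ⟨k, hk, h⟩
  · rintro (⟨k, hk, h⟩ | ⟨k, hk, h⟩)
    · exact ⟨k, hk, Or.inl h⟩
    · exact ⟨k, hk, Or.inr h⟩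

private theorem Z6_uni_succ {V : Type} (n : ℕ) (hn : 0 < n) (G : ℕ → Set (Finset V)) :
    uni n G = G 0 ∪ uni (n - 1) (fun k => G (k + 1)) := by
  ext F
  constructor
  · rintro ⟨k, hk, h⟩
    cases k with
    | zero => exact Or.inl h
    | succ k => exact Or.inr ⟨k, by omega, h⟩
  · rintro (h | ⟨k, hk, h⟩)
    · exact ⟨0, hn, h⟩
    · exact ⟨k + 1, by omega, h⟩

theorem Z6_eq (w : List (Bool × Bool)) (hw : w ≠ []) : Q5 w = Q6 w := by
  have hn : 0 < w.length := List.length_pos_iff.2 hw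
  have e1 : (fun k => cx (lamA w k) (K.appR (K.tuA (kd w k)) (K.yA (kd w k)))) =
      fun k => cx (lamA w k) (K.tuA (kd w k)) ∪ cx (lamA w k) (K.yA (kd w k)) := by
    funext k
    exact cx_append _ _ _
  have e2 : Yc w = uni w.length (fun k => cx (lamA w k) (K.yA (kd w k))) := by
    unfold Yc
    congr 1
    funext k
    exact Z6_1 w k
  have e3 : Tc w = uni (w.length - 1) (fun k => cx (lamA w (k + 1)) (K.tuA (kd w (k + 1)))) := by
    unfold Tc
    congr 1
    funext k
    exact Z6_2 w k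
  unfold Q5 Q6
  rw [e1, Z6_uni_union, ← e2, Z6_uni_succ w.length hn (fun k => cx (lamA w k) (K.tuA (kd w k))), ← e3, Z6_4, Z6_3]
  exact Z6_sets _ _ _ _ _

end Pool.Agent.MP_455d73_gt.CS
end
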