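import Pool.Agent.Lib.MP_455d73_gt.Mg.G016
import Pool.Agent.Lib.MP_455d73_gt.Mg.G017
import Pool.Agent.Lib.MP_455d73_gt.Mg.G026

section

/-!
TASK Rp (medium): unions of complexes; the replacement of several regions at the same time.

`cx_down`, `Down.union`, `uni_down`, `dn_down`, `star_down`: from the definitions.
`rep`: for `m ≤ n` let `K m = {F | (∃ k < m, F ∈ cx (lam k) (l' k)) ∨ (∃ k < n, m ≤ k ∧ F ∈ cx (lam k) (l k)) ∨ F ∈ R}`. `K 0` and `K n` are the two sides. Induction: `FlipEq (K m) (K (m + 1))` for `m < n`: both have the form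
`cx (lam m) (l m) ∪ R'`, `cx (lam m) (l' m) ∪ R'` with the same `R' = {F | (∃ k < m, F ∈ cx (lam k) (l' k)) ∨ (∃ k < n, m < k ∧ F ∈ cx (lam k) (l k)) ∨ F ∈ R}`, `Down R'`. Apply `hE m`; the
condition: `F ∈ R'`, `F ⊆ (bs U).image (lam m)`: if `F ∈ R` use `hRJ`; if `F ∈ cx (lam k) (l k)` (or `l' k`), `k ≠ m`, then `F ⊆ (bs f).image (lam k) ⊆ (bs U).image (lam k)` as `Nat.land f U = f` (`land_eq_iff`), and
use `hJ`.
-/

set_option autoImplicit false

open Finset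
open scoped Classical

namespace Pool.Agent.MP_455d73_gt.CS

variable {V : Type}

theorem cx_down (lam : ℕ → V) (l : List ℕ) : Down (cx lam l) := by
  refine ⟨fun F hF => hF.1, ?_⟩
  rintro F ⟨_, m, hm, hFm⟩ G hG hne
  exact ⟨hne, m, hm, hG.trans hFm⟩

theorem Down.union {K K' : Set (Finset V)} (h : Down K) (h' : Down K') : Down (K ∪ K') := by
  refine ⟨?_, ?_⟩
  · rintro F (hF | hF)
    · exact h.1 F hF
    · exact h'.1 F hF
  · rintro F (hF | hF) G hG hne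
    · exact Or.inl (h.2 F hF G hG hne)
    · exact Or.inr (h'.2 F hF G hG hne)

theorem uni_down (n : ℕ) (G : ℕ → Set (Finset V)) (h : ∀ k < n, Down (G k)) : Down (uni n G) := by
  refine ⟨?_, ?_⟩
  · rintro F ⟨k, hk, hF⟩
    exact (h k hk).1 F hF
  · rintro F ⟨k, hk, hF⟩ T hT hne
    exact ⟨k, hk, (h k hk).2 F hF T hT hne⟩

theorem dn_down (t : Finset V) : Down (dn t) := by
  refine ⟨fun F hF => hF.1, ?_⟩
  rintro F ⟨_, hFt⟩ G hG hne
  exact ⟨hne, hG.trans hFt⟩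

theorem star_down (t : Finset V) (z : V) : Down (star t z) := by
  refine ⟨fun F hF => hF.1, ?_⟩
  rintro F ⟨_, hFt, hn⟩ G hG hne
  exact ⟨hne, hG.trans hFt, fun h => hn (h.trans hG)⟩

theorem rep (n : ℕ) (lam : ℕ → ℕ → V) (U : ℕ) (J l l' : ℕ → List ℕ) (R : Set (Finset V)) (hR : Down R)
    (hE : ∀ k < n, Eqv U (J k) (l k) (l' k)) (hinj : ∀ k < n, Set.InjOn (lam k) (bs U))
    (hl : ∀ k < n, ∀ f ∈ l k, Nat.land f U = f) (hl' : ∀ k < n, ∀ f ∈ l' k, Nat.land f U = f)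
    (hJ : ∀ k < n, ∀ k' < n, k ≠ k' → ∀ F : Finset V, F.Nonempty → F ⊆ (bs U).image (lam k) →
      F ⊆ (bs U).image (lam k') → ∃ j ∈ J k, F ⊆ (bs j).image (lam k))
    (hRJ : ∀ k < n, ∀ F ∈ R, F ⊆ (bs U).image (lam k) → ∃ j ∈ J k, F ⊆ (bs j).image (lam k)) :
    FlipEq (uni n (fun k => cx (lam k) (l k)) ∪ R) (uni n (fun k => cx (lam k) (l' k)) ∪ R) := by
  -- the complexes of the regions lie in the region
  have hsub : ∀ k < n, ∀ F ∈ cx (lam k) (l k), F ⊆ (bs U).image (lam k) := by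
    rintro k hk F ⟨_, m, hm, hF⟩
    exact hF.trans (Finset.image_subset_image ((land_eq_iff m U).1 (hl k hk m hm)))
  have hsub' : ∀ k < n, ∀ F ∈ cx (lam k) (l' k), F ⊆ (bs U).image (lam k) := by
    rintro k hk F ⟨_, m, hm, hF⟩
    exact hF.trans (Finset.image_subset_image ((land_eq_iff m U).1 (hl' k hk m hm)))
  -- the intermediate complexes
  let K : ℕ → Set (Finset V) := fun m =>
    {F | (∃ k < m, F ∈ cx (lam k) (l' k)) ∨ (∃ k < n, m ≤ k ∧ F ∈ cx (lam k) (l k)) ∨ F ∈ R}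
  let R' : ℕ → Set (Finset V) := fun m =>
    {F | (∃ k < m, F ∈ cx (lam k) (l' k)) ∨ (∃ k < n, m < k ∧ F ∈ cx (lam k) (l k)) ∨ F ∈ R}
  have key : ∀ m, m ≤ n → FlipEq (K 0) (K m) := by
    intro m
    induction m with
    | zero => intro _; exact FlipEq.refl _
    | succ m ih =>
      intro hm
      have hmn : m < n := hm
      refine FlipEq.trans (ih hmn.le) ?_
      have e1 : K m = cx (lam m) (l m) ∪ R' m := by
        ext F
        constructor
        · rintro (⟨k, hk, hF⟩ | ⟨k, hk, hmk, hF⟩ | hF)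
          · exact Or.inr (Or.inl ⟨k, hk, hF⟩)
          · rcases Nat.eq_or_lt_of_le hmk with h | h
            · subst h
              exact Or.inl hF
            · exact Or.inr (Or.inr (Or.inl ⟨k, hk, h, hF⟩))
          · exact Or.inr (Or.inr (Or.inr hF))
        · rintro (hF | ⟨k, hk, hF⟩ | ⟨k, hk, hmk, hF⟩ | hF)
          · exact Or.inr (Or.inl ⟨m, hmn, le_rfl, hF⟩)
          · exact Or.inl ⟨k, hk, hF⟩
          · exact Or.inr (Or.inl ⟨k, hk, hmk.le, hF⟩)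
          · exact Or.inr (Or.inr hF)
      have e2 : K (m + 1) = cx (lam m) (l' m) ∪ R' m := by
        ext F
        constructor
        · rintro (⟨k, hk, hF⟩ | ⟨k, hk, hmk, hF⟩ | hF)
          · rcases Nat.eq_or_lt_of_le (Nat.lt_succ_iff.1 hk) with h | h
            · subst h
              exact Or.inl hF
            · exact Or.inr (Or.inl ⟨k, h, hF⟩)
          · exact Or.inr (Or.inr (Or.inl ⟨k, hk, hmk, hF⟩))
          · exact Or.inr (Or.inr (Or.inr hF))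
        · rintro (hF | ⟨k, hk, hF⟩ | ⟨k, hk, hmk, hF⟩ | hF)
          · exact Or.inl ⟨m, Nat.lt_succ_self m, hF⟩
          · exact Or.inl ⟨k, Nat.lt_succ_of_lt hk, hF⟩
          · exact Or.inr (Or.inl ⟨k, hk, hmk, hF⟩)
          · exact Or.inr (Or.inr hF)
      have hdown : Down (R' m) := by
        refine ⟨?_, ?_⟩
        · rintro F (⟨k, hk, hF⟩ | ⟨k, hk, hmk, hF⟩ | hF)
          · exact hF.1
          · exact hF.1
          · exact hR.1 F hF
        · rintro F (⟨k, hk, hF⟩ | ⟨k, hk, hmk, hF⟩ | hF) G hG hne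
          · exact Or.inl ⟨k, hk, (cx_down _ _).2 F hF G hG hne⟩
          · exact Or.inr (Or.inl ⟨k, hk, hmk, (cx_down _ _).2 F hF G hG hne⟩)
          · exact Or.inr (Or.inr (hR.2 F hF G hG hne))
      rw [e1, e2]
      refine hE m hmn V (lam m) (hinj m hmn) (R' m) hdown ?_
      rintro F (⟨k, hk, hF⟩ | ⟨k, hk, hmk, hF⟩ | hF) hFU
      · exact hJ m hmn k (hk.trans hmn) (Nat.ne_of_gt hk) F hF.1 hFU (hsub' k (hk.trans hmn) F hF)
      · exact hJ m hmn k hk (Nat.ne_of_lt hmk) F hF.1 hFU (hsub k hk F hF)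
      · exact hRJ m hmn F hF hFU
  have h0 : uni n (fun k => cx (lam k) (l k)) ∪ R = K 0 := by
    ext F
    constructor
    · rintro (⟨k, hk, hF⟩ | hF)
      · exact Or.inr (Or.inl ⟨k, hk, Nat.zero_le k, hF⟩)
      · exact Or.inr (Or.inr hF)
    · rintro (⟨k, hk, hF⟩ | ⟨k, hk, hmk, hF⟩ | hF)
      · exact absurd hk (Nat.not_lt_zero k)
      · exact Or.inl ⟨k, hk, hF⟩
      · exact Or.inr hF
  have hn : uni n (fun k => cx (lam k) (l' k)) ∪ R = K n := by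
    ext F
    constructor
    · rintro (⟨k, hk, hF⟩ | hF)
      · exact Or.inl ⟨k, hk, hF⟩
      · exact Or.inr (Or.inr hF)
    · rintro (⟨k, hk, hF⟩ | ⟨k, hk, hmk, hF⟩ | hF)
      · exact Or.inl ⟨k, hk, hF⟩
      · exact absurd hk (Nat.not_lt.2 hmk)
      · exact Or.inr hF
  rw [h0, hn]
  exact key n le_rfl

end Pool.Agent.MP_455d73_gt.CS
end

section

/-!
TASK Z1 (medium): the reduction of the beads.

`rep` with `n = w.length`, `lam = lamB`, `U = 2 ^ 2393 - 1`, `J k = [2 ^ 52 - 1, 2 ^ 104 - 2 ^ 52]`, `l k = beadL (kd w k)`, `l' k = finB (kd w k)`, `R` = the rest of `Q0 w` (collars). `bs U = range 2393` (`bs_pow_sub` with `a = 0`). `hinj`: `lamB k s = (k, s)`. `hl`: `kf_beadL`, `hl'`: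
`kf_finB`, `allIn_spec`. `hJ`: the images of `lamB k`, `lamB k'` are disjoint for `k ≠ k'` and `F` is nonempty. `hRJ`: `F ∈ R`, `F ⊆ (range 2393).image (lamB k)`, `k < n`:
 `F ∈ cx (lamS k') (dcL r)`: `F ⊆ (bs m).image (lamS k')` with `m` in one of the two masks of `kf_dcL`: so all vertices of `F` are of the form `lamS k' s` with `s < 52` or `106 ≤ s < 158`, or all with `52 ≤ s < 104` or `106 ≤ s < 158`. Those with
 `s ≥ 106` are `(k', 10000 + …)`, not in the bead. So `F ⊆ {(k', s) : s < 52}` or `F ⊆ {(k' + 1, s) : 52 ≤ s < 104}`; in the first case `k = k'` and `j = 2 ^ 52 - 1` works, in the second case `k = k' + 1`, `j = 2 ^ 104 - 2 ^ 52` (`bs_pow_sub`).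
 `F ∈ cx lamI fiL`: `kf_fiL`: vertices `lamI s`, `52 ≤ s < 104` or `158 ≤ s < 210` (then `(0, 30000 + …)`, impossible): `k = 0`, `j = 2 ^ 104 - 2 ^ 52`. `F ∈ cx (lamO n) foL`: `kf_foL`: vertices `lamO n s = (n - 1, s)`, `s < 52` or `(n - 1, 20000 + …)`:
 `j = 2 ^ 52 - 1`.
The digits of the sum masks, e.g. `bs (2 ^ 52 - 1 + (2 ^ 158 - 2 ^ 106)) = range 52 ∪ Ico 106 158`: `add_eq_lor` (the `Nat.land` is `0` by `decide +kernel`), `bs_lor`, `bs_pow_sub`.
-/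

set_option autoImplicit false

open Finset
open scoped Classical

namespace Pool.Agent.MP_455d73_gt.CS

open K

private theorem Z1_gen {V : Type} (lam : ℕ → V) (m : ℕ) (F : Finset V) (h : F ⊆ (bs m).image lam) :
    ∀ x ∈ F, ∃ s ∈ bs m, lam s = x := fun _ hx => Finset.mem_image.1 (h hx)

private theorem Z1_gen' {V : Type} (lam : ℕ → V) (m : ℕ) (F : Finset V) (h : ∀ x ∈ F, ∃ s ∈ bs m, lam s = x) :
    F ⊆ (bs m).image lam := fun x hx => Finset.mem_image.2 (h x hx)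

private theorem Z1_mem {V : Type} (lam : ℕ → V) (l : List ℕ) (F : Finset V) (h : F ∈ cx lam l) :
    ∃ m ∈ l, ∀ x ∈ F, ∃ s ∈ bs m, lam s = x := by
  obtain ⟨_, m, hm, hsub⟩ := h
  exact ⟨m, hm, Z1_gen lam m F hsub⟩

private theorem Z1_bs_add (x y : ℕ) (h : Nat.land x y = 0) : bs (x + y) = bs x ∪ bs y := by
  have h1 : Nat.add x y = Nat.lor x y := add_eq_lor x y h
  have h2 : x + y = Nat.lor x y := h1
  rw [h2, bs_lor]

private theorem Z1_bs_one (b : ℕ) : bs (2 ^ b - 1) = range b := by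
  have h := bs_pow_sub 0 b (Nat.zero_le b)
  rw [pow_zero] at h
  rw [h, Finset.range_eq_Ico]

private theorem Z1_m1 : bs (2 ^ 52 - 1 + (2 ^ 158 - 2 ^ 106)) = range 52 ∪ Ico 106 158 := by
  rw [Z1_bs_add _ _ (by decide +kernel), Z1_bs_one, bs_pow_sub 106 158 (by omega)]

private theorem Z1_m2 : bs (2 ^ 104 - 2 ^ 52 + (2 ^ 158 - 2 ^ 106)) = Ico 52 104 ∪ Ico 106 158 := by
  rw [Z1_bs_add _ _ (by decide +kernel), bs_pow_sub 52 104 (by omega), bs_pow_sub 106 158 (by omega)]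

private theorem Z1_m3 : bs (2 ^ 104 - 2 ^ 52 + (2 ^ 210 - 2 ^ 158)) = Ico 52 104 ∪ Ico 158 210 := by
  rw [Z1_bs_add _ _ (by decide +kernel), bs_pow_sub 52 104 (by omega), bs_pow_sub 158 210 (by omega)]

private theorem Z1_dc (k k' : ℕ) (r : Bool) (F : Finset (ℕ × ℕ)) (hF : F ∈ cx (lamS k') (dcL r))
    (hb : ∀ x ∈ F, x.1 = k ∧ x.2 < 2393) :
    (∀ x ∈ F, x.1 = k ∧ x.2 < 52) ∨ (∀ x ∈ F, x.1 = k ∧ 52 ≤ x.2 ∧ x.2 < 104) := by
  obtain ⟨m, hm, hsub⟩ := Z1_mem _ _ _ hF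
  rcases allIn2_spec _ _ _ (kf_dcL r) m hm with h | h
  · left
    rw [land_eq_iff, Z1_m1] at h
    intro x hx
    obtain ⟨s, hs, hsx⟩ := hsub x hx
    have hs' := h hs
    have hx' := hb x hx
    refine ⟨hx'.1, ?_⟩
    simp only [Finset.mem_union, Finset.mem_range, Finset.mem_Ico] at hs'
    rcases hs' with hs' | hs'
    · rw [← hsx]
      unfold lamS
      rw [if_pos hs']
      exact hs'
    · exfalso
      have h2 := hx'.2
      rw [← hsx] at h2
      unfold lamS at h2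
      rw [if_neg (by omega), if_neg (by omega), if_neg (by omega), if_neg (by omega)] at h2
      simp only at h2
      omega
  · right
    rw [land_eq_iff, Z1_m2] at h
    intro x hx
    obtain ⟨s, hs, hsx⟩ := hsub x hx
    have hs' := h hs
    have hx' := hb x hx
    refine ⟨hx'.1, ?_⟩
    simp only [Finset.mem_union, Finset.mem_Ico] at hs'
    rcases hs' with hs' | hs'
    · rw [← hsx]
      unfold lamS
      rw [if_neg (by omega), if_pos hs'.2]
      exact hs'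
    · exfalso
      have h2 := hx'.2
      rw [← hsx] at h2
      unfold lamS at h2
      rw [if_neg (by omega), if_neg (by omega), if_neg (by omega), if_neg (by omega)] at h2
      simp only at h2
      omega

private theorem Z1_fi (k : ℕ) (F : Finset (ℕ × ℕ)) (hF : F ∈ cx lamI fiL)
    (hb : ∀ x ∈ F, x.1 = k ∧ x.2 < 2393) : ∀ x ∈ F, x.1 = k ∧ 52 ≤ x.2 ∧ x.2 < 104 := by
  obtain ⟨m, hm, hsub⟩ := Z1_mem _ _ _ hF
  have h := allIn_spec _ _ kf_fiL m hm
  rw [land_eq_iff, Z1_m3] at h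
  intro x hx
  obtain ⟨s, hs, hsx⟩ := hsub x hx
  have hs' := h hs
  have hx' := hb x hx
  refine ⟨hx'.1, ?_⟩
  simp only [Finset.mem_union, Finset.mem_Ico] at hs'
  rcases hs' with hs' | hs'
  · rw [← hsx]
    unfold lamI
    rw [if_neg (by omega), if_pos (by omega)]
    exact hs'
  · exfalso
    have h2 := hx'.2
    rw [← hsx] at h2
    unfold lamI at h2
    rw [if_neg (by omega), if_neg (by omega)] at h2
    simp only at h2
    omega

private theorem Z1_fo (n k : ℕ) (F : Finset (ℕ × ℕ)) (hF : F ∈ cx (lamO n) foL)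
    (hb : ∀ x ∈ F, x.1 = k ∧ x.2 < 2393) : ∀ x ∈ F, x.1 = k ∧ x.2 < 52 := by
  obtain ⟨m, hm, hsub⟩ := Z1_mem _ _ _ hF
  have h := allIn_spec _ _ kf_foL m hm
  rw [land_eq_iff, Z1_m1] at h
  intro x hx
  obtain ⟨s, hs, hsx⟩ := hsub x hx
  have hs' := h hs
  have hx' := hb x hx
  refine ⟨hx'.1, ?_⟩
  simp only [Finset.mem_union, Finset.mem_range, Finset.mem_Ico] at hs'
  rcases hs' with hs' | hs'
  · rw [← hsx]
    unfold lamO
    rw [if_pos hs']
    exact hs'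
  · exfalso
    have h2 := hx'.2
    rw [← hsx] at h2
    unfold lamO at h2
    rw [if_neg (by omega), if_neg (by omega), if_neg (by omega), if_neg (by omega)] at h2
    simp only at h2
    omega

private theorem Z1_sub1 (k : ℕ) (F : Finset (ℕ × ℕ)) (h : ∀ x ∈ F, x.1 = k ∧ x.2 < 52) :
    ∀ x ∈ F, ∃ s ∈ bs (2 ^ 52 - 1), lamB k s = x := by
  intro x hx
  rw [Z1_bs_one]
  obtain ⟨h1, h2⟩ := h x hx
  refine ⟨x.2, Finset.mem_range.2 h2, ?_⟩
  unfold lamB
  rw [← h1]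

private theorem Z1_sub2 (k : ℕ) (F : Finset (ℕ × ℕ)) (h : ∀ x ∈ F, x.1 = k ∧ 52 ≤ x.2 ∧ x.2 < 104) :
    ∀ x ∈ F, ∃ s ∈ bs (2 ^ 104 - 2 ^ 52), lamB k s = x := by
  intro x hx
  rw [bs_pow_sub 52 104 (by omega)]
  obtain ⟨h1, h2⟩ := h x hx
  refine ⟨x.2, Finset.mem_Ico.2 h2, ?_⟩
  unfold lamB
  rw [← h1]

private theorem Z1_bd (U : ℕ) (hU : bs U = range 2393) (k : ℕ) (F : Finset (ℕ × ℕ))
    (h : ∀ x ∈ F, ∃ s ∈ bs U, lamB k s = x) : ∀ x ∈ F, x.1 = k ∧ x.2 < 2393 := by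
  intro x hx
  obtain ⟨s, hs, hsx⟩ := h x hx
  rw [hU] at hs
  rw [← hsx]
  exact ⟨rfl, Finset.mem_range.1 hs⟩

private theorem Z1_main (w : List (Bool × Bool)) (U : ℕ) (hU : bs U = range 2393)
    (hB : ∀ κ : Bool, Eqv U [2 ^ 52 - 1, 2 ^ 104 - 2 ^ 52] (beadL κ) (finB κ))
    (h1 : ∀ κ : Bool, ∀ f ∈ beadL κ, Nat.land f U = f) (h2 : ∀ κ : Bool, ∀ f ∈ finB κ, Nat.land f U = f) :
    FlipEq (Q0 w) (Q1 w) := by
  refine rep w.length lamB U (fun _ => [2 ^ 52 - 1, 2 ^ 104 - 2 ^ 52]) (fun k => beadL (kd w k))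
    (fun k => finB (kd w k))
    (uni (w.length - 1) (fun k => cx (lamS k) (dcL (rv w (k + 1)))) ∪ (cx lamI fiL ∪ cx (lamO w.length) foL))
    ?_ ?_ ?_ ?_ ?_ ?_ ?_
  · exact Down.union (uni_down _ _ fun k _ => cx_down _ _) (Down.union (cx_down _ _) (cx_down _ _))
  · exact fun k _ => hB (kd w k)
  · intro k _ a _ b _ hab
    exact (Prod.mk.inj hab).2
  · exact fun k _ => h1 (kd w k)
  · exact fun k _ => h2 (kd w k)
  · intro k _ k' _ hne F hF h1 h2
    exfalso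
    obtain ⟨x, hx⟩ := hF
    exact hne ((Z1_bd U hU k F (Z1_gen _ _ _ h1) x hx).1.symm.trans (Z1_bd U hU k' F (Z1_gen _ _ _ h2) x hx).1)
  · intro k _ F hF hFk
    have hb := Z1_bd U hU k F (Z1_gen _ _ _ hFk)
    rcases hF with ⟨k', _, hF⟩ | hF | hF
    · rcases Z1_dc k k' _ F hF hb with h | h
      · exact ⟨2 ^ 52 - 1, List.mem_cons_self, Z1_gen' _ _ _ (Z1_sub1 k F h)⟩
      · exact ⟨2 ^ 104 - 2 ^ 52, List.mem_cons_of_mem _ List.mem_cons_self, Z1_gen' _ _ _ (Z1_sub2 k F h)⟩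
    · exact ⟨2 ^ 104 - 2 ^ 52, List.mem_cons_of_mem _ List.mem_cons_self,
        Z1_gen' _ _ _ (Z1_sub2 k F (Z1_fi k F hF hb))⟩
    · exact ⟨2 ^ 52 - 1, List.mem_cons_self, Z1_gen' _ _ _ (Z1_sub1 k F (Z1_fo w.length k F hF hb))⟩

theorem Z1_flip (w : List (Bool × Bool)) (hw : w ≠ [])
    (hB : ∀ κ : Bool, Eqv (2 ^ 2393 - 1) [2 ^ 52 - 1, 2 ^ 104 - 2 ^ 52] (beadL κ) (finB κ)) : FlipEq (Q0 w) (Q1 w) :=
  Z1_main w (2 ^ 2393 - 1) (Z1_bs_one 2393) hB (fun κ => kf_beadL κ) (fun κ => allIn_spec _ _ (kf_finB κ))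

end Pool.Agent.MP_455d73_gt.CS
end
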