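import Pool.Agent.Lib.MP_455d73_gt.Mg.G017
import Pool.Agent.Lib.MP_455d73_gt.CS.C_cp_0
import Pool.Agent.Lib.MP_455d73_gt.CS.C_cp_1
import Pool.Agent.Lib.MP_455d73_gt.CS.C_cp_2
import Pool.Agent.Lib.MP_455d73_gt.CS.C_cp_3
import Pool.Agent.Lib.MP_455d73_gt.CS.C_cp_4
import Pool.Agent.Lib.MP_455d73_gt.CS.C_cp_5
import Pool.Agent.Lib.MP_455d73_gt.CS.C_cp_6
import Pool.Agent.Lib.MP_455d73_gt.CS.C_cp_7
import Pool.Agent.Lib.MP_455d73_gt.CS.C_cp_8
import Pool.Agent.Lib.MP_455d73_gt.CS.C_cp_9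
import Pool.Agent.Lib.MP_455d73_gt.CS.C_cp_10
import Pool.Agent.Lib.MP_455d73_gt.CS.C_cp_11
import Pool.Agent.Lib.MP_455d73_gt.CS.C_cp_12
import Pool.Agent.Lib.MP_455d73_gt.CS.C_cp_13
import Pool.Agent.Lib.MP_455d73_gt.Mg.G014
import Pool.Agent.Lib.MP_455d73_gt.Mg.G015
import Pool.Agent.Lib.MP_455d73_gt.Mg.G005
import Pool.Agent.Lib.MP_455d73_gt.CS.C_q_0
import Pool.Agent.Lib.MP_455d73_gt.CS.C_q_1
import Pool.Agent.Lib.MP_455d73_gt.CS.C_q_2
import Pool.Agent.Lib.MP_455d73_gt.CS.C_q_3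
import Pool.Agent.Lib.MP_455d73_gt.CS.C_q_4
import Pool.Agent.Lib.MP_455d73_gt.CS.C_q_5
import Pool.Agent.Lib.MP_455d73_gt.Mg.G012
import Pool.Agent.Lib.MP_455d73_gt.Mg.G013
import Pool.Agent.Lib.MP_455d73_gt.CS.C_q_10
import Pool.Agent.Lib.MP_455d73_gt.CS.C_q_11
import Pool.Agent.Lib.MP_455d73_gt.CS.C_q_12
import Pool.Agent.Lib.MP_455d73_gt.CS.C_q_13
import Pool.Agent.Lib.MP_455d73_gt.Mg.G020

section

/-!
TASK K5 (medium): soundness of the certificates.

`cx_congr`: `cx lam l = cx lam l'` if `l`, `l'` have the same elements. `Eqv.of_mem`, `Eqv.symm`, `Eqv.trans`: easy.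
`run_spec`: induction on `n`, for all `x`, `T`: `run (n+1) x T k = step U J (sumL As) (sumL Bs) As Bs T (fun T => run n x' T k)` (by `rfl`) with
`As = bits na x1`, `Bs = bits nb x3`; `step_spec`, `St.flipEq`, `St.subU`. The statement to prove by induction: if `WF T`, all facets of `T`
are in `U`, and `run U J n x T k = true`, then there is `T'` with `k T' = true`, `WF T'`, all facets of `T'` in `U`, `Eqv U J (flat T []) (flat T' [])`.
`runs`: induction on the list. `chk0_spec`: `bal_spec`, `ifNil_spec` (so `x ∈ flat T [] ↔ x ∈ l`), the check of `orT T` (`orT_spec`: `f ⊆ orT T ⊆ U`), `okJ`.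
-/

set_option autoImplicit false

open Finset
open scoped Classical

namespace Pool.Agent.MP_455d73_gt.CS

theorem cx_congr {V : Type} (lam : ℕ → V) {l l' : List ℕ} (h : ∀ x, x ∈ l ↔ x ∈ l') : cx lam l = cx lam l' := by
  ext F
  constructor
  · rintro ⟨h1, m, hm, h2⟩
    exact ⟨h1, m, (h m).1 hm, h2⟩
  · rintro ⟨h1, m, hm, h2⟩
    exact ⟨h1, m, (h m).2 hm, h2⟩

theorem Eqv.of_mem {U : ℕ} {J l l' : List ℕ} (h : ∀ x, x ∈ l ↔ x ∈ l') : Eqv U J l l' := by
  intro V lam _ R _ _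
  rw [cx_congr lam h]
  exact Relation.EqvGen.refl _

theorem Eqv.symm {U : ℕ} {J l l' : List ℕ} (h : Eqv U J l l') : Eqv U J l' l := by
  intro V lam h1 R h2 h3
  exact Relation.EqvGen.symm _ _ (h V lam h1 R h2 h3)

theorem Eqv.trans {U : ℕ} {J l l' l'' : List ℕ} (h : Eqv U J l l') (h' : Eqv U J l' l'') : Eqv U J l l'' := by
  intro V lam h1 R h2 h3
  exact Relation.EqvGen.trans _ _ _ (h V lam h1 R h2 h3) (h' V lam h1 R h2 h3)

private theorem K5_brec (X c : Bool) (h : (Bool.rec (motive := fun _ => Bool) false X c) = true) :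
    c = true ∧ X = true := by
  cases c
  · exact absurd h (by simp)
  · exact ⟨rfl, h⟩

private theorem K5_okJ (U : ℕ) (J : List ℕ) (h : K.okJ U J = true) : ∀ j ∈ J, Nat.land j U = j := by
  induction J with
  | nil => intro j hj; simp at hj
  | cons j0 J ih =>
    have h' : (Bool.rec (motive := fun _ => Bool) false (K.okJ U J) (Nat.beq (Nat.land j0 U) j0)) = true := h
    obtain ⟨h1, h2⟩ := K5_brec _ _ h'
    intro j hj
    rcases List.mem_cons.1 hj with rfl | hj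
    · exact Nat.eq_of_beq_eq_true h1
    · exact ih h2 j hj

private theorem K5_run (U : ℕ) (J : List ℕ) (hJ : J ≠ []) (hJU : ∀ j ∈ J, Nat.land j U = j) (k : K.Tr → Bool) :
    ∀ (n x : ℕ) (T : K.Tr), K.WF T → (∀ f ∈ K.flat T [], Nat.land f U = f) → K.run U J n x T k = true →
      ∃ T', k T' = true ∧ K.WF T' ∧ (∀ f ∈ K.flat T' [], Nat.land f U = f) ∧
        Eqv U J (K.flat T []) (K.flat T' []) := by
  intro n
  induction n with
  | zero =>
    intro x T hT hU h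
    exact ⟨T, h, hT, hU, Eqv.of_mem fun _ => Iff.rfl⟩
  | succ n ih =>
    intro x T hT hU h
    have h' : K.step U J (K.sumL (K.bits (Nat.mod x 4096) (Nat.div x 4096)))
        (K.sumL (K.bits (Nat.mod (Nat.div (Nat.div x 4096) (Nat.pow 4096 (Nat.mod x 4096))) 4096)
          (Nat.div (Nat.div (Nat.div x 4096) (Nat.pow 4096 (Nat.mod x 4096))) 4096)))
        (K.bits (Nat.mod x 4096) (Nat.div x 4096))
        (K.bits (Nat.mod (Nat.div (Nat.div x 4096) (Nat.pow 4096 (Nat.mod x 4096))) 4096)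
          (Nat.div (Nat.div (Nat.div x 4096) (Nat.pow 4096 (Nat.mod x 4096))) 4096)) T
        (fun T => K.run U J n (Nat.div (Nat.div (Nat.div (Nat.div x 4096) (Nat.pow 4096 (Nat.mod x 4096))) 4096)
          (Nat.pow 4096 (Nat.mod (Nat.div (Nat.div x 4096) (Nat.pow 4096 (Nat.mod x 4096))) 4096))) T k) = true := h
    obtain ⟨T1, h1, h2, h3⟩ := K.step_spec U J _ _ (K.bits_spec _ _) (K.bits_spec _ _) T hT _ h'
    have hU1 := h3.subU hU
    obtain ⟨T2, g1, g2, g3, g4⟩ := ih _ T1 h2 hU1 h1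
    refine ⟨T2, g1, g2, g3, Eqv.trans ?_ g4⟩
    intro V lam hlam R hR hRJ
    exact h3.flipEq hJ hJU hU lam hlam R hR hRJ

private theorem K5_runs (U : ℕ) (J : List ℕ) (hJ : J ≠ []) (hJU : ∀ j ∈ J, Nat.land j U = j) (k : K.Tr → Bool) :
    ∀ (ms : List (ℕ × ℕ)) (T : K.Tr), K.WF T → (∀ f ∈ K.flat T [], Nat.land f U = f) → K.runs U J ms T k = true →
      ∃ T', k T' = true ∧ K.WF T' ∧ (∀ f ∈ K.flat T' [], Nat.land f U = f) ∧
        Eqv U J (K.flat T []) (K.flat T' []) := by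
  intro ms
  induction ms with
  | nil =>
    intro T hT hU h
    exact ⟨T, h, hT, hU, Eqv.of_mem fun _ => Iff.rfl⟩
  | cons p ms ih =>
    intro T hT hU h
    obtain ⟨n, x⟩ := p
    have h' : K.run U J n x T (fun T => K.runs U J ms T k) = true := h
    obtain ⟨T1, h1, h2, h3, h4⟩ := K5_run U J hJ hJU _ n x T hT hU h'
    obtain ⟨T2, g1, g2, g3, g4⟩ := ih T1 h2 h3 h1
    exact ⟨T2, g1, g2, g3, Eqv.trans h4 g4⟩

theorem chk0_spec (U : ℕ) (J : List ℕ) (d : ℕ) (l : List ℕ) (ms : List (ℕ × ℕ)) (k : K.Tr → Bool)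
    (h : K.chk0 U J d l ms k = true) : ∃ T', k T' = true ∧ Eqv U J l (K.flat T' []) := by
  obtain ⟨T, r, h1, hT, hmem⟩ := K.bal_spec d l _ h
  obtain ⟨hr, h2⟩ := K.ifNil_spec _ _ h1
  subst hr
  obtain ⟨h3, h4⟩ := K5_brec _ _ h2
  obtain ⟨h5, h6⟩ := K5_brec _ _ h4
  have hJU := K5_okJ U J h5
  have hor : Nat.land (K.orT T) U = K.orT T := Nat.eq_of_beq_eq_true h3
  have hU : ∀ f ∈ K.flat T [], Nat.land f U = f := by
    intro f hf
    have e1 : Nat.land f (K.orT T) = f := K.orT_spec T hT f hf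
    have e2 : (f &&& K.orT T) &&& U = f &&& (K.orT T &&& U) := Nat.and_assoc _ _ _
    have e1' : f &&& K.orT T = f := e1
    have hor' : K.orT T &&& U = K.orT T := hor
    rw [e1', hor', e1'] at e2
    exact e2
  have hfl : ∀ x, x ∈ l ↔ x ∈ K.flat T [] := fun x => by
    rw [← hmem x]; simp
  cases J with
  | nil => exact absurd h6 (by simp)
  | cons j0 J0 =>
    have h7 : K.runs U (j0 :: J0) ms T k = true := h6
    obtain ⟨T', g1, -, -, g4⟩ := K5_runs U (j0 :: J0) (by simp) hJU k ms T hT hU h7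
    exact ⟨T', g1, Eqv.trans (Eqv.of_mem hfl) g4⟩

theorem chk_spec (U : ℕ) (J : List ℕ) (d : ℕ) (l : List ℕ) (ms : List (ℕ × ℕ)) (l' : List ℕ)
    (h : K.chk U J d l ms l' = true) : Eqv U J l l' := by
  obtain ⟨T', h1, h2⟩ := chk0_spec U J d l ms _ h
  have h3 : K.flat T' [] = l' := K.eqL_spec _ _ h1
  rw [h3] at h2
  exact h2

theorem chkS_spec (U : ℕ) (J : List ℕ) (d : ℕ) (l : List ℕ) (ms : List (ℕ × ℕ)) (l' : List ℕ)
    (h : K.chkS U J d l ms l' = true) : Eqv U J l l' := by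
  obtain ⟨T', h1, h2⟩ := chk0_spec U J d l ms _ h
  obtain ⟨h3, h4⟩ := K5_brec _ _ h1
  exact Eqv.trans h2 (Eqv.of_mem fun x => ⟨K.subL_spec _ _ h3 x, K.subL_spec _ _ h4 x⟩)

end Pool.Agent.MP_455d73_gt.CS
end

section

/-!
Campaign CS: the equivalences given by the certificates.
-/

set_option autoImplicit false
set_option maxRecDepth 1000000

namespace Pool.Agent.MP_455d73_gt.CS

open K

theorem Ct_bead_cp : Eqv (2 ^ 2393 - 1) [2 ^ 52 - 1, 2 ^ 104 - 2 ^ 52] (beadL true) (finB true) :=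
  (chk_spec _ _ _ _ _ _ C_cp_0).trans (
  (chk_spec _ _ _ _ _ _ C_cp_1).trans (
  (chk_spec _ _ _ _ _ _ C_cp_2).trans (
  (chk_spec _ _ _ _ _ _ C_cp_3).trans (
  (chk_spec _ _ _ _ _ _ C_cp_4).trans (
  (chk_spec _ _ _ _ _ _ C_cp_5).trans (
  (chk_spec _ _ _ _ _ _ C_cp_6).trans (
  (chk_spec _ _ _ _ _ _ C_cp_7).trans (
  (chk_spec _ _ _ _ _ _ C_cp_8).trans (
  (chk_spec _ _ _ _ _ _ C_cp_9).trans (
  (chk_spec _ _ _ _ _ _ C_cp_10).trans (
  (chk_spec _ _ _ _ _ _ C_cp_11).trans (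
  (chk_spec _ _ _ _ _ _ C_cp_12).trans (
  chkS_spec _ _ _ _ _ _ C_cp_13)))))))))))))

theorem Ct_bead_q : Eqv (2 ^ 2393 - 1) [2 ^ 52 - 1, 2 ^ 104 - 2 ^ 52] (beadL false) (finB false) :=
  (chk_spec _ _ _ _ _ _ C_q_0).trans (
  (chk_spec _ _ _ _ _ _ C_q_1).trans (
  (chk_spec _ _ _ _ _ _ C_q_2).trans (
  (chk_spec _ _ _ _ _ _ C_q_3).trans (
  (chk_spec _ _ _ _ _ _ C_q_4).trans (
  (chk_spec _ _ _ _ _ _ C_q_5).trans (
  (chk_spec _ _ _ _ _ _ C_q_6).trans (
  (chk_spec _ _ _ _ _ _ C_q_7).trans (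
  (chk_spec _ _ _ _ _ _ C_q_8).trans (
  (chk_spec _ _ _ _ _ _ C_q_9).trans (
  (chk_spec _ _ _ _ _ _ C_q_10).trans (
  (chk_spec _ _ _ _ _ _ C_q_11).trans (
  (chk_spec _ _ _ _ _ _ C_q_12).trans (
  chkS_spec _ _ _ _ _ _ C_q_13)))))))))))))

theorem bead_eqv (κ : Bool) : Eqv (2 ^ 2393 - 1) [2 ^ 52 - 1, 2 ^ 104 - 2 ^ 52] (beadL κ) (finB κ) := by
  cases κ
  · exact Ct_bead_q
  · exact Ct_bead_cp

theorem shell_eqv (κ r : Bool) : Eqv (2 ^ 158 - 1) [mO, mI' κ] (shL κ r) (tbL κ r) := by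
  cases κ <;> cases r
  · exact chkS_spec _ _ _ _ _ _ S_q_0
  · exact chkS_spec _ _ _ _ _ _ S_q_1
  · exact chkS_spec _ _ _ _ _ _ S_cp_0
  · exact chkS_spec _ _ _ _ _ _ S_cp_1

theorem endI_eqv (κ : Bool) : Eqv (2 ^ 210 - 1) [mI κ] (eiL κ) (siL κ) := by
  cases κ
  · exact chkS_spec _ _ _ _ _ _ E_q
  · exact chkS_spec _ _ _ _ _ _ E_cp

theorem endO_eqv : Eqv (2 ^ 210 - 1) [mO] eoL soL := chkS_spec _ _ _ _ _ _ E_o

theorem start_eqv (κ : Bool) : Eqv (2 ^ 32 - 1) [992] (xtL κ) (sxL κ) := by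
  cases κ
  · exact chkS_spec _ _ _ _ _ _ X_q
  · exact chkS_spec _ _ _ _ _ _ X_cp

theorem abs_eqv (κ : Bool) : Eqv (2 ^ 32 - 1) [31, 992] (appR (tuA κ) (yA κ)) (tA κ) := by
  cases κ
  · exact (chkS_spec _ _ _ _ _ _ A_q).trans (chkS_spec _ _ _ _ _ _ A_t).symm
  · exact chkS_spec _ _ _ _ _ _ A_cp

end Pool.Agent.MP_455d73_gt.CS
end

section

/-!
TASK Sg1 (easy): the maps `sgf w i` are involutions of the set of chambers.

`sgf_mem`: unfold `sgf`, `split_ifs`. Case `i = 5`, `isOut`: `gl_spec`, `fo_spec` for the bound `200`; the first coordinate is `x.1 + 1 < n` or `x.1`. Case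
`i = 5`, `isIn`: `gi_spec`, `fi_spec`. Otherwise `rr_lt` (if `i = 5` both `isOut x.2`, `isIn x.2` are `false`).
`sgf_sgf`: the same cases: e.g. `i = 5`, `isOut x.2`, `x.1 + 1 < n`: the image is `(x.1 + 1, gl r x.2)` with `r = rv w (x.1 + 1)`, `isIn (gl r x.2)`, so
`isOut (gl r x.2) = false` (`port_disj`) and the second application gives `(x.1 + 1 - 1, gi r (gl r x.2)) = x`. Last case: `rr_rr`, and for `i = 5`
`rr5_port`, for the other `i` the tests `i = 5` fail.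
-/

set_option autoImplicit false

namespace Pool.Agent.MP_455d73_gt.CS

open K

private theorem Sg1_out (w : List (Bool × Bool)) (k c : ℕ) (ho : isOut c = true) (hk : k + 1 < w.length) :
    sgf w 5 (k, c) = (k + 1, gl (rv w (k + 1)) c) := by
  unfold sgf
  rw [if_pos ⟨rfl, ho⟩, if_pos hk]

private theorem Sg1_out' (w : List (Bool × Bool)) (k c : ℕ) (ho : isOut c = true) (hk : ¬ k + 1 < w.length) :
    sgf w 5 (k, c) = (k, fo c) := by
  unfold sgf
  rw [if_pos ⟨rfl, ho⟩, if_neg hk]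

private theorem Sg1_in (w : List (Bool × Bool)) (k c : ℕ) (hc : c < 200) (hi : isIn c = true) (hk : k = 0) :
    sgf w 5 (k, c) = (0, fi c) := by
  unfold sgf
  rw [if_neg (fun h => by
    have h1 := h.2
    simp only [port_disj c hc hi] at h1
    exact Bool.false_ne_true h1), if_pos ⟨rfl, hi⟩, if_pos hk]

private theorem Sg1_in' (w : List (Bool × Bool)) (k c : ℕ) (hc : c < 200) (hi : isIn c = true) (hk : ¬ k = 0) :
    sgf w 5 (k, c) = (k - 1, gi (rv w k) c) := by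
  unfold sgf
  rw [if_neg (fun h => by
    have h1 := h.2
    simp only [port_disj c hc hi] at h1
    exact Bool.false_ne_true h1), if_pos ⟨rfl, hi⟩, if_neg hk]

private theorem Sg1_rr (w : List (Bool × Bool)) (i k c : ℕ) (h : i = 5 → isIn c = false ∧ isOut c = false) :
    sgf w i (k, c) = (k, rr (kd w k) i c) := by
  unfold sgf
  rw [if_neg (fun h' => by
    have h1 := h'.2
    simp only [(h h'.1).2] at h1
    exact Bool.false_ne_true h1), if_neg (fun h' => by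
    have h1 := h'.2
    simp only [(h h'.1).1] at h1
    exact Bool.false_ne_true h1)]

theorem sgf_mem (w : List (Bool × Bool)) (i : ℕ) (hi : i < 7) (x : ℕ × ℕ) (hx : x.1 < w.length ∧ x.2 < 200) :
    (sgf w i x).1 < w.length ∧ (sgf w i x).2 < 200 := by
  obtain ⟨k, c⟩ := x
  obtain ⟨hk, hc⟩ := hx
  have hk' : k < w.length := hk
  have hc' : c < 200 := hc
  by_cases h5 : i = 5
  · subst h5
    by_cases ho : isOut c = true
    · obtain ⟨g1, g2, g3⟩ := gl_spec (rv w (k + 1)) c hc' ho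
      obtain ⟨f1, f2, f3⟩ := fo_spec c hc' ho
      by_cases hl : k + 1 < w.length
      · rw [Sg1_out w k c ho hl]
        exact ⟨hl, g1⟩
      · rw [Sg1_out' w k c ho hl]
        exact ⟨hk', f1⟩
    · by_cases hin : isIn c = true
      · obtain ⟨g1, g2, g3⟩ := gi_spec (rv w k) c hc' hin
        obtain ⟨f1, f2, f3⟩ := fi_spec c hc' hin
        by_cases h0 : k = 0
        · rw [Sg1_in w k c hc' hin h0]
          exact ⟨by omega, f1⟩
        · rw [Sg1_in' w k c hc' hin h0]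
          exact ⟨by omega, g1⟩
      · have hp : (5 : ℕ) = 5 → isIn c = false ∧ isOut c = false := fun _ =>
          ⟨Bool.eq_false_iff.2 hin, Bool.eq_false_iff.2 ho⟩
        rw [Sg1_rr w 5 k c hp]
        exact ⟨hk', rr_lt _ _ _ hi hc' hp⟩
  · have hp : i = 5 → isIn c = false ∧ isOut c = false := fun h => absurd h h5
    rw [Sg1_rr w i k c hp]
    exact ⟨hk', rr_lt _ _ _ hi hc' hp⟩

theorem sgf_sgf (w : List (Bool × Bool)) (i : ℕ) (hi : i < 7) (x : ℕ × ℕ) (hx : x.1 < w.length ∧ x.2 < 200) :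
    sgf w i (sgf w i x) = x := by
  obtain ⟨k, c⟩ := x
  obtain ⟨hk, hc⟩ := hx
  have hk' : k < w.length := hk
  have hc' : c < 200 := hc
  by_cases h5 : i = 5
  · subst h5
    by_cases ho : isOut c = true
    · obtain ⟨g1, g2, g3⟩ := gl_spec (rv w (k + 1)) c hc' ho
      obtain ⟨f1, f2, f3⟩ := fo_spec c hc' ho
      by_cases hl : k + 1 < w.length
      · rw [Sg1_out w k c ho hl, Sg1_in' w (k + 1) _ g1 g2 (Nat.succ_ne_zero k), g3, Nat.add_sub_cancel]
      · rw [Sg1_out' w k c ho hl, Sg1_out' w k _ f2 hl, f3]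
    · by_cases hin : isIn c = true
      · obtain ⟨g1, g2, g3⟩ := gi_spec (rv w k) c hc' hin
        obtain ⟨f1, f2, f3⟩ := fi_spec c hc' hin
        by_cases h0 : k = 0
        · rw [Sg1_in w k c hc' hin h0, Sg1_in w 0 _ f1 f2 rfl, f3, h0]
        · have hk1 : k - 1 + 1 = k := by omega
          rw [Sg1_in' w k c hc' hin h0, Sg1_out w (k - 1) _ g2 (by omega), hk1, g3]
      · have hp : (5 : ℕ) = 5 → isIn c = false ∧ isOut c = false := fun _ =>
          ⟨Bool.eq_false_iff.2 hin, Bool.eq_false_iff.2 ho⟩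
        rw [Sg1_rr w 5 k c hp, Sg1_rr w 5 k _ (fun _ => rr5_port _ _ hc' (hp rfl)),
          rr_rr _ _ _ hi hc' hp]
  · have hp : i = 5 → isIn c = false ∧ isOut c = false := fun h => absurd h h5
    have hp' : ∀ d : ℕ, i = 5 → isIn d = false ∧ isOut d = false := fun d h => absurd h h5
    rw [Sg1_rr w i k c hp, Sg1_rr w i k _ (hp' _), rr_rr _ _ _ hi hc' hp]

end Pool.Agent.MP_455d73_gt.CS
end

section

/-!
Campaign CS: the involutions of the set of chambers (definition).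
-/

set_option autoImplicit false

namespace Pool.Agent.MP_455d73_gt.CS

noncomputable section

/-- The involutions of the set of chambers. -/
def sg (w : List (Bool × Bool)) (i : Fin 7) : Equiv.Perm (Ch w) where
  toFun x := ⟨sgf w i x.1, sgf_mem w i i.2 x.1 x.2⟩
  invFun x := ⟨sgf w i x.1, sgf_mem w i i.2 x.1 x.2⟩
  left_inv x := Subtype.ext (sgf_sgf w i i.2 x.1 x.2)
  right_inv x := Subtype.ext (sgf_sgf w i i.2 x.1 x.2)

@[simp] theorem sg_coe (w : List (Bool × Bool)) (i : Fin 7) (x : Ch w) : (sg w i x).1 = sgf w i x.1 := rfl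

/-- The first chamber. -/
def x0 (w : List (Bool × Bool)) (hw : w ≠ []) : Ch w := ⟨(0, 0), List.length_pos_iff.mpr hw, by norm_num⟩

instance (w : List (Bool × Bool)) : Finite (Ch w) := by
  refine Finite.of_injective (fun x : Ch w => ((⟨x.1.1, x.2.1⟩, ⟨x.1.2, x.2.2⟩) : Fin w.length × Fin 200)) ?_
  intro x y h
  simp only [Prod.mk.injEq, Fin.mk.injEq] at h
  exact Subtype.ext (Prod.ext h.1 h.2)

instance (w : List (Bool × Bool)) : Fintype (Ch w) := Fintype.ofFinite _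

end

end Pool.Agent.MP_455d73_gt.CS
end
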