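import Pool.Agent.Lib.MP_455d73_gt.Mg.G024
import Pool.Agent.Lib.MP_455d73_gt.Mg.G018
import Pool.Agent.Lib.MP_455d73_gt.CS.H2
import Pool.Agent.Lib.MP_455d73_gt.CS.Cd2
import Pool.Agent.Lib.MP_455d73_gt.Mg.G023

section

/-!
TASK G4 (medium): the faces of the polytope.

`gR.al i k = Lc i * Lf i (√φ • k)` (`al_ge`, by `rfl`-unfolding of `CX.al`, `gR`), `Lc i > 0`. So with `q = √φ • k`: `k ∈ gR.P1 ↔ ∀ i, 0 ≤ Lf i q`, and
`gR.act k = {i | Lf i q = 0}`; every `q` is of the form `√φ • k`.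
`⊇` (every `a ∈ faceL` gives a face): the vertices `Vx j` satisfy `0 ≤ Lf i (Vx j)`, with `Lf i (Vx j) = 0 ↔ (Vm j).testBit i` (77 values, all in `ℚ + ℚ φ`, by
`fin_cases`, `φ ^ 2 = φ + 1`, `1.618 < φ < 1.619`). For `a ∈ faceL` let `J = {j | Nat.land a (Vm j) = a}` (nonempty) and `q` the average of `Vx j`, `j ∈ J` (the functions `Lf i` are affine:
`Lf i q` is the average of the `Lf i (Vx j)`), so `Lf i q ≥ 0`, and `Lf i q = 0` iff `(Vm j).testBit i` for all `j ∈ J` iff `a.testBit i` (the intersection of the `Vm j`, `j ∈ J`, is `a`: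
`decide +kernel` over `faceL`).
`⊆`: let `k ∈ P1`, `q = √φ • k`, `A = act k`, `a = ∑_{i ∈ A} 2^i < 128`, `A = fs a`. The mask `a` contains none of the five sets `{0,5}`, `{2,6}`, `{5,6}`, `{1,2,3,4}`, `{0,1,3,4}`:
from `Lf 2 ≥ 0`, `q 2 ≥ 0`: `q 3 ≤ 1`; from `Lf 4 ≥ 0`: `q 0 ≤ 1`, `q 2 ≤ 1`. `{0,5}`: `q 0 = 0`, `q 0 + q 3 = φ`: `q 3 = φ > 1`. `{2,6}`: `q 3 = 0`, `q 2 = φ > 1`. `{5,6}`: `q 0 = φ > 1`. `{1,2,3,4}`: `q 1 = q 2 = 0`,
`q 3 = 1`, `q 0 = 1`, `q 0 + q 3 = 2 > φ`. `{0,1,3,4}`: `0 = 1`. And (`decide +kernel`): every `a < 128` containing none of the five masks `33, 68, 96, 30, 27` is in `faceL`.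
-/

set_option autoImplicit false
set_option maxRecDepth 1000000

open Finset
open scoped goldenRatio

namespace Pool.Agent.MP_455d73_gt.CS

private theorem G4_phi : 1.618 < φ ∧ φ < 1.619 := by
  have h5 : √(5 : ℝ) ^ 2 = 5 := Real.sq_sqrt (by norm_num)
  have h0 : 0 ≤ √(5 : ℝ) := Real.sqrt_nonneg 5
  have e : φ = (1 + √5) / 2 := rfl
  rw [e]
  constructor
  · nlinarith
  · nlinarith

private theorem G4_tab (i : Fin 7) (j : Fin 11) :
    (Nat.testBit (Vm j) i = true → Lf i (Vx j) = 0) ∧ (Nat.testBit (Vm j) i = false → 0 < Lf i (Vx j)) := by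
  have hp : φ ^ 2 = φ + 1 := Real.goldenRatio_sq
  obtain ⟨h1, h2⟩ := G4_phi
  generalize hφ : φ = p at hp h1 h2
  fin_cases i <;> fin_cases j
  all_goals
    first
    | refine ⟨fun _ => ?_, fun h => absurd h (by decide)⟩
      simp only [Lf, Vx, Fin.isValue, Fin.zero_eta, Fin.mk_one, Fin.reduceFinMk, Matrix.cons_val,
        Matrix.cons_val_zero, Matrix.cons_val_one, hφ]
      all_goals linarith
    | refine ⟨fun h => absurd h (by decide), fun _ => ?_⟩
      simp only [Lf, Vx, Fin.isValue, Fin.zero_eta, Fin.mk_one, Fin.reduceFinMk, Matrix.cons_val,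
        Matrix.cons_val_zero, Matrix.cons_val_one, hφ]
      all_goals linarith

private theorem G4_aff (i : Fin 7) : ∃ (c : ℝ) (a : Fin 4 → ℝ), ∀ q, Lf i q = c + ∑ t, a t * q t := by
  fin_cases i
  · exact ⟨0, ![1, 0, 0, 0], fun q => by simp [Lf, Fin.sum_univ_four]⟩
  · exact ⟨0, ![0, 1, 0, 0], fun q => by simp [Lf, Fin.sum_univ_four]⟩
  · exact ⟨φ, ![0, 0, -1, -φ], fun q => by simp [Lf, Fin.sum_univ_four]; ring⟩
  · exact ⟨0, ![0, 0, 1, 0], fun q => by simp [Lf, Fin.sum_univ_four]⟩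
  · exact ⟨1, ![-1, -φ, -1, 0], fun q => by simp [Lf, Fin.sum_univ_four]; ring⟩
  · exact ⟨φ, ![-1, 0, 0, -1], fun q => by simp [Lf, Fin.sum_univ_four]; ring⟩
  · exact ⟨0, ![0, 0, 0, 1], fun q => by simp [Lf, Fin.sum_univ_four]⟩

private theorem G4_avg (J : Finset (Fin 11)) (hJ : J.Nonempty) (i : Fin 7) :
    Lf i (fun t => (∑ j ∈ J, Vx j t) / J.card) = (∑ j ∈ J, Lf i (Vx j)) / J.card := by
  obtain ⟨c, a, h⟩ := G4_aff i
  have hc : (J.card : ℝ) ≠ 0 := by
    have := hJ.card_pos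
    positivity
  rw [h, eq_div_iff hc, add_mul, Finset.sum_mul]
  have e1 : ∀ t : Fin 4, a t * ((∑ j ∈ J, Vx j t) / J.card) * J.card = ∑ j ∈ J, a t * Vx j t := by
    intro t
    rw [mul_assoc, div_mul_cancel₀ _ hc, Finset.mul_sum]
  simp only [e1]
  rw [Finset.sum_comm]
  have e2 : ∀ j ∈ J, Lf i (Vx j) = c + ∑ t, a t * Vx j t := fun j _ => h (Vx j)
  rw [Finset.sum_congr rfl e2, Finset.sum_add_distrib, Finset.sum_const, nsmul_eq_mul, mul_comm c]

private theorem G4_al (i : Fin 7) (k : Fin 4 → ℝ) : gR.al i k = Lc i * Lf i (√φ • k) := by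
  have e : gR.al i k = (ge i).2 - ∑ j, k j * (ge i).1 j := rfl
  rw [e, al_ge]

private theorem G4_nonneg (i : Fin 7) (k : Fin 4 → ℝ) : 0 ≤ gR.al i k ↔ 0 ≤ Lf i (√φ • k) := by
  rw [G4_al]
  exact mul_nonneg_iff_of_pos_left (Lc_pos i)

private theorem G4_zero (i : Fin 7) (k : Fin 4 → ℝ) : gR.al i k = 0 ↔ Lf i (√φ • k) = 0 := by
  rw [G4_al, mul_eq_zero]
  constructor
  · rintro (h | h)
    · exact absurd h (Lc_pos i).ne'
    · exact h
  · exact Or.inr

private theorem G4_dec1 : ∀ a ∈ K.faceL, (∃ j : Fin 11, Nat.land a (Vm j) = a) ∧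
    ∀ i : Fin 7, ((∀ j : Fin 11, Nat.land a (Vm j) = a → Nat.testBit (Vm j) i = true) ↔ Nat.testBit a i = true) := by
  decide +kernel

private theorem G4_dec2' : ∀ a < 128, ((Nat.testBit a 0 && Nat.testBit a 5) || (Nat.testBit a 2 && Nat.testBit a 6) ||
    (Nat.testBit a 5 && Nat.testBit a 6) ||
    (Nat.testBit a 1 && Nat.testBit a 2 && Nat.testBit a 3 && Nat.testBit a 4) ||
    (Nat.testBit a 0 && Nat.testBit a 1 && Nat.testBit a 3 && Nat.testBit a 4)) = true ∨ a ∈ K.faceL := by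
  decide +kernel

private theorem G4_dec2 (a : ℕ) (ha : a < 128) (h1 : ¬ (Nat.testBit a 0 = true ∧ Nat.testBit a 5 = true))
    (h2 : ¬ (Nat.testBit a 2 = true ∧ Nat.testBit a 6 = true))
    (h3 : ¬ (Nat.testBit a 5 = true ∧ Nat.testBit a 6 = true))
    (h4 : ¬ (Nat.testBit a 1 = true ∧ Nat.testBit a 2 = true ∧ Nat.testBit a 3 = true ∧ Nat.testBit a 4 = true))
    (h5 : ¬ (Nat.testBit a 0 = true ∧ Nat.testBit a 1 = true ∧ Nat.testBit a 3 = true ∧ Nat.testBit a 4 = true)) :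
    a ∈ K.faceL := by
  rcases G4_dec2' a ha with h | h
  · exfalso
    simp only [Bool.or_eq_true, Bool.and_eq_true] at h
    rcases h with (((⟨x, y⟩ | ⟨x, y⟩) | ⟨x, y⟩) | ⟨⟨⟨x, y⟩, z⟩, t⟩) | ⟨⟨⟨x, y⟩, z⟩, t⟩
    · exact h1 ⟨x, y⟩
    · exact h2 ⟨x, y⟩
    · exact h3 ⟨x, y⟩
    · exact h4 ⟨x, y, z, t⟩
    · exact h5 ⟨x, y, z, t⟩
  · exact h

private theorem G4_dec3 : ∀ b : Fin 7 → Bool, ∃ a < 128, ∀ i : Fin 7, Nat.testBit a i = b i := by
  decide +kernel

theorem gR_faces : gR.faces = {A | ∃ a ∈ K.faceL, A = fs a} := by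
  classical
  have hpos : 0 < φ := Real.goldenRatio_pos
  have hs : √φ ≠ 0 := (Real.sqrt_pos.2 hpos).ne'
  obtain ⟨hφ1, hφ2⟩ := G4_phi
  ext A
  constructor
  · rintro ⟨k, hk, rfl⟩
    set q : Fin 4 → ℝ := √φ • k with hq
    have h : ∀ i, 0 ≤ Lf i q := fun i => (G4_nonneg i k).1 (hk i)
    obtain ⟨a, ha, hab⟩ := G4_dec3 (fun i => decide (Lf i q = 0))
    have hb : ∀ i : Fin 7, Nat.testBit a i = true ↔ Lf i q = 0 := by
      intro i
      rw [hab i, decide_eq_true_eq]
    have l0 : Lf 0 q = q 0 := rfl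
    have l1 : Lf 1 q = q 1 := rfl
    have l2 : Lf 2 q = φ - q 2 - φ * q 3 := rfl
    have l3 : Lf 3 q = q 2 := rfl
    have l4 : Lf 4 q = 1 - q 0 - φ * q 1 - q 2 := rfl
    have l5 : Lf 5 q = φ - q 0 - q 3 := rfl
    have l6 : Lf 6 q = q 3 := rfl
    have h0 := h 0
    have h1 := h 1
    have h2 := h 2
    have h3 := h 3
    have h4 := h 4
    have h5 := h 5
    have h6 := h 6
    rw [l0] at h0
    rw [l1] at h1
    rw [l2] at h2
    rw [l3] at h3
    rw [l4] at h4
    rw [l5] at h5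
    rw [l6] at h6
    have m1 : 0 ≤ φ * q 1 := mul_nonneg hpos.le h1
    have b3 : q 3 ≤ 1 := by
      by_contra hlt
      push Not at hlt
      have : φ * 1 < φ * q 3 := mul_lt_mul_of_pos_left hlt hpos
      linarith
    refine ⟨a, G4_dec2 a ha ?_ ?_ ?_ ?_ ?_, ?_⟩
    · rintro ⟨x, y⟩
      have x' := (hb 0).1 x
      have y' := (hb 5).1 y
      rw [l0] at x'
      rw [l5] at y'
      linarith
    · rintro ⟨x, y⟩
      have x' := (hb 2).1 x
      have y' := (hb 6).1 y
      rw [l2] at x'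
      rw [l6] at y'
      rw [y', mul_zero] at x'
      linarith
    · rintro ⟨x, y⟩
      have x' := (hb 5).1 x
      have y' := (hb 6).1 y
      rw [l5] at x'
      rw [l6] at y'
      linarith
    · rintro ⟨x, y, z, t⟩
      have x' := (hb 1).1 x
      have y' := (hb 2).1 y
      have z' := (hb 3).1 z
      have t' := (hb 4).1 t
      rw [l1] at x'
      rw [l2] at y'
      rw [l3] at z'
      rw [l4] at t'
      rw [x', mul_zero] at t'
      have b3' : φ * q 3 = φ * 1 := by linarith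
      have b4 : q 3 = 1 := mul_left_cancel₀ hpos.ne' b3'
      linarith
    · rintro ⟨x, y, z, t⟩
      have x' := (hb 0).1 x
      have y' := (hb 1).1 y
      have z' := (hb 3).1 z
      have t' := (hb 4).1 t
      rw [l0] at x'
      rw [l1] at y'
      rw [l3] at z'
      rw [l4] at t'
      rw [y', mul_zero] at t'
      linarith
    · ext i
      have e1 : i ∈ gR.act k ↔ gR.al i k = 0 := Iff.rfl
      have e2 : i ∈ fs a ↔ Nat.testBit a i = true := Iff.rfl
      rw [e1, e2, G4_zero, hb]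
  · rintro ⟨a, ha, rfl⟩
    obtain ⟨⟨j0, hj0⟩, hi⟩ := G4_dec1 a ha
    set J : Finset (Fin 11) := Finset.univ.filter (fun j => Nat.land a (Vm j) = a) with hJ
    have hJn : J.Nonempty := ⟨j0, Finset.mem_filter.2 ⟨Finset.mem_univ _, hj0⟩⟩
    have hc : (0 : ℝ) < J.card := by
      have := hJn.card_pos
      positivity
    set q : Fin 4 → ℝ := fun t => (∑ j ∈ J, Vx j t) / J.card with hq
    have hqk : √φ • ((√φ)⁻¹ • q) = q := by
      rw [smul_smul, mul_inv_cancel₀ hs, one_smul]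
    have hnn : ∀ (i : Fin 7) (j : Fin 11), 0 ≤ Lf i (Vx j) := by
      intro i j
      cases hb : Nat.testBit (Vm j) i with
      | true => exact ((G4_tab i j).1 hb).ge
      | false => exact ((G4_tab i j).2 hb).le
    have hq0 : ∀ i, 0 ≤ Lf i q := by
      intro i
      rw [hq, G4_avg J hJn i]
      exact div_nonneg (Finset.sum_nonneg (fun j _ => hnn i j)) hc.le
    have hq1 : ∀ i : Fin 7, Lf i q = 0 ↔ Nat.testBit a i = true := by
      intro i
      rw [← hi i, hq, G4_avg J hJn i, div_eq_zero_iff]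
      constructor
      · rintro (h | h)
        · intro j hj
          have h1 := (Finset.sum_eq_zero_iff_of_nonneg (fun j _ => hnn i j)).1 h j
            (Finset.mem_filter.2 ⟨Finset.mem_univ _, hj⟩)
          cases hb : Nat.testBit (Vm j) i with
          | true => rfl
          | false => exact absurd h1 ((G4_tab i j).2 hb).ne'
        · exact absurd h hc.ne'
      · intro h
        left
        exact Finset.sum_eq_zero (fun j hj => (G4_tab i j).1 (h j (Finset.mem_filter.1 hj).2))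
    refine ⟨(√φ)⁻¹ • q, ?_, ?_⟩
    · intro i
      rw [G4_nonneg, hqk]
      exact hq0 i
    · ext i
      have e1 : i ∈ gR.act ((√φ)⁻¹ • q) ↔ gR.al i ((√φ)⁻¹ • q) = 0 := Iff.rfl
      have e2 : i ∈ fs a ↔ Nat.testBit a i = true := Iff.rfl
      rw [e1, e2, G4_zero, hqk, hq1]

end Pool.Agent.MP_455d73_gt.CS
end

section

/-!
TASK H3 (medium-hard): the model is PL homeomorphic to the realisation of the complex `KW w`.

By `CX.X_eq` the model is `real (gR.KX (sg w))`. Apply `rename` (file F4) with `ρ (A, O) = code w (msk A) x.1` where `msk A = ∑ i ∈ univ.filter (· ∈ A), 2 ^ (i : ℕ)` and `x` is a chosen element of `O` (any value if `O` is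
empty). Facts: `fs` is injective on masks `< 128` and `msk (fs a) = a` for `a < 128` (`decide`), `Nat.land a b = a ↔ fs a ⊆ fs b` for `a, b < 128`; `face_lt`.
For a face `A = fs a`, `a ∈ faceL` (`gR_faces`) and `O = orb (sg w) A c`: `ρ (A, O) = code w a c.1` by `code_orb` (the chosen `x` is in the orbit of `c`; the orbit contains `c`).
Injectivity on the vertices: `code w a c.1 = code w a' c'.1` implies `a = a'` and `c' ∈ orb (fs a) c` (`code_inj`), so the orbits are equal (`orb` is the relation of a group: if `c' ∈ orb σ A c` then `orb σ A c' = orb σ A c`).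
The image of `gR.KX (sg w)` is `KW w`: `⊆`: `F ⊆ C.image …`: the masks of the elements of `C` form a chain of faces, so they lie in a flag `f` (`chain_flag`), and `F.image ρ ⊆ f.toFinset.image (fun a => code w a c.1)`.
`⊇`: `F' ⊆ f.toFinset.image (fun a => code w a x.1)` nonempty, `f` in `FL0 ++ FL5`: take `C = (f.toFinset.filter (fun a => code w a x.1 ∈ F')).image fs`, a chain of faces (`flag_chain`), and `F = C.image (fun A => (A, orb (sg w) A x))`.
-/

set_option autoImplicit false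

open Finset
open scoped Classical

namespace Pool.Agent.MP_455d73_gt.CS

open K

private theorem H3_testBit (a i : ℕ) (ha : a < 128) (hi : ¬ i < 7) : a.testBit i = false := by
  apply Nat.testBit_lt_two_pow
  have h1 : (2 : ℕ) ^ 7 ≤ 2 ^ i := Nat.pow_le_pow_right (by norm_num) (by omega)
  have h2 : (2 : ℕ) ^ 7 = 128 := by norm_num
  omega

private theorem H3_land (a b : ℕ) (ha : a < 128) (h : fs a ⊆ fs b) : Nat.land a b = a := by
  have h1 : Nat.land a b = a &&& b := rfl
  rw [h1]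
  apply Nat.eq_of_testBit_eq
  intro i
  rw [Nat.testBit_and]
  by_cases hi : i < 7
  · by_cases hai : a.testBit i = true
    · have h2 : (⟨i, hi⟩ : Fin 7) ∈ fs a := hai
      have h3 : b.testBit i = true := h h2
      rw [hai, h3]
      rfl
    · rw [Bool.not_eq_true] at hai
      rw [hai]
      rfl
  · rw [H3_testBit a i ha hi]
    rfl

private theorem H3_inj (a b : ℕ) (ha : a < 128) (hb : b < 128) (h : fs a = fs b) : a = b := by
  have h1 := H3_land a b ha (by rw [h])
  have h2 := H3_land b a hb (by rw [h])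
  have h3 : Nat.land a b = Nat.land b a := Nat.land_comm a b
  rw [← h1, h3, h2]

private theorem H3_sub (a b : ℕ) (h : Nat.land a b = a) : fs a ⊆ fs b := by
  intro i hi
  have h1 : a.testBit i = true := hi
  have h2 : Nat.land a b = a &&& b := rfl
  rw [h2] at h
  rw [← h, Nat.testBit_and, Bool.and_eq_true] at h1
  exact h1.2

private theorem H3_land' (a b : ℕ) (h : Nat.land a b = b) : fs b ⊆ fs a := by
  apply H3_sub
  have h3 : Nat.land b a = Nat.land a b := Nat.land_comm b a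
  rw [h3, h]

private theorem H3_self {I S : Type} (σ : I → Equiv.Perm S) (A : Set I) (c : S) : c ∈ orb σ A c :=
  ⟨1, Subgroup.one_mem _, rfl⟩

private theorem H3_orb {I S : Type} (σ : I → Equiv.Perm S) (A : Set I) (c c' : S) (h : c' ∈ orb σ A c) :
    orb σ A c' = orb σ A c := by
  obtain ⟨π, hπ, hc⟩ := h
  ext d
  constructor
  · rintro ⟨τ, hτ, hd⟩
    exact ⟨τ * π, Subgroup.mul_mem _ hτ hπ, by rw [Equiv.Perm.mul_apply, hc, hd]⟩
  · rintro ⟨τ, hτ, hd⟩
    refine ⟨τ * π⁻¹, Subgroup.mul_mem _ hτ (Subgroup.inv_mem _ hπ), ?_⟩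
    rw [Equiv.Perm.mul_apply, ← hc, show π⁻¹ (π c) = c from π.symm_apply_apply c, hd]

private def H3_P (w : List (Bool × Bool)) (v : Set (Fin 7) × Set (Ch w)) (p : ℕ × ℕ) : Prop :=
  ∃ a ∈ faceL, ∃ c : Ch w, v = (fs a, orb (sg w) (fs a) c) ∧ p = code w a c.1

private theorem H3_unique (w : List (Bool × Bool)) (v : Set (Fin 7) × Set (Ch w)) (p p' : ℕ × ℕ)
    (h : H3_P w v p) (h' : H3_P w v p') : p = p' := by
  obtain ⟨a, ha, c, hv, rfl⟩ := h
  obtain ⟨a', ha', c', hv', rfl⟩ := h'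
  rw [hv] at hv'
  have h1 : fs a = fs a' := congrArg Prod.fst hv'
  have h2 : orb (sg w) (fs a) c = orb (sg w) (fs a') c' := congrArg Prod.snd hv'
  have h3 : a = a' := H3_inj a a' (face_lt a ha) (face_lt a' ha') h1
  subst h3
  have h4 : c ∈ orb (sg w) (fs a) c' := by
    rw [← h2]
    exact H3_self _ _ _
  exact code_orb w a ha c' c h4

private noncomputable def H3_rho (w : List (Bool × Bool)) (v : Set (Fin 7) × Set (Ch w)) : ℕ × ℕ :=
  if h : ∃ p, H3_P w v p then h.choose else (0, 0)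

private theorem H3_rho_eq (w : List (Bool × Bool)) (a : ℕ) (ha : a ∈ faceL) (c : Ch w) :
    H3_rho w (fs a, orb (sg w) (fs a) c) = code w a c.1 := by
  have h : ∃ p, H3_P w (fs a, orb (sg w) (fs a) c) p := ⟨_, a, ha, c, rfl, rfl⟩
  unfold H3_rho
  rw [dif_pos h]
  exact H3_unique w _ _ _ h.choose_spec ⟨a, ha, c, rfl, rfl⟩

private theorem H3_faces (A : Set (Fin 7)) (hA : A ∈ gR.faces) : ∃ a ∈ faceL, A = fs a := by
  rw [gR_faces] at hA
  exact hA

theorem X_KW (w : List (Bool × Bool)) : PLHomeo (gR.X (sg w)) (real (KW w)) := by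
  have hinj : Set.InjOn (H3_rho w) (verts (gR.KX (sg w))) := by
    have hv : ∀ v ∈ verts (gR.KX (sg w)), ∃ a ∈ faceL, ∃ c : Ch w, v = (fs a, orb (sg w) (fs a) c) := by
      rintro v ⟨F, ⟨_, c, C, hC, _, hF⟩, hv⟩
      obtain ⟨A, hA, rfl⟩ := Finset.mem_image.mp (hF hv)
      obtain ⟨a, ha, rfl⟩ := H3_faces A (hC A hA)
      exact ⟨a, ha, c, rfl⟩
    intro v hv1 v' hv2 h
    obtain ⟨a, ha, c, rfl⟩ := hv v hv1
    obtain ⟨a', ha', c', rfl⟩ := hv v' hv2
    rw [H3_rho_eq w a ha c, H3_rho_eq w a' ha' c'] at h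
    obtain ⟨rfl, h2⟩ := code_inj w a a' ha ha' c c' h
    rw [H3_orb (sg w) (fs a) c c' h2]
  have key : (fun F : Finset (Set (Fin 7) × Set (Ch w)) => F.image (H3_rho w)) '' (gR.KX (sg w)) = KW w := by
    ext F'
    constructor
    · rintro ⟨F, ⟨hne, c, C, hC, hch, hF⟩, rfl⟩
      have hcf := chain_flag (faceL.toFinset.filter (fun a => fs a ∈ C))
        (fun a ha => List.mem_toFinset.mp (Finset.mem_filter.mp ha).1)
        (fun a ha b hb => by
          obtain ⟨ha1, ha2⟩ := Finset.mem_filter.mp ha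
          obtain ⟨hb1, hb2⟩ := Finset.mem_filter.mp hb
          rcases hch _ ha2 _ hb2 with h | h
          · exact Or.inl (H3_land a b (face_lt a (List.mem_toFinset.mp ha1)) h)
          · right
            have h3 : Nat.land a b = Nat.land b a := Nat.land_comm a b
            rw [h3]
            exact H3_land b a (face_lt b (List.mem_toFinset.mp hb1)) h)
      obtain ⟨f, hf, hfC⟩ := hcf
      refine ⟨hne.image _, c, f, hf, ?_⟩
      intro p hp
      obtain ⟨v, hv, rfl⟩ := Finset.mem_image.mp hp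
      obtain ⟨A, hA, rfl⟩ := Finset.mem_image.mp (hF hv)
      obtain ⟨a, ha, rfl⟩ := H3_faces A (hC A hA)
      rw [Finset.mem_image]
      refine ⟨a, List.mem_toFinset.mpr (hfC a ?_), ?_⟩
      · rw [Finset.mem_filter]
        exact ⟨List.mem_toFinset.mpr ha, hA⟩
      · exact (H3_rho_eq w a ha c).symm
    · rintro ⟨hne, x, f, hf, hF⟩
      obtain ⟨hf1, hf2⟩ := flag_chain f hf
      refine ⟨((f.toFinset.filter (fun a => code w a x.1 ∈ F')).image fs).image
        (fun A => (A, orb (sg w) A x)), ⟨?_, x, (f.toFinset.filter (fun a => code w a x.1 ∈ F')).image fs,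
          ?_, ?_, fun v hv => hv⟩, ?_⟩
      · obtain ⟨p, hp⟩ := hne
        obtain ⟨a, ha, rfl⟩ := Finset.mem_image.mp (hF hp)
        exact ⟨_, Finset.mem_image.mpr ⟨fs a, Finset.mem_image.mpr ⟨a, Finset.mem_filter.mpr ⟨ha, hp⟩, rfl⟩, rfl⟩⟩
      · intro A hA
        obtain ⟨a, ha, rfl⟩ := Finset.mem_image.mp hA
        rw [gR_faces]
        exact ⟨a, hf1 a (List.mem_toFinset.mp (Finset.mem_filter.mp ha).1), rfl⟩
      · intro A hA B hB
        obtain ⟨a, ha, rfl⟩ := Finset.mem_image.mp hA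
        obtain ⟨b, hb, rfl⟩ := Finset.mem_image.mp hB
        rcases hf2 a (List.mem_toFinset.mp (Finset.mem_filter.mp ha).1) b
          (List.mem_toFinset.mp (Finset.mem_filter.mp hb).1) with h | h
        · exact Or.inl (H3_sub a b h)
        · exact Or.inr (H3_land' a b h)
      · ext p
        constructor
        · intro hp
          obtain ⟨v, hv, rfl⟩ := Finset.mem_image.mp hp
          obtain ⟨A, hA, rfl⟩ := Finset.mem_image.mp hv
          obtain ⟨a, ha, rfl⟩ := Finset.mem_image.mp hA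
          obtain ⟨ha1, ha2⟩ := Finset.mem_filter.mp ha
          rw [H3_rho_eq w a (hf1 a (List.mem_toFinset.mp ha1)) x]
          exact ha2
        · intro hp
          obtain ⟨a, ha, rfl⟩ := Finset.mem_image.mp (hF hp)
          apply Finset.mem_image.mpr
          refine ⟨(fs a, orb (sg w) (fs a) x), ?_, H3_rho_eq w a (hf1 a (List.mem_toFinset.mp ha)) x⟩
          exact Finset.mem_image.mpr ⟨fs a, Finset.mem_image.mpr ⟨a, Finset.mem_filter.mpr ⟨ha, hp⟩, rfl⟩, rfl⟩
  rw [CX.X_eq, ← key]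
  have h := rename (gR.KX (sg w)) (H3_rho w) hinj
  have e : (fun a b : ℕ × ℕ => Classical.propDecidable (a = b)) =
      (fun a b : ℕ × ℕ => (instDecidableEqProd a b : Decidable (a = b))) := by
    funext a b
    exact Subsingleton.elim _ _
  rw [e] at h
  exact h

end Pool.Agent.MP_455d73_gt.CS
end
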