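import Pool.Agent.Lib.MP_455d73_gt.Mg.G019
import Pool.Agent.Lib.MP_455d73_gt.Mg.G026
import Pool.Agent.Lib.MP_455d73_gt.Mg.G021
import Pool.Agent.Lib.MP_455d73_gt.Mg.G020
import Pool.Agent.Lib.MP_455d73_gt.Mg.G028

section

/-!
TASK Sg2 (medium): the relations of the involutions `sg w i`.

(1) `i, j ≠ 5`: by induction on `m`, `((sg w i * sg w j) ^ m) x` has the coordinates `(x.1.1, (fun d => rr κ i (rr κ j d))^[m] x.1.2)` with
`κ = kd w x.1.1` (use `sgf` with `i ≠ 5`: the last branch); so `rr_rel` gives the relation with `m = mt i j`.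
(2) `i = 5` or `j = 5`: by the definition of `mt` the exponent is `0` (other index `0` or `6`; nothing to show) or `2` (other index `1, …, 4`):
`(a b)² = 1` for commuting involutions `a`, `b`. Commutation of `sgf w 5` and `sgf w j`, `1 ≤ j ≤ 4`, at `x`: if `x.2` is in no port:
`rr5_comm`, `rr_port`, `rr5_port`; `isOut x.2`: `rr_port` shows that `rr κ j x.2` is in the port `out`, then `gl_rr` (or `fo_rr`), where the
adjacency after the gluing is that of the next bead (`gl_rr` allows two kinds `κ`, `κ'`); `isIn x.2`: `gi_rr`, `fi_rr` (and `port_disj`).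
-/

set_option autoImplicit false

namespace Pool.Agent.MP_455d73_gt.CS

open K

private theorem Sg2_ne (w : List (Bool × Bool)) (i : ℕ) (hi : i ≠ 5) (x : ℕ × ℕ) :
    sgf w i x = (x.1, rr (kd w x.1) i x.2) := by
  unfold sgf
  rw [if_neg (fun h => hi h.1), if_neg (fun h => hi h.1)]

private theorem Sg2_out (w : List (Bool × Bool)) (x : ℕ × ℕ) (h : isOut x.2 = true) :
    sgf w 5 x = if x.1 + 1 < w.length then (x.1 + 1, gl (rv w (x.1 + 1)) x.2) else (x.1, fo x.2) := by
  unfold sgf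
  rw [if_pos ⟨rfl, h⟩]

private theorem Sg2_in (w : List (Bool × Bool)) (x : ℕ × ℕ) (h0 : isOut x.2 = false) (h : isIn x.2 = true) :
    sgf w 5 x = if x.1 = 0 then (0, fi x.2) else (x.1 - 1, gi (rv w x.1) x.2) := by
  unfold sgf
  rw [if_neg (fun h' => by rw [h0] at h'; exact absurd h'.2 (by decide)), if_pos ⟨rfl, h⟩]

private theorem Sg2_no (w : List (Bool × Bool)) (x : ℕ × ℕ) (h0 : isOut x.2 = false) (h : isIn x.2 = false) :
    sgf w 5 x = (x.1, rr (kd w x.1) 5 x.2) := by
  unfold sgf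
  rw [if_neg (fun h' => by rw [h0] at h'; exact absurd h'.2 (by decide)),
    if_neg (fun h' => by rw [h] at h'; exact absurd h'.2 (by decide))]

private theorem Sg2_comm (w : List (Bool × Bool)) (j : ℕ) (h1 : 1 ≤ j) (h4 : j ≤ 4) (x : ℕ × ℕ)
    (hx : x.1 < w.length ∧ x.2 < 200) : sgf w 5 (sgf w j x) = sgf w j (sgf w 5 x) := by
  obtain ⟨k, c⟩ := x
  obtain ⟨hk, hc⟩ := hx
  simp only at hk hc
  have hj5 : j ≠ 5 := by omega
  have hp := rr_port (kd w k) j c h1 h4 hc
  rw [Sg2_ne w j hj5 (k, c)]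
  by_cases ho : isOut c = true
  · rw [Sg2_out w (k, c) ho, Sg2_out w (k, rr (kd w k) j c) (by simpa using hp.2.trans ho)]
    by_cases hl : k + 1 < w.length
    · simp only [hl, if_true]
      rw [Sg2_ne w j hj5 (k + 1, _)]
      simp only
      rw [gl_rr _ _ (kd w (k + 1)) j c h1 h4 hc ho]
    · simp only [hl, if_false]
      rw [Sg2_ne w j hj5 (k, _)]
      simp only
      rw [fo_rr _ j c h1 h4 hc ho]
  · have ho' : isOut c = false := by simpa using ho
    by_cases hi : isIn c = true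
    · rw [Sg2_in w (k, c) ho' hi, Sg2_in w (k, rr (kd w k) j c) (by simpa using hp.2.trans ho')
        (by simpa using hp.1.trans hi)]
      by_cases hl : k = 0
      · subst hl
        simp only [if_true]
        rw [Sg2_ne w j hj5 (0, _)]
        simp only
        rw [fi_rr _ j c h1 h4 hc hi]
      · simp only [hl, if_false]
        rw [Sg2_ne w j hj5 (k - 1, _)]
        simp only
        rw [gi_rr _ _ (kd w (k - 1)) j c h1 h4 hc hi]
    · have hi' : isIn c = false := by simpa using hi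
      rw [Sg2_no w (k, c) ho' hi', Sg2_no w (k, rr (kd w k) j c) (by simpa using hp.2.trans ho')
        (by simpa using hp.1.trans hi'), Sg2_ne w j hj5 (k, _)]
      simp only
      rw [rr5_comm _ j c h1 h4 hc ⟨hi', ho'⟩]

theorem sg_sq (w : List (Bool × Bool)) (i : Fin 7) : sg w i * sg w i = 1 := by
  ext1 x
  exact Subtype.ext (sgf_sgf w i i.2 x.1 x.2)

private theorem Sg2_pow (w : List (Bool × Bool)) (i j : Fin 7) (hi : (i : ℕ) ≠ 5) (hj : (j : ℕ) ≠ 5) (m : ℕ) :
    ∀ x : Ch w, (((sg w i * sg w j) ^ m) x).1 =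
      (x.1.1, (fun d => rr (kd w x.1.1) i (rr (kd w x.1.1) j d))^[m] x.1.2) := by
  induction m with
  | zero => intro x; simp
  | succ m ih =>
    intro x
    have e1 : ((sg w i * sg w j) x).1 = (x.1.1, rr (kd w x.1.1) i (rr (kd w x.1.1) j x.1.2)) := by
      rw [Equiv.Perm.mul_apply, sg_coe, sg_coe, Sg2_ne w j hj, Sg2_ne w i hi]
    rw [pow_succ, Equiv.Perm.mul_apply, ih ((sg w i * sg w j) x), e1, Function.iterate_succ, Function.comp]

private theorem Sg2_five (w : List (Bool × Bool)) (i j : Fin 7) (hi : (i : ℕ) = 5) (hij : i ≠ j) :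
    (sg w i * sg w j) ^ mt i j = 1 := by
  have hj : (j : ℕ) ≠ 5 := fun h => hij (Fin.ext (hi.trans h.symm))
  have hj7 := j.2
  by_cases h : (j : ℕ) = 0 ∨ (j : ℕ) = 6
  · have : mt i j = 0 := by
      rw [hi]
      rcases h with h | h <;> rw [h] <;> rfl
    rw [this, pow_zero]
  · push Not at h
    have h1 : 1 ≤ (j : ℕ) := by omega
    have h4 : (j : ℕ) ≤ 4 := by omega
    have hm : mt i j = 2 := by
      rw [hi]
      generalize (j : ℕ) = t at *
      interval_cases t <;> rfl
    have hc : sg w i * sg w j = sg w j * sg w i := by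
      ext1 x
      apply Subtype.ext
      rw [Equiv.Perm.mul_apply, Equiv.Perm.mul_apply, sg_coe, sg_coe, sg_coe, sg_coe, hi]
      exact Sg2_comm w j h1 h4 x.1 x.2
    rw [hm, pow_two]
    calc sg w i * sg w j * (sg w i * sg w j) = sg w i * (sg w j * sg w i) * sg w j := by group
      _ = sg w i * (sg w i * sg w j) * sg w j := by rw [hc]
      _ = (sg w i * sg w i) * (sg w j * sg w j) := by group
      _ = 1 := by rw [sg_sq, sg_sq, mul_one]

theorem sg_rel (w : List (Bool × Bool)) (i j : Fin 7) (hij : i ≠ j) : (sg w i * sg w j) ^ mt i j = 1 := by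
  by_cases hi : (i : ℕ) = 5
  · exact Sg2_five w i j hi hij
  by_cases hj : (j : ℕ) = 5
  · have h1 := Sg2_five w j i hj hij.symm
    have h2 : mt i j = mt j i := by
      unfold mt
      rw [min_comm, max_comm]
    have h3 : sg w i * sg w j = (sg w j * sg w i)⁻¹ := by
      rw [mul_inv_rev, ← mul_eq_one_iff_eq_inv.1 (sg_sq w i), ← mul_eq_one_iff_eq_inv.1 (sg_sq w j)]
    rw [h2, h3, inv_pow, h1, inv_one]
  · ext1 x
    apply Subtype.ext
    rw [Sg2_pow w i j hi hj (mt i j) x]
    have hne : (i : ℕ) ≠ j := fun h => hij (Fin.ext h)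
    rw [rr_rel (kd w x.1.1) i j x.1.2 i.2 j.2 hne hi hj x.2.2]
    rfl

end Pool.Agent.MP_455d73_gt.CS
end

section

/-!
TASK Sg3 (medium): the involutions act transitively.

Write `x ~ y` if some `π ∈ Subgroup.closure (Set.range (sg w))` maps `x` to `y`: an equivalence relation, `x ~ sg w i x`.
(1) In a bead: for `x = (k, c)`: `x ~ (k, 0)`, by strong induction on `dall (kd w k) c` with `dall_spec`: the neighbour is `sgf w i x = (k, rr κ i c)` (if
`i = 5` the chamber is in no port, so the last branch of `sgf` applies).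
(2) `(k + 1, 0) ~ (k, 0)` for `k + 1 < w.length`: take the chamber `c = 48` of the port `out` (`isOut 48 = true`, by `decide +kernel`); `(k, 48) ~ sgf w 5 (k, 48) =
(k + 1, gl r 48)`, and use (1) for both.
(3) Induction on `k`: `(k, c) ~ (0, 0)`.
-/

set_option autoImplicit false

namespace Pool.Agent.MP_455d73_gt.CS

open K

private def Sg3_R (w : List (Bool × Bool)) (x y : Ch w) : Prop :=
  ∃ π ∈ Subgroup.closure (Set.range (sg w)), π x = y

private theorem Sg3_refl (w : List (Bool × Bool)) (x : Ch w) : Sg3_R w x x :=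
  ⟨1, one_mem _, rfl⟩

private theorem Sg3_symm (w : List (Bool × Bool)) {x y : Ch w} (h : Sg3_R w x y) : Sg3_R w y x := by
  obtain ⟨π, hπ, h⟩ := h
  refine ⟨π⁻¹, inv_mem hπ, ?_⟩
  rw [← h]
  exact Equiv.symm_apply_apply π x

private theorem Sg3_trans (w : List (Bool × Bool)) {x y z : Ch w} (h : Sg3_R w x y) (h' : Sg3_R w y z) :
    Sg3_R w x z := by
  obtain ⟨π, hπ, h⟩ := h
  obtain ⟨ρ, hρ, h'⟩ := h'
  refine ⟨ρ * π, mul_mem hρ hπ, ?_⟩
  rw [← h', ← h]
  rfl

private theorem Sg3_step (w : List (Bool × Bool)) (i : Fin 7) (x : Ch w) : Sg3_R w x (sg w i x) :=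
  ⟨sg w i, Subgroup.subset_closure ⟨i, rfl⟩, rfl⟩

private theorem Sg3_sgf (w : List (Bool × Bool)) (k c i : ℕ) (hp : i = 5 → isIn c = false ∧ isOut c = false) :
    sgf w i (k, c) = (k, rr (kd w k) i c) := by
  unfold sgf
  rw [if_neg, if_neg]
  · rintro ⟨h1, h2⟩
    have := (hp h1).1
    simp only at h2
    rw [this] at h2
    exact absurd h2 (by decide)
  · rintro ⟨h1, h2⟩
    have := (hp h1).2
    simp only at h2
    rw [this] at h2
    exact absurd h2 (by decide)

private theorem Sg3_bead (w : List (Bool × Bool)) (k : ℕ) (hk : k < w.length) (n : ℕ) :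
    ∀ (c : ℕ) (hc : c < 200), dall (kd w k) c = n →
      Sg3_R w ⟨(k, c), hk, hc⟩ ⟨(k, 0), hk, by norm_num⟩ := by
  induction n using Nat.strong_induction_on with
  | _ n ih =>
    intro c hc hn
    by_cases h0 : c = 0
    · subst h0
      exact Sg3_refl w _
    · obtain ⟨i, hi, hp, hd⟩ := dall_spec (kd w k) c hc h0
      have hlt := rr_lt (kd w k) i c hi hc hp
      have h1 := Sg3_step w ⟨i, hi⟩ ⟨(k, c), hk, hc⟩
      have h2 : sg w ⟨i, hi⟩ ⟨(k, c), hk, hc⟩ = ⟨(k, rr (kd w k) i c), hk, hlt⟩ :=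
        Subtype.ext (Sg3_sgf w k c i hp)
      rw [h2] at h1
      exact Sg3_trans w h1 (ih (dall (kd w k) (rr (kd w k) i c)) (hn ▸ hd) _ hlt rfl)

private theorem Sg3_48 : isOut 48 = true := by decide +kernel

private theorem Sg3_next (w : List (Bool × Bool)) (k : ℕ) (hk : k < w.length) (hk1 : k + 1 < w.length) :
    Sg3_R w ⟨(k + 1, 0), hk1, by norm_num⟩ ⟨(k, 0), hk, by norm_num⟩ := by
  have h48 : (48 : ℕ) < 200 := by norm_num
  have h1 := Sg3_step w 5 ⟨(k, 48), hk, h48⟩
  have e : sgf w 5 (k, 48) = (k + 1, gl (rv w (k + 1)) 48) := by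
    unfold sgf
    rw [if_pos ⟨rfl, Sg3_48⟩, if_pos hk1]
  have hm := sgf_mem w 5 (by norm_num) (k, 48) ⟨hk, h48⟩
  rw [e] at hm
  have h2 : sg w 5 ⟨(k, 48), hk, h48⟩ = ⟨(k + 1, gl (rv w (k + 1)) 48), hm⟩ := Subtype.ext e
  rw [h2] at h1
  exact Sg3_trans w (Sg3_symm w (Sg3_bead w (k + 1) hk1 _ _ hm.2 rfl))
    (Sg3_trans w (Sg3_symm w h1) (Sg3_bead w k hk _ 48 h48 rfl))

private theorem Sg3_zero (w : List (Bool × Bool)) (h0 : 0 < w.length) (k : ℕ) :
    ∀ hk : k < w.length, Sg3_R w ⟨(k, 0), hk, by norm_num⟩ ⟨(0, 0), h0, by norm_num⟩ := by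
  induction k with
  | zero => exact fun _ => Sg3_refl w _
  | succ k ih =>
    intro hk
    have hk' : k < w.length := by omega
    exact Sg3_trans w (Sg3_next w k hk' hk) (ih hk')

theorem sg_trans (w : List (Bool × Bool)) (hw : w ≠ []) : Trans (sg w) (x0 w hw) := by
  intro c
  obtain ⟨⟨k, c⟩, hk, hc⟩ := c
  have h0 : 0 < w.length := List.length_pos_iff.mpr hw
  exact Sg3_symm w (Sg3_trans w (Sg3_bead w k hk _ c hc rfl) (Sg3_zero w h0 k hk))

end Pool.Agent.MP_455d73_gt.CS
end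

section

/-!
TASK Z0 (medium-hard): the complex of the chambers is the union of the beads and the collars.

`n = w.length ≥ 1`. Both sides consist of the nonempty subsets of certain sets (generators): for `KW w` the sets `gen x f = f.toFinset.image (fun a => code w a x)`, `x = (k, c)`, `k < n`, `c < 200`, `f ∈ FL0 ++ FL5`; for `Q0 w` the sets
`(bs m).image lam`. We list the generators. Let `κ = kd w k`.
(1) `f ∈ FL0`, or `f ∈ FL5` and `c` in no port: `code w a x = (k, lab κ a c)` for all `a ∈ f` (`flag0`: no bit `5`), so `gen x f = (bs (fm κ c f)).image (lamB k)` (`bs_fm`), a generator of the bead (`mem_beadL`).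
(2) `f ∈ FL5`, `isOut c`, `k + 1 < n`, `r = rv w (k + 1)`: for `a ∈ f` without the bit `5`: `code w a x = (k, lab κ a c)`, `lab κ a c = lab true a c < 52` (`lab_out`, `flag5`), `= lamS k (lab true a c)`; with the bit `5`, `b = a - 32` (`face5`):
`code w a x = (k, 10000 + lab true b c) = lamS k (106 + lab true b c)`. So `gen x f = (bs (fc (fun b => lab true b c) c f)).image (lamS k)` (`bs_fc`), one of the generators of `cx (lamS k) (dcL r)` (`dcL` is the `bindR` over `outL` of two lists).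
(3) `f ∈ FL5`, `isIn c`, `k ≥ 1`, `r = rv w k`, `c = gl r c'`, `c' = gi r c`, `isOut c'`: `a` without the bit `5`: `code w a x = (k, lab true a c)`, `52 ≤ lab true a c < 104` (`lab_in`), `= lamS (k - 1) (lab true a c)`; with the bit `5`: `code w a x =
(k - 1, 10000 + lab true b c') = lamS (k - 1) (106 + lab true b c')`: the generator of the second list of `dcL r` for `c'` (chamber `gl r c'`).
(4) `f ∈ FL5`, `isOut c`, `k + 1 = n`: `code w a x = (n - 1, lab true a c) = lamO n (lab true a c)`, resp. `(n - 1, 20000 + mn …) = lamO n (106 + mn …)`: the generators of `foL`.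
(5) `f ∈ FL5`, `isIn c`, `k = 0`: `(0, lab true a c) = lamI (lab true a c)` (as `52 ≤ … < 104`), resp. `(0, 30000 + mn …) = lamI (106 + mn …)`: the generators of `fiL`.
Conversely every generator of `Q0 w` is one of these (`mem_beadL`, `mem_outL`, `mem_inL`; the double collar number `k` has the generators (2) of the bead `k` and (3) of the bead `k + 1`).
`mn x y < 10000`-type bounds are not needed. `lab_out`, `lab_in` need `a + 32 ∈ faceL`: `flag5` for `a ∈ f ∈ FL5` without the bit `5`.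
-/

set_option autoImplicit false
set_option maxRecDepth 100000

open Finset
open scoped Classical

namespace Pool.Agent.MP_455d73_gt.CS

open K

theorem Z0_mem {V : Type} (lam : ℕ → V) (M : Finset ℕ) (v : V) :
    v ∈ @Finset.image _ _ (fun a b => Classical.propDecidable (a = b)) lam M ↔ ∃ s ∈ M, lam s = v := Finset.mem_image

theorem Z0_sub (w : List (Bool × Bool)) (x : ℕ × ℕ) (f : List ℕ) (g : ℕ → ℕ) (lam : ℕ → ℕ × ℕ) (m : ℕ)
    (hm : bs m = f.toFinset.image g) (h : ∀ a ∈ f, code w a x = lam (g a)) (F : Finset (ℕ × ℕ)) :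
    F ⊆ f.toFinset.image (fun a => code w a x) ↔ F ⊆ @Finset.image _ _ (fun a b => Classical.propDecidable (a = b)) lam (bs m) := by
  rw [hm]
  constructor
  · intro hF v hv
    obtain ⟨a, ha, e⟩ := Finset.mem_image.1 (hF hv)
    refine (Z0_mem _ _ _).2 ⟨g a, Finset.mem_image.2 ⟨a, ha, rfl⟩, ?_⟩
    rw [← h a (List.mem_toFinset.1 ha), ← e]
  · intro hF v hv
    obtain ⟨s, hs, e⟩ := (Z0_mem _ _ _).1 (hF hv)
    obtain ⟨a, ha, e2⟩ := Finset.mem_image.1 hs
    refine Finset.mem_image.2 ⟨a, ha, ?_⟩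
    show code w a x = v
    rw [h a (List.mem_toFinset.1 ha), e2, e]

theorem Z0_64 : ∀ f ∈ FL5, ∀ a ∈ f, a < 64 := by decide +kernel

theorem mem_dcL (r : Bool) (x : ℕ) : x ∈ dcL r ↔ ∃ c < 200, isOut c = true ∧ ∃ f ∈ FL5,
    x = fc (fun a => lab true a c) c f ∨ x = fc (fun a => lab true a c) (gl r c) f := by
  have e : dcL r = bindR outL fun c => appR (mapF (fc (fun a => lab true a c) c) FL5)
    (mapF (fc (fun a => lab true a c) (gl r c)) FL5) := rfl
  rw [e, mem_bindR]
  constructor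
  · rintro ⟨c, hc, hx⟩
    obtain ⟨h1, h2⟩ := (mem_outL c).1 hc
    refine ⟨c, h1, h2, ?_⟩
    rcases (mem_appR _ _ x).1 hx with h | h
    · obtain ⟨f, hf, e⟩ := (mem_mapF _ _ x).1 h
      exact ⟨f, hf, Or.inl e⟩
    · obtain ⟨f, hf, e⟩ := (mem_mapF _ _ x).1 h
      exact ⟨f, hf, Or.inr e⟩
  · rintro ⟨c, h1, h2, f, hf, h⟩
    refine ⟨c, (mem_outL c).2 ⟨h1, h2⟩, (mem_appR _ _ x).2 ?_⟩
    rcases h with h | h
    · exact Or.inl ((mem_mapF _ _ x).2 ⟨f, hf, h⟩)
    · exact Or.inr ((mem_mapF _ _ x).2 ⟨f, hf, h⟩)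

theorem mem_fiL (x : ℕ) : x ∈ fiL ↔ ∃ c < 200, isIn c = true ∧ ∃ f ∈ FL5,
    x = fc (fun a => mn (lab true a c) (lab true a (fi c))) c f := by
  have e : fiL = bindR inL fun c => mapF (fc (fun a => mn (lab true a c) (lab true a (fi c))) c) FL5 := rfl
  rw [e, mem_bindR]
  constructor
  · rintro ⟨c, hc, hx⟩
    obtain ⟨h1, h2⟩ := (mem_inL c).1 hc
    exact ⟨c, h1, h2, (mem_mapF _ _ x).1 hx⟩
  · rintro ⟨c, h1, h2, h⟩
    exact ⟨c, (mem_inL c).2 ⟨h1, h2⟩, (mem_mapF _ _ x).2 h⟩

theorem mem_foL (x : ℕ) : x ∈ foL ↔ ∃ c < 200, isOut c = true ∧ ∃ f ∈ FL5,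
    x = fc (fun a => mn (lab true a c) (lab true a (fo c))) c f := by
  have e : foL = bindR outL fun c => mapF (fc (fun a => mn (lab true a c) (lab true a (fo c))) c) FL5 := rfl
  rw [e, mem_bindR]
  constructor
  · rintro ⟨c, hc, hx⟩
    obtain ⟨h1, h2⟩ := (mem_outL c).1 hc
    exact ⟨c, h1, h2, (mem_mapF _ _ x).1 hx⟩
  · rintro ⟨c, h1, h2, h⟩
    exact ⟨c, (mem_outL c).2 ⟨h1, h2⟩, (mem_mapF _ _ x).2 h⟩

/-- A face of a bead. -/
theorem Z0_bead (w : List (Bool × Bool)) (k c : ℕ) (f : List ℕ)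
    (h : ∀ a ∈ f, a.testBit 5 = true → isIn c = false ∧ isOut c = false) (F : Finset (ℕ × ℕ)) :
    F ⊆ f.toFinset.image (fun a => code w a (k, c)) ↔
      F ⊆ @Finset.image _ _ (fun a b => Classical.propDecidable (a = b)) (lamB k) (bs (fm (kd w k) c f)) := by
  refine Z0_sub w (k, c) f (fun a => lab (kd w k) a c) (lamB k) _ (bs_fm _ _ _) ?_ F
  intro a ha
  unfold code lamB
  rw [if_neg, if_neg]
  · rintro ⟨h1, h2⟩
    have := (h a ha h1).1
    simp only [h2] at this
    exact absurd this (by simp)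
  · rintro ⟨h1, h2⟩
    have := (h a ha h1).2
    simp only [h2] at this
    exact absurd this (by simp)

theorem Z0_fl (f : List ℕ) (hf : f ∈ FL5) (a : ℕ) (ha : a ∈ f) : a ∈ faceL ∧
    (a.testBit 5 = false → a + 32 ∈ faceL) :=
  ⟨(flag_chain f (List.mem_append.2 (Or.inr hf))).1 a ha, flag5 f hf a ha⟩

theorem Z0_out (w : List (Bool × Bool)) (k c : ℕ) (hk : k + 1 < w.length) (hc : c < 200) (ho : isOut c = true)
    (f : List ℕ) (hf : f ∈ FL5) (F : Finset (ℕ × ℕ)) :
    F ⊆ f.toFinset.image (fun a => code w a (k, c)) ↔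
      F ⊆ @Finset.image _ _ (fun a b => Classical.propDecidable (a = b)) (lamS k)
        (bs (fc (fun a => lab true a c) c f)) := by
  refine Z0_sub w (k, c) f _ (lamS k) _ (bs_fc _ _ _ (Z0_64 f hf)) ?_ F
  intro a ha
  obtain ⟨h1, h2⟩ := Z0_fl f hf a ha
  by_cases h5 : a.testBit 5 = true
  · unfold code lamS
    rw [if_pos ⟨h5, ho⟩, if_pos h5, if_pos hk]
    rw [if_neg (by omega), if_neg (by omega), if_neg (by omega), if_neg (by omega)]
    simp
  · have h5' : a.testBit 5 = false := by simpa using h5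
    obtain ⟨h3, h4⟩ := lab_out (kd w k) a c h1 (h2 h5') h5' hc ho
    unfold code lamS
    rw [if_neg (fun h => h5 h.1), if_neg (fun h => h5 h.1), if_neg h5, if_pos (by omega), h3]

theorem Z0_in (w : List (Bool × Bool)) (k c : ℕ) (hc : c < 200) (ho : isOut c = true)
    (f : List ℕ) (hf : f ∈ FL5) (F : Finset (ℕ × ℕ)) :
    F ⊆ f.toFinset.image (fun a => code w a (k + 1, gl (rv w (k + 1)) c)) ↔
      F ⊆ @Finset.image _ _ (fun a b => Classical.propDecidable (a = b)) (lamS k)
        (bs (fc (fun a => lab true a c) (gl (rv w (k + 1)) c) f)) := by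
  refine Z0_sub w _ f _ (lamS k) _ (bs_fc _ _ _ (Z0_64 f hf)) ?_ F
  intro a ha
  obtain ⟨h1, h2⟩ := Z0_fl f hf a ha
  obtain ⟨g1, g2, g3⟩ := gl_spec (rv w (k + 1)) c hc ho
  have g4 := port_disj _ g1 g2
  by_cases h5 : a.testBit 5 = true
  · unfold code lamS
    rw [if_neg (fun h => by rw [g4] at h; exact absurd h.2 (by simp)), if_pos ⟨h5, g2⟩, if_pos h5, if_neg (by omega)]
    rw [if_neg (by omega), if_neg (by omega), if_neg (by omega), if_neg (by omega)]
    simp only [g3]
    simp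
  · have h5' : a.testBit 5 = false := by simpa using h5
    obtain ⟨h3, h4, h6⟩ := lab_in (kd w (k + 1)) a _ h1 (h2 h5') h5' g1 g2
    unfold code lamS
    rw [if_neg (fun h => h5 h.1), if_neg (fun h => h5 h.1), if_neg h5, if_neg (by omega), if_pos (by omega), h3]

theorem Z0_end (w : List (Bool × Bool)) (hw : 0 < w.length) (c : ℕ) (hc : c < 200) (ho : isOut c = true)
    (f : List ℕ) (hf : f ∈ FL5) (F : Finset (ℕ × ℕ)) :
    F ⊆ f.toFinset.image (fun a => code w a (w.length - 1, c)) ↔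
      F ⊆ @Finset.image _ _ (fun a b => Classical.propDecidable (a = b)) (lamO w.length)
        (bs (fc (fun a => mn (lab true a c) (lab true a (fo c))) c f)) := by
  refine Z0_sub w _ f _ (lamO w.length) _ (bs_fc _ _ _ (Z0_64 f hf)) ?_ F
  intro a ha
  obtain ⟨h1, h2⟩ := Z0_fl f hf a ha
  by_cases h5 : a.testBit 5 = true
  · unfold code lamO
    rw [if_pos ⟨h5, ho⟩, if_pos h5, if_neg (by omega)]
    rw [if_neg (by omega), if_neg (by omega), if_neg (by omega), if_neg (by omega)]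
    simp
  · have h5' : a.testBit 5 = false := by simpa using h5
    obtain ⟨h3, h4⟩ := lab_out (kd w (w.length - 1)) a c h1 (h2 h5') h5' hc ho
    unfold code lamO
    rw [if_neg (fun h => h5 h.1), if_neg (fun h => h5 h.1), if_neg h5, if_pos (by omega), h3]

theorem Z0_start (w : List (Bool × Bool)) (c : ℕ) (hc : c < 200) (hi : isIn c = true)
    (f : List ℕ) (hf : f ∈ FL5) (F : Finset (ℕ × ℕ)) :
    F ⊆ f.toFinset.image (fun a => code w a (0, c)) ↔
      F ⊆ @Finset.image _ _ (fun a b => Classical.propDecidable (a = b)) lamI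
        (bs (fc (fun a => mn (lab true a c) (lab true a (fi c))) c f)) := by
  refine Z0_sub w _ f _ lamI _ (bs_fc _ _ _ (Z0_64 f hf)) ?_ F
  intro a ha
  obtain ⟨h1, h2⟩ := Z0_fl f hf a ha
  have g4 := port_disj _ hc hi
  by_cases h5 : a.testBit 5 = true
  · unfold code lamI
    rw [if_neg (fun h => by rw [g4] at h; exact absurd h.2 (by simp)), if_pos ⟨h5, hi⟩, if_pos h5, if_pos rfl]
    rw [if_neg (by omega), if_neg (by omega)]
    simp
  · have h5' : a.testBit 5 = false := by simpa using h5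
    obtain ⟨h3, h4, h6⟩ := lab_in (kd w 0) a _ h1 (h2 h5') h5' hc hi
    unfold code lamI
    rw [if_neg (fun h => h5 h.1), if_neg (fun h => h5 h.1), if_neg h5, if_neg (by omega), if_pos (by omega), h3]

theorem KW_eq (w : List (Bool × Bool)) (hw : w ≠ []) : KW w = Q0 w := by
  have hn : 0 < w.length := List.length_pos_iff.mpr hw
  ext F
  constructor
  · rintro ⟨hF, ⟨⟨k, c⟩, hk, hc⟩, f, hf, hs⟩
    simp only at hk hc hs
    rcases List.mem_append.1 hf with hf | hf
    · left
      refine ⟨k, hk, hF, fm (kd w k) c f, (mem_beadL _ _).2 ⟨c, hc, Or.inl ⟨f, hf, rfl⟩⟩, ?_⟩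
      refine (Z0_bead w k c f (fun a ha h => ?_) F).1 hs
      rw [flag0 f hf a ha] at h
      exact absurd h (by simp)
    · cases ho : isOut c with
      | true =>
        right
        by_cases hk1 : k + 1 < w.length
        · left
          refine ⟨k, by omega, hF, fc (fun a => lab true a c) c f, (mem_dcL _ _).2 ⟨c, hc, ho, f, hf, Or.inl rfl⟩, ?_⟩
          exact (Z0_out w k c hk1 hc ho f hf F).1 hs
        · right; right
          have hk2 : k = w.length - 1 := by omega
          refine ⟨hF, _, (mem_foL _).2 ⟨c, hc, ho, f, hf, rfl⟩, ?_⟩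
          rw [hk2] at hs
          exact (Z0_end w hn c hc ho f hf F).1 hs
      | false =>
        cases hi : isIn c with
        | true =>
          right
          rcases Nat.eq_zero_or_pos k with hk0 | hk0
          · right; left
            refine ⟨hF, _, (mem_fiL _).2 ⟨c, hc, hi, f, hf, rfl⟩, ?_⟩
            rw [hk0] at hs
            exact (Z0_start w c hc hi f hf F).1 hs
          · left
            obtain ⟨j, rfl⟩ : ∃ j, k = j + 1 := ⟨k - 1, by omega⟩
            obtain ⟨g1, g2, g3⟩ := gi_spec (rv w (j + 1)) c hc hi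
            refine ⟨j, by omega, hF, fc (fun a => lab true a (gi (rv w (j + 1)) c)) (gl (rv w (j + 1)) (gi (rv w (j + 1)) c)) f,
              (mem_dcL _ _).2 ⟨_, g1, g2, f, hf, Or.inr rfl⟩, ?_⟩
            rw [← g3] at hs
            exact (Z0_in w j _ g1 g2 f hf F).1 hs
        | false =>
          left
          refine ⟨k, hk, hF, fm (kd w k) c f, (mem_beadL _ _).2 ⟨c, hc, Or.inr ⟨hi, ho, f, hf, rfl⟩⟩, ?_⟩
          exact (Z0_bead w k c f (fun a ha h => ⟨hi, ho⟩) F).1 hs
  · rintro (⟨k, hk, hF, m, hm, hs⟩ | ⟨k, hk, hF, m, hm, hs⟩ | ⟨hF, m, hm, hs⟩ | ⟨hF, m, hm, hs⟩)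
    · obtain ⟨c, hc, h⟩ := (mem_beadL _ _).1 hm
      rcases h with ⟨f, hf, rfl⟩ | ⟨hi, ho, f, hf, rfl⟩
      · refine ⟨hF, ⟨(k, c), hk, hc⟩, f, List.mem_append.2 (Or.inl hf), ?_⟩
        refine (Z0_bead w k c f (fun a ha h => ?_) F).2 hs
        rw [flag0 f hf a ha] at h
        exact absurd h (by simp)
      · refine ⟨hF, ⟨(k, c), hk, hc⟩, f, List.mem_append.2 (Or.inr hf), ?_⟩
        exact (Z0_bead w k c f (fun a ha h => ⟨hi, ho⟩) F).2 hs
    · obtain ⟨c, hc, ho, f, hf, h⟩ := (mem_dcL _ _).1 hm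
      rcases h with rfl | rfl
      · refine ⟨hF, ⟨(k, c), by simp only; omega, hc⟩, f, List.mem_append.2 (Or.inr hf), ?_⟩
        exact (Z0_out w k c (by omega) hc ho f hf F).2 hs
      · refine ⟨hF, ⟨(k + 1, gl (rv w (k + 1)) c), by simp only; omega, (gl_spec _ c hc ho).1⟩, f,
          List.mem_append.2 (Or.inr hf), ?_⟩
        exact (Z0_in w k c hc ho f hf F).2 hs
    · obtain ⟨c, hc, hi, f, hf, rfl⟩ := (mem_fiL _).1 hm
      refine ⟨hF, ⟨(0, c), hn, hc⟩, f, List.mem_append.2 (Or.inr hf), ?_⟩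
      exact (Z0_start w c hc hi f hf F).2 hs
    · obtain ⟨c, hc, ho, f, hf, rfl⟩ := (mem_foL _).1 hm
      refine ⟨hF, ⟨(w.length - 1, c), by simp only; omega, hc⟩, f, List.mem_append.2 (Or.inr hf), ?_⟩
      exact (Z0_end w hn c hc ho f hf F).2 hs

end Pool.Agent.MP_455d73_gt.CS
end

section

/-!
TASK Z7 (medium): the absorption regions are replaced by the templates.

`rep` with `n = w.length`, `lam = lamA w`, `U = 2 ^ 32 - 1`, `J k = [31, 992]`, `R = dn tX ∪ dn (tO w)`; `hl`, `hl'`: `kf_A`. `bs U = range 32`.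
The values of `lamA w k` on `range 32`: (a) `s < 5`: `(0, 40000 + sw r s)` for `k = 0`, `(k - 1, xs)` with `xs ∈ {23, 46, 8, 38, 104}` for `k ≥ 1`; (b) `5 ≤ s < 10`: `(k, xs)`; (c) `(k, ex)`, `ex` an entry of `exL κ` (`{88, 54, 101, 77, 1030}` or `{75, 99, 91, 56, 1055, 2383}`); (d) `(k, 50000 + s)`.
All these are different: `hinj`. `hJ`: a common vertex of the regions `k ≠ k'`: if `k' = k + 1` it is of kind (b) for `k` and (a) for `k'`, so `F ⊆ (bs 992).image (lamA w k)`; if `k' + 1 = k` it is of kind (a) for `k`: `F ⊆ (bs 31).image (lamA w k)`; otherwise there is none (`F` is nonempty).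
`hRJ`: `F ⊆ tX` in the region `k`: the vertices `(0, 40000 + j)` occur only for `k = 0`, kind (a): `31` (`sw r` is a permutation of `0, …, 4`). `F ⊆ tO w`: the vertices are `(n - 1, xs)`; in the region `k < n`: `k = n - 1`, kind (b): `992` (for `k = n` it would be kind (a), excluded by `k < n`).
-/

set_option autoImplicit false

open Finset
open scoped Classical

namespace Pool.Agent.MP_455d73_gt.CS

open K

theorem Z7_U (s : ℕ) : s ∈ bs (2 ^ 32 - 1) ↔ s < 32 := by
  have h := bs_pow_sub 0 32 (Nat.zero_le _)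
  rw [pow_zero] at h
  rw [h, Finset.mem_Ico]
  omega

/-- The entries of `xsL`. -/
def Z7_xs (b : ℕ) : Prop := b = 23 ∨ b = 46 ∨ b = 8 ∨ b = 38 ∨ b = 104

theorem Z7_x1 : ∀ t < 5, Z7_xs (nth xsL t) := by
  unfold Z7_xs
  decide +kernel

theorem Z7_x2 (κ : Bool) : ∀ t < (exL κ).length, ¬ Z7_xs (nth (exL κ) t) ∧ nth (exL κ) t < 2393 := by
  unfold Z7_xs
  cases κ <;> decide +kernel

theorem Z7_mem {V : Type} (lam : ℕ → V) (M : Finset ℕ) (v : V) : v ∈ M.image lam ↔ ∃ s ∈ M, lam s = v :=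
  Finset.mem_image

theorem Z7_lamA (w : List (Bool × Bool)) (k s a b : ℕ) (hs : s < 32) (h : lamA w k s = (a, b)) :
    (s < 5 ∧ k = 0 ∧ a = 0 ∧ 40000 ≤ b ∧ b < 40005) ∨ (s < 5 ∧ k ≠ 0 ∧ a + 1 = k ∧ Z7_xs b) ∨
      (5 ≤ s ∧ s < 10 ∧ a = k ∧ Z7_xs b) ∨ (10 ≤ s ∧ a = k ∧ ¬ Z7_xs b ∧ (b < 2393 ∨ 50000 ≤ b)) := by
  unfold lamA at h
  generalize kd w k = κ at h
  generalize rv w k = r at h
  generalize rv w 0 = r0 at h
  split_ifs at h with h1 h2 h3 h4
  · left
    simp only [Prod.mk.injEq] at h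
    have : sw r0 s < 5 := by unfold sw; split_ifs <;> omega
    omega
  · right; left
    simp only [Prod.mk.injEq] at h
    refine ⟨h1, h2, by omega, ?_⟩
    rw [← h.2]
    have : sw r s < 5 := by unfold sw; split_ifs <;> omega
    generalize sw r s = t at this
    exact Z7_x1 t this
  · right; right; left
    simp only [Prod.mk.injEq] at h
    refine ⟨by omega, h3, by omega, ?_⟩
    rw [← h.2]
    obtain ⟨t, ht⟩ : ∃ t, t = s - 5 := ⟨_, rfl⟩
    rw [← ht]
    exact Z7_x1 t (by omega)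
  · right; right; right
    simp only [Prod.mk.injEq] at h
    refine ⟨by omega, by omega, ?_⟩
    rw [← h.2]
    obtain ⟨t, ht⟩ : ∃ t, t = s - 10 := ⟨_, rfl⟩
    rw [← ht]
    have := Z7_x2 κ t (by omega)
    exact ⟨this.1, Or.inl this.2⟩
  · right; right; right
    simp only [Prod.mk.injEq] at h
    unfold Z7_xs
    omega

theorem Z7_inj (w : List (Bool × Bool)) (k : ℕ) : Set.InjOn (lamA w k) (bs (2 ^ 32 - 1)) := by
  intro s hs s' hs' h
  rw [Finset.mem_coe, Z7_U] at hs hs'
  have a1 := Z7_lamA w k s (lamA w k s).1 (lamA w k s).2 hs rfl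
  have a2 := Z7_lamA w k s' (lamA w k s).1 (lamA w k s).2 hs' h.symm
  unfold lamA at h
  have hx : ∀ i < 5, ∀ j < 5, nth xsL i = nth xsL j → i = j := by decide +kernel
  have hsw : ∀ (r : Bool) (i : ℕ), i < 5 → sw r i < 5 := by
    intro r i hi
    unfold sw; split_ifs <;> omega
  have hsi : ∀ (r : Bool) (i j : ℕ), sw r i = sw r j → i = j := by
    intro r i j h
    unfold sw at h; split_ifs at h <;> omega
  by_cases c1 : s < 5
  · have c2 : s' < 5 := by
      unfold Z7_xs at a1 a2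
      omega
    rw [if_pos c1, if_pos c2] at h
    split_ifs at h with h0
    · simp only [Prod.mk.injEq] at h
      exact hsi (rv w 0) _ _ (by omega)
    · simp only [Prod.mk.injEq] at h
      exact hsi _ _ _ (hx _ (hsw _ _ c1) _ (hsw _ _ c2) h.2)
  · have c2 : ¬ s' < 5 := by
      unfold Z7_xs at a1 a2
      omega
    rw [if_neg c1, if_neg c2] at h
    by_cases d1 : s < 10
    · have d2 : s' < 10 := by
        unfold Z7_xs at a1 a2
        omega
      rw [if_pos d1, if_pos d2] at h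
      simp only [Prod.mk.injEq] at h
      have := hx _ (by omega) _ (by omega) h.2
      omega
    · have d2 : ¬ s' < 10 := by
        unfold Z7_xs at a1 a2
        omega
      rw [if_neg d1, if_neg d2] at h
      generalize kd w k = κ at h
      have hex : ∀ κ : Bool, ∀ i < (exL κ).length, ∀ j < (exL κ).length, nth (exL κ) i = nth (exL κ) j → i = j := by
        decide +kernel
      have hex2 : ∀ κ : Bool, ∀ i < (exL κ).length, nth (exL κ) i < 2393 := by decide +kernel
      split_ifs at h with e1 e2 e2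
      · simp only [Prod.mk.injEq] at h
        have := hex κ _ (by omega) _ (by omega) h.2
        omega
      · simp only [Prod.mk.injEq] at h
        have := hex2 κ (s - 10) (by omega)
        omega
      · simp only [Prod.mk.injEq] at h
        have := hex2 κ (s' - 10) (by omega)
        omega
      · simp only [Prod.mk.injEq] at h
        omega

theorem Z7_flip (w : List (Bool × Bool)) (hw : w ≠ [])
    (hA : ∀ κ : Bool, Eqv (2 ^ 32 - 1) [31, 992] (appR (tuA κ) (yA κ)) (tA κ)) : FlipEq (Q6 w) (Q7 w) := by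
  have m31 : ∀ s, s < 5 → s ∈ bs 31 := by
    intro s hs
    rw [bs_31]
    simp only [Finset.mem_insert, Finset.mem_singleton]
    omega
  have m992 : ∀ s, 5 ≤ s → s < 10 → s ∈ bs 992 := by
    intro s h5 hs
    rw [bs_992]
    simp only [Finset.mem_insert, Finset.mem_singleton]
    omega
  refine rep w.length (lamA w) (2 ^ 32 - 1) (fun _ => [31, 992]) (fun k => appR (tuA (kd w k)) (yA (kd w k)))
    (fun k => tA (kd w k)) (dn tX ∪ dn (tO w)) ((dn_down _).union (dn_down _)) (fun k _ => hA _) (fun k _ => Z7_inj w k)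
    (fun k _ => allIn_spec _ _ (kf_A _).1) (fun k _ => allIn_spec _ _ (kf_A _).2) ?_ ?_
  · intro k _ k' _ hkk F hF h1 h2
    rcases Nat.lt_or_ge k k' with hlt | hge
    · refine ⟨992, by simp, fun v hv => ?_⟩
      obtain ⟨s, hs, e1⟩ := (Z7_mem _ _ _).1 (h1 hv)
      obtain ⟨s', hs', e2⟩ := (Z7_mem _ _ _).1 (h2 hv)
      rw [Z7_U] at hs hs'
      have b1 := Z7_lamA w k s v.1 v.2 hs e1
      have b2 := Z7_lamA w k' s' v.1 v.2 hs' e2
      refine (Z7_mem _ _ _).2 ⟨s, ?_, e1⟩
      unfold Z7_xs at b1 b2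
      exact m992 _ (by omega) (by omega)
    · refine ⟨31, by simp, fun v hv => ?_⟩
      obtain ⟨s, hs, e1⟩ := (Z7_mem _ _ _).1 (h1 hv)
      obtain ⟨s', hs', e2⟩ := (Z7_mem _ _ _).1 (h2 hv)
      rw [Z7_U] at hs hs'
      have b1 := Z7_lamA w k s v.1 v.2 hs e1
      have b2 := Z7_lamA w k' s' v.1 v.2 hs' e2
      refine (Z7_mem _ _ _).2 ⟨s, ?_, e1⟩
      unfold Z7_xs at b1 b2
      exact m31 _ (by omega)
  · intro k hk F hF hFs
    rcases hF with hF | hF
    · refine ⟨31, by simp, fun v hv => ?_⟩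
      obtain ⟨s, hs, e1⟩ := (Z7_mem _ _ _).1 (hFs hv)
      rw [Z7_U] at hs
      have b1 := Z7_lamA w k s v.1 v.2 hs e1
      have c := hF.2 hv
      unfold tX at c
      obtain ⟨j, hj, e⟩ := Finset.mem_image.1 c
      rw [Finset.mem_range] at hj
      have e3 : v.2 = 40000 + j := by rw [← e]
      refine (Z7_mem _ _ _).2 ⟨s, ?_, e1⟩
      unfold Z7_xs at b1
      exact m31 _ (by omega)
    · refine ⟨992, by simp, fun v hv => ?_⟩
      obtain ⟨s, hs, e1⟩ := (Z7_mem _ _ _).1 (hFs hv)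
      rw [Z7_U] at hs
      have b1 := Z7_lamA w k s v.1 v.2 hs e1
      have c := hF.2 hv
      unfold tO at c
      obtain ⟨j, hj, e⟩ := Finset.mem_image.1 c
      rw [bs_mO] at hj
      simp only [Finset.mem_insert, Finset.mem_singleton] at hj
      have e3 : v.2 = j := by rw [← e]; rfl
      have e4 : v.1 = w.length - 1 := by rw [← e]; rfl
      refine (Z7_mem _ _ _).2 ⟨s, ?_, e1⟩
      unfold Z7_xs at b1
      have : 0 < w.length := by omega
      rcases b1 with b1 | b1 | b1 | b1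
      · omega
      · omega
      · exact m992 _ b1.1 b1.2.1
      · omega

end Pool.Agent.MP_455d73_gt.CS
end
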