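import Pool.Agent.Lib.MP_455d73_gt.CS.Word
import Pool.Agent.Lib.MP_455d73_gt.Mg.G001

section

/-!
TASK Al (medium): alternating words of two generators. `alt a b q` is the word `a, b, a, …` of length `q`.
`U c q` is the sequence `0, 1, 2c, 4c² - 1, …` (for `c = cos θ`: `U c q = sin (q θ) / sin θ`).

`U_nonneg_cos`: `sin θ * U (cos θ) q = sin (q θ)` by two-step induction (`Real.sin_add`, or
`sin ((q+2) θ) + sin (q θ) = 2 cos θ sin ((q+1) θ)`), and `0 < sin (π / m)`, `0 ≤ sin (q π / m)` for `q ≤ m`.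
`U_nonneg_one`: for `1 ≤ c`: `0 ≤ U c q ≤ U c (q + 1)` by induction.
`lor_alt`: let `F q a b = lor (wd (alt a b q) y) e_b`. For `q = 0` it is `lor y e_b`, for `q = 1` it is
`lor (s_a y) e_b = lor y e_b + 2 c lor y e_a` with `c = - lor e_a e_b`; and `F (q+2) a b = 2 c F (q+1) b a - F q a b`:
`wd (alt a b (q+2)) y = s_a (s_b z)` with `z = wd (alt a b q) y`, `s_b z = wd (alt b a (q+1)) y`, so
`F (q+2) a b = lor (s_a (s_b z)) e_b = lor (s_b z) e_b + 2 c lor (s_b z) e_a = - lor z e_b + 2 c F (q+1) b a`.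
Induction on `q` in steps of two (`Nat.twoStepInduction` or prove the statement for `q` and `q+1` together), for all `a`, `b`.
`rel`: `(s_a s_b) ^ M = 1` if `lor e_a e_b = - cos (π / M)`, `2 ≤ M`. For every `y` the vector
`D = ((s_a s_b)^M y).1 - y.1` is a combination `α e_a + β e_b` (induction on the number of factors), and `lor D e_b = 0`
by `lor_alt` for `q = 2 M` (`U (2M) = 0`, `U (2M+1) = 1`, as `sin (2π) = 0`, `sin (2π + θ) = sin θ`), `lor D e_a = 0` by symmetry:
`(s_a s_b)^M y = s_a x` with `x = wd (alt b a (2M-1)) y`, `lor (s_a x) e_a = - lor x e_a = - F (2M-1) b a = - U (2M-1) lor y e_a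
- U (2M) …` with `U (2M-1) = -1` (or: the same computation for `(s_b s_a)^M`, which is the inverse). Then
`α - c β = 0 = - c α + β`, so `(1 - c²) α = 0`, `α = β = 0` since `0 ≤ c < 1` (`2 ≤ M`).
-/

set_option autoImplicit false

open Finset
open scoped Classical

namespace Pool.Agent.MP_455d73_gt.CS

variable {n : ℕ} {I S : Type}

/-- The alternating word of length `q` beginning with `a`. -/
def alt (a b : I) : ℕ → List I
  | 0 => []
  | q + 1 => a :: alt b a q

/-- The sequence `0, 1, 2c, …`. -/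
def U (c : ℝ) : ℕ → ℝ
  | 0 => 0
  | 1 => 1
  | q + 2 => 2 * c * U c (q + 1) - U c q

theorem U_cos (θ : ℝ) (q : ℕ) : Real.sin θ * U (Real.cos θ) q = Real.sin (q * θ) := by
  induction q using Nat.twoStepInduction with
  | zero => simp [U]
  | one => simp [U]
  | more q h1 h2 =>
    have h3 : Real.sin (((q + 2 : ℕ) : ℝ) * θ) =
        2 * Real.cos θ * Real.sin (((q + 1 : ℕ) : ℝ) * θ) - Real.sin ((q : ℝ) * θ) := by
      have e1 : ((q + 2 : ℕ) : ℝ) * θ = ((q + 1 : ℕ) : ℝ) * θ + θ := by push_cast; ring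
      have e2 : (q : ℝ) * θ = ((q + 1 : ℕ) : ℝ) * θ - θ := by push_cast; ring
      rw [e1, e2, Real.sin_add, Real.sin_sub]
      ring
    rw [h3, ← h1, ← h2]
    simp only [U]
    ring

private theorem Al_sin_pos (m : ℕ) (hm : 2 ≤ m) : 0 < Real.sin (Real.pi / m) := by
  have hm' : (2 : ℝ) ≤ (m : ℝ) := by exact_mod_cast hm
  refine Real.sin_pos_of_pos_of_lt_pi (div_pos Real.pi_pos (by linarith)) ?_
  exact div_lt_self Real.pi_pos (by linarith)

theorem U_nonneg_cos (m : ℕ) (hm : 2 ≤ m) (q : ℕ) (hq : q ≤ m) : 0 ≤ U (Real.cos (Real.pi / m)) q := by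
  have hm' : (2 : ℝ) ≤ (m : ℝ) := by exact_mod_cast hm
  have h0 : (0 : ℝ) < (m : ℝ) := by linarith
  have h1 := Al_sin_pos m hm
  have h2 := U_cos (Real.pi / m) q
  have h3 : 0 ≤ Real.sin (q * (Real.pi / m)) := by
    refine Real.sin_nonneg_of_nonneg_of_le_pi (by positivity) ?_
    have hq' : (q : ℝ) ≤ (m : ℝ) := by exact_mod_cast hq
    calc (q : ℝ) * (Real.pi / m) ≤ (m : ℝ) * (Real.pi / m) :=
          mul_le_mul_of_nonneg_right hq' (by positivity)
      _ = Real.pi := by field_simp
  rw [← h2] at h3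
  exact nonneg_of_mul_nonneg_right h3 h1

private theorem Al_mono (c : ℝ) (hc : 1 ≤ c) (q : ℕ) : 0 ≤ U c q ∧ U c q ≤ U c (q + 1) := by
  induction q with
  | zero => simp [U]
  | succ q ih =>
    have h : U c (q + 1 + 1) = 2 * c * U c (q + 1) - U c q := rfl
    refine ⟨ih.1.trans ih.2, ?_⟩
    rw [h]
    nlinarith [ih.1, ih.2]

theorem U_nonneg_one (c : ℝ) (hc : 1 ≤ c) (q : ℕ) : 0 ≤ U c q := (Al_mono c hc q).1

private theorem Al_s (R : CX n I) (a : I) (x : Hyp n) (e : Mk n) :
    lor (R.s a x).1 e = lor x.1 e - 2 * lor x.1 (R.e a) * lor (R.e a) e := by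
  show lor (x.1 - (2 * lor x.1 (R.e a)) • R.e a) e = _
  rw [lor_sub_left, lor_smul_left]

private theorem Al_wd (R : CX n I) (σ : I → Equiv.Perm S) (i : I) (l : List I) (y : Hyp n) :
    (R.wd σ (i :: l)).1 y = R.s i ((R.wd σ l).1 y) := by
  simp [CX.wd]

theorem CX.lor_alt (R : CX n I) (σ : I → Equiv.Perm S) (a b : I) (q : ℕ) (y : Hyp n) :
    lor ((R.wd σ (alt a b q)).1 y).1 (R.e b) =
      if Even q then
        U (- lor (R.e a) (R.e b)) (q + 1) * lor y.1 (R.e b) + U (- lor (R.e a) (R.e b)) q * lor y.1 (R.e a)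
      else
        U (- lor (R.e a) (R.e b)) (q + 1) * lor y.1 (R.e a) + U (- lor (R.e a) (R.e b)) q * lor y.1 (R.e b) := by
  induction q using Nat.twoStepInduction generalizing a b with
  | zero =>
    simp [alt, U, CX.wd]
  | one =>
    rw [if_neg (by decide)]
    show lor ((R.wd σ (a :: [])).1 y).1 (R.e b) = _
    rw [Al_wd, Al_s]
    simp only [U, CX.wd, List.map_nil, List.prod_nil, Prod.fst_one, Equiv.Perm.coe_one, id_eq]
    ring
  | more q h1 h2 =>
    have h3 : lor ((R.wd σ (alt a b (q + 2))).1 y).1 (R.e b) =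
        - lor ((R.wd σ (alt a b q)).1 y).1 (R.e b) +
          2 * (- lor (R.e a) (R.e b)) * lor ((R.wd σ (alt b a (q + 1))).1 y).1 (R.e a) := by
      have e1 : alt a b (q + 2) = a :: b :: alt a b q := rfl
      have e2 : alt b a (q + 1) = b :: alt a b q := rfl
      rw [e1, e2, Al_wd, Al_wd, Al_s, Al_s, R.unit b]
      ring
    rw [h3, h1 a b, h2 b a, lor_comm (R.e b) (R.e a)]
    have hU1 : U (- lor (R.e a) (R.e b)) (q + 2 + 1) = 2 * (- lor (R.e a) (R.e b)) *
        U (- lor (R.e a) (R.e b)) (q + 2) - U (- lor (R.e a) (R.e b)) (q + 1) := rfl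
    have hU2 : U (- lor (R.e a) (R.e b)) (q + 2) = 2 * (- lor (R.e a) (R.e b)) *
        U (- lor (R.e a) (R.e b)) (q + 1) - U (- lor (R.e a) (R.e b)) q := rfl
    by_cases hq : Even q
    · have h4 : ¬ Even (q + 1) := by
        rw [Nat.even_add_one]
        exact not_not.2 hq
      have h5 : Even (q + 2) := hq.add even_two
      rw [if_pos hq, if_neg h4, if_pos h5, hU1, hU2]
      ring
    · have h4 : Even (q + 1) := by
        rw [Nat.even_add_one]
        exact hq
      have h5 : ¬ Even (q + 2) := by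
        rw [Nat.even_add_one]
        exact not_not.2 h4
      rw [if_neg hq, if_pos h4, if_neg h5, hU1, hU2]
      ring

private theorem Al_pow (R : CX n I) (σ : I → Equiv.Perm S) (a b : I) (M : ℕ) :
    (R.wd σ (alt a b (2 * M))).1 = (R.s a * R.s b) ^ M := by
  induction M with
  | zero => simp [alt, CX.wd]
  | succ M ih =>
    have e1 : alt a b (2 * (M + 1)) = a :: b :: alt a b (2 * M) := rfl
    rw [pow_succ', ← ih, e1]
    simp [CX.wd, mul_assoc]

private theorem Al_inv (R : CX n I) (a : I) : (R.s a)⁻¹ = R.s a := by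
  rw [inv_eq_iff_mul_eq_one]
  ext1 x
  exact Subtype.ext (reflFun_reflFun (R.e a) (R.unit a) x.1)

private theorem Al_lor (R : CX n I) (a b : I) (M : ℕ) (hM : 2 ≤ M)
    (h : lor (R.e a) (R.e b) = - Real.cos (Real.pi / M)) (y : Hyp n) :
    lor (((R.s a * R.s b) ^ M) y).1 (R.e b) = lor y.1 (R.e b) := by
  have hM' : (2 : ℝ) ≤ (M : ℝ) := by exact_mod_cast hM
  have h0 : (M : ℝ) ≠ 0 := by linarith
  have h1 := Al_sin_pos M hM
  have h2 := U_cos (Real.pi / M) (2 * M)
  have h3 := U_cos (Real.pi / M) (2 * M + 1)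
  have e1 : ((2 * M : ℕ) : ℝ) * (Real.pi / M) = 2 * Real.pi := by
    push_cast
    field_simp
  have e2 : ((2 * M + 1 : ℕ) : ℝ) * (Real.pi / M) = Real.pi / M + 2 * Real.pi := by
    push_cast
    field_simp
    ring
  rw [e1, Real.sin_two_pi] at h2
  rw [e2, Real.sin_add_two_pi] at h3
  have h4 : U (Real.cos (Real.pi / M)) (2 * M) = 0 := by
    rcases mul_eq_zero.1 h2 with h5 | h5
    · exact absurd h5 (ne_of_gt h1)
    · exact h5
  have h5 : U (Real.cos (Real.pi / M)) (2 * M + 1) = 1 := by
    have h6 : Real.sin (Real.pi / M) * U (Real.cos (Real.pi / M)) (2 * M + 1) =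
        Real.sin (Real.pi / M) * 1 := by rw [h3, mul_one]
    exact mul_left_cancel₀ (ne_of_gt h1) h6
  have h6 := R.lor_alt (fun _ : I => (1 : Equiv.Perm Unit)) a b (2 * M) y
  rw [if_pos (even_two_mul M), Al_pow, h, neg_neg, h4, h5, zero_mul, add_zero, one_mul] at h6
  exact h6

private theorem Al_span (R : CX n I) (a b : I) (k : ℕ) (y : Hyp n) :
    ∃ α β : ℝ, (((R.s a * R.s b) ^ k) y).1 = y.1 + (α • R.e a + β • R.e b) := by
  induction k with
  | zero => exact ⟨0, 0, by simp⟩
  | succ k ih =>
    obtain ⟨α, β, ih⟩ := ih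
    rw [pow_succ']
    obtain ⟨γ, hγ⟩ : ∃ γ : ℝ, γ = 2 * lor (((R.s a * R.s b) ^ k) y).1 (R.e b) := ⟨_, rfl⟩
    obtain ⟨δ, hδ⟩ : ∃ δ : ℝ, δ = 2 * lor (R.s b (((R.s a * R.s b) ^ k) y)).1 (R.e a) := ⟨_, rfl⟩
    refine ⟨α - δ, β - γ, ?_⟩
    have e1 : ((R.s a * R.s b * (R.s a * R.s b) ^ k) y).1 =
        (((R.s a * R.s b) ^ k) y).1 - γ • R.e b - δ • R.e a := by
      rw [hγ, hδ]
      rfl
    rw [e1, ih]
    module

theorem CX.rel (R : CX n I) (a b : I) (M : ℕ) (hM : 2 ≤ M)
    (h : lor (R.e a) (R.e b) = - Real.cos (Real.pi / M)) : (R.s a * R.s b) ^ M = 1 := by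
  ext1 y
  obtain ⟨α, β, hαβ⟩ := Al_span R a b M y
  have h1 := Al_lor R a b M hM h y
  have h2 := Al_lor R b a M hM (by rw [lor_comm]; exact h) (((R.s a * R.s b) ^ M) y)
  have e1 : (R.s b * R.s a) ^ M = ((R.s a * R.s b) ^ M)⁻¹ := by
    rw [← inv_pow, mul_inv_rev, Al_inv, Al_inv]
  have e2 : ((R.s b * R.s a) ^ M) (((R.s a * R.s b) ^ M) y) = y := by
    rw [e1]
    exact Equiv.symm_apply_apply _ y
  rw [e2] at h2
  rw [hαβ] at h1 h2
  simp only [lor_add_left, lor_smul_left, R.unit, lor_comm (R.e b) (R.e a), h] at h1 h2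
  have h3 : Real.sin (Real.pi / M) ^ 2 + Real.cos (Real.pi / M) ^ 2 = 1 :=
    Real.sin_sq_add_cos_sq _
  have h4 := Al_sin_pos M hM
  have h5 : β = Real.cos (Real.pi / M) * α := by linarith
  have h6 : α = Real.cos (Real.pi / M) * β := by linarith
  have h7 : Real.sin (Real.pi / M) ^ 2 * α = 0 := by
    have : Real.sin (Real.pi / M) ^ 2 = 1 - Real.cos (Real.pi / M) ^ 2 := by linarith
    rw [this]
    rw [h5] at h6
    linarith
  have h8 : α = 0 := by
    rcases mul_eq_zero.1 h7 with h9 | h9
    · exact absurd h9 (ne_of_gt (pow_pos h4 2))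
    · exact h9
  have h9 : β = 0 := by rw [h5, h8, mul_zero]
  refine Subtype.ext ?_
  rw [hαβ, h8, h9, zero_smul, zero_smul, add_zero, add_zero]
  rfl

end Pool.Agent.MP_455d73_gt.CS
end

section

/-!
TASK B1a (medium): the key lemma on lengths. `R.wd σ l` is the product of the generators of the word `l`.

`wd_cons`, `wd_append`: `List.prod_cons`, `List.prod_append`. `wd_cancel`: `R.s i * R.s i = 1` by `reflFun_reflFun`, and `hσ.1`.
`wd_braid`: if `M = m a b ≥ 2` then `wd (alt a b M) = wd (alt b a M)`: both components satisfy `x² = y² = 1`, `(x y)^M = 1`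
(`CX.rel`, `hσ.2`), and `wd (alt a b M) * (wd (alt b a M))⁻¹ = (x y)^M = 1` (`(alt b a M).reverse` is `alt a b M` for even `M`
and `alt b a M` for odd `M`; simplest: prove for involutions `x y` in a group, by induction on `q`, that
`P a b q * (P b a q)⁻¹ = (a b)^q` where `P a b q` is the product of the alternating word: `P a b (q+1) = a P b a q`,
`(P b a (q+1))⁻¹ = (P a b q)⁻¹ b⁻¹`, so `P a b (q+1) (P b a (q+1))⁻¹ = a (P b a q (P a b q)⁻¹) b = a (b a)^q b = (a b)^(q+1)`).

`len_half`: Let `l` be a word of minimal length `m` among the words with the same product, and suppose that every word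
with the same product as `i :: l` has length at least `m`. Then the chamber `l P` is in the inner half-space of `i`.
Strong induction on `m`. `m = 0`: `l = []`, `x ∈ P`. `m ≥ 1`: `l = j :: l'`; `j ≠ i`: otherwise `wd (i :: l) = wd l'` by
`wd_cancel` and `m ≤ l'.length = m - 1`. Consider the numbers `p` such that there is a word `v` with `v.length = p` and
`wd (alt j i (m - p) ++ v) = wd l`, `p < m` (`p = m - 1`, `v = l'` is one), and let `p` be the least one, `v` its word,
`q = m - p ≥ 1`. `v` is minimal for its product (a shorter word would give a shorter word for `l`). Let `a` be the last letter of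
`alt j i q` and `b` the other letter of `i, j`. (1) every word `u` with `wd u = wd (a :: v)` has length `≥ p`: otherwise, with
`alt j i q = w ++ [a]`, `wd (w ++ u) = wd l` has length `q - 1 + u.length < m`. (2) every word `u` with `wd u = wd (b :: v)` has length `≥ p`:
otherwise `wd (alt j i (q+1) ++ u) = wd (alt j i q ++ b :: u) = wd l` (as `wd (b :: u) = wd v`), with
`u.length ≤ p - 1`; its length is `≤ m`, so `= m` by minimality of `l`, `u.length = p - 1`, and `p - 1` contradicts the choice of `p`.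
By induction (`p < m`), with `y = (wd v).1 x`: `lor y e_a ≤ 0`, `lor y e_b ≤ 0`, i.e. for both `i` and `j`.
If `m_ij = 0` (`lor e_i e_j ≤ -1`): `lor_alt` (for `alt j i q`, with `U_nonneg_one`) gives the claim, as
`(wd l).1 x = (wd (alt j i q)).1 y`. If `M = m_ij ≥ 2`: if `q ≤ M - 1`, `lor_alt` and `U_nonneg_cos` (for `q` and
`q + 1 ≤ M`) give the claim. If `q ≥ M`: `alt j i q = alt j i M ++ r`, and `wd (alt j i M) = wd (alt i j M)` (`wd_braid`), so
`wd (i :: l) = wd (i :: alt i j M ++ r ++ v) = wd (alt j i (M-1) ++ r ++ v)` has length `m - 1`, a contradiction.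
-/

set_option autoImplicit false

open Finset
open scoped Classical

namespace Pool.Agent.MP_455d73_gt.CS

variable {n : ℕ} {I S : Type}

theorem CX.wd_cons (R : CX n I) (σ : I → Equiv.Perm S) (i : I) (l : List I) :
    R.wd σ (i :: l) = (R.s i, σ i) * R.wd σ l := by
  simp [CX.wd]

theorem CX.wd_append (R : CX n I) (σ : I → Equiv.Perm S) (l l' : List I) :
    R.wd σ (l ++ l') = R.wd σ l * R.wd σ l' := by
  simp [CX.wd]

private theorem B1a_s_sq (R : CX n I) (i : I) : R.s i * R.s i = 1 := by
  ext1 x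
  exact Subtype.ext (reflFun_reflFun (R.e i) (R.unit i) x.1)

theorem CX.wd_cancel (R : CX n I) (σ : I → Equiv.Perm S) (hσ : R.Compat σ) (i : I) (l : List I) :
    R.wd σ (i :: i :: l) = R.wd σ l := by
  rw [CX.wd_cons, CX.wd_cons, ← mul_assoc]
  have h : ((R.s i, σ i) * (R.s i, σ i) : Equiv.Perm (Hyp n) × Equiv.Perm S) = 1 := by
    rw [Prod.mk_mul_mk, B1a_s_sq, hσ.1 i]
    rfl
  rw [h, one_mul]

private theorem B1a_mul {G : Type} [Group G] (x y : G) (q : ℕ) :
    x * (y * x) ^ q * y = (x * y) ^ (q + 1) := by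
  induction q with
  | zero => simp
  | succ q ih =>
    rw [pow_succ (x * y) (q + 1), ← ih, pow_succ (y * x) q]
    simp only [mul_assoc]

private theorem B1a_inv (R : CX n I) (σ : I → Equiv.Perm S) (hσ : R.Compat σ) (i : I) :
    ((R.s i, σ i) : Equiv.Perm (Hyp n) × Equiv.Perm S)⁻¹ = (R.s i, σ i) := by
  rw [inv_eq_iff_mul_eq_one, Prod.mk_mul_mk, B1a_s_sq, hσ.1 i]
  rfl

private theorem B1a_alt (R : CX n I) (σ : I → Equiv.Perm S) (hσ : R.Compat σ) (a b : I) (q : ℕ) :
    R.wd σ (alt a b q) * (R.wd σ (alt b a q))⁻¹ = ((R.s a, σ a) * (R.s b, σ b)) ^ q := by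
  induction q generalizing a b with
  | zero => simp [alt]
  | succ q ih =>
    have e1 : alt a b (q + 1) = a :: alt b a q := rfl
    have e2 : alt b a (q + 1) = b :: alt a b q := rfl
    rw [e1, e2, CX.wd_cons, CX.wd_cons, mul_inv_rev, B1a_inv R σ hσ b, ← B1a_mul, ← ih b a]
    simp only [mul_assoc]

theorem CX.wd_braid (R : CX n I) (σ : I → Equiv.Perm S) (hσ : R.Compat σ) (a b : I) (hab : a ≠ b)
    (hm : 2 ≤ R.m a b) : R.wd σ (alt a b (R.m a b)) = R.wd σ (alt b a (R.m a b)) := by
  have h1 := B1a_alt R σ hσ a b (R.m a b)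
  have h2 : (((R.s a, σ a) * (R.s b, σ b)) ^ (R.m a b) : Equiv.Perm (Hyp n) × Equiv.Perm S) = 1 := by
    rw [Prod.mk_mul_mk, Prod.pow_mk, hσ.2 a b hab]
    rcases R.gram a b hab with h | h
    · rw [R.rel a b (R.m a b) hm h.2]
      rfl
    · exfalso
      omega
  rw [h2, mul_inv_eq_one] at h1
  exact h1

private theorem B1a_len (a b : I) (q : ℕ) : (alt a b q).length = q := by
  induction q generalizing a b with
  | zero => rfl
  | succ q ih =>
    show (a :: alt b a q).length = q + 1
    rw [List.length_cons, ih]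

private theorem B1a_snoc (a b : I) (q : ℕ) :
    alt a b (q + 1) = alt a b q ++ [if Even q then a else b] := by
  induction q generalizing a b with
  | zero => simp [alt]
  | succ q ih =>
    have e1 : alt a b (q + 1 + 1) = a :: alt b a (q + 1) := rfl
    have e2 : alt a b (q + 1) = a :: alt b a q := rfl
    rw [e1, e2, ih b a]
    by_cases h : Even q
    · have h' : ¬ Even (q + 1) := by
        rw [Nat.even_add_one]
        exact not_not.2 h
      rw [if_pos h, if_neg h']
      rfl
    · have h' : Even (q + 1) := by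
        rw [Nat.even_add_one]
        exact h
      rw [if_neg h, if_pos h']
      rfl

private theorem B1a_split (a b : I) (k r : ℕ) :
    ∃ w : List I, alt a b (k + r) = alt a b k ++ w ∧ w.length = r := by
  induction k generalizing a b with
  | zero => exact ⟨alt a b r, by rw [Nat.zero_add]; rfl, B1a_len a b r⟩
  | succ k ih =>
    obtain ⟨w, h1, h2⟩ := ih b a
    refine ⟨w, ?_, h2⟩
    have e1 : alt a b (k + 1 + r) = a :: alt b a (k + r) := by
      rw [show k + 1 + r = (k + r) + 1 by omega]
      rfl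
    rw [e1, h1]
    rfl

private theorem B1a_cancel (R : CX n I) (σ : I → Equiv.Perm S) (hσ : R.Compat σ) (i : I)
    (g : Equiv.Perm (Hyp n) × Equiv.Perm S) : (R.s i, σ i) * ((R.s i, σ i) * g) = g := by
  rw [← mul_assoc]
  have h : ((R.s i, σ i) * (R.s i, σ i) : Equiv.Perm (Hyp n) × Equiv.Perm S) = 1 := by
    rw [Prod.mk_mul_mk, B1a_s_sq, hσ.1 i]
    rfl
  rw [h, one_mul]

theorem CX.len_half (R : CX n I) (σ : I → Equiv.Perm S) (hσ : R.Compat σ) (m : ℕ) :
    ∀ l : List I, l.length = m → (∀ l', R.wd σ l' = R.wd σ l → m ≤ l'.length) →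
      ∀ i, (∀ l', R.wd σ l' = R.wd σ (i :: l) → m ≤ l'.length) →
        ∀ x ∈ R.P, lor ((R.wd σ l).1 x).1 (R.e i) ≤ 0 := by
  induction m using Nat.strong_induction_on with
  | _ m ih =>
    intro l hl hmin i hi x hx
    rcases l with _ | ⟨j, l'⟩
    · exact hx i
    · have hl' : l'.length + 1 = m := hl
      have hji : j ≠ i := by
        rintro rfl
        have h := hi l' (R.wd_cancel σ hσ j l').symm
        omega
      -- the longest alternating beginning
      have hex : ∃ p, p < m ∧ ∃ v : List I, v.length = p ∧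
          R.wd σ (alt j i (m - p) ++ v) = R.wd σ (j :: l') := by
        refine ⟨m - 1, by omega, l', by omega, ?_⟩
        rw [show m - (m - 1) = 1 by omega]
        rfl
      obtain ⟨p, hp, hpmin⟩ : ∃ p, (p < m ∧ ∃ v : List I, v.length = p ∧
          R.wd σ (alt j i (m - p) ++ v) = R.wd σ (j :: l')) ∧
            ∀ p' < p, ¬ (p' < m ∧ ∃ v : List I, v.length = p' ∧
              R.wd σ (alt j i (m - p') ++ v) = R.wd σ (j :: l')) :=
        ⟨Nat.find hex, Nat.find_spec hex, fun p' hp' => Nat.find_min hex hp'⟩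
      obtain ⟨hpm, v, hv, hvw⟩ := hp
      obtain ⟨q', hq'⟩ : ∃ q', m - p = q' + 1 := ⟨m - p - 1, by omega⟩
      rw [hq'] at hvw
      have hvmin : ∀ u, R.wd σ u = R.wd σ v → p ≤ u.length := by
        intro u hu
        have h := hmin (alt j i (q' + 1) ++ u) (by
          rw [← hvw, R.wd_append, R.wd_append, hu])
        rw [List.length_append, B1a_len] at h
        omega
      have h1 : ∀ u, R.wd σ u = R.wd σ ((if Even q' then j else i) :: v) → p ≤ u.length := by
        intro u hu
        have h := hmin (alt j i q' ++ u) (by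
          rw [← hvw, B1a_snoc, List.append_assoc, R.wd_append, R.wd_append, hu]
          rfl)
        rw [List.length_append, B1a_len] at h
        omega
      have h2 : ∀ u, R.wd σ u = R.wd σ ((if Even (q' + 1) then j else i) :: v) →
          p ≤ u.length := by
        intro u hu
        by_contra hup
        have hbu : R.wd σ ((if Even (q' + 1) then j else i) :: u) = R.wd σ v := by
          rw [R.wd_cons, hu, R.wd_cons, B1a_cancel R σ hσ]
        have h3 : R.wd σ (alt j i (q' + 1 + 1) ++ u) = R.wd σ (j :: l') := by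
          rw [← hvw, B1a_snoc j i (q' + 1), List.append_assoc, List.singleton_append,
            R.wd_append σ (alt j i (q' + 1)) v, R.wd_append, hbu]
        have h := hmin _ h3
        rw [List.length_append, B1a_len] at h
        exact hpmin (p - 1) (by omega) ⟨by omega, u, by omega, by
          rw [show m - (p - 1) = q' + 1 + 1 by omega]
          exact h3⟩
      have ha := ih p hpm v hv hvmin _ h1 x hx
      have hb := ih p hpm v hv hvmin _ h2 x hx
      have hij : lor ((R.wd σ v).1 x).1 (R.e i) ≤ 0 ∧ lor ((R.wd σ v).1 x).1 (R.e j) ≤ 0 := by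
        by_cases h : Even q'
        · have h' : ¬ Even (q' + 1) := by
            rw [Nat.even_add_one]
            exact not_not.2 h
          rw [if_pos h] at ha
          rw [if_neg h'] at hb
          exact ⟨hb, ha⟩
        · have h' : Even (q' + 1) := by
            rw [Nat.even_add_one]
            exact h
          rw [if_neg h] at ha
          rw [if_pos h'] at hb
          exact ⟨ha, hb⟩
      have hU : 0 ≤ U (- lor (R.e j) (R.e i)) (q' + 1) ∧
          0 ≤ U (- lor (R.e j) (R.e i)) (q' + 1 + 1) := by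
        rcases R.gram j i hji with h | h
        · rw [h.2, neg_neg]
          rcases Nat.lt_or_ge (q' + 1) (R.m j i) with h3 | h3
          · exact ⟨U_nonneg_cos _ h.1 _ (by omega), U_nonneg_cos _ h.1 _ (by omega)⟩
          · exfalso
            obtain ⟨w, hw1, hw2⟩ := B1a_split j i (R.m j i) (q' + 1 - R.m j i)
            rw [show R.m j i + (q' + 1 - R.m j i) = q' + 1 by omega] at hw1
            obtain ⟨M, hM⟩ : ∃ M, R.m j i = M + 1 := ⟨R.m j i - 1, by omega⟩
            have hbr := R.wd_braid σ hσ j i hji h.1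
            have h4 : R.wd σ (alt j i M ++ w ++ v) = R.wd σ (i :: j :: l') := by
              rw [R.wd_cons, ← hvw, hw1, R.wd_append, R.wd_append, R.wd_append, R.wd_append, hbr, hM]
              have e1 : alt i j (M + 1) = i :: alt j i M := rfl
              rw [e1, R.wd_cons]
              simp only [mul_assoc]
              rw [B1a_cancel R σ hσ]
            have h5 := hi _ h4
            rw [List.length_append, List.length_append, B1a_len] at h5
            omega
        · exact ⟨U_nonneg_one _ (by linarith [h.2]) _, U_nonneg_one _ (by linarith [h.2]) _⟩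
      have hfin : (R.wd σ (j :: l')).1 x = (R.wd σ (alt j i (q' + 1))).1 ((R.wd σ v).1 x) := by
        rw [← hvw, R.wd_append]
        rfl
      rw [hfin, R.lor_alt σ j i (q' + 1)]
      split_ifs
      · nlinarith [mul_nonneg hU.2 (neg_nonneg.2 hij.1), mul_nonneg hU.1 (neg_nonneg.2 hij.2)]
      · nlinarith [mul_nonneg hU.2 (neg_nonneg.2 hij.2), mul_nonneg hU.1 (neg_nonneg.2 hij.1)]

end Pool.Agent.MP_455d73_gt.CS
end

section

/-!
TASK B1 (medium): the polytope is a strict fundamental domain, with the stabilisers generated by walls.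

`exists_wd`: every element of `R.GS σ` is the product of a word: `Subgroup.closure_induction` (the inverse of `wd l` is
`wd l.reverse`, since the generators are involutions: `(R.s i, σ i)⁻¹ = (R.s i, σ i)`).
`tits`: choose a word `l` with `wd l = g` of minimal length `m` (`Nat.find`), and prove by induction on `m`:
for every `g`, `x` as in the statement. `m = 0`: `g = 1`. `m + 1`: `l = j :: l'`, `l'` is minimal for its product `g'`, and
`CX.len_half` for `(l', j)` (a word with the product of `j :: l' = l` has length `≥ m + 1 ≥ m`) gives `lor (g' x) e_j ≤ 0`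
(`g'.1 x`). As `g x = R.s j (g' x)`: `lor (g x) e_j = - lor (g' x) e_j ≥ 0`; but `g x ∈ P`, so `lor (g x) e_j = 0`. Hence
`g' x = R.s j (g x) = g x` (`refl` fixes the points of its wall), which is in `P`; by induction `g' x = x` and `g' ∈ GSx x`; and
`j` is a wall through `g x = g' x = x`, so `g = (R.s j, σ j) * g' ∈ GSx x`.
-/

set_option autoImplicit false

open Finset
open scoped Classical

namespace Pool.Agent.MP_455d73_gt.CS

variable {n : ℕ} {I S : Type}

theorem CX.exists_wd (R : CX n I) (σ : I → Equiv.Perm S) (hσ : R.Compat σ)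
    (g : Equiv.Perm (Hyp n) × Equiv.Perm S) (hg : g ∈ R.GS σ) : ∃ l, R.wd σ l = g := by
  have hinv : ∀ i, ((R.s i, σ i) : Equiv.Perm (Hyp n) × Equiv.Perm S)⁻¹ = (R.s i, σ i) := by
    intro i
    have h := R.wd_cancel σ hσ i []
    rw [R.wd_cons, R.wd_cons] at h
    have h0 : R.wd σ ([] : List I) = 1 := rfl
    rw [h0, mul_one] at h
    exact inv_eq_of_mul_eq_one_left h
  unfold CX.GS at hg
  induction hg using Subgroup.closure_induction with
  | mem x hx =>
    obtain ⟨i, rfl⟩ := hx
    refine ⟨[i], ?_⟩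
    rw [R.wd_cons]
    exact mul_one _
  | one => exact ⟨[], rfl⟩
  | mul x y _ _ hx hy =>
    obtain ⟨l, rfl⟩ := hx
    obtain ⟨l', rfl⟩ := hy
    refine ⟨l ++ l', ?_⟩
    unfold CX.wd
    rw [List.map_append, List.prod_append]
  | inv x _ hx =>
    obtain ⟨l, rfl⟩ := hx
    refine ⟨l.reverse, ?_⟩
    unfold CX.wd
    rw [List.prod_inv_reverse, List.map_map, List.map_reverse]
    congr 2
    apply List.map_congr_left
    intro i _
    exact (hinv i).symm

/-- The polytope is a strict fundamental domain. -/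
theorem CX.tits (R : CX n I) (σ : I → Equiv.Perm S) (hσ : R.Compat σ)
    (g : Equiv.Perm (Hyp n) × Equiv.Perm S) (hg : g ∈ R.GS σ) (x : Hyp n) (hx : x ∈ R.P)
    (hgx : g.1 x ∈ R.P) : g.1 x = x ∧ g ∈ R.GSx σ x := by
  have key : ∀ m : ℕ, ∀ l : List I, l.length = m →
      (∀ l', R.wd σ l' = R.wd σ l → m ≤ l'.length) → (R.wd σ l).1 x ∈ R.P →
      (R.wd σ l).1 x = x ∧ R.wd σ l ∈ R.GSx σ x := by
    intro m
    induction m with
    | zero =>
      intro l hl _ _
      have hl0 : l = [] := List.length_eq_zero_iff.1 hl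
      subst hl0
      exact ⟨rfl, (R.GSx σ x).one_mem⟩
    | succ m ih =>
      intro l hl hmin hP
      match l, hl with
      | [], hl => simp at hl
      | j :: l', hl =>
        have hl' : l'.length = m := by simpa using hl
        have hmin' : ∀ l'', R.wd σ l'' = R.wd σ l' → m ≤ l''.length := by
          intro l'' h
          have h1 : R.wd σ (j :: l'') = R.wd σ (j :: l') := by
            rw [R.wd_cons, R.wd_cons, h]
          have h2 := hmin _ h1
          simpa using h2
        have hhalf := R.len_half σ hσ m l' hl' hmin' j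
          (fun l'' h => by have := hmin _ h; omega) x hx
        rw [R.wd_cons] at hP
        have hP' : R.s j ((R.wd σ l').1 x) ∈ R.P := hP
        have hj := hP' j
        have hcomp : lor (R.s j ((R.wd σ l').1 x)).1 (R.e j) =
            - lor ((R.wd σ l').1 x).1 (R.e j) := by
          unfold CX.s
          rw [refl_coe, lor_sub_left, lor_smul_left, R.unit j]
          ring
        have h0 : lor ((R.wd σ l').1 x).1 (R.e j) = 0 := by
          rw [hcomp] at hj
          linarith
        have hfix : R.s j ((R.wd σ l').1 x) = (R.wd σ l').1 x := by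
          apply Subtype.ext
          unfold CX.s
          rw [refl_coe, h0]
          simp
        rw [hfix] at hP'
        obtain ⟨h1, h2⟩ := ih l' hl' hmin' hP'
        have hgen : ((R.s j, σ j) : Equiv.Perm (Hyp n) × Equiv.Perm S) ∈ R.GSx σ x := by
          apply Subgroup.subset_closure
          refine ⟨j, ?_, rfl⟩
          rw [← h1]
          exact h0
        rw [R.wd_cons]
        refine ⟨?_, (R.GSx σ x).mul_mem hgen h2⟩
        change R.s j ((R.wd σ l').1 x) = x
        rw [hfix, h1]
  have hex : ∃ m : ℕ, ∃ l : List I, l.length = m ∧ R.wd σ l = g := by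
    obtain ⟨l, hl⟩ := R.exists_wd σ hσ g hg
    exact ⟨l.length, l, rfl, hl⟩
  obtain ⟨l, hl, hlg⟩ := Nat.find_spec hex
  have hk := key (Nat.find hex) l hl (fun l' h => Nat.find_min' hex ⟨l', rfl, by rw [h, hlg]⟩)
    (by rw [hlg]; exact hgx)
  rw [hlg] at hk
  exact hk

end Pool.Agent.MP_455d73_gt.CS
end
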