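import Pool.Agent.Lib.MP_455d73_gt.Mg.G002

section

/-!
TASK B3 (easy): the projection of `R.GS σ` to the reflection group is bijective.

`exists_perm`: closure induction on `g ∈ R.G` (`g = R.s i`: `(R.s i, σ i)`; products; inverses).
`fst_mem`: closure induction (or `Subgroup.map`/`comap` along `MonoidHom.fst`).
`perm_unique`: `(g, π), (g, π') ∈ GS σ`: then `(1, π⁻¹ * π') ∈ GS σ`; `ctr ∈ P` (by `R.ctr_neg`), `1 ctr = ctr ∈ P`, so by `CX.tits`
`(1, π⁻¹ π') ∈ GSx σ ctr`; no wall contains `ctr`, so `GSx σ ctr = closure ∅ = ⊥`, and `π⁻¹ π' = 1`.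
`snd_mem`: the second component of an element of `GS σ` is in the closure of the range of `σ`.
`exists_of_snd`: every element of the closure of the range of `σ` is the second component of an element of `GS σ`.
`exists_of_act`: every element `π` of the closure of `σ '' A` is the second component of an element `(g, π)` of `R.GSx σ x`, if all
walls in `A` contain `x`; and such `g` fixes `x`.
-/

set_option autoImplicit false

open Finset
open scoped Classical

namespace Pool.Agent.MP_455d73_gt.CS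

variable {n : ℕ} {I S : Type}

theorem CX.exists_perm (R : CX n I) (σ : I → Equiv.Perm S) (g : Equiv.Perm (Hyp n)) (hg : g ∈ R.G) :
    ∃ π, (g, π) ∈ R.GS σ := by
  unfold CX.G at hg
  induction hg using Subgroup.closure_induction with
  | mem x hx =>
    obtain ⟨i, rfl⟩ := hx
    exact ⟨σ i, Subgroup.subset_closure ⟨i, rfl⟩⟩
  | one => exact ⟨1, (R.GS σ).one_mem⟩
  | mul x y hx hy ihx ihy =>
    obtain ⟨π, h⟩ := ihx
    obtain ⟨π', h'⟩ := ihy
    exact ⟨π * π', (R.GS σ).mul_mem h h'⟩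
  | inv x hx ih =>
    obtain ⟨π, h⟩ := ih
    exact ⟨π⁻¹, (R.GS σ).inv_mem h⟩

theorem CX.fst_mem (R : CX n I) (σ : I → Equiv.Perm S) (g : Equiv.Perm (Hyp n)) (π : Equiv.Perm S)
    (h : (g, π) ∈ R.GS σ) : g ∈ R.G := by
  have key : R.GS σ ≤ R.G.comap (MonoidHom.fst _ _) := by
    unfold CX.GS
    rw [Subgroup.closure_le]
    rintro x ⟨i, rfl⟩
    exact Subgroup.subset_closure ⟨i, rfl⟩
  exact key h

theorem CX.perm_unique (R : CX n I) (σ : I → Equiv.Perm S) (hσ : R.Compat σ)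
    (g : Equiv.Perm (Hyp n)) (π π' : Equiv.Perm S) (h : (g, π) ∈ R.GS σ) (h' : (g, π') ∈ R.GS σ) :
    π = π' := by
  have h1 : ((1 : Equiv.Perm (Hyp n)), π⁻¹ * π') ∈ R.GS σ := by
    have := (R.GS σ).mul_mem ((R.GS σ).inv_mem h) h'
    simpa using this
  have hP : R.ctr ∈ R.P := fun i => le_of_lt (R.ctr_neg i)
  have h2 := (R.tits σ hσ (1, π⁻¹ * π') h1 R.ctr hP hP).2
  have h3 : R.GSx σ R.ctr = ⊥ := by
    unfold CX.GSx
    rw [Subgroup.closure_eq_bot_iff]
    rintro x ⟨i, hi, -⟩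
    exact absurd hi (ne_of_lt (R.ctr_neg i))
  rw [h3] at h2
  have h4 := h2
  rw [Subgroup.mem_bot] at h4
  have h5 : π⁻¹ * π' = 1 := congrArg Prod.snd h4
  exact (inv_mul_eq_one.1 h5)

theorem CX.snd_mem (R : CX n I) (σ : I → Equiv.Perm S) (g : Equiv.Perm (Hyp n)) (π : Equiv.Perm S)
    (h : (g, π) ∈ R.GS σ) : π ∈ Subgroup.closure (Set.range σ) := by
  have key : R.GS σ ≤ (Subgroup.closure (Set.range σ)).comap (MonoidHom.snd _ _) := by
    unfold CX.GS
    rw [Subgroup.closure_le]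
    rintro x ⟨i, rfl⟩
    exact Subgroup.subset_closure ⟨i, rfl⟩
  exact key h

theorem CX.exists_of_snd (R : CX n I) (σ : I → Equiv.Perm S) (π : Equiv.Perm S)
    (h : π ∈ Subgroup.closure (Set.range σ)) : ∃ g, (g, π) ∈ R.GS σ := by
  induction h using Subgroup.closure_induction with
  | mem x hx =>
    obtain ⟨i, rfl⟩ := hx
    exact ⟨R.s i, Subgroup.subset_closure ⟨i, rfl⟩⟩
  | one => exact ⟨1, (R.GS σ).one_mem⟩
  | mul x y hx hy ihx ihy =>
    obtain ⟨g, h⟩ := ihx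
    obtain ⟨g', h'⟩ := ihy
    exact ⟨g * g', (R.GS σ).mul_mem h h'⟩
  | inv x hx ih =>
    obtain ⟨g, h⟩ := ih
    exact ⟨g⁻¹, (R.GS σ).inv_mem h⟩

theorem CX.GSx_fix (R : CX n I) (σ : I → Equiv.Perm S) (x : Hyp n)
    (g : Equiv.Perm (Hyp n) × Equiv.Perm S) (h : g ∈ R.GSx σ x) :
    g ∈ R.GS σ ∧ g.1 x = x ∧ g.2 ∈ Subgroup.closure (σ '' {i | lor x.1 (R.e i) = 0}) := by
  have k1 : R.GSx σ x ≤ R.GS σ := by
    unfold CX.GSx
    rw [Subgroup.closure_le]
    rintro y ⟨i, -, rfl⟩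
    exact Subgroup.subset_closure ⟨i, rfl⟩
  have k2 : R.GSx σ x ≤ (MulAction.stabilizer (Equiv.Perm (Hyp n)) x).comap (MonoidHom.fst _ _) := by
    unfold CX.GSx
    rw [Subgroup.closure_le]
    rintro y ⟨i, hi, rfl⟩
    show R.s i x = x
    apply Subtype.ext
    show (refl (R.e i) (R.unit i) x).1 = x.1
    rw [refl_coe, hi]
    simp
  have k3 : R.GSx σ x ≤
      (Subgroup.closure (σ '' {i | lor x.1 (R.e i) = 0})).comap (MonoidHom.snd _ _) := by
    unfold CX.GSx
    rw [Subgroup.closure_le]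
    rintro y ⟨i, hi, rfl⟩
    exact Subgroup.subset_closure ⟨i, hi, rfl⟩
  exact ⟨k1 h, k2 h, k3 h⟩

theorem CX.exists_of_act (R : CX n I) (σ : I → Equiv.Perm S) (x : Hyp n) (π : Equiv.Perm S)
    (h : π ∈ Subgroup.closure (σ '' {i | lor x.1 (R.e i) = 0})) : ∃ g, (g, π) ∈ R.GSx σ x := by
  induction h using Subgroup.closure_induction with
  | mem y hy =>
    obtain ⟨i, hi, rfl⟩ := hy
    exact ⟨R.s i, Subgroup.subset_closure ⟨i, hi, rfl⟩⟩
  | one => exact ⟨1, (R.GSx σ x).one_mem⟩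
  | mul y z hy hz ihy ihz =>
    obtain ⟨g, h⟩ := ihy
    obtain ⟨g', h'⟩ := ihz
    exact ⟨g * g', (R.GSx σ x).mul_mem h h'⟩
  | inv y hy ih =>
    obtain ⟨g, h⟩ := ih
    exact ⟨g⁻¹, (R.GSx σ x).inv_mem h⟩

end Pool.Agent.MP_455d73_gt.CS
end

section

/-!
Campaign CS: an element of the group which maps an interior point of the polytope into the polytope is trivial.
-/

set_option autoImplicit false

open Finset
open scoped Classical

namespace Pool.Agent.MP_455d73_gt.CS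

variable {n : ℕ} {I : Type}

theorem CX.unique_int (R : CX n I) (z : Hyp n) (hz : ∀ i, lor z.1 (R.e i) < 0) (h : Equiv.Perm (Hyp n))
    (hh : h ∈ R.G) (hP : h z ∈ R.P) : h = 1 := by
  let σ : I → Equiv.Perm Unit := fun _ => 1
  have hσ : R.Compat σ := ⟨fun _ => rfl, fun _ _ _ => by simp [σ]⟩
  obtain ⟨π, hπ⟩ := R.exists_perm σ h hh
  have h1 := (R.tits σ hσ (h, π) hπ z (fun i => (hz i).le) hP).2
  have h2 : R.GSx σ z = ⊥ := by
    unfold CX.GSx
    rw [Subgroup.closure_eq_bot_iff]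
    rintro g ⟨i, hi, -⟩
    exact absurd hi (hz i).ne
  rw [h2, Subgroup.mem_bot] at h1
  exact congrArg Prod.fst h1

end Pool.Agent.MP_455d73_gt.CS
end
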