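import Pool.Agent.Lib.MP_455d73_gt.Mg.G001
import Pool.Agent.Lib.MP_455d73_gt.Mg.G003
import Pool.Agent.Lib.MP_455d73_gt.CS.B2c

section

/-!
TASK B2b (medium): near a point `p` of the polytope, the images of the polytope under finitely many elements of the group
which fix `p` cover a neighbourhood.

(a) `fix_fin`: the set `H = {g ∈ G | g p = p}` is finite. The set `U = {z | ∀ i, lor z e_i < 0}` is an open neighbourhood of `ctr`
(`I` finite); `nbhd_lor` gives `δ > 0` with: `- lor ctr z < 1 + δ` implies `z ∈ U`. If `g, g' ∈ H` and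
`- lor (g ctr) (g' ctr) < 1 + δ` then `- lor ctr (g⁻¹ g' ctr) < 1 + δ` (`CX.G_isom`), so `g⁻¹ g' ctr ∈ U ⊆ P` and
`g⁻¹ g' = 1` by `CX.unique_int`. The set `C = {z | lor p z = lor p ctr}` contains `g ctr` for `g ∈ H` and is compact: closed, and
bounded: `z.2 ≤ ` constant since, with `s = √(∑ (p.1 i)²)`, `p.2 = √(1+s²)`, `z.2 = √(1+t²)`, `- lor p z ≥ p.2 z.2 - s t ≥
(p.2 - s) z.2` (`t ≤ z.2`), so `z.2 ≤ (- lor p ctr) / (p.2 - s)`, and `|z.1 i| ≤ z.2`; compactness in the subtype `Hyp n`: `Hyp n` is a closed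
embedding in `Mk n` (the set `{x | lor x x = -1 ∧ 0 < x.2}` is closed: it equals `{x | lor x x = -1 ∧ 1 ≤ x.2}` or `… ∧ 0 ≤ x.2`). By
`nbhd_lor` (for the point `q` and the neighbourhood `{z | - lor q z < 1 + …}` or simply by continuity of `(a, b) ↦ - lor a b` at
`(q, q)`, where it is `1`) every `q ∈ C` has a neighbourhood `V q` with `- lor a b < 1 + δ` for `a, b ∈ V q`; finitely many `V q`
cover `C`, and each contains `g ctr` for at most one `g ∈ H`.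
(b) `local_cover`: `T` = the finset of `H`. For a wall `i` not through `p` and `g ∈ H`: `lor (g p) e_i = lor p e_i < 0`, so
`lor (g z) e_i < 0` for `z` near `p` (`CX.G_cont`). For `z` in the finite intersection of these neighbourhoods, choose `g ∈ H` such that
`lor (g z) ctr` is maximal (`Finset.exists_max_image`; `1 ∈ H`). For a wall `i` through `p`: `s_i g ∈ H`, so
`lor (g z) ctr - 2 lor (g z) e_i * lor e_i ctr = lor (s_i g z) ctr ≤ lor (g z) ctr`, i.e. `0 ≤ lor (g z) e_i * lor e_i ctr`, and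
`lor e_i ctr < 0` gives `lor (g z) e_i ≤ 0`.
-/

set_option autoImplicit false

open Finset
open scoped Classical

namespace Pool.Agent.MP_455d73_gt.CS

variable {n : ℕ} {I : Type}

private theorem B2b_eq (x : Hyp n) : ∑ i, x.1.1 i ^ 2 = x.1.2 ^ 2 - 1 := by
  have h := x.2.1
  simp only [lor, ← sq] at h
  linarith

private theorem B2b_one_le (x : Hyp n) : 1 ≤ x.1.2 := by
  have h := B2b_eq x
  have h0 : 0 ≤ ∑ i, x.1.1 i ^ 2 := Finset.sum_nonneg fun i _ => sq_nonneg _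
  nlinarith [x.2.2]

private theorem B2b_le (p z : Hyp n) : z.1.2 ≤ 2 * p.1.2 * (- lor p.1 z.1) := by
  have h1 := B2b_one_le p
  have h2 := B2b_one_le z
  have h3 := B2b_eq p
  have h4 := B2b_eq z
  have h5 := Finset.sum_mul_sq_le_sq_mul_sq univ p.1.1 z.1.1
  rw [h3, h4] at h5
  obtain ⟨Z, hZ⟩ : ∃ Z, Z = ∑ i, p.1.1 i * z.1.1 i := ⟨_, rfl⟩
  obtain ⟨P, hP⟩ : ∃ P, P = p.1.2 := ⟨_, rfl⟩
  obtain ⟨T, hT⟩ : ∃ T, T = z.1.2 := ⟨_, rfl⟩
  have h6 : - lor p.1 z.1 = P * T - Z := by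
    rw [hZ, hP, hT]
    unfold lor
    ring
  rw [h6, ← hT, ← hP]
  rw [← hP] at h1 h5
  rw [← hT] at h2 h5
  rw [← hZ] at h5
  have h7 : 0 ≤ (2 * P ^ 2 - 1) * T := by
    have : 0 ≤ 2 * P ^ 2 - 1 := by nlinarith
    positivity
  have h8 : (2 * P * Z) ^ 2 ≤ ((2 * P ^ 2 - 1) * T) ^ 2 := by
    have h9 : (P ^ 2 - 1) * (T ^ 2 - 1) ≤ (P ^ 2 - 1) * T ^ 2 :=
      mul_le_mul_of_nonneg_left (by linarith) (by nlinarith)
    have h10 : 4 * P ^ 2 * Z ^ 2 ≤ 4 * P ^ 2 * ((P ^ 2 - 1) * T ^ 2) :=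
      mul_le_mul_of_nonneg_left (h5.trans h9) (by positivity)
    nlinarith [sq_nonneg T]
  have h11 := (abs_le.1 (abs_le_of_sq_le_sq h8 h7)).2
  linarith

private theorem B2b_cpt (p : Hyp n) (c : ℝ) : IsCompact {z : Hyp n | - lor p.1 z.1 = c} := by
  rw [Subtype.isCompact_iff]
  have hset : (Subtype.val '' {z : Hyp n | - lor p.1 z.1 = c} : Set (Mk n)) =
      {x : Mk n | lor x x = -1} ∩ ({x : Mk n | 1 ≤ x.2} ∩ {x : Mk n | - lor p.1 x = c}) := by
    ext x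
    constructor
    · rintro ⟨z, hz, rfl⟩
      exact ⟨z.2.1, B2b_one_le z, hz⟩
    · rintro ⟨h1, h2, h3⟩
      exact ⟨⟨x, h1, lt_of_lt_of_le one_pos h2⟩, h3, rfl⟩
  have hbd : ∀ x ∈ {x : Mk n | lor x x = -1} ∩ ({x : Mk n | 1 ≤ x.2} ∩ {x : Mk n | - lor p.1 x = c}),
      ‖x‖ ≤ 2 * p.1.2 * c := by
    rintro x ⟨h1, h2, h3⟩
    have h2' : 1 ≤ x.2 := h2
    have h4 := B2b_le p ⟨x, h1, lt_of_lt_of_le one_pos h2⟩
    have h3' : - lor p.1 x = c := h3
    have h5 : x.2 ≤ 2 * p.1.2 * c := by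
      rw [← h3']
      exact h4
    have h6 := B2b_eq (⟨x, h1, lt_of_lt_of_le one_pos h2⟩ : Hyp n)
    have h7 : ∀ i, ‖x.1 i‖ ≤ x.2 := by
      intro i
      have h8 : x.1 i ^ 2 ≤ ∑ i, x.1 i ^ 2 :=
        Finset.single_le_sum (f := fun i => x.1 i ^ 2) (fun k _ => sq_nonneg _) (Finset.mem_univ i)
      have h9 : x.1 i ^ 2 ≤ x.2 ^ 2 := by
        have h10 : ∑ i, x.1 i ^ 2 = x.2 ^ 2 - 1 := h6
        linarith
      exact abs_le_of_sq_le_sq h9 (by linarith)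
    rw [Prod.norm_def]
    refine max_le ?_ ?_
    · refine ((pi_norm_le_iff_of_nonneg (by linarith)).2 h7).trans h5
    · rw [Real.norm_of_nonneg (by linarith)]
      exact h5
  rw [hset]
  refine Metric.isCompact_of_isClosed_isBounded ?_ ?_
  · refine IsClosed.inter ?_ (IsClosed.inter ?_ ?_)
    · exact isClosed_eq (continuous_lor.comp (continuous_id.prodMk continuous_id)) continuous_const
    · exact isClosed_le continuous_const continuous_snd
    · exact isClosed_eq (continuous_lor.comp (continuous_const.prodMk continuous_id)).neg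
        continuous_const
  · refine (Metric.isBounded_closedBall (x := (0 : Mk n)) (r := 2 * p.1.2 * c)).subset ?_
    intro x hx
    rw [mem_closedBall_zero_iff]
    exact hbd x hx

private theorem B2b_ctr [Finite I] (R : CX n I) :
    {z : Hyp n | ∀ i, lor z.1 (R.e i) < 0} ∈ nhds R.ctr := by
  have h : ∀ᶠ z : Hyp n in nhds R.ctr, ∀ i, lor z.1 (R.e i) < 0 := by
    rw [Filter.eventually_all]
    intro i
    have hc : Continuous (fun x : Hyp n => lor x.1 (R.e i)) :=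
      continuous_lor.comp (continuous_subtype_val.prodMk continuous_const)
    exact (hc.tendsto R.ctr).eventually_lt_const (R.ctr_neg i)
  exact h

theorem CX.fix_fin [Finite I] (R : CX n I) (p : Hyp n) : {g | g ∈ R.G ∧ g p = p}.Finite := by
  obtain ⟨δ, hδ, V, hV, hU⟩ := nbhd_lor R.ctr _ (B2b_ctr R)
  have hctr := mem_of_mem_nhds hV
  have huniq : ∀ g ∈ R.G, ∀ g' ∈ R.G, - lor (g R.ctr).1 (g' R.ctr).1 < 1 + δ → g = g' := by
    intro g hg g' hg' h
    have h1 : lor R.ctr.1 ((g⁻¹ * g') R.ctr).1 = lor (g R.ctr).1 (g' R.ctr).1 := by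
      rw [← R.G_isom hg R.ctr ((g⁻¹ * g') R.ctr)]
      congr 2
      exact g.apply_symm_apply (g' R.ctr)
    have h2 := hU R.ctr hctr ((g⁻¹ * g') R.ctr) (by rw [h1]; exact h)
    have h3 := R.unique_int R.ctr R.ctr_neg (g⁻¹ * g') (R.G.mul_mem (R.G.inv_mem hg) hg')
      (fun i => (h2 i).le)
    exact inv_mul_eq_one.1 h3
  have hcpt := B2b_cpt p (- lor p.1 R.ctr.1)
  have key : {g | (g ∈ R.G ∧ g p = p) ∧ g R.ctr ∈ {z : Hyp n | - lor p.1 z.1 = - lor p.1 R.ctr.1}}.Finite := by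
    refine IsCompact.induction_on
      (p := fun A : Set (Hyp n) => {g | (g ∈ R.G ∧ g p = p) ∧ g R.ctr ∈ A}.Finite) hcpt ?_ ?_ ?_ ?_
    · refine Set.Finite.subset Set.finite_empty ?_
      rintro g ⟨_, hg⟩
      exact hg
    · intro A B hAB hB
      exact hB.subset fun g hg => ⟨hg.1, hAB hg.2⟩
    · intro A B hA hB
      refine (hA.union hB).subset ?_
      rintro g ⟨hg, hg' | hg'⟩
      · exact Or.inl ⟨hg, hg'⟩
      · exact Or.inr ⟨hg, hg'⟩
    · intro q _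
      have hc : Continuous (fun x : Hyp n × Hyp n => - lor x.1.1 x.2.1) :=
        (continuous_lor.comp ((continuous_subtype_val.comp continuous_fst).prodMk
          (continuous_subtype_val.comp continuous_snd))).neg
      have h1 : ∀ᶠ x in nhds ((q, q) : Hyp n × Hyp n), - lor x.1.1 x.2.1 < 1 + δ := by
        refine (hc.tendsto (q, q)).eventually_lt_const ?_
        show - lor q.1 q.1 < 1 + δ
        rw [q.2.1]
        linarith
      rw [nhds_prod_eq] at h1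
      obtain ⟨A, hA, hAA⟩ := Filter.mem_prod_same_iff.1 h1
      refine ⟨A, mem_nhdsWithin_of_mem_nhds hA, ?_⟩
      refine Set.Subsingleton.finite ?_
      rintro g ⟨hg, hgA⟩ g' ⟨hg', hgA'⟩
      exact huniq g hg.1 g' hg'.1 (hAA (Set.mk_mem_prod hgA hgA'))
  refine key.subset ?_
  rintro g ⟨hg, hgp⟩
  refine ⟨⟨hg, hgp⟩, ?_⟩
  show - lor p.1 (g R.ctr).1 = - lor p.1 R.ctr.1
  have h := R.G_isom hg p R.ctr
  rw [hgp] at h
  rw [h]

theorem CX.local_cover [Finite I] (R : CX n I) (p : Hyp n) (hp : p ∈ R.P) :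
    ∃ T : Finset (Equiv.Perm (Hyp n)), (∀ g ∈ T, g ∈ R.G ∧ g p = p) ∧
      ∀ᶠ z in nhds p, ∃ g ∈ T, g z ∈ R.P := by
  have hfin := R.fix_fin p
  refine ⟨hfin.toFinset, fun g hg => (hfin.mem_toFinset.1 hg), ?_⟩
  have hev : ∀ᶠ z in nhds p, ∀ g ∈ hfin.toFinset, ∀ i, lor p.1 (R.e i) < 0 →
      lor (g z).1 (R.e i) < 0 := by
    rw [Filter.eventually_all_finset]
    intro g hg
    rw [Filter.eventually_all]
    intro i
    have hg' : g ∈ R.G ∧ g p = p := hfin.mem_toFinset.1 hg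
    by_cases hi : lor p.1 (R.e i) < 0
    · have hc : Continuous (fun x : Hyp n => lor (g x).1 (R.e i)) :=
        continuous_lor.comp ((continuous_subtype_val.comp (R.G_cont g hg'.1)).prodMk continuous_const)
      have h1 : ∀ᶠ z in nhds p, lor (g z).1 (R.e i) < 0 := by
        refine (hc.tendsto p).eventually_lt_const ?_
        rw [hg'.2]
        exact hi
      exact h1.mono fun z hz _ => hz
    · exact Filter.Eventually.of_forall fun z h => absurd h hi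
  refine hev.mono fun z hz => ?_
  have h1 : (1 : Equiv.Perm (Hyp n)) ∈ hfin.toFinset := hfin.mem_toFinset.2 ⟨R.G.one_mem, rfl⟩
  obtain ⟨g, hg, hmax⟩ := hfin.toFinset.exists_max_image (fun g => lor (g z).1 R.ctr.1) ⟨1, h1⟩
  refine ⟨g, hg, fun i => ?_⟩
  have hg' : g ∈ R.G ∧ g p = p := hfin.mem_toFinset.1 hg
  rcases (hp i).lt_or_eq with hi | hi
  · exact (hz g hg i hi).le
  · have hsg : R.s i * g ∈ hfin.toFinset := by
      refine hfin.mem_toFinset.2 ⟨R.G.mul_mem (Subgroup.subset_closure ⟨i, rfl⟩) hg'.1, ?_⟩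
      rw [Equiv.Perm.mul_apply, hg'.2]
      refine Subtype.ext ?_
      show p.1 - (2 * lor p.1 (R.e i)) • R.e i = p.1
      rw [hi, mul_zero, zero_smul, sub_zero]
    have h2 := hmax _ hsg
    have h3 : lor ((R.s i * g) z).1 R.ctr.1 =
        lor (g z).1 R.ctr.1 - 2 * lor (g z).1 (R.e i) * lor (R.e i) R.ctr.1 := by
      show lor ((g z).1 - (2 * lor (g z).1 (R.e i)) • R.e i) R.ctr.1 = _
      rw [lor_sub_left, lor_smul_left]
    have h4 : lor (R.e i) R.ctr.1 < 0 := by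
      rw [lor_comm]
      exact R.ctr_neg i
    have h2' : lor ((R.s i * g) z).1 R.ctr.1 ≤ lor (g z).1 R.ctr.1 := h2
    rw [h3] at h2'
    by_contra h5
    push Not at h5
    nlinarith [mul_pos_of_neg_of_neg h4 (neg_neg_of_pos h5)]

end Pool.Agent.MP_455d73_gt.CS
end

section

/-!
TASK B2 (medium): the images of the polytope cover hyperbolic space.

`unif`: for every `p ∈ P` take the neighbourhood `U p` of `p` in which `∃ g ∈ G, g z ∈ P` (`CX.local_cover`) and `δ p`, `V p` from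
`nbhd_lor`. `P` is compact (`R.cpt`; `R.P` is that set), so finitely many `V p` cover it (`IsCompact.elim_nhds_subcover`); let `δ` be
the minimum of the corresponding `δ p` (and `1` if `P` is empty).
`cover`: take the `δ` of `unif` and a chain `c 0 = ctr, …, c m = x` (`chain`). By induction on `i ≤ m`: there is `g ∈ G` with
`g (c i) ∈ P`: `ctr ∈ P` (`R.ctr_neg`); if `g (c i) ∈ P`, then `- lor (g (c i)) (g (c (i+1))) = - lor (c i) (c (i+1)) < 1 + δ`
(`CX.G_isom`), so `h (g (c (i+1))) ∈ P` for some `h ∈ G`.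
-/

set_option autoImplicit false

open Finset
open scoped Classical

namespace Pool.Agent.MP_455d73_gt.CS

variable {n : ℕ} {I : Type}

theorem CX.unif [Finite I] (R : CX n I) :
    ∃ δ : ℝ, 0 < δ ∧ ∀ p ∈ R.P, ∀ z : Hyp n, - lor p.1 z.1 < 1 + δ → ∃ g ∈ R.G, g z ∈ R.P := by
  have hc : IsCompact R.P := R.cpt
  refine IsCompact.induction_on (p := fun S : Set (Hyp n) => ∃ δ : ℝ, 0 < δ ∧ ∀ p ∈ S, ∀ z : Hyp n,
    - lor p.1 z.1 < 1 + δ → ∃ g ∈ R.G, g z ∈ R.P) hc ?_ ?_ ?_ ?_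
  · exact ⟨1, one_pos, fun p hp => absurd hp (Set.notMem_empty p)⟩
  · rintro s t hst ⟨δ, hδ, h⟩
    exact ⟨δ, hδ, fun p hp => h p (hst hp)⟩
  · rintro s t ⟨δ, hδ, h⟩ ⟨δ', hδ', h'⟩
    refine ⟨min δ δ', lt_min hδ hδ', ?_⟩
    rintro p (hp | hp) z hz
    · exact h p hp z (lt_of_lt_of_le hz (by have := min_le_left δ δ'; linarith))
    · exact h' p hp z (lt_of_lt_of_le hz (by have := min_le_right δ δ'; linarith))
  · intro p hp
    obtain ⟨T, hT, hev⟩ := R.local_cover p hp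
    obtain ⟨δ, hδ, V, hV, h⟩ := nbhd_lor p {z | ∃ g ∈ T, g z ∈ R.P} hev
    refine ⟨V, mem_nhdsWithin_of_mem_nhds hV, δ, hδ, ?_⟩
    intro q hq z hz
    obtain ⟨g, hg, hgz⟩ := h q hq z hz
    exact ⟨g, (hT g hg).1, hgz⟩

theorem CX.cover [Finite I] (R : CX n I) (x : Hyp n) : ∃ g ∈ R.G, g x ∈ R.P := by
  obtain ⟨δ, hδ, h⟩ := R.unif
  obtain ⟨m, c, h0, hm, hc⟩ := B2c_chain δ hδ R.ctr x
  have key : ∀ i ≤ m, ∃ g ∈ R.G, g (c i) ∈ R.P := by
    intro i
    induction i with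
    | zero =>
      intro _
      refine ⟨1, R.G.one_mem, ?_⟩
      rw [h0]
      intro i
      exact (R.ctr_neg i).le
    | succ i ih =>
      intro hi
      obtain ⟨g, hg, hgc⟩ := ih (by omega)
      have h1 : - lor (g (c i)).1 (g (c (i + 1))).1 < 1 + δ := by
        rw [R.G_isom hg]
        exact hc i (by omega)
      obtain ⟨k, hk, hkc⟩ := h _ hgc _ h1
      exact ⟨k * g, R.G.mul_mem hk hg, hkc⟩
  obtain ⟨g, hg, hgx⟩ := key m le_rfl
  rw [hm] at hgx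
  exact ⟨g, hg, hgx⟩

end Pool.Agent.MP_455d73_gt.CS
end

section

/-!
TASK B4 (hard-ish): the group acts properly discontinuously.

Notation `G = R.G`, `P = R.P`, `P° = {x | ∀ i, lor x e_i < 0}`.
(a) `P ⊆ closure P°`: for `x ∈ P` the points `r(t) • ((1 - t) • x.1 + t • ctr.1)` (normalised as in `B2c`) are in `P°` for
`0 < t ≤ 1` and tend to `x` for `t → 0`.
(b) Uniqueness: if `z ∈ P°`, `h ∈ G` and `h z ∈ P` then `h = 1`: take `S = Unit` (or any `σ`, e.g. `σ i = 1` on `PUnit`); by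
`CX.tits` for the pair `(h, 1)` (in `GS σ` by `exists_perm`), it is in `GSx σ z = closure ∅` since no wall contains `z`.
(c) local finiteness at `p ∈ P`: `CX.local_cover` gives `T` and an open neighbourhood `O` of `p` with `∀ z ∈ O, ∃ g ∈ T, g z ∈ P`. If
`h ∈ G` and `h '' P` meets `O` (open), then `h '' P°` meets `O` (by (a) and continuity of `h`: `h⁻¹' O` is open and meets `P`, so
it meets `P°`): `z = h a ∈ O`, `a ∈ P°`, `g z ∈ P` with `g ∈ T`: `(g h) a ∈ P`, so `g h = 1` by (b), `h = g⁻¹ ∈ T⁻¹`, a finite set.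
(d) at `y` arbitrary: `y = g₀ p` with `p ∈ P` (`CX.cover`), translate: `h '' P` meets `g₀ '' O` iff `(g₀⁻¹ h) '' P` meets `O`.
(e) `K` compact: finitely many such neighbourhoods cover `K`, so `{h ∈ G | h '' P meets K}` is finite (call it `F`).
(f) If `g ∈ G`, `x ∈ K`, `g x ∈ K`: `x ∈ h '' P` for some `h ∈ G` (`CX.cover`), `h ∈ F`, and `g x ∈ (g h) '' P`, so `g h ∈ F`:
`g ∈ F F⁻¹`, a finite set.
-/

set_option autoImplicit false

open Finset
open scoped Classical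

namespace Pool.Agent.MP_455d73_gt.CS

variable {n : ℕ} {I : Type}

private theorem B4_closure (R : CX n I) (x : Hyp n) (hx : x ∈ R.P) :
    x ∈ closure {z : Hyp n | ∀ i, lor z.1 (R.e i) < 0} := by
  set v : ℝ → Mk n := fun t => (1 - t) • x.1 + t • R.ctr.1 with hvdef
  have hL : lor x.1 R.ctr.1 < 0 := Hyp.lor_lt x R.ctr
  have hvv : ∀ t, lor (v t) (v t) = -(1 - t) ^ 2 - t ^ 2 + 2 * t * (1 - t) * lor x.1 R.ctr.1 := by
    intro t
    simp only [hvdef, lor_add_left, lor_add_right, lor_smul_left, lor_smul_right, x.2.1, R.ctr.2.1,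
      lor_comm R.ctr.1 x.1]
    ring
  have hneg : ∀ t, 0 ≤ t → t ≤ 1 → lor (v t) (v t) < 0 := by
    intro t h0 h1
    rw [hvv]
    have h2 : 0 ≤ t * (1 - t) := mul_nonneg h0 (by linarith)
    nlinarith [mul_nonneg h2 (le_of_lt (neg_pos.mpr hL)), sq_nonneg (1 - 2 * t)]
  have hpos : ∀ t, 0 ≤ t → t ≤ 1 → 0 < (v t).2 := by
    intro t h0 h1
    show 0 < (1 - t) * x.1.2 + t * R.ctr.1.2
    rcases h0.eq_or_lt with h | h
    · rw [← h]
      have := x.2.2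
      linarith
    · have h3 := mul_pos h R.ctr.2.2
      have h4 := mul_nonneg (sub_nonneg.mpr h1) x.2.2.le
      linarith
  set F : ℝ → Mk n := fun t => (√(-lor (v t) (v t)))⁻¹ • v t with hF
  have hmem : ∀ t, 0 ≤ t ∧ t ≤ 1 → lor (F t) (F t) = -1 ∧ 0 < (F t).2 := by
    rintro t ⟨h0, h1⟩
    have hn := hneg t h0 h1
    have hs : 0 < √(-lor (v t) (v t)) := Real.sqrt_pos.mpr (by linarith)
    constructor
    · rw [hF]
      simp only [lor_smul_left, lor_smul_right]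
      have h5 : lor (v t) (v t) = -(√(-lor (v t) (v t)) ^ 2) := by
        rw [Real.sq_sqrt (by linarith)]
        ring
      have h6 : (√(-lor (v t) (v t)))⁻¹ * ((√(-lor (v t) (v t)))⁻¹ * lor (v t) (v t)) =
          -(((√(-lor (v t) (v t)))⁻¹ * √(-lor (v t) (v t))) ^ 2) := by
        nth_rewrite 3 [h5]
        ring
      rw [h6, inv_mul_cancel₀ hs.ne']
      norm_num
    · exact mul_pos (inv_pos.mpr hs) (hpos t h0 h1)
  let γ : ℝ → Hyp n := fun t => if h : 0 ≤ t ∧ t ≤ 1 then ⟨F t, hmem t h⟩ else x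
  have hev : ∀ᶠ t in nhdsWithin (0 : ℝ) (Set.Ioi 0), 0 < t ∧ t ≤ 1 := by
    have h1 : ∀ᶠ t in nhdsWithin (0 : ℝ) (Set.Ioi 0), t < 1 :=
      eventually_nhdsWithin_of_eventually_nhds (gt_mem_nhds one_pos)
    filter_upwards [h1, self_mem_nhdsWithin] with t h h'
    exact ⟨h', h.le⟩
  have hγ : ∀ t, 0 < t ∧ t ≤ 1 → (γ t).1 = F t := by
    intro t ht
    show (dite _ _ _ : Hyp n).1 = _
    rw [dif_pos ⟨ht.1.le, ht.2⟩]
  have hvc : Continuous v := by
    rw [hvdef]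
    fun_prop
  have hlc : Continuous (fun t => lor (v t) (v t)) := continuous_lor.comp (hvc.prodMk hvc)
  have h00 : lor (v 0) (v 0) = -1 := by
    rw [hvv]
    ring
  have hFc : ContinuousAt F 0 := by
    have hsq : ContinuousAt (fun t => √(-lor (v t) (v t))) 0 :=
      (Real.continuous_sqrt.comp hlc.neg).continuousAt
    have hne : √(-lor (v 0) (v 0)) ≠ 0 := by
      rw [h00]
      norm_num
    have hinv : ContinuousAt (fun t => (√(-lor (v t) (v t)))⁻¹) 0 := ContinuousAt.inv₀ hsq hne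
    exact hinv.smul hvc.continuousAt
  have hF0 : F 0 = x.1 := by
    rw [hF]
    simp only [h00]
    rw [hvdef]
    simp
  have ht1 : Filter.Tendsto (fun t => (γ t).1) (nhdsWithin (0 : ℝ) (Set.Ioi 0)) (nhds x.1) := by
    have h1 : Filter.Tendsto F (nhdsWithin (0 : ℝ) (Set.Ioi 0)) (nhds x.1) := by
      rw [← hF0]
      exact hFc.tendsto.mono_left nhdsWithin_le_nhds
    refine h1.congr' ?_
    filter_upwards [hev] with t ht
    exact (hγ t ht).symm
  have ht2 : Filter.Tendsto γ (nhdsWithin (0 : ℝ) (Set.Ioi 0)) (nhds x) :=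
    tendsto_subtype_rng.mpr ht1
  refine mem_closure_of_tendsto ht2 ?_
  filter_upwards [hev] with t ht
  intro i
  rw [hγ t ht, hF]
  simp only [lor_smul_left]
  have hs : 0 < √(-lor (v t) (v t)) :=
    Real.sqrt_pos.mpr (by linarith [hneg t ht.1.le ht.2])
  refine mul_neg_of_pos_of_neg (inv_pos.mpr hs) ?_
  rw [hvdef]
  simp only [lor_add_left, lor_smul_left]
  have h7 := hx i
  have h8 := mul_neg_of_pos_of_neg ht.1 (R.ctr_neg i)
  have h9 : (1 - t) * lor x.1 (R.e i) ≤ 0 :=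
    mul_nonpos_of_nonneg_of_nonpos (by linarith [ht.2]) h7
  linarith

private theorem B4_locfin_P [Finite I] (R : CX n I) (p : Hyp n) (hp : p ∈ R.P) :
    ∃ O : Set (Hyp n), IsOpen O ∧ p ∈ O ∧ {h | h ∈ R.G ∧ (h '' R.P ∩ O).Nonempty}.Finite := by
  obtain ⟨T, hT, hev⟩ := R.local_cover p hp
  obtain ⟨O, hO, hOo, hpO⟩ := eventually_nhds_iff.mp hev
  refine ⟨O, hOo, hpO, (T.image (fun g => g⁻¹)).finite_toSet.subset ?_⟩
  rintro h ⟨hG, z, ⟨y, hy, rfl⟩, hzO⟩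
  have hc : Continuous h := R.G_cont h hG
  have hy' := B4_closure R y hy
  obtain ⟨a, haO, ha⟩ := mem_closure_iff.mp hy' (h ⁻¹' O) (hOo.preimage hc) hzO
  obtain ⟨g, hgT, hgP⟩ := hO (h a) haO
  have h1 : g * h = 1 :=
    R.unique_int a ha (g * h) (R.G.mul_mem (hT g hgT).1 hG) (by rw [Equiv.Perm.mul_apply]; exact hgP)
  rw [Finset.coe_image]
  exact ⟨g, hgT, inv_eq_of_mul_eq_one_right h1⟩

theorem CX.locfin [Finite I] (R : CX n I) (y : Hyp n) :
    ∃ O ∈ nhds y, {h | h ∈ R.G ∧ (h '' R.P ∩ O).Nonempty}.Finite := by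
  obtain ⟨g, hg, hgP⟩ := R.cover y
  obtain ⟨O, hOo, hpO, hfin⟩ := B4_locfin_P R (g y) hgP
  have hc : Continuous g := R.G_cont g hg
  refine ⟨g ⁻¹' O, (hOo.preimage hc).mem_nhds hpO, (hfin.image (fun h => g⁻¹ * h)).subset ?_⟩
  rintro h ⟨hG, z, ⟨a, ha, rfl⟩, hzO⟩
  refine ⟨g * h, ⟨R.G.mul_mem hg hG, g (h a), ⟨a, ha, rfl⟩, hzO⟩, ?_⟩
  show g⁻¹ * (g * h) = h
  rw [inv_mul_cancel_left]

theorem CX.meet_fin [Finite I] (R : CX n I) (K : Set (Hyp n)) (hK : IsCompact K) :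
    {h | h ∈ R.G ∧ (h '' R.P ∩ K).Nonempty}.Finite := by
  choose O hO hfin using fun y => R.locfin y
  obtain ⟨t, -, htK⟩ := hK.elim_nhds_subcover O (fun y _ => hO y)
  refine (t.finite_toSet.biUnion (fun y _ => hfin y)).subset ?_
  rintro h ⟨hG, z, hz, hzK⟩
  obtain ⟨y, hyt, hzy⟩ := Set.mem_iUnion₂.mp (htK hzK)
  exact Set.mem_iUnion₂.mpr ⟨y, hyt, hG, z, hz, hzy⟩

theorem CX.propdisc [Finite I] (R : CX n I) (K : Set (Hyp n)) (hK : IsCompact K) :
    {g | g ∈ R.G ∧ (g '' K ∩ K).Nonempty}.Finite := by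
  have hF := R.meet_fin K hK
  refine (Set.Finite.image2 (fun a b : Equiv.Perm (Hyp n) => a * b⁻¹) hF hF).subset ?_
  rintro g ⟨hG, z, ⟨x, hxK, rfl⟩, hgK⟩
  obtain ⟨g1, hg1, hP⟩ := R.cover x
  have hx : g1⁻¹ (g1 x) = x := g1.symm_apply_apply x
  refine ⟨g * g1⁻¹, ⟨R.G.mul_mem hG (R.G.inv_mem hg1), g x, ⟨g1 x, hP, ?_⟩, hgK⟩, g1⁻¹,
    ⟨R.G.inv_mem hg1, x, ⟨g1 x, hP, hx⟩, hxK⟩, ?_⟩
  · rw [Equiv.Perm.mul_apply, hx]
  · show g * g1⁻¹ * (g1⁻¹)⁻¹ = g
    rw [inv_inv, inv_mul_cancel_right]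

end Pool.Agent.MP_455d73_gt.CS
end

section

/-!
TASK B5 (medium): the relation `R.At σ s₀ x k c` (the point `x` lies over the point `k` of the chart of the polytope in a
chamber with label `c`): `x = g p`, `p ∈ P`, `k = kl p`, `(g, π) ∈ GS σ`, `π c = s₀`.

`orb_eq`: elementary (subgroup). `orb_mono`: `closure (σ '' A) ≤ closure (σ '' B)`.
`at_exists`: `h x ∈ P` (`CX.cover`), `(h, ρ) ∈ GS` (`exists_perm`), `g = h⁻¹`, `π = ρ⁻¹`, `c = ρ s₀`.
`at_unique`: `x = g p = g' p'`, so `(g'⁻¹ g) p = p' ∈ P`; by `CX.tits` `p' = p` and `(g'⁻¹ g, π'⁻¹ π) ∈ GSx σ p`; by `CX.GSx_fix` and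
`mem_act_kl`, `π'⁻¹ π ∈ closure (σ '' act k)`, and `c' = π'⁻¹ s₀ = (π'⁻¹ π) c`.
`at_stab`: `(g₀, π₀) ∈ GS`, `π₀ s₀ = s₀`: `g₀ x = (g₀ g) p`, `(π₀ π) c = s₀`.
`at_same`: `x = g p`, `y = g' p'`, `kl p = kl p'` gives `p = p'` (`up_kl`); `c' = ρ c` with `ρ ∈ closure (σ '' act k)`; `CX.exists_of_act`
gives `(h, ρ) ∈ GSx σ p`, `h p = p`. The element `g' h g⁻¹` maps `x` to `g' h p = y`, and its permutation `π' ρ π⁻¹` maps `s₀` to
`π' ρ c = π' c' = s₀`.
`at_surj`: `ρ s₀ = c` with `ρ ∈ closure (range σ)`; `(h, ρ⁻¹) ∈ GS` by `CX.exists_of_snd`; `x = h (up k)`, `kl (up k) = k` (`P1_ball`).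
`at_act`: `At` for a wall: if `i ∈ act k` then `At x k c → At x k (σ i c)` (as `R.s i` fixes `up k`).
-/

set_option autoImplicit false

open Finset
open scoped Classical

namespace Pool.Agent.MP_455d73_gt.CS

variable {n : ℕ} {I S : Type}

private theorem B5_inv_self {α : Type} (f : Equiv.Perm α) (x : α) : f⁻¹ (f x) = x :=
  f.symm_apply_apply x

private theorem B5_act_eq (R : CX n I) (p : Hyp n) :
    {i | lor p.1 (R.e i) = 0} = R.act (kl p) := by
  ext i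
  exact (mem_act_kl R p i).symm

theorem orb_eq (σ : I → Equiv.Perm S) (A : Set I) (c c' : S) (h : c' ∈ orb σ A c) :
    orb σ A c' = orb σ A c := by
  obtain ⟨ρ, hρ, rfl⟩ := h
  ext d
  constructor
  · rintro ⟨π, hπ, rfl⟩
    exact ⟨π * ρ, (Subgroup.closure (σ '' A)).mul_mem hπ hρ, rfl⟩
  · rintro ⟨π, hπ, rfl⟩
    refine ⟨π * ρ⁻¹, (Subgroup.closure (σ '' A)).mul_mem hπ
      ((Subgroup.closure (σ '' A)).inv_mem hρ), ?_⟩
    rw [Equiv.Perm.mul_apply, B5_inv_self]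

theorem mem_orb_self (σ : I → Equiv.Perm S) (A : Set I) (c : S) : c ∈ orb σ A c :=
  ⟨1, (Subgroup.closure (σ '' A)).one_mem, rfl⟩

theorem orb_mono (σ : I → Equiv.Perm S) (A B : Set I) (hAB : A ⊆ B) (c : S) :
    orb σ A c ⊆ orb σ B c := by
  rintro d ⟨π, hπ, rfl⟩
  exact ⟨π, Subgroup.closure_mono (Set.image_mono hAB) hπ, rfl⟩

theorem orb_eq_of_subset (σ : I → Equiv.Perm S) (A B : Set I) (hAB : A ⊆ B) (c c' : S)
    (h : orb σ A c = orb σ A c') : orb σ B c = orb σ B c' := by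
  have h1 : c ∈ orb σ A c' := h ▸ mem_orb_self σ A c
  exact orb_eq σ B c' c (orb_mono σ A B hAB c' h1)

theorem CX.at_exists [Finite I] (R : CX n I) (σ : I → Equiv.Perm S) (s₀ : S) (x : Hyp n) :
    ∃ k ∈ R.P1, ∃ c, R.At σ s₀ x k c := by
  obtain ⟨h, hh, hx⟩ := R.cover x
  obtain ⟨ρ, hρ⟩ := R.exists_perm σ h hh
  refine ⟨kl (h x), (kl_mem_P1 R (h x)).mpr hx, ρ s₀, h⁻¹, ρ⁻¹, (R.GS σ).inv_mem hρ, h x, hx, ?_,
    rfl, ?_⟩
  · rw [B5_inv_self]
  · rw [B5_inv_self]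

theorem CX.at_mem (R : CX n I) (σ : I → Equiv.Perm S) (s₀ : S) (x : Hyp n) (k : Fin n → ℝ) (c : S)
    (h : R.At σ s₀ x k c) : k ∈ R.P1 := by
  obtain ⟨g, π, hg, p, hp, hx, hk, hc⟩ := h
  rw [hk]
  exact (kl_mem_P1 R p).mpr hp

theorem CX.at_unique (R : CX n I) (σ : I → Equiv.Perm S) (hσ : R.Compat σ) (s₀ : S) (x : Hyp n)
    (k k' : Fin n → ℝ) (c c' : S) (h : R.At σ s₀ x k c) (h' : R.At σ s₀ x k' c') :
    k = k' ∧ orb σ (R.act k) c = orb σ (R.act k) c' := by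
  obtain ⟨g, π, hg, p, hp, hx, hk, hc⟩ := h
  obtain ⟨g', π', hg', p', hp', hx', hk', hc'⟩ := h'
  have hm : (g'⁻¹ * g, π'⁻¹ * π) ∈ R.GS σ :=
    (R.GS σ).mul_mem ((R.GS σ).inv_mem hg') hg
  have hgp : (g'⁻¹ * g) p = p' := by
    rw [Equiv.Perm.mul_apply, ← hx, hx', B5_inv_self]
  have ht := R.tits σ hσ (g'⁻¹ * g, π'⁻¹ * π) hm p hp (by
    show (g'⁻¹ * g) p ∈ R.P
    rw [hgp]
    exact hp')
  have hpp : p' = p := by
    rw [← hgp]
    exact ht.1
  have hf := R.GSx_fix σ p _ ht.2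
  have hkk : k = k' := by rw [hk, hk', hpp]
  refine ⟨hkk, ?_⟩
  have hc2 : c' = (π'⁻¹ * π) c := by
    rw [Equiv.Perm.mul_apply, hc, ← hc', B5_inv_self]
  have hmem : c' ∈ orb σ (R.act k) c := by
    refine ⟨π'⁻¹ * π, ?_, hc2.symm⟩
    rw [hk, ← B5_act_eq R p]
    exact hf.2.2
  exact (orb_eq σ (R.act k) c c' hmem).symm

theorem CX.at_stab (R : CX n I) (σ : I → Equiv.Perm S) (s₀ : S) (g : Equiv.Perm (Hyp n))
    (hg : g ∈ R.stab σ s₀) (x : Hyp n) (k : Fin n → ℝ) (c : S) (h : R.At σ s₀ x k c) :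
    R.At σ s₀ (g x) k c := by
  obtain ⟨π₀, hg₀, hs⟩ := hg
  obtain ⟨g', π, hg', p, hp, hx, hk, hc⟩ := h
  refine ⟨g * g', π₀ * π, (R.GS σ).mul_mem hg₀ hg', p, hp, ?_, hk, ?_⟩
  · rw [Equiv.Perm.mul_apply, ← hx]
  · rw [Equiv.Perm.mul_apply, hc, hs]

theorem CX.at_same (R : CX n I) (σ : I → Equiv.Perm S) (s₀ : S) (x y : Hyp n) (k : Fin n → ℝ)
    (c c' : S) (h : R.At σ s₀ x k c) (h' : R.At σ s₀ y k c')
    (ho : orb σ (R.act k) c = orb σ (R.act k) c') : ∃ g ∈ R.stab σ s₀, g x = y := by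
  obtain ⟨g, π, hg, p, hp, hx, hk, hc⟩ := h
  obtain ⟨g', π', hg', p', hp', hx', hk', hc'⟩ := h'
  have hpp : p' = p := by
    rw [← up_kl p', ← hk', hk, up_kl p]
  have hmem : c' ∈ orb σ (R.act k) c := by
    rw [ho]
    exact mem_orb_self σ (R.act k) c'
  obtain ⟨ρ, hρ, hρc⟩ := hmem
  rw [hk, ← B5_act_eq R p] at hρ
  obtain ⟨h, hh⟩ := R.exists_of_act σ p ρ hρ
  have hf := R.GSx_fix σ p (h, ρ) hh
  have hfix : h p = p := hf.2.1
  have hgs : (h, ρ) ∈ R.GS σ := hf.1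
  refine ⟨g' * h * g⁻¹, ⟨π' * ρ * π⁻¹, ?_, ?_⟩, ?_⟩
  · exact (R.GS σ).mul_mem ((R.GS σ).mul_mem hg' hgs) ((R.GS σ).inv_mem hg)
  · rw [← hc, Equiv.Perm.mul_apply, B5_inv_self, Equiv.Perm.mul_apply, hρc, hc', hc]
  · rw [hx, Equiv.Perm.mul_apply, B5_inv_self, Equiv.Perm.mul_apply, hfix, hx', hpp]

theorem CX.at_surj (R : CX n I) (σ : I → Equiv.Perm S) (s₀ : S) (hT : Trans σ s₀)
    (k : Fin n → ℝ) (hk : k ∈ R.P1) (c : S) : ∃ x, R.At σ s₀ x k c := by
  obtain ⟨ρ, hρ, hc⟩ := hT c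
  obtain ⟨h, hh⟩ := R.exists_of_snd σ ρ⁻¹ ((Subgroup.closure (Set.range σ)).inv_mem hρ)
  refine ⟨h (up k), h, ρ⁻¹, hh, up k, up_mem_P R k hk, rfl, (kl_up k (P1_ball R k hk)).symm, ?_⟩
  rw [← hc, B5_inv_self]

end Pool.Agent.MP_455d73_gt.CS
end

section

/-!
TASK M5b (easy): the elements of the group act linearly; the weights.

`exists_linear`: `Subgroup.closure_induction`: for `R.s i` the linear map `x ↦ x - (2 * lor x e) • e` (`reflFun_reflFun` gives the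
inverse; `LinearEquiv.ofInvolutive` or similar); products; inverses.
`wt_of`: for `p ∈ P` and `x = g p`, `g ∈ G`: the chosen point `p'` in the definition of `R.wt x` satisfies `p' ∈ P`, `g' p' = x`
(`Classical.epsilon_spec`), so `(g'⁻¹ g) p = p' ∈ P` and `p' = p` by `CX.tits` (with `S = PUnit`, all `σ i = 1`, `CX.exists_perm`).
`wt_pos`, `wt_inv` follow with `CX.cover`.
-/

set_option autoImplicit false

open Finset
open scoped Classical

namespace Pool.Agent.MP_455d73_gt.CS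

variable {n : ℕ} {I : Type}

private def M5b_reflLin (e : Mk n) : Mk n →ₗ[ℝ] Mk n where
  toFun := reflFun e
  map_add' x y := by
    unfold reflFun
    rw [lor_add_left]
    module
  map_smul' r x := by
    unfold reflFun
    rw [lor_smul_left, RingHom.id_apply]
    module

theorem CX.exists_linear (R : CX n I) (g : Equiv.Perm (Hyp n)) (hg : g ∈ R.G) :
    ∃ T : Mk n ≃ₗ[ℝ] Mk n, ∀ x : Hyp n, (g x).1 = T x.1 := by
  unfold CX.G at hg
  induction hg using Subgroup.closure_induction with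
  | mem g hg =>
    obtain ⟨i, rfl⟩ := hg
    refine ⟨LinearEquiv.ofInvolutive (M5b_reflLin (R.e i))
      (fun x => reflFun_reflFun (R.e i) (R.unit i) x), fun x => rfl⟩
  | one => exact ⟨LinearEquiv.refl ℝ _, fun x => rfl⟩
  | mul a b _ _ ha hb =>
    obtain ⟨A, hA⟩ := ha
    obtain ⟨B, hB⟩ := hb
    refine ⟨B.trans A, fun x => ?_⟩
    rw [Equiv.Perm.mul_apply, hA, hB]
    rfl
  | inv a _ ha =>
    obtain ⟨A, hA⟩ := ha
    refine ⟨A.symm, fun x => ?_⟩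
    have h := hA (a⁻¹ x)
    rw [show a (a⁻¹ x) = x from a.apply_symm_apply x] at h
    rw [h, LinearEquiv.symm_apply_apply]

theorem CX.strict (R : CX n I) (g : Equiv.Perm (Hyp n)) (hg : g ∈ R.G) (x : Hyp n) (hx : x ∈ R.P)
    (hgx : g x ∈ R.P) : g x = x := by
  obtain ⟨π, hπ⟩ := R.exists_perm (fun _ => (1 : Equiv.Perm PUnit.{1})) g hg
  exact (R.tits (fun _ => (1 : Equiv.Perm PUnit.{1}))
    ⟨fun _ => mul_one 1, fun _ _ _ => rfl⟩ (g, π) hπ x hx hgx).1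

theorem CX.wt_of (R : CX n I) (p : Hyp n) (hp : p ∈ R.P) (g : Equiv.Perm (Hyp n)) (hg : g ∈ R.G) :
    R.wt (g p) = (p.1.2)⁻¹ := by
  have hex : ∃ p' : Hyp n, p' ∈ R.P ∧ ∃ h ∈ R.G, h p' = g p := ⟨p, hp, g, hg, rfl⟩
  obtain ⟨hP, h, hh, hhp⟩ := Classical.epsilon_spec hex
  unfold CX.wt
  set q := Classical.epsilon (fun p' : Hyp n => p' ∈ R.P ∧ ∃ h ∈ R.G, h p' = g p) with hq
  have h1 : (h⁻¹ * g) p = q := by
    rw [Equiv.Perm.mul_apply, ← hhp]
    exact h.symm_apply_apply q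
  have h2 := R.strict (h⁻¹ * g) (R.G.mul_mem (R.G.inv_mem hh) hg) p hp (by rw [h1]; exact hP)
  rw [h1] at h2
  rw [h2]

theorem CX.wt_pos [Finite I] (R : CX n I) (x : Hyp n) : 0 < R.wt x := by
  obtain ⟨g, hg, hx⟩ := R.cover x
  have h := R.wt_of (g x) hx g⁻¹ (R.G.inv_mem hg)
  rw [show g⁻¹ (g x) = x from g.symm_apply_apply x] at h
  rw [h]
  exact inv_pos.mpr (g x).2.2

theorem CX.wt_inv [Finite I] (R : CX n I) (x : Hyp n) (g : Equiv.Perm (Hyp n)) (hg : g ∈ R.G) :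
    R.wt (g x) = R.wt x := by
  obtain ⟨h, hh, hx⟩ := R.cover x
  have h1 := R.wt_of (h x) hx h⁻¹ (R.G.inv_mem hh)
  have h2 := R.wt_of (h x) hx (g * h⁻¹) (R.G.mul_mem hg (R.G.inv_mem hh))
  rw [Equiv.Perm.mul_apply] at h2
  rw [show h⁻¹ (h x) = x from h.symm_apply_apply x] at h1 h2
  rw [h1, h2]

end Pool.Agent.MP_455d73_gt.CS
end
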