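import Pool.Agent.Lib.MP_455d73_gt.Mg.G019
import Pool.Agent.Lib.MP_455d73_gt.Mg.G020
import Pool.Agent.Lib.MP_455d73_gt.Mg.G021
import Pool.Agent.Lib.MP_455d73_gt.Mg.G018
import Pool.Agent.Lib.MP_455d73_gt.Mg.G004
import Pool.Agent.Lib.MP_455d73_gt.CS.B6
import Pool.Agent.Lib.MP_455d73_gt.CS.M3

section

/-!
TASK Cd1 (medium): the code of a face is constant on the orbit of the walls through the face.

`code_sgf`: let `x = (k, c)`, `κ = kd w k`.
Case `a.testBit 5 = false`: `i ≠ 5`, `sgf w i x = (k, rr κ i c)`, the codes are `(k, lab κ a _)`: `lab_rr`.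
Case `a.testBit 5 = true`; `b = a - 32`, `face5`: the bits of `b` are among `1, …, 4` and `b`, `b + 32 = a` are faces.
 Subcase `c` in no port: `sgf w i x = (k, rr κ i c)` is in no port (`rr5_port`, or `rr_port` for `i ≠ 5`, as then `b.testBit i`, `1 ≤ i ≤ 4`): `lab_rr`.
 Subcase `isOut c`, `i ≠ 5`: `rr κ i c` is in the port; `lab true b (rr κ i c) = lab true b (rr true i c) = lab true b c` (`rr_kind`, `lab_rr` for `b`: `b.testBit 5 = false`);
 for `k + 1 = w.length` also `fo (rr κ i c) = rr κ i (fo c)` (`fo_rr`).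
 Subcase `isOut c`, `i = 5`: if `k + 1 < w.length`: `sgf w 5 x = (k + 1, gl r c)` with `isIn (gl r c)`, `isOut (gl r c) = false`, its code is
 `(k + 1 - 1, 10000 + lab true b (gi r (gl r c)))` and `gi r (gl r c) = c`. If `k + 1 = w.length`: `mn (lab (fo c)) (lab (fo (fo c))) = mn (lab c) (lab (fo c))`
 (`fo_spec`, `mn` is the minimum: `mn x y = min x y`, symmetric).
 Subcase `isIn c`: the same with `gi`, `fi` (for `i = 5`, `k ≥ 1`: `sgf w 5 x = (k - 1, gi r c)` with `isOut (gi r c)`, and `k - 1 + 1 = k < w.length`; for `i ≠ 5`, `k ≥ 1`: `gi_rr`).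
(`a.testBit i` for `a = b + 32`, `i < 5`, equals `b.testBit i`: `decide +kernel` over `faceL`, or `Nat.testBit` lemmas.)
`code_orb`: induction on the closure (`Subgroup.closure_induction`), inverses of involutions.
-/

set_option autoImplicit false

namespace Pool.Agent.MP_455d73_gt.CS

open K

theorem mn_eq (x y : ℕ) : mn x y = min x y := by
  unfold mn
  rcases h : Nat.ble x y with _ | _
  · have h1 : ¬ x ≤ y := fun h2 => by
      rw [Nat.ble_eq_true_of_le h2] at h
      exact absurd h (by decide)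
    rw [min_eq_right (le_of_lt (not_le.mp h1))]
  · rw [min_eq_left (Nat.le_of_ble_eq_true h)]

private theorem Cd1_bit : ∀ a ∈ faceL, a.testBit 5 = true → ∀ i < 7, i ≠ 5 → a.testBit i = true →
    (a - 32).testBit i = true := by decide +kernel

private theorem Cd1_sgf (w : List (Bool × Bool)) (k c i : ℕ) (hp : i = 5 → isIn c = false ∧ isOut c = false) :
    sgf w i (k, c) = (k, rr (kd w k) i c) := by
  unfold sgf
  rw [if_neg, if_neg]
  · rintro ⟨h1, h2⟩
    have := (hp h1).1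
    simp only at h2
    rw [this] at h2
    exact absurd h2 (by decide)
  · rintro ⟨h1, h2⟩
    have := (hp h1).2
    simp only at h2
    rw [this] at h2
    exact absurd h2 (by decide)

private theorem Cd1_out1 (w : List (Bool × Bool)) (a k c : ℕ) (h5 : a.testBit 5 = true) (ho : isOut c = true)
    (hk : k + 1 < w.length) : code w a (k, c) = (k, 10000 + lab true (a - 32) c) := by
  unfold code
  rw [if_pos ⟨h5, ho⟩, if_pos hk]

private theorem Cd1_out2 (w : List (Bool × Bool)) (a k c : ℕ) (h5 : a.testBit 5 = true) (ho : isOut c = true)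
    (hk : ¬ k + 1 < w.length) :
    code w a (k, c) = (k, 20000 + mn (lab true (a - 32) c) (lab true (a - 32) (fo c))) := by
  unfold code
  rw [if_pos ⟨h5, ho⟩, if_neg hk]

private theorem Cd1_in0 (w : List (Bool × Bool)) (a c : ℕ) (h5 : a.testBit 5 = true) (ho : isOut c = false)
    (hi : isIn c = true) :
    code w a (0, c) = (0, 30000 + mn (lab true (a - 32) c) (lab true (a - 32) (fi c))) := by
  unfold code
  rw [if_neg, if_pos ⟨h5, hi⟩, if_pos rfl]
  rintro ⟨_, h2⟩
  simp only at h2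
  rw [ho] at h2
  exact absurd h2 (by decide)

private theorem Cd1_in1 (w : List (Bool × Bool)) (a k c : ℕ) (h5 : a.testBit 5 = true) (ho : isOut c = false)
    (hi : isIn c = true) (hk : k ≠ 0) :
    code w a (k, c) = (k - 1, 10000 + lab true (a - 32) (gi (rv w k) c)) := by
  unfold code
  rw [if_neg, if_pos ⟨h5, hi⟩, if_neg hk]
  rintro ⟨_, h2⟩
  simp only at h2
  rw [ho] at h2
  exact absurd h2 (by decide)

private theorem Cd1_no (w : List (Bool × Bool)) (a k c : ℕ)
    (h : a.testBit 5 = true → isIn c = false ∧ isOut c = false) :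
    code w a (k, c) = (k, lab (kd w k) a c) := by
  unfold code
  rw [if_neg, if_neg]
  · rintro ⟨h1, h2⟩
    simp only at h2
    rw [(h h1).1] at h2
    exact absurd h2 (by decide)
  · rintro ⟨h1, h2⟩
    simp only at h2
    rw [(h h1).2] at h2
    exact absurd h2 (by decide)

/-- Constancy of the label of `b` in a port. -/
private theorem Cd1_lab (κ : Bool) (b i c : ℕ) (hb : b ∈ faceL) (hi : i < 7) (hbi : b.testBit i = true)
    (h1 : 1 ≤ i) (h4 : i ≤ 4) (hb5 : b.testBit 5 = false) (hc : c < 200) (h : isIn c = true ∨ isOut c = true) :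
    lab true b (rr κ i c) = lab true b c := by
  rw [rr_kind κ true i c h1 h4 hc h]
  exact lab_rr true b i c hb hi hbi hc fun h' => absurd (hb5.symm.trans h') (by decide)

theorem code_sgf (w : List (Bool × Bool)) (a i : ℕ) (ha : a ∈ faceL) (hi : i < 7) (hai : a.testBit i = true) (x : ℕ × ℕ)
    (hx : x.1 < w.length ∧ x.2 < 200) : code w a (sgf w i x) = code w a x := by
  obtain ⟨k, c⟩ := x
  obtain ⟨hk, hc⟩ := hx
  simp only at hk hc
  rcases h5 : a.testBit 5 with _ | _
  · have hi5 : i ≠ 5 := by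
      rintro rfl
      rw [h5] at hai
      exact absurd hai (by decide)
    have hn : ∀ d, a.testBit 5 = true → isIn d = false ∧ isOut d = false := fun d h =>
      absurd (h5.symm.trans h) (by decide)
    rw [Cd1_sgf w k c i fun h => absurd h hi5, Cd1_no w a k _ (hn _), Cd1_no w a k _ (hn _),
      lab_rr _ a i c ha hi hai hc (hn c)]
  · obtain ⟨hb0, hb, hb5, hb32, hbb⟩ := face5 a ha h5
    have hbit := fun hi5 : i ≠ 5 => Cd1_bit a ha h5 i hi hi5 hai
    rcases ho : isOut c with _ | _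
    · rcases hin : isIn c with _ | _
      · -- in no port
        have hp : isIn (rr (kd w k) i c) = false ∧ isOut (rr (kd w k) i c) = false := by
          by_cases hi5 : i = 5
          · rw [hi5]
            exact rr5_port _ c hc ⟨hin, ho⟩
          · obtain ⟨h1, h4⟩ := hbb i hi (hbit hi5)
            have h := rr_port (kd w k) i c h1 h4 hc
            rw [h.1, h.2]
            exact ⟨hin, ho⟩
        rw [Cd1_sgf w k c i fun _ => ⟨hin, ho⟩, Cd1_no w a k _ fun _ => hp, Cd1_no w a k _ fun _ => ⟨hin, ho⟩,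
          lab_rr _ a i c ha hi hai hc fun _ => ⟨hin, ho⟩]
      · -- in the port `in`
        by_cases hi5 : i = 5
        · subst hi5
          by_cases hk0 : k = 0
          · subst hk0
            have e : sgf w 5 (0, c) = (0, fi c) := by
              unfold sgf
              rw [if_neg, if_pos ⟨rfl, hin⟩, if_pos rfl]
              rintro ⟨_, h2⟩
              simp only at h2
              rw [ho] at h2
              exact absurd h2 (by decide)
            obtain ⟨f1, f2, f3⟩ := fi_spec c hc hin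
            rw [e, Cd1_in0 w a _ h5 (port_disj _ f1 f2) f2, Cd1_in0 w a _ h5 ho hin, f3, mn_eq, mn_eq, min_comm]
          · have e : sgf w 5 (k, c) = (k - 1, gi (rv w k) c) := by
              unfold sgf
              rw [if_neg, if_pos ⟨rfl, hin⟩, if_neg hk0]
              rintro ⟨_, h2⟩
              simp only at h2
              rw [ho] at h2
              exact absurd h2 (by decide)
            obtain ⟨f1, f2, f3⟩ := gi_spec (rv w k) c hc hin
            rw [e, Cd1_out1 w a _ _ h5 f2 (by omega), Cd1_in1 w a k _ h5 ho hin hk0]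
        · obtain ⟨h1, h4⟩ := hbb i hi (hbit hi5)
          have hr := rr_port (kd w k) i c h1 h4 hc
          have hro : isOut (rr (kd w k) i c) = false := hr.2.trans ho
          have hri : isIn (rr (kd w k) i c) = true := hr.1.trans hin
          rw [Cd1_sgf w k c i fun h => absurd h hi5]
          by_cases hk0 : k = 0
          · subst hk0
            obtain ⟨f1, f2, f3⟩ := fi_spec c hc hin
            rw [Cd1_in0 w a _ h5 hro hri, Cd1_in0 w a _ h5 ho hin, fi_rr _ i c h1 h4 hc hin,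
              Cd1_lab _ _ i c hb hi (hbit hi5) h1 h4 hb5 hc (Or.inl hin),
              Cd1_lab _ _ i (fi c) hb hi (hbit hi5) h1 h4 hb5 f1 (Or.inl f2)]
          · obtain ⟨f1, f2, f3⟩ := gi_spec (rv w k) c hc hin
            rw [Cd1_in1 w a k _ h5 hro hri hk0, Cd1_in1 w a k _ h5 ho hin hk0,
              gi_rr (rv w k) (kd w k) true i c h1 h4 hc hin,
              Cd1_lab _ _ i (gi (rv w k) c) hb hi (hbit hi5) h1 h4 hb5 f1 (Or.inr f2)]
    · -- in the port `out`
      by_cases hi5 : i = 5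
      · subst hi5
        by_cases hk1 : k + 1 < w.length
        · have e : sgf w 5 (k, c) = (k + 1, gl (rv w (k + 1)) c) := by
            unfold sgf
            rw [if_pos ⟨rfl, ho⟩, if_pos hk1]
          obtain ⟨f1, f2, f3⟩ := gl_spec (rv w (k + 1)) c hc ho
          rw [e, Cd1_in1 w a _ _ h5 (port_disj _ f1 f2) f2 (by omega), Cd1_out1 w a k _ h5 ho hk1, f3,
            Nat.add_sub_cancel]
        · have e : sgf w 5 (k, c) = (k, fo c) := by
            unfold sgf
            rw [if_pos ⟨rfl, ho⟩, if_neg hk1]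
          obtain ⟨f1, f2, f3⟩ := fo_spec c hc ho
          rw [e, Cd1_out2 w a k _ h5 f2 hk1, Cd1_out2 w a k _ h5 ho hk1, f3, mn_eq, mn_eq, min_comm]
      · obtain ⟨h1, h4⟩ := hbb i hi (hbit hi5)
        have hr := rr_port (kd w k) i c h1 h4 hc
        have hro : isOut (rr (kd w k) i c) = true := hr.2.trans ho
        rw [Cd1_sgf w k c i fun h => absurd h hi5]
        by_cases hk1 : k + 1 < w.length
        · rw [Cd1_out1 w a k _ h5 hro hk1, Cd1_out1 w a k _ h5 ho hk1,
            Cd1_lab _ _ i c hb hi (hbit hi5) h1 h4 hb5 hc (Or.inr ho)]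
        · obtain ⟨f1, f2, f3⟩ := fo_spec c hc ho
          rw [Cd1_out2 w a k _ h5 hro hk1, Cd1_out2 w a k _ h5 ho hk1, fo_rr _ i c h1 h4 hc ho,
            Cd1_lab _ _ i c hb hi (hbit hi5) h1 h4 hb5 hc (Or.inr ho),
            Cd1_lab _ _ i (fo c) hb hi (hbit hi5) h1 h4 hb5 f1 (Or.inr f2)]

theorem code_orb (w : List (Bool × Bool)) (a : ℕ) (ha : a ∈ faceL) (x y : Ch w) (h : y ∈ orb (sg w) (fs a) x) :
    code w a y.1 = code w a x.1 := by
  obtain ⟨π, hπ, rfl⟩ := h
  have key : ∀ π ∈ Subgroup.closure (sg w '' fs a), ∀ x : Ch w, code w a (π x).1 = code w a x.1 := by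
    intro π hπ
    induction hπ using Subgroup.closure_induction with
    | mem π h =>
      obtain ⟨i, hi, rfl⟩ := h
      intro x
      exact code_sgf w a i ha i.2 hi x.1 x.2
    | one => exact fun x => rfl
    | mul π ρ _ _ h1 h2 =>
      intro x
      rw [Equiv.Perm.mul_apply, h1, h2]
    | inv π _ h =>
      intro x
      have h1 := h (π⁻¹ x)
      have h2 : π (π⁻¹ x) = x := Equiv.apply_symm_apply π x
      rw [h2] at h1
      exact h1.symm
  exact key π hπ x

end Pool.Agent.MP_455d73_gt.CS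
end

section

/-!
TASK M4 (easy): when two points of the model agree.

`→`: for `A` with `R.t k A ≠ 0` evaluate at `(A, orb σ A c)`: the left side is `R.t k A ≠ 0`, so the right side is not zero, hence
`orb σ A c = orb σ A c'` and `R.t k A = R.t k' A`; symmetrically for `k'`; if both are zero they agree. So `R.t k = R.t k'`, and
`k = ∑ t A • b A = k'` (`CX.t_spec`). With `A = act k` (`t k (act k) ≠ 0` by `CX.bary_mem`) we get the equality of orbits.
`←`: for `A` with `R.t k A ≠ 0`, `act k ⊆ A` (`CX.bary_mem`), so `orb σ A c = orb σ A c'` (`orb_eq_of_subset`); the other coordinates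
are `0` on both sides.
-/

set_option autoImplicit false

open Finset
open scoped Classical

namespace Pool.Agent.MP_455d73_gt.CS

variable {n : ℕ} {I S : Type}

private theorem M4_key [Fintype I] (R : CX n I) (σ : I → Equiv.Perm S) (k k' : Fin n → ℝ) (c c' : S)
    (h : R.inc σ k c = R.inc σ k' c') (A : Set I) (hA : R.t k A ≠ 0) :
    orb σ A c = orb σ A c' ∧ R.t k A = R.t k' A := by
  have h1 := congrFun h (A, orb σ A c)
  simp only [CX.inc, if_true] at h1
  by_cases h2 : orb σ A c = orb σ A c'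
  · rw [if_pos h2] at h1
    exact ⟨h2, h1⟩
  · rw [if_neg h2] at h1
    exact absurd h1 hA

theorem CX.inc_eq_iff [Fintype I] (R : CX n I) (σ : I → Equiv.Perm S) (k k' : Fin n → ℝ) (hk : k ∈ R.P1)
    (hk' : k' ∈ R.P1) (c c' : S) :
    R.inc σ k c = R.inc σ k' c' ↔ k = k' ∧ orb σ (R.act k) c = orb σ (R.act k) c' := by
  constructor
  · intro h
    have ht : R.t k = R.t k' := by
      funext A
      by_cases h1 : R.t k A = 0
      · by_cases h2 : R.t k' A = 0
        · rw [h1, h2]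
        · exact ((M4_key R σ k' k c' c h.symm A h2).2).symm
      · exact (M4_key R σ k k' c c' h A h1).2
    have hb := R.t_spec k hk
    have hb' := R.t_spec k' hk'
    refine ⟨?_, ?_⟩
    · rw [← hb.2.2.2.2, ← hb'.2.2.2.2, ht]
    · exact (M4_key R σ k k' c c' h (R.act k) (R.bary_mem k (R.t k) hb).2.1).1
  · rintro ⟨rfl, ho⟩
    funext v
    simp only [CX.inc]
    by_cases h0 : R.t k v.1 = 0
    · rw [h0]
      simp
    · have hsub := (R.bary_mem k (R.t k) (R.t_spec k hk)).2.2 v.1 h0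
      rw [orb_eq_of_subset σ (R.act k) v.1 hsub c c' ho]

end Pool.Agent.MP_455d73_gt.CS
end

section

/-!
TASK M5a (medium-hard): the orbit space is homeomorphic to the model.

Define `f : Hyp n → (Set I × Set S → ℝ)`, `f x = R.inc σ k c` for some `k`, `c` with `R.At σ s₀ x k c` (`CX.at_exists`, choice). By
`CX.at_unique` and `CX.inc_eq_iff` (`CX.at_mem`), `f x = R.inc σ k c` for all such `k`, `c`.
`f x = f y` iff `∃ g ∈ R.stab σ s₀, g x = y`: `←` `CX.at_stab`; `→` `CX.inc_eq_iff` and `CX.at_same`. The range of `f` is `R.X σ` (`CX.at_surj`).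
Continuity of `f`: for `h ∈ R.G` with `(h, π) ∈ GS σ` (`CX.exists_perm`) the set `h '' R.P` is closed (`R.cpt.isClosed`, `h` is a
homeomorphism: `CX.G_cont` for `h` and `h⁻¹`), and on it `f x = R.inc σ (kl (h⁻¹ x)) (π⁻¹ s₀)` (by definition of `At`), which is
continuous on `h '' R.P` since `R.t` is continuous on `P1` (`CX.t_PA` has the continuity as its first part; `continuous_kl`; `inc` is a
linear function of `R.t`). These sets cover `Hyp n` (`CX.cover`) and are locally finite (`CX.locfin`): so `f` is continuous (at `y`: take the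
neighbourhood `O` which meets only finitely many of the sets; remove those which do not contain `y`; on each of the remaining
finitely many closed sets `f` is continuous; `LocallyFinite.continuous` can be used).
`Φ` = the map induced by `f` on the quotient: a continuous bijection onto `R.X σ`. The quotient is compact: by `CX.stab_uniform`
(file `B6`, import it) it is the image of a compact set. `R.X σ` is Hausdorff. `Continuous.homeoOfEquivCompactToT2`.
The relation of `MulAction.orbitRel`: `(orbitRel Γ X).r a b ↔ a ∈ orbit Γ b`; the action of a subgroup `Γ` of `Equiv.Perm (Hyp n)` is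
`g • x = (g : Equiv.Perm (Hyp n)) x`.
-/

set_option autoImplicit false

open Finset
open scoped Classical

namespace Pool.Agent.MP_455d73_gt.CS

variable {n : ℕ} {I S : Type}

private theorem M5a_cover [Finite I] (R : CX n I) :
    (⋃ h : R.G, (h : Equiv.Perm (Hyp n)) '' R.P) = Set.univ := by
  refine Set.eq_univ_of_forall fun x => ?_
  obtain ⟨g, hg, hx⟩ := R.cover x
  refine Set.mem_iUnion.2 ⟨⟨g⁻¹, R.G.inv_mem hg⟩, g x, hx, ?_⟩
  show g⁻¹ (g x) = x
  exact g.symm_apply_apply x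

private theorem M5a_lf [Finite I] (R : CX n I) :
    LocallyFinite (fun h : R.G => (h : Equiv.Perm (Hyp n)) '' R.P) := by
  intro y
  obtain ⟨O, hO, hf⟩ := R.locfin y
  refine ⟨O, hO, ?_⟩
  refine (hf.preimage (Subtype.val_injective.injOn (s := (Subtype.val ⁻¹'
    {h : Equiv.Perm (Hyp n) | h ∈ R.G ∧ (h '' R.P ∩ O).Nonempty} : Set R.G)))).subset ?_
  intro h hh
  exact ⟨h.2, hh⟩

private theorem M5a_closed (R : CX n I) (h : R.G) :
    IsClosed ((h : Equiv.Perm (Hyp n)) '' R.P) :=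
  (R.cpt.image (R.G_cont h h.2)).isClosed

private theorem M5a_inc [Fintype I] (R : CX n I) (σ : I → Equiv.Perm S) (c : S) :
    ContinuousOn (fun k => R.inc σ k c) R.P1 := by
  refine continuousOn_pi.2 fun v => ?_
  unfold CX.inc
  by_cases hv : v.2 = orb σ v.1 c
  · simp only [if_pos hv]
    exact (continuousOn_pi.1 R.t_PA.1) v.1
  · simp only [if_neg hv]
    exact continuousOn_const

theorem CX.exists_homeo [Fintype I] [Fintype S] (R : CX n I) (σ : I → Equiv.Perm S) (hσ : R.Compat σ)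
    (s₀ : S) (hT : Trans σ s₀) :
    ∃ Φ : Quotient (MulAction.orbitRel (R.stab σ s₀) (Hyp n)) ≃ₜ R.X σ,
      ∀ x k c, R.At σ s₀ x k c → (Φ (Quotient.mk _ x) : Set I × Set S → ℝ) = R.inc σ k c := by
  choose kf hk cf hAt using R.at_exists σ s₀
  obtain ⟨f, hf⟩ : ∃ f : Hyp n → (Set I × Set S → ℝ), f = fun x => R.inc σ (kf x) (cf x) := ⟨_, rfl⟩
  have feq : ∀ x k c, R.At σ s₀ x k c → f x = R.inc σ k c := by
    intro x k c h
    have h1 := R.at_unique σ hσ s₀ x (kf x) k (cf x) c (hAt x) h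
    rw [hf]
    exact (R.inc_eq_iff σ (kf x) k (hk x) (R.at_mem σ s₀ x k c h) (cf x) c).2 h1
  have fX : ∀ x, f x ∈ R.X σ := fun x => ⟨kf x, hk x, cf x, by rw [hf]⟩
  have fstab : ∀ g ∈ R.stab σ s₀, ∀ x, f (g x) = f x := by
    intro g hg x
    rw [feq (g x) (kf x) (cf x) (R.at_stab σ s₀ g hg x _ _ (hAt x)), hf]
  have fsame : ∀ x y, f x = f y → ∃ g ∈ R.stab σ s₀, g x = y := by
    intro x y h
    rw [hf] at h
    have h1 := (R.inc_eq_iff σ (kf x) (kf y) (hk x) (hk y) (cf x) (cf y)).1 h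
    have h2 := hAt y
    rw [← h1.1] at h2
    exact R.at_same σ s₀ x y (kf x) (cf x) (cf y) (hAt x) h2 h1.2
  have fcont : Continuous f := by
    refine (M5a_lf R).continuous (M5a_cover R) (M5a_closed R) ?_
    intro h
    obtain ⟨π, hπ⟩ := R.exists_perm σ h h.2
    have h1 : ContinuousOn (fun x : Hyp n => R.inc σ (kl ((h : Equiv.Perm (Hyp n))⁻¹ x)) (π⁻¹ s₀))
        ((h : Equiv.Perm (Hyp n)) '' R.P) := by
      refine ContinuousOn.comp (M5a_inc R σ (π⁻¹ s₀)) ?_ ?_
      · exact (continuous_kl.comp (R.G_cont _ (R.G.inv_mem h.2))).continuousOn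
      · rintro x ⟨p, hp, rfl⟩
        show kl ((h : Equiv.Perm (Hyp n))⁻¹ ((h : Equiv.Perm (Hyp n)) p)) ∈ R.P1
        have : (h : Equiv.Perm (Hyp n))⁻¹ ((h : Equiv.Perm (Hyp n)) p) = p :=
          (h : Equiv.Perm (Hyp n)).symm_apply_apply p
        rw [this]
        exact (kl_mem_P1 R p).2 hp
    refine h1.congr ?_
    rintro x ⟨p, hp, rfl⟩
    have h3 : (h : Equiv.Perm (Hyp n))⁻¹ ((h : Equiv.Perm (Hyp n)) p) = p :=
      (h : Equiv.Perm (Hyp n)).symm_apply_apply p
    show f _ = R.inc σ (kl ((h : Equiv.Perm (Hyp n))⁻¹ ((h : Equiv.Perm (Hyp n)) p))) (π⁻¹ s₀)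
    rw [h3]
    refine feq _ _ _ ⟨h, π, hπ, p, hp, rfl, rfl, ?_⟩
    exact π.apply_symm_apply s₀
  obtain ⟨F, hF⟩ : ∃ F : Hyp n → R.X σ, ∀ x, (F x : Set I × Set S → ℝ) = f x :=
    ⟨fun x => ⟨f x, fX x⟩, fun _ => rfl⟩
  have Fcont : Continuous F := by
    refine continuous_induced_rng.2 ?_
    have : Subtype.val ∘ F = f := funext hF
    rw [this]
    exact fcont
  have hrel : ∀ a b : Hyp n, (MulAction.orbitRel (R.stab σ s₀) (Hyp n)).r a b → F a = F b := by
    rintro a b ⟨g, rfl⟩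
    refine Subtype.ext ?_
    rw [hF, hF]
    exact fstab g g.2 b
  obtain ⟨G, hG⟩ : ∃ G : Quotient (MulAction.orbitRel (R.stab σ s₀) (Hyp n)) → R.X σ,
      G = Quotient.lift F hrel := ⟨_, rfl⟩
  have Gmk : ∀ x, G (Quotient.mk _ x) = F x := by
    intro x
    rw [hG]
    rfl
  have Gcont : Continuous G := by
    rw [hG]
    exact Fcont.quotient_lift hrel
  have Gbij : Function.Bijective G := by
    constructor
    · intro a b
      refine Quotient.inductionOn₂ a b fun x y h => ?_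
      rw [Gmk, Gmk] at h
      have h1 : f x = f y := by rw [← hF, ← hF, h]
      obtain ⟨g, hg, hgx⟩ := fsame x y h1
      refine Quotient.sound ?_
      refine (MulAction.orbitRel (R.stab σ s₀) (Hyp n)).symm ?_
      exact ⟨⟨g, hg⟩, hgx⟩
    · rintro ⟨z, k, hk', c, rfl⟩
      obtain ⟨x, hx⟩ := R.at_surj σ s₀ hT k hk' c
      refine ⟨Quotient.mk _ x, ?_⟩
      rw [Gmk]
      refine Subtype.ext ?_
      rw [hF, feq x k c hx]
  have hcpt : CompactSpace (Quotient (MulAction.orbitRel (R.stab σ s₀) (Hyp n))) := by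
    obtain ⟨_, _, K, hK, hcov⟩ := R.stab_uniform σ s₀
    refine ⟨?_⟩
    have h1 : (Set.univ : Set (Quotient (MulAction.orbitRel (R.stab σ s₀) (Hyp n)))) =
        (Quotient.mk _) '' K := by
      refine (Set.eq_univ_of_forall fun q => ?_).symm
      refine Quotient.inductionOn q fun x => ?_
      obtain ⟨g, hg, hx⟩ := hcov x
      refine ⟨g x, hx, ?_⟩
      refine Quotient.sound ?_
      exact ⟨⟨g, hg⟩, rfl⟩
    rw [h1]
    exact hK.image continuous_quotient_mk'
  refine ⟨Continuous.homeoOfEquivCompactToT2 (f := Equiv.ofBijective G Gbij) Gcont, ?_⟩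
  intro x k c h
  show ((G (Quotient.mk _ x) : R.X σ) : Set I × Set S → ℝ) = R.inc σ k c
  rw [Gmk, hF, feq x k c h]

end Pool.Agent.MP_455d73_gt.CS
end

section

/-!
TASK M5c (medium-hard): the family `R.K` (translates of the simplices of the barycentric subdivision) is a triangulation.

Facts. For a face `A`: `b A ∈ P1` is in the open ball (`P1_ball`), `(up (b A)).1 = s_A • (b A, 1)` with `s_A > 0`, `up (b A) ∈ R.P`, and
`kl (up (b A)) = b A` (`kl_up`), so `A ↦ up (b A)` is injective on faces (`CX.b_spec`: `act (b A) = A`).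
`K_indep`: `τ = C.image (fun A => g (up (b A)))`; `CX.exists_linear` gives `T` with `(g x).1 = T x.1`; the vectors are `T (s_A • (b A, 1))`;
`CX.b_indep`.
`K_sub`: a nonempty subset of `C.image φ` is `C'.image φ` with a nonempty `C' ⊆ C` (`Finset.subset_image_iff`).
`K_exists`: `y = g p` with `p ∈ P`, `g ∈ G` (`CX.cover`); `k = kl p`, `t = R.t k` (`CX.t_spec`); `p.1 = p.2 • (k, 1) = ∑ p.2 * t A • (b A, 1)`, so
`y.1 = T p.1 = ∑_{A ∈ C} (p.2 * t A / s_A) • (g (up (b A))).1` with `C` = the support of `t` and positive coefficients (write the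
coefficients as a function on the points: `A ↦ g (up (b A))` is injective on `C`).
`K_unique`: let `y.1 = ∑ v ∈ τ, t v • v.1` with `τ = C.image (fun A => g (up (b A)))`, `t v > 0`, and the same for `τ'`, `g'`, `C'`, `t'`. Then
`(g⁻¹ y).1 = T⁻¹ y.1 = ∑_{A ∈ C} c_A (b A, 1)`, `c_A > 0`: so `p = g⁻¹ y ∈ P` and `kl p` has the `Bary` coordinates `c_A / ∑ c`, with support
exactly `C`. In the same way `p' = g'⁻¹ y ∈ P` with `kl p'` having support `C'`. `(g'⁻¹ g) p = p'`, both in `P`: `p = p'` (`CX.strict`), so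
`C = C'` (`CX.bary_unique`). By `CX.tits` (`S = PUnit`) and `CX.GSx_fix`-like reasoning `g'⁻¹ g` is in the closure of the `R.s i` with
`lor p e_i = 0`, i.e. `i ∈ act (kl p)`; for `A ∈ C`, `act (kl p) ⊆ A` (`CX.bary_mem`), so these `R.s i` fix `up (b A)`
(`mem_act_kl`, `lor (up (b A)) e_i = 0`, `refl` formula): so `g (up (b A)) = g' (up (b A))`: `τ = τ'`.
`K_inv`: `Finset.map_eq_image`, `Finset.image_image`; `h * g ∈ G`.
-/

set_option autoImplicit false

open Finset
open scoped Classical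

namespace Pool.Agent.MP_455d73_gt.CS

variable {n : ℕ} {I : Type}

/-- A point of hyperbolic space in terms of the chart. -/
private theorem M5c_eq (x : Hyp n) : x.1 = x.1.2 • ((kl x, 1) : Mk n) := by
  have h := x.2.2
  refine Prod.ext (funext fun j => ?_) ?_
  · simp only [kl, Prod.smul_fst, Pi.smul_apply, smul_eq_mul]
    field_simp
  · simp only [Prod.smul_snd, smul_eq_mul, mul_one]

theorem CX.up_b (R : CX n I) (A : Set I) (hA : A ∈ R.faces) :
    up (R.b A) ∈ R.P ∧ kl (up (R.b A)) = R.b A ∧ 0 < (up (R.b A)).1.2 ∧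
      (up (R.b A)).1 = (up (R.b A)).1.2 • ((R.b A, 1) : Mk n) := by
  obtain ⟨h1, h2⟩ := R.b_spec A hA
  have hk := kl_up _ (P1_ball R _ h1)
  refine ⟨up_mem_P R _ h1, hk, (up (R.b A)).2.2, ?_⟩
  have h := M5c_eq (up (R.b A))
  rw [hk] at h
  exact h

private theorem M5c_act (R : CX n I) (A : Set I) (hA : A ∈ R.faces) :
    R.act (kl (up (R.b A))) = A := by
  rw [(R.up_b A hA).2.1]
  exact (R.b_spec A hA).2

private theorem M5c_inj (R : CX n I) (g : Equiv.Perm (Hyp n)) (C : Finset (Set I))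
    (hC : ∀ A ∈ C, A ∈ R.faces) : Set.InjOn (fun A => g (up (R.b A))) (C : Set (Set I)) := by
  intro A hA B hB h
  have h' : up (R.b A) = up (R.b B) := g.injective h
  have h1 := M5c_act R A (hC A hA)
  rw [h', M5c_act R B (hC B hB)] at h1
  exact h1.symm

theorem CX.K_indep [Fintype I] (R : CX n I) (τ : Finset (Hyp n)) (hτ : τ ∈ R.K) :
    LinearIndependent ℝ (fun v : τ => (v : Hyp n).1) := by
  obtain ⟨g, hg, C, hne, hC, hc, rfl⟩ := hτ
  obtain ⟨T, hT⟩ := R.exists_linear g hg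
  have hind := R.b_indep C hC hc
  have hmem : ∀ A : C, g (up (R.b A)) ∈ C.image (fun A => g (up (R.b A))) :=
    fun A => Finset.mem_image_of_mem (fun A => g (up (R.b A))) A.2
  let f : C → (C.image (fun A => g (up (R.b A)))) := fun A => ⟨g (up (R.b A)), hmem A⟩
  have hf : Function.Bijective f := by
    constructor
    · intro A B h
      have h' : g (up (R.b A)) = g (up (R.b B)) := congrArg Subtype.val h
      exact Subtype.ext (M5c_inj R g C hC A.2 B.2 h')
    · rintro ⟨v, hv⟩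
      obtain ⟨A, hA, rfl⟩ := Finset.mem_image.mp hv
      exact ⟨⟨A, hA⟩, rfl⟩
  rw [← linearIndependent_equiv (Equiv.ofBijective f hf)]
  have h1 : LinearIndependent ℝ (fun A : C => T ((R.b A, 1) : Mk n)) :=
    hind.map' T.toLinearMap T.ker
  have hpos : ∀ A : C, (up (R.b A)).1.2 ≠ 0 := fun A => ((R.up_b A (hC A A.2)).2.2.1).ne'
  have h2 := h1.units_smul (fun A : C => Units.mk0 _ (hpos A))
  have h3 : ((fun A : C => Units.mk0 _ (hpos A)) • fun A : C => T ((R.b A, 1) : Mk n)) =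
      ((fun v : C.image (fun A => g (up (R.b A))) => (v : Hyp n).1) ∘ Equiv.ofBijective f hf) := by
    funext A
    change (up (R.b A)).1.2 • T ((R.b A, 1) : Mk n) = (g (up (R.b A))).1
    rw [hT, ← map_smul, ← (R.up_b A (hC A A.2)).2.2.2]
  rw [h3] at h2
  exact h2

theorem CX.K_sub (R : CX n I) (τ : Finset (Hyp n)) (hτ : τ ∈ R.K) (τ' : Finset (Hyp n)) (h : τ' ⊆ τ)
    (hne : τ'.Nonempty) : τ' ∈ R.K := by
  obtain ⟨g, hg, C, hne', hC, hc, rfl⟩ := hτ
  obtain ⟨C', hC', rfl⟩ := Finset.subset_image_iff.mp h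
  exact ⟨g, hg, C', Finset.image_nonempty.mp hne, fun A hA => hC A (hC' hA),
    fun A hA B hB => hc A (hC' hA) B (hC' hB), rfl⟩

theorem CX.K_exists [Fintype I] (R : CX n I) (y : Hyp n) :
    ∃ τ ∈ R.K, ∃ t : Hyp n → ℝ, (∀ v ∈ τ, 0 < t v) ∧ y.1 = ∑ v ∈ τ, t v • v.1 := by
  obtain ⟨g, hg, hP⟩ := R.cover y
  have hk : kl (g y) ∈ R.P1 := (kl_mem_P1 R _).mpr hP
  obtain ⟨h0, h1, h2, h3, h4⟩ := R.t_spec (kl (g y)) hk
  obtain ⟨T, hT⟩ := R.exists_linear g⁻¹ (R.G.inv_mem hg)
  set t := R.t (kl (g y)) with ht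
  set C : Finset (Set I) := Finset.univ.filter (fun A => t A ≠ 0) with hCdef
  have hmem : ∀ A, A ∈ C ↔ t A ≠ 0 := fun A => by
    rw [hCdef, Finset.mem_filter]
    exact ⟨fun h => h.2, fun h => ⟨Finset.mem_univ A, h⟩⟩
  have hC : ∀ A ∈ C, A ∈ R.faces := fun A hA => h1 A ((hmem A).mp hA)
  have hsum : ∀ F : Set I → Mk n, (∀ A, t A = 0 → F A = 0) → ∑ A ∈ C, F A = ∑ A, F A := by
    intro F hF
    apply Finset.sum_subset (Finset.subset_univ C)
    intro A _ hA
    apply hF
    by_contra h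
    exact hA ((hmem A).mpr h)
  have hne : C.Nonempty := by
    by_contra h
    rw [Finset.not_nonempty_iff_eq_empty] at h
    have : ∑ A, t A = 0 := by
      apply Finset.sum_eq_zero
      intro A _
      by_contra hA
      have := (hmem A).mpr hA
      rw [h] at this
      exact Finset.notMem_empty A this
    rw [h3] at this
    exact one_ne_zero this
  have hgy : (g y).1 = ∑ A ∈ C, ((g y).1.2 * t A) • ((R.b A, 1) : Mk n) := by
    rw [hsum _ (fun A hA => by rw [hA, mul_zero, zero_smul])]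
    have e1 : ∑ A, ((g y).1.2 * t A) • ((R.b A, 1) : Mk n) =
        (g y).1.2 • ∑ A, t A • ((R.b A, 1) : Mk n) := by
      rw [Finset.smul_sum]
      exact Finset.sum_congr rfl (fun A _ => by rw [mul_smul])
    have e2 : ∑ A, t A • ((R.b A, 1) : Mk n) = ((kl (g y), 1) : Mk n) := by
      refine Prod.ext ?_ ?_
      · rw [Prod.fst_sum]
        simp only [Prod.smul_fst]
        exact h4
      · rw [Prod.snd_sum]
        simp only [Prod.smul_snd, smul_eq_mul, mul_one]
        exact h3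
    rw [e1, e2]
    exact M5c_eq (g y)
  have hgg : ∀ x : Hyp n, g (g⁻¹ x) = x := fun x => g.apply_symm_apply x
  have hgg' : g⁻¹ (g y) = y := g.symm_apply_apply y
  refine ⟨C.image (fun A => g⁻¹ (up (R.b A))),
    ⟨g⁻¹, R.G.inv_mem hg, C, hne, hC, fun A hA B hB => h2 A B ((hmem A).mp hA) ((hmem B).mp hB), rfl⟩,
    fun v => (g y).1.2 * t (R.act (kl (g v))) / (g v).1.2, ?_, ?_⟩
  · intro v hv
    obtain ⟨A, hA, rfl⟩ := Finset.mem_image.mp hv
    change 0 < (g y).1.2 * t (R.act (kl (g (g⁻¹ (up (R.b A)))))) / (g (g⁻¹ (up (R.b A)))).1.2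
    rw [hgg, M5c_act R A (hC A hA)]
    have hA' : 0 < t A := lt_of_le_of_ne (h0 A) (Ne.symm ((hmem A).mp hA))
    exact div_pos (mul_pos (g y).2.2 hA') (up (R.b A)).2.2
  · rw [Finset.sum_image (M5c_inj R g⁻¹ C hC)]
    have e1 : y.1 = ∑ A ∈ C, T (((g y).1.2 * t A) • ((R.b A, 1) : Mk n)) := by
      rw [← map_sum]
      have e2 : y.1 = T (g y).1 := by
        rw [← hT, hgg']
      exact e2.trans (congrArg T hgy)
    refine e1.trans (Finset.sum_congr rfl fun A hA => ?_)
    change _ = ((g y).1.2 * t (R.act (kl (g (g⁻¹ (up (R.b A)))))) / (g (g⁻¹ (up (R.b A)))).1.2) •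
      (g⁻¹ (up (R.b A))).1
    rw [hgg, M5c_act R A (hC A hA), hT, ← map_smul]
    obtain ⟨-, -, hs, he⟩ := R.up_b A (hC A hA)
    congr 1
    have e3 := congrArg (fun w : Mk n => ((g y).1.2 * t A / (up (R.b A)).1.2) • w) he
    refine Eq.trans ?_ e3.symm
    change _ = ((g y).1.2 * t A / (up (R.b A)).1.2) • ((up (R.b A)).1.2 • ((R.b A, 1) : Mk n))
    rw [smul_smul, div_mul_cancel₀ _ hs.ne']

private theorem M5c_bary [Fintype I] (R : CX n I) (p : Hyp n) (C : Finset (Set I))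
    (hC : ∀ A ∈ C, A ∈ R.faces) (hc : ∀ A ∈ C, ∀ B ∈ C, A ⊆ B ∨ B ⊆ A) (c : Set I → ℝ)
    (hpos : ∀ A ∈ C, 0 < c A) (hp : p.1 = ∑ A ∈ C, c A • ((R.b A, 1) : Mk n)) :
    R.Bary (kl p) (fun A => if A ∈ C then c A / p.1.2 else 0) := by
  have hp0 : 0 < p.1.2 := p.2.2
  have hmem : ∀ A, (if A ∈ C then c A / p.1.2 else 0) ≠ 0 → A ∈ C := by
    intro A hA
    by_contra h
    exact hA (if_neg h)
  have hsnd : p.1.2 = ∑ A ∈ C, c A := by
    have := congrArg Prod.snd hp
    rw [Prod.snd_sum] at this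
    simpa only [Prod.smul_snd, smul_eq_mul, mul_one] using this
  have hfst : p.1.1 = ∑ A ∈ C, c A • R.b A := by
    have := congrArg Prod.fst hp
    rw [Prod.fst_sum] at this
    simpa only [Prod.smul_fst] using this
  refine ⟨?_, fun A hA => hC A (hmem A hA), fun A B hA hB => hc A (hmem A hA) B (hmem B hB), ?_, ?_⟩
  · intro A
    change 0 ≤ (if A ∈ C then c A / p.1.2 else 0)
    by_cases h : A ∈ C
    · rw [if_pos h]
      exact (div_pos (hpos A h) hp0).le
    · rw [if_neg h]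
  · rw [Finset.sum_ite_mem, Finset.univ_inter, ← Finset.sum_div, ← hsnd, div_self hp0.ne']
  · have e : ∀ A, (if A ∈ C then c A / p.1.2 else 0) • R.b A =
        if A ∈ C then (c A / p.1.2) • R.b A else 0 := by
      intro A
      by_cases h : A ∈ C
      · rw [if_pos h, if_pos h]
      · rw [if_neg h, if_neg h, zero_smul]
    rw [Finset.sum_congr rfl (fun A _ => e A), Finset.sum_ite_mem, Finset.univ_inter]
    funext j
    rw [Finset.sum_apply]
    have : kl p j = p.1.1 j / p.1.2 := rfl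
    rw [this, hfst, Finset.sum_apply, Finset.sum_div]
    apply Finset.sum_congr rfl
    intro A _
    simp only [Pi.smul_apply, smul_eq_mul]
    ring

private theorem M5c_pull [Fintype I] (R : CX n I) (y : Hyp n) (g : Equiv.Perm (Hyp n)) (hg : g ∈ R.G)
    (C : Finset (Set I)) (hC : ∀ A ∈ C, A ∈ R.faces) (t : Hyp n → ℝ)
    (hy : y.1 = ∑ v ∈ C.image (fun A => g (up (R.b A))), t v • v.1) :
    (g⁻¹ y).1 = ∑ A ∈ C, (t (g (up (R.b A))) * (up (R.b A)).1.2) • ((R.b A, 1) : Mk n) := by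
  obtain ⟨T, hT⟩ := R.exists_linear g⁻¹ (R.G.inv_mem hg)
  rw [hT, hy, Finset.sum_image (M5c_inj R g C hC), map_sum]
  apply Finset.sum_congr rfl
  intro A hA
  rw [map_smul, ← hT, show g⁻¹ (g (up (R.b A))) = up (R.b A) from g.symm_apply_apply _, mul_smul,
    ← (R.up_b A (hC A hA)).2.2.2]

theorem CX.K_unique [Fintype I] (R : CX n I) (y : Hyp n) (τ τ' : Finset (Hyp n)) (hτ : τ ∈ R.K)
    (hτ' : τ' ∈ R.K) (t t' : Hyp n → ℝ) (ht : ∀ v ∈ τ, 0 < t v) (ht' : ∀ v ∈ τ', 0 < t' v)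
    (hy : y.1 = ∑ v ∈ τ, t v • v.1) (hy' : y.1 = ∑ v ∈ τ', t' v • v.1) : τ = τ' := by
  obtain ⟨g, hg, C, hne, hC, hc, rfl⟩ := hτ
  obtain ⟨g', hg', C', hne', hC', hc', rfl⟩ := hτ'
  have h1 := M5c_pull R y g hg C hC t hy
  have h1' := M5c_pull R y g' hg' C' hC' t' hy'
  have hpos : ∀ A ∈ C, 0 < t (g (up (R.b A))) * (up (R.b A)).1.2 := fun A hA =>
    mul_pos (ht _ (Finset.mem_image_of_mem (fun A => g (up (R.b A))) hA)) (up (R.b A)).2.2
  have hpos' : ∀ A ∈ C', 0 < t' (g' (up (R.b A))) * (up (R.b A)).1.2 := fun A hA =>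
    mul_pos (ht' _ (Finset.mem_image_of_mem (fun A => g' (up (R.b A))) hA)) (up (R.b A)).2.2
  have h2 := M5c_bary R (g⁻¹ y) C hC hc _ hpos h1
  have h2' := M5c_bary R (g'⁻¹ y) C' hC' hc' _ hpos' h1'
  have hP : g⁻¹ y ∈ R.P := (kl_mem_P1 R _).mp (R.bary_mem _ _ h2).1
  have hP' : g'⁻¹ y ∈ R.P := (kl_mem_P1 R _).mp (R.bary_mem _ _ h2').1
  have hgg : g (g⁻¹ y) = y := g.apply_symm_apply y
  have hmv : (g'⁻¹ * g) (g⁻¹ y) = g'⁻¹ y := by
    rw [Equiv.Perm.mul_apply, hgg]
  have hh : g'⁻¹ * g ∈ R.G := R.G.mul_mem (R.G.inv_mem hg') hg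
  have heq : g'⁻¹ y = g⁻¹ y := by
    rw [← hmv]
    exact R.strict _ hh _ hP (by rw [hmv]; exact hP')
  rw [heq] at h2'
  have h3 := R.bary_unique _ _ _ h2 h2'
  have hCC : C = C' := by
    ext A
    have h4 := congrFun h3 A
    have hy0 : 0 < (g⁻¹ y).1.2 := (g⁻¹ y).2.2
    constructor
    · intro hA
      by_contra hA'
      simp only [if_pos hA, if_neg hA'] at h4
      exact (div_pos (hpos A hA) hy0).ne' h4
    · intro hA
      by_contra hA'
      simp only [if_pos hA, if_neg hA'] at h4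
      exact (div_pos (hpos' A hA) hy0).ne h4
  subst hCC
  -- the element fixes the vertices
  obtain ⟨π, hπ⟩ := R.exists_perm (fun _ : I => (1 : Equiv.Perm Unit)) _ hh
  have hcomp : R.Compat (fun _ : I => (1 : Equiv.Perm Unit)) :=
    ⟨fun _ => one_mul 1, fun _ _ _ => by simp⟩
  have h5 := (R.tits _ hcomp _ hπ (g⁻¹ y) hP (by
    change (g'⁻¹ * g) (g⁻¹ y) ∈ R.P
    rw [hmv]
    exact hP')).2
  have key : ∀ q : Equiv.Perm (Hyp n) × Equiv.Perm Unit,
      q ∈ R.GSx (fun _ : I => (1 : Equiv.Perm Unit)) (g⁻¹ y) →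
      ∀ A ∈ C, q.1 (up (R.b A)) = up (R.b A) := by
    intro q hq
    unfold CX.GSx at hq
    induction hq using Subgroup.closure_induction with
    | mem q hq =>
      obtain ⟨i, hi, rfl⟩ := hq
      intro A hA
      have hiA : i ∈ A := by
        refine (R.bary_mem _ _ h2).2.2 A ?_ ((mem_act_kl R _ i).mpr hi)
        simp only [if_pos hA]
        exact (div_pos (hpos A hA) (g⁻¹ y).2.2).ne'
      have h0 : lor (up (R.b A)).1 (R.e i) = 0 := by
        rw [← mem_act_kl, M5c_act R A (hC A hA)]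
        exact hiA
      apply Subtype.ext
      change (refl (R.e i) (R.unit i) (up (R.b A))).1 = _
      rw [refl_coe, h0, mul_zero, zero_smul, sub_zero]
    | one =>
      intro A _
      rfl
    | mul a b _ _ ha hb =>
      intro A hA
      change a.1 (b.1 (up (R.b A))) = _
      rw [hb A hA, ha A hA]
    | inv a _ ha =>
      intro A hA
      change a.1⁻¹ (up (R.b A)) = _
      rw [Equiv.Perm.inv_eq_iff_eq]
      exact (ha A hA).symm
  apply Finset.image_congr
  intro A hA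
  have h6 : (g'⁻¹ * g) (up (R.b A)) = up (R.b A) := key _ h5 A hA
  change g (up (R.b A)) = g' (up (R.b A))
  rw [Equiv.Perm.mul_apply, Equiv.Perm.inv_eq_iff_eq] at h6
  exact h6

theorem CX.K_inv (R : CX n I) (τ : Finset (Hyp n)) (hτ : τ ∈ R.K) (h : Equiv.Perm (Hyp n))
    (hh : h ∈ R.G) : τ.map h.toEmbedding ∈ R.K := by
  obtain ⟨g, hg, C, hne, hC, hc, rfl⟩ := hτ
  refine ⟨h * g, R.G.mul_mem hh hg, C, hne, hC, hc, ?_⟩
  rw [Finset.map_eq_image, Finset.image_image]
  rfl

end Pool.Agent.MP_455d73_gt.CS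
end

section

/-!
TASK M5d (easy): finitely many simplices modulo the stabiliser.

For every `c : S` for which there is `(h, ρ) ∈ GS σ` with `ρ c = s₀` choose such a pair `(h c, ρ c)`. `𝓕` = all finsets
`C.image (fun A => h c (up (b A)))`, `C : Finset (Set I)`, `c : S` (a finite set: image of the finite type `Finset (Set I) × S`). Let
`τ = C.image (fun A => g (up (b A)))`, `g ∈ R.G`, `(g, π) ∈ GS σ` (`CX.exists_perm`), `c = π⁻¹ s₀`. Then `γ = g * (h c)⁻¹` has the
permutation `π (ρ c)⁻¹`, which maps `s₀` to `π c = s₀`: `γ ∈ R.stab σ s₀`, and `τ` is the image under `γ` of the member of `𝓕`.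
-/

set_option autoImplicit false

open Finset
open scoped Classical

namespace Pool.Agent.MP_455d73_gt.CS

variable {n : ℕ} {I S : Type}

private theorem M5d_inv_self {α : Type} (f : Equiv.Perm α) (x : α) : f⁻¹ (f x) = x :=
  f.symm_apply_apply x

private theorem M5d_self_inv {α : Type} (f : Equiv.Perm α) (x : α) : f (f⁻¹ x) = x :=
  f.apply_symm_apply x

theorem CX.K_fin [Fintype I] [Fintype S] (R : CX n I) (σ : I → Equiv.Perm S) (s₀ : S) :
    ∃ 𝓕 : Finset (Finset (Hyp n)), ∀ τ ∈ R.K, ∃ τ' ∈ 𝓕, ∃ g ∈ R.stab σ s₀, τ = τ'.map g.toEmbedding := by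
  have hch : ∀ c : S, ∃ h : Equiv.Perm (Hyp n), (∃ g ρ, (g, ρ) ∈ R.GS σ ∧ ρ c = s₀) →
      ∃ ρ, (h, ρ) ∈ R.GS σ ∧ ρ c = s₀ := by
    intro c
    by_cases hc : ∃ g ρ, (g, ρ) ∈ R.GS σ ∧ ρ c = s₀
    · obtain ⟨g, hg⟩ := hc
      exact ⟨g, fun _ => hg⟩
    · exact ⟨1, fun h => absurd h hc⟩
  choose h hh using hch
  refine ⟨Finset.univ.image (fun q : Finset (Set I) × S =>
    q.1.image (fun A => h q.2 (up (R.b A)))), ?_⟩
  rintro τ ⟨g, hg, C, -, -, -, hτ⟩
  obtain ⟨π, hπ⟩ := R.exists_perm σ g hg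
  obtain ⟨ρ, hρ, hρc⟩ := hh (π⁻¹ s₀) ⟨g, π, hπ, M5d_self_inv π s₀⟩
  refine ⟨C.image (fun A => h (π⁻¹ s₀) (up (R.b A))), ?_, g * (h (π⁻¹ s₀))⁻¹, ⟨π * ρ⁻¹, ?_, ?_⟩, ?_⟩
  · exact Finset.mem_image.mpr ⟨(C, π⁻¹ s₀), Finset.mem_univ _, rfl⟩
  · exact (R.GS σ).mul_mem hπ ((R.GS σ).inv_mem hρ)
  · have h1 : ρ⁻¹ s₀ = π⁻¹ s₀ := by
      have h2 := M5d_inv_self ρ (π⁻¹ s₀)
      rw [hρc] at h2
      exact h2
    rw [Equiv.Perm.mul_apply, h1, M5d_self_inv]
  · rw [hτ]
    ext y
    simp only [Finset.mem_image, Finset.mem_map]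
    constructor
    · rintro ⟨A, hA, rfl⟩
      refine ⟨h (π⁻¹ s₀) (up (R.b A)), ⟨A, hA, rfl⟩, ?_⟩
      show (g * (h (π⁻¹ s₀))⁻¹) (h (π⁻¹ s₀) (up (R.b A))) = g (up (R.b A))
      rw [Equiv.Perm.mul_apply, M5d_inv_self]
    · rintro ⟨z, ⟨A, hA, rfl⟩, rfl⟩
      refine ⟨A, hA, ?_⟩
      show g (up (R.b A)) = (g * (h (π⁻¹ s₀))⁻¹) (h (π⁻¹ s₀) (up (R.b A)))
      rw [Equiv.Perm.mul_apply, M5d_inv_self]

end Pool.Agent.MP_455d73_gt.CS
end

section

/-!
TASK M5e (medium): the homeomorphism is affine on the simplices.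

`τ = C.image (fun A => g (up (b A)))` with `g ∈ R.G`, `C` a chain of faces; `(g, π) ∈ GS σ` (`CX.exists_perm`), `c = π⁻¹ s₀`. For
`v = g (up (b A))`, `A ∈ C`: `R.wt v = ((up (b A)).1.2)⁻¹` (`CX.wt_of`), so `R.wt v • v.1 = T (b A, 1)` (`CX.up_b`, `CX.exists_linear`), and
`R.At σ s₀ v (b A) c`. Write `u A = t (g (up (b A)))` for `A ∈ C`, `u A = 0` otherwise (the map `A ↦ g (up (b A))` is injective on `C`). Then
`∑ v ∈ τ, (t v * wt v) • v.1 = T (k, 1)` with `k = ∑ A, u A • b A`, `Bary k u`, `k ∈ P1` (`CX.bary_mem`), so `y = g (up k)` (both are positive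
multiples of `T (k, 1)`, and a positive multiple of a vector in `Hyp n` is in `Hyp n` only for the factor 1), `kl (up k) = k`, and
`R.At σ s₀ y k c`. Hence `Φ y = R.inc σ k c` and `Φ v = R.inc σ (b A) c`. `R.t k = u` (`CX.t_eq`), `R.t (b A)` = the indicator of `A`
(`CX.t_b`): at `(B, o)`: `∑ A ∈ C, u A * (if o = orb σ B c then [B = A] else 0) = if o = orb σ B c then u B else 0`.
-/

set_option autoImplicit false

open Finset
open scoped Classical

namespace Pool.Agent.MP_455d73_gt.CS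

variable {n : ℕ} {I S : Type}

theorem CX.affine_on [Fintype I] [Fintype S] (R : CX n I) (σ : I → Equiv.Perm S) (hσ : R.Compat σ)
    (s₀ : S) (Φ : Quotient (MulAction.orbitRel (R.stab σ s₀) (Hyp n)) ≃ₜ R.X σ)
    (hΦ : ∀ x k c, R.At σ s₀ x k c → (Φ (Quotient.mk _ x) : Set I × Set S → ℝ) = R.inc σ k c)
    (τ : Finset (Hyp n)) (hτ : τ ∈ R.K) (t : Hyp n → ℝ) (ht : ∀ v ∈ τ, 0 ≤ t v) (ht1 : ∑ v ∈ τ, t v = 1)
    (y : Hyp n) (r : ℝ) (hr : 0 < r) (hy : y.1 = r • ∑ v ∈ τ, (t v * R.wt v) • v.1) :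
    (Φ (Quotient.mk _ y) : Set I × Set S → ℝ) =
      ∑ v ∈ τ, t v • (Φ (Quotient.mk _ v) : Set I × Set S → ℝ) := by
  obtain ⟨g, hg, C, hCne, hCf, hCc, rfl⟩ := hτ
  obtain ⟨T, hT⟩ := R.exists_linear g hg
  obtain ⟨π, hπ⟩ := R.exists_perm σ g hg
  have hinj : ∀ A ∈ C, ∀ B ∈ C, g (up (R.b A)) = g (up (R.b B)) → A = B := by
    intro A hA B hB h
    have h1 : up (R.b A) = up (R.b B) := g.injective h
    have h2 : R.b A = R.b B := by
      rw [← (R.up_b A (hCf A hA)).2.1, ← (R.up_b B (hCf B hB)).2.1, h1]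
    rw [← (R.b_spec A (hCf A hA)).2, ← (R.b_spec B (hCf B hB)).2, h2]
  have hsum : ∀ {M : Type} [AddCommMonoid M] (f : Hyp n → M),
      ∑ v ∈ C.image (fun A => g (up (R.b A))), f v = ∑ A ∈ C, f (g (up (R.b A))) :=
    fun f => Finset.sum_image hinj
  have ht1' : ∑ A ∈ C, t (g (up (R.b A))) = 1 := by rw [← ht1, hsum]
  have ht' : ∀ A ∈ C, 0 ≤ t (g (up (R.b A))) := fun A hA =>
    ht _ (Finset.mem_image_of_mem _ hA)
  obtain ⟨k, hk⟩ : ∃ k : Fin n → ℝ, k = ∑ A ∈ C, t (g (up (R.b A))) • R.b A := ⟨_, rfl⟩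
  obtain ⟨u, hu⟩ : ∃ u : Set I → ℝ, u = fun A => if A ∈ C then t (g (up (R.b A))) else 0 := ⟨_, rfl⟩
  have hu0 : ∀ A, u A ≠ 0 → A ∈ C := by
    intro A h
    by_contra h1
    apply h
    rw [hu]
    exact if_neg h1
  have hbary : R.Bary k u := by
    refine ⟨fun A => ?_, fun A h => hCf A (hu0 A h),
      fun A B h h' => hCc A (hu0 A h) B (hu0 B h'), ?_, ?_⟩
    · rw [hu]
      dsimp only
      split_ifs with h
      · exact ht' A h
      · exact le_rfl
    · rw [hu, Finset.sum_ite_mem, Finset.univ_inter, ht1']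
    · rw [hu, hk]
      simp only [ite_smul, zero_smul]
      rw [Finset.sum_ite_mem, Finset.univ_inter]
  have hkP : k ∈ R.P1 := (R.bary_mem k u hbary).1
  have hball := P1_ball R k hkP
  have hlin : ∑ v ∈ C.image (fun A => g (up (R.b A))), (t v * R.wt v) • v.1 = T ((k, 1) : Mk n) := by
    rw [hsum]
    have e1 : ∀ A ∈ C, (t (g (up (R.b A))) * R.wt (g (up (R.b A)))) • (g (up (R.b A))).1 =
        t (g (up (R.b A))) • T ((R.b A, 1) : Mk n) := by
      intro A hA
      obtain ⟨h1, h2, h3, h4⟩ := R.up_b A (hCf A hA)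
      rw [R.wt_of _ h1 g hg, hT, h4]
      simp only [Prod.smul_mk, smul_eq_mul, mul_one]
      have e2 : T ((up (R.b A)).1.2 • R.b A, (up (R.b A)).1.2) =
          (up (R.b A)).1.2 • T ((R.b A, 1) : Mk n) := by
        rw [← map_smul]
        congr 1
        simp
      rw [e2, smul_smul, mul_assoc, inv_mul_cancel₀ h3.ne', mul_one]
    rw [Finset.sum_congr rfl e1]
    rw [show ((k, 1) : Mk n) = ∑ A ∈ C, t (g (up (R.b A))) • ((R.b A, 1) : Mk n) from ?_,
      map_sum]
    · exact Finset.sum_congr rfl fun A _ => (map_smul T _ _).symm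
    · refine Prod.ext ?_ ?_
      · rw [Prod.fst_sum, hk]
        rfl
      · rw [Prod.snd_sum]
        simp only [Prod.smul_mk, smul_eq_mul, mul_one]
        exact ht1'.symm
  rw [hlin] at hy
  have hup : (up k).1 = (√(1 - ∑ j, k j ^ 2))⁻¹ • ((k, 1) : Mk n) := by
    unfold up
    rw [dif_pos hball]
  have hs : 0 < (√(1 - ∑ j, k j ^ 2))⁻¹ := by
    have : 0 < 1 - ∑ j, k j ^ 2 := by linarith
    positivity
  have hg1 : (g (up k)).1 = (√(1 - ∑ j, k j ^ 2))⁻¹ • T ((k, 1) : Mk n) := by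
    rw [hT, hup, map_smul]
  have hyg : y = g (up k) := by
    have l1 := y.2.1
    have l2 := (g (up k)).2.1
    rw [hy, lor_smul_left, lor_smul_right] at l1
    rw [hg1, lor_smul_left, lor_smul_right] at l2
    have l3 : r = (√(1 - ∑ j, k j ^ 2))⁻¹ := by
      have hw : lor (T ((k, 1) : Mk n)) (T (k, 1)) ≠ 0 := by
        intro h0
        rw [h0] at l1
        norm_num at l1
      have l4 : r ^ 2 = ((√(1 - ∑ j, k j ^ 2))⁻¹) ^ 2 := by
        apply mul_right_cancel₀ hw
        linear_combination l1 - l2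
      exact (pow_left_inj₀ hr.le hs.le two_ne_zero).1 l4
    apply Subtype.ext
    rw [hy, hg1, l3]
  have hAt : ∀ x k', x = g (up k') → up k' ∈ R.P → kl (up k') = k' →
      R.At σ s₀ x k' (π⁻¹ s₀) := by
    intro x k' h1 h2 h3
    refine ⟨g, π, hπ, up k', h2, h1, h3.symm, ?_⟩
    exact π.apply_symm_apply s₀
  rw [hΦ y k (π⁻¹ s₀) (hAt y k hyg (up_mem_P R k hkP) (kl_up k hball)), hsum]
  have e3 : ∀ A ∈ C, t (g (up (R.b A))) •
      (Φ (Quotient.mk _ (g (up (R.b A)))) : Set I × Set S → ℝ) =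
      t (g (up (R.b A))) • R.inc σ (R.b A) (π⁻¹ s₀) := by
    intro A hA
    obtain ⟨h1, h2, h3, h4⟩ := R.up_b A (hCf A hA)
    rw [hΦ _ _ _ (hAt _ _ rfl h1 h2)]
  rw [Finset.sum_congr rfl e3]
  funext v
  rw [Finset.sum_apply]
  simp only [Pi.smul_apply, smul_eq_mul, CX.inc]
  rw [R.t_eq k u hbary]
  by_cases hv : v.2 = orb σ v.1 (π⁻¹ s₀)
  · simp only [if_pos hv]
    have e4 : ∀ A ∈ C, t (g (up (R.b A))) * R.t (R.b A) v.1 =
        if v.1 = A then t (g (up (R.b A))) else 0 := by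
      intro A hA
      rw [R.t_b A (hCf A hA)]
      dsimp only
      split_ifs <;> simp
    rw [Finset.sum_congr rfl e4, Finset.sum_ite_eq, hu]
  · simp only [if_neg hv, mul_zero, Finset.sum_const_zero]

end Pool.Agent.MP_455d73_gt.CS
end

section

/-!
TASK M5 (easy): assembly: the model of the orbit space of the stabiliser.

`Φ` from `CX.exists_homeo`, `𝒦 = R.K`, `w = R.wt`. The clauses: `CX.wt_pos`, `CX.K_indep`, `CX.K_sub`, `CX.K_exists` and `CX.K_unique`, `CX.wt_inv`
and `CX.K_inv` for the elements of `R.stab σ s₀ ≤ R.G` (`CX.fst_mem`), `CX.K_fin`, `CX.affine_on`.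
-/

set_option autoImplicit false

open Finset
open scoped Classical

namespace Pool.Agent.MP_455d73_gt.CS

variable {n : ℕ} {I S : Type}

theorem CX.isModel [Fintype I] [Fintype S] (R : CX n I) (σ : I → Equiv.Perm S) (hσ : R.Compat σ)
    (s₀ : S) (hT : Trans σ s₀) : IsModel (R.stab σ s₀) (R.X σ) := by
  obtain ⟨Φ, hΦ⟩ := R.exists_homeo σ hσ s₀ hT
  have hG : ∀ g ∈ R.stab σ s₀, g ∈ R.G := by
    rintro g ⟨π, h, -⟩
    exact R.fst_mem σ g π h
  refine ⟨Φ, R.K, R.wt, R.wt_pos, ⟨R.K_indep, R.K_sub, fun y => ?_⟩, ⟨fun g hg x => R.wt_inv x g (hG g hg),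
    fun g hg τ hτ => R.K_inv τ hτ g (hG g hg), R.K_fin σ s₀⟩, R.affine_on σ hσ s₀ Φ hΦ⟩
  obtain ⟨τ, hτ, t, ht, hy⟩ := R.K_exists y
  refine ⟨τ, ⟨hτ, t, ht, hy⟩, ?_⟩
  rintro τ' ⟨hτ', t', ht', hy'⟩
  exact R.K_unique y τ' τ hτ' hτ t' t ht' ht hy' hy

end Pool.Agent.MP_455d73_gt.CS
end
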