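import Pool.Agent.Lib.MP_455d73_gt.Mg.G023
import Pool.Agent.Lib.MP_455d73_gt.Mg.G021

section

/-!
TASK G2 (medium): the functionals of the walls, compactness of the polytope, an interior point.

`al_ge`: for the point `(k, 1)`: `(ge i).2 - ∑ j, k j * (ge i).1 j = Lc i * Lf i (√φ • k)`; e.g. `i = 4`: `1/(2√φ) - (k_0 + φ k_1 + k_2)/2 = (1/(2√φ)) (1 - √φ k_0 - φ √φ k_1 - √φ k_2)`;
`i = 2`: `√φ/√2 - (k_2 + φ k_3)/√2 = (1/(√2 √φ)) (φ - √φ k_2 - φ √φ k_3)`; `i = 5`: `φ √φ - φ (k_0 + k_3) = √φ (φ - √φ k_0 - √φ k_3)`.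
`Lf_bound`: put `a, b, c, d = q 0, q 1, q 2, q 3 ≥ 0`, `u = 1 - a`. From `Lf 4 ≥ 0`: `φ b + c ≤ u`, so `b² + c² ≤ b (u - c)/φ + c (u - φ b) ≤ u (c + b/φ)`, and
`c + b/φ ≤ c + (u - c)/φ² = u/φ² + c/φ ≤ u/φ² + (1 - d)` (as `c ≤ φ (1 - d)` by `Lf 2 ≥ 0`, `1 - 1/φ² = 1/φ`). With `A = 1 - a`, `D = 1 - d` in `[0, 1]` and `A + D ≥ 2 - φ` (`Lf 5 ≥ 0`):
`a² + b² + c² + d² ≤ (1 - A)² + (1 - D)² + A²/φ² + A D =: h`; `h` is convex, and `h ≤ 1.44` at the corners `(A, D) = (1, 1), (0, 1), (1, 0), (0, 2 - φ), (2 - φ, 0)` of the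
region, so `h ≤ 1.6 < φ` (use `nlinarith` with products of the constraints, or convexity; `1.618 < φ < 1.6181`).
`ge_cpt`: for `x` in the set let `k = x.1.1 / x.1.2` (time `x.1.2 > 0`); `lor x.1 (ge i) ≤ 0` says `0 ≤ (ge i).2 - ∑ k_j (ge i)_j`, so `Lf i (√φ • k) ≥ 0`, so `φ |k|² ≤ 1.6`, and
`x.1.2² (1 - |k|²) = 1` bounds `x.1.2`; all coordinates are bounded, the set is closed (`continuous_lor`). The map `Subtype.val : Hyp 4 → Mk 4` is a closed
embedding (the image `{lor x x = -1, 0 < x.2}` is closed since `x.2 ≥ 1` there), so compactness follows from compactness of the image in the proper space `Mk 4`. The folder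
`../PQ/` (files E*, Q*) has proofs of this kind for right-angled polytopes which you may copy.
`gctr`: the point `κ = (3/10, 1/5, 1/5, 3/5)`, `k = κ/√φ`, `gctr = up k` (`up_mem`: `|k|² = (9/100 + 4/100 + 4/100 + 36/100)/φ < 1`); `Lf i κ > 0` for all `i`:
`1 - 0.3 - 0.2 φ - 0.2 > 0`, `φ - 0.2 - 0.6 φ > 0`, `φ - 0.9 > 0`; and `lor gctr (ge i) = - (time) * ((ge i).2 - ∑ …) < 0`.
-/

set_option autoImplicit false

open Finset
open scoped goldenRatio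

namespace Pool.Agent.MP_455d73_gt.CS

private theorem G2_phi_lo : (1.618 : ℝ) < φ := by
  have h5 : (2.236 : ℝ) < √5 := by
    rw [Real.lt_sqrt (by norm_num)]
    norm_num
  rw [Real.goldenRatio]
  linarith

private theorem G2_phi_hi : φ < (1.6181 : ℝ) := by
  have h5 : √5 < (2.2362 : ℝ) := by
    rw [Real.sqrt_lt' (by norm_num)]
    norm_num
  rw [Real.goldenRatio]
  linarith

theorem Lc_pos (i : Fin 7) : 0 < Lc i := by
  have h1 : 0 < √φ := Real.sqrt_pos.2 Real.goldenRatio_pos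
  have h2 : 0 < √(2 : ℝ) := Real.sqrt_pos.2 (by norm_num)
  have a1 : 0 < 1 / √φ := by positivity
  have a2 : 0 < 1 / (√2 * √φ) := by positivity
  have a3 : 0 < 1 / (2 * √φ) := by positivity
  fin_cases i
  · exact a1
  · exact a1
  · exact a2
  · exact a1
  · exact a3
  · exact h1
  · exact a1

private theorem G2_b2 (p s t x y : ℝ) (hs : s * s = p) (hs0 : 0 < s) (ht0 : 0 < t) :
    s / t - (x * (1 / t) + y * (p / t)) = 1 / (t * s) * (p - s * x - p * (s * y)) := by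
  subst hs
  field_simp
  ring

private theorem G2_b3 (p s x y z : ℝ) (hs0 : 0 < s) :
    1 / (2 * s) - (x * (1 / 2) + y * (p / 2) + z * (1 / 2)) = 1 / (2 * s) * (1 - s * x - p * (s * y) - s * z) := by
  field_simp
  ring

theorem al_ge (i : Fin 7) (k : Fin 4 → ℝ) : (ge i).2 - ∑ j, k j * (ge i).1 j = Lc i * Lf i (√φ • k) := by
  have hφ : 0 < φ := Real.goldenRatio_pos
  have hs : √φ * √φ = φ := Real.mul_self_sqrt hφ.le
  have hs0 : 0 < √φ := Real.sqrt_pos.2 hφ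
  have ht0 : 0 < √(2 : ℝ) := Real.sqrt_pos.2 (by norm_num)
  have b1 (x : ℝ) : 0 - x * -1 = 1 / √φ * (√φ * x) := by
    field_simp
    ring
  have b2 := G2_b2 φ (√φ) (√2) (k 2) (k 3) hs hs0 ht0
  have b3 := G2_b3 φ (√φ) (k 0) (k 1) (k 2) hs0
  have b4 : φ * √φ - (k 0 * φ + k 3 * φ) = √φ * (φ - √φ * k 0 - √φ * k 3) := by
    linear_combination (k 0 + k 3) * hs
  fin_cases i <;> simp only [ge, Lc, Lf, Fin.sum_univ_four, Fin.isValue, Fin.zero_eta, Fin.mk_one,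
    Fin.reduceFinMk, Matrix.cons_val, Matrix.cons_val_zero, Matrix.cons_val_one, Pi.smul_apply, smul_eq_mul]
  · rw [← b1 (k 0)]; ring
  · rw [← b1 (k 1)]; ring
  · rw [← b2]; ring
  · rw [← b1 (k 2)]; ring
  · rw [← b3]; ring
  · rw [← b4]; ring
  · rw [← b1 (k 3)]; ring

private theorem G2_h (A D : ℝ) (hA : 0 ≤ A) (hA1 : A ≤ 1) (hD : 0 ≤ D) (hD1 : D ≤ 1) (h : 0.3819 ≤ A + D) :
    (1 - A) ^ 2 + (1 - D) ^ 2 + 0.382 * A ^ 2 + A * D ≤ 1.6 := by
  nlinarith [mul_nonneg hA (sub_nonneg.2 hA1), mul_nonneg hD (sub_nonneg.2 hD1), mul_nonneg hA hD,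
    mul_nonneg (sub_nonneg.2 hA1) (sub_nonneg.2 hD1), mul_nonneg hA (sub_nonneg.2 h), mul_nonneg hD (sub_nonneg.2 h),
    mul_nonneg (sub_nonneg.2 hA1) (sub_nonneg.2 h), mul_nonneg (sub_nonneg.2 hD1) (sub_nonneg.2 h)]

private theorem G2_bd (p a b c d : ℝ) (hp : p ^ 2 = p + 1) (hp1 : 1.618 < p) (hp2 : p < 1.6181)
    (ha : 0 ≤ a) (hb : 0 ≤ b) (hc : 0 ≤ c) (hd : 0 ≤ d) (h2 : 0 ≤ p - c - p * d)
    (h4 : 0 ≤ 1 - a - p * b - c) (h5 : 0 ≤ p - a - d) : a ^ 2 + b ^ 2 + c ^ 2 + d ^ 2 ≤ 1.6 := by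
  have hp0 : 0 < p := by linarith
  have hpb : 0 ≤ p * b := by positivity
  have hu : 0 ≤ 1 - a := by linarith
  have hb' : b ≤ (p - 1) * (1 - a - c) := by
    have e : (p - 1) * (1 - a - c) - b = (p - 1) * (1 - a - p * b - c) + (p ^ 2 - p - 1) * b := by ring
    have : 0 ≤ (p - 1) * (1 - a - p * b - c) := mul_nonneg (by linarith) h4
    have e2 : (p ^ 2 - p - 1) * b = 0 := by rw [hp]; ring
    linarith
  have hc' : (p - 1) * c ≤ 1 - d := by
    have e : 1 - d - (p - 1) * c = (p - 1) * (p - c - p * d) - (p ^ 2 - p - 1) * (1 - d) := by ring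
    have : 0 ≤ (p - 1) * (p - c - p * d) := mul_nonneg (by linarith) h2
    have e2 : (p ^ 2 - p - 1) * (1 - d) = 0 := by rw [hp]; ring
    linarith
  have hd1 : 0 ≤ 1 - d := by
    have : 0 ≤ (p - 1) * c := mul_nonneg (by linarith) hc
    linarith
  have hc2 : c ≤ 1 - a - p * b := by linarith
  have k1 : b ^ 2 ≤ b * ((p - 1) * (1 - a - c)) := by
    rw [sq]
    exact mul_le_mul_of_nonneg_left hb' hb
  have k2 : c ^ 2 ≤ c * (1 - a - p * b) := by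
    rw [sq]
    exact mul_le_mul_of_nonneg_left hc2 hc
  have k3 : b ^ 2 + c ^ 2 ≤ (1 - a) * (c + (p - 1) * b) := by
    have : 0 ≤ b * c := mul_nonneg hb hc
    nlinarith
  have k4 : c + (p - 1) * b ≤ (2 - p) * (1 - a) + (1 - d) := by
    have m1 : (p - 1) * b ≤ (p - 1) * ((p - 1) * (1 - a - c)) := mul_le_mul_of_nonneg_left hb' (by linarith)
    have m2 : (p - 1) * ((p - 1) * (1 - a - c)) = (2 - p) * (1 - a - c) + (p ^ 2 - p - 1) * (1 - a - c) := by ring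
    have m3 : (p ^ 2 - p - 1) * (1 - a - c) = 0 := by rw [hp]; ring
    linarith
  have k5 : (1 - a) * (c + (p - 1) * b) ≤ (1 - a) * ((2 - p) * (1 - a) + (1 - d)) :=
    mul_le_mul_of_nonneg_left k4 hu
  have k6 : (2 - p) * (1 - a) ^ 2 ≤ 0.382 * (1 - a) ^ 2 :=
    mul_le_mul_of_nonneg_right (by linarith) (sq_nonneg _)
  have k7 := G2_h (1 - a) (1 - d) hu (by linarith) hd1 (by linarith) (by linarith)
  nlinarith

theorem Lf_bound (q : Fin 4 → ℝ) (hq : ∀ i, 0 ≤ Lf i q) : ∑ j, q j ^ 2 ≤ 1.6 := by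
  rw [Fin.sum_univ_four]
  exact G2_bd φ (q 0) (q 1) (q 2) (q 3) Real.goldenRatio_sq G2_phi_lo G2_phi_hi (hq 0) (hq 1) (hq 3) (hq 6) (hq 2) (hq 4) (hq 5)

private theorem G2_eq (z : Hyp 4) : ∑ i, z.1.1 i ^ 2 = z.1.2 ^ 2 - 1 := by
  have h := z.2.1
  unfold lor at h
  have e : ∑ i, z.1.1 i ^ 2 = ∑ i, z.1.1 i * z.1.1 i := Finset.sum_congr rfl (fun i _ => sq _)
  rw [e]
  linarith [sq z.1.2]

private theorem G2_one_le (z : Hyp 4) : 1 ≤ z.1.2 := by
  have h := G2_eq z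
  have h0 : 0 ≤ ∑ i, z.1.1 i ^ 2 := Finset.sum_nonneg (fun i _ => sq_nonneg _)
  have h2 := z.2.2
  nlinarith

private theorem G2_time (z : Hyp 4) (hz : ∀ i, lor z.1 (ge i) ≤ 0) : z.1.2 ≤ 10 := by
  have ht := z.2.2
  have hφ : 0 < φ := Real.goldenRatio_pos
  have hb := Lf_bound (√φ • fun j => z.1.1 j / z.1.2) (by
    intro i
    have h1 := al_ge i (fun j => z.1.1 j / z.1.2)
    have h2 := Lc_pos i
    have h3 : (ge i).2 - ∑ j, z.1.1 j / z.1.2 * (ge i).1 j = - lor z.1 (ge i) / z.1.2 := by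
      have e : ∑ j, z.1.1 j / z.1.2 * (ge i).1 j = (∑ j, z.1.1 j * (ge i).1 j) / z.1.2 := by
        rw [Finset.sum_div]
        refine Finset.sum_congr rfl (fun j _ => ?_)
        ring
      rw [e, eq_div_iff ht.ne', sub_mul, div_mul_cancel₀ _ ht.ne']
      unfold lor
      ring
    have h4 : 0 ≤ Lc i * Lf i (√φ • fun j => z.1.1 j / z.1.2) := by
      rw [← h1, h3]
      exact div_nonneg (neg_nonneg.2 (hz i)) ht.le
    exact nonneg_of_mul_nonneg_right h4 h2)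
  have e1 : ∑ j, (√φ • fun j => z.1.1 j / z.1.2) j ^ 2 = φ * ((∑ j, z.1.1 j ^ 2) / z.1.2 ^ 2) := by
    rw [Finset.sum_div, Finset.mul_sum]
    refine Finset.sum_congr rfl (fun j _ => ?_)
    simp only [Pi.smul_apply, smul_eq_mul]
    rw [mul_pow, Real.sq_sqrt hφ.le, div_pow]
  rw [e1, G2_eq z] at hb
  have hlo := G2_phi_lo
  have h5 : φ * (z.1.2 ^ 2 - 1) ≤ 1.6 * z.1.2 ^ 2 := by
    rw [← mul_div_assoc, div_le_iff₀ (by positivity)] at hb
    exact hb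
  have h6 : 1.618 * (z.1.2 ^ 2 - 1) ≤ φ * (z.1.2 ^ 2 - 1) :=
    mul_le_mul_of_nonneg_right hlo.le (by nlinarith [G2_one_le z])
  nlinarith

theorem ge_cpt : IsCompact {x : Hyp 4 | ∀ i, lor x.1 (ge i) ≤ 0} := by
  rw [Subtype.isCompact_iff]
  have hset : (Subtype.val '' {x : Hyp 4 | ∀ i, lor x.1 (ge i) ≤ 0} : Set (Mk 4)) =
      {x : Mk 4 | lor x x = -1} ∩ ({x : Mk 4 | 1 ≤ x.2} ∩ {x : Mk 4 | ∀ i, lor x (ge i) ≤ 0}) := by
    ext x
    constructor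
    · rintro ⟨z, hz, rfl⟩
      exact ⟨z.2.1, G2_one_le z, hz⟩
    · rintro ⟨h1, h2, h3⟩
      exact ⟨⟨x, h1, lt_of_lt_of_le one_pos h2⟩, h3, rfl⟩
  have hbd : ∀ x ∈ {x : Mk 4 | lor x x = -1} ∩ ({x : Mk 4 | 1 ≤ x.2} ∩ {x : Mk 4 | ∀ i, lor x (ge i) ≤ 0}),
      ‖x‖ ≤ 10 := by
    rintro x ⟨h1, h2, h3⟩
    have h2' : 1 ≤ x.2 := h2
    have h5 : x.2 ≤ 10 := G2_time ⟨x, h1, lt_of_lt_of_le one_pos h2⟩ h3
    have h6 := G2_eq (⟨x, h1, lt_of_lt_of_le one_pos h2⟩ : Hyp 4)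
    have h7 : ∀ i, ‖x.1 i‖ ≤ x.2 := by
      intro i
      have h8 : x.1 i ^ 2 ≤ ∑ i, x.1 i ^ 2 :=
        Finset.single_le_sum (f := fun i => x.1 i ^ 2) (fun k _ => sq_nonneg _) (Finset.mem_univ i)
      have h9 : x.1 i ^ 2 ≤ x.2 ^ 2 := by
        have h10 : ∑ i, x.1 i ^ 2 = x.2 ^ 2 - 1 := h6
        linarith
      exact abs_le_of_sq_le_sq h9 (by linarith)
    rw [Prod.norm_def]
    refine max_le ?_ ?_
    · refine ((pi_norm_le_iff_of_nonneg (by linarith)).2 h7).trans h5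
    · rw [Real.norm_of_nonneg (by linarith)]
      exact h5
  rw [hset]
  refine Metric.isCompact_of_isClosed_isBounded ?_ ?_
  · refine IsClosed.inter ?_ (IsClosed.inter ?_ ?_)
    · exact isClosed_eq (continuous_lor.comp (continuous_id.prodMk continuous_id)) continuous_const
    · exact isClosed_le continuous_const continuous_snd
    · rw [Set.ofPred_forall]
      refine isClosed_iInter (fun i => ?_)
      exact isClosed_le (continuous_lor.comp (continuous_id.prodMk continuous_const)) continuous_const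
  · refine (Metric.isBounded_closedBall (x := (0 : Mk 4)) (r := 10)).subset ?_
    intro x hx
    rw [mem_closedBall_zero_iff]
    exact hbd x hx

private theorem G2_up (k : Fin 4 → ℝ) (h : ∑ j, k j ^ 2 < 1) (hk : ∀ i, 0 < (ge i).2 - ∑ j, k j * (ge i).1 j) :
    ∃ c : Hyp 4, ∀ i, lor c.1 (ge i) < 0 := by
  refine ⟨⟨(√(1 - ∑ j, k j ^ 2))⁻¹ • ((k, 1) : Mk 4), up_mem k h⟩, fun i => ?_⟩
  have h0 : 0 < (√(1 - ∑ j, k j ^ 2))⁻¹ := inv_pos.2 (Real.sqrt_pos.2 (by linarith))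
  have h1 : lor ((k, 1) : Mk 4) (ge i) = - ((ge i).2 - ∑ j, k j * (ge i).1 j) := by
    unfold lor
    ring
  show lor ((√(1 - ∑ j, k j ^ 2))⁻¹ • ((k, 1) : Mk 4)) (ge i) < 0
  rw [lor_smul_left, h1]
  have := hk i
  nlinarith

theorem exists_gctr : ∃ c : Hyp 4, ∀ i, lor c.1 (ge i) < 0 := by
  have hφ : 0 < φ := Real.goldenRatio_pos
  have hlo := G2_phi_lo
  have hhi := G2_phi_hi
  have hs0 : 0 < √φ := Real.sqrt_pos.2 hφ
  have hk : (√φ • ((√φ)⁻¹ • (![3 / 10, 1 / 5, 1 / 5, 3 / 5] : Fin 4 → ℝ))) = ![3 / 10, 1 / 5, 1 / 5, 3 / 5] := by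
    rw [smul_smul, mul_inv_cancel₀ hs0.ne', one_smul]
  refine G2_up ((√φ)⁻¹ • ![3 / 10, 1 / 5, 1 / 5, 3 / 5]) ?_ ?_
  · have e : ∑ j, ((√φ)⁻¹ • (![3 / 10, 1 / 5, 1 / 5, 3 / 5] : Fin 4 → ℝ)) j ^ 2 = φ⁻¹ * (53 / 100) := by
      rw [Fin.sum_univ_four]
      simp only [Pi.smul_apply, smul_eq_mul, mul_pow, inv_pow, Real.sq_sqrt hφ.le, Matrix.cons_val, Matrix.cons_val_zero,
        Matrix.cons_val_one]
      ring
    rw [e, inv_mul_lt_iff₀ hφ]
    linarith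
  · intro i
    rw [al_ge, hk]
    refine mul_pos (Lc_pos i) ?_
    fin_cases i <;> simp only [Lf, Fin.isValue, Fin.zero_eta, Fin.mk_one,
      Fin.reduceFinMk, Matrix.cons_val, Matrix.cons_val_zero, Matrix.cons_val_one]
    · norm_num
    · norm_num
    · linarith
    · norm_num
    · linarith
    · linarith
    · norm_num

end Pool.Agent.MP_455d73_gt.CS
end

section

/-!
Campaign CS: the Coxeter system in hyperbolic 4-space (definition).
-/

set_option autoImplicit false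

open Finset
open scoped goldenRatio

namespace Pool.Agent.MP_455d73_gt.CS

noncomputable section

/-- The Coxeter system with the normals `ge`. -/
def gR : CX 4 (Fin 7) where
  e := ge
  m := fun i j => mt i j
  unit := ge_unit
  gram := ge_gram
  ctr := exists_gctr.choose
  ctr_neg := exists_gctr.choose_spec
  cpt := ge_cpt

end

end Pool.Agent.MP_455d73_gt.CS
end
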