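import Pool.Agent.Lib.MP_455d73_gt.PQ.Chart

section

/-!
Campaign PQ: the outer unit normals of the walls of the right-angled 120-cell with a vertex at `(0; 1)` and the walls at this
vertex orthogonal to the coordinate axes. Row `i` of `tab`: `a₁, a₁', …, a₄, a₄', b, b'`; the normal is
`(a₁ + a₁' φ, …, a₄ + a₄' φ; √φ (b + b' φ))`. The first 2, 5, 12 rows are the walls of the segment, the pentagon, the dodecahedron.
-/

set_option autoImplicit false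

open scoped goldenRatio

namespace Pool.Agent.MP_455d73_gt.PQ

/-- The table of the coefficients. -/
def tab : List (List ℤ) := [
  [-1, 0, 0, 0, 0, 0, 0, 0, 0, 0],
  [0, 1, 0, 0, 0, 0, 0, 0, 1, 0],
  [0, 0, -1, 0, 0, 0, 0, 0, 0, 0],
  [0, 0, 0, 1, 0, 0, 0, 0, 1, 0],
  [0, 1, 0, 1, 0, 0, 0, 0, 0, 1],
  [0, 0, 0, 0, -1, 0, 0, 0, 0, 0],
  [0, 0, 0, 0, 0, 1, 0, 0, 1, 0],
  [0, 1, 0, 0, 0, 1, 0, 0, 0, 1],
  [0, 0, 0, 1, 0, 1, 0, 0, 0, 1],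
  [1, 1, 0, 1, 0, 1, 0, 0, 1, 1],
  [0, 1, 1, 1, 0, 1, 0, 0, 1, 1],
  [0, 1, 0, 1, 1, 1, 0, 0, 1, 1],
  [0, 0, 0, 0, 0, 0, -1, 0, 0, 0],
  [0, 0, 0, 0, 0, 0, 0, 1, 1, 0],
  [0, 0, 0, 1, 0, 0, 0, 1, 0, 1],
  [0, 1, 0, 0, 0, 0, 0, 1, 0, 1],
  [0, 1, 0, 1, 0, 0, 1, 1, 1, 1],
  [0, 1, 1, 1, 0, 0, 0, 1, 1, 1],
  [1, 1, 0, 1, 0, 0, 0, 1, 1, 1],
  [0, 0, 0, 0, 0, 1, 0, 1, 0, 1],
  [0, 0, 0, 1, 0, 1, 1, 1, 1, 1],
  [0, 0, 0, 1, 1, 1, 0, 1, 1, 1],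
  [0, 0, 1, 1, 0, 1, 0, 1, 1, 1],
  [0, 1, 0, 0, 0, 1, 1, 1, 1, 1],
  [0, 1, 0, 0, 1, 1, 0, 1, 1, 1],
  [1, 1, 0, 0, 0, 1, 0, 1, 1, 1],
  [0, 1, 0, 1, 1, 1, 1, 2, 1, 2],
  [0, 1, 0, 1, 1, 2, 1, 1, 1, 2],
  [0, 1, 1, 1, 0, 1, 1, 2, 1, 2],
  [0, 1, 1, 1, 1, 2, 0, 1, 1, 2],
  [0, 1, 1, 2, 0, 1, 1, 1, 1, 2],
  [0, 1, 1, 2, 1, 1, 0, 1, 1, 2],
  [1, 1, 0, 1, 0, 1, 1, 2, 1, 2],
  [1, 1, 0, 1, 1, 2, 0, 1, 1, 2],
  [1, 1, 1, 2, 0, 1, 0, 1, 1, 2],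
  [1, 2, 0, 1, 0, 1, 1, 1, 1, 2],
  [1, 2, 0, 1, 1, 1, 0, 1, 1, 2],
  [1, 2, 1, 1, 0, 1, 0, 1, 1, 2],
  [0, 1, 1, 1, 1, 2, 1, 2, 2, 2],
  [0, 1, 1, 2, 1, 1, 1, 2, 2, 2],
  [0, 1, 1, 2, 1, 2, 1, 1, 2, 2],
  [1, 1, 0, 1, 1, 2, 1, 2, 2, 2],
  [1, 1, 1, 2, 0, 1, 1, 2, 2, 2],
  [1, 1, 1, 2, 1, 2, 0, 1, 2, 2],
  [1, 2, 0, 1, 1, 1, 1, 2, 2, 2],
  [1, 2, 0, 1, 1, 2, 1, 1, 2, 2],
  [1, 2, 1, 1, 0, 1, 1, 2, 2, 2],
  [1, 2, 1, 1, 1, 2, 0, 1, 2, 2],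
  [1, 2, 1, 2, 0, 1, 1, 1, 2, 2],
  [1, 2, 1, 2, 1, 1, 0, 1, 2, 2],
  [0, 1, 1, 2, 1, 2, 1, 2, 1, 3],
  [1, 2, 0, 1, 1, 2, 1, 2, 1, 3],
  [1, 2, 1, 2, 0, 1, 1, 2, 1, 3],
  [1, 2, 1, 2, 1, 2, 0, 1, 1, 3],
  [1, 1, 1, 2, 1, 2, 1, 3, 2, 3],
  [1, 1, 1, 2, 1, 3, 1, 2, 2, 3],
  [1, 1, 1, 3, 1, 2, 1, 2, 2, 3],
  [1, 2, 1, 1, 1, 2, 1, 3, 2, 3],
  [1, 2, 1, 1, 1, 3, 1, 2, 2, 3],
  [1, 2, 1, 2, 1, 1, 1, 3, 2, 3],
  [1, 2, 1, 2, 1, 3, 1, 1, 2, 3],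
  [1, 2, 1, 3, 1, 1, 1, 2, 2, 3],
  [1, 2, 1, 3, 1, 2, 1, 1, 2, 3],
  [1, 3, 1, 1, 1, 2, 1, 2, 2, 3],
  [1, 3, 1, 2, 1, 1, 1, 2, 2, 3],
  [1, 3, 1, 2, 1, 2, 1, 1, 2, 3],
  [1, 2, 1, 2, 1, 2, 2, 3, 3, 3],
  [1, 2, 1, 2, 2, 3, 1, 2, 3, 3],
  [1, 2, 2, 3, 1, 2, 1, 2, 3, 3],
  [2, 3, 1, 2, 1, 2, 1, 2, 3, 3],
  [1, 2, 1, 2, 1, 3, 2, 3, 2, 4],
  [1, 2, 1, 2, 2, 3, 1, 3, 2, 4],
  [1, 2, 1, 3, 1, 2, 2, 3, 2, 4],
  [1, 2, 1, 3, 2, 3, 1, 2, 2, 4],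
  [1, 2, 2, 3, 1, 2, 1, 3, 2, 4],
  [1, 2, 2, 3, 1, 3, 1, 2, 2, 4],
  [1, 3, 1, 2, 1, 2, 2, 3, 2, 4],
  [1, 3, 1, 2, 2, 3, 1, 2, 2, 4],
  [1, 3, 2, 3, 1, 2, 1, 2, 2, 4],
  [2, 3, 1, 2, 1, 2, 1, 3, 2, 4],
  [2, 3, 1, 2, 1, 3, 1, 2, 2, 4],
  [2, 3, 1, 3, 1, 2, 1, 2, 2, 4],
  [1, 2, 1, 3, 2, 3, 2, 3, 3, 4],
  [1, 2, 2, 3, 1, 3, 2, 3, 3, 4],
  [1, 2, 2, 3, 2, 3, 1, 3, 3, 4],
  [1, 3, 1, 2, 2, 3, 2, 3, 3, 4],
  [1, 3, 2, 3, 1, 2, 2, 3, 3, 4],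
  [1, 3, 2, 3, 2, 3, 1, 2, 3, 4],
  [2, 3, 1, 2, 1, 3, 2, 3, 3, 4],
  [2, 3, 1, 2, 2, 3, 1, 3, 3, 4],
  [2, 3, 1, 3, 1, 2, 2, 3, 3, 4],
  [2, 3, 1, 3, 2, 3, 1, 2, 3, 4],
  [2, 3, 2, 3, 1, 2, 1, 3, 3, 4],
  [2, 3, 2, 3, 1, 3, 1, 2, 3, 4],
  [1, 3, 2, 3, 2, 3, 2, 4, 3, 5],
  [1, 3, 2, 3, 2, 4, 2, 3, 3, 5],
  [1, 3, 2, 4, 2, 3, 2, 3, 3, 5],
  [2, 3, 1, 3, 2, 3, 2, 4, 3, 5],
  [2, 3, 1, 3, 2, 4, 2, 3, 3, 5],
  [2, 3, 2, 3, 1, 3, 2, 4, 3, 5],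
  [2, 3, 2, 3, 2, 4, 1, 3, 3, 5],
  [2, 3, 2, 4, 1, 3, 2, 3, 3, 5],
  [2, 3, 2, 4, 2, 3, 1, 3, 3, 5],
  [2, 4, 1, 3, 2, 3, 2, 3, 3, 5],
  [2, 4, 2, 3, 1, 3, 2, 3, 3, 5],
  [2, 4, 2, 3, 2, 3, 1, 3, 3, 5],
  [2, 3, 2, 3, 2, 4, 2, 4, 4, 5],
  [2, 3, 2, 4, 2, 3, 2, 4, 4, 5],
  [2, 3, 2, 4, 2, 4, 2, 3, 4, 5],
  [2, 4, 2, 3, 2, 3, 2, 4, 4, 5],
  [2, 4, 2, 3, 2, 4, 2, 3, 4, 5],
  [2, 4, 2, 4, 2, 3, 2, 3, 4, 5],
  [2, 3, 2, 4, 2, 4, 2, 4, 3, 6],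
  [2, 4, 2, 3, 2, 4, 2, 4, 3, 6],
  [2, 4, 2, 4, 2, 3, 2, 4, 3, 6],
  [2, 4, 2, 4, 2, 4, 2, 3, 3, 6],
  [2, 4, 2, 4, 2, 4, 3, 4, 4, 6],
  [2, 4, 2, 4, 3, 4, 2, 4, 4, 6],
  [2, 4, 3, 4, 2, 4, 2, 4, 4, 6],
  [3, 4, 2, 4, 2, 4, 2, 4, 4, 6]
]

/-- Coordinate `j` of the wall `i`, as a pair of integers (`j = 4`: the time divided by `√φ`). -/
def co (i j : ℕ) : ℤ × ℤ := ((tab.getD i []).getD (2 * j) 0, (tab.getD i []).getD (2 * j + 1) 0)

/-- The real number `a + b φ`. -/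
noncomputable def vl (p : ℤ × ℤ) : ℝ := p.1 + p.2 * φ

/-- The product in the ring of the numbers `a + b φ`. -/
def ml (p q : ℤ × ℤ) : ℤ × ℤ := (p.1 * q.1 + p.2 * q.2, p.1 * q.2 + p.2 * q.1 + p.2 * q.2)

/-- The normal of the wall `i`, its first `n` space coordinates. -/
noncomputable def ev (n : ℕ) (i : ℕ) : Mk n := (fun j => vl (co i j), √φ * vl (co i 4))

/-- The Gram matrix. -/
def gr (i j : ℕ) : ℤ × ℤ :=
  ml (co i 0) (co j 0) + ml (co i 1) (co j 1) + ml (co i 2) (co j 2) + ml (co i 3) (co j 3)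
    - ml (0, 1) (ml (co i 4) (co j 4))

end Pool.Agent.MP_455d73_gt.PQ
end

section

/-!
TASK L0 (medium): elementary facts on convex polyhedra and piecewise affine maps.

`HPoly.inter`: union of the two finsets of functionals. `HPoly.univ`: empty finset. `HPoly.preimage`: compose the functionals with
the affine map (`AffineMap.comp`, `Finset.image`). `HPoly.isClosed`: affine maps on a finite-dimensional space are continuous
(`AffineMap.continuous_of_finiteDimensional`). `HPoly.le`: the functional `g - f`.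
`PA_mk`, `PAr_mk`: only the continuity is to be proved: `f` is continuous on each of the sets `X ∩ C j`, which are closed in `X`, finitely
many and cover `X`. For a point `x ∈ X` and a neighbourhood `U` of `f x`: for each `j` with `x ∈ C j` there is a neighbourhood on which
`A j` has values in `U`; for each `j` with `x ∉ C j` the complement of `C j` is a neighbourhood of `x`; intersect these finitely many
neighbourhoods. `PA.comp`: pieces `C j ∩ (A j)⁻¹' C' l`, affine maps `(A' l).comp (A j)`. `PA.mono`, `PA.congr`: clear. `PA.affine`: one piece.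
The index types `Fin m`: use `Fintype.equivFin`/`Finite.equivFin` to pass from a finite type of pieces (`PA_mk'` has an
arbitrary finite index type `J`).
-/

set_option autoImplicit false

open Finset
open scoped Classical

namespace Pool.Agent.MP_455d73_gt.PQ

variable {ι κ μ : Type} [Fintype ι] [Fintype κ] [Fintype μ]

theorem HPoly.univ : HPoly (Set.univ : Set (ι → ℝ)) := by
  refine ⟨∅, ?_⟩
  ext x
  simp

theorem HPoly.inter {C D : Set (ι → ℝ)} (hC : HPoly C) (hD : HPoly D) : HPoly (C ∩ D) := by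
  obtain ⟨L, rfl⟩ := hC
  obtain ⟨L', rfl⟩ := hD
  refine ⟨L ∪ L', ?_⟩
  ext x
  simp only [Set.mem_inter_iff, Set.mem_setOf_eq, Finset.mem_union]
  constructor
  · rintro ⟨h1, h2⟩ l (hl | hl)
    · exact h1 l hl
    · exact h2 l hl
  · intro h
    exact ⟨fun l hl => h l (Or.inl hl), fun l hl => h l (Or.inr hl)⟩

theorem HPoly.preimage {C : Set (κ → ℝ)} (hC : HPoly C) (A : (ι → ℝ) →ᵃ[ℝ] (κ → ℝ)) :
    HPoly (A ⁻¹' C) := by
  obtain ⟨L, rfl⟩ := hC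
  refine ⟨L.image (fun l => l.comp A), ?_⟩
  ext x
  simp only [Set.mem_preimage, Set.mem_setOf_eq, Finset.mem_image]
  constructor
  · rintro h l' ⟨l, hl, rfl⟩
    exact h l hl
  · intro h l hl
    exact h _ ⟨l, hl, rfl⟩

theorem HPoly.isClosed {C : Set (ι → ℝ)} (hC : HPoly C) : IsClosed C := by
  obtain ⟨L, rfl⟩ := hC
  have h : {x : ι → ℝ | ∀ l ∈ L, 0 ≤ l x} = ⋂ l ∈ L, {x | 0 ≤ l x} := by
    ext x
    simp
  rw [h]
  refine isClosed_biInter fun l _ => ?_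
  exact isClosed_le continuous_const l.continuous_of_finiteDimensional

theorem HPoly.le (f g : (ι → ℝ) →ᵃ[ℝ] ℝ) : HPoly {x | f x ≤ g x} := by
  refine ⟨{g - f}, ?_⟩
  ext x
  simp

theorem HPoly.iInter {J : Type} [Finite J] (C : J → Set (ι → ℝ)) (h : ∀ j, HPoly (C j)) :
    HPoly (⋂ j, C j) := by
  choose L hL using h
  have : Fintype J := Fintype.ofFinite J
  refine ⟨Finset.univ.biUnion L, ?_⟩
  ext x
  simp only [Set.mem_iInter, Set.mem_setOf_eq, Finset.mem_biUnion, Finset.mem_univ, true_and]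
  constructor
  · rintro h l ⟨j, hj⟩
    have h1 := h j
    rw [hL j] at h1
    exact h1 l hj
  · intro h j
    rw [hL j]
    exact fun l hl => h l ⟨j, hl⟩

private theorem L0_cont {J : Type} [Finite J] {β : Type} [TopologicalSpace β] {X : Set (ι → ℝ)}
    {f : (ι → ℝ) → β} (C : J → Set (ι → ℝ)) (A : J → (ι → ℝ) → β) (hA : ∀ j, Continuous (A j))
    (h1 : ∀ j, HPoly (C j)) (h2 : ∀ x ∈ X, ∃ j, x ∈ C j)
    (h3 : ∀ j, ∀ x ∈ X, x ∈ C j → f x = A j x) : ContinuousOn f X := by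
  rw [continuousOn_iff_continuous_restrict]
  refine (locallyFinite_of_finite (fun j => (Subtype.val ⁻¹' C j : Set X))).continuous ?_ ?_ ?_
  · ext x
    simp only [Set.mem_iUnion, Set.mem_preimage, Set.mem_univ, iff_true]
    exact h2 x.1 x.2
  · intro j
    exact (HPoly.isClosed (h1 j)).preimage continuous_subtype_val
  · intro j
    refine (((hA j).comp continuous_subtype_val).continuousOn).congr ?_
    intro x hx
    exact h3 j x.1 x.2 hx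

theorem PA_mk' {J : Type} [Finite J] {X : Set (ι → ℝ)} {f : (ι → ℝ) → (κ → ℝ)} (C : J → Set (ι → ℝ))
    (A : J → ((ι → ℝ) →ᵃ[ℝ] (κ → ℝ))) (h1 : ∀ j, HPoly (C j)) (h2 : ∀ x ∈ X, ∃ j, x ∈ C j)
    (h3 : ∀ j, ∀ x ∈ X, x ∈ C j → f x = A j x) : PA X f := by
  refine ⟨L0_cont C (fun j => A j) (fun j => (A j).continuous_of_finiteDimensional) h1 h2 h3,
    Nat.card J, fun i => C ((Finite.equivFin J).symm i), fun i => A ((Finite.equivFin J).symm i),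
    fun i => h1 _, ?_, fun i x hx hC => h3 _ x hx hC⟩
  intro x hx
  obtain ⟨j, hj⟩ := h2 x hx
  refine ⟨Finite.equivFin J j, ?_⟩
  change x ∈ C ((Finite.equivFin J).symm (Finite.equivFin J j))
  rw [Equiv.symm_apply_apply]
  exact hj

theorem PAr_mk' {J : Type} [Finite J] {X : Set (ι → ℝ)} {f : (ι → ℝ) → ℝ} (C : J → Set (ι → ℝ))
    (A : J → ((ι → ℝ) →ᵃ[ℝ] ℝ)) (h1 : ∀ j, HPoly (C j)) (h2 : ∀ x ∈ X, ∃ j, x ∈ C j)
    (h3 : ∀ j, ∀ x ∈ X, x ∈ C j → f x = A j x) : PAr X f := by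
  refine ⟨L0_cont C (fun j => A j) (fun j => (A j).continuous_of_finiteDimensional) h1 h2 h3,
    Nat.card J, fun i => C ((Finite.equivFin J).symm i), fun i => A ((Finite.equivFin J).symm i),
    fun i => h1 _, ?_, fun i x hx hC => h3 _ x hx hC⟩
  intro x hx
  obtain ⟨j, hj⟩ := h2 x hx
  refine ⟨Finite.equivFin J j, ?_⟩
  change x ∈ C ((Finite.equivFin J).symm (Finite.equivFin J j))
  rw [Equiv.symm_apply_apply]
  exact hj

theorem PA.mono {X Y : Set (ι → ℝ)} {f : (ι → ℝ) → (κ → ℝ)} (h : PA X f) (hY : Y ⊆ X) : PA Y f := by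
  obtain ⟨h0, m, C, A, h1, h2, h3⟩ := h
  exact ⟨h0.mono hY, m, C, A, h1, fun x hx => h2 x (hY hx), fun j x hx hC => h3 j x (hY hx) hC⟩

theorem PA.congr {X : Set (ι → ℝ)} {f g : (ι → ℝ) → (κ → ℝ)} (h : PA X f) (hfg : ∀ x ∈ X, f x = g x) :
    PA X g := by
  obtain ⟨h0, m, C, A, h1, h2, h3⟩ := h
  refine ⟨h0.congr fun x hx => (hfg x hx).symm, m, C, A, h1, h2, fun j x hx hC => ?_⟩
  rw [← hfg x hx]
  exact h3 j x hx hC

theorem PA.affine (X : Set (ι → ℝ)) (A : (ι → ℝ) →ᵃ[ℝ] (κ → ℝ)) : PA X A := by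
  exact PA_mk' (J := Unit) (fun _ => Set.univ) (fun _ => A) (fun _ => HPoly.univ)
    (fun x _ => ⟨(), Set.mem_univ x⟩) (fun _ _ _ _ => rfl)

theorem PA.comp {X : Set (ι → ℝ)} {Y : Set (κ → ℝ)} {f : (ι → ℝ) → (κ → ℝ)} {g : (κ → ℝ) → (μ → ℝ)}
    (hf : PA X f) (hg : PA Y g) (h : ∀ x ∈ X, f x ∈ Y) : PA X (fun x => g (f x)) := by
  obtain ⟨_, m, C, A, h1, h2, h3⟩ := hf
  obtain ⟨_, m', C', A', h1', h2', h3'⟩ := hg
  refine PA_mk' (J := Fin m × Fin m') (fun q => C q.1 ∩ (A q.1) ⁻¹' C' q.2)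
    (fun q => (A' q.2).comp (A q.1)) (fun q => HPoly.inter (h1 q.1) (HPoly.preimage (h1' q.2) _))
    ?_ ?_
  · intro x hx
    obtain ⟨j, hj⟩ := h2 x hx
    obtain ⟨l, hl⟩ := h2' (f x) (h x hx)
    refine ⟨(j, l), hj, ?_⟩
    rw [Set.mem_preimage, ← h3 j x hx hj]
    exact hl
  · rintro ⟨j, l⟩ x hx ⟨hj, hl⟩
    have e := h3 j x hx hj
    rw [Set.mem_preimage, ← e] at hl
    rw [h3' l (f x) (h x hx) hl, AffineMap.comp_apply, e]

end Pool.Agent.MP_455d73_gt.PQ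
end

section

/-!
TASK L1 (medium): calculus of piecewise affine real functions (`PAr`) and their relation to piecewise affine maps (`PA`).

Use `PAr_mk'` and `PA_mk'` of `L0` (so continuity need not be proved) with finite index types that are products of the given ones.
`PAr.affine`: one piece. `add`, `sub`, `smul`: pieces `C j ∩ C' l`. `max`: pieces `C j ∩ C' l ∩ {A j ≤ A' l}` with `A' l` and
`C j ∩ C' l ∩ {A' l ≤ A j}` with `A j` (`HPoly.le`). `min` similarly (or `min a b = -max (-a) (-b)`). `inf'`: induction on the finset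
(`Finset.Nonempty.cons_induction` and `Finset.inf'_cons`/`Finset.inf'_insert`). `PA_iff`: `→`: compose `A j` with the coordinate;
`←`: pieces indexed by functions `κ → Fin (m i)` (a `Pi` type, finite): intersection of the pieces of the coordinates, and the
affine map with these coordinates (`AffineMap.pi`). `PAr.comp`: as `PA.comp`. `PAr.congr`, `PAr.mono`: clear.
-/

set_option autoImplicit false

open Finset
open scoped Classical

namespace Pool.Agent.MP_455d73_gt.PQ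

variable {ι κ : Type} [Fintype ι] [Fintype κ] {X : Set (ι → ℝ)} {f g : (ι → ℝ) → ℝ}

theorem PAr.affine (X : Set (ι → ℝ)) (A : (ι → ℝ) →ᵃ[ℝ] ℝ) : PAr X A :=
  PAr_mk' (J := Unit) (fun _ => Set.univ) (fun _ => A) (fun _ => HPoly.univ)
    (fun _ _ => ⟨(), trivial⟩) (fun _ _ _ _ => rfl)

theorem PAr.const (X : Set (ι → ℝ)) (r : ℝ) : PAr X (fun _ => r) :=
  PAr.affine X (AffineMap.const ℝ (ι → ℝ) r)

theorem PAr.coord (X : Set (ι → ℝ)) (i : ι) : PAr X (fun x => x i) :=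
  PAr.affine X (LinearMap.proj (R := ℝ) (φ := fun _ : ι => ℝ) i).toAffineMap

theorem PAr.congr (hf : PAr X f) (h : ∀ x ∈ X, f x = g x) : PAr X g := by
  obtain ⟨hc, m, C, A, h1, h2, h3⟩ := hf
  refine ⟨hc.congr (fun x hx => (h x hx).symm), m, C, A, h1, h2, ?_⟩
  intro j x hx hxj
  rw [← h x hx]
  exact h3 j x hx hxj

theorem PAr.mono {Y : Set (ι → ℝ)} (hf : PAr X f) (h : Y ⊆ X) : PAr Y f := by
  obtain ⟨hc, m, C, A, h1, h2, h3⟩ := hf
  exact ⟨hc.mono h, m, C, A, h1, fun x hx => h2 x (h hx), fun j x hx => h3 j x (h hx)⟩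

private theorem L1_comb (r s : ℝ) (hf : PAr X f) (hg : PAr X g) :
    PAr X (fun x => r * f x + s * g x) := by
  obtain ⟨-, m, C, A, h1, h2, h3⟩ := hf
  obtain ⟨-, m', C', A', h1', h2', h3'⟩ := hg
  refine PAr_mk' (J := Fin m × Fin m') (fun p => C p.1 ∩ C' p.2) (fun p => r • A p.1 + s • A' p.2)
    (fun p => (h1 p.1).inter (h1' p.2)) ?_ ?_
  · intro x hx
    obtain ⟨j, hj⟩ := h2 x hx
    obtain ⟨l, hl⟩ := h2' x hx
    exact ⟨(j, l), hj, hl⟩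
  · intro p x hx hp
    have e1 := h3 p.1 x hx hp.1
    have e2 := h3' p.2 x hx hp.2
    show r * f x + s * g x = (r • A p.1 + s • A' p.2) x
    rw [e1, e2]
    rfl

theorem PAr.add (hf : PAr X f) (hg : PAr X g) : PAr X (fun x => f x + g x) :=
  (L1_comb 1 1 hf hg).congr (fun x _ => by ring)

theorem PAr.sub (hf : PAr X f) (hg : PAr X g) : PAr X (fun x => f x - g x) :=
  (L1_comb 1 (-1) hf hg).congr (fun x _ => by ring)

theorem PAr.smul (r : ℝ) (hf : PAr X f) : PAr X (fun x => r * f x) :=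
  (L1_comb r 0 hf hf).congr (fun x _ => by ring)

theorem PAr.max (hf : PAr X f) (hg : PAr X g) : PAr X (fun x => max (f x) (g x)) := by
  obtain ⟨-, m, C, A, h1, h2, h3⟩ := hf
  obtain ⟨-, m', C', A', h1', h2', h3'⟩ := hg
  refine PAr_mk' (J := (Fin m × Fin m') ⊕ (Fin m × Fin m'))
    (fun p => Sum.elim (fun q : Fin m × Fin m' => (C q.1 ∩ C' q.2) ∩ {x | A q.1 x ≤ A' q.2 x})
      (fun q : Fin m × Fin m' => (C q.1 ∩ C' q.2) ∩ {x | A' q.2 x ≤ A q.1 x}) p)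
    (fun p => Sum.elim (fun q : Fin m × Fin m' => A' q.2) (fun q : Fin m × Fin m' => A q.1) p)
    ?_ ?_ ?_
  · rintro (q | q)
    · exact ((h1 q.1).inter (h1' q.2)).inter (HPoly.le _ _)
    · exact ((h1 q.1).inter (h1' q.2)).inter (HPoly.le _ _)
  · intro x hx
    obtain ⟨j, hj⟩ := h2 x hx
    obtain ⟨l, hl⟩ := h2' x hx
    rcases le_total (A j x) (A' l x) with h | h
    · exact ⟨Sum.inl (j, l), ⟨hj, hl⟩, h⟩
    · exact ⟨Sum.inr (j, l), ⟨hj, hl⟩, h⟩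
  · rintro (q | q) x hx hp
    · have e1 := h3 q.1 x hx hp.1.1
      have e2 := h3' q.2 x hx hp.1.2
      have e3 : A q.1 x ≤ A' q.2 x := hp.2
      show Max.max (f x) (g x) = A' q.2 x
      rw [e1, e2]
      exact max_eq_right e3
    · have e1 := h3 q.1 x hx hp.1.1
      have e2 := h3' q.2 x hx hp.1.2
      have e3 : A' q.2 x ≤ A q.1 x := hp.2
      show Max.max (f x) (g x) = A q.1 x
      rw [e1, e2]
      exact max_eq_left e3

theorem PAr.min (hf : PAr X f) (hg : PAr X g) : PAr X (fun x => min (f x) (g x)) := by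
  refine PAr.congr (PAr.smul (-1) (PAr.max (PAr.smul (-1) hf) (PAr.smul (-1) hg))) ?_
  intro x _
  show -1 * Max.max (-1 * f x) (-1 * g x) = Min.min (f x) (g x)
  rcases le_total (f x) (g x) with h | h
  · rw [max_eq_left (by linarith), min_eq_left h]
    ring
  · rw [max_eq_right (by linarith), min_eq_right h]
    ring

theorem PAr.inf' {α : Type} (s : Finset α) (hs : s.Nonempty) (F : α → (ι → ℝ) → ℝ)
    (h : ∀ a ∈ s, PAr X (F a)) : PAr X (fun x => s.inf' hs (fun a => F a x)) := by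
  induction hs using Finset.Nonempty.cons_induction with
  | singleton a =>
    refine PAr.congr (h a (Finset.mem_singleton_self a)) ?_
    intro x _
    rw [Finset.inf'_singleton]
  | cons a s ha hs ih =>
    refine PAr.congr (PAr.min (h a (Finset.mem_cons_self a s))
      (ih (fun b hb => h b (Finset.mem_cons_of_mem hb)))) ?_
    intro x _
    rw [Finset.inf'_cons hs]

theorem PA_iff {f : (ι → ℝ) → (κ → ℝ)} : PA X f ↔ ∀ j, PAr X (fun x => f x j) := by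
  constructor
  · rintro ⟨hc, m, C, A, h1, h2, h3⟩ j
    refine PAr_mk' (J := Fin m) C
      (fun i => (LinearMap.proj (R := ℝ) (φ := fun _ : κ => ℝ) j).toAffineMap.comp (A i)) h1 h2 ?_
    intro i x hx hxi
    rw [h3 i x hx hxi]
    rfl
  · intro h
    have h' : ∀ j, ∃ (m : ℕ) (C : Fin m → Set (ι → ℝ)) (A : Fin m → ((ι → ℝ) →ᵃ[ℝ] ℝ)),
        (∀ i, HPoly (C i)) ∧ (∀ x ∈ X, ∃ i, x ∈ C i) ∧ ∀ i, ∀ x ∈ X, x ∈ C i → f x j = A i x :=
      fun j => (h j).2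
    choose m C A h1 h2 h3 using h'
    refine PA_mk' (J := ∀ j : κ, Fin (m j)) (fun p => ⋂ j, C j (p j))
      (fun p => AffineMap.pi (fun j => A j (p j))) ?_ ?_ ?_
    · intro p
      exact HPoly.iInter _ (fun j => h1 j (p j))
    · intro x hx
      choose p hp using fun j => h2 j x hx
      exact ⟨p, Set.mem_iInter.mpr hp⟩
    · intro p x hx hp
      funext j
      rw [Set.mem_iInter] at hp
      rw [h3 j (p j) x hx (hp j)]
      rfl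

theorem PAr.comp {Y : Set (κ → ℝ)} {f : (ι → ℝ) → (κ → ℝ)} {g : (κ → ℝ) → ℝ} (hg : PAr Y g)
    (hf : PA X f) (h : ∀ x ∈ X, f x ∈ Y) : PAr X (fun x => g (f x)) := by
  obtain ⟨-, m, C, A, h1, h2, h3⟩ := hf
  obtain ⟨-, m', C', A', h1', h2', h3'⟩ := hg
  refine PAr_mk' (J := Fin m × Fin m') (fun p => C p.1 ∩ (A p.1) ⁻¹' (C' p.2))
    (fun p => (A' p.2).comp (A p.1)) (fun p => (h1 p.1).inter ((h1' p.2).preimage _)) ?_ ?_
  · intro x hx
    obtain ⟨j, hj⟩ := h2 x hx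
    obtain ⟨l, hl⟩ := h2' (f x) (h x hx)
    refine ⟨(j, l), hj, ?_⟩
    show A j x ∈ C' l
    rw [← h3 j x hx hj]
    exact hl
  · intro p x hx hp
    have e1 := h3 p.1 x hx hp.1
    have e2 : f x ∈ C' p.2 := by
      rw [e1]
      exact hp.2
    have e3 := h3' p.2 (f x) (h x hx) e2
    show g (f x) = A' p.2 (A p.1 x)
    rw [e3, e1]

end Pool.Agent.MP_455d73_gt.PQ
end

section

/-!
TASK L5 (easy): the rescaling `rs` of an interval `[0, g]` to an interval `[0, h]`, piecewise affine in `y`, `g` and `h`.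

`rs a b g h y = max (a y) (h - b (g - y))`, `rsi a b g h z = min (z / a) (g - (h - z) / b)` with `0 < a`, `0 < b`, `a g ≤ h ≤ b g`,
`0 ≤ g`. Both functions in the maximum are strictly increasing bijections of `ℝ`, so `rs` is a strictly increasing bijection with
inverse `rsi` (the minimum of the inverses). `rs 0 = max 0 (h - b g) = 0`, `rs g = max (a g) h = h`.
-/

set_option autoImplicit false

open Finset
open scoped Classical

namespace Pool.Agent.MP_455d73_gt.PQ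

/-- Rescaling. -/
noncomputable def rs (a b g h y : ℝ) : ℝ := max (a * y) (h - b * (g - y))

/-- The inverse rescaling. -/
noncomputable def rsi (a b g h z : ℝ) : ℝ := min (z / a) (g - (h - z) / b)

theorem rs_zero (a b g h : ℝ) (hb : h ≤ b * g) : rs a b g h 0 = 0 := by
  unfold rs
  rw [mul_zero, sub_zero]
  exact max_eq_left (by linarith)

theorem rs_end (a b g h : ℝ) (ha : a * g ≤ h) : rs a b g h g = h := by
  unfold rs
  rw [sub_self, mul_zero, sub_zero]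
  exact max_eq_right ha

theorem rs_strictMono (a b g h : ℝ) (ha : 0 < a) (hb : 0 < b) : StrictMono (rs a b g h) := by
  intro y z hyz
  unfold rs
  refine max_lt_max ?_ ?_
  · exact mul_lt_mul_of_pos_left hyz ha
  · have := mul_lt_mul_of_pos_left hyz hb
    nlinarith

theorem rsi_rs (a b g h y : ℝ) (ha : 0 < a) (hb : 0 < b) : rsi a b g h (rs a b g h y) = y := by
  unfold rsi rs
  rcases le_total (h - b * (g - y)) (a * y) with h1 | h1
  · rw [max_eq_left h1, mul_div_cancel_left₀ y ha.ne']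
    refine min_eq_left ?_
    have h2 : (h - a * y) / b ≤ g - y := by
      rw [div_le_iff₀ hb]
      linarith
    linarith
  · rw [max_eq_right h1]
    have h2 : (h - (h - b * (g - y))) / b = g - y := by
      rw [show h - (h - b * (g - y)) = b * (g - y) by ring, mul_div_cancel_left₀ _ hb.ne']
    have h3 : y ≤ (h - b * (g - y)) / a := by
      rw [le_div_iff₀ ha]
      linarith
    rw [h2, min_eq_right (by linarith)]
    ring

theorem rs_rsi (a b g h z : ℝ) (ha : 0 < a) (hb : 0 < b) : rs a b g h (rsi a b g h z) = z := by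
  unfold rs rsi
  rcases le_total (z / a) (g - (h - z) / b) with h1 | h1
  · rw [min_eq_left h1, mul_div_cancel₀ z ha.ne']
    refine max_eq_left ?_
    have h2 : (h - z) / b ≤ g - z / a := by linarith
    rw [div_le_iff₀ hb] at h2
    linarith
  · rw [min_eq_right h1]
    have h2 : h - b * (g - (g - (h - z) / b)) = z := by
      rw [sub_sub_cancel, mul_div_cancel₀ _ hb.ne', sub_sub_cancel]
    rw [h2]
    refine max_eq_right ?_
    rw [le_div_iff₀ ha] at h1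
    linarith

theorem rs_mem (a b g h y : ℝ) (ha : 0 < a) (hb : 0 < b) (h1 : a * g ≤ h) (h2 : h ≤ b * g)
    (hy : 0 ≤ y) (hyg : y ≤ g) : 0 ≤ rs a b g h y ∧ rs a b g h y ≤ h := by
  unfold rs
  have h3 : 0 ≤ a * y := mul_nonneg ha.le hy
  have h4 : a * y ≤ a * g := mul_le_mul_of_nonneg_left hyg ha.le
  have h5 : 0 ≤ b * (g - y) := mul_nonneg hb.le (by linarith)
  exact ⟨h3.trans (le_max_left _ _), max_le (by linarith) (by linarith)⟩

theorem rsi_mem (a b g h z : ℝ) (ha : 0 < a) (hb : 0 < b) (h1 : a * g ≤ h) (h2 : h ≤ b * g)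
    (hz : 0 ≤ z) (hzh : z ≤ h) : 0 ≤ rsi a b g h z ∧ rsi a b g h z ≤ g := by
  unfold rsi
  have h3 : 0 ≤ z / a := div_nonneg hz ha.le
  have h4 : (h - z) / b ≤ g := by
    rw [div_le_iff₀ hb]
    linarith
  have h5 : 0 ≤ (h - z) / b := div_nonneg (by linarith) hb.le
  exact ⟨le_min h3 (by linarith), (min_le_right _ _).trans (by linarith)⟩

theorem PAr.rs {ι : Type} [Fintype ι] {X : Set (ι → ℝ)} (a b : ℝ) {g h y : (ι → ℝ) → ℝ}
    (hg : PAr X g) (hh : PAr X h) (hy : PAr X y) : PAr X (fun x => PQ.rs a b (g x) (h x) (y x)) := by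
  exact PAr.max (PAr.smul a hy) (PAr.sub hh (PAr.smul b (PAr.sub hg hy)))

theorem PAr.rsi {ι : Type} [Fintype ι] {X : Set (ι → ℝ)} (a b : ℝ) {g h y : (ι → ℝ) → ℝ}
    (hg : PAr X g) (hh : PAr X h) (hy : PAr X y) : PAr X (fun x => PQ.rsi a b (g x) (h x) (y x)) := by
  have h1 : PAr X (fun x => Min.min (a⁻¹ * y x) (g x - b⁻¹ * (h x - y x))) :=
    PAr.min (PAr.smul a⁻¹ hy) (PAr.sub hg (PAr.smul b⁻¹ (PAr.sub hh hy)))
  refine PAr.congr h1 fun x _ => ?_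
  unfold PQ.rsi
  rw [div_eq_inv_mul, div_eq_inv_mul]

end Pool.Agent.MP_455d73_gt.PQ
end
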