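import Pool.Agent.Lib.MP_455d73_gt.PQ.F1

section

/-!
TASK F2 (medium): the Gram matrices as real numbers.

`vl (a, b) = a + b φ`. `vl_add`, `vl_sub`: `push_cast; ring`. `vl_ml`: `φ ^ 2 = φ + 1` (`Real.goldenRatio_sq`). `vl_inj`: `φ` is irrational
(`Real.goldenRatio_irrational`). `vl_ge_one`: `φ > 1` (`Real.one_lt_goldenRatio`). `vl_off`: the eight values: `0`, or `≤ -1`.
`lor_ev`: for `n = 4`: `lor (ev 4 i) (ev 4 j) = ∑ over the four coordinates - √φ² vl(co i 4) vl(co j 4) = vl (gr i j)`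
(`Fin.sum_univ_four`, `Real.mul_self_sqrt`). `sz n` is the number of walls. `lor_ev_low`: for `i < sz n` the coordinates of `ev 4 i` beyond
`n` vanish (`low_chk`), so `lor (ev n i) (ev n j) = lor (ev 4 i) (ev 4 j)` for all `j` (case distinction on `n = 1, 2, 3, 4`;
`Fin.sum_univ_succ`).
-/

set_option autoImplicit false

open Finset
open scoped Classical goldenRatio

namespace Pool.Agent.MP_455d73_gt.PQ

/-- The number of walls in dimension `n`. -/
def sz (n : ℕ) : ℕ := if n = 1 then 2 else if n = 2 then 5 else if n = 3 then 12 else 120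

theorem vl_add (p q : ℤ × ℤ) : vl (p + q) = vl p + vl q := by
  unfold vl
  rw [Prod.fst_add, Prod.snd_add]
  push_cast
  ring

theorem vl_sub (p q : ℤ × ℤ) : vl (p - q) = vl p - vl q := by
  unfold vl
  rw [Prod.fst_sub, Prod.snd_sub]
  push_cast
  ring

theorem vl_ml (p q : ℤ × ℤ) : vl (ml p q) = vl p * vl q := by
  have h := Real.goldenRatio_sq
  unfold vl ml
  push_cast
  linear_combination (-(p.2 : ℝ) * q.2) * h

theorem vl_zero_iff (p : ℤ × ℤ) : vl p = 0 ↔ p = (0, 0) := by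
  constructor
  · intro h
    unfold vl at h
    have h2 : p.2 = 0 := by
      by_contra hne
      have hne' : (p.2 : ℝ) ≠ 0 := by exact_mod_cast hne
      apply Real.goldenRatio_irrational
      refine ⟨-(p.1 : ℚ) / p.2, ?_⟩
      push_cast
      rw [div_eq_iff hne']
      linarith
    rw [h2] at h
    have h1 : (p.1 : ℝ) = 0 := by simpa using h
    have h1' : p.1 = 0 := by exact_mod_cast h1
    exact Prod.ext h1' h2
  · intro h
    rw [h]
    simp [vl]

theorem vl_ge_one (p : ℤ × ℤ) (h1 : 0 ≤ p.1) (h2 : 0 ≤ p.2) (h : 1 ≤ p.1 + p.2) : 1 ≤ vl p := by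
  have hφ := Real.one_lt_goldenRatio
  unfold vl
  have h2' : (0 : ℝ) ≤ p.2 := by exact_mod_cast h2
  have h' : (1 : ℝ) ≤ p.1 + p.2 := by exact_mod_cast h
  nlinarith

theorem vl_off (p : ℤ × ℤ) (h : p ∈ offv) : vl p = 0 ∨ vl p ≤ -1 := by
  have hφ := Real.one_lt_goldenRatio
  simp only [offv, List.mem_cons, List.not_mem_nil, or_false] at h
  rcases h with rfl | rfl | rfl | rfl | rfl | rfl | rfl | rfl
  · left
    simp [vl]
  all_goals
    right
    unfold vl
    push_cast
    linarith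

theorem lor_ev (i j : ℕ) : lor (ev 4 i) (ev 4 j) = vl (gr i j) := by
  have hs : √φ * √φ = φ := Real.mul_self_sqrt Real.goldenRatio_pos.le
  have h01 : vl (0, 1) = φ := by simp [vl]
  unfold gr
  rw [vl_sub, vl_add, vl_add, vl_add, vl_ml, vl_ml, vl_ml, vl_ml, vl_ml, vl_ml, h01]
  unfold lor ev
  rw [Fin.sum_univ_four]
  change vl (co i 0) * vl (co j 0) + vl (co i 1) * vl (co j 1) + vl (co i 2) * vl (co j 2) +
    vl (co i 3) * vl (co j 3) - √φ * vl (co i 4) * (√φ * vl (co j 4)) = _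
  linear_combination (-(vl (co i 4) * vl (co j 4))) * hs

theorem lor_ev_low (n : ℕ) (h1 : 1 ≤ n) (h4 : n ≤ 4) (i : ℕ) (hi : i < sz n) (j : ℕ) :
    lor (ev n i) (ev n j) = lor (ev 4 i) (ev 4 j) := by
  have h0 : vl (0, 0) = 0 := by simp [vl]
  obtain ⟨l3, l2, l1⟩ := low_chk
  have h4' : lor (ev 4 i) (ev 4 j) = vl (co i 0) * vl (co j 0) + vl (co i 1) * vl (co j 1) +
      vl (co i 2) * vl (co j 2) + vl (co i 3) * vl (co j 3) -
      √φ * vl (co i 4) * (√φ * vl (co j 4)) := by
    unfold lor ev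
    rw [Fin.sum_univ_four]
    rfl
  rw [h4']
  unfold sz at hi
  interval_cases n
  · have hi' : i < 2 := hi
    rw [l3 i (by omega), l2 i (by omega), l1 i hi', h0]
    unfold lor ev
    rw [Fin.sum_univ_one]
    change vl (co i 0) * vl (co j 0) - √φ * vl (co i 4) * (√φ * vl (co j 4)) = _
    ring
  · have hi' : i < 5 := hi
    rw [l3 i (by omega), l2 i hi', h0]
    unfold lor ev
    rw [Fin.sum_univ_two]
    change vl (co i 0) * vl (co j 0) + vl (co i 1) * vl (co j 1) -
      √φ * vl (co i 4) * (√φ * vl (co j 4)) = _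
    ring
  · have hi' : i < 12 := hi
    rw [l3 i hi', h0]
    unfold lor ev
    rw [Fin.sum_univ_three]
    change vl (co i 0) * vl (co j 0) + vl (co i 1) * vl (co j 1) + vl (co i 2) * vl (co j 2) -
      √φ * vl (co i 4) * (√φ * vl (co j 4)) = _
    ring
  · exact h4'

private theorem F2_sz (n : ℕ) : sz n ≤ 120 := by
  unfold sz
  split_ifs <;> norm_num

theorem unit_ev (n : ℕ) (h1 : 1 ≤ n) (h4 : n ≤ 4) (i : ℕ) (hi : i < sz n) : lor (ev n i) (ev n i) = 1 := by
  have h := F2_sz n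
  rw [lor_ev_low n h1 h4 i hi, lor_ev, gr_diag i (by omega)]
  simp [vl]

theorem gram_ev (n : ℕ) (h1 : 1 ≤ n) (h4 : n ≤ 4) (i j : ℕ) (hi : i < sz n) (hj : j < sz n) (hij : i ≠ j) :
    lor (ev n i) (ev n j) = 0 ∨ lor (ev n i) (ev n j) ≤ -1 := by
  have h := F2_sz n
  rw [lor_ev_low n h1 h4 i hi, lor_ev]
  exact vl_off _ (gr_off i (by omega) j (by omega) hij)

end Pool.Agent.MP_455d73_gt.PQ
end

section

/-!
TASK F3 (easy): the centre, and the walls not belonging to dimension `n`.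

`cv n = ((1, …, 1), φ √φ)`: `lor (cv n) (cv n) = n - φ ^ 3 < 0` for `n ≤ 4` (`φ ^ 3 = 2 φ + 1 > 4`, as `φ > 3/2`: `φ^2 = φ + 1`, `√5 > 2`).
`lor (cv n) (ev n i) = ∑_{j<n} vl (co i j) - φ ^ 2 vl (co i 4)`, for `i < sz n` (where the other coordinates vanish, `low_chk`) equal to
`vl (co i 0 + co i 1 + co i 2 + co i 3 - ml (1,1) (co i 4)) = -1` (`ctr_chk`). `exists_ctr`: normalise `cv n`:
`(√(φ^3 - n))⁻¹ • cv n`.
`ev_high`: `n ≤ 3`, `sz n ≤ i < 120`: if `i ∈ {0, 2, 5, 12}` (so `i = 2, 5, 12` and the nonzero coordinate of row `i` is beyond `n`) then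
`ev n i = 0` (`coord_chk`). Otherwise some coordinate `j ≥ n`, `j < 4`, of row `i` is not zero (`supp_chk`: for `n = 3`, `i > 12`: coordinate `3`;
for `n = 2`: `5 < i < 12`: coordinate `2`, `i > 12`: coordinate `3`; for `n = 1`: `i = 3, 4`: coordinate `1`, `5 < i < 12`: coordinate `2`,
`i > 12`: coordinate `3`), so it is `≥ 1` (`pos_chk`, `vl_ge_one`); `lor (ev 4 i) (ev 4 i) = 1` gives
`lor (ev n i) (ev n i) = 1 - ∑_{j ≥ n} (vl (co i j))^2 ≤ 0`, and the time is positive: `lor_neg_of_causal` with `x` timelike gives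
`lor x (ev n i) < 0`.
-/

set_option autoImplicit false

open Finset
open scoped Classical goldenRatio

namespace Pool.Agent.MP_455d73_gt.PQ

/-- The centre (not normalised). -/
noncomputable def cv (n : ℕ) : Mk n := (fun _ => 1, φ * √φ)

private theorem F3_lor (n i : ℕ) : lor (cv n) (ev n i) = ∑ j : Fin n, vl (co i j) - (1 + φ) * vl (co i 4) := by
  have h : √φ * √φ = φ := Real.mul_self_sqrt (le_of_lt Real.goldenRatio_pos)
  have h2 : φ ^ 2 = φ + 1 := Real.goldenRatio_sq
  simp only [lor, cv, ev, one_mul]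
  have : φ * √φ * (√φ * vl (co i 4)) = (1 + φ) * vl (co i 4) := by
    calc φ * √φ * (√φ * vl (co i 4)) = φ * (√φ * √φ) * vl (co i 4) := by ring
      _ = φ ^ 2 * vl (co i 4) := by rw [h]; ring
      _ = _ := by rw [h2]; ring
  rw [this]

private theorem F3_zero : vl (0, 0) = 0 := by simp [vl]

private theorem F3_sum (i : ℕ) (hi : i < 120) :
    vl (co i 0) + vl (co i 1) + vl (co i 2) + vl (co i 3) - (1 + φ) * vl (co i 4) = -1 := by
  have h := congrArg vl (ctr_chk i hi)
  rw [vl_sub, vl_add, vl_add, vl_add, vl_ml] at h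
  have h1 : vl (1, 1) = 1 + φ := by simp [vl]
  have h2 : vl (-1, 0) = -1 := by simp [vl]
  rw [h1, h2] at h
  exact h

theorem lor_cv (n : ℕ) (h1 : 1 ≤ n) (h4 : n ≤ 4) (i : ℕ) (hi : i < sz n) : lor (cv n) (ev n i) = -1 := by
  have h120 : i < 120 := by
    have : sz n ≤ 120 := by unfold sz; split_ifs <;> norm_num
    omega
  have hs := F3_sum i h120
  rw [F3_lor]
  obtain rfl | rfl | rfl | rfl : n = 1 ∨ n = 2 ∨ n = 3 ∨ n = 4 := by omega
  · have hi2 : i < 2 := by simpa [sz] using hi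
    rw [low_chk.1 i (by omega), low_chk.2.1 i (by omega), low_chk.2.2 i (by omega), F3_zero] at hs
    simp only [Fin.sum_univ_succ, Fin.sum_univ_zero, Fin.val_zero, add_zero] at hs ⊢
    linarith
  · have hi2 : i < 5 := by simpa [sz] using hi
    rw [low_chk.1 i (by omega), low_chk.2.1 i (by omega), F3_zero] at hs
    simp only [Fin.sum_univ_two, Fin.val_zero, Fin.val_one, add_zero] at hs ⊢
    linarith
  · have hi2 : i < 12 := by simpa [sz] using hi
    rw [low_chk.1 i (by omega), F3_zero] at hs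
    simp only [Fin.sum_univ_three, Fin.val_zero, Fin.val_one, Fin.val_two, add_zero] at hs ⊢
    linarith
  · have e : ∑ j : Fin 4, vl (co i j) = vl (co i 0) + vl (co i 1) + vl (co i 2) + vl (co i 3) := by
      rw [Fin.sum_univ_four]
      rfl
    rw [e]
    exact hs

private theorem F3_self (n : ℕ) : lor (cv n) (cv n) = n - (2 * φ + 1) := by
  have h : √φ * √φ = φ := Real.mul_self_sqrt (le_of_lt Real.goldenRatio_pos)
  have h2 : φ ^ 2 = φ + 1 := Real.goldenRatio_sq
  simp only [lor, cv, mul_one, Finset.sum_const, Finset.card_univ, Fintype.card_fin, nsmul_eq_mul]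
  have : φ * √φ * (φ * √φ) = 2 * φ + 1 := by
    calc φ * √φ * (φ * √φ) = φ ^ 2 * (√φ * √φ) := by ring
      _ = (φ + 1) * φ := by rw [h, h2]
      _ = φ ^ 2 + φ := by ring
      _ = _ := by rw [h2]; ring
  rw [this]

private theorem F3_phi : 3 / 2 < φ := by
  have h2 : φ ^ 2 = φ + 1 := Real.goldenRatio_sq
  have h0 := Real.goldenRatio_pos
  nlinarith

theorem exists_ctr (n : ℕ) (h1 : 1 ≤ n) (h4 : n ≤ 4) : ∃ c : Hyp n, ∀ i < sz n, lor c.1 (ev n i) < 0 := by
  have hn : (n : ℝ) ≤ 4 := by exact_mod_cast h4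
  have hp := F3_phi
  have hpos : 0 < 2 * φ + 1 - n := by linarith
  have hs : 0 < √(2 * φ + 1 - n) := Real.sqrt_pos.mpr hpos
  have hc : lor ((√(2 * φ + 1 - n))⁻¹ • cv n) ((√(2 * φ + 1 - n))⁻¹ • cv n) = -1 := by
    rw [lor_smul_left, lor_smul_right, F3_self]
    have h := Real.mul_self_sqrt hpos.le
    have : (n : ℝ) - (2 * φ + 1) = -(√(2 * φ + 1 - n) * √(2 * φ + 1 - n)) := by rw [h]; ring
    rw [this]
    have hs' := hs.ne'
    generalize √(2 * φ + 1 - n) = s at hs'
    field_simp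
  refine ⟨⟨(√(2 * φ + 1 - n))⁻¹ • cv n, hc, ?_⟩, ?_⟩
  · simp only [cv, Prod.smul_snd, smul_eq_mul]
    have := Real.sqrt_pos.mpr Real.goldenRatio_pos
    have := Real.goldenRatio_pos
    positivity
  · intro i hi
    change lor ((√(2 * φ + 1 - n))⁻¹ • cv n) (ev n i) < 0
    rw [lor_smul_left, lor_cv n h1 h4 i hi]
    have : 0 < (√(2 * φ + 1 - n))⁻¹ := inv_pos.mpr hs
    linarith

private theorem F3_sq (n : ℕ) (i : ℕ) : lor (ev n i) (ev n i) = ∑ j : Fin n, vl (co i j) ^ 2 - φ * vl (co i 4) ^ 2 := by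
  have h : √φ * √φ = φ := Real.mul_self_sqrt (le_of_lt Real.goldenRatio_pos)
  simp only [lor, ev, ← sq]
  rw [mul_pow, sq (√φ), h]

private theorem F3_one (i : ℕ) (hi : i < 120) :
    vl (co i 0) ^ 2 + vl (co i 1) ^ 2 + vl (co i 2) ^ 2 + vl (co i 3) ^ 2 - φ * vl (co i 4) ^ 2 = 1 := by
  have h := unit_ev 4 (by norm_num) (le_refl 4) i (by simpa [sz] using hi)
  rw [F3_sq, Fin.sum_univ_four] at h
  exact h

private theorem F3_ge (i j : ℕ) (hi : i < 120) (h0 : i ≠ 0) (h2 : i ≠ 2) (h5 : i ≠ 5) (h12 : i ≠ 12) (hj : j < 4)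
    (hne : co i j ≠ (0, 0)) : 1 ≤ vl (co i j) ^ 2 := by
  rcases (pos_chk i hi h0 h2 h5 h12).1 j hj with h | h
  · exact absurd h hne
  · have := vl_ge_one _ h.1 h.2.1 h.2.2
    nlinarith

theorem ev_high (n : ℕ) (h1 : 1 ≤ n) (h3 : n ≤ 3) (i : ℕ) (hi : sz n ≤ i) (hi' : i < 120) :
    ev n i = 0 ∨ ∀ x : Hyp n, lor x.1 (ev n i) < 0 := by
  have hi0 : i ≠ 0 := by
    have : 2 ≤ sz n := by unfold sz; split_ifs <;> norm_num
    omega
  by_cases hc : i = 2 ∨ i = 5 ∨ i = 12
  · left
    have key : ∀ m : ℕ, n ≤ m → m < 4 → (∀ j < 5, co i j = if j = m then (-1, 0) else (0, 0)) → ev n i = 0 := by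
      intro m hm hm4 h
      refine Prod.ext ?_ ?_
      · funext j
        change vl (co i j) = 0
        rw [h j (by omega), if_neg (by omega)]
        exact F3_zero
      · change √φ * vl (co i 4) = 0
        rw [h 4 (by norm_num), if_neg (by omega), F3_zero, mul_zero]
    rcases hc with rfl | rfl | rfl
    · refine key 1 ?_ (by norm_num) coord_chk.2.1
      by_contra hcon
      have : n = 2 ∨ n = 3 := by omega
      rcases this with rfl | rfl <;> simp [sz] at hi
    · refine key 2 ?_ (by norm_num) coord_chk.2.2.1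
      by_contra hcon
      have : n = 3 := by omega
      subst this
      simp [sz] at hi
    · exact key 3 h3 (by norm_num) coord_chk.2.2.2
  · right
    intro x
    push Not at hc
    obtain ⟨hc2, hc5, hc12⟩ := hc
    refine lor_neg_of_causal x.1 (ev n i) (by rw [x.2.1]; norm_num) x.2.2 ?_ ?_
    · have hone := F3_one i hi'
      have q1 := sq_nonneg (vl (co i 1))
      have q2 := sq_nonneg (vl (co i 2))
      have q3 := sq_nonneg (vl (co i 3))
      have g3 : 12 < i → 1 ≤ vl (co i 3) ^ 2 := fun h =>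
        F3_ge i 3 hi' hi0 hc2 hc5 hc12 (by norm_num) (supp_chk.1 i hi' h)
      have g2 : 5 < i → i < 12 → 1 ≤ vl (co i 2) ^ 2 := fun h h' =>
        F3_ge i 2 hi' hi0 hc2 hc5 hc12 (by norm_num) (supp_chk.2.1 i h' h)
      have g1 : 2 < i → i < 5 → 1 ≤ vl (co i 1) ^ 2 := fun h h' =>
        F3_ge i 1 hi' hi0 hc2 hc5 hc12 (by norm_num) (supp_chk.2.2.1 i h' h)
      rw [F3_sq]
      obtain rfl | rfl | rfl : n = 1 ∨ n = 2 ∨ n = 3 := by omega
      · have hi2 : 2 ≤ i := by simpa [sz] using hi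
        have hs : ∑ j : Fin 1, vl (co i j) ^ 2 = vl (co i 0) ^ 2 := by simp
        rw [hs]
        rcases lt_or_ge i 5 with h | h
        · have := g1 (by omega) h
          linarith
        · rcases lt_or_ge i 12 with h' | h'
          · have := g2 (by omega) h'
            linarith
          · have := g3 (by omega)
            linarith
      · have hi2 : 5 ≤ i := by simpa [sz] using hi
        have hs : ∑ j : Fin 2, vl (co i j) ^ 2 = vl (co i 0) ^ 2 + vl (co i 1) ^ 2 := by
          rw [Fin.sum_univ_two]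
          rfl
        rw [hs]
        rcases lt_or_ge i 12 with h' | h'
        · have := g2 (by omega) h'
          linarith
        · have := g3 (by omega)
          linarith
      · have hi2 : 12 ≤ i := by simpa [sz] using hi
        have hs : ∑ j : Fin 3, vl (co i j) ^ 2 = vl (co i 0) ^ 2 + vl (co i 1) ^ 2 + vl (co i 2) ^ 2 := by
          rw [Fin.sum_univ_three]
          rfl
        rw [hs]
        have := g3 (by omega)
        linarith
    · have hp := (pos_chk i hi' hi0 hc2 hc5 hc12).2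
      have hv := vl_ge_one _ hp.1 hp.2.1 hp.2.2
      have := Real.sqrt_pos.mpr Real.goldenRatio_pos
      change 0 < √φ * vl (co i 4)
      positivity

end Pool.Agent.MP_455d73_gt.PQ
end

section

/-!
TASK F7 (medium): the walls of the segment, the pentagon and the dodecahedron are the first rows of the table.

`walls n` is the union of four families. For each `n` go through the indices (`Fin n`, all triples of different indices) and compare with
the rows `walls_chk`, `coord_chk`: `n = 1`: rows 0, 1. `n = 2`: `-ε₁ = row 0`, `φ ε₁ = row 1`, `-ε₂ = row 2`, `φ ε₂ = row 3`, `φ (ε₁ + ε₂) = row 4`.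
`n = 3`: in addition row 5 `= -ε₃`, row 6 `= φ ε₃`, row 7 `= φ (ε₁ + ε₃)`, row 8 `= φ (ε₂ + ε₃)`, rows 9, 10, 11 `= (φ² ε_i + φ ε_j + φ ε_k)` for
`i = 1, 2, 3` (`φ² = 1 + φ = vl (1, 1)`). The times: `0`, `√φ`, `φ √φ`, `φ² √φ`. Both inclusions; equality of vectors by `Prod.ext`,
`funext`, `fin_cases`.
-/

set_option autoImplicit false
set_option linter.unusedSimpArgs false

open Finset
open scoped Classical goldenRatio

namespace Pool.Agent.MP_455d73_gt.PQ

private theorem F7_vl (a b : ℤ) : vl (a, b) = a + b * φ := rfl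

private theorem F7_r1_0 : ev 1 0 = ((-Pi.single 0 1, 0) : Mk 1) := by
  have c0 : co 0 0 = (-1, 0) := rfl
  have c4 : co 0 4 = (0, 0) := rfl
  refine Prod.ext (funext fun t => ?_) ?_
  · fin_cases t
    · show vl (co 0 0) = _
      rw [c0, F7_vl]
      simp [Real.goldenRatio_sq, add_comm]
  · show √φ * vl (co 0 4) = _
    rw [c4, F7_vl]
    simp [Real.goldenRatio_sq]
    try ring

private theorem F7_r1_1 : ev 1 1 = ((Pi.single 0 φ, √φ) : Mk 1) := by
  have c0 : co 1 0 = (0, 1) := rfl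
  have c4 : co 1 4 = (1, 0) := rfl
  refine Prod.ext (funext fun t => ?_) ?_
  · fin_cases t
    · show vl (co 1 0) = _
      rw [c0, F7_vl]
      simp [Real.goldenRatio_sq, add_comm]
  · show √φ * vl (co 1 4) = _
    rw [c4, F7_vl]
    simp [Real.goldenRatio_sq]
    try ring

private theorem F7_r2_0 : ev 2 0 = ((-Pi.single 0 1, 0) : Mk 2) := by
  have c0 : co 0 0 = (-1, 0) := rfl
  have c1 : co 0 1 = (0, 0) := rfl
  have c4 : co 0 4 = (0, 0) := rfl
  refine Prod.ext (funext fun t => ?_) ?_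
  · fin_cases t
    · show vl (co 0 0) = _
      rw [c0, F7_vl]
      simp [Real.goldenRatio_sq, add_comm]
    · show vl (co 0 1) = _
      rw [c1, F7_vl]
      simp [Real.goldenRatio_sq, add_comm]
  · show √φ * vl (co 0 4) = _
    rw [c4, F7_vl]
    simp [Real.goldenRatio_sq]
    try ring

private theorem F7_r2_1 : ev 2 1 = ((Pi.single 0 φ, √φ) : Mk 2) := by
  have c0 : co 1 0 = (0, 1) := rfl
  have c1 : co 1 1 = (0, 0) := rfl
  have c4 : co 1 4 = (1, 0) := rfl
  refine Prod.ext (funext fun t => ?_) ?_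
  · fin_cases t
    · show vl (co 1 0) = _
      rw [c0, F7_vl]
      simp [Real.goldenRatio_sq, add_comm]
    · show vl (co 1 1) = _
      rw [c1, F7_vl]
      simp [Real.goldenRatio_sq, add_comm]
  · show √φ * vl (co 1 4) = _
    rw [c4, F7_vl]
    simp [Real.goldenRatio_sq]
    try ring

private theorem F7_r2_2 : ev 2 2 = ((-Pi.single 1 1, 0) : Mk 2) := by
  have c0 : co 2 0 = (0, 0) := rfl
  have c1 : co 2 1 = (-1, 0) := rfl
  have c4 : co 2 4 = (0, 0) := rfl
  refine Prod.ext (funext fun t => ?_) ?_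
  · fin_cases t
    · show vl (co 2 0) = _
      rw [c0, F7_vl]
      simp [Real.goldenRatio_sq, add_comm]
    · show vl (co 2 1) = _
      rw [c1, F7_vl]
      simp [Real.goldenRatio_sq, add_comm]
  · show √φ * vl (co 2 4) = _
    rw [c4, F7_vl]
    simp [Real.goldenRatio_sq]
    try ring

private theorem F7_r2_3 : ev 2 3 = ((Pi.single 1 φ, √φ) : Mk 2) := by
  have c0 : co 3 0 = (0, 0) := rfl
  have c1 : co 3 1 = (0, 1) := rfl
  have c4 : co 3 4 = (1, 0) := rfl
  refine Prod.ext (funext fun t => ?_) ?_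
  · fin_cases t
    · show vl (co 3 0) = _
      rw [c0, F7_vl]
      simp [Real.goldenRatio_sq, add_comm]
    · show vl (co 3 1) = _
      rw [c1, F7_vl]
      simp [Real.goldenRatio_sq, add_comm]
  · show √φ * vl (co 3 4) = _
    rw [c4, F7_vl]
    simp [Real.goldenRatio_sq]
    try ring

private theorem F7_r2_4 : ev 2 4 = ((Pi.single 0 φ + Pi.single 1 φ, φ * √φ) : Mk 2) := by
  have c0 : co 4 0 = (0, 1) := rfl
  have c1 : co 4 1 = (0, 1) := rfl
  have c4 : co 4 4 = (0, 1) := rfl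
  refine Prod.ext (funext fun t => ?_) ?_
  · fin_cases t
    · show vl (co 4 0) = _
      rw [c0, F7_vl]
      simp [Real.goldenRatio_sq, add_comm]
    · show vl (co 4 1) = _
      rw [c1, F7_vl]
      simp [Real.goldenRatio_sq, add_comm]
  · show √φ * vl (co 4 4) = _
    rw [c4, F7_vl]
    simp [Real.goldenRatio_sq]
    try ring

private theorem F7_r3_0 : ev 3 0 = ((-Pi.single 0 1, 0) : Mk 3) := by
  have c0 : co 0 0 = (-1, 0) := rfl
  have c1 : co 0 1 = (0, 0) := rfl
  have c2 : co 0 2 = (0, 0) := rfl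
  have c4 : co 0 4 = (0, 0) := rfl
  refine Prod.ext (funext fun t => ?_) ?_
  · fin_cases t
    · show vl (co 0 0) = _
      rw [c0, F7_vl]
      simp [Real.goldenRatio_sq, add_comm]
    · show vl (co 0 1) = _
      rw [c1, F7_vl]
      simp [Real.goldenRatio_sq, add_comm]
    · show vl (co 0 2) = _
      rw [c2, F7_vl]
      simp [Real.goldenRatio_sq, add_comm]
  · show √φ * vl (co 0 4) = _
    rw [c4, F7_vl]
    simp [Real.goldenRatio_sq]
    try ring

private theorem F7_r3_1 : ev 3 1 = ((Pi.single 0 φ, √φ) : Mk 3) := by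
  have c0 : co 1 0 = (0, 1) := rfl
  have c1 : co 1 1 = (0, 0) := rfl
  have c2 : co 1 2 = (0, 0) := rfl
  have c4 : co 1 4 = (1, 0) := rfl
  refine Prod.ext (funext fun t => ?_) ?_
  · fin_cases t
    · show vl (co 1 0) = _
      rw [c0, F7_vl]
      simp [Real.goldenRatio_sq, add_comm]
    · show vl (co 1 1) = _
      rw [c1, F7_vl]
      simp [Real.goldenRatio_sq, add_comm]
    · show vl (co 1 2) = _
      rw [c2, F7_vl]
      simp [Real.goldenRatio_sq, add_comm]
  · show √φ * vl (co 1 4) = _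
    rw [c4, F7_vl]
    simp [Real.goldenRatio_sq]
    try ring

private theorem F7_r3_2 : ev 3 2 = ((-Pi.single 1 1, 0) : Mk 3) := by
  have c0 : co 2 0 = (0, 0) := rfl
  have c1 : co 2 1 = (-1, 0) := rfl
  have c2 : co 2 2 = (0, 0) := rfl
  have c4 : co 2 4 = (0, 0) := rfl
  refine Prod.ext (funext fun t => ?_) ?_
  · fin_cases t
    · show vl (co 2 0) = _
      rw [c0, F7_vl]
      simp [Real.goldenRatio_sq, add_comm]
    · show vl (co 2 1) = _
      rw [c1, F7_vl]
      simp [Real.goldenRatio_sq, add_comm]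
    · show vl (co 2 2) = _
      rw [c2, F7_vl]
      simp [Real.goldenRatio_sq, add_comm]
  · show √φ * vl (co 2 4) = _
    rw [c4, F7_vl]
    simp [Real.goldenRatio_sq]
    try ring

private theorem F7_r3_3 : ev 3 3 = ((Pi.single 1 φ, √φ) : Mk 3) := by
  have c0 : co 3 0 = (0, 0) := rfl
  have c1 : co 3 1 = (0, 1) := rfl
  have c2 : co 3 2 = (0, 0) := rfl
  have c4 : co 3 4 = (1, 0) := rfl
  refine Prod.ext (funext fun t => ?_) ?_
  · fin_cases t
    · show vl (co 3 0) = _
      rw [c0, F7_vl]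
      simp [Real.goldenRatio_sq, add_comm]
    · show vl (co 3 1) = _
      rw [c1, F7_vl]
      simp [Real.goldenRatio_sq, add_comm]
    · show vl (co 3 2) = _
      rw [c2, F7_vl]
      simp [Real.goldenRatio_sq, add_comm]
  · show √φ * vl (co 3 4) = _
    rw [c4, F7_vl]
    simp [Real.goldenRatio_sq]
    try ring

private theorem F7_r3_4 : ev 3 4 = ((Pi.single 0 φ + Pi.single 1 φ, φ * √φ) : Mk 3) := by
  have c0 : co 4 0 = (0, 1) := rfl
  have c1 : co 4 1 = (0, 1) := rfl
  have c2 : co 4 2 = (0, 0) := rfl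
  have c4 : co 4 4 = (0, 1) := rfl
  refine Prod.ext (funext fun t => ?_) ?_
  · fin_cases t
    · show vl (co 4 0) = _
      rw [c0, F7_vl]
      simp [Real.goldenRatio_sq, add_comm]
    · show vl (co 4 1) = _
      rw [c1, F7_vl]
      simp [Real.goldenRatio_sq, add_comm]
    · show vl (co 4 2) = _
      rw [c2, F7_vl]
      simp [Real.goldenRatio_sq, add_comm]
  · show √φ * vl (co 4 4) = _
    rw [c4, F7_vl]
    simp [Real.goldenRatio_sq]
    try ring

private theorem F7_r3_5 : ev 3 5 = ((-Pi.single 2 1, 0) : Mk 3) := by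
  have c0 : co 5 0 = (0, 0) := rfl
  have c1 : co 5 1 = (0, 0) := rfl
  have c2 : co 5 2 = (-1, 0) := rfl
  have c4 : co 5 4 = (0, 0) := rfl
  refine Prod.ext (funext fun t => ?_) ?_
  · fin_cases t
    · show vl (co 5 0) = _
      rw [c0, F7_vl]
      simp [Real.goldenRatio_sq, add_comm]
    · show vl (co 5 1) = _
      rw [c1, F7_vl]
      simp [Real.goldenRatio_sq, add_comm]
    · show vl (co 5 2) = _
      rw [c2, F7_vl]
      simp [Real.goldenRatio_sq, add_comm]
  · show √φ * vl (co 5 4) = _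
    rw [c4, F7_vl]
    simp [Real.goldenRatio_sq]
    try ring

private theorem F7_r3_6 : ev 3 6 = ((Pi.single 2 φ, √φ) : Mk 3) := by
  have c0 : co 6 0 = (0, 0) := rfl
  have c1 : co 6 1 = (0, 0) := rfl
  have c2 : co 6 2 = (0, 1) := rfl
  have c4 : co 6 4 = (1, 0) := rfl
  refine Prod.ext (funext fun t => ?_) ?_
  · fin_cases t
    · show vl (co 6 0) = _
      rw [c0, F7_vl]
      simp [Real.goldenRatio_sq, add_comm]
    · show vl (co 6 1) = _
      rw [c1, F7_vl]
      simp [Real.goldenRatio_sq, add_comm]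
    · show vl (co 6 2) = _
      rw [c2, F7_vl]
      simp [Real.goldenRatio_sq, add_comm]
  · show √φ * vl (co 6 4) = _
    rw [c4, F7_vl]
    simp [Real.goldenRatio_sq]
    try ring

private theorem F7_r3_7 : ev 3 7 = ((Pi.single 0 φ + Pi.single 2 φ, φ * √φ) : Mk 3) := by
  have c0 : co 7 0 = (0, 1) := rfl
  have c1 : co 7 1 = (0, 0) := rfl
  have c2 : co 7 2 = (0, 1) := rfl
  have c4 : co 7 4 = (0, 1) := rfl
  refine Prod.ext (funext fun t => ?_) ?_
  · fin_cases t
    · show vl (co 7 0) = _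
      rw [c0, F7_vl]
      simp [Real.goldenRatio_sq, add_comm]
    · show vl (co 7 1) = _
      rw [c1, F7_vl]
      simp [Real.goldenRatio_sq, add_comm]
    · show vl (co 7 2) = _
      rw [c2, F7_vl]
      simp [Real.goldenRatio_sq, add_comm]
  · show √φ * vl (co 7 4) = _
    rw [c4, F7_vl]
    simp [Real.goldenRatio_sq]
    try ring

private theorem F7_r3_8 : ev 3 8 = ((Pi.single 1 φ + Pi.single 2 φ, φ * √φ) : Mk 3) := by
  have c0 : co 8 0 = (0, 0) := rfl
  have c1 : co 8 1 = (0, 1) := rfl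
  have c2 : co 8 2 = (0, 1) := rfl
  have c4 : co 8 4 = (0, 1) := rfl
  refine Prod.ext (funext fun t => ?_) ?_
  · fin_cases t
    · show vl (co 8 0) = _
      rw [c0, F7_vl]
      simp [Real.goldenRatio_sq, add_comm]
    · show vl (co 8 1) = _
      rw [c1, F7_vl]
      simp [Real.goldenRatio_sq, add_comm]
    · show vl (co 8 2) = _
      rw [c2, F7_vl]
      simp [Real.goldenRatio_sq, add_comm]
  · show √φ * vl (co 8 4) = _
    rw [c4, F7_vl]
    simp [Real.goldenRatio_sq]
    try ring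

private theorem F7_r3_9 : ev 3 9 = ((Pi.single 0 (φ ^ 2) + Pi.single 1 φ + Pi.single 2 φ, φ ^ 2 * √φ) : Mk 3) := by
  have c0 : co 9 0 = (1, 1) := rfl
  have c1 : co 9 1 = (0, 1) := rfl
  have c2 : co 9 2 = (0, 1) := rfl
  have c4 : co 9 4 = (1, 1) := rfl
  refine Prod.ext (funext fun t => ?_) ?_
  · fin_cases t
    · show vl (co 9 0) = _
      rw [c0, F7_vl]
      simp [Real.goldenRatio_sq, add_comm]
    · show vl (co 9 1) = _
      rw [c1, F7_vl]
      simp [Real.goldenRatio_sq, add_comm]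
    · show vl (co 9 2) = _
      rw [c2, F7_vl]
      simp [Real.goldenRatio_sq, add_comm]
  · show √φ * vl (co 9 4) = _
    rw [c4, F7_vl]
    simp [Real.goldenRatio_sq]
    try ring

private theorem F7_r3_10 : ev 3 10 = ((Pi.single 1 (φ ^ 2) + Pi.single 0 φ + Pi.single 2 φ, φ ^ 2 * √φ) : Mk 3) := by
  have c0 : co 10 0 = (0, 1) := rfl
  have c1 : co 10 1 = (1, 1) := rfl
  have c2 : co 10 2 = (0, 1) := rfl
  have c4 : co 10 4 = (1, 1) := rfl
  refine Prod.ext (funext fun t => ?_) ?_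
  · fin_cases t
    · show vl (co 10 0) = _
      rw [c0, F7_vl]
      simp [Real.goldenRatio_sq, add_comm]
    · show vl (co 10 1) = _
      rw [c1, F7_vl]
      simp [Real.goldenRatio_sq, add_comm]
    · show vl (co 10 2) = _
      rw [c2, F7_vl]
      simp [Real.goldenRatio_sq, add_comm]
  · show √φ * vl (co 10 4) = _
    rw [c4, F7_vl]
    simp [Real.goldenRatio_sq]
    try ring

private theorem F7_r3_11 : ev 3 11 = ((Pi.single 2 (φ ^ 2) + Pi.single 0 φ + Pi.single 1 φ, φ ^ 2 * √φ) : Mk 3) := by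
  have c0 : co 11 0 = (0, 1) := rfl
  have c1 : co 11 1 = (0, 1) := rfl
  have c2 : co 11 2 = (1, 1) := rfl
  have c4 : co 11 4 = (1, 1) := rfl
  refine Prod.ext (funext fun t => ?_) ?_
  · fin_cases t
    · show vl (co 11 0) = _
      rw [c0, F7_vl]
      simp [Real.goldenRatio_sq, add_comm]
    · show vl (co 11 1) = _
      rw [c1, F7_vl]
      simp [Real.goldenRatio_sq, add_comm]
    · show vl (co 11 2) = _
      rw [c2, F7_vl]
      simp [Real.goldenRatio_sq, add_comm]
  · show √φ * vl (co 11 4) = _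
    rw [c4, F7_vl]
    simp [Real.goldenRatio_sq]
    try ring

theorem walls_eq (n : ℕ) (h1 : 1 ≤ n) (h3 : n ≤ 3) :
    walls n = Set.range (fun i : Fin (sz n) => ev n i) := by
  have hn : n = 1 ∨ n = 2 ∨ n = 3 := by omega
  rcases hn with rfl | rfl | rfl
  · have hs : sz 1 = 2 := rfl
    ext e
    constructor
    · rintro (((⟨i, rfl⟩ | ⟨i, rfl⟩) | ⟨i, j, hij, rfl⟩) | ⟨i, j, k, hij, hik, hjk, rfl⟩)
      · fin_cases i
        · exact ⟨⟨0, by decide⟩, F7_r1_0⟩
      · fin_cases i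
        · exact ⟨⟨1, by decide⟩, F7_r1_1⟩
      · fin_cases i <;> fin_cases j
        · exact absurd rfl hij
      · fin_cases i <;> fin_cases j <;> fin_cases k
        · exact absurd rfl hij
    · rintro ⟨⟨i, hi⟩, rfl⟩
      rw [hs] at hi
      show ev 1 i ∈ walls 1
      interval_cases i
      · exact Or.inl (Or.inl (Or.inl (⟨0, F7_r1_0⟩)))
      · exact Or.inl (Or.inl (Or.inr (⟨0, F7_r1_1⟩)))
  · have hs : sz 2 = 5 := rfl
    ext e
    constructor
    · rintro (((⟨i, rfl⟩ | ⟨i, rfl⟩) | ⟨i, j, hij, rfl⟩) | ⟨i, j, k, hij, hik, hjk, rfl⟩)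
      · fin_cases i
        · exact ⟨⟨0, by decide⟩, F7_r2_0⟩
        · exact ⟨⟨2, by decide⟩, F7_r2_2⟩
      · fin_cases i
        · exact ⟨⟨1, by decide⟩, F7_r2_1⟩
        · exact ⟨⟨3, by decide⟩, F7_r2_3⟩
      · fin_cases i <;> fin_cases j
        · exact absurd rfl hij
        · exact ⟨⟨4, by decide⟩, F7_r2_4⟩
        · exact ⟨⟨4, by decide⟩, F7_r2_4.trans (Prod.ext (add_comm _ _) rfl)⟩
        · exact absurd rfl hij
      · fin_cases i <;> fin_cases j <;> fin_cases k
        · exact absurd rfl hij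
        · exact absurd rfl hij
        · exact absurd rfl hik
        · exact absurd rfl hjk
        · exact absurd rfl hjk
        · exact absurd rfl hik
        · exact absurd rfl hij
        · exact absurd rfl hij
    · rintro ⟨⟨i, hi⟩, rfl⟩
      rw [hs] at hi
      show ev 2 i ∈ walls 2
      interval_cases i
      · exact Or.inl (Or.inl (Or.inl (⟨0, F7_r2_0⟩)))
      · exact Or.inl (Or.inl (Or.inr (⟨0, F7_r2_1⟩)))
      · exact Or.inl (Or.inl (Or.inl (⟨1, F7_r2_2⟩)))
      · exact Or.inl (Or.inl (Or.inr (⟨1, F7_r2_3⟩)))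
      · exact Or.inl (Or.inr (⟨0, 1, by decide, F7_r2_4⟩))
  · have hs : sz 3 = 12 := rfl
    ext e
    constructor
    · rintro (((⟨i, rfl⟩ | ⟨i, rfl⟩) | ⟨i, j, hij, rfl⟩) | ⟨i, j, k, hij, hik, hjk, rfl⟩)
      · fin_cases i
        · exact ⟨⟨0, by decide⟩, F7_r3_0⟩
        · exact ⟨⟨2, by decide⟩, F7_r3_2⟩
        · exact ⟨⟨5, by decide⟩, F7_r3_5⟩
      · fin_cases i
        · exact ⟨⟨1, by decide⟩, F7_r3_1⟩
        · exact ⟨⟨3, by decide⟩, F7_r3_3⟩
        · exact ⟨⟨6, by decide⟩, F7_r3_6⟩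
      · fin_cases i <;> fin_cases j
        · exact absurd rfl hij
        · exact ⟨⟨4, by decide⟩, F7_r3_4⟩
        · exact ⟨⟨7, by decide⟩, F7_r3_7⟩
        · exact ⟨⟨4, by decide⟩, F7_r3_4.trans (Prod.ext (add_comm _ _) rfl)⟩
        · exact absurd rfl hij
        · exact ⟨⟨8, by decide⟩, F7_r3_8⟩
        · exact ⟨⟨7, by decide⟩, F7_r3_7.trans (Prod.ext (add_comm _ _) rfl)⟩
        · exact ⟨⟨8, by decide⟩, F7_r3_8.trans (Prod.ext (add_comm _ _) rfl)⟩
        · exact absurd rfl hij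
      · fin_cases i <;> fin_cases j <;> fin_cases k
        · exact absurd rfl hij
        · exact absurd rfl hij
        · exact absurd rfl hij
        · exact absurd rfl hik
        · exact absurd rfl hjk
        · exact ⟨⟨9, by decide⟩, F7_r3_9⟩
        · exact absurd rfl hik
        · exact ⟨⟨9, by decide⟩, F7_r3_9.trans (Prod.ext (add_right_comm _ _ _) rfl)⟩
        · exact absurd rfl hjk
        · exact absurd rfl hjk
        · exact absurd rfl hik
        · exact ⟨⟨10, by decide⟩, F7_r3_10⟩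
        · exact absurd rfl hij
        · exact absurd rfl hij
        · exact absurd rfl hij
        · exact ⟨⟨10, by decide⟩, F7_r3_10.trans (Prod.ext (add_right_comm _ _ _) rfl)⟩
        · exact absurd rfl hik
        · exact absurd rfl hjk
        · exact absurd rfl hjk
        · exact ⟨⟨11, by decide⟩, F7_r3_11⟩
        · exact absurd rfl hik
        · exact ⟨⟨11, by decide⟩, F7_r3_11.trans (Prod.ext (add_right_comm _ _ _) rfl)⟩
        · exact absurd rfl hjk
        · exact absurd rfl hik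
        · exact absurd rfl hij
        · exact absurd rfl hij
        · exact absurd rfl hij
    · rintro ⟨⟨i, hi⟩, rfl⟩
      rw [hs] at hi
      show ev 3 i ∈ walls 3
      interval_cases i
      · exact Or.inl (Or.inl (Or.inl (⟨0, F7_r3_0⟩)))
      · exact Or.inl (Or.inl (Or.inr (⟨0, F7_r3_1⟩)))
      · exact Or.inl (Or.inl (Or.inl (⟨1, F7_r3_2⟩)))
      · exact Or.inl (Or.inl (Or.inr (⟨1, F7_r3_3⟩)))
      · exact Or.inl (Or.inr (⟨0, 1, by decide, F7_r3_4⟩))
      · exact Or.inl (Or.inl (Or.inl (⟨2, F7_r3_5⟩)))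
      · exact Or.inl (Or.inl (Or.inr (⟨2, F7_r3_6⟩)))
      · exact Or.inl (Or.inr (⟨0, 2, by decide, F7_r3_7⟩))
      · exact Or.inl (Or.inr (⟨1, 2, by decide, F7_r3_8⟩))
      · exact Or.inr (⟨0, 1, 2, by decide, by decide, by decide, F7_r3_9⟩)
      · exact Or.inr (⟨1, 0, 2, by decide, by decide, by decide, F7_r3_10⟩)
      · exact Or.inr (⟨2, 0, 1, by decide, by decide, by decide, F7_r3_11⟩)

end Pool.Agent.MP_455d73_gt.PQ
end
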