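import Pool.Agent.Lib.MP_455d73_gt.Mg.G030
import Pool.Agent.Lib.MP_455d73_gt.PQ.F4b

section

/-!
TASK F4 (medium-hard): the 120-cell is compact.

Notation: `k = cv 4 = ((1,1,1,1), φ √φ)`, `lor k k = 4 - φ³ = -φ⁻³`; `e_i = ev 4 i`, `lor k e_i = -1` (`lor_cv`). Let `y_i = e_i - φ³ • k`. Then
`lor y_i k = -1 + 1 = 0`. The four rows `i₀ = 119, i₁ = 84, i₂ = 58, i₃ = 66` of `quat` are the quaternions `2·1, 2·i, 2·j, 2·k`; write
`u_r = y_{i_r}`. Identity (`quat_chk`, coordinatewise in the ring of the `a + b φ`, `decide +kernel`): `2 y_i = ∑_r (2 q_i)_r u_r`.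
The vectors `u_r` are orthogonal to each other and `lor u_r u_r = 1 + φ³ = 2 φ²` (from `lor_ev`, `gr`: `lor e_i e_j = φ² 2⟨q_i,q_j⟩ - φ³`, only the
4 × 4 values for the `i_r` are needed: `gr (i_r) (i_s) = (-1, -2)`, i.e. `-φ³`, for `r ≠ s`, and `1` for `r = s`).
For `x : Hyp 4` with `lor x e_i ≤ 0` for all `i < 120` put `m = - φ³ lor x k` and `w r = lor x u_r`. Then
`0 ≥ 2 lor x e_i = 2 φ³ lor x k + 2 lor x y_i = -2 m + ∑_r vl (qc i r) * w r`, so `cov_all` gives `21 |w|² ≤ 25 m²`. And, `k, u_0, …, u_3`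
being an orthogonal basis, `x = (lor x k / lor k k) k + ∑ (w r / (2 φ²)) u_r` (check: the difference is orthogonal to the basis, or use explicit
coordinates: 5 linear equations), so `-1 = lor x x = - m² φ⁻³ + |w|² / (2 φ²) ≤ - m² (φ⁻³ - 25 / (42 φ²))`, where
`φ⁻³ - 25/(42 φ²) = φ⁻² (φ⁻¹ - 25/42) > 0` (`φ⁻¹ = φ - 1 > 0.61 > 0.596`). So `m² ≤ C` and `|w|² ≤ C'`, and `x` is bounded (it is a linear
function of `m`, `w`). The set is closed in `Hyp 4`, and `Hyp 4` is closed in `Mk 4` (`lor x x = -1` and `0 < x.2` iff `lor x x = -1` and `1 ≤ x.2`), a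
proper space: a closed and bounded set is compact (`Topology.IsClosedEmbedding`, `IsCompact` of the image / `isCompact_of_isClosed_isBounded`).
-/

set_option autoImplicit false

open Finset
open scoped Classical goldenRatio

namespace Pool.Agent.MP_455d73_gt.PQ

set_option maxRecDepth 100000 in
theorem quat_chk : ∀ i < 120, ∀ j < 5,
    let K : ℤ × ℤ := if j = 4 then (0, 1) else (1, 0)
    let y : ℕ → ℤ × ℤ := fun l => co l j - ml (1, 2) K
    y i + y i = ml (qc i 0) (y 119) + ml (qc i 1) (y 84) + ml (qc i 2) (y 58) + ml (qc i 3) (y 66) := by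
  decide +kernel

private theorem F4_vl12 : vl (1, 2) = φ ^ 3 := by
  have h : φ ^ 2 = φ + 1 := Real.goldenRatio_sq
  unfold vl
  push_cast
  linear_combination (-φ - 1) * h

/-- `quat_chk` as an identity of real numbers. -/
private theorem F4_q (i : ℕ) (hi : i < 120) (j : ℕ) (hj : j < 5) (K : ℝ) (hK : K = if j = 4 then φ else 1) :
    2 * (vl (co i j) - φ ^ 3 * K) = vl (qc i 0) * (vl (co 119 j) - φ ^ 3 * K) +
      vl (qc i 1) * (vl (co 84 j) - φ ^ 3 * K) + vl (qc i 2) * (vl (co 58 j) - φ ^ 3 * K) +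
      vl (qc i 3) * (vl (co 66 j) - φ ^ 3 * K) := by
  have h := quat_chk i hi j hj
  dsimp only at h
  have h2 := congrArg vl h
  have hKv : vl (if j = 4 then (0, 1) else (1, 0)) = K := by
    rw [hK]
    split_ifs
    · simp [vl]
    · simp [vl]
  simp only [vl_add, vl_ml, vl_sub, F4_vl12, hKv] at h2
  linear_combination h2

/-- The linear form `lor x (cv 4)`. -/
private noncomputable def F4_a (x : Mk 4) : ℝ := lor x (cv 4)

private noncomputable def F4_w (x : Mk 4) : Fin 4 → ℝ :=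
  ![lor x (ev 4 119) - φ ^ 3 * F4_a x, lor x (ev 4 84) - φ ^ 3 * F4_a x, lor x (ev 4 58) - φ ^ 3 * F4_a x,
    lor x (ev 4 66) - φ ^ 3 * F4_a x]

private theorem F4_lor4 (x y : Mk 4) :
    lor x y = x.1 0 * y.1 0 + x.1 1 * y.1 1 + x.1 2 * y.1 2 + x.1 3 * y.1 3 - x.2 * y.2 := by
  unfold lor
  rw [Fin.sum_univ_four]

private theorem F4_main (x : Mk 4) (i : ℕ) (hi : i < 120) :
    ∑ r : Fin 4, vl (qc i r) * F4_w x r = 2 * lor x (ev 4 i) - 2 * φ ^ 3 * F4_a x := by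
  have h0 := F4_q i hi 0 (by norm_num) 1 (by simp)
  have h1 := F4_q i hi 1 (by norm_num) 1 (by simp)
  have h2 := F4_q i hi 2 (by norm_num) 1 (by simp)
  have h3 := F4_q i hi 3 (by norm_num) 1 (by simp)
  have h4 := F4_q i hi 4 (by norm_num) φ (by simp)
  rw [Fin.sum_univ_four]
  simp only [F4_w, F4_a, F4_lor4, ev, cv, Matrix.cons_val_zero, Matrix.cons_val_one, Matrix.cons_val]
  simp only [Fin.val_zero, Fin.val_one, Fin.val_two, show ((3 : Fin 4) : ℕ) = 3 from rfl]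
  linear_combination (-(x.1 0)) * h0 - x.1 1 * h1 - x.1 2 * h2 - x.1 3 * h3 + x.2 * √φ * h4

private theorem F4_co : (∀ j < 5, co 119 j = if j = 0 then (3, 4) else if j = 4 then (4, 6) else (2, 4)) ∧
    (co 84 0 = (1, 2) ∧ co 84 1 = (2, 3) ∧ co 84 2 = (2, 3) ∧ co 84 3 = (1, 3) ∧ co 84 4 = (3, 4)) ∧
    (co 58 0 = (1, 2) ∧ co 58 1 = (1, 1) ∧ co 58 2 = (1, 3) ∧ co 58 3 = (1, 2) ∧ co 58 4 = (2, 3)) ∧
    (co 66 0 = (1, 2) ∧ co 66 1 = (1, 2) ∧ co 66 2 = (1, 2) ∧ co 66 3 = (2, 3) ∧ co 66 4 = (3, 3)) := by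
  decide +kernel

/-- The values of `w`. -/
private theorem F4_wv (x : Mk 4) :
    F4_w x 0 = (2 + 2 * φ) * x.1 0 + (1 + 2 * φ) * (x.1 1 + x.1 2 + x.1 3) - x.2 * √φ * (2 + 3 * φ) ∧
    F4_w x 1 = (1 + φ) * x.1 1 + (1 + φ) * x.1 2 + φ * x.1 3 - x.2 * √φ * (1 + φ) ∧
    F4_w x 2 = - φ * x.1 1 + φ * x.1 2 ∧
    F4_w x 3 = (1 + φ) * x.1 3 - x.2 * √φ := by
  have hg : φ ^ 2 = φ + 1 := Real.goldenRatio_sq
  have hg3 : φ ^ 3 = 1 + 2 * φ := by linear_combination (φ + 1) * hg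
  obtain ⟨c1, ⟨d0, d1, d2, d3, d4⟩, ⟨e0, e1, e2, e3, e4⟩, ⟨f0, f1, f2, f3, f4⟩⟩ := F4_co
  have c0 := c1 0 (by norm_num)
  have c11 := c1 1 (by norm_num)
  have c2 := c1 2 (by norm_num)
  have c3 := c1 3 (by norm_num)
  have c4 := c1 4 (by norm_num)
  simp only [↓reduceIte, one_ne_zero, OfNat.ofNat_ne_zero, OfNat.one_ne_ofNat] at c0 c11 c2 c3 c4
  norm_num at c2 c3 c4
  simp only [F4_w, F4_a, F4_lor4, ev, cv, Matrix.cons_val_zero, Matrix.cons_val_one, Matrix.cons_val]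
  simp only [Fin.val_zero, Fin.val_one, Fin.val_two, show ((3 : Fin 4) : ℕ) = 3 from rfl, c0, c11, c2, c3, c4, d0, d1, d2, d3, d4,
    e0, e1, e2, e3, e4, f0, f1, f2, f3, f4, vl, hg3]
  push_cast
  refine ⟨?_, ?_, ?_, ?_⟩
  · linear_combination (2 * x.2 * √φ) * hg
  · linear_combination (2 * x.2 * √φ) * hg
  · linear_combination (2 * x.2 * √φ) * hg
  · linear_combination (2 * x.2 * √φ) * hg

/-- The point with given `a` and `w`. -/
private noncomputable def F4_L (p : ℝ × (Fin 4 → ℝ)) : Mk 4 :=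
  (2 * φ ^ 2)⁻¹ •
    (![-(6 + 10 * φ) * p.1 + (2 + 2 * φ) * p.2 0,
      -(6 + 10 * φ) * p.1 + (1 + 2 * φ) * p.2 0 + (1 + φ) * p.2 1 - φ * p.2 2,
      -(6 + 10 * φ) * p.1 + (1 + 2 * φ) * p.2 0 + (1 + φ) * p.2 1 + φ * p.2 2,
      -(6 + 10 * φ) * p.1 + (1 + 2 * φ) * p.2 0 + φ * p.2 1 + (1 + φ) * p.2 3],
    √φ * (-(6 + 10 * φ) * φ * p.1 + (2 + 3 * φ) * p.2 0 + (1 + φ) * p.2 1 + p.2 3))

private theorem F4_Lx (x : Mk 4) : F4_L (F4_a x, F4_w x) = x := by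
  have hg : φ ^ 2 = φ + 1 := Real.goldenRatio_sq
  have hp : 0 < φ := Real.goldenRatio_pos
  have hs : √φ ^ 2 = φ := Real.sq_sqrt hp.le
  obtain ⟨w0, w1, w2, w3⟩ := F4_wv x
  have ha : F4_a x = x.1 0 + x.1 1 + x.1 2 + x.1 3 - x.2 * (φ * √φ) := by
    simp only [F4_a, F4_lor4, cv, mul_one]
  have h2 : (2 * φ ^ 2) ≠ 0 := by positivity
  unfold F4_L
  rw [inv_smul_eq_iff₀ h2]
  refine Prod.ext ?_ ?_
  · funext j
    fin_cases j
    · show -(6 + 10 * φ) * F4_a x + (2 + 2 * φ) * F4_w x 0 = 2 * φ ^ 2 * x.1 0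
      rw [w0, ha]
      linear_combination (4 * x.1 0 + 4 * x.1 1 + 4 * x.1 2 + 4 * x.1 3 + 4 * (√φ * x.2) - 2 * x.1 0) * hg
    · show -(6 + 10 * φ) * F4_a x + (1 + 2 * φ) * F4_w x 0 + (1 + φ) * F4_w x 1 - φ * F4_w x 2 = 2 * φ ^ 2 * x.1 1
      rw [w0, w1, w2, ha]
      linear_combination (4 * x.1 0 + 6 * x.1 1 + 4 * x.1 2 + 5 * x.1 3 + 3 * (√φ * x.2) - 2 * x.1 1) * hg
    · show -(6 + 10 * φ) * F4_a x + (1 + 2 * φ) * F4_w x 0 + (1 + φ) * F4_w x 1 + φ * F4_w x 2 = 2 * φ ^ 2 * x.1 2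
      rw [w0, w1, w2, ha]
      linear_combination (4 * x.1 0 + 4 * x.1 1 + 6 * x.1 2 + 5 * x.1 3 + 3 * (√φ * x.2) - 2 * x.1 2) * hg
    · show -(6 + 10 * φ) * F4_a x + (1 + 2 * φ) * F4_w x 0 + φ * F4_w x 1 + (1 + φ) * F4_w x 3 = 2 * φ ^ 2 * x.1 3
      rw [w0, w1, w3, ha]
      linear_combination (4 * x.1 0 + 5 * x.1 1 + 5 * x.1 2 + 6 * x.1 3 + 3 * (√φ * x.2) - 2 * x.1 3) * hg
  · show √φ * (-(6 + 10 * φ) * φ * F4_a x + (2 + 3 * φ) * F4_w x 0 + (1 + φ) * F4_w x 1 + F4_w x 3) = 2 * φ ^ 2 * x.2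
    rw [w0, w1, w3, ha]
    linear_combination (-(√φ * (4 * x.1 0 + 3 * x.1 1 + 3 * x.1 2 + 3 * x.1 3)) - x.2 * (-2 - 6 * φ - 10 * φ ^ 2) - 2 * x.2) * hg
      - x.2 * (6 + 14 * φ + 4 * φ ^ 2 - 10 * φ ^ 3) * hs

private theorem F4_quad (x : Mk 4) :
    2 * φ ^ 2 * lor x x = -(6 + 10 * φ) * F4_a x ^ 2 + ∑ r, F4_w x r ^ 2 := by
  have hg : φ ^ 2 = φ + 1 := Real.goldenRatio_sq
  have hp : 0 < φ := Real.goldenRatio_pos
  have h2 : (2 * φ ^ 2) ≠ 0 := by positivity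
  have hg3 : φ ^ 3 = 1 + 2 * φ := by linear_combination (φ + 1) * hg
  obtain ⟨w0, w1, w2, w3⟩ := F4_wv x
  have ha : F4_a x = x.1 0 + x.1 1 + x.1 2 + x.1 3 - x.2 * (φ * √φ) := by
    simp only [F4_a, F4_lor4, cv, mul_one]
  have hL := F4_Lx x
  unfold F4_L at hL
  rw [inv_smul_eq_iff₀ h2] at hL
  have h3 : lor ((2 * φ ^ 2) • x) x = 2 * φ ^ 2 * lor x x := lor_smul_left _ _ _
  rw [← h3, ← hL, F4_lor4, Fin.sum_univ_four]
  show (-(6 + 10 * φ) * F4_a x + (2 + 2 * φ) * F4_w x 0) * x.1 0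
    + (-(6 + 10 * φ) * F4_a x + (1 + 2 * φ) * F4_w x 0 + (1 + φ) * F4_w x 1 - φ * F4_w x 2) * x.1 1
    + (-(6 + 10 * φ) * F4_a x + (1 + 2 * φ) * F4_w x 0 + (1 + φ) * F4_w x 1 + φ * F4_w x 2) * x.1 2
    + (-(6 + 10 * φ) * F4_a x + (1 + 2 * φ) * F4_w x 0 + φ * F4_w x 1 + (1 + φ) * F4_w x 3) * x.1 3
    - √φ * (-(6 + 10 * φ) * φ * F4_a x + (2 + 3 * φ) * F4_w x 0 + (1 + φ) * F4_w x 1 + F4_w x 3) * x.2
    = -(6 + 10 * φ) * F4_a x ^ 2 + (F4_w x 0 ^ 2 + F4_w x 1 ^ 2 + F4_w x 2 ^ 2 + F4_w x 3 ^ 2)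
  linear_combination (6 + 10 * φ) * F4_a x * ha - F4_w x 0 * w0 - F4_w x 1 * w1 - F4_w x 2 * w2 - F4_w x 3 * w3

/-- The bounds. -/
private theorem F4_bound (x : Mk 4) (hx : lor x x = -1) (h : ∀ i < 120, lor x (ev 4 i) ≤ 0) :
    F4_a x ^ 2 ≤ 10 ^ 2 ∧ ∑ r, F4_w x r ^ 2 ≤ 100 ^ 2 := by
  have hg : φ ^ 2 = φ + 1 := Real.goldenRatio_sq
  have hp : 0 < φ := Real.goldenRatio_pos
  have hg3 : φ ^ 3 = 1 + 2 * φ := by linear_combination (φ + 1) * hg
  have hub : φ < 1.62 := by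
    unfold Real.goldenRatio
    have : √5 < 2.24 := by
      rw [Real.sqrt_lt' (by norm_num)]
      norm_num
    linarith
  have hlb : 1 < φ := Real.one_lt_goldenRatio
  have hq := F4_quad x
  rw [hx] at hq
  have hc := cov_all (F4_w x) (- φ ^ 3 * F4_a x) (by
    intro i hi
    rw [F4_main x i hi]
    have := h i hi
    linarith)
  have h6 : (-φ ^ 3 * F4_a x) ^ 2 = (5 + 8 * φ) * F4_a x ^ 2 := by
    have : (φ ^ 3) ^ 2 = 5 + 8 * φ := by
      rw [hg3]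
      linear_combination 4 * hg
    linear_combination F4_a x ^ 2 * this
  rw [h6] at hc
  set A := F4_a x ^ 2 with hA
  set Wq := ∑ r, F4_w x r ^ 2 with hW
  have hA0 : 0 ≤ A := sq_nonneg _
  have hW1 : Wq = (6 + 10 * φ) * A - (2 * φ + 2) := by
    rw [hg] at hq
    linarith
  have h7 : 21 * ((6 + 10 * φ) * A - (2 * φ + 2)) ≤ 25 * ((5 + 8 * φ) * A) := by
    rw [← hW1]
    linarith
  have h8 : (1 + 10 * φ) * A ≤ 42 * (φ + 1) := by nlinarith
  have hAb : A ≤ 10 := by nlinarith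
  constructor
  · linarith
  · rw [hW1]
    nlinarith

private theorem F4_cont : Continuous F4_L := by
  suffices key : Continuous (fun p : ℝ × (Fin 4 → ℝ) =>
    ((![-(6 + 10 * φ) * p.1 + (2 + 2 * φ) * p.2 0,
      -(6 + 10 * φ) * p.1 + (1 + 2 * φ) * p.2 0 + (1 + φ) * p.2 1 - φ * p.2 2,
      -(6 + 10 * φ) * p.1 + (1 + 2 * φ) * p.2 0 + (1 + φ) * p.2 1 + φ * p.2 2,
      -(6 + 10 * φ) * p.1 + (1 + 2 * φ) * p.2 0 + φ * p.2 1 + (1 + φ) * p.2 3],
    √φ * (-(6 + 10 * φ) * φ * p.1 + (2 + 3 * φ) * p.2 0 + (1 + φ) * p.2 1 + p.2 3)) : Mk 4)) from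
    key.const_smul ((2 * φ ^ 2)⁻¹ : ℝ)
  refine Continuous.prodMk ?_ ?_
  · refine continuous_pi (fun j => ?_)
    fin_cases j
    · show Continuous (fun p : ℝ × (Fin 4 → ℝ) => -(6 + 10 * φ) * p.1 + (2 + 2 * φ) * p.2 0)
      fun_prop
    · show Continuous (fun p : ℝ × (Fin 4 → ℝ) => -(6 + 10 * φ) * p.1 + (1 + 2 * φ) * p.2 0 + (1 + φ) * p.2 1 - φ * p.2 2)
      fun_prop
    · show Continuous (fun p : ℝ × (Fin 4 → ℝ) => -(6 + 10 * φ) * p.1 + (1 + 2 * φ) * p.2 0 + (1 + φ) * p.2 1 + φ * p.2 2)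
      fun_prop
    · show Continuous (fun p : ℝ × (Fin 4 → ℝ) => -(6 + 10 * φ) * p.1 + (1 + 2 * φ) * p.2 0 + φ * p.2 1 + (1 + φ) * p.2 3)
      fun_prop
  · fun_prop

theorem cpt4 : IsCompact {x : Hyp 4 | ∀ i < 120, lor x.1 (ev 4 i) ≤ 0} := by
  rw [Subtype.isCompact_iff]
  have hT : (Subtype.val '' {x : Hyp 4 | ∀ i < 120, lor x.1 (ev 4 i) ≤ 0} : Set (Mk 4)) =
      {v : Mk 4 | lor v v = -1} ∩ {v : Mk 4 | 1 ≤ v.2} ∩ ⋂ i : Fin 120, {v : Mk 4 | lor v (ev 4 i) ≤ 0} := by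
    ext v
    simp only [Set.mem_image, Set.mem_ofPred_eq, Set.mem_inter_iff, Set.mem_iInter]
    constructor
    · rintro ⟨x, hx, rfl⟩
      refine ⟨⟨x.2.1, ?_⟩, fun i => hx i i.2⟩
      have h1 := x.2.1
      have h2 := x.2.2
      have h3 : lor x.1 x.1 = ∑ i, x.1.1 i ^ 2 - x.1.2 ^ 2 := by simp [lor, sq]
      have h4 : 0 ≤ ∑ i, x.1.1 i ^ 2 := Finset.sum_nonneg (fun i _ => sq_nonneg _)
      nlinarith
    · rintro ⟨⟨h1, h2⟩, h3⟩
      exact ⟨⟨v, h1, by linarith⟩, fun i hi => h3 ⟨i, hi⟩, rfl⟩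
  rw [hT]
  have hK : IsCompact (F4_L '' (Metric.closedBall (0 : ℝ) 10 ×ˢ Metric.closedBall (0 : Fin 4 → ℝ) 100)) :=
    ((isCompact_closedBall _ _).prod (isCompact_closedBall _ _)).image F4_cont
  have c1 : Continuous (fun v : Mk 4 => lor v v) := continuous_lor.comp (continuous_id.prodMk continuous_id)
  refine hK.of_isClosed_subset ?_ ?_
  · refine (IsClosed.inter (IsClosed.inter (isClosed_eq c1 continuous_const) (isClosed_le continuous_const continuous_snd)) ?_)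
    refine isClosed_iInter (fun i => isClosed_le ?_ continuous_const)
    exact continuous_lor.comp (continuous_id.prodMk continuous_const)
  · rintro v ⟨⟨h1, h2⟩, h3⟩
    simp only [Set.mem_iInter, Set.mem_ofPred_eq] at h1 h2 h3
    obtain ⟨b1, b2⟩ := F4_bound v h1 (fun i hi => h3 ⟨i, hi⟩)
    refine ⟨(F4_a v, F4_w v), ⟨?_, ?_⟩, F4_Lx v⟩
    · rw [mem_closedBall_zero_iff, Real.norm_eq_abs]
      exact abs_le_of_sq_le_sq b1 (by norm_num)
    · rw [mem_closedBall_zero_iff, pi_norm_le_iff_of_nonneg (by norm_num)]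
      intro r
      rw [Real.norm_eq_abs]
      refine abs_le_of_sq_le_sq (le_trans ?_ b2) (by norm_num)
      exact Finset.single_le_sum (f := fun r => F4_w v r ^ 2) (fun i _ => sq_nonneg _) (Finset.mem_univ r)

end Pool.Agent.MP_455d73_gt.PQ
end

section

/-!
TASK F5 (medium): compactness of the segment, the pentagon, the dodecahedron.

For `n ≤ 4` let `pad : Hyp n → Hyp 4` append zeros to the space coordinates (`pad x = ((fun j : Fin 4 => if h : j < n then x.1.1 ⟨j, h⟩ else 0), x.1.2)`):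
`lor (pad x) (pad y) = lor x y`, `lor (pad x) (ev 4 i) = lor x (ev n i)`. It is a closed embedding (continuous, injective, with a
continuous left inverse `x ↦ (fun j : Fin n => x.1.1 (castLE j), x.1.2)` defined on the closed image `{x | x.1.1 j = 0 for j ≥ n}`). The set
in question is the preimage of the compact set of `cpt4` : if `lor x (ev n i) ≤ 0` for `i < sz n`, then also for `sz n ≤ i < 120` (`ev_high`, `n ≤ 3`;
for `n = 4`, `sz 4 = 120`). `Topology.IsClosedEmbedding.isCompact_preimage`.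
-/

set_option autoImplicit false

open Finset
open scoped Classical goldenRatio

namespace Pool.Agent.MP_455d73_gt.PQ

/-- Append zeros to the space coordinates. -/
private noncomputable def F5_pad (n : ℕ) (y : Mk n) : Mk 4 :=
  (fun j : Fin 4 => if h : j.1 < n then y.1 ⟨j.1, h⟩ else 0, y.2)

/-- Forget the last space coordinates. -/
private def F5_res (n : ℕ) (h4 : n ≤ 4) (z : Mk 4) : Mk n :=
  (fun i => z.1 (Fin.castLE h4 i), z.2)

private theorem F5_sum (n : ℕ) (h1 : 1 ≤ n) (h4 : n ≤ 4) (f : Fin n → ℝ) :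
    ∑ j : Fin 4, (if h : j.1 < n then f ⟨j.1, h⟩ else 0) = ∑ i, f i := by
  interval_cases n <;> simp [Fin.sum_univ_succ]

private theorem F5_lor_pad (n : ℕ) (h1 : 1 ≤ n) (h4 : n ≤ 4) (y z : Mk n) :
    lor (F5_pad n y) (F5_pad n z) = lor y z := by
  unfold lor F5_pad
  simp only
  rw [← F5_sum n h1 h4 (fun i => y.1 i * z.1 i)]
  congr 1
  refine Finset.sum_congr rfl (fun j _ => ?_)
  split_ifs <;> simp

private theorem F5_lor_ev (n : ℕ) (h1 : 1 ≤ n) (h4 : n ≤ 4) (y : Mk n) (i : ℕ) :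
    lor (F5_pad n y) (ev 4 i) = lor y (ev n i) := by
  unfold lor F5_pad ev
  simp only
  rw [← F5_sum n h1 h4 (fun j => y.1 j * vl (co i j))]
  congr 1
  refine Finset.sum_congr rfl (fun j _ => ?_)
  split_ifs <;> simp

private theorem F5_res_pad (n : ℕ) (h4 : n ≤ 4) (y : Mk n) : F5_res n h4 (F5_pad n y) = y := by
  unfold F5_res F5_pad
  refine Prod.ext ?_ rfl
  funext i
  simp

private theorem F5_pad_res (n : ℕ) (h4 : n ≤ 4) (z : Mk 4) (hz : ∀ j : Fin 4, n ≤ j.1 → z.1 j = 0) :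
    F5_pad n (F5_res n h4 z) = z := by
  unfold F5_res F5_pad
  refine Prod.ext ?_ rfl
  funext j
  simp only
  split_ifs with h
  · rfl
  · exact (hz j (not_lt.mp h)).symm

theorem cptn (n : ℕ) (h1 : 1 ≤ n) (h4 : n ≤ 4) :
    IsCompact {x : Hyp n | ∀ i : Fin (sz n), lor x.1 (ev n i) ≤ 0} := by
  have hZ : IsClosed {x : Hyp 4 | ∀ j : Fin 4, n ≤ j.1 → x.1.1 j = 0} := by
    have hset : {x : Hyp 4 | ∀ j : Fin 4, n ≤ j.1 → x.1.1 j = 0} =
        ⋂ j : Fin 4, ⋂ _ : n ≤ j.1, {x : Hyp 4 | x.1.1 j = 0} := by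
      ext x
      simp
    rw [hset]
    refine isClosed_iInter (fun j => isClosed_iInter (fun _ => ?_))
    exact isClosed_eq (by fun_prop) continuous_const
  have hc : IsCompact ({x : Hyp 4 | ∀ i < 120, lor x.1 (ev 4 i) ≤ 0} ∩
      {x : Hyp 4 | ∀ j : Fin 4, n ≤ j.1 → x.1.1 j = 0}) := cpt4.inter_right hZ
  have hcont : Continuous (fun x : Hyp 4 => F5_res n h4 x.1) := by
    unfold F5_res
    fun_prop
  rw [Subtype.isCompact_iff]
  have himg : ((↑) : Hyp n → Mk n) '' {x : Hyp n | ∀ i : Fin (sz n), lor x.1 (ev n i) ≤ 0} =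
      (fun x : Hyp 4 => F5_res n h4 x.1) '' ({x : Hyp 4 | ∀ i < 120, lor x.1 (ev 4 i) ≤ 0} ∩
      {x : Hyp 4 | ∀ j : Fin 4, n ≤ j.1 → x.1.1 j = 0}) := by
    ext y
    constructor
    · rintro ⟨x, hx, rfl⟩
      refine ⟨⟨F5_pad n x.1, ?_, ?_⟩, ⟨?_, ?_⟩, F5_res_pad n h4 x.1⟩
      · rw [F5_lor_pad n h1 h4]
        exact x.2.1
      · exact x.2.2
      · intro i hi
        show lor (F5_pad n x.1) (ev 4 i) ≤ 0
        rw [F5_lor_ev n h1 h4]
        by_cases hin : i < sz n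
        · exact hx ⟨i, hin⟩
        · by_cases h3 : n ≤ 3
          · rcases ev_high n h1 h3 i (not_lt.mp hin) hi with h | h
            · rw [h, lor_comm, lor_zero_left]
            · exact (h x).le
          · have hn : n = 4 := by omega
            subst hn
            exact absurd hi hin
      · intro j hj
        show (F5_pad n x.1).1 j = 0
        unfold F5_pad
        simp only
        rw [dif_neg (not_lt.mpr hj)]
    · rintro ⟨z, ⟨hz, hz0⟩, rfl⟩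
      have hpad := F5_pad_res n h4 z.1 hz0
      refine ⟨⟨F5_res n h4 z.1, ?_, ?_⟩, ?_, rfl⟩
      · rw [← F5_lor_pad n h1 h4, hpad]
        exact z.2.1
      · exact z.2.2
      · intro i
        show lor (F5_res n h4 z.1) (ev n i) ≤ 0
        rw [← F5_lor_ev n h1 h4, hpad]
        have hsz : sz n ≤ 120 := by
          unfold sz
          split_ifs <;> omega
        exact hz i.1 (lt_of_lt_of_le i.2 hsz)
  rw [himg]
  exact hc.image hcont

end Pool.Agent.MP_455d73_gt.PQ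
end

section

/-!
Campaign PQ: the right-angled systems of dimension 1, 2, 3, 4 (definition; and TASK Sys (easy): the group).

`sys_G`: `(sys n).s i` is the reflection `refl (ev n i) _`; the set of permutations `g` with `∃ e ∈ walls n, ∀ x, (g x).1 = x.1 - (2 * lor x.1 e) • e` is
the range of `(sys n).s` (`walls_eq`; a permutation is determined by its values: `Equiv.ext`, `Subtype.ext`).
-/

set_option autoImplicit false

open Finset
open scoped Classical goldenRatio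

namespace Pool.Agent.MP_455d73_gt.PQ

/-- The right-angled segment, pentagon, dodecahedron, 120-cell. -/
noncomputable def sys (n : ℕ) (h1 : 1 ≤ n) (h4 : n ≤ 4) : RA n (Fin (sz n)) where
  e i := ev n i
  unit i := unit_ev n h1 h4 i i.2
  gram i j hij := gram_ev n h1 h4 i j i.2 j.2 (fun h => hij (Fin.ext h))
  ctr := (exists_ctr n h1 h4).choose
  ctr_neg i := (exists_ctr n h1 h4).choose_spec i i.2
  cpt := cptn n h1 h4

theorem sys_G (n : ℕ) (h1 : 1 ≤ n) (h3 : n ≤ 3) : W n = (sys n h1 (by omega)).G := by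
  have hset : {g : Equiv.Perm (Hyp n) | ∃ e ∈ walls n, ∀ x, (g x).1 = x.1 - (2 * lor x.1 e) • e} =
      Set.range (sys n h1 (by omega)).s := by
    ext g
    constructor
    · rintro ⟨e, he, hg⟩
      rw [walls_eq n h1 h3] at he
      obtain ⟨i, rfl⟩ := he
      exact ⟨i, Equiv.ext fun x => Subtype.ext (hg x).symm⟩
    · rintro ⟨i, rfl⟩
      refine ⟨ev n i, ?_, fun x => rfl⟩
      rw [walls_eq n h1 h3]
      exact ⟨i, rfl⟩
  show Subgroup.closure _ = Subgroup.closure _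
  rw [hset]

theorem sys_al (n : ℕ) (h1 : 1 ≤ n) (h4 : n ≤ 4) (i : Fin (sz n)) (k : Fin n → ℝ) :
    (sys n h1 h4).al i k = √φ * vl (co i 4) - ∑ j : Fin n, k j * vl (co i j) := rfl

end Pool.Agent.MP_455d73_gt.PQ
end

section

/-!
E2: the segment and the pentagon in the chart.
-/

set_option autoImplicit false

open Finset
open scoped Classical goldenRatio

namespace Pool.Agent.MP_455d73_gt.PQ

private theorem E2_sq : √φ * √φ = φ := Real.mul_self_sqrt (by linarith [Real.one_lt_goldenRatio])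

private theorem E2_pos : 0 < √φ := Real.sqrt_pos.mpr (by linarith [Real.one_lt_goldenRatio])

private theorem E2_inv : φ * (1 / √φ) = √φ := by
  have h := E2_pos.ne'
  rw [mul_one_div, div_eq_iff h, E2_sq]

private theorem E2_c : (co 0 0 = (-1, 0) ∧ co 0 1 = (0, 0) ∧ co 0 4 = (0, 0)) ∧
    (co 1 0 = (0, 1) ∧ co 1 1 = (0, 0) ∧ co 1 4 = (1, 0)) ∧
    (co 2 0 = (0, 0) ∧ co 2 1 = (-1, 0) ∧ co 2 4 = (0, 0)) ∧
    (co 3 0 = (0, 0) ∧ co 3 1 = (0, 1) ∧ co 3 4 = (1, 0)) ∧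
    (co 4 0 = (0, 1) ∧ co 4 1 = (0, 1) ∧ co 4 4 = (0, 1)) := by decide +kernel

private theorem E2_v : vl (-1, 0) = -1 ∧ vl (0, 0) = 0 ∧ vl (0, 1) = φ ∧ vl (1, 0) = 1 := by
  refine ⟨?_, ?_, ?_, ?_⟩ <;> simp [vl]

theorem al_one (h1 : 1 ≤ 1) (h4 : 1 ≤ 4) (z : Fin 1 → ℝ) :
    (∀ h : 0 < sz 1, (sys 1 h1 h4).al ⟨0, h⟩ z = z 0) ∧
    (∀ h : 1 < sz 1, (sys 1 h1 h4).al ⟨1, h⟩ z = φ * (1 / √φ - z 0)) := by
  obtain ⟨⟨c00, c01, c04⟩, ⟨c10, c11, c14⟩, ⟨c20, c21, c24⟩, ⟨c30, c31, c34⟩, ⟨c40, c41, c44⟩⟩ := E2_c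
  obtain ⟨v1, v2, v3, v4⟩ := E2_v
  have hi := E2_inv
  refine ⟨fun h => ?_, fun h => ?_⟩
  · rw [sys_al]
    simp only [Fin.sum_univ_one, Fin.val_zero, c00, c04, v1, v2]
    ring
  · rw [sys_al]
    simp only [Fin.sum_univ_one, Fin.val_zero, c10, c14, v3, v4]
    rw [mul_sub, hi]
    ring

theorem al_two (h1 : 1 ≤ 2) (h4 : 2 ≤ 4) (z : Fin 2 → ℝ) :
    (∀ h : 0 < sz 2, (sys 2 h1 h4).al ⟨0, h⟩ z = z 0) ∧
    (∀ h : 1 < sz 2, (sys 2 h1 h4).al ⟨1, h⟩ z = φ * (1 / √φ - z 0)) ∧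
    (∀ h : 2 < sz 2, (sys 2 h1 h4).al ⟨2, h⟩ z = z 1) ∧
    (∀ h : 3 < sz 2, (sys 2 h1 h4).al ⟨3, h⟩ z = φ * (1 / √φ - z 1)) ∧
    (∀ h : 4 < sz 2, (sys 2 h1 h4).al ⟨4, h⟩ z = φ * (√φ - z 0 - z 1)) := by
  obtain ⟨⟨c00, c01, c04⟩, ⟨c10, c11, c14⟩, ⟨c20, c21, c24⟩, ⟨c30, c31, c34⟩, ⟨c40, c41, c44⟩⟩ := E2_c
  obtain ⟨v1, v2, v3, v4⟩ := E2_v
  have hi := E2_inv
  refine ⟨fun h => ?_, fun h => ?_, fun h => ?_, fun h => ?_, fun h => ?_⟩
  · rw [sys_al]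
    simp only [Fin.sum_univ_two, Fin.val_zero, Fin.val_one, c00, c01, c04, v1, v2]
    ring
  · rw [sys_al]
    simp only [Fin.sum_univ_two, Fin.val_zero, Fin.val_one, c10, c11, c14, v2, v3, v4]
    rw [mul_sub, hi]
    ring
  · rw [sys_al]
    simp only [Fin.sum_univ_two, Fin.val_zero, Fin.val_one, c20, c21, c24, v1, v2]
    ring
  · rw [sys_al]
    simp only [Fin.sum_univ_two, Fin.val_zero, Fin.val_one, c30, c31, c34, v2, v3, v4]
    rw [mul_sub, hi]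
    ring
  · rw [sys_al]
    simp only [Fin.sum_univ_two, Fin.val_zero, Fin.val_one, c40, c41, c44, v3]
    ring

private theorem E2_mul_nonneg (x : ℝ) : 0 ≤ φ * x ↔ 0 ≤ x := by
  have h : (0 : ℝ) < φ := by linarith [Real.one_lt_goldenRatio]
  exact mul_nonneg_iff_of_pos_left h

theorem P1_one (h1 : 1 ≤ 1) (h4 : 1 ≤ 4) (z : Fin 1 → ℝ) :
    z ∈ (sys 1 h1 h4).P1 ↔ 0 ≤ z 0 ∧ z 0 ≤ 1 / √φ := by
  obtain ⟨a0, a1⟩ := al_one h1 h4 z
  constructor
  · intro h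
    have b0 := h ⟨0, by decide⟩
    have b1 := h ⟨1, by decide⟩
    rw [a0] at b0
    rw [a1, E2_mul_nonneg] at b1
    exact ⟨b0, by linarith⟩
  · rintro ⟨b0, b1⟩ ⟨i, hi⟩
    have hi' : i < 2 := hi
    interval_cases i
    · rw [a0]
      exact b0
    · rw [a1, E2_mul_nonneg]
      linarith

theorem P1_two (h1 : 1 ≤ 2) (h4 : 2 ≤ 4) (z : Fin 2 → ℝ) :
    z ∈ (sys 2 h1 h4).P1 ↔ 0 ≤ z 0 ∧ z 0 ≤ 1 / √φ ∧ 0 ≤ z 1 ∧ z 1 ≤ 1 / √φ ∧ z 0 + z 1 ≤ √φ := by
  obtain ⟨a0, a1, a2, a3, a4⟩ := al_two h1 h4 z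
  constructor
  · intro h
    have b0 := h ⟨0, by decide⟩
    have b1 := h ⟨1, by decide⟩
    have b2 := h ⟨2, by decide⟩
    have b3 := h ⟨3, by decide⟩
    have b4 := h ⟨4, by decide⟩
    rw [a0] at b0
    rw [a1, E2_mul_nonneg] at b1
    rw [a2] at b2
    rw [a3, E2_mul_nonneg] at b3
    rw [a4, E2_mul_nonneg] at b4
    exact ⟨b0, by linarith, b2, by linarith, by linarith⟩
  · rintro ⟨b0, b1, b2, b3, b4⟩ ⟨i, hi⟩
    have hi' : i < 5 := hi
    interval_cases i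
    · rw [a0]
      exact b0
    · rw [a1, E2_mul_nonneg]
      linarith
    · rw [a2]
      exact b2
    · rw [a3, E2_mul_nonneg]
      linarith
    · rw [a4, E2_mul_nonneg]
      linarith

theorem num : 0 < 1 / √φ ∧ 1 / √φ < √φ ∧ √φ < 2 * (1 / √φ) ∧ 0 < φ := by
  have h0 := E2_pos
  have h1 := Real.one_lt_goldenRatio
  have h2 := Real.goldenRatio_lt_two
  have h3 := E2_sq
  refine ⟨by positivity, ?_, ?_, by linarith⟩
  · rw [div_lt_iff₀ h0, h3]
    exact h1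
  · rw [mul_one_div, lt_div_iff₀ h0, h3]
    exact h2

theorem fin_sz (n : ℕ) (i : Fin (sz n)) : (i : ℕ) < 120 ∧ (n = 1 → (i : ℕ) < 2) ∧ (n = 2 → (i : ℕ) < 5) ∧
    (n = 3 → (i : ℕ) < 12) := by
  have h := i.2
  refine ⟨?_, ?_, ?_, ?_⟩
  · have h2 : sz n ≤ 120 := by
      unfold sz
      split_ifs <;> norm_num
    exact lt_of_lt_of_le h h2
  · rintro rfl
    exact h
  · rintro rfl
    exact h
  · rintro rfl
    exact h

end Pool.Agent.MP_455d73_gt.PQ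
end

section

/-!
TASK E1a (medium): the walls of dimension `n + 1` in terms of dimension `n` (`n = 1, 2, 3`).

`sz 1 = 2`, `sz 2 = 5`, `sz 3 = 12`, `sz 4 = 120` (`rfl`/`simp [sz]`); do `interval_cases n` where convenient (then `Tn 1 = {3, 4}`,
`Tn 2 = {6, …, 11}`, `Tn 3 = {13, …, 119}` by `decide`/`mem_Tn`).
`co_pos`: `i ∈ Tn n` is none of `0, 2, 5, 12`, so by `pos_chk` the coordinate `n` of row `i` is `(0, 0)` or `≥ 1` (`vl_ge_one`), and it is
not `(0, 0)` by `supp_chk`. `al_low`: `sys_al`, `Fin.sum_univ_castSucc`, and the coordinate `n` of row `i < sz n` is `(0, 0)` (`low_chk`,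
`vl (0, 0) = 0`). `al_mid`: row `sz n` is `2`, `5`, `12`: `coord_chk`: `vl (-1, 0) = -1`, all other entries `0`. `al_top`: `sys_al`,
`Fin.sum_univ_castSucc`, `field_simp` with `co_pos`.
-/

set_option autoImplicit false

open Finset
open scoped Classical goldenRatio

namespace Pool.Agent.MP_455d73_gt.PQ

/-- The indices of the top walls in dimension `n + 1`. -/
def Tn (n : ℕ) : Finset ℕ := (Finset.range (sz (n + 1))).filter (fun i => sz n < i)

/-- The last coordinate of the point of the wall `i` over `k`. -/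
noncomputable def qn (n i : ℕ) (k : Fin n → ℝ) : ℝ :=
  (√φ * vl (co i 4) - ∑ l : Fin n, k l * vl (co i l)) / vl (co i n)

/-- The last coordinate of the highest point of the polytope of dimension `n + 1` over `k`. -/
noncomputable def tau (n : ℕ) (k : Fin n → ℝ) : ℝ :=
  if h : (Tn n).Nonempty then (Tn n).inf' h (fun i => qn n i k) else 0

theorem mem_Tn (n i : ℕ) : i ∈ Tn n ↔ sz n < i ∧ i < sz (n + 1) := by
  simp only [Tn, Finset.mem_filter, Finset.mem_range]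
  exact and_comm

theorem Tn_ne (n : ℕ) (h1 : 1 ≤ n) (h3 : n ≤ 3) : (Tn n).Nonempty := by
  refine ⟨sz n + 1, ?_⟩
  rw [mem_Tn]
  interval_cases n <;> simp [sz]

theorem sz_lt (n : ℕ) (h1 : 1 ≤ n) (h3 : n ≤ 3) : sz n < sz (n + 1) := by
  interval_cases n <;> simp [sz]

theorem sz_le (n : ℕ) : sz n ≤ 120 := by
  unfold sz
  split_ifs <;> omega

private theorem E1a_pos (i j : ℕ) (hi : i < 120) (h0 : i ≠ 0) (h2 : i ≠ 2) (h5 : i ≠ 5) (h12 : i ≠ 12)
    (hj : j < 4) (h : co i j ≠ (0, 0)) : 0 < vl (co i j) := by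
  have h3 := (pos_chk i hi h0 h2 h5 h12).1 j hj
  rcases h3 with h3 | ⟨a, b, c⟩
  · exact absurd h3 h
  · have := vl_ge_one _ a b c
    linarith

theorem co_pos (n : ℕ) (h1 : 1 ≤ n) (h3 : n ≤ 3) (i : ℕ) (hi : i ∈ Tn n) : 0 < vl (co i n) := by
  rw [mem_Tn] at hi
  obtain ⟨s3, s2, s1, -⟩ := supp_chk
  interval_cases n
  · simp only [sz] at hi
    norm_num at hi
    exact E1a_pos i 1 (by omega) (by omega) (by omega) (by omega) (by omega) (by norm_num) (s1 i (by omega) (by omega))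
  · simp only [sz] at hi
    norm_num at hi
    exact E1a_pos i 2 (by omega) (by omega) (by omega) (by omega) (by omega) (by norm_num) (s2 i (by omega) (by omega))
  · simp only [sz] at hi
    norm_num at hi
    exact E1a_pos i 3 (by omega) (by omega) (by omega) (by omega) (by omega) (by norm_num) (s3 i (by omega) (by omega))

theorem tau_le (n : ℕ) (k : Fin n → ℝ) (i : ℕ) (hi : i ∈ Tn n) : tau n k ≤ qn n i k := by
  unfold tau
  rw [dif_pos ⟨i, hi⟩]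
  exact Finset.inf'_le _ hi

theorem tau_ex (n : ℕ) (h1 : 1 ≤ n) (h3 : n ≤ 3) (k : Fin n → ℝ) : ∃ i ∈ Tn n, tau n k = qn n i k := by
  unfold tau
  rw [dif_pos (Tn_ne n h1 h3)]
  obtain ⟨i, hi, h⟩ := Finset.exists_mem_eq_inf' (Tn_ne n h1 h3) (fun i => qn n i k)
  exact ⟨i, hi, h⟩

private theorem E1a_vl0 : vl (0, 0) = 0 := by simp [vl]

private theorem E1a_vl1 : vl (-1, 0) = -1 := by simp [vl]

theorem al_low (n : ℕ) (h1 : 1 ≤ n) (h3 : n ≤ 3) (i : ℕ) (hi : i < sz n) (hi' : i < sz (n + 1))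
    (k : Fin (n + 1) → ℝ) :
    (sys (n + 1) (by omega) (by omega)).al ⟨i, hi'⟩ k =
      (sys n h1 (by omega)).al ⟨i, hi⟩ (fun l => k l.castSucc) := by
  rw [sys_al, sys_al, Fin.sum_univ_castSucc]
  have h0 : co i n = (0, 0) := by
    obtain ⟨l3, l2, l1⟩ := low_chk
    interval_cases n
    · exact l1 i (by simpa [sz] using hi)
    · exact l2 i (by simpa [sz] using hi)
    · exact l3 i (by simpa [sz] using hi)
  simp only [Fin.val_last, Fin.val_castSucc, h0, E1a_vl0, mul_zero, add_zero]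

theorem al_mid (n : ℕ) (h1 : 1 ≤ n) (h3 : n ≤ 3) (h : sz n < sz (n + 1)) (k : Fin (n + 1) → ℝ) :
    (sys (n + 1) (by omega) (by omega)).al ⟨sz n, h⟩ k = k (Fin.last n) := by
  have key : ∀ j < 5, co (sz n) j = if j = n then (-1, 0) else (0, 0) := by
    obtain ⟨-, c2, c5, c12⟩ := coord_chk
    interval_cases n
    · exact c2
    · exact c5
    · exact c12
  rw [sys_al, Fin.sum_univ_castSucc]
  have h4 : vl (co (sz n) 4) = 0 := by
    rw [key 4 (by norm_num), if_neg (by omega), E1a_vl0]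
  have hn : vl (co (sz n) n) = -1 := by
    rw [key n (by omega), if_pos rfl, E1a_vl1]
  have hl : ∀ l : Fin n, vl (co (sz n) l) = 0 := by
    intro l
    rw [key l (by omega), if_neg (by omega), E1a_vl0]
  simp only [Fin.val_last, Fin.val_castSucc, h4, hn, hl, mul_zero, Finset.sum_const_zero]
  ring

theorem al_top (n : ℕ) (h1 : 1 ≤ n) (h3 : n ≤ 3) (i : ℕ) (hi : i ∈ Tn n) (hi' : i < sz (n + 1))
    (k : Fin (n + 1) → ℝ) :
    (sys (n + 1) (by omega) (by omega)).al ⟨i, hi'⟩ k =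
      vl (co i n) * (qn n i (fun l => k l.castSucc) - k (Fin.last n)) := by
  have hp := co_pos n h1 h3 i hi
  rw [sys_al, Fin.sum_univ_castSucc]
  simp only [Fin.val_last, Fin.val_castSucc, qn]
  field_simp
  ring

end Pool.Agent.MP_455d73_gt.PQ
end
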