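import Pool.Agent.Lib.MP_455d73_gt.PQ.Chart
import Pool.Agent.Lib.MP_455d73_gt.Mg.G029

section

/-!
TASK B0 (easy): the outer half-spaces of two walls with `lor ≤ -1` are disjoint; walls through a common point.

`disj`. Put `c = e i + e j`. Then `lor c c = 2 + 2 * lor (e i) (e j) ≤ 0` and `lor ctr c < 0` (sum of two negative numbers).
If `0 < c.2`: `lor_neg_of_causal x c` (with `lor x x = -1 < 0`, `0 < x.2`) gives the claim. If `c.2 < 0`: apply
`lor_neg_of_causal` to `ctr` and `-c`: `lor ctr (-c) < 0`, so `0 < lor ctr c`, a contradiction. If `c.2 = 0`: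
`lor c c = ∑ c.1 i ^ 2 ≤ 0`, so `c.1 = 0`, `c = 0`, `lor ctr c = 0`, a contradiction.

`orth_of_common`. By `R.gram`, `lor = 0` or `≤ -1`; the second is impossible by `disj` (the sum would be `0`).

`orth_of_act`: the same in the chart: `k ∈ P1` with `∑ k j ^ 2 < 1` and `i, j ∈ act k`, `i ≠ j`: use the point `up k`;
`lor (up k) (e i) = - (√(1 - ∑ k j ^ 2))⁻¹ * al i k` (unfold `up` with `dif_pos`, `lor_smul_left`).
-/

set_option autoImplicit false

open Finset
open scoped Classical

namespace Pool.Agent.MP_455d73_gt.PQ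

variable {n : ℕ} {I : Type}

theorem RA.disj (R : RA n I) (i j : I) (h : lor (R.e i) (R.e j) ≤ -1) (x : Hyp n) :
    lor x.1 (R.e i) + lor x.1 (R.e j) < 0 := by
  have hcc : lor (R.e i + R.e j) (R.e i + R.e j) ≤ 0 := by
    rw [lor_add_left, lor_add_right, lor_add_right, R.unit i, R.unit j, lor_comm (R.e j) (R.e i)]
    linarith
  have hctr : lor R.ctr.1 (R.e i + R.e j) < 0 := by
    rw [lor_add_right]
    have h1 := R.ctr_neg i
    have h2 := R.ctr_neg j
    linarith
  rw [← lor_add_right]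
  rcases lt_trichotomy 0 (R.e i + R.e j).2 with h0 | h0 | h0
  · exact lor_neg_of_causal x.1 _ (by rw [x.2.1]; norm_num) x.2.2 hcc h0
  · exfalso
    have h3 : lor (R.e i + R.e j) (R.e i + R.e j) = ∑ k, (R.e i + R.e j).1 k ^ 2 := by
      simp only [lor, ← h0, mul_zero, sub_zero, sq]
    rw [h3] at hcc
    have h4 : ∀ k, (R.e i + R.e j).1 k = 0 := by
      intro k
      have h5 : (R.e i + R.e j).1 k ^ 2 ≤ ∑ k, (R.e i + R.e j).1 k ^ 2 :=
        Finset.single_le_sum (f := fun k => (R.e i + R.e j).1 k ^ 2)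
          (fun k _ => sq_nonneg _) (Finset.mem_univ k)
      have h6 : (R.e i + R.e j).1 k ^ 2 ≤ 0 := h5.trans hcc
      exact pow_eq_zero_iff (two_ne_zero) |>.1 (le_antisymm h6 (sq_nonneg _))
    have h7 : lor R.ctr.1 (R.e i + R.e j) = 0 := by
      unfold lor
      rw [← h0, mul_zero, sub_zero]
      refine Finset.sum_eq_zero fun k _ => ?_
      rw [h4 k, mul_zero]
    linarith
  · exfalso
    have h1 := lor_neg_of_causal R.ctr.1 (-(R.e i + R.e j)) (by rw [R.ctr.2.1]; norm_num)
      R.ctr.2.2 (by rw [lor_neg_left, lor_neg_right, neg_neg]; exact hcc)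
      (by rw [Prod.snd_neg]; linarith)
    rw [lor_neg_right] at h1
    linarith

theorem RA.orth_of_common (R : RA n I) (i j : I) (hij : i ≠ j) (x : Hyp n)
    (hi : lor x.1 (R.e i) = 0) (hj : lor x.1 (R.e j) = 0) : lor (R.e i) (R.e j) = 0 := by
  rcases R.gram i j hij with h | h
  · exact h
  · have h1 := R.disj i j h x
    rw [hi, hj] at h1
    norm_num at h1

theorem lor_up (R : RA n I) (i : I) (k : Fin n → ℝ) (hk : ∑ j, k j ^ 2 < 1) :
    lor (up k).1 (R.e i) = - ((√(1 - ∑ j, k j ^ 2))⁻¹ * R.al i k) := by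
  unfold up
  rw [dif_pos hk]
  simp only
  rw [lor_smul_left]
  unfold lor RA.al
  simp only
  ring

theorem RA.orth_of_act (R : RA n I) (i j : I) (hij : i ≠ j) (k : Fin n → ℝ) (hk : ∑ j, k j ^ 2 < 1)
    (hi : R.al i k = 0) (hj : R.al j k = 0) : lor (R.e i) (R.e j) = 0 := by
  refine R.orth_of_common i j hij (up k) ?_ ?_
  · rw [lor_up R i k hk, hi]
    simp
  · rw [lor_up R j k hk, hj]
    simp

end Pool.Agent.MP_455d73_gt.PQ
end

section

/-!
Campaign PQ: definitions for products (no task).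
-/

set_option autoImplicit false

open Finset
open scoped Classical

namespace Pool.Agent.MP_455d73_gt.PQ

variable {n a b : ℕ} {I Ia Ib Sa Sb : Type}

/-- The involutions of a product given by a map of the walls to the disjoint union of two sets of walls. -/
def comb (κ : I → Ia ⊕ Ib) (σa : Ia → Equiv.Perm Sa) (σb : Ib → Equiv.Perm Sb) (i : I) :
    Equiv.Perm (Sa × Sb) :=
  match κ i with
  | Sum.inl j => (σa j).prodCongr (Equiv.refl Sb)
  | Sum.inr j => (Equiv.refl Sa).prodCongr (σb j)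

/-- A piecewise affine splitting of the polytope of `R` as the product of those of `Ra` and `Rb`. -/
structure Split (R : RA n I) (Ra : RA a Ia) (Rb : RA b Ib) where
  κ : I → Ia ⊕ Ib
  f : (Fin n → ℝ) → (Fin a ⊕ Fin b → ℝ)
  g : (Fin a ⊕ Fin b → ℝ) → (Fin n → ℝ)
  fPA : PA R.P1 f
  gPA : PA (prodSet Ra.P1 Rb.P1) g
  gf : ∀ k ∈ R.P1, f k ∈ prodSet Ra.P1 Rb.P1 ∧ g (f k) = k
  fg : ∀ z ∈ prodSet Ra.P1 Rb.P1, g z ∈ R.P1 ∧ f (g z) = z
  actL : ∀ k ∈ R.P1, ∀ j, Ra.al j (fun x => f k (Sum.inl x)) = 0 ↔ ∃ i, κ i = Sum.inl j ∧ R.al i k = 0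
  actR : ∀ k ∈ R.P1, ∀ j, Rb.al j (fun x => f k (Sum.inr x)) = 0 ↔ ∃ i, κ i = Sum.inr j ∧ R.al i k = 0
  comL : ∀ i i' j j', κ i = Sum.inl j → κ i' = Sum.inl j' → lor (R.e i) (R.e i') = 0 →
    j = j' ∨ lor (Ra.e j) (Ra.e j') = 0
  comR : ∀ i i' j j', κ i = Sum.inr j → κ i' = Sum.inr j' → lor (R.e i) (R.e i') = 0 →
    j = j' ∨ lor (Rb.e j) (Rb.e j') = 0
  surj : ∀ j, ∃ i, κ i = j

end Pool.Agent.MP_455d73_gt.PQ
end

section

/-!
TASK Eswap (easy): exchange of the factors of a splitting.

Compose `κ` with `Sum.swap`, `f` and `g` with the coordinate exchange `z ↦ fun x => z (Sum.swap x)` (affine: `PA_iff` and coordinates, or `PA.affine`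
with `AffineMap`; `PA.comp`). `prodSet Rb.P1 Ra.P1` corresponds to `prodSet Ra.P1 Rb.P1`.
-/

set_option autoImplicit false

open Finset
open scoped Classical goldenRatio

namespace Pool.Agent.MP_455d73_gt.PQ

variable {n a b : ℕ} {I Ia Ib : Type}

/-- The exchange of the coordinates. -/
private noncomputable def Eswap_A (a b : ℕ) : (Fin a ⊕ Fin b → ℝ) →ᵃ[ℝ] (Fin b ⊕ Fin a → ℝ) :=
  (LinearMap.funLeft ℝ ℝ (Sum.swap : Fin b ⊕ Fin a → Fin a ⊕ Fin b)).toAffineMap

private theorem Eswap_A_apply (a b : ℕ) (z : Fin a ⊕ Fin b → ℝ) :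
    Eswap_A a b z = fun x => z (Sum.swap x) := rfl

private theorem Eswap_inr {α β : Type} (x : α ⊕ β) (j : β) (h : x.swap = Sum.inl j) :
    x = Sum.inr j := by
  rcases x with x | x
  · simp at h
  · simp only [Sum.swap_inr, Sum.inl.injEq] at h
    rw [h]

private theorem Eswap_inl {α β : Type} (x : α ⊕ β) (j : α) (h : x.swap = Sum.inr j) :
    x = Sum.inl j := by
  rcases x with x | x
  · simp only [Sum.swap_inl, Sum.inr.injEq] at h
    rw [h]
  · simp at h

theorem Split.swap {R : RA n I} {Ra : RA a Ia} {Rb : RA b Ib} (T : Split R Ra Rb) :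
    Nonempty (Split R Rb Ra) := by
  have hswap : ∀ (c d : ℕ) (z : Fin c ⊕ Fin d → ℝ),
      (fun x => (fun y : Fin d ⊕ Fin c => z (Sum.swap y)) (Sum.swap x)) = z := by
    intro c d z
    funext x
    simp
  refine ⟨{ κ := fun i => (T.κ i).swap
            f := fun k x => T.f k (Sum.swap x)
            g := fun z => T.g (fun x => z (Sum.swap x))
            fPA := ?_
            gPA := ?_
            gf := ?_
            fg := ?_
            actL := ?_
            actR := ?_
            comL := ?_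
            comR := ?_
            surj := ?_ }⟩
  · exact T.fPA.comp (PA.affine Set.univ (Eswap_A a b)) (fun x _ => Set.mem_univ _)
  · exact (PA.affine (prodSet Rb.P1 Ra.P1) (Eswap_A b a)).comp T.gPA (fun x hx => ⟨hx.2, hx.1⟩)
  · intro k hk
    obtain ⟨h1, h2⟩ := T.gf k hk
    refine ⟨⟨h1.2, h1.1⟩, ?_⟩
    show T.g (fun x => (fun y : Fin b ⊕ Fin a => T.f k (Sum.swap y)) (Sum.swap x)) = k
    rw [hswap a b (T.f k)]
    exact h2
  · intro z hz
    obtain ⟨h1, h2⟩ := T.fg (fun x => z (Sum.swap x)) ⟨hz.2, hz.1⟩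
    refine ⟨h1, ?_⟩
    show (fun x => T.f (T.g (fun x => z (Sum.swap x))) (Sum.swap x)) = z
    rw [h2]
    exact hswap b a z
  · intro k hk j
    rw [show (fun x => T.f k (Sum.swap (Sum.inl x))) = fun x => T.f k (Sum.inr x) from rfl,
      T.actR k hk j]
    constructor
    · rintro ⟨i, hi, h⟩
      exact ⟨i, by rw [hi]; rfl, h⟩
    · rintro ⟨i, hi, h⟩
      exact ⟨i, Eswap_inr _ _ hi, h⟩
  · intro k hk j
    rw [show (fun x => T.f k (Sum.swap (Sum.inr x))) = fun x => T.f k (Sum.inl x) from rfl,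
      T.actL k hk j]
    constructor
    · rintro ⟨i, hi, h⟩
      exact ⟨i, by rw [hi]; rfl, h⟩
    · rintro ⟨i, hi, h⟩
      exact ⟨i, Eswap_inl _ _ hi, h⟩
  · intro i i' j j' hi hi' h
    exact T.comR i i' j j' (Eswap_inr _ _ hi) (Eswap_inr _ _ hi') h
  · intro i i' j j' hi hi' h
    exact T.comL i i' j j' (Eswap_inl _ _ hi) (Eswap_inl _ _ hi') h
  · intro j
    obtain ⟨i, hi⟩ := T.surj j.swap
    refine ⟨i, ?_⟩
    show (T.κ i).swap = j
    rw [hi]
    exact Sum.swap_swap j

end Pool.Agent.MP_455d73_gt.PQ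
end

section

/-!
TASK B2a (medium): near a point `p` of the polytope, the images of the polytope under finitely many elements of the group
which fix `p` cover a neighbourhood.

Prove the following by induction on the finset `B` of walls through `p` (`lor p e_i = 0` for `i ∈ B`): for every
neighbourhood `N` of `p` there are a finset `T` of elements of `R.G` fixing `p` and a neighbourhood `N'` of `p` such that for every
`z ∈ N'` there is `g ∈ T` with `g z ∈ N` and `lor (g z) e_i ≤ 0` for all `i ∈ B`.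
`B = ∅`: `T = {1}`. Step `insert j B`: `R.s j` fixes `p` and is continuous, so `N₁ = N ∩ (R.s j)⁻¹' N` is a neighbourhood of `p`;
take `T₁`, `N'` for `(B, N₁)` and `T = T₁ ∪ T₁.image (R.s j * ·)`. For `z ∈ N'` take `g ∈ T₁`; if `lor (g z) e_j ≤ 0` use `g`,
otherwise `R.s j * g`: `lor (R.s j (g z)) e_j = - lor (g z) e_j < 0`, and for `i ∈ B`, `i ≠ j`, `lor (R.s j y) e_i = lor y e_i`
since `lor e_i e_j = 0` (`RA.orth_of_common`, both walls contain `p`).
Apply this to `B` = all walls through `p` (`I` is finite) and `N` = the points `z` with `lor z e_i < 0` for the walls `i` not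
through `p` (a neighbourhood of `p`: finite intersection of open sets).
Also `s_cont`: the elements of `R.G` are continuous (`Subgroup.closure_induction`; the inverse of `R.s i` is `R.s i`), and
`mem_isom`: they are isometries (`lor_reflFun`).
-/

set_option autoImplicit false

open Finset
open scoped Classical

namespace Pool.Agent.MP_455d73_gt.PQ

variable {n : ℕ} {I : Type}

private theorem B2a_s_cont (R : RA n I) (i : I) : Continuous (R.s i) := by
  refine Continuous.subtype_mk ?_ _
  show Continuous (fun x : Hyp n => x.1 - (2 * lor x.1 (R.e i)) • R.e i)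
  have h : Continuous (fun x : Hyp n => lor x.1 (R.e i)) :=
    continuous_lor.comp (continuous_subtype_val.prodMk continuous_const)
  exact continuous_subtype_val.sub ((continuous_const.mul h).smul continuous_const)

private theorem B2a_s_sq (R : RA n I) (i : I) : R.s i * R.s i = 1 := by
  refine Equiv.ext fun x => Subtype.ext ?_
  exact reflFun_reflFun (R.e i) (R.unit i) x.1

private theorem B2a_s_inv (R : RA n I) (i : I) : (R.s i)⁻¹ = R.s i :=
  inv_eq_of_mul_eq_one_left (B2a_s_sq R i)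

theorem RA.G_cont (R : RA n I) (g : Equiv.Perm (Hyp n)) (hg : g ∈ R.G) : Continuous g := by
  have key : Continuous g ∧ Continuous (g⁻¹ : Equiv.Perm (Hyp n)) := by
    unfold RA.G at hg
    induction hg using Subgroup.closure_induction with
    | mem x hx =>
      obtain ⟨i, rfl⟩ := hx
      refine ⟨B2a_s_cont R i, ?_⟩
      rw [B2a_s_inv]
      exact B2a_s_cont R i
    | one =>
      refine ⟨continuous_id, ?_⟩
      rw [inv_one]
      exact continuous_id
    | mul x y _ _ hx hy =>
      refine ⟨hx.1.comp hy.1, ?_⟩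
      rw [mul_inv_rev]
      exact hy.2.comp hx.2
    | inv x _ hx =>
      refine ⟨hx.2, ?_⟩
      rw [inv_inv]
      exact hx.1
  exact key.1

theorem RA.G_isom (R : RA n I) : R.G ≤ Isom n := by
  unfold RA.G
  rw [Subgroup.closure_le]
  rintro _ ⟨i, rfl⟩ x y
  exact lor_reflFun (R.e i) (R.unit i) x.1 y.1

private theorem B2a_aux (R : RA n I) (p : Hyp n) (B : Finset I)
    (hB : ∀ i ∈ B, lor p.1 (R.e i) = 0) : ∀ N ∈ nhds p,
    ∃ T : Finset (Equiv.Perm (Hyp n)), (∀ g ∈ T, g ∈ R.G ∧ g p = p) ∧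
      ∀ᶠ z in nhds p, ∃ g ∈ T, g z ∈ N ∧ ∀ i ∈ B, lor (g z).1 (R.e i) ≤ 0 := by
  induction B using Finset.induction_on with
  | empty =>
    intro N hN
    refine ⟨{1}, ?_, ?_⟩
    · intro g hg
      rw [Finset.mem_singleton] at hg
      subst hg
      exact ⟨R.G.one_mem, rfl⟩
    · filter_upwards [hN] with z hz
      exact ⟨1, Finset.mem_singleton_self _, hz, fun i hi => absurd hi (Finset.notMem_empty i)⟩
  | insert j B hj ih =>
    intro N hN
    have hpj : lor p.1 (R.e j) = 0 := hB j (Finset.mem_insert_self j B)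
    have hBB : ∀ i ∈ B, lor p.1 (R.e i) = 0 := fun i hi => hB i (Finset.mem_insert_of_mem hi)
    have hsj : R.s j p = p := by
      apply Subtype.ext
      show p.1 - (2 * lor p.1 (R.e j)) • R.e j = p.1
      rw [hpj, mul_zero, zero_smul, sub_zero]
    have hN1 : (N ∩ (R.s j) ⁻¹' N) ∈ nhds p := by
      refine Filter.inter_mem hN ?_
      have hc : ContinuousAt (R.s j) p := (B2a_s_cont R j).continuousAt
      apply hc.preimage_mem_nhds
      rw [hsj]
      exact hN
    obtain ⟨T, hT, hz⟩ := ih hBB _ hN1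
    refine ⟨T ∪ T.image (fun g => R.s j * g), ?_, ?_⟩
    · intro g hg
      rw [Finset.mem_union, Finset.mem_image] at hg
      rcases hg with hg | ⟨g', hg', rfl⟩
      · exact hT g hg
      · refine ⟨R.G.mul_mem (Subgroup.subset_closure ⟨j, rfl⟩) (hT g' hg').1, ?_⟩
        rw [Equiv.Perm.mul_apply, (hT g' hg').2, hsj]
    · filter_upwards [hz] with z hz
      obtain ⟨g, hg, hgN, hgB⟩ := hz
      by_cases hle : lor (g z).1 (R.e j) ≤ 0
      · refine ⟨g, Finset.mem_union_left _ hg, hgN.1, ?_⟩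
        intro i hi
        rcases Finset.mem_insert.mp hi with rfl | hi
        · exact hle
        · exact hgB i hi
      · refine ⟨R.s j * g, Finset.mem_union_right _ (Finset.mem_image_of_mem _ hg), hgN.2, ?_⟩
        intro i hi
        have hval : ((R.s j * g) z).1 = (g z).1 - (2 * lor (g z).1 (R.e j)) • R.e j := rfl
        rw [hval, lor_sub_left, lor_smul_left]
        rcases Finset.mem_insert.mp hi with rfl | hi
        · rw [R.unit i]
          push Not at hle
          linarith
        · have hij : j ≠ i := fun h => hj (h ▸ hi)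
          have h0 : lor (R.e j) (R.e i) = 0 := R.orth_of_common j i hij p hpj (hBB i hi)
          rw [h0, mul_zero, sub_zero]
          exact hgB i hi

theorem RA.local_cover [Finite I] (R : RA n I) (p : Hyp n) (hp : p ∈ R.P) :
    ∃ T : Finset (Equiv.Perm (Hyp n)), (∀ g ∈ T, g ∈ R.G ∧ g p = p) ∧
      ∀ᶠ z in nhds p, ∃ g ∈ T, g z ∈ R.P := by
  cases nonempty_fintype I
  set B : Finset I := Finset.univ.filter (fun i => lor p.1 (R.e i) = 0) with hBdef
  have hN : {z : Hyp n | ∀ i, i ∉ B → lor z.1 (R.e i) < 0} ∈ nhds p := by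
    have h1 : {z : Hyp n | ∀ i, i ∉ B → lor z.1 (R.e i) < 0} =
        ⋂ i ∈ {i : I | i ∉ B}, {z : Hyp n | lor z.1 (R.e i) < 0} := by
      ext z
      simp only [Set.mem_ofPred_eq, Set.mem_iInter]
    rw [h1, Filter.biInter_mem (Set.toFinite _)]
    intro i hi
    have hlt : lor p.1 (R.e i) < 0 := by
      refine lt_of_le_of_ne (hp i) ?_
      intro h0
      apply hi
      rw [hBdef, Finset.mem_filter]
      exact ⟨Finset.mem_univ i, h0⟩
    have hc : Continuous (fun x : Hyp n => lor x.1 (R.e i)) :=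
      continuous_lor.comp (continuous_subtype_val.prodMk continuous_const)
    exact hc.continuousAt.preimage_mem_nhds (Iio_mem_nhds hlt)
  obtain ⟨T, hT, hz⟩ := B2a_aux R p B (fun i hi => (Finset.mem_filter.mp hi).2) _ hN
  refine ⟨T, hT, ?_⟩
  filter_upwards [hz] with z hz
  obtain ⟨g, hg, hgN, hgB⟩ := hz
  refine ⟨g, hg, fun i => ?_⟩
  by_cases hi : i ∈ B
  · exact hgB i hi
  · exact (hgN i hi).le

end Pool.Agent.MP_455d73_gt.PQ
end
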