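import Pool.Agent.Lib.MP_455d73_gt.Mg.G032
import Pool.Agent.Lib.MP_455d73_gt.Mg.G029

section

/-!
TASK M1 (medium): facts on the chart `kl` (Klein model) and the polytope in the chart.

`al_kl`: `∑ j, (x_j / t) e_j - e.2 = lor x e / t` with `t = x.1.2 > 0`. `kl_mem_P1`, `mem_act_kl` follow.
`kl_ball`: `lor x x = -1`. `kl_up`: unfold (`dif_pos`). `up_kl`: `1 - ∑ (x_j/t)^2 = 1 / t^2`. `continuousOn_up`: on the open ball `up`
is given by the formula (`ContinuousOn` of a subtype-valued map: `Topology.IsInducing.subtypeVal.continuousOn_iff`), the square root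
is positive there.
`P1_ball`: Suppose `k ∈ P1` and `1 ≤ ∑ k_j^2`. `k₀ = kl ctr ∈ P1` is in the open ball. For `s ∈ [0,1]` put `k_s = k₀ + s (k - k₀)`, in
`P1` (convex), `q(s) = ∑ (k_s)_j ^ 2`, continuous, `q(0) < 1 ≤ q(1)`. The times of the points of the compact set `R.P` are bounded by
some `M > 0`. For every `s ∈ [0,1]` with `q(s) < 1`, the point `up k_s` is in `R.P` (`kl_mem_P1`, `kl_up`) and has time
`(√(1 - q(s)))⁻¹ ≤ M`, so `1 - q(s) ≥ M⁻²`. So `q` takes no value in `(1 - M⁻², 1)` on `[0,1]`, which contradicts the intermediate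
value theorem.
`P1_compact`: closed (finite or arbitrary intersection of closed half-spaces) and bounded by `P1_ball`.
-/

set_option autoImplicit false

open Finset
open scoped Classical

namespace Pool.Agent.MP_455d73_gt.PQ

variable {n : ℕ} {I : Type}

theorem al_kl (R : RA n I) (i : I) (x : Hyp n) : R.al i (kl x) = - lor x.1 (R.e i) / x.1.2 := by
  have ht : x.1.2 ≠ 0 := x.2.2.ne'
  unfold RA.al kl lor
  have h1 : ∑ j, x.1.1 j / x.1.2 * (R.e i).1 j = (∑ j, x.1.1 j * (R.e i).1 j) / x.1.2 := by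
    rw [Finset.sum_div]
    refine Finset.sum_congr rfl fun j _ => ?_
    ring
  rw [h1]
  field_simp
  ring

theorem kl_mem_P1 (R : RA n I) (x : Hyp n) : kl x ∈ R.P1 ↔ x ∈ R.P := by
  have ht : 0 < x.1.2 := x.2.2
  constructor
  · intro h i
    have h1 := h i
    rw [al_kl] at h1
    by_contra hc
    push Not at hc
    have : -lor x.1 (R.e i) / x.1.2 < 0 := div_neg_of_neg_of_pos (by linarith) ht
    linarith
  · intro h i
    have h1 : lor x.1 (R.e i) ≤ 0 := h i
    rw [al_kl]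
    exact div_nonneg (by linarith) ht.le

theorem mem_act_kl (R : RA n I) (x : Hyp n) (i : I) : i ∈ R.act (kl x) ↔ lor x.1 (R.e i) = 0 := by
  have ht : x.1.2 ≠ 0 := x.2.2.ne'
  change R.al i (kl x) = 0 ↔ lor x.1 (R.e i) = 0
  rw [al_kl, div_eq_zero_iff, neg_eq_zero]
  constructor
  · rintro (h | h)
    · exact h
    · exact absurd h ht
  · intro h
    exact Or.inl h

private theorem M1_sum_kl (x : Hyp n) : ∑ j, kl x j ^ 2 = 1 - 1 / x.1.2 ^ 2 := by
  have ht : x.1.2 ≠ 0 := x.2.2.ne'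
  have h1 : lor x.1 x.1 = ∑ j, x.1.1 j ^ 2 - x.1.2 ^ 2 := by
    simp [lor, sq]
  rw [x.2.1] at h1
  have h2 : ∑ j, x.1.1 j ^ 2 = x.1.2 ^ 2 - 1 := by linarith
  unfold kl
  have h3 : ∑ j, (x.1.1 j / x.1.2) ^ 2 = (∑ j, x.1.1 j ^ 2) / x.1.2 ^ 2 := by
    rw [Finset.sum_div]
    refine Finset.sum_congr rfl fun j _ => ?_
    rw [div_pow]
  rw [h3, h2]
  field_simp

private theorem M1_abs_le {a : ℝ} (h : a ^ 2 ≤ 1) : |a| ≤ 1 := by
  rw [← sq_abs] at h
  have h0 := abs_nonneg a
  nlinarith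

private theorem M1_al_comb (R : RA n I) (i : I) (k l : Fin n → ℝ) (a c : ℝ) (hac : a + c = 1) :
    R.al i (a • k + c • l) = a * R.al i k + c * R.al i l := by
  unfold RA.al
  have h1 : ∑ j, (a • k + c • l) j * (R.e i).1 j =
      a * ∑ j, k j * (R.e i).1 j + c * ∑ j, l j * (R.e i).1 j := by
    rw [Finset.mul_sum, Finset.mul_sum, ← Finset.sum_add_distrib]
    refine Finset.sum_congr rfl fun j _ => ?_
    simp only [Pi.add_apply, Pi.smul_apply, smul_eq_mul]
    ring
  rw [h1]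
  have h2 : (R.e i).2 = a * (R.e i).2 + c * (R.e i).2 := by
    rw [← add_mul, hac, one_mul]
  calc (R.e i).2 - (a * ∑ j, k j * (R.e i).1 j + c * ∑ j, l j * (R.e i).1 j)
      = (a * (R.e i).2 + c * (R.e i).2) -
        (a * ∑ j, k j * (R.e i).1 j + c * ∑ j, l j * (R.e i).1 j) := by rw [← h2]
    _ = _ := by ring

theorem kl_ball (x : Hyp n) : ∑ j, kl x j ^ 2 < 1 := by
  have ht : 0 < x.1.2 := x.2.2
  rw [M1_sum_kl]
  have : 0 < 1 / x.1.2 ^ 2 := by positivity
  linarith

theorem kl_up (k : Fin n → ℝ) (h : ∑ j, k j ^ 2 < 1) : kl (up k) = k := by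
  have h0 : 0 < 1 - ∑ j, k j ^ 2 := by linarith
  have h1 : 0 < √(1 - ∑ j, k j ^ 2) := Real.sqrt_pos.mpr h0
  funext j
  unfold kl up
  rw [dif_pos h]
  simp only [Prod.smul_fst, Prod.smul_snd, Pi.smul_apply, smul_eq_mul, mul_one]
  field_simp

theorem up_kl (x : Hyp n) : up (kl x) = x := by
  have ht : 0 < x.1.2 := x.2.2
  have hb := kl_ball x
  have hs := M1_sum_kl x
  apply Subtype.ext
  unfold up
  rw [dif_pos hb]
  have h1 : √(1 - ∑ j, kl x j ^ 2) = 1 / x.1.2 := by
    rw [hs, sub_sub_cancel]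
    rw [Real.sqrt_eq_iff_mul_self_eq (by positivity) (by positivity)]
    field_simp
  refine Prod.ext ?_ ?_
  · funext j
    simp only [Prod.smul_fst, Pi.smul_apply, smul_eq_mul, h1]
    unfold kl
    field_simp
  · simp only [Prod.smul_snd, smul_eq_mul, h1]
    field_simp

theorem continuous_kl : Continuous (kl : Hyp n → Fin n → ℝ) := by
  unfold kl
  refine continuous_pi fun j => ?_
  refine Continuous.div ?_ ?_ fun x => x.2.2.ne'
  · exact (continuous_apply j).comp (continuous_fst.comp continuous_subtype_val)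
  · exact continuous_snd.comp continuous_subtype_val

theorem continuousOn_up : ContinuousOn (up : (Fin n → ℝ) → Hyp n) {k | ∑ j, k j ^ 2 < 1} := by
  rw [Topology.IsInducing.subtypeVal.continuousOn_iff]
  have h1 : ContinuousOn (fun k : Fin n → ℝ => ((√(1 - ∑ j, k j ^ 2))⁻¹ • ((k, 1) : Mk n) : Mk n))
      {k | ∑ j, k j ^ 2 < 1} := by
    refine ContinuousOn.fun_smul ?_ ?_
    · apply ContinuousOn.inv₀
      · apply Continuous.continuousOn
        fun_prop
      · intro k hk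
        have hk' : ∑ j, k j ^ 2 < 1 := hk
        have h0 : 0 < 1 - ∑ j, k j ^ 2 := by linarith
        exact (Real.sqrt_pos.mpr h0).ne'
    · apply Continuous.continuousOn
      fun_prop
  refine h1.congr fun k hk => ?_
  have hk' : ∑ j, k j ^ 2 < 1 := hk
  simp only [Function.comp_apply]
  unfold up
  rw [dif_pos hk']

theorem P1_convex (R : RA n I) : Convex ℝ R.P1 := by
  intro k hk l hl a c ha hc hac i
  have h1 := hk i
  have h2 := hl i
  rw [M1_al_comb R i k l a c hac]
  have := mul_nonneg ha h1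
  have := mul_nonneg hc h2
  linarith

theorem P1_ball (R : RA n I) (k : Fin n → ℝ) (hk : k ∈ R.P1) : ∑ j, k j ^ 2 < 1 := by
  by_contra hcon
  push Not at hcon
  set k₀ := kl R.ctr with hk₀
  have hk₀P : k₀ ∈ R.P1 := (kl_mem_P1 R R.ctr).2 fun i => (R.ctr_neg i).le
  have hk₀b : ∑ j, k₀ j ^ 2 < 1 := kl_ball R.ctr
  -- the segment
  let f : ℝ → Fin n → ℝ := fun s j => (1 - s) * k₀ j + s * k j
  have hf : ∀ s, f s = (1 - s) • k₀ + s • k := by
    intro s
    funext j
    simp [f]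
  have hfP : ∀ s, 0 ≤ s → s ≤ 1 → f s ∈ R.P1 := by
    intro s hs0 hs1
    rw [hf]
    exact P1_convex R hk₀P hk (by linarith) hs0 (by ring)
  let q : ℝ → ℝ := fun s => ∑ j, f s j ^ 2
  have hq : Continuous q := by
    simp only [q, f]
    fun_prop
  have hq0 : q 0 < 1 := by
    simp only [q, f]
    simpa using hk₀b
  have hq1 : 1 ≤ q 1 := by
    simp only [q, f]
    simpa using hcon
  -- the bound for the times
  obtain ⟨M, hM⟩ : ∃ M : ℝ, ∀ x ∈ R.P, x.1.2 ≤ M := by
    have hc : IsCompact R.P := R.cpt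
    have hcont : ContinuousOn (fun x : Hyp n => x.1.2) R.P :=
      (continuous_snd.comp continuous_subtype_val).continuousOn
    obtain ⟨M, hM⟩ := (hc.image_of_continuousOn hcont).bddAbove
    exact ⟨M, fun x hx => hM (Set.mem_image_of_mem _ hx)⟩
  have hctrP : R.ctr ∈ R.P := fun i => (R.ctr_neg i).le
  have hM0 : 0 < M := lt_of_lt_of_le R.ctr.2.2 (hM _ hctrP)
  have key : ∀ s, 0 ≤ s → s ≤ 1 → q s < 1 → (M⁻¹) ^ 2 ≤ 1 - q s := by
    intro s hs0 hs1 hqs
    have hqs' : ∑ j, f s j ^ 2 < 1 := hqs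
    have h0 : 0 < 1 - q s := by linarith
    have h1 : 0 < √(1 - q s) := Real.sqrt_pos.mpr h0
    have hup : up (f s) ∈ R.P := by
      rw [← kl_mem_P1, kl_up _ hqs']
      exact hfP s hs0 hs1
    have h2 := hM _ hup
    have h3 : (up (f s)).1.2 = (√(1 - q s))⁻¹ := by
      unfold up
      rw [dif_pos hqs']
      simp only [Prod.smul_snd, smul_eq_mul, mul_one, q]
    rw [h3] at h2
    have h4 : M⁻¹ ≤ √(1 - q s) := inv_le_of_inv_le₀ h1 h2
    calc (M⁻¹) ^ 2 ≤ (√(1 - q s)) ^ 2 := pow_le_pow_left₀ (by positivity) h4 2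
      _ = 1 - q s := Real.sq_sqrt h0.le
  have hMi : 0 < (M⁻¹) ^ 2 := by positivity
  have hk0 := key 0 le_rfl zero_le_one hq0
  have hiv := intermediate_value_Icc (zero_le_one : (0 : ℝ) ≤ 1) hq.continuousOn
  have hmem : 1 - (M⁻¹) ^ 2 / 2 ∈ Set.Icc (q 0) (q 1) := ⟨by linarith, by linarith⟩
  obtain ⟨s, ⟨hs0, hs1⟩, hs⟩ := hiv hmem
  have h5 := key s hs0 hs1 (by rw [hs]; linarith)
  rw [hs] at h5
  linarith

theorem P1_compact (R : RA n I) : IsCompact R.P1 := by
  apply Metric.isCompact_of_isClosed_isBounded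
  · have h1 : R.P1 = ⋂ i, {k | 0 ≤ R.al i k} := by
      ext k
      simp [RA.P1]
    rw [h1]
    refine isClosed_iInter fun i => ?_
    refine isClosed_le continuous_const ?_
    unfold RA.al
    fun_prop
  · refine (Metric.isBounded_closedBall (x := (0 : Fin n → ℝ)) (r := 1)).subset ?_
    intro k hk
    rw [mem_closedBall_zero_iff, pi_norm_le_iff_of_nonneg zero_le_one]
    intro j
    have h1 := P1_ball R k hk
    have h2 : k j ^ 2 ≤ ∑ j, k j ^ 2 :=
      Finset.single_le_sum (f := fun j => k j ^ 2) (fun _ _ => sq_nonneg _) (Finset.mem_univ j)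
    rw [Real.norm_eq_abs]
    exact M1_abs_le (by linarith)

theorem up_mem_P (R : RA n I) (k : Fin n → ℝ) (hk : k ∈ R.P1) : up k ∈ R.P := by
  have h1 := P1_ball R k hk
  rw [← kl_mem_P1, kl_up k h1]
  exact hk

end Pool.Agent.MP_455d73_gt.PQ
end

section

/-!
TASK E3 (easy): the piecewise affine bijection of `[0, t]` onto `[0, K]` which maps `s` to `c`.

`bend y = min (rs a b s c y) c + max (rs a' b' (t - s) (K - c) (y - s)) 0`. For `y ≤ s`: `rs a b s c y ≤ rs a b s c s = c` (`rs_strictMono`, `rs_end`)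
and `rs a' b' _ _ (y - s) ≤ rs a' b' _ _ 0 = 0` (`rs_zero`); similarly for `s ≤ y`. The inverse `bendi` in the same way with
`rsi` (`rsi_rs`, `rs_rsi`; `rsi` is also strictly increasing, being the inverse of `rs`, `rsi a b s c c = s` and `rsi a b s c 0 = 0` by `rsi_rs` with
`rs_end`, `rs_zero`). `bend_strictMono`: compare `y < y'` in the cases `y' ≤ s`, `s ≤ y`, `y < s < y'`. `PAr`: `PAr.min`, `PAr.max`, `PAr.rs`, `PAr.add`, `PAr.sub`,
`PAr.const`.
-/

set_option autoImplicit false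

open Finset
open scoped Classical goldenRatio

namespace Pool.Agent.MP_455d73_gt.PQ

/-- The reparametrisation. -/
noncomputable def bend (a b a' b' s t c K y : ℝ) : ℝ :=
  min (rs a b s c y) c + max (rs a' b' (t - s) (K - c) (y - s)) 0

/-- Its inverse. -/
noncomputable def bendi (a b a' b' s t c K z : ℝ) : ℝ :=
  min (rsi a b s c z) s + max (rsi a' b' (t - s) (K - c) (z - c)) 0

variable (a b a' b' s t c K : ℝ)

private theorem E3_lo (ha : 0 < a) (hb : 0 < b) (ha' : 0 < a') (hb' : 0 < b') (h1 : a * s ≤ c)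
    (h4 : K - c ≤ b' * (t - s)) {y : ℝ} (hy : y ≤ s) :
    PQ.bend a b a' b' s t c K y = rs a b s c y := by
  have e1 : rs a b s c y ≤ c := by
    have := (rs_strictMono a b s c ha hb).monotone hy
    rwa [rs_end a b s c h1] at this
  have e2 : rs a' b' (t - s) (K - c) (y - s) ≤ 0 := by
    have := (rs_strictMono a' b' (t - s) (K - c) ha' hb').monotone (sub_nonpos.2 hy)
    rwa [rs_zero a' b' (t - s) (K - c) h4] at this
  unfold PQ.bend
  rw [min_eq_left e1, max_eq_right e2, add_zero]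

private theorem E3_hi (ha : 0 < a) (hb : 0 < b) (ha' : 0 < a') (hb' : 0 < b') (h1 : a * s ≤ c)
    (h4 : K - c ≤ b' * (t - s)) {y : ℝ} (hy : s ≤ y) :
    PQ.bend a b a' b' s t c K y = c + rs a' b' (t - s) (K - c) (y - s) := by
  have e1 : c ≤ rs a b s c y := by
    have := (rs_strictMono a b s c ha hb).monotone hy
    rwa [rs_end a b s c h1] at this
  have e2 : 0 ≤ rs a' b' (t - s) (K - c) (y - s) := by
    have := (rs_strictMono a' b' (t - s) (K - c) ha' hb').monotone (sub_nonneg.2 hy)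
    rwa [rs_zero a' b' (t - s) (K - c) h4] at this
  unfold PQ.bend
  rw [min_eq_right e1, max_eq_left e2]

private theorem E3_mono (g h : ℝ) (ha : 0 < a) (hb : 0 < b) : StrictMono (rsi a b g h) := by
  intro z z' hz
  rw [← (rs_strictMono a b g h ha hb).lt_iff_lt, rs_rsi a b g h z ha hb, rs_rsi a b g h z' ha hb]
  exact hz

private theorem E3_end (g h : ℝ) (ha : 0 < a) (hb : 0 < b) (h1 : a * g ≤ h) : rsi a b g h h = g := by
  have := rsi_rs a b g h g ha hb
  rwa [rs_end a b g h h1] at this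

private theorem E3_zero (g h : ℝ) (ha : 0 < a) (hb : 0 < b) (h1 : h ≤ b * g) : rsi a b g h 0 = 0 := by
  have := rsi_rs a b g h 0 ha hb
  rwa [rs_zero a b g h h1] at this

private theorem E3_loi (ha : 0 < a) (hb : 0 < b) (ha' : 0 < a') (hb' : 0 < b') (h1 : a * s ≤ c)
    (h4 : K - c ≤ b' * (t - s)) {z : ℝ} (hz : z ≤ c) :
    PQ.bendi a b a' b' s t c K z = rsi a b s c z := by
  have e1 : rsi a b s c z ≤ s := by
    have := (E3_mono a b s c ha hb).monotone hz
    rwa [E3_end a b s c ha hb h1] at this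
  have e2 : rsi a' b' (t - s) (K - c) (z - c) ≤ 0 := by
    have := (E3_mono a' b' (t - s) (K - c) ha' hb').monotone (sub_nonpos.2 hz)
    rwa [E3_zero a' b' (t - s) (K - c) ha' hb' h4] at this
  unfold PQ.bendi
  rw [min_eq_left e1, max_eq_right e2, add_zero]

private theorem E3_hii (ha : 0 < a) (hb : 0 < b) (ha' : 0 < a') (hb' : 0 < b') (h1 : a * s ≤ c)
    (h4 : K - c ≤ b' * (t - s)) {z : ℝ} (hz : c ≤ z) :
    PQ.bendi a b a' b' s t c K z = s + rsi a' b' (t - s) (K - c) (z - c) := by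
  have e1 : s ≤ rsi a b s c z := by
    have := (E3_mono a b s c ha hb).monotone hz
    rwa [E3_end a b s c ha hb h1] at this
  have e2 : 0 ≤ rsi a' b' (t - s) (K - c) (z - c) := by
    have := (E3_mono a' b' (t - s) (K - c) ha' hb').monotone (sub_nonneg.2 hz)
    rwa [E3_zero a' b' (t - s) (K - c) ha' hb' h4] at this
  unfold PQ.bendi
  rw [min_eq_right e1, max_eq_left e2]

theorem bendi_bend (ha : 0 < a) (hb : 0 < b) (ha' : 0 < a') (hb' : 0 < b') (h1 : a * s ≤ c) (h2 : c ≤ b * s)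
    (h3 : a' * (t - s) ≤ K - c) (h4 : K - c ≤ b' * (t - s)) (y : ℝ) :
    bendi a b a' b' s t c K (bend a b a' b' s t c K y) = y := by
  rcases le_total y s with hy | hy
  · rw [E3_lo a b a' b' s t c K ha hb ha' hb' h1 h4 hy]
    have e1 : rs a b s c y ≤ c := by
      have := (rs_strictMono a b s c ha hb).monotone hy
      rwa [rs_end a b s c h1] at this
    rw [E3_loi a b a' b' s t c K ha hb ha' hb' h1 h4 e1, rsi_rs a b s c y ha hb]
  · rw [E3_hi a b a' b' s t c K ha hb ha' hb' h1 h4 hy]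
    have e2 : 0 ≤ rs a' b' (t - s) (K - c) (y - s) := by
      have := (rs_strictMono a' b' (t - s) (K - c) ha' hb').monotone (sub_nonneg.2 hy)
      rwa [rs_zero a' b' (t - s) (K - c) h4] at this
    rw [E3_hii a b a' b' s t c K ha hb ha' hb' h1 h4 (by linarith), add_sub_cancel_left,
      rsi_rs a' b' (t - s) (K - c) (y - s) ha' hb']
    ring

theorem bend_bendi (ha : 0 < a) (hb : 0 < b) (ha' : 0 < a') (hb' : 0 < b') (h1 : a * s ≤ c) (h2 : c ≤ b * s)
    (h3 : a' * (t - s) ≤ K - c) (h4 : K - c ≤ b' * (t - s)) (z : ℝ) :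
    bend a b a' b' s t c K (bendi a b a' b' s t c K z) = z := by
  rcases le_total z c with hz | hz
  · rw [E3_loi a b a' b' s t c K ha hb ha' hb' h1 h4 hz]
    have e1 : rsi a b s c z ≤ s := by
      have := (E3_mono a b s c ha hb).monotone hz
      rwa [E3_end a b s c ha hb h1] at this
    rw [E3_lo a b a' b' s t c K ha hb ha' hb' h1 h4 e1, rs_rsi a b s c z ha hb]
  · rw [E3_hii a b a' b' s t c K ha hb ha' hb' h1 h4 hz]
    have e2 : 0 ≤ rsi a' b' (t - s) (K - c) (z - c) := by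
      have := (E3_mono a' b' (t - s) (K - c) ha' hb').monotone (sub_nonneg.2 hz)
      rwa [E3_zero a' b' (t - s) (K - c) ha' hb' h4] at this
    rw [E3_hi a b a' b' s t c K ha hb ha' hb' h1 h4 (by linarith), add_sub_cancel_left,
      rs_rsi a' b' (t - s) (K - c) (z - c) ha' hb']
    ring

theorem bend_strictMono (ha : 0 < a) (hb : 0 < b) (ha' : 0 < a') (hb' : 0 < b') (h1 : a * s ≤ c) (h2 : c ≤ b * s)
    (h3 : a' * (t - s) ≤ K - c) (h4 : K - c ≤ b' * (t - s)) : StrictMono (bend a b a' b' s t c K) := by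
  intro y y' hyy
  rcases le_total y' s with h5 | h5
  · rw [E3_lo a b a' b' s t c K ha hb ha' hb' h1 h4 h5,
      E3_lo a b a' b' s t c K ha hb ha' hb' h1 h4 (hyy.le.trans h5)]
    exact rs_strictMono a b s c ha hb hyy
  · rcases le_total s y with h6 | h6
    · rw [E3_hi a b a' b' s t c K ha hb ha' hb' h1 h4 h5,
        E3_hi a b a' b' s t c K ha hb ha' hb' h1 h4 h6]
      have := rs_strictMono a' b' (t - s) (K - c) ha' hb' (show y - s < y' - s by linarith)
      linarith
    · rw [E3_hi a b a' b' s t c K ha hb ha' hb' h1 h4 h5,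
        E3_lo a b a' b' s t c K ha hb ha' hb' h1 h4 h6]
      have e1 : rs a b s c y ≤ c := by
        have := (rs_strictMono a b s c ha hb).monotone h6
        rwa [rs_end a b s c h1] at this
      have e2 : 0 ≤ rs a' b' (t - s) (K - c) (y' - s) := by
        have := (rs_strictMono a' b' (t - s) (K - c) ha' hb').monotone (sub_nonneg.2 h5)
        rwa [rs_zero a' b' (t - s) (K - c) h4] at this
      rcases h6.lt_or_eq with h7 | h7
      · have := rs_strictMono a b s c ha hb h7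
        rw [rs_end a b s c h1] at this
        linarith
      · have := rs_strictMono a' b' (t - s) (K - c) ha' hb' (show (0 : ℝ) < y' - s by linarith)
        rw [rs_zero a' b' (t - s) (K - c) h4] at this
        linarith

theorem bend_zero (ha : 0 < a) (hb : 0 < b) (ha' : 0 < a') (hb' : 0 < b') (h1 : a * s ≤ c) (h2 : c ≤ b * s)
    (h3 : a' * (t - s) ≤ K - c) (h4 : K - c ≤ b' * (t - s)) (hs : 0 ≤ s) (hc : 0 ≤ c) : bend a b a' b' s t c K 0 = 0 := by
  rw [E3_lo a b a' b' s t c K ha hb ha' hb' h1 h4 hs, rs_zero a b s c h2]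

theorem bend_mid (ha : 0 < a) (hb : 0 < b) (ha' : 0 < a') (hb' : 0 < b') (h1 : a * s ≤ c) (h2 : c ≤ b * s)
    (h3 : a' * (t - s) ≤ K - c) (h4 : K - c ≤ b' * (t - s)) : bend a b a' b' s t c K s = c := by
  rw [E3_lo a b a' b' s t c K ha hb ha' hb' h1 h4 le_rfl, rs_end a b s c h1]

theorem bend_end (ha : 0 < a) (hb : 0 < b) (ha' : 0 < a') (hb' : 0 < b') (h1 : a * s ≤ c) (h2 : c ≤ b * s)
    (h3 : a' * (t - s) ≤ K - c) (h4 : K - c ≤ b' * (t - s)) (hst : s ≤ t) (hcK : c ≤ K) : bend a b a' b' s t c K t = K := by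
  rw [E3_hi a b a' b' s t c K ha hb ha' hb' h1 h4 hst, rs_end a' b' (t - s) (K - c) h3]
  ring

theorem PAr.bend {ι : Type} [Fintype ι] {X : Set (ι → ℝ)} {s t y : (ι → ℝ) → ℝ}
    (hs : PAr X s) (ht : PAr X t) (hy : PAr X y) :
    PAr X (fun x => PQ.bend a b a' b' (s x) (t x) c K (y x)) := by
  unfold PQ.bend
  exact ((PAr.rs a b hs (PAr.const X c) hy).min (PAr.const X c)).add
    ((PAr.rs a' b' (ht.sub hs) ((PAr.const X K).sub (PAr.const X c)) (hy.sub hs)).max
      (PAr.const X 0))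

theorem PAr.bendi {ι : Type} [Fintype ι] {X : Set (ι → ℝ)} {s t y : (ι → ℝ) → ℝ}
    (hs : PAr X s) (ht : PAr X t) (hy : PAr X y) :
    PAr X (fun x => PQ.bendi a b a' b' (s x) (t x) c K (y x)) := by
  unfold PQ.bendi
  exact ((PAr.rsi a b hs (PAr.const X c) hy).min hs).add
    ((PAr.rsi a' b' (ht.sub hs) ((PAr.const X K).sub (PAr.const X c)) (hy.sub (PAr.const X c))).max
      (PAr.const X 0))

end Pool.Agent.MP_455d73_gt.PQ
end
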