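import Pool.Agent.Lib.MP_455d73_gt.Mg.G031
import Pool.Agent.Lib.MP_455d73_gt.Mg.G033
import Pool.Agent.Lib.MP_455d73_gt.Mg.G029
import Pool.Agent.Lib.MP_455d73_gt.Mg.G032

section

/-!
TASK E1 (medium): the polytope of dimension `n + 1` is the region between `0` and `tau n` over the polytope of dimension `n`.

`mem_P1_succ`: an index `i < sz (n + 1)` is `< sz n` (`al_low`), `= sz n` (`al_mid`) or in `Tn n` (`al_top`, `co_pos`); `tau_le`, `tau_ex`.
`top_act`: `→`: `i ∈ Tn n`, `al i k = 0` gives `k last = qn n i (init k)` (`al_top`, `co_pos`), `≥ tau` by `tau_le`, and `≤ tau` by `mem_P1_succ`.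
`←`: `tau_ex` and `al_top`.
`tau_bd`: positivity of `tau n k` for `k ∈ P1`: `∑ k_j^2 < 1` (`P1_ball`), let `x = up k`, `x.1 = c • (k, 1)` with `c > 0`. For `i ∈ Tn n`,
`sz n ≤ i < 120`, `ev_high` gives `lor x (ev n i) < 0` (the other alternative `ev n i = 0` is impossible: the time `√φ * vl (co i 4)` is
positive by `pos_chk`, `vl_ge_one`), that is `c * (∑ k_l vl (co i l) - √φ vl (co i 4)) < 0`: so `qn n i k > 0`. `tau` is continuous (`tau_PAr`,
first component, `continuousOn_univ`) and `P1` is compact (`P1_compact`): if `P1` is empty take `m = 1`, otherwise take the minimum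
and the maximum (`IsCompact.exists_isMinOn`, `exists_isMaxOn`).
`tau_PAr`: `PAr.inf'` (after `dif_pos` with `Tn_ne`), each `qn n i` is affine: it is `(vl (co i n))⁻¹ * (const - ∑ …)`: `PAr.smul`, `PAr.sub`,
`PAr.const`, and for the sum: `PAr.affine` with an affine map, or a finite induction with `PAr.add` (for `n = 1, 2, 3` explicitly:
`Fin.sum_univ_succ`), `PAr.coord`, `PAr.smul`.
-/

set_option autoImplicit false

open Finset
open scoped Classical goldenRatio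

namespace Pool.Agent.MP_455d73_gt.PQ

theorem mem_P1_succ (n : ℕ) (h1 : 1 ≤ n) (h3 : n ≤ 3) (k : Fin (n + 1) → ℝ) :
    k ∈ (sys (n + 1) (by omega) (by omega)).P1 ↔
      (fun l : Fin n => k l.castSucc) ∈ (sys n h1 (by omega)).P1 ∧ 0 ≤ k (Fin.last n) ∧
        k (Fin.last n) ≤ tau n (fun l => k l.castSucc) := by
  have hsz := sz_lt n h1 h3
  constructor
  · intro hk
    refine ⟨fun i => ?_, ?_, ?_⟩
    · have h := hk ⟨i, by omega⟩
      rw [al_low n h1 h3 i i.2 (by omega) k] at h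
      exact h
    · have h := hk ⟨sz n, hsz⟩
      rw [al_mid n h1 h3 hsz k] at h
      exact h
    · obtain ⟨i, hi, h⟩ := tau_ex n h1 h3 (fun l => k l.castSucc)
      have hi' := ((mem_Tn n i).mp hi).2
      have h2 := hk ⟨i, hi'⟩
      rw [al_top n h1 h3 i hi hi' k] at h2
      rw [h]
      have h3' := co_pos n h1 h3 i hi
      by_contra hcon
      push Not at hcon
      have : vl (co i n) * (qn n i (fun l => k l.castSucc) - k (Fin.last n)) < 0 :=
        mul_neg_of_pos_of_neg h3' (by linarith)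
      linarith
  · rintro ⟨ha, hb, hc⟩ ⟨i, hi⟩
    rcases lt_trichotomy i (sz n) with h | h | h
    · rw [al_low n h1 h3 i h hi k]
      exact ha ⟨i, h⟩
    · subst h
      rw [al_mid n h1 h3 hi k]
      exact hb
    · have hT : i ∈ Tn n := (mem_Tn n i).mpr ⟨h, hi⟩
      rw [al_top n h1 h3 i hT hi k]
      have h4 := tau_le n (fun l => k l.castSucc) i hT
      exact mul_nonneg (co_pos n h1 h3 i hT).le (by linarith)

theorem top_act (n : ℕ) (h1 : 1 ≤ n) (h3 : n ≤ 3) (k : Fin (n + 1) → ℝ)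
    (hk : k ∈ (sys (n + 1) (by omega) (by omega)).P1) :
    (∃ i : Fin (sz (n + 1)), sz n < (i : ℕ) ∧ (sys (n + 1) (by omega) (by omega)).al i k = 0) ↔
      k (Fin.last n) = tau n (fun l => k l.castSucc) := by
  have hk2 := (mem_P1_succ n h1 h3 k).mp hk
  constructor
  · rintro ⟨⟨i, hi⟩, hlt, h0⟩
    have hT : i ∈ Tn n := (mem_Tn n i).mpr ⟨hlt, hi⟩
    rw [al_top n h1 h3 i hT hi k] at h0
    have h4 := tau_le n (fun l => k l.castSucc) i hT
    rcases mul_eq_zero.mp h0 with h | h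
    · have := co_pos n h1 h3 i hT
      linarith
    · linarith [hk2.2.2]
  · intro h
    obtain ⟨i, hi, h5⟩ := tau_ex n h1 h3 (fun l => k l.castSucc)
    have hi' := (mem_Tn n i).mp hi
    refine ⟨⟨i, hi'.2⟩, hi'.1, ?_⟩
    rw [al_top n h1 h3 i hi hi'.2 k, ← h5, h, sub_self, mul_zero]

theorem tau_PAr (n : ℕ) (h1 : 1 ≤ n) (h3 : n ≤ 3) : PAr Set.univ (tau n) := by
  have h : PAr (Set.univ : Set (Fin n → ℝ)) (fun k => (Tn n).inf' (Tn_ne n h1 h3) (fun i => qn n i k)) := by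
    refine PAr.inf' (Tn n) (Tn_ne n h1 h3) (fun i => qn n i) fun i _ => ?_
    let L : (Fin n → ℝ) →ₗ[ℝ] ℝ := ∑ l : Fin n, (vl (co i l)) • LinearMap.proj l
    have hL : PAr (Set.univ : Set (Fin n → ℝ)) (fun k => L.toAffineMap k) := PAr.affine _ _
    have h4 := PAr.smul (vl (co i n))⁻¹ ((PAr.const Set.univ (√φ * vl (co i 4))).sub hL)
    refine PAr.congr h4 fun k _ => ?_
    have h5 : L.toAffineMap k = ∑ l : Fin n, k l * vl (co i l) := by
      show L k = _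
      simp only [L, LinearMap.sum_apply, LinearMap.smul_apply, LinearMap.proj_apply, smul_eq_mul]
      exact Finset.sum_congr rfl fun l _ => mul_comm _ _
    show (vl (co i n))⁻¹ * (√φ * vl (co i 4) - L.toAffineMap k) = qn n i k
    rw [h5]
    unfold qn
    rw [div_eq_inv_mul]
  refine PAr.congr h fun k _ => ?_
  unfold tau
  rw [dif_pos (Tn_ne n h1 h3)]

theorem tau_bd (n : ℕ) (h1 : 1 ≤ n) (h3 : n ≤ 3) :
    ∃ m M : ℝ, 0 < m ∧ ∀ k ∈ (sys n h1 (by omega)).P1, m ≤ tau n k ∧ tau n k ≤ M := by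
  have hpos : ∀ k ∈ (sys n h1 (by omega)).P1, 0 < tau n k := by
    intro k hk
    have hball := P1_ball _ k hk
    obtain ⟨i, hi, h⟩ := tau_ex n h1 h3 k
    rw [h]
    have hi' := (mem_Tn n i).mp hi
    have hi120 : i < 120 := lt_of_lt_of_le hi'.2 (sz_le (n + 1))
    have hne : i ≠ 0 ∧ i ≠ 2 ∧ i ≠ 5 ∧ i ≠ 12 := by
      obtain ⟨ha, hb⟩ := hi'
      have h3' : n = 1 ∨ n = 2 ∨ n = 3 := by omega
      rcases h3' with h | h | h <;> subst h <;> simp [sz] at ha hb <;> omega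
    have hchk := (pos_chk i hi120 hne.1 hne.2.1 hne.2.2.1 hne.2.2.2).2
    have htime : 0 < √φ * vl (co i 4) := by
      have h6 := vl_ge_one (co i 4) hchk.1 hchk.2.1 hchk.2.2
      have h7 : 0 < √φ := Real.sqrt_pos.mpr Real.goldenRatio_pos
      positivity
    have hup : lor (up k).1 (ev n i) < 0 := by
      rcases ev_high n h1 h3 i hi'.1.le hi120 with h0 | h0
      · exfalso
        have : (ev n i).2 = 0 := by rw [h0]; rfl
        have h8 : (ev n i).2 = √φ * vl (co i 4) := rfl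
        rw [h8] at this
        linarith
      · exact h0 _
    have hupk : (up k).1 = (√(1 - ∑ j, k j ^ 2))⁻¹ • ((k, 1) : Mk n) := by
      unfold up
      rw [dif_pos hball]
    rw [hupk, lor_smul_left] at hup
    have hc : 0 < (√(1 - ∑ j, k j ^ 2))⁻¹ := inv_pos.mpr (Real.sqrt_pos.mpr (by linarith))
    have hneg : lor ((k, 1) : Mk n) (ev n i) < 0 := by
      by_contra hcon
      push Not at hcon
      have := mul_nonneg hc.le hcon
      linarith
    have hlor : lor ((k, 1) : Mk n) (ev n i) = ∑ l : Fin n, k l * vl (co i l) - √φ * vl (co i 4) := by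
      unfold lor ev
      rw [one_mul]
    rw [hlor] at hneg
    unfold qn
    exact div_pos (by linarith) (co_pos n h1 h3 i hi)
  have hcont : ContinuousOn (tau n) (sys n h1 (by omega)).P1 := (tau_PAr n h1 h3).1.mono (Set.subset_univ _)
  have hcpt := P1_compact (sys n h1 (by omega))
  rcases ((sys n h1 (by omega)).P1).eq_empty_or_nonempty with he | hne
  · refine ⟨1, 1, one_pos, fun k hk => ?_⟩
    rw [he] at hk
    exact absurd hk (Set.notMem_empty k)
  · obtain ⟨x, hx, hmin⟩ := hcpt.exists_isMinOn hne hcont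
    obtain ⟨y, _, hmax⟩ := hcpt.exists_isMaxOn hne hcont
    exact ⟨tau n x, tau n y, hpos x hx, fun k hk => ⟨hmin hk, hmax hk⟩⟩

end Pool.Agent.MP_455d73_gt.PQ
end

section

/-!
TASK E22a (medium): the curve `s₃` which separates the two kinds of top walls of the 120-cell.

Notation: for `k : Fin 4 → ℝ` let `p = (k 0, k 1)`, `N_i = √φ vl (co i 4) - k 0 vl (co i 0) - k 1 vl (co i 1)`, `c_ij = vl (co i j)`. For `12 < i < 19`: `c_i2 = 0`
(`supp_chk`), for `18 < i < 120`: `c_i2 > 0` (`supp_chk`, `pos_chk`, `vl_ge_one`), `c_i3 > 0` for all `12 < i < 120` (`co_pos 3`). So (`sys_al`,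
`Fin.sum_univ_four`) `al i k = N_i - k 3 c_i3` for `12 < i < 19` and `al i k = N_i - k 2 c_i2 - k 3 c_i3` for `18 < i`, and `vout p = min N_i / c_i3`
over `12 < i < 19`, `s₃ p = min (N_i - vout c_i3) / c_i2` over `18 < i`. `T_3 = {13, …, 119}`; `al_top`, `tau_le`, `tau_ex` for `n = 3`.
Let `k ∈ P1`, `t₄ = tau 3 (k 0, k 1, k 2)`; `k 3 ≤ t₄` (`mem_P1_succ`), and (`al ≥ 0`) `k 3 ≤ vout p`.
`out_act`, `→`: `al i k = 0` gives `k 3 = N_i / c_i3 ≥ vout p`, and `k 3 = t₄` by `top_act`; for all `j ≥ 19`: `0 ≤ al j k` and `k 3 ≥ vout p` give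
`c_j2 k 2 ≤ N_j - c_j3 vout`, so `k 2 ≤ s₃`. `←`: `t₄` is attained at `j` (`tau_ex`), `al j k = 0`. If `j < 19` done. If `j ≥ 19`, `k 2 ≤ s₃` gives
`c_j3 vout ≤ N_j - c_j2 k 2 = c_j3 k 3`, so `k 3 = vout p`, which is attained at some `12 < i < 19` (`Finset.exists_mem_eq_inf'`): `al i k = 0`.
`in_act`, `→`: `al i k = 0`, `i ≥ 19`: `k 3 = t₄` by `top_act`; `c_i3 vout ≥ c_i3 k 3 = N_i - c_i2 k 2`, so `k 2 ≥ (N_i - c_i3 vout) / c_i2 ≥ s₃`.
`←`: `t₄` attained at `j`. If `j ≥ 19` done. If `j < 19`: `k 3 ≥ vout p`; `s₃` is attained at `i ≥ 19`: `c_i2 k 2 + c_i3 vout ≥ N_i`, so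
`al i k ≤ 0`, hence `= 0`.
`s3_PAr`: `PAr.inf'`, and `vout` is `PAr` in the same way (the values `N_i`, … are affine in `p`, `vout`).
`s3_bd`: (A) `0 < s₃ p` for `p` in the pentagon: otherwise take `k = (p, 0, tau 3 (p, 0))`, which is in `P1` (`mem_P1_succ` for `n = 3` and `n = 2`,
with `tau_bd` for `0 ≤ tau`); `in_act` gives an active `i ≥ 19`; the wall `5` is active too (`al_mid` for `n = 2`, `al_low` for `n = 3`: `al 5 k = k 2 = 0`);
by `RA.orth_of_act` (with `P1_ball`) `lor (ev 4 5) (ev 4 i) = 0`, i.e. (`lor_ev`, `vl_zero_iff`) `gr 5 i = (0, 0)`, which contradicts `g5_chk`.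
(B) `s₃ p < tau 2 p`: otherwise take `k = (p, tau 2 p, tau 3 (p, tau 2 p))`, in `P1`; `out_act` gives an active `12 < i < 19`, and `top_act` for
`n = 2` an active `5 < j < 12` (via `al_low` for `n = 3`), orthogonal by `RA.orth_of_act`: contradicts `no34_chk`.
Then compactness of `P1` (`P1_compact`) and continuity of `s₃` and `tau 2` (`s3_PAr`, `tau_PAr`) give `δ`.
-/

set_option autoImplicit false

open Finset
open scoped Classical goldenRatio

namespace Pool.Agent.MP_455d73_gt.PQ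

/-- The last coordinate of the highest point under the walls `12 < i < 19`. -/
noncomputable def vout (p : Fin 2 → ℝ) : ℝ :=
  (Finset.Ioo 12 19).inf' ⟨13, by decide⟩
    (fun i => (√φ * vl (co i 4) - p 0 * vl (co i 0) - p 1 * vl (co i 1)) / vl (co i 3))

/-- The separating curve. -/
noncomputable def s3 (p : Fin 2 → ℝ) : ℝ :=
  (Finset.Ioo 18 120).inf' ⟨19, by decide⟩
    (fun i => (√φ * vl (co i 4) - p 0 * vl (co i 0) - p 1 * vl (co i 1) - vout p * vl (co i 3)) / vl (co i 2))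

theorem g5_chk : ∀ i < 120, 18 < i → gr 5 i ≠ (0, 0) := by
  decide +kernel

private theorem E22a_sz : sz 4 = 120 ∧ sz 3 = 12 ∧ sz 2 = 5 := ⟨rfl, rfl, rfl⟩

private theorem E22a_al (i : Fin (sz 4)) (k : Fin 4 → ℝ) :
    (sys 4 (by omega) (by omega)).al i k = √φ * vl (co i 4) - k 0 * vl (co i 0) - k 1 * vl (co i 1) -
      k 2 * vl (co i 2) - k 3 * vl (co i 3) := by
  rw [sys_al, Fin.sum_univ_four]
  change √φ * vl (co i 4) - (k 0 * vl (co i 0) + k 1 * vl (co i 1) + k 2 * vl (co i 2) + k 3 * vl (co i 3)) = _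
  ring

private theorem E22a_c3 (i : ℕ) (h1 : 12 < i) (h2 : i < 120) : 0 < vl (co i 3) :=
  co_pos 3 (by omega) (by omega) i ((mem_Tn 3 i).mpr ⟨h1, h2⟩)

private theorem E22a_c2 (i : ℕ) (h1 : 18 < i) (h2 : i < 120) : 0 < vl (co i 2) := by
  have h := (pos_chk i h2 (by omega) (by omega) (by omega) (by omega)).1 2 (by omega)
  rcases h with h | h
  · exact absurd h (supp_chk.2.2.2.2.1 i h2 h1)
  · exact lt_of_lt_of_le one_pos (vl_ge_one _ h.1 h.2.1 h.2.2)

private theorem E22a_c2' (i : ℕ) (h1 : 12 < i) (h2 : i < 19) : vl (co i 2) = 0 :=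
  (vl_zero_iff _).mpr (supp_chk.2.2.2.1 i h2 h1)

private theorem E22a_vle (p : Fin 2 → ℝ) (i : ℕ) (h1 : 12 < i) (h2 : i < 19) :
    vout p ≤ (√φ * vl (co i 4) - p 0 * vl (co i 0) - p 1 * vl (co i 1)) / vl (co i 3) :=
  Finset.inf'_le _ (Finset.mem_Ioo.mpr ⟨h1, h2⟩)

private theorem E22a_vex (p : Fin 2 → ℝ) : ∃ i, 12 < i ∧ i < 19 ∧
    vout p = (√φ * vl (co i 4) - p 0 * vl (co i 0) - p 1 * vl (co i 1)) / vl (co i 3) := by
  obtain ⟨i, hi, h⟩ := Finset.exists_mem_eq_inf' (⟨13, by decide⟩ : (Finset.Ioo 12 19).Nonempty)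
    (fun i => (√φ * vl (co i 4) - p 0 * vl (co i 0) - p 1 * vl (co i 1)) / vl (co i 3))
  exact ⟨i, (Finset.mem_Ioo.mp hi).1, (Finset.mem_Ioo.mp hi).2, h⟩

private theorem E22a_sle (p : Fin 2 → ℝ) (i : ℕ) (h1 : 18 < i) (h2 : i < 120) :
    s3 p ≤ (√φ * vl (co i 4) - p 0 * vl (co i 0) - p 1 * vl (co i 1) - vout p * vl (co i 3)) / vl (co i 2) :=
  Finset.inf'_le _ (Finset.mem_Ioo.mpr ⟨h1, h2⟩)

private theorem E22a_sex (p : Fin 2 → ℝ) : ∃ i, 18 < i ∧ i < 120 ∧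
    s3 p = (√φ * vl (co i 4) - p 0 * vl (co i 0) - p 1 * vl (co i 1) - vout p * vl (co i 3)) / vl (co i 2) := by
  obtain ⟨i, hi, h⟩ := Finset.exists_mem_eq_inf' (⟨19, by decide⟩ : (Finset.Ioo 18 120).Nonempty)
    (fun i => (√φ * vl (co i 4) - p 0 * vl (co i 0) - p 1 * vl (co i 1) - vout p * vl (co i 3)) / vl (co i 2))
  exact ⟨i, (Finset.mem_Ioo.mp hi).1, (Finset.mem_Ioo.mp hi).2, h⟩

/-- Below the walls `12 < i < 19`. -/
private theorem E22a_kv (k : Fin 4 → ℝ) (hk : k ∈ (sys 4 (by omega) (by omega)).P1) (p : Fin 2 → ℝ)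
    (h0 : p 0 = k 0) (h1 : p 1 = k 1) : k 3 ≤ vout p := by
  unfold vout
  refine (Finset.le_inf'_iff _ _).mpr fun i hi => ?_
  obtain ⟨hi1, hi2⟩ := Finset.mem_Ioo.mp hi
  have h := hk ⟨i, by rw [E22a_sz.1]; omega⟩
  rw [E22a_al] at h
  have h' : 0 ≤ √φ * vl (co i 4) - k 0 * vl (co i 0) - k 1 * vl (co i 1) -
      k 2 * vl (co i 2) - k 3 * vl (co i 3) := h
  rw [E22a_c2' i hi1 hi2, mul_zero, sub_zero] at h'
  rw [h0, h1, le_div_iff₀ (E22a_c3 i hi1 (by omega))]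
  linarith

theorem out_act (k : Fin 4 → ℝ) (hk : k ∈ (sys 4 (by omega) (by omega)).P1) :
    (∃ i : Fin (sz 4), 12 < (i : ℕ) ∧ (i : ℕ) < 19 ∧ (sys 4 (by omega) (by omega)).al i k = 0) ↔
      k 3 = tau 3 (fun l => k l.castSucc) ∧ k 2 ≤ s3 (fun l => k l.castSucc.castSucc) := by
  have htop := top_act 3 (by omega) (by omega) k hk
  obtain ⟨p, hp⟩ : ∃ p : Fin 2 → ℝ, p = fun l => k l.castSucc.castSucc := ⟨_, rfl⟩
  have hp0 : p 0 = k 0 := by rw [hp]; rfl
  have hp1 : p 1 = k 1 := by rw [hp]; rfl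
  have hkv := E22a_kv k hk p hp0 hp1
  rw [← hp]
  constructor
  · rintro ⟨i, hi1, hi2, hi⟩
    have hk3 : k 3 = vout p := by
      refine le_antisymm hkv ?_
      have h1 := E22a_vle p i hi1 hi2
      have h2 := E22a_c3 i hi1 (by omega)
      rw [E22a_al, E22a_c2' i hi1 hi2, mul_zero, sub_zero] at hi
      rw [hp0, hp1, le_div_iff₀ h2] at h1
      have h3 : vout p * vl (co i 3) ≤ k 3 * vl (co i 3) := by linarith
      exact le_of_mul_le_mul_right h3 h2
    refine ⟨htop.mp ⟨i, hi1, hi⟩, ?_⟩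
    unfold s3
    refine (Finset.le_inf'_iff _ _).mpr fun j hj => ?_
    obtain ⟨hj1, hj2⟩ := Finset.mem_Ioo.mp hj
    have h := hk ⟨j, by rw [E22a_sz.1]; omega⟩
    rw [E22a_al] at h
    have h' : 0 ≤ √φ * vl (co j 4) - k 0 * vl (co j 0) - k 1 * vl (co j 1) -
      k 2 * vl (co j 2) - k 3 * vl (co j 3) := h
    rw [hp0, hp1, ← hk3, le_div_iff₀ (E22a_c2 j hj1 hj2)]
    linarith
  · rintro ⟨h1, h2⟩
    obtain ⟨j, hj1, hj⟩ := htop.mpr h1
    have hj1' : 12 < (j : ℕ) := hj1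
    have hj2 : (j : ℕ) < 120 := j.2
    by_cases hj3 : (j : ℕ) < 19
    · exact ⟨j, hj1', hj3, hj⟩
    · have h3 := E22a_sle p j (by omega) hj2
      have h4 := h2.trans h3
      rw [hp0, hp1, le_div_iff₀ (E22a_c2 j (by omega) hj2)] at h4
      rw [E22a_al] at hj
      have h5 : vout p * vl (co j 3) ≤ k 3 * vl (co j 3) := by linarith
      have h6 := le_of_mul_le_mul_right h5 (E22a_c3 j (by omega) hj2)
      have h7 : k 3 = vout p := le_antisymm hkv h6
      obtain ⟨i, hi1, hi2, hi⟩ := E22a_vex p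
      refine ⟨⟨i, by rw [E22a_sz.1]; omega⟩, hi1, hi2, ?_⟩
      rw [E22a_al]
      change √φ * vl (co i 4) - k 0 * vl (co i 0) - k 1 * vl (co i 1) -
        k 2 * vl (co i 2) - k 3 * vl (co i 3) = 0
      rw [← h7, hp0, hp1, eq_div_iff (E22a_c3 i hi1 (by omega)).ne'] at hi
      rw [E22a_c2' i hi1 hi2, hi]
      ring

theorem in_act (k : Fin 4 → ℝ) (hk : k ∈ (sys 4 (by omega) (by omega)).P1) :
    (∃ i : Fin (sz 4), 18 < (i : ℕ) ∧ (sys 4 (by omega) (by omega)).al i k = 0) ↔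
      k 3 = tau 3 (fun l => k l.castSucc) ∧ s3 (fun l => k l.castSucc.castSucc) ≤ k 2 := by
  have htop := top_act 3 (by omega) (by omega) k hk
  obtain ⟨p, hp⟩ : ∃ p : Fin 2 → ℝ, p = fun l => k l.castSucc.castSucc := ⟨_, rfl⟩
  have hp0 : p 0 = k 0 := by rw [hp]; rfl
  have hp1 : p 1 = k 1 := by rw [hp]; rfl
  have hkv := E22a_kv k hk p hp0 hp1
  rw [← hp]
  constructor
  · rintro ⟨i, hi1, hi⟩
    have hi2 : (i : ℕ) < 120 := i.2
    refine ⟨htop.mp ⟨i, lt_trans (by rw [E22a_sz.2.1]; omega) hi1, hi⟩, ?_⟩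
    refine (E22a_sle p i hi1 hi2).trans ?_
    rw [hp0, hp1, div_le_iff₀ (E22a_c2 i hi1 hi2)]
    rw [E22a_al] at hi
    have h1 := mul_le_mul_of_nonneg_right hkv (E22a_c3 i (by omega) hi2).le
    linarith
  · rintro ⟨h1, h2⟩
    obtain ⟨j, hj1, hj⟩ := htop.mpr h1
    have hj1' : 12 < (j : ℕ) := hj1
    have hj2 : (j : ℕ) < 120 := j.2
    by_cases hj3 : 18 < (j : ℕ)
    · exact ⟨j, hj3, hj⟩
    · have h3 := E22a_vle p j hj1' (by omega)
      have h4 := E22a_c3 j hj1' hj2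
      rw [E22a_al, E22a_c2' j hj1' (by omega), mul_zero, sub_zero] at hj
      rw [hp0, hp1, le_div_iff₀ h4] at h3
      have h5 : vout p * vl (co j 3) ≤ k 3 * vl (co j 3) := by linarith
      have h7 : k 3 = vout p := le_antisymm hkv (le_of_mul_le_mul_right h5 h4)
      obtain ⟨i, hi1, hi2, hi⟩ := E22a_sex p
      refine ⟨⟨i, by rw [E22a_sz.1]; omega⟩, hi1, ?_⟩
      refine le_antisymm ?_ (hk _)
      rw [E22a_al]
      change √φ * vl (co i 4) - k 0 * vl (co i 0) - k 1 * vl (co i 1) -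
        k 2 * vl (co i 2) - k 3 * vl (co i 3) ≤ 0
      rw [hi, hp0, hp1, ← h7, div_le_iff₀ (E22a_c2 i hi1 hi2)] at h2
      linarith

private theorem E22a_vPAr : PAr Set.univ vout := by
  unfold vout
  refine PAr.inf' _ _ (fun i p => (√φ * vl (co i 4) - p 0 * vl (co i 0) - p 1 * vl (co i 1)) / vl (co i 3))
    fun i _ => ?_
  have h0 := (PAr.coord (Set.univ : Set (Fin 2 → ℝ)) 0).smul (vl (co i 0))
  have h1 := (PAr.coord (Set.univ : Set (Fin 2 → ℝ)) 1).smul (vl (co i 1))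
  have hc := PAr.const (Set.univ : Set (Fin 2 → ℝ)) (√φ * vl (co i 4))
  refine (PAr.smul (vl (co i 3))⁻¹ ((hc.sub h0).sub h1)).congr fun p _ => ?_
  rw [div_eq_inv_mul]
  ring

theorem s3_PAr : PAr Set.univ s3 := by
  unfold s3
  refine PAr.inf' _ _ (fun i p => (√φ * vl (co i 4) - p 0 * vl (co i 0) - p 1 * vl (co i 1) -
    vout p * vl (co i 3)) / vl (co i 2)) fun i _ => ?_
  have h0 := (PAr.coord (Set.univ : Set (Fin 2 → ℝ)) 0).smul (vl (co i 0))
  have h1 := (PAr.coord (Set.univ : Set (Fin 2 → ℝ)) 1).smul (vl (co i 1))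
  have h2 := E22a_vPAr.smul (vl (co i 3))
  have hc := PAr.const (Set.univ : Set (Fin 2 → ℝ)) (√φ * vl (co i 4))
  refine (PAr.smul (vl (co i 2))⁻¹ (((hc.sub h0).sub h1).sub h2)).congr fun p _ => ?_
  rw [div_eq_inv_mul]
  ring

/-- The points over `p`. -/
private theorem E22a_e3 (a b c t : ℝ) : (fun l : Fin 3 => (![a, b, c, t] : Fin 4 → ℝ) l.castSucc) = ![a, b, c] := by
  funext l
  fin_cases l <;> rfl

private theorem E22a_e2 (p : Fin 2 → ℝ) (c t : ℝ) :
    (fun l : Fin 2 => (![p 0, p 1, c, t] : Fin 4 → ℝ) l.castSucc.castSucc) = p := by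
  funext l
  fin_cases l <;> rfl

private theorem E22a_e2' (p : Fin 2 → ℝ) (c : ℝ) :
    (fun l : Fin 2 => (![p 0, p 1, c] : Fin 3 → ℝ) l.castSucc) = p := by
  funext l
  fin_cases l <;> rfl

private theorem E22a_l3 (a b c t : ℝ) : (![a, b, c, t] : Fin 4 → ℝ) (Fin.last 3) = t := rfl

private theorem E22a_l2 (a b c : ℝ) : (![a, b, c] : Fin 3 → ℝ) (Fin.last 2) = c := rfl

private theorem E22a_mem (p : Fin 2 → ℝ) (hp : p ∈ (sys 2 (by omega) (by omega)).P1) (s t : ℝ) (hs : 0 ≤ s)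
    (hs' : s ≤ tau 2 p) (ht : t = tau 3 ![p 0, p 1, s]) :
    (![p 0, p 1, s] : Fin 3 → ℝ) ∈ (sys 3 (by omega) (by omega)).P1 ∧
      (![p 0, p 1, s, t] : Fin 4 → ℝ) ∈ (sys 4 (by omega) (by omega)).P1 := by
  have h3 : (![p 0, p 1, s] : Fin 3 → ℝ) ∈ (sys 3 (by omega) (by omega)).P1 := by
    rw [mem_P1_succ 2 (by omega) (by omega), E22a_e2', E22a_l2]
    exact ⟨hp, hs, hs'⟩
  refine ⟨h3, ?_⟩
  rw [mem_P1_succ 3 (by omega) (by omega), E22a_e3, E22a_l3]
  obtain ⟨m, M, hm, hM⟩ := tau_bd 3 (by omega) (by omega)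
  refine ⟨h3, ?_, ht.le⟩
  rw [ht]
  exact hm.le.trans (hM _ h3).1

private theorem E22a_A (p : Fin 2 → ℝ) (hp : p ∈ (sys 2 (by omega) (by omega)).P1) : 0 < s3 p := by
  by_contra hneg
  rw [not_lt] at hneg
  obtain ⟨m, M, hm, hM⟩ := tau_bd 2 (by omega) (by omega)
  obtain ⟨t, ht⟩ : ∃ t, t = tau 3 ![p 0, p 1, 0] := ⟨_, rfl⟩
  obtain ⟨h3, h4⟩ := E22a_mem p hp 0 t (le_refl _) (hm.le.trans (hM p hp).1) ht
  have hin := in_act _ h4
  rw [E22a_e3, E22a_e2] at hin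
  obtain ⟨i, hi, hi0⟩ := hin.mpr ⟨ht, hneg⟩
  have h5 : (sys 4 (by omega) (by omega)).al ⟨5, by rw [E22a_sz.1]; omega⟩
      (![p 0, p 1, 0, t] : Fin 4 → ℝ) = 0 := by
    rw [E22a_al]
    have hc := coord_chk.2.2.1
    have g0 := hc 0 (by omega)
    have g1 := hc 1 (by omega)
    have g3 := hc 3 (by omega)
    have g4 := hc 4 (by omega)
    change √φ * vl (co 5 4) - p 0 * vl (co 5 0) - p 1 * vl (co 5 1) - 0 * vl (co 5 2) -
      t * vl (co 5 3) = 0
    rw [if_neg (by omega)] at g0 g1 g3 g4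
    rw [g0, g1, g3, g4, (vl_zero_iff (0, 0)).mpr rfl]
    ring
  have hlt : (i : ℕ) < 120 := i.2
  have horth := RA.orth_of_act (sys 4 (by omega) (by omega)) ⟨5, by rw [E22a_sz.1]; omega⟩ i
    (fun h => by
      have := congrArg Fin.val h
      change 5 = (i : ℕ) at this
      omega) _ (P1_ball _ _ h4) h5 hi0
  have h6 : lor (ev 4 5) (ev 4 i) = 0 := horth
  rw [lor_ev, vl_zero_iff] at h6
  exact g5_chk i hlt hi h6

private theorem E22a_B (p : Fin 2 → ℝ) (hp : p ∈ (sys 2 (by omega) (by omega)).P1) : s3 p < tau 2 p := by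
  by_contra hneg
  rw [not_lt] at hneg
  obtain ⟨m, M, hm, hM⟩ := tau_bd 2 (by omega) (by omega)
  obtain ⟨c, hc⟩ : ∃ c, c = tau 2 p := ⟨_, rfl⟩
  rw [← hc] at hneg
  obtain ⟨t, ht⟩ : ∃ t, t = tau 3 ![p 0, p 1, c] := ⟨_, rfl⟩
  obtain ⟨h3, h4⟩ := E22a_mem p hp c t (by rw [hc]; exact hm.le.trans (hM p hp).1) hc.le ht
  have hout := out_act _ h4
  rw [E22a_e3, E22a_e2] at hout
  obtain ⟨i, hi1, hi2, hi0⟩ := hout.mpr ⟨ht, hneg⟩
  have htop := top_act 2 (by omega) (by omega) _ h3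
  rw [E22a_e2', E22a_l2] at htop
  obtain ⟨j, hj1, hj0⟩ := htop.mpr hc
  have hj2 : (j : ℕ) < 12 := j.2
  have hj1' : 5 < (j : ℕ) := hj1
  have hj3 : (j : ℕ) < sz (3 + 1) := by
    have : sz (3 + 1) = 120 := rfl
    rw [this]
    omega
  have hlow := al_low 3 (by omega) (by omega) j j.2 hj3 (![p 0, p 1, c, t] : Fin 4 → ℝ)
  rw [E22a_e3] at hlow
  have hj4 := hlow.trans hj0
  have horth := RA.orth_of_act (sys 4 (by omega) (by omega)) _ i
    (fun h => by
      have := congrArg Fin.val h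
      change (j : ℕ) = (i : ℕ) at this
      omega) _ (P1_ball _ _ h4) hj4 hi0
  have h6 : lor (ev 4 j) (ev 4 i) = 0 := horth
  rw [lor_ev, vl_zero_iff] at h6
  exact no34_chk j hj2 hj1' i hi2 hi1 h6

theorem s3_bd : ∃ δ : ℝ, 0 < δ ∧ ∀ p ∈ (sys 2 (by omega) (by omega)).P1, δ ≤ s3 p ∧ δ ≤ tau 2 p - s3 p := by
  have hK := P1_compact (sys 2 (by omega) (by omega))
  rcases Set.eq_empty_or_nonempty (sys 2 (by omega) (by omega)).P1 with hE | hne
  · refine ⟨1, one_pos, fun p hp => ?_⟩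
    rw [hE] at hp
    exact absurd hp (Set.notMem_empty p)
  · have hs : Continuous s3 := continuousOn_univ.mp s3_PAr.1
    have ht : Continuous (tau 2) := continuousOn_univ.mp (tau_PAr 2 (by omega) (by omega)).1
    obtain ⟨a, ha, hamin⟩ := hK.exists_isMinOn hne hs.continuousOn
    obtain ⟨b, hb, hbmin⟩ := hK.exists_isMinOn hne (ht.sub hs).continuousOn
    refine ⟨min (s3 a) (tau 2 b - s3 b), lt_min (E22a_A a ha) (sub_pos.mpr (E22a_B b hb)), fun p hp => ?_⟩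
    exact ⟨(min_le_left _ _).trans (hamin hp), (min_le_right _ _).trans (hbmin hp)⟩

end Pool.Agent.MP_455d73_gt.PQ
end

section

/-!
TASK E22b (medium-hard): the piecewise affine splitting of the 120-cell as the product of two pentagons; the maps.

Notation: `r = √φ`, `κ = 1/r`, `c = r - κ`, `0 < c < κ` (`num`). For `k : Fin 4 → ℝ`: `p = (k 0, k 1) = k l.castSucc.castSucc`, `t₃ = tau 2 p`,
`s₃ = s3 p`, `t₄ = tau 3 (k 0, k 1, k 2)`. Let `0 < m ≤ t₄ ≤ M` (`tau_bd 3`), `t₃ ≤ M'` (`tau_bd 2`; replace `M`, `M'` by `max · 1` to have them positive), `δ` from `s3_bd`. The map: `z₀ = bend a b a' b' s₃ t₃ c κ (k 2)` with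
`a = c / M'`, `b = c / δ`, `a' = (κ - c) / M'`, `b' = (κ - c) / δ` (so `a s₃ ≤ c ≤ b s₃` as `δ ≤ s₃ ≤ t₃ ≤ M'`, and `a' (t₃ - s₃) ≤ κ - c ≤ b' (t₃ - s₃)`), and
`z₁ = rs a₃ b₃ t₄ h (k 3)` with `h = min κ (r - z₀)`, `a₃ = c / M`, `b₃ = κ / m` (for `0 ≤ z₀ ≤ κ`: `c ≤ h ≤ κ`, so `a₃ t₄ ≤ h ≤ b₃ t₄`).
`f k = (p; z₀, z₁)`; `g (p; z₀, z₁) = (p, k₂, k₃)` with `k₂ = bendi … z₀`, `k₃ = rsi a₃ b₃ (tau 3 (p, k₂)) h z₁`.
`P1` of dimension 4: `p ∈ P1` of dimension 2, `0 ≤ k 2 ≤ t₃`, `0 ≤ k 3 ≤ t₄` (`mem_P1_succ` for `n = 3`, `n = 2`); `P1_two` for the second pentagon: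
`(z₀, z₁)` is in it iff `0 ≤ z₀ ≤ κ`, `0 ≤ z₁ ≤ h`. As `bend` is increasing with `bend 0 = 0`, `bend s₃ = c`, `bend t₃ = κ`:
`0 ≤ k 2 ≤ t₃ ↔ 0 ≤ z₀ ≤ κ`, `z₀ = 0 ↔ k 2 = 0`, `z₀ = κ ↔ k 2 = t₃`, `z₀ ≤ c ↔ k 2 ≤ s₃`, `c ≤ z₀ ↔ s₃ ≤ k 2`; likewise for `rs` with `rs 0 = 0`,
`rs t₄ = h` (`rs_zero`, `rs_end`, `rs_strictMono`).
The last five statements: `z₁ = κ` iff `z₁ = h` and `h = κ` (as `z₁ ≤ h ≤ κ`), i.e. `k 3 = t₄` and `z₀ ≤ r - κ = c`, i.e. `k 2 ≤ s₃`. `z₀ + z₁ = r` iff `z₁ = h` and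
`h = r - z₀`, i.e. `k 3 = t₄` and `c ≤ z₀`, i.e. `s₃ ≤ k 2`.
Piecewise affine: `PA_iff`, `PAr.coord`, `PAr.bend`, `PAr.rs`, `PAr.min`, `PAr.sub`, `PAr.const`, `PAr.comp` with `Y = Set.univ` for `tau 2`, `tau 3`, `s3` (`tau_PAr`, `s3_PAr`)
and the maps `k ↦ (k 0, k 1)`, `k ↦ (k 0, k 1, k 2)` (`PA_iff`).
-/

set_option autoImplicit false

open Finset
open scoped Classical goldenRatio

namespace Pool.Agent.MP_455d73_gt.PQ

/-- first component of the map -/
private noncomputable def E22b_z (a b a' b' c K : ℝ) (p : Fin 2 → ℝ) (y : ℝ) : ℝ :=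
  bend a b a' b' (s3 p) (tau 2 p) c K y

/-- the inverse of `E22b_z` -/
private noncomputable def E22b_y (a b a' b' c K : ℝ) (p : Fin 2 → ℝ) (z : ℝ) : ℝ :=
  bendi a b a' b' (s3 p) (tau 2 p) c K z

/-- the map -/
private noncomputable def E22b_f (a b a' b' a3 b3 c K r : ℝ) (k : Fin 4 → ℝ) : Fin 2 ⊕ Fin 2 → ℝ :=
  Sum.elim (fun l => k l.castSucc.castSucc)
    (fun l => if l = 0 then E22b_z a b a' b' c K (fun l => k l.castSucc.castSucc) (k 2) else
      rs a3 b3 (tau 3 (fun l => k l.castSucc))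
        (min K (r - E22b_z a b a' b' c K (fun l => k l.castSucc.castSucc) (k 2))) (k 3))

private theorem E22b_f0 (a b a' b' a3 b3 c K r : ℝ) (k : Fin 4 → ℝ) : E22b_f a b a' b' a3 b3 c K r k (Sum.inr 0) =
    E22b_z a b a' b' c K (fun l => k l.castSucc.castSucc) (k 2) := by simp [E22b_f]

private theorem E22b_f1 (a b a' b' a3 b3 c K r : ℝ) (k : Fin 4 → ℝ) : E22b_f a b a' b' a3 b3 c K r k (Sum.inr 1) =
    rs a3 b3 (tau 3 (fun l => k l.castSucc))
      (min K (r - E22b_z a b a' b' c K (fun l => k l.castSucc.castSucc) (k 2))) (k 3) := by simp [E22b_f]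

/-- the third coordinate of the inverse map -/
private noncomputable def E22b_2 (a b a' b' c K : ℝ) (z : Fin 2 ⊕ Fin 2 → ℝ) : ℝ :=
  E22b_y a b a' b' c K (fun l => z (Sum.inl l)) (z (Sum.inr 0))

/-- the inverse map -/
private noncomputable def E22b_g (a b a' b' a3 b3 c K r : ℝ) (z : Fin 2 ⊕ Fin 2 → ℝ) : Fin 4 → ℝ :=
  ![z (Sum.inl 0), z (Sum.inl 1), E22b_2 a b a' b' c K z,
    rsi a3 b3 (tau 3 ![z (Sum.inl 0), z (Sum.inl 1), E22b_2 a b a' b' c K z]) (min K (r - z (Sum.inr 0))) (z (Sum.inr 1))]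

private theorem E22b_PAz (a b a' b' c K : ℝ) {ι : Type} [Fintype ι] (X : Set (ι → ℝ)) (P : (ι → ℝ) → (Fin 2 → ℝ))
    (y : (ι → ℝ) → ℝ) (hP : PA X P) (hy : PAr X y) : PAr X (fun x => E22b_z a b a' b' c K (P x) (y x)) :=
  PAr.bend a b a' b' c K (PAr.comp s3_PAr hP (fun _ _ => Set.mem_univ _))
    (PAr.comp (tau_PAr 2 (by norm_num) (by norm_num)) hP (fun _ _ => Set.mem_univ _)) hy

private theorem E22b_PAy (a b a' b' c K : ℝ) {ι : Type} [Fintype ι] (X : Set (ι → ℝ)) (P : (ι → ℝ) → (Fin 2 → ℝ))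
    (y : (ι → ℝ) → ℝ) (hP : PA X P) (hy : PAr X y) : PAr X (fun x => E22b_y a b a' b' c K (P x) (y x)) :=
  PAr.bendi a b a' b' c K (PAr.comp s3_PAr hP (fun _ _ => Set.mem_univ _))
    (PAr.comp (tau_PAr 2 (by norm_num) (by norm_num)) hP (fun _ _ => Set.mem_univ _)) hy

private theorem E22b_PAf (a b a' b' a3 b3 c K r : ℝ) (X : Set (Fin 4 → ℝ)) : PA X (E22b_f a b a' b' a3 b3 c K r) := by
  have hP : PA X (fun k : Fin 4 → ℝ => (fun l : Fin 2 => k l.castSucc.castSucc)) :=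
    PA_iff.mpr (fun j => PAr.coord X _)
  have hQ : PA X (fun k : Fin 4 → ℝ => (fun l : Fin 3 => k l.castSucc)) :=
    PA_iff.mpr (fun j => PAr.coord X _)
  have hz := E22b_PAz a b a' b' c K X _ _ hP (PAr.coord X 2)
  rw [PA_iff]
  rintro (l | l)
  · exact PAr.coord X _
  · by_cases hl : l = 0
    · subst hl
      refine PAr.congr hz ?_
      intro x _
      simp [E22b_f]
    · have h2 : PAr X (fun k => rs a3 b3 (tau 3 (fun l => k l.castSucc))
        (min K (r - E22b_z a b a' b' c K (fun l => k l.castSucc.castSucc) (k 2))) (k 3)) :=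
        PAr.rs a3 b3 (PAr.comp (tau_PAr 3 (by norm_num) (by norm_num)) hQ (fun _ _ => Set.mem_univ _))
          (PAr.min (PAr.const X K) (PAr.sub (PAr.const X r) hz)) (PAr.coord X 3)
      refine PAr.congr h2 ?_
      intro x _
      simp [E22b_f, hl]

private theorem E22b_PAg (a b a' b' a3 b3 c K r : ℝ) (X : Set (Fin 2 ⊕ Fin 2 → ℝ)) : PA X (E22b_g a b a' b' a3 b3 c K r) := by
  have hP : PA X (fun z : Fin 2 ⊕ Fin 2 → ℝ => (fun l : Fin 2 => z (Sum.inl l))) :=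
    PA_iff.mpr (fun j => PAr.coord X _)
  have h2 : PAr X (E22b_2 a b a' b' c K) := E22b_PAy a b a' b' c K X _ _ hP (PAr.coord X _)
  have hQ : PA X (fun z : Fin 2 ⊕ Fin 2 → ℝ => ![z (Sum.inl 0), z (Sum.inl 1), E22b_2 a b a' b' c K z]) := by
    rw [PA_iff]
    intro j
    fin_cases j
    · exact PAr.coord X _
    · exact PAr.coord X _
    · exact h2
  have h3 : PAr X (fun z => rsi a3 b3 (tau 3 ![z (Sum.inl 0), z (Sum.inl 1), E22b_2 a b a' b' c K z])
      (min K (r - z (Sum.inr 0))) (z (Sum.inr 1))) :=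
    PAr.rsi a3 b3 (PAr.comp (tau_PAr 3 (by norm_num) (by norm_num)) hQ (fun _ _ => Set.mem_univ _))
      (PAr.min (PAr.const X K) (PAr.sub (PAr.const X r) (PAr.coord X _))) (PAr.coord X _)
  rw [PA_iff]
  intro j
  fin_cases j
  · exact PAr.coord X _
  · exact PAr.coord X _
  · exact h2
  · exact h3

private theorem E22b_P4 (k : Fin 4 → ℝ) : k ∈ (sys 4 (by omega) (by omega)).P1 ↔
    ((fun l : Fin 2 => k l.castSucc.castSucc) ∈ (sys 2 (by omega) (by omega)).P1 ∧ 0 ≤ k 2 ∧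
      k 2 ≤ tau 2 (fun l => k l.castSucc.castSucc)) ∧ 0 ≤ k 3 ∧ k 3 ≤ tau 3 (fun l => k l.castSucc) := by
  have e1 := mem_P1_succ 3 (by omega) (by omega) k
  have e2 := mem_P1_succ 2 (by omega) (by omega) (fun l => k l.castSucc)
  exact e1.trans (and_congr_left' e2)

private theorem E22b_P3 (k : Fin 3 → ℝ) : k ∈ (sys 3 (by omega) (by omega)).P1 ↔
    (fun l : Fin 2 => k l.castSucc) ∈ (sys 2 (by omega) (by omega)).P1 ∧ 0 ≤ k 2 ∧
      k 2 ≤ tau 2 (fun l => k l.castSucc) :=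
  mem_P1_succ 2 (by omega) (by omega) k

theorem split22_maps : ∃ (f : (Fin 4 → ℝ) → (Fin 2 ⊕ Fin 2 → ℝ)) (g : (Fin 2 ⊕ Fin 2 → ℝ) → (Fin 4 → ℝ)),
    PA (sys 4 (by omega) (by omega)).P1 f ∧
    PA (prodSet (sys 2 (by omega) (by omega)).P1 (sys 2 (by omega) (by omega)).P1) g ∧
    (∀ k ∈ (sys 4 (by omega) (by omega)).P1,
      f k ∈ prodSet (sys 2 (by omega) (by omega)).P1 (sys 2 (by omega) (by omega)).P1 ∧ g (f k) = k) ∧
    (∀ z ∈ prodSet (sys 2 (by omega) (by omega)).P1 (sys 2 (by omega) (by omega)).P1,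
      g z ∈ (sys 4 (by omega) (by omega)).P1 ∧ f (g z) = z) ∧
    ∀ k ∈ (sys 4 (by omega) (by omega)).P1,
      (∀ l : Fin 2, f k (Sum.inl l) = k l.castSucc.castSucc) ∧
      (f k (Sum.inr 0) = 0 ↔ k 2 = 0) ∧
      (f k (Sum.inr 0) = 1 / √φ ↔ k 2 = tau 2 (fun l => k l.castSucc.castSucc)) ∧
      (f k (Sum.inr 1) = 0 ↔ k 3 = 0) ∧
      (f k (Sum.inr 1) = 1 / √φ ↔
        k 3 = tau 3 (fun l => k l.castSucc) ∧ k 2 ≤ s3 (fun l => k l.castSucc.castSucc)) ∧
      (f k (Sum.inr 0) + f k (Sum.inr 1) = √φ ↔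
        k 3 = tau 3 (fun l => k l.castSucc) ∧ s3 (fun l => k l.castSucc.castSucc) ≤ k 2) := by
  obtain ⟨hK0, hKr, hr2, hφ⟩ := num
  obtain ⟨m, M, hm, hmM⟩ := tau_bd 3 (by norm_num) (by norm_num)
  obtain ⟨m', M', hm', hmM'⟩ := tau_bd 2 (by norm_num) (by norm_num)
  obtain ⟨δ, hδ, hs⟩ := s3_bd
  generalize hK : 1 / √φ = K at hK0 hKr hr2
  generalize hr : √φ = r at hKr hr2
  obtain ⟨c, hc⟩ : ∃ c, c = r - K := ⟨_, rfl⟩
  obtain ⟨N, hN⟩ : ∃ N, N = max M 1 := ⟨_, rfl⟩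
  obtain ⟨N', hN'⟩ : ∃ N', N' = max M' 1 := ⟨_, rfl⟩
  have hN1 : M ≤ N := by rw [hN]; exact le_max_left _ _
  have hN0 : 0 < N := by rw [hN]; exact lt_of_lt_of_le one_pos (le_max_right _ _)
  have hN1' : M' ≤ N' := by rw [hN']; exact le_max_left _ _
  have hN0' : 0 < N' := by rw [hN']; exact lt_of_lt_of_le one_pos (le_max_right _ _)
  have hc0 : 0 < c := by linarith
  have hcK : c < K := by linarith
  obtain ⟨a, ha⟩ : ∃ a, a = c / N' := ⟨_, rfl⟩
  obtain ⟨b, hb⟩ : ∃ b, b = c / δ := ⟨_, rfl⟩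
  obtain ⟨a', ha'⟩ : ∃ a', a' = (K - c) / N' := ⟨_, rfl⟩
  obtain ⟨b', hb'⟩ : ∃ b', b' = (K - c) / δ := ⟨_, rfl⟩
  obtain ⟨a3, ha3⟩ : ∃ a3, a3 = c / N := ⟨_, rfl⟩
  obtain ⟨b3, hb3⟩ : ∃ b3, b3 = K / m := ⟨_, rfl⟩
  have pa : 0 < a := by rw [ha]; positivity
  have pb : 0 < b := by rw [hb]; positivity
  have pKc : 0 < K - c := by linarith
  have pa' : 0 < a' := by rw [ha']; positivity
  have pb' : 0 < b' := by rw [hb']; positivity
  have pa3 : 0 < a3 := by rw [ha3]; positivity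
  have pb3 : 0 < b3 := by rw [hb3]; positivity
  -- the facts on the first reparametrisation
  have F : ∀ p ∈ (sys 2 (by omega) (by omega)).P1, a * s3 p ≤ c ∧ c ≤ b * s3 p ∧ a' * (tau 2 p - s3 p) ≤ K - c ∧
      K - c ≤ b' * (tau 2 p - s3 p) ∧ 0 ≤ s3 p ∧ s3 p ≤ tau 2 p := by
    intro p hp
    obtain ⟨s1, s2⟩ := hs p hp
    obtain ⟨t1, t2⟩ := hmM' p hp
    refine ⟨?_, ?_, ?_, ?_, by linarith, by linarith⟩
    · rw [ha, div_mul_eq_mul_div, div_le_iff₀ hN0']
      exact mul_le_mul_of_nonneg_left (by linarith) hc0.le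
    · rw [hb, div_mul_eq_mul_div, le_div_iff₀ hδ]
      exact mul_le_mul_of_nonneg_left s1 hc0.le
    · rw [ha', div_mul_eq_mul_div, div_le_iff₀ hN0']
      exact mul_le_mul_of_nonneg_left (by linarith) pKc.le
    · rw [hb', div_mul_eq_mul_div, le_div_iff₀ hδ]
      exact mul_le_mul_of_nonneg_left s2 pKc.le
  have Zm : ∀ p ∈ (sys 2 (by omega) (by omega)).P1, StrictMono (E22b_z a b a' b' c K p) := fun p hp => by
    obtain ⟨f1, f2, f3, f4, f5, f6⟩ := F p hp
    exact bend_strictMono a b a' b' _ _ c K pa pb pa' pb' f1 f2 f3 f4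
  have Z0 : ∀ p ∈ (sys 2 (by omega) (by omega)).P1, E22b_z a b a' b' c K p 0 = 0 := fun p hp => by
    obtain ⟨f1, f2, f3, f4, f5, f6⟩ := F p hp
    exact bend_zero a b a' b' _ _ c K pa pb pa' pb' f1 f2 f3 f4 f5 hc0.le
  have Zs : ∀ p ∈ (sys 2 (by omega) (by omega)).P1, E22b_z a b a' b' c K p (s3 p) = c := fun p hp => by
    obtain ⟨f1, f2, f3, f4, f5, f6⟩ := F p hp
    exact bend_mid a b a' b' _ _ c K pa pb pa' pb' f1 f2 f3 f4
  have Zt : ∀ p ∈ (sys 2 (by omega) (by omega)).P1, E22b_z a b a' b' c K p (tau 2 p) = K := fun p hp => by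
    obtain ⟨f1, f2, f3, f4, f5, f6⟩ := F p hp
    exact bend_end a b a' b' _ _ c K pa pb pa' pb' f1 f2 f3 f4 f6 hcK.le
  have YZ : ∀ p ∈ (sys 2 (by omega) (by omega)).P1, ∀ y, E22b_y a b a' b' c K p (E22b_z a b a' b' c K p y) = y := fun p hp y => by
    obtain ⟨f1, f2, f3, f4, f5, f6⟩ := F p hp
    exact bendi_bend a b a' b' _ _ c K pa pb pa' pb' f1 f2 f3 f4 y
  have ZY : ∀ p ∈ (sys 2 (by omega) (by omega)).P1, ∀ z, E22b_z a b a' b' c K p (E22b_y a b a' b' c K p z) = z := fun p hp z => by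
    obtain ⟨f1, f2, f3, f4, f5, f6⟩ := F p hp
    exact bend_bendi a b a' b' _ _ c K pa pb pa' pb' f1 f2 f3 f4 z
  -- the facts on the second one
  have H : ∀ q ∈ (sys 3 (by omega) (by omega)).P1, ∀ z, 0 ≤ z → z ≤ K → a3 * tau 3 q ≤ min K (r - z) ∧
      min K (r - z) ≤ b3 * tau 3 q := by
    intro q hq z hz hzK
    obtain ⟨t1, t2⟩ := hmM q hq
    have h1 : c ≤ min K (r - z) := le_min hcK.le (by linarith)
    have h2 : min K (r - z) ≤ K := min_le_left _ _
    constructor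
    · refine le_trans ?_ h1
      rw [ha3, div_mul_eq_mul_div, div_le_iff₀ hN0]
      exact mul_le_mul_of_nonneg_left (by linarith) hc0.le
    · refine le_trans h2 ?_
      rw [hb3, div_mul_eq_mul_div, le_div_iff₀ hm]
      exact mul_le_mul_of_nonneg_left t1 hK0.le
  have P2 : ∀ z : Fin 2 → ℝ, z ∈ (sys 2 (by omega) (by omega)).P1 ↔ 0 ≤ z 0 ∧ z 0 ≤ K ∧ 0 ≤ z 1 ∧ z 1 ≤ K ∧ z 0 + z 1 ≤ r := by
    intro z
    rw [P1_two (by omega) (by omega) z, hK, hr]
  -- the first map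
  have A : ∀ k ∈ (sys 4 (by omega) (by omega)).P1,
      (fun l : Fin 2 => k l.castSucc.castSucc) ∈ (sys 2 (by omega) (by omega)).P1 ∧
      (fun l : Fin 3 => k l.castSucc) ∈ (sys 3 (by omega) (by omega)).P1 ∧
      (0 ≤ k 2 ∧ k 2 ≤ tau 2 (fun l => k l.castSucc.castSucc)) ∧ (0 ≤ k 3 ∧ k 3 ≤ tau 3 (fun l => k l.castSucc)) ∧
      (0 ≤ E22b_z a b a' b' c K (fun l => k l.castSucc.castSucc) (k 2) ∧
        E22b_z a b a' b' c K (fun l => k l.castSucc.castSucc) (k 2) ≤ K) := by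
    intro k hk
    obtain ⟨⟨hp, h20, h2t⟩, h30, h3t⟩ := (E22b_P4 k).mp hk
    refine ⟨hp, (E22b_P3 _).mpr ⟨hp, h20, h2t⟩, ⟨h20, h2t⟩, ⟨h30, h3t⟩, ?_, ?_⟩
    · rw [← Z0 _ hp]
      exact (Zm _ hp).monotone h20
    · exact ((Zm _ hp).monotone h2t).trans (Zt _ hp).le
  refine ⟨E22b_f a b a' b' a3 b3 c K r, E22b_g a b a' b' a3 b3 c K r, E22b_PAf _ _ _ _ _ _ _ _ _ _,
    E22b_PAg _ _ _ _ _ _ _ _ _ _, ?_, ?_, ?_⟩
  · intro k hk
    obtain ⟨hp, hq, ⟨h20, h2t⟩, ⟨h30, h3t⟩, hz0, hzK⟩ := A k hk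
    obtain ⟨g1, g2⟩ := H _ hq _ hz0 hzK
    obtain ⟨w1, w2⟩ := rs_mem a3 b3 _ _ _ pa3 pb3 g1 g2 h30 h3t
    constructor
    · refine ⟨hp, ?_⟩
      rw [P2]
      have e0 : E22b_f a b a' b' a3 b3 c K r k (Sum.inr 0) =
        E22b_z a b a' b' c K (fun l => k l.castSucc.castSucc) (k 2) := by simp [E22b_f]
      have e1 : E22b_f a b a' b' a3 b3 c K r k (Sum.inr 1) = rs a3 b3 (tau 3 (fun l => k l.castSucc))
        (min K (r - E22b_z a b a' b' c K (fun l => k l.castSucc.castSucc) (k 2))) (k 3) := by simp [E22b_f]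
      rw [e0, e1]
      have q1 := min_le_left K (r - E22b_z a b a' b' c K (fun l => k l.castSucc.castSucc) (k 2))
      have q2 := min_le_right K (r - E22b_z a b a' b' c K (fun l => k l.castSucc.castSucc) (k 2))
      exact ⟨hz0, hzK, w1, by linarith, by linarith⟩
    · have e0 : E22b_f a b a' b' a3 b3 c K r k (Sum.inr 0) =
        E22b_z a b a' b' c K (fun l => k l.castSucc.castSucc) (k 2) := by simp [E22b_f]
      have e1 : E22b_f a b a' b' a3 b3 c K r k (Sum.inr 1) = rs a3 b3 (tau 3 (fun l => k l.castSucc))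
        (min K (r - E22b_z a b a' b' c K (fun l => k l.castSucc.castSucc) (k 2))) (k 3) := by simp [E22b_f]
      have e2 : E22b_2 a b a' b' c K (E22b_f a b a' b' a3 b3 c K r k) = k 2 := by
        unfold E22b_2
        rw [e0]
        exact YZ _ hp _
      have e3 : (![E22b_f a b a' b' a3 b3 c K r k (Sum.inl 0), E22b_f a b a' b' a3 b3 c K r k (Sum.inl 1),
          E22b_2 a b a' b' c K (E22b_f a b a' b' a3 b3 c K r k)] : Fin 3 → ℝ) = fun l => k l.castSucc := by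
        rw [e2]
        funext j
        fin_cases j <;> rfl
      unfold E22b_g
      rw [e3, e2, e0, e1, rsi_rs _ _ _ _ _ pa3 pb3]
      funext j
      fin_cases j <;> rfl
  · intro z hz
    obtain ⟨hp, hz2⟩ := hz
    rw [P2] at hz2
    obtain ⟨z0, zK, y0, yK, hsum⟩ := hz2
    have e2 : E22b_z a b a' b' c K (fun l => z (Sum.inl l)) (E22b_2 a b a' b' c K z) = z (Sum.inr 0) := ZY _ hp _
    have k20 : 0 ≤ E22b_2 a b a' b' c K z := by
      rw [← (Zm _ hp).le_iff_le, Z0 _ hp, e2]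
      exact z0
    have k2t : E22b_2 a b a' b' c K z ≤ tau 2 (fun l => z (Sum.inl l)) := by
      rw [← (Zm _ hp).le_iff_le, Zt _ hp, e2]
      exact zK
    have hq : ![z (Sum.inl 0), z (Sum.inl 1), E22b_2 a b a' b' c K z] ∈ (sys 3 (by omega) (by omega)).P1 := by
      rw [E22b_P3]
      have : (fun l : Fin 2 => (![z (Sum.inl 0), z (Sum.inl 1), E22b_2 a b a' b' c K z] : Fin 3 → ℝ) l.castSucc) =
          fun l => z (Sum.inl l) := by
        funext j
        fin_cases j <;> rfl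
      rw [this]
      exact ⟨hp, k20, k2t⟩
    obtain ⟨g1, g2⟩ := H _ hq _ z0 zK
    have hle : z (Sum.inr 1) ≤ min K (r - z (Sum.inr 0)) := le_min yK (by linarith)
    obtain ⟨w1, w2⟩ := rsi_mem a3 b3 _ _ _ pa3 pb3 g1 g2 y0 hle
    have ep : (fun l : Fin 2 => E22b_g a b a' b' a3 b3 c K r z l.castSucc.castSucc) = fun l => z (Sum.inl l) := by
      funext j
      fin_cases j <;> rfl
    have eq : (fun l : Fin 3 => E22b_g a b a' b' a3 b3 c K r z l.castSucc) =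
        ![z (Sum.inl 0), z (Sum.inl 1), E22b_2 a b a' b' c K z] := by
      funext j
      fin_cases j <;> rfl
    have eg2 : E22b_g a b a' b' a3 b3 c K r z 2 = E22b_2 a b a' b' c K z := rfl
    have eg3 : E22b_g a b a' b' a3 b3 c K r z 3 = rsi a3 b3 (tau 3 ![z (Sum.inl 0), z (Sum.inl 1), E22b_2 a b a' b' c K z])
      (min K (r - z (Sum.inr 0))) (z (Sum.inr 1)) := rfl
    constructor
    · rw [E22b_P4, ep, eq, eg2, eg3]
      exact ⟨⟨hp, k20, k2t⟩, w1, w2⟩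
    · funext j
      rcases j with l | l
      · exact congrFun ep l
      · fin_cases l
        · change E22b_f a b a' b' a3 b3 c K r (E22b_g a b a' b' a3 b3 c K r z) (Sum.inr 0) = z (Sum.inr 0)
          rw [E22b_f0, ep, eg2]
          exact e2
        · change E22b_f a b a' b' a3 b3 c K r (E22b_g a b a' b' a3 b3 c K r z) (Sum.inr 1) = z (Sum.inr 1)
          rw [E22b_f1, ep, eq, eg2, eg3, e2, rs_rsi _ _ _ _ _ pa3 pb3]
  · intro k hk
    obtain ⟨hp, hq, ⟨h20, h2t⟩, ⟨h30, h3t⟩, hz0, hzK⟩ := A k hk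
    obtain ⟨g1, g2⟩ := H _ hq _ hz0 hzK
    obtain ⟨w1, w2⟩ := rs_mem a3 b3 _ _ _ pa3 pb3 g1 g2 h30 h3t
    have rm := rs_strictMono a3 b3 (tau 3 (fun l => k l.castSucc))
      (min K (r - E22b_z a b a' b' c K (fun l => k l.castSucc.castSucc) (k 2))) pa3 pb3
    have r0 := rs_zero a3 b3 _ _ g2
    have rt := rs_end a3 b3 _ _ g1
    have e0 : E22b_f a b a' b' a3 b3 c K r k (Sum.inr 0) =
        E22b_z a b a' b' c K (fun l => k l.castSucc.castSucc) (k 2) := by simp [E22b_f]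
    have e1 : E22b_f a b a' b' a3 b3 c K r k (Sum.inr 1) = rs a3 b3 (tau 3 (fun l => k l.castSucc))
        (min K (r - E22b_z a b a' b' c K (fun l => k l.castSucc.castSucc) (k 2))) (k 3) := by simp [E22b_f]
    have zs := Zs _ hp
    have q1 := min_le_left K (r - E22b_z a b a' b' c K (fun l => k l.castSucc.castSucc) (k 2))
    have q2 := min_le_right K (r - E22b_z a b a' b' c K (fun l => k l.castSucc.castSucc) (k 2))
    have ls : k 2 ≤ s3 (fun l => k l.castSucc.castSucc) ↔ E22b_z a b a' b' c K (fun l => k l.castSucc.castSucc) (k 2) ≤ c := by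
      rw [← (Zm _ hp).le_iff_le, zs]
    have sl : s3 (fun l => k l.castSucc.castSucc) ≤ k 2 ↔ c ≤ E22b_z a b a' b' c K (fun l => k l.castSucc.castSucc) (k 2) := by
      rw [← (Zm _ hp).le_iff_le, zs]
    refine ⟨fun l => rfl, ?_, ?_, ?_, ?_, ?_⟩
    · rw [e0]
      constructor
      · intro h
        exact (Zm _ hp).injective (h.trans (Z0 _ hp).symm)
      · intro h
        rw [h]
        exact Z0 _ hp
    · rw [e0]
      constructor
      · intro h
        exact (Zm _ hp).injective (h.trans (Zt _ hp).symm)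
      · intro h
        rw [h]
        exact Zt _ hp
    · rw [e1]
      constructor
      · intro h
        exact rm.injective (h.trans r0.symm)
      · intro h
        rw [h]
        exact r0
    · rw [e1, ls]
      constructor
      · intro h
        have hh : min K (r - E22b_z a b a' b' c K (fun l => k l.castSucc.castSucc) (k 2)) = K := le_antisymm q1 (by linarith)
        refine ⟨rm.injective ?_, ?_⟩
        · rw [rt, h, hh]
        · rw [hh] at q2
          linarith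
      · rintro ⟨h3, h4⟩
        have hh : min K (r - E22b_z a b a' b' c K (fun l => k l.castSucc.castSucc) (k 2)) = K := min_eq_left (by linarith)
        rw [h3, rt, hh]
    · rw [e0, e1, sl]
      constructor
      · intro h
        have hh : min K (r - E22b_z a b a' b' c K (fun l => k l.castSucc.castSucc) (k 2)) =
            r - E22b_z a b a' b' c K (fun l => k l.castSucc.castSucc) (k 2) := le_antisymm q2 (by linarith)
        refine ⟨rm.injective ?_, ?_⟩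
        · rw [rt]
          linarith
        · rw [hh] at q1
          linarith
      · rintro ⟨h3, h4⟩
        have hh : min K (r - E22b_z a b a' b' c K (fun l => k l.castSucc.castSucc) (k 2)) =
            r - E22b_z a b a' b' c K (fun l => k l.castSucc.castSucc) (k 2) := min_eq_right (by linarith)
        rw [h3, rt, hh]
        ring

end Pool.Agent.MP_455d73_gt.PQ
end

section

/-!
TASK E31 (medium): the 120-cell splits as the product of the dodecahedron and the segment.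

`r = √φ`, `K = 1/r > 0` (`num`). Let `0 < m ≤ tau 3 ≤ M` on `P1` of dimension 3 (`tau_bd`; replace `M` by `max M 1`). `f k = (k 0, k 1, k 2; z)` with `z = rs a b (tau 3 (k 0, k 1, k 2)) K (k 3)`, `a = K / M`, `b = K / m`;
`g (k'; z) = (k', rsi a b (tau 3 k') K z)` (`Fin.snoc`). `mem_P1_succ` for `n = 3`; `P1_one`: `0 ≤ z ≤ K`. `rs_mem`, `rsi_mem`, `rsi_rs`, `rs_rsi`.
`κ i = inl i` for `i < 12`, `inr 0` for `i = 12`, `inr 1` for `12 < i`. `actL`: `al_low` for `n = 3`. `actR`: `al_one`: `z = 0 ↔ k 3 = 0` (`rs_zero`,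
`rs_strictMono`) `↔ al 12 k = 0` (`al_mid`); `z = K ↔ k 3 = tau 3` (`rs_end`) `↔ top_act`.
`comL`: `lor_ev_low` (`i, i' < 12`). `comR`: if `i = 12 < i'`: `lor (ev 4 12) (ev 4 i') = - vl (co i' 3) ≠ 0` (`co_pos 3`; or `lor_ev` and
`g12_chk`), so the hypothesis is false. `surj`: `0, …, 11`; `12`, `13`.
Piecewise affine: `PA_iff`, `PAr.coord`, `PAr.rs`, `PAr.rsi`, `PAr.const`, `PAr.comp` with `Y = Set.univ` for `tau 3` (`tau_PAr`).
-/

set_option autoImplicit false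

open Finset
open scoped Classical goldenRatio

namespace Pool.Agent.MP_455d73_gt.PQ

theorem g12_chk : ∀ i < 120, 12 < i → gr 12 i ≠ (0, 0) := by
  decide +kernel

private theorem E31_sz3 : sz 3 = 12 := rfl

private theorem E31_sz4 : sz 4 = 120 := rfl

private theorem E31_sz1 : sz 1 = 2 := rfl

/-- The map of the walls. -/
def E31_k (i : Fin (sz 4)) : Fin (sz 3) ⊕ Fin (sz 1) :=
  if h : (i : ℕ) < sz 3 then Sum.inl ⟨i, h⟩
  else if (i : ℕ) = sz 3 then Sum.inr ⟨0, by rw [E31_sz1]; omega⟩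
  else Sum.inr ⟨1, by rw [E31_sz1]; omega⟩

private theorem E31_inl (i : Fin (sz 4)) (j : Fin (sz 3)) : E31_k i = Sum.inl j ↔ (i : ℕ) = j := by
  unfold E31_k
  split_ifs with h1 h2
  · rw [Sum.inl.injEq, Fin.ext_iff]
  · constructor
    · intro h
      cases h
    · intro h
      exact absurd (h ▸ j.2) h1
  · constructor
    · intro h
      cases h
    · intro h
      exact absurd (h ▸ j.2) h1

private theorem E31_inr0 (i : Fin (sz 4)) (j : Fin (sz 1)) (hj : (j : ℕ) = 0) :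
    E31_k i = Sum.inr j ↔ (i : ℕ) = sz 3 := by
  unfold E31_k
  split_ifs with h1 h2
  · constructor
    · intro h
      cases h
    · intro h
      omega
  · constructor
    · intro _
      exact h2
    · intro _
      exact congrArg Sum.inr (Fin.ext hj.symm)
  · constructor
    · intro h
      have h3 := congrArg (Sum.elim (fun _ => 5) (fun x : Fin (sz 1) => (x : ℕ))) h
      simp only [Sum.elim_inr] at h3
      omega
    · intro h
      exact absurd h h2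

private theorem E31_inr1 (i : Fin (sz 4)) (j : Fin (sz 1)) (hj : (j : ℕ) = 1) :
    E31_k i = Sum.inr j ↔ sz 3 < (i : ℕ) := by
  unfold E31_k
  split_ifs with h1 h2
  · constructor
    · intro h
      cases h
    · intro h
      omega
  · constructor
    · intro h
      have h3 := congrArg (Sum.elim (fun _ => 5) (fun x : Fin (sz 1) => (x : ℕ))) h
      simp only [Sum.elim_inr] at h3
      omega
    · intro h
      omega
  · constructor
    · intro _
      omega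
    · intro _
      exact congrArg Sum.inr (Fin.ext hj.symm)

theorem split31 : Nonempty (Split (sys 4 (by omega) (by omega)) (sys 3 (by omega) (by omega))
    (sys 1 (by omega) (by omega))) := by
  obtain ⟨m, M₀, hm, hM₀⟩ := tau_bd 3 (by omega) (by omega)
  obtain ⟨M, hM⟩ : ∃ M : ℝ, M = max M₀ 1 := ⟨_, rfl⟩
  obtain ⟨K, hK⟩ : ∃ K : ℝ, K = 1 / √φ := ⟨_, rfl⟩
  have hK0 : 0 < K := by
    rw [hK]
    exact num.1
  have hMpos : 0 < M := by
    rw [hM]
    exact lt_of_lt_of_le one_pos (le_max_right _ _)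
  have ha : 0 < K / M := div_pos hK0 hMpos
  have hb : 0 < K / m := div_pos hK0 hm
  have hbd : ∀ k ∈ (sys 3 (by omega) (by omega)).P1, K / M * tau 3 k ≤ K ∧ K ≤ K / m * tau 3 k := by
    intro k hk
    obtain ⟨h1, h2⟩ := hM₀ k hk
    have h3 : tau 3 k ≤ M := h2.trans (by rw [hM]; exact le_max_left _ _)
    constructor
    · rw [div_mul_eq_mul_div, div_le_iff₀ hMpos]
      exact mul_le_mul_of_nonneg_left h3 hK0.le
    · rw [div_mul_eq_mul_div, le_div_iff₀ hm]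
      exact mul_le_mul_of_nonneg_left h1 hK0.le
  have hmem := mem_P1_succ 3 (by omega) (by omega)
  have htau : ∀ X : Set (Fin 4 → ℝ), PAr X (fun k => tau 3 (fun l : Fin 3 => k l.castSucc)) := by
    intro X
    exact PAr.comp (tau_PAr 3 (by omega) (by omega)) (f := fun (k : Fin 4 → ℝ) (l : Fin 3) => k l.castSucc)
      (PA_iff.2 (fun l => PAr.coord X l.castSucc)) (fun _ _ => Set.mem_univ _)
  have htau' : ∀ X : Set (Fin 3 ⊕ Fin 1 → ℝ), PAr X (fun z => tau 3 (fun l : Fin 3 => z (Sum.inl l))) := by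
    intro X
    exact PAr.comp (tau_PAr 3 (by omega) (by omega)) (f := fun (z : Fin 3 ⊕ Fin 1 → ℝ) (l : Fin 3) => z (Sum.inl l))
      (PA_iff.2 (fun l => PAr.coord X (Sum.inl l))) (fun _ _ => Set.mem_univ _)
  let f : (Fin 4 → ℝ) → (Fin 3 ⊕ Fin 1 → ℝ) := fun k =>
    Sum.elim (fun l => k l.castSucc)
      (fun _ => rs (K / M) (K / m) (tau 3 (fun l : Fin 3 => k l.castSucc)) K (k (Fin.last 3)))
  let g : (Fin 3 ⊕ Fin 1 → ℝ) → (Fin 4 → ℝ) := fun z =>
    Fin.snoc (α := fun _ => ℝ) (fun l : Fin 3 => z (Sum.inl l))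
      (rsi (K / M) (K / m) (tau 3 (fun l : Fin 3 => z (Sum.inl l))) K (z (Sum.inr 0)))
  have hfl : ∀ k, (fun x => f k (Sum.inl x)) = fun l : Fin 3 => k l.castSucc := fun k => rfl
  have hfr : ∀ k x, f k (Sum.inr x) =
      rs (K / M) (K / m) (tau 3 (fun l : Fin 3 => k l.castSucc)) K (k (Fin.last 3)) := fun k x => rfl
  have hgc : ∀ z (l : Fin 3), g z l.castSucc = z (Sum.inl l) := by
    intro z l
    exact Fin.snoc_castSucc (α := fun _ => ℝ) _ _ _
  have hgl : ∀ z, g z (Fin.last 3) =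
      rsi (K / M) (K / m) (tau 3 (fun l : Fin 3 => z (Sum.inl l))) K (z (Sum.inr 0)) := by
    intro z
    exact Fin.snoc_last (α := fun _ => ℝ) _ _
  refine ⟨⟨E31_k, f, g, ?_, ?_, ?_, ?_, ?_, ?_, ?_, ?_, ?_⟩⟩
  · rw [PA_iff]
    rintro (l | l)
    · exact PAr.coord _ l.castSucc
    · exact PAr.rs _ _ (htau _) (PAr.const _ K) (PAr.coord _ (Fin.last 3))
  · rw [PA_iff]
    intro j
    refine Fin.lastCases ?_ (fun l => ?_) j
    · refine PAr.congr (f := fun z => rsi (K / M) (K / m) (tau 3 (fun l : Fin 3 => z (Sum.inl l))) K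
        (z (Sum.inr 0))) ?_ (fun z _ => (hgl z).symm)
      exact PAr.rsi _ _ (htau' _) (PAr.const _ K) (PAr.coord _ (Sum.inr 0))
    · exact PAr.congr (f := fun z => z (Sum.inl l)) (PAr.coord _ _) (fun z _ => (hgc z l).symm)
  · intro k hk
    obtain ⟨h1, h2, h3⟩ := (hmem k).1 hk
    obtain ⟨h4, h5⟩ := hbd _ h1
    refine ⟨⟨h1, ?_⟩, ?_⟩
    · rw [P1_one]
      have h6 := rs_mem (K / M) (K / m) _ K (k (Fin.last 3)) ha hb h4 h5 h2 h3
      rw [← hK]
      exact h6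
    · funext j
      refine Fin.lastCases ?_ (fun l => ?_) j
      · rw [hgl]
        exact rsi_rs _ _ _ _ _ ha hb
      · exact hgc _ _
  · rintro z ⟨h1, h2⟩
    obtain ⟨h4, h5⟩ := hbd _ h1
    rw [P1_one, ← hK] at h2
    have h6 := rsi_mem (K / M) (K / m) _ K (z (Sum.inr 0)) ha hb h4 h5 h2.1 h2.2
    have hgz : (fun l : Fin 3 => g z l.castSucc) = fun l => z (Sum.inl l) := funext (hgc z)
    constructor
    · rw [hmem, hgz, hgl]
      exact ⟨h1, h6⟩
    · funext j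
      rcases j with l | l
      · exact hgc z l
      · rw [hfr, hgz, hgl, rs_rsi _ _ _ _ _ ha hb]
        rw [Subsingleton.elim l 0]
  · intro k hk j
    rw [hfl]
    have hj4 : (j : ℕ) < sz 4 := lt_trans j.2 (by rw [E31_sz3, E31_sz4]; omega)
    have h1 := al_low 3 (by omega) (by omega) (j : ℕ) j.2 hj4 k
    constructor
    · intro h
      exact ⟨⟨j, hj4⟩, (E31_inl _ _).2 rfl, h1.trans h⟩
    · rintro ⟨i, hi, h⟩
      have h2 : i = ⟨j, hj4⟩ := Fin.ext ((E31_inl _ _).1 hi)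
      rw [h2] at h
      exact h1.symm.trans h
  · intro k hk j
    obtain ⟨h1, h2, h3⟩ := (hmem k).1 hk
    obtain ⟨h4, h5⟩ := hbd _ h1
    have hmono := rs_strictMono (K / M) (K / m) (tau 3 (fun l : Fin 3 => k l.castSucc)) K ha hb
    have hlt : sz 3 < sz 4 := by rw [E31_sz3, E31_sz4]; omega
    have hj2 : (j : ℕ) < 2 := j.2
    rcases (by omega : (j : ℕ) = 0 ∨ (j : ℕ) = 1) with hj | hj
    · have e1 := (al_one (by omega) (by omega) (fun x => f k (Sum.inr x))).1 (hj ▸ j.2)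
      have e2 : j = ⟨0, hj ▸ j.2⟩ := Fin.ext hj
      rw [e2, e1, hfr]
      have e3 := al_mid 3 (by omega) (by omega) hlt k
      have e4 : rs (K / M) (K / m) (tau 3 (fun l : Fin 3 => k l.castSucc)) K (k (Fin.last 3)) = 0 ↔
          k (Fin.last 3) = 0 := by
        conv_lhs => rw [← rs_zero (K / M) (K / m) (tau 3 (fun l : Fin 3 => k l.castSucc)) K h5]
        exact hmono.injective.eq_iff
      rw [e4]
      constructor
      · intro h
        exact ⟨⟨sz 3, hlt⟩, (E31_inr0 _ _ rfl).2 rfl, e3.trans h⟩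
      · rintro ⟨i, hi, h⟩
        have h6 : i = ⟨sz 3, hlt⟩ := Fin.ext ((E31_inr0 _ _ rfl).1 hi)
        rw [h6] at h
        exact e3.symm.trans h
    · have e0 : 1 < sz 1 := by rw [E31_sz1]; omega
      have e1 := (al_one (by omega) (by omega) (fun x => f k (Sum.inr x))).2 e0
      have e2 : j = ⟨1, e0⟩ := Fin.ext hj
      rw [e2, e1, hfr, ← hK]
      have e4 : φ * (K - rs (K / M) (K / m) (tau 3 (fun l : Fin 3 => k l.castSucc)) K
          (k (Fin.last 3))) = 0 ↔ k (Fin.last 3) = tau 3 (fun l : Fin 3 => k l.castSucc) := by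
        have hφ : φ ≠ 0 := num.2.2.2.ne'
        rw [mul_eq_zero, or_iff_right hφ, sub_eq_zero]
        conv_lhs => rw [← rs_end (K / M) (K / m) (tau 3 (fun l : Fin 3 => k l.castSucc)) K h4]
        rw [rs_end (K / M) (K / m) (tau 3 (fun l : Fin 3 => k l.castSucc)) K h4]
        constructor
        · intro h
          refine hmono.injective ?_
          rw [rs_end (K / M) (K / m) (tau 3 (fun l : Fin 3 => k l.castSucc)) K h4]
          exact h.symm
        · intro h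
          rw [h, rs_end (K / M) (K / m) (tau 3 (fun l : Fin 3 => k l.castSucc)) K h4]
      rw [e4, ← top_act 3 (by omega) (by omega) k hk]
      constructor
      · rintro ⟨i, hi, h⟩
        exact ⟨i, (E31_inr1 _ _ rfl).2 hi, h⟩
      · rintro ⟨i, hi, h⟩
        exact ⟨i, (E31_inr1 _ _ rfl).1 hi, h⟩
  · intro i i' j j' hi hi' h
    right
    rw [E31_inl] at hi hi'
    have h1 : lor (ev 3 j) (ev 3 j') = lor (ev 4 j) (ev 4 j') :=
      lor_ev_low 3 (by omega) (by omega) j j.2 j'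
    have h2 : lor (ev 4 i) (ev 4 i') = 0 := h
    rw [hi, hi'] at h2
    exact h1.trans h2
  · intro i i' j j' hi hi' h
    left
    have h2 : lor (ev 4 i) (ev 4 i') = 0 := h
    rw [lor_ev, vl_zero_iff] at h2
    have hi4 : (i : ℕ) < 120 := i.2
    have hi4' : (i' : ℕ) < 120 := i'.2
    have hj2 : (j : ℕ) < 2 := j.2
    have hj2' : (j' : ℕ) < 2 := j'.2
    have hsym : gr (i' : ℕ) i = gr i i' := by
      unfold gr ml
      ext
      · simp only [Prod.fst_add, Prod.fst_sub]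
        ring
      · simp only [Prod.snd_add, Prod.snd_sub]
        ring
    rcases (by omega : (j : ℕ) = 0 ∨ (j : ℕ) = 1) with hj | hj
    · rcases (by omega : (j' : ℕ) = 0 ∨ (j' : ℕ) = 1) with hj' | hj'
      · exact Fin.ext (hj.trans hj'.symm)
      · exfalso
        rw [E31_inr0 _ _ hj] at hi
        rw [E31_inr1 _ _ hj'] at hi'
        rw [E31_sz3] at hi hi'
        rw [hi] at h2
        exact g12_chk i' hi4' hi' h2
    · rcases (by omega : (j' : ℕ) = 0 ∨ (j' : ℕ) = 1) with hj' | hj'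
      · exfalso
        rw [E31_inr1 _ _ hj] at hi
        rw [E31_inr0 _ _ hj'] at hi'
        rw [E31_sz3] at hi hi'
        rw [← hsym, hi'] at h2
        exact g12_chk i hi4 hi h2
      · exact Fin.ext (hj.trans hj'.symm)
  · rintro (j | j)
    · have hj4 : (j : ℕ) < sz 4 := lt_trans j.2 (by rw [E31_sz3, E31_sz4]; omega)
      exact ⟨⟨j, hj4⟩, (E31_inl _ _).2 rfl⟩
    · have hj2 : (j : ℕ) < 2 := j.2
      rcases (by omega : (j : ℕ) = 0 ∨ (j : ℕ) = 1) with hj | hj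
      · exact ⟨⟨sz 3, by rw [E31_sz3, E31_sz4]; omega⟩, (E31_inr0 _ _ hj).2 rfl⟩
      · exact ⟨⟨13, by rw [E31_sz4]; omega⟩, (E31_inr1 _ _ hj).2 (by rw [E31_sz3]; simp)⟩

end Pool.Agent.MP_455d73_gt.PQ
end
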