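import Pool.Agent.Lib.MP_455d73_gt.PQ.Chart
import Pool.Agent.Lib.MP_455d73_gt.PQ.Word
import Pool.Agent.Lib.MP_455d73_gt.Mg.G032

section

/-!
TASK B2c (medium): chains of small steps.

Let `γ t = r(t) • ((1 - t) • x.1 + t • y.1)` for `t ∈ [0, 1]`, where `v(t) = (1 - t) • x.1 + t • y.1` satisfies
`lor (v t) (v t) = -(1-t)^2 - t^2 + 2 t (1-t) lor x y < 0` (`Hyp.lor_lt`) and `0 < (v t).2`, and `r(t) = (√(- lor (v t) (v t)))⁻¹`:
a point of `Hyp n`, continuous in `t`, `γ 0 = x`, `γ 1 = y`. The function `F (s, t) = - lor (γ s) (γ t)` is continuous on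
`[0, 1] × [0, 1]`, so uniformly continuous (compact), and `F (s, s) = 1`. So there is `m` with `F (i / m, (i+1) / m) < 1 + δ`
for all `i < m`; put `c i = γ (min (i / m) 1)`. (It is convenient to define `γ` on all of `ℝ` by using `max 0 (min t 1)`.)
-/

set_option autoImplicit false

open Finset
open scoped Classical

namespace Pool.Agent.MP_455d73_gt.PQ

variable {n : ℕ}

private noncomputable def B2c_v (x y : Hyp n) (t : Set.Icc (0 : ℝ) 1) : Mk n :=
  (1 - (t : ℝ)) • x.1 + (t : ℝ) • y.1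

private theorem B2c_neg (x y : Hyp n) (t : Set.Icc (0 : ℝ) 1) :
    lor (B2c_v x y t) (B2c_v x y t) < 0 := by
  obtain ⟨t, h0, h1⟩ := t
  have hxy := Hyp.lor_lt x y
  unfold B2c_v
  simp only [lor_add_left, lor_add_right, lor_smul_left, lor_smul_right, Hyp.lor_self]
  rw [lor_comm y.1 x.1]
  have h2 : 0 ≤ t * (1 - t) := mul_nonneg h0 (by linarith)
  have h3 : t * (1 - t) * lor x.1 y.1 ≤ 0 := mul_nonpos_of_nonneg_of_nonpos h2 hxy.le
  nlinarith [sq_nonneg (1 - t - t), sq_nonneg t, sq_nonneg (1 - t)]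

private theorem B2c_pos (x y : Hyp n) (t : Set.Icc (0 : ℝ) 1) : 0 < (B2c_v x y t).2 := by
  obtain ⟨t, h0, h1⟩ := t
  have hx := x.2.2
  have hy := y.2.2
  unfold B2c_v
  simp only [Prod.snd_add, Prod.smul_snd, smul_eq_mul]
  rcases h0.lt_or_eq with h | h
  · have h2 : 0 ≤ (1 - t) * x.1.2 := mul_nonneg (by linarith) hx.le
    have h3 : 0 < t * y.1.2 := mul_pos h hy
    linarith
  · rw [← h]
    linarith

private theorem B2c_mem (x y : Hyp n) (t : Set.Icc (0 : ℝ) 1) :
    lor ((√(- lor (B2c_v x y t) (B2c_v x y t)))⁻¹ • B2c_v x y t)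
      ((√(- lor (B2c_v x y t) (B2c_v x y t)))⁻¹ • B2c_v x y t) = -1 ∧
    0 < ((√(- lor (B2c_v x y t) (B2c_v x y t)))⁻¹ • B2c_v x y t).2 := by
  have h0 : 0 < - lor (B2c_v x y t) (B2c_v x y t) := by
    have := B2c_neg x y t
    linarith
  have h1 : 0 < √(- lor (B2c_v x y t) (B2c_v x y t)) := Real.sqrt_pos.mpr h0
  constructor
  · rw [lor_smul_left, lor_smul_right]
    have h2 : lor (B2c_v x y t) (B2c_v x y t) = - (√(- lor (B2c_v x y t) (B2c_v x y t)) ^ 2) := by
      rw [Real.sq_sqrt h0.le]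
      ring
    generalize √(- lor (B2c_v x y t) (B2c_v x y t)) = r at h1 h2
    rw [h2]
    field_simp
  · simp only [Prod.smul_snd, smul_eq_mul]
    exact mul_pos (inv_pos.mpr h1) (B2c_pos x y t)

private noncomputable def B2c_c (x y : Hyp n) (t : Set.Icc (0 : ℝ) 1) : Hyp n := ⟨_, B2c_mem x y t⟩

private theorem B2c_cont_v (x y : Hyp n) : Continuous (B2c_v x y) := by
  unfold B2c_v
  fun_prop

private theorem B2c_cont (x y : Hyp n) : Continuous (fun t => (B2c_c x y t).1) := by
  have hv := B2c_cont_v x y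
  have h1 : Continuous fun t => - lor (B2c_v x y t) (B2c_v x y t) :=
    (continuous_lor.comp (hv.prodMk hv)).neg
  refine Continuous.smul (Continuous.inv₀ (Real.continuous_sqrt.comp h1) fun t => ?_) hv
  have h0 : 0 < - lor (B2c_v x y t) (B2c_v x y t) := by
    have := B2c_neg x y t
    linarith
  exact (Real.sqrt_pos.mpr h0).ne'

private theorem B2c_zero (x y : Hyp n) : B2c_c x y ⟨0, by norm_num⟩ = x := by
  apply Subtype.ext
  have hv : B2c_v x y ⟨0, by norm_num⟩ = x.1 := by
    unfold B2c_v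
    simp
  show (√(- lor (B2c_v x y ⟨0, by norm_num⟩) (B2c_v x y ⟨0, by norm_num⟩)))⁻¹ •
    B2c_v x y ⟨0, by norm_num⟩ = x.1
  rw [hv, Hyp.lor_self]
  simp

private theorem B2c_one (x y : Hyp n) : B2c_c x y ⟨1, by norm_num⟩ = y := by
  apply Subtype.ext
  have hv : B2c_v x y ⟨1, by norm_num⟩ = y.1 := by
    unfold B2c_v
    simp
  show (√(- lor (B2c_v x y ⟨1, by norm_num⟩) (B2c_v x y ⟨1, by norm_num⟩)))⁻¹ •
    B2c_v x y ⟨1, by norm_num⟩ = y.1
  rw [hv, Hyp.lor_self]
  simp

theorem chain (δ : ℝ) (hδ : 0 < δ) (x y : Hyp n) :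
    ∃ (m : ℕ) (c : ℕ → Hyp n), c 0 = x ∧ c m = y ∧ ∀ i < m, - lor (c i).1 (c (i + 1)).1 < 1 + δ := by
  have hF : Continuous (fun p : Set.Icc (0 : ℝ) 1 × Set.Icc (0 : ℝ) 1 =>
      - lor (B2c_c x y p.1).1 (B2c_c x y p.2).1) := by
    have h := B2c_cont x y
    exact (continuous_lor.comp ((h.comp continuous_fst).prodMk (h.comp continuous_snd))).neg
  have hU := CompactSpace.uniformContinuous_of_continuous hF
  rw [Metric.uniformContinuous_iff] at hU
  obtain ⟨η, hη, hU⟩ := hU δ hδ
  obtain ⟨k, hk⟩ := exists_nat_one_div_lt hη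
  have hm : (0 : ℝ) < (k : ℝ) + 1 := by positivity
  refine ⟨k + 1, fun i => B2c_c x y (Set.projIcc 0 1 zero_le_one ((i : ℝ) / (k + 1))), ?_, ?_, ?_⟩
  · have h : Set.projIcc (0 : ℝ) 1 zero_le_one (((0 : ℕ) : ℝ) / (k + 1)) = ⟨0, by norm_num⟩ := by
      rw [Nat.cast_zero, zero_div]
      exact Set.projIcc_of_mem zero_le_one _
    simp only [h]
    exact B2c_zero x y
  · have h : Set.projIcc (0 : ℝ) 1 zero_le_one (((k + 1 : ℕ) : ℝ) / (k + 1)) = ⟨1, by norm_num⟩ := by
      rw [Nat.cast_add, Nat.cast_one, div_self hm.ne']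
      exact Set.projIcc_of_mem zero_le_one _
    simp only [h]
    exact B2c_one x y
  · intro i hi
    have h1 : (i : ℝ) / (k + 1) ∈ Set.Icc (0 : ℝ) 1 := by
      constructor
      · positivity
      · rw [div_le_one hm]
        have : (i : ℝ) + 1 ≤ ((k + 1 : ℕ) : ℝ) := by exact_mod_cast hi
        push_cast at this
        linarith
    have h2 : ((i + 1 : ℕ) : ℝ) / (k + 1) ∈ Set.Icc (0 : ℝ) 1 := by
      constructor
      · positivity
      · rw [div_le_one hm]
        have : ((i + 1 : ℕ) : ℝ) ≤ ((k + 1 : ℕ) : ℝ) := by exact_mod_cast hi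
        push_cast at this ⊢
        linarith
    simp only [Set.projIcc_of_mem zero_le_one h1, Set.projIcc_of_mem zero_le_one h2]
    have h3 := @hU (⟨(i : ℝ) / (k + 1), h1⟩, ⟨((i + 1 : ℕ) : ℝ) / (k + 1), h2⟩)
      (⟨(i : ℝ) / (k + 1), h1⟩, ⟨(i : ℝ) / (k + 1), h1⟩) (by
        rw [Prod.dist_eq, dist_self, max_eq_right dist_nonneg, Subtype.dist_eq, Real.dist_eq]
        have h4 : ((i + 1 : ℕ) : ℝ) / (k + 1) - (i : ℝ) / (k + 1) = 1 / (k + 1) := by
          push_cast
          ring
        rw [h4, abs_of_pos (by positivity)]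
        exact hk)
    rw [Real.dist_eq] at h3
    have h5 := (abs_lt.mp h3).2
    simp only [Hyp.lor_self] at h5
    linarith

end Pool.Agent.MP_455d73_gt.PQ
end

section

/-!
TASK B1a (medium): the key lemma on lengths. `R.wd σ l` is the product of the generators of the word `l`;
`R.s i` is an involution (`reflFun_reflFun`), `σ i` too, and they commute for orthogonal walls.

`wd_cons`: `List.prod_cons`. `wd_cancel`: `R.s i * R.s i = 1` by `reflFun_reflFun`. `wd_swap`: for orthogonal walls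
`R.s i * R.s j = R.s j * R.s i` (computation with `reflFun`: both are `x - 2 lor x e_i e_i - 2 lor x e_j e_j`), and `hσ.2`.

`len_half`: Let `l` be a word of minimal length `m` among the words with the same product, and suppose that every word
with the same product as `i :: l` has length at least `m`. Then the chamber `l P` is in the inner half-space of `i`.
Induction on `m`. `m = 0`: `l = []`, `x ∈ P`. `m + 1`: `l = j :: l'`; `l'` is minimal (if `wd l'' = wd l'` then
`wd (j :: l'') = wd l`, so `m + 1 ≤ l''.length + 1`). `j ≠ i`: otherwise `wd (i :: l) = wd l'` by `wd_cancel` and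
`m + 1 ≤ l'.length = m`. Let `y = (wd l').1 x`; the point in question is `R.s j y`.
Case `lor e_i e_j = 0`: if `wd l'' = wd (i :: l')`, then `wd (j :: l'') = wd (j :: i :: l') = wd (i :: j :: l') = wd (i :: l)`, so
`m + 1 ≤ l''.length + 1`; by induction for `(l', i)`: `lor y e_i ≤ 0`, and `lor (R.s j y) e_i = lor y e_i`.
Case `lor e_i e_j ≤ -1`: induction for `(l', j)` (a word with the product of `j :: l' = l` has length `≥ m + 1 ≥ m`):
`lor y e_j ≤ 0`, so `lor (R.s j y) e_j = - lor y e_j ≥ 0`, and `RA.disj` gives `lor (R.s j y) e_i < 0`.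
-/

set_option autoImplicit false

open Finset
open scoped Classical

namespace Pool.Agent.MP_455d73_gt.PQ

variable {n : ℕ} {I S : Type}

theorem RA.wd_cons (R : RA n I) (σ : I → Equiv.Perm S) (i : I) (l : List I) :
    R.wd σ (i :: l) = (R.s i, σ i) * R.wd σ l := by
  simp [RA.wd]

private theorem B1a_s_sq (R : RA n I) (i : I) : R.s i * R.s i = 1 := by
  ext1 x
  exact Subtype.ext (reflFun_reflFun (R.e i) (R.unit i) x.1)

private theorem B1a_s_comm (R : RA n I) (i j : I) (h : lor (R.e i) (R.e j) = 0) :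
    R.s i * R.s j = R.s j * R.s i := by
  ext1 x
  refine Subtype.ext ?_
  change (x.1 - (2 * lor x.1 (R.e j)) • R.e j) -
      (2 * lor (x.1 - (2 * lor x.1 (R.e j)) • R.e j) (R.e i)) • R.e i =
    (x.1 - (2 * lor x.1 (R.e i)) • R.e i) -
      (2 * lor (x.1 - (2 * lor x.1 (R.e i)) • R.e i) (R.e j)) • R.e j
  simp only [lor_sub_left, lor_smul_left, h, lor_comm (R.e j) (R.e i), mul_zero, sub_zero]
  abel

theorem RA.wd_cancel (R : RA n I) (σ : I → Equiv.Perm S) (hσ : R.Compat σ) (i : I) (l : List I) :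
    R.wd σ (i :: i :: l) = R.wd σ l := by
  rw [RA.wd_cons, RA.wd_cons, ← mul_assoc]
  have h : ((R.s i, σ i) * (R.s i, σ i) : Equiv.Perm (Hyp n) × Equiv.Perm S) = 1 := by
    rw [Prod.mk_mul_mk, B1a_s_sq, hσ.1 i]
    rfl
  rw [h, one_mul]

theorem RA.wd_swap (R : RA n I) (σ : I → Equiv.Perm S) (hσ : R.Compat σ) (i j : I)
    (h : lor (R.e i) (R.e j) = 0) (l : List I) : R.wd σ (i :: j :: l) = R.wd σ (j :: i :: l) := by
  rw [RA.wd_cons, RA.wd_cons, RA.wd_cons, RA.wd_cons, ← mul_assoc, ← mul_assoc]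
  have h' : ((R.s i, σ i) * (R.s j, σ j) : Equiv.Perm (Hyp n) × Equiv.Perm S) =
      (R.s j, σ j) * (R.s i, σ i) := by
    rw [Prod.mk_mul_mk, Prod.mk_mul_mk, B1a_s_comm R i j h, hσ.2 i j h]
  rw [h']

theorem RA.len_half (R : RA n I) (σ : I → Equiv.Perm S) (hσ : R.Compat σ) (m : ℕ) :
    ∀ l : List I, l.length = m → (∀ l', R.wd σ l' = R.wd σ l → m ≤ l'.length) →
      ∀ i, (∀ l', R.wd σ l' = R.wd σ (i :: l) → m ≤ l'.length) →
        ∀ x ∈ R.P, lor ((R.wd σ l).1 x).1 (R.e i) ≤ 0 := by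
  induction m with
  | zero =>
    intro l hl _ i _ x hx
    have h0 : l = [] := List.length_eq_zero_iff.1 hl
    subst h0
    exact hx i
  | succ m ih =>
    intro l hl hmin i hmi x hx
    obtain ⟨j, l', rfl⟩ : ∃ j l', l = j :: l' := by
      cases l with
      | nil => simp at hl
      | cons j l' => exact ⟨j, l', rfl⟩
    have hl' : l'.length = m := by simpa using hl
    have hminl' : ∀ l'', R.wd σ l'' = R.wd σ l' → m ≤ l''.length := by
      intro l'' h
      have h1 := hmin (j :: l'') (by rw [RA.wd_cons, RA.wd_cons, h])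
      rw [List.length_cons] at h1
      omega
    have hij : i ≠ j := by
      rintro rfl
      have h1 := hmi l' (R.wd_cancel σ hσ i l').symm
      omega
    have hy : (R.wd σ (j :: l')).1 x = R.s j ((R.wd σ l').1 x) := by
      rw [RA.wd_cons]
      rfl
    rw [hy]
    rcases R.gram i j hij with h0 | h1
    · have h2 := ih l' hl' hminl' i (by
        intro l'' h
        have h1 := hmi (j :: l'') (by
          rw [RA.wd_cons, h, ← RA.wd_cons, R.wd_swap σ hσ j i (by rw [lor_comm]; exact h0)])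
        rw [List.length_cons] at h1
        omega) x hx
      change lor (((R.wd σ l').1 x).1 - (2 * lor ((R.wd σ l').1 x).1 (R.e j)) • R.e j) (R.e i) ≤ 0
      rw [lor_sub_left, lor_smul_left, lor_comm (R.e j) (R.e i), h0, mul_zero, sub_zero]
      exact h2
    · have h2 := ih l' hl' hminl' j (by
        intro l'' h
        have := hmin l'' h
        omega) x hx
      have h3 := R.disj i j h1 (R.s j ((R.wd σ l').1 x))
      have h4 : lor (R.s j ((R.wd σ l').1 x)).1 (R.e j) = - lor ((R.wd σ l').1 x).1 (R.e j) := by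
        change lor (((R.wd σ l').1 x).1 - (2 * lor ((R.wd σ l').1 x).1 (R.e j)) • R.e j) (R.e j) = _
        rw [lor_sub_left, lor_smul_left, R.unit j]
        ring
      linarith

end Pool.Agent.MP_455d73_gt.PQ
end
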