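import Pool.Agent.Lib.MP_455d73_gt.PQ.Chart
import Pool.Agent.Lib.MP_455d73_gt.Mg.G032
import Pool.Agent.Lib.MP_455d73_gt.Mg.G036

section

/-!
TASK A5 (medium): the neighbourhoods defined by the Lorentz product.

`nbhd_lor`: for every point `p` and every neighbourhood `U` of `p` there are `δ > 0` and a neighbourhood `V` of `p` such that
`z ∈ U` if `q ∈ V` and `- lor q z < 1 + δ`.
Proof. Let `M = p.2 + 1` and let `q` be a point with `q.2 ≤ M`, let `z` be a point with `- lor q z = 1 + η`, `η ≥ 0` (see below).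
Put `w = z - q`. Then `lor w w = -2 - 2 lor q z = 2 η` and `lor q w = lor q z + 1 = - η`. With `a = √(∑ (w.1 i)^2)`, `b = |w.2|`,
`s = √(∑ (q.1 i)^2)`, `q.2 ^ 2 = 1 + s ^ 2`: `a^2 = 2 η + b^2` and, by Cauchy-Schwarz, `q.2 * b ≤ η + s a`. Hence
`q.2^2 a^2 ≤ 2 η q.2^2 + (η + s a)^2`, so `a^2 = (q.2^2 - s^2) a^2 ≤ 2 η q.2^2 + η^2 + 2 η s a ≤ 2 η M^2 + η^2 + 2 η M a`, which
gives `a ≤ 2 η M + √(2 η M^2 + η^2)`, and `b ≤ η + M a`. So `a` and `b` are as small as we like if `η` is small: the distance of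
`z` and `q` (maximum of the coordinates) is at most `max a b`. Choose `ε` with the ball of radius `2 ε` about `p` inside `U`
(`Metric.mem_nhds_iff` in `Mk n`; `Hyp n` has the induced metric), `δ` so small that `max a b < ε` for all `η < δ`, and
`V` = the ball of radius `min ε 1` about `p` (there `q.2 ≤ p.2 + 1`).
`lor_le_neg_one`: `lor q z ≤ -1`: reversed Cauchy-Schwarz: `∑ q.1 i * z.1 i ≤ s s'` with `q.2 = √(1+s^2)`, `z.2 = √(1+s'^2)`, and
`√(1+s^2) √(1+s'^2) ≥ 1 + s s'` (square: `1 + s^2 + s'^2 + s^2 s'^2 ≥ 1 + 2 s s' + s^2 s'^2`).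
`lor_eq_neg_one`: equality gives `η = 0`, so `a = b = 0` in the computation above.
-/

set_option autoImplicit false

open Finset
open scoped Classical

namespace Pool.Agent.MP_455d73_gt.PQ

variable {n : ℕ}

private theorem A5_scal (q z : Hyp n) :
    ∃ X Y Z : ℝ, X = ∑ i, q.1.1 i ^ 2 ∧ Y = ∑ i, z.1.1 i ^ 2 ∧ Z = ∑ i, q.1.1 i * z.1.1 i ∧
      X = q.1.2 ^ 2 - 1 ∧ Y = z.1.2 ^ 2 - 1 ∧ lor q.1 z.1 = Z - q.1.2 * z.1.2 ∧
      ∑ i, (z.1.1 i - q.1.1 i) ^ 2 = Y - 2 * Z + X ∧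
      (Z - X) ^ 2 ≤ X * (Y - 2 * Z + X) ∧ Z ^ 2 ≤ X * Y := by
  have hq : ∑ i, q.1.1 i ^ 2 - q.1.2 ^ 2 = -1 := by
    have := q.2.1
    simp only [lor, ← sq] at this
    exact this
  have hz : ∑ i, z.1.1 i ^ 2 - z.1.2 ^ 2 = -1 := by
    have := z.2.1
    simp only [lor, ← sq] at this
    exact this
  have h1 : ∑ i, (z.1.1 i - q.1.1 i) ^ 2 =
      ∑ i, z.1.1 i ^ 2 - 2 * ∑ i, q.1.1 i * z.1.1 i + ∑ i, q.1.1 i ^ 2 := by
    rw [Finset.mul_sum, ← Finset.sum_sub_distrib, ← Finset.sum_add_distrib]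
    exact Finset.sum_congr rfl fun i _ => by ring
  have h2 : ∑ i, q.1.1 i * (z.1.1 i - q.1.1 i) =
      ∑ i, q.1.1 i * z.1.1 i - ∑ i, q.1.1 i ^ 2 := by
    rw [← Finset.sum_sub_distrib]
    exact Finset.sum_congr rfl fun i _ => by ring
  have h3 := Finset.sum_mul_sq_le_sq_mul_sq univ q.1.1 fun i => z.1.1 i - q.1.1 i
  have h4 := Finset.sum_mul_sq_le_sq_mul_sq univ q.1.1 z.1.1
  rw [h2, h1] at h3
  exact ⟨_, _, _, rfl, rfl, rfl, by linarith, by linarith, rfl, h1, h3, h4⟩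

private theorem A5_one_le (q : Hyp n) : 1 ≤ q.1.2 := by
  have hq : ∑ i, q.1.1 i ^ 2 - q.1.2 ^ 2 = -1 := by
    have := q.2.1
    simp only [lor, ← sq] at this
    exact this
  have h0 : 0 ≤ ∑ i, q.1.1 i ^ 2 := Finset.sum_nonneg fun i _ => sq_nonneg _
  nlinarith [q.2.2]

theorem lor_le_neg_one (q z : Hyp n) : lor q.1 z.1 ≤ -1 := by
  obtain ⟨X, Y, Z, -, -, -, hX, hY, hl, -, -, h4⟩ := A5_scal q z
  have h1 := A5_one_le q
  have h2 := A5_one_le z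
  have h3 : 0 ≤ q.1.2 * z.1.2 - 1 := by nlinarith
  have h5 : Z ^ 2 ≤ (q.1.2 * z.1.2 - 1) ^ 2 := by
    rw [hX, hY] at h4
    nlinarith [sq_nonneg (q.1.2 - z.1.2)]
  have h6 := abs_le_of_sq_le_sq h5 h3
  rw [hl]
  linarith [(abs_le.1 h6).2]

/-- The main estimate. -/
private theorem A5_key (q z : Hyp n) (η : ℝ) (hη : lor q.1 z.1 = -1 - η) :
    0 ≤ η ∧ ∑ i, (z.1.1 i - q.1.1 i) ^ 2 = 2 * η + (z.1.2 - q.1.2) ^ 2 ∧
      (z.1.2 - q.1.2) ^ 2 ≤ 2 * q.1.2 ^ 2 * η + 2 * q.1.2 * (z.1.2 - q.1.2) * η := by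
  have h0 : 0 ≤ η := by linarith [lor_le_neg_one q z]
  obtain ⟨X, Y, Z, -, -, -, hX, hY, hl, h1, h3, -⟩ := A5_scal q z
  have hZ : Z = q.1.2 * z.1.2 - 1 - η := by linarith
  refine ⟨h0, ?_, ?_⟩
  · rw [h1, hX, hY, hZ]
    ring
  · rw [hX, hY, hZ] at h3
    nlinarith [sq_nonneg η]

theorem eq_of_lor_eq (q z : Hyp n) (h : lor q.1 z.1 = -1) : q = z := by
  obtain ⟨-, h1, h2⟩ := A5_key q z 0 (by rw [h]; ring)
  simp only [mul_zero, add_zero, zero_add] at h1 h2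
  have h3 : z.1.2 - q.1.2 = 0 := by
    have : (z.1.2 - q.1.2) ^ 2 = 0 := le_antisymm h2 (sq_nonneg _)
    exact pow_eq_zero_iff (two_ne_zero) |>.1 this
  rw [h3, zero_pow two_ne_zero] at h1
  have h4 := (Finset.sum_eq_zero_iff_of_nonneg fun i _ => sq_nonneg (z.1.1 i - q.1.1 i)).1 h1
  refine Subtype.ext (Prod.ext (funext fun i => ?_) (by linarith))
  have h5 := pow_eq_zero_iff (two_ne_zero) |>.1 (h4 i (mem_univ i))
  linarith

theorem nbhd_lor (p : Hyp n) (U : Set (Hyp n)) (hU : U ∈ nhds p) :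
    ∃ δ : ℝ, 0 < δ ∧ ∃ V ∈ nhds p, ∀ q ∈ V, ∀ z : Hyp n, - lor q.1 z.1 < 1 + δ → z ∈ U := by
  obtain ⟨ε, hε, hU⟩ := Metric.mem_nhds_iff.1 hU
  set M : ℝ := p.1.2 + 1 with hM
  have hM1 : 1 ≤ M := by linarith [A5_one_le p]
  have hM0 : 0 < M := by linarith
  refine ⟨min 1 ((ε / 2) ^ 2 / (10 * M ^ 2)), lt_min one_pos (by positivity),
    Metric.ball p (min (ε / 2) 1), Metric.ball_mem_nhds p (lt_min (half_pos hε) one_pos), ?_⟩
  intro q hq z hz
  obtain ⟨η, hη⟩ : ∃ η : ℝ, lor q.1 z.1 = -1 - η := ⟨-1 - lor q.1 z.1, by ring⟩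
  obtain ⟨h0, h1, h2⟩ := A5_key q z η hη
  have hη1 : η < min 1 ((ε / 2) ^ 2 / (10 * M ^ 2)) := by rw [hη] at hz; linarith
  have hη2 : η < 1 := hη1.trans_le (min_le_left _ _)
  have hη3 : 10 * M ^ 2 * η < (ε / 2) ^ 2 := by
    have := hη1.trans_le (min_le_right _ _)
    rw [lt_div_iff₀ (by positivity)] at this
    linarith
  have hq1 : dist q.1.2 p.1.2 < 1 := by
    have h3 : dist q.1 p.1 < 1 := (Metric.mem_ball.1 hq).trans_le (min_le_right _ _)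
    exact lt_of_le_of_lt (by rw [Prod.dist_eq]; exact le_max_right _ _) h3
  have hqM : q.1.2 ≤ M := by
    rw [Real.dist_eq] at hq1
    linarith [(abs_lt.1 hq1).2]
  have hq0 := A5_one_le q
  have hb : (z.1.2 - q.1.2) ^ 2 ≤ 8 * M ^ 2 * η := by
    have h3 : 2 * q.1.2 * (z.1.2 - q.1.2) * η ≤
        (z.1.2 - q.1.2) ^ 2 / 2 + 2 * (q.1.2 * η) ^ 2 := by
      nlinarith [sq_nonneg ((z.1.2 - q.1.2) - 2 * (q.1.2 * η))]
    have h4 : q.1.2 ^ 2 ≤ M ^ 2 := by nlinarith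
    have h5 : (q.1.2 * η) ^ 2 ≤ M ^ 2 * η := by
      have : (q.1.2 * η) ^ 2 = q.1.2 ^ 2 * (η * η) := by ring
      rw [this]
      have h6 : η * η ≤ η := by nlinarith
      exact mul_le_mul h4 h6 (mul_nonneg h0 h0) (by positivity)
    have h7 : 2 * q.1.2 ^ 2 * η ≤ 2 * M ^ 2 * η := by
      have := mul_le_mul_of_nonneg_right h4 h0
      linarith
    linarith
  have ha : ∑ i, (z.1.1 i - q.1.1 i) ^ 2 ≤ 10 * M ^ 2 * η := by
    rw [h1]
    have : 2 * η ≤ 2 * M ^ 2 * η := by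
      have h6 : 1 ≤ M ^ 2 := by nlinarith
      nlinarith
    linarith
  have hzq : dist z.1 q.1 < ε / 2 := by
    rw [Prod.dist_eq]
    refine max_lt ((dist_pi_lt_iff (half_pos hε)).2 fun i => ?_) ?_
    · rw [Real.dist_eq]
      refine abs_lt_of_sq_lt_sq ?_ (half_pos hε).le
      exact ((Finset.single_le_sum (f := fun i => (z.1.1 i - q.1.1 i) ^ 2)
        (fun i _ => sq_nonneg _) (mem_univ i)).trans ha).trans_lt hη3
    · rw [Real.dist_eq]
      refine abs_lt_of_sq_lt_sq ?_ (half_pos hε).le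
      refine lt_of_le_of_lt (hb.trans ?_) hη3
      have : 0 ≤ M ^ 2 * η := by positivity
      linarith
  refine hU (Metric.mem_ball.2 ?_)
  have h8 : dist q p < ε / 2 := (Metric.mem_ball.1 hq).trans_le (min_le_left _ _)
  calc dist z p ≤ dist z q + dist q p := dist_triangle _ _ _
    _ < ε / 2 + ε / 2 := add_lt_add hzq h8
    _ = ε := add_halves ε

end Pool.Agent.MP_455d73_gt.PQ
end

section

/-!
TASK B2 (medium): the images of the polytope cover hyperbolic space.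

`unif`: for every `p ∈ P` take the neighbourhood `U p` of `p` in which `∃ g ∈ G, g z ∈ P` (`RA.local_cover`) and `δ p`, `V p` from
`nbhd_lor`. `P` is compact (`R.cpt`; `R.P` is that set), so finitely many `V p` cover it (`IsCompact.elim_nhds_subcover`); let `δ` be
the minimum of the corresponding `δ p` (and `1` if `P` is empty).
`cover`: take the `δ` of `unif` and a chain `c 0 = ctr, …, c m = x` (`chain`). By induction on `i ≤ m`: there is `g ∈ G` with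
`g (c i) ∈ P`: `ctr ∈ P` (`R.ctr_neg`); if `g (c i) ∈ P`, then `- lor (g (c i)) (g (c (i+1))) = - lor (c i) (c (i+1)) < 1 + δ`
(`RA.G_isom`), so `h (g (c (i+1))) ∈ P` for some `h ∈ G`.
-/

set_option autoImplicit false

open Finset
open scoped Classical

namespace Pool.Agent.MP_455d73_gt.PQ

variable {n : ℕ} {I : Type}

theorem RA.unif [Finite I] (R : RA n I) :
    ∃ δ : ℝ, 0 < δ ∧ ∀ p ∈ R.P, ∀ z : Hyp n, - lor p.1 z.1 < 1 + δ → ∃ g ∈ R.G, g z ∈ R.P := by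
  have hc : IsCompact R.P := R.cpt
  refine IsCompact.induction_on (p := fun S : Set (Hyp n) => ∃ δ : ℝ, 0 < δ ∧ ∀ p ∈ S, ∀ z : Hyp n,
    - lor p.1 z.1 < 1 + δ → ∃ g ∈ R.G, g z ∈ R.P) hc ?_ ?_ ?_ ?_
  · exact ⟨1, one_pos, fun p hp => absurd hp (Set.notMem_empty p)⟩
  · rintro s t hst ⟨δ, hδ, h⟩
    exact ⟨δ, hδ, fun p hp => h p (hst hp)⟩
  · rintro s t ⟨δ, hδ, h⟩ ⟨δ', hδ', h'⟩
    refine ⟨min δ δ', lt_min hδ hδ', ?_⟩
    rintro p (hp | hp) z hz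
    · exact h p hp z (lt_of_lt_of_le hz (by have := min_le_left δ δ'; linarith))
    · exact h' p hp z (lt_of_lt_of_le hz (by have := min_le_right δ δ'; linarith))
  · intro p hp
    obtain ⟨T, hT, hev⟩ := R.local_cover p hp
    obtain ⟨δ, hδ, V, hV, h⟩ := nbhd_lor p {z | ∃ g ∈ T, g z ∈ R.P} hev
    refine ⟨V, mem_nhdsWithin_of_mem_nhds hV, δ, hδ, ?_⟩
    intro q hq z hz
    obtain ⟨g, hg, hgz⟩ := h q hq z hz
    exact ⟨g, (hT g hg).1, hgz⟩

theorem RA.cover [Finite I] (R : RA n I) (x : Hyp n) : ∃ g ∈ R.G, g x ∈ R.P := by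
  obtain ⟨δ, hδ, h⟩ := R.unif
  obtain ⟨m, c, h0, hm, hc⟩ := chain δ hδ R.ctr x
  have key : ∀ i ≤ m, ∃ g ∈ R.G, g (c i) ∈ R.P := by
    intro i
    induction i with
    | zero =>
      intro _
      refine ⟨1, R.G.one_mem, ?_⟩
      rw [h0]
      intro i
      exact (R.ctr_neg i).le
    | succ i ih =>
      intro hi
      obtain ⟨g, hg, hgc⟩ := ih (by omega)
      have h1 : - lor (g (c i)).1 (g (c (i + 1))).1 < 1 + δ := by
        rw [R.G_isom hg]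
        exact hc i (by omega)
      obtain ⟨k, hk, hkc⟩ := h _ hgc _ h1
      exact ⟨k * g, R.G.mul_mem hk hg, hkc⟩
  obtain ⟨g, hg, hgx⟩ := key m le_rfl
  rw [hm] at hgx
  exact ⟨g, hg, hgx⟩

end Pool.Agent.MP_455d73_gt.PQ
end
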