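import Pool.Agent.Lib.MP_455d73_gt.Mg.G036
import Pool.Agent.Lib.MP_455d73_gt.Mg.G029

section

/-!
TASK B1 (medium): the polytope is a strict fundamental domain, with the stabilisers generated by walls.

`exists_wd`: every element of `R.GS σ` is the product of a word: `Subgroup.closure_induction` (the inverse of `wd l` is
`wd l.reverse`, since the generators are involutions: `(R.s i, σ i)⁻¹ = (R.s i, σ i)`).
`tits`: choose a word `l` with `wd l = g` of minimal length `m` (`Nat.find`), and prove by induction on `m`: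
for every `g`, `x` as in the statement. `m = 0`: `g = 1`. `m + 1`: `l = j :: l'`, `l'` is minimal for its product `g'`, and
`RA.len_half` for `(l', j)` (a word with the product of `j :: l' = l` has length `≥ m + 1 ≥ m`) gives `lor (g' x) e_j ≤ 0`
(`g'.1 x`). As `g x = R.s j (g' x)`: `lor (g x) e_j = - lor (g' x) e_j ≥ 0`; but `g x ∈ P`, so `lor (g x) e_j = 0`. Hence
`g' x = R.s j (g x) = g x` (`refl` fixes the points of its wall), which is in `P`; by induction `g' x = x` and `g' ∈ GSx x`; and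
`j` is a wall through `g x = g' x = x`, so `g = (R.s j, σ j) * g' ∈ GSx x`.
-/

set_option autoImplicit false

open Finset
open scoped Classical

namespace Pool.Agent.MP_455d73_gt.PQ

variable {n : ℕ} {I S : Type}

theorem RA.exists_wd (R : RA n I) (σ : I → Equiv.Perm S) (hσ : R.Compat σ)
    (g : Equiv.Perm (Hyp n) × Equiv.Perm S) (hg : g ∈ R.GS σ) : ∃ l, R.wd σ l = g := by
  have hinv : ∀ i, ((R.s i, σ i) : Equiv.Perm (Hyp n) × Equiv.Perm S)⁻¹ = (R.s i, σ i) := by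
    intro i
    have h := R.wd_cancel σ hσ i []
    rw [R.wd_cons, R.wd_cons] at h
    have h0 : R.wd σ ([] : List I) = 1 := rfl
    rw [h0, mul_one] at h
    exact inv_eq_of_mul_eq_one_left h
  unfold RA.GS at hg
  induction hg using Subgroup.closure_induction with
  | mem x hx =>
    obtain ⟨i, rfl⟩ := hx
    refine ⟨[i], ?_⟩
    rw [R.wd_cons]
    exact mul_one _
  | one => exact ⟨[], rfl⟩
  | mul x y _ _ hx hy =>
    obtain ⟨l, rfl⟩ := hx
    obtain ⟨l', rfl⟩ := hy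
    refine ⟨l ++ l', ?_⟩
    unfold RA.wd
    rw [List.map_append, List.prod_append]
  | inv x _ hx =>
    obtain ⟨l, rfl⟩ := hx
    refine ⟨l.reverse, ?_⟩
    unfold RA.wd
    rw [List.prod_inv_reverse, List.map_map, List.map_reverse]
    congr 2
    apply List.map_congr_left
    intro i _
    exact (hinv i).symm

/-- The polytope is a strict fundamental domain. -/
theorem RA.tits (R : RA n I) (σ : I → Equiv.Perm S) (hσ : R.Compat σ)
    (g : Equiv.Perm (Hyp n) × Equiv.Perm S) (hg : g ∈ R.GS σ) (x : Hyp n) (hx : x ∈ R.P)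
    (hgx : g.1 x ∈ R.P) : g.1 x = x ∧ g ∈ R.GSx σ x := by
  have key : ∀ m : ℕ, ∀ l : List I, l.length = m →
      (∀ l', R.wd σ l' = R.wd σ l → m ≤ l'.length) → (R.wd σ l).1 x ∈ R.P →
      (R.wd σ l).1 x = x ∧ R.wd σ l ∈ R.GSx σ x := by
    intro m
    induction m with
    | zero =>
      intro l hl _ _
      have hl0 : l = [] := List.length_eq_zero_iff.1 hl
      subst hl0
      exact ⟨rfl, (R.GSx σ x).one_mem⟩
    | succ m ih =>
      intro l hl hmin hP
      match l, hl with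
      | [], hl => simp at hl
      | j :: l', hl =>
        have hl' : l'.length = m := by simpa using hl
        have hmin' : ∀ l'', R.wd σ l'' = R.wd σ l' → m ≤ l''.length := by
          intro l'' h
          have h1 : R.wd σ (j :: l'') = R.wd σ (j :: l') := by
            rw [R.wd_cons, R.wd_cons, h]
          have h2 := hmin _ h1
          simpa using h2
        have hhalf := R.len_half σ hσ m l' hl' hmin' j
          (fun l'' h => by have := hmin _ h; omega) x hx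
        rw [R.wd_cons] at hP
        have hP' : R.s j ((R.wd σ l').1 x) ∈ R.P := hP
        have hj := hP' j
        have hcomp : lor (R.s j ((R.wd σ l').1 x)).1 (R.e j) =
            - lor ((R.wd σ l').1 x).1 (R.e j) := by
          unfold RA.s
          rw [refl_coe, lor_sub_left, lor_smul_left, R.unit j]
          ring
        have h0 : lor ((R.wd σ l').1 x).1 (R.e j) = 0 := by
          rw [hcomp] at hj
          linarith
        have hfix : R.s j ((R.wd σ l').1 x) = (R.wd σ l').1 x := by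
          apply Subtype.ext
          unfold RA.s
          rw [refl_coe, h0]
          simp
        rw [hfix] at hP'
        obtain ⟨h1, h2⟩ := ih l' hl' hmin' hP'
        have hgen : ((R.s j, σ j) : Equiv.Perm (Hyp n) × Equiv.Perm S) ∈ R.GSx σ x := by
          apply Subgroup.subset_closure
          refine ⟨j, ?_, rfl⟩
          rw [← h1]
          exact h0
        rw [R.wd_cons]
        refine ⟨?_, (R.GSx σ x).mul_mem hgen h2⟩
        change R.s j ((R.wd σ l').1 x) = x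
        rw [hfix, h1]
  have hex : ∃ m : ℕ, ∃ l : List I, l.length = m ∧ R.wd σ l = g := by
    obtain ⟨l, hl⟩ := R.exists_wd σ hσ g hg
    exact ⟨l.length, l, rfl, hl⟩
  obtain ⟨l, hl, hlg⟩ := Nat.find_spec hex
  have hk := key (Nat.find hex) l hl (fun l' h => Nat.find_min' hex ⟨l', rfl, by rw [h, hlg]⟩)
    (by rw [hlg]; exact hgx)
  rw [hlg] at hk
  exact hk

end Pool.Agent.MP_455d73_gt.PQ
end

section

/-!
TASK B3 (easy): the projection of `R.GS σ` to the reflection group is bijective.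

`exists_perm`: closure induction on `g ∈ R.G` (`g = R.s i`: `(R.s i, σ i)`; products; inverses).
`fst_mem`: closure induction (or `Subgroup.map`/`comap` along `MonoidHom.fst`).
`perm_unique`: `(g, π), (g, π') ∈ GS σ`: then `(1, π⁻¹ * π') ∈ GS σ`; `ctr ∈ P` (by `R.ctr_neg`), `1 ctr = ctr ∈ P`, so by `RA.tits`
`(1, π⁻¹ π') ∈ GSx σ ctr`; no wall contains `ctr`, so `GSx σ ctr = closure ∅ = ⊥`, and `π⁻¹ π' = 1`.
`snd_mem`: the second component of an element of `GS σ` is in the closure of the range of `σ`.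
`exists_of_snd`: every element of the closure of the range of `σ` is the second component of an element of `GS σ`.
`exists_of_act`: every element `π` of the closure of `σ '' A` is the second component of an element `(g, π)` of `R.GSx σ x`, if all
walls in `A` contain `x`; and such `g` fixes `x`.
-/

set_option autoImplicit false

open Finset
open scoped Classical

namespace Pool.Agent.MP_455d73_gt.PQ

variable {n : ℕ} {I S : Type}

theorem RA.exists_perm (R : RA n I) (σ : I → Equiv.Perm S) (g : Equiv.Perm (Hyp n)) (hg : g ∈ R.G) :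
    ∃ π, (g, π) ∈ R.GS σ := by
  unfold RA.G at hg
  induction hg using Subgroup.closure_induction with
  | mem x hx =>
    obtain ⟨i, rfl⟩ := hx
    exact ⟨σ i, Subgroup.subset_closure ⟨i, rfl⟩⟩
  | one => exact ⟨1, (R.GS σ).one_mem⟩
  | mul x y hx hy ihx ihy =>
    obtain ⟨π, h⟩ := ihx
    obtain ⟨π', h'⟩ := ihy
    exact ⟨π * π', (R.GS σ).mul_mem h h'⟩
  | inv x hx ih =>
    obtain ⟨π, h⟩ := ih
    exact ⟨π⁻¹, (R.GS σ).inv_mem h⟩

theorem RA.fst_mem (R : RA n I) (σ : I → Equiv.Perm S) (g : Equiv.Perm (Hyp n)) (π : Equiv.Perm S)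
    (h : (g, π) ∈ R.GS σ) : g ∈ R.G := by
  have key : R.GS σ ≤ R.G.comap (MonoidHom.fst _ _) := by
    unfold RA.GS
    rw [Subgroup.closure_le]
    rintro x ⟨i, rfl⟩
    exact Subgroup.subset_closure ⟨i, rfl⟩
  exact key h

theorem RA.perm_unique (R : RA n I) (σ : I → Equiv.Perm S) (hσ : R.Compat σ)
    (g : Equiv.Perm (Hyp n)) (π π' : Equiv.Perm S) (h : (g, π) ∈ R.GS σ) (h' : (g, π') ∈ R.GS σ) :
    π = π' := by
  have h1 : ((1 : Equiv.Perm (Hyp n)), π⁻¹ * π') ∈ R.GS σ := by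
    have := (R.GS σ).mul_mem ((R.GS σ).inv_mem h) h'
    simpa using this
  have hP : R.ctr ∈ R.P := fun i => le_of_lt (R.ctr_neg i)
  have h2 := (R.tits σ hσ (1, π⁻¹ * π') h1 R.ctr hP hP).2
  have h3 : R.GSx σ R.ctr = ⊥ := by
    unfold RA.GSx
    rw [Subgroup.closure_eq_bot_iff]
    rintro x ⟨i, hi, -⟩
    exact absurd hi (ne_of_lt (R.ctr_neg i))
  rw [h3] at h2
  have h4 := h2
  rw [Subgroup.mem_bot] at h4
  have h5 : π⁻¹ * π' = 1 := congrArg Prod.snd h4
  exact (inv_mul_eq_one.1 h5)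

theorem RA.snd_mem (R : RA n I) (σ : I → Equiv.Perm S) (g : Equiv.Perm (Hyp n)) (π : Equiv.Perm S)
    (h : (g, π) ∈ R.GS σ) : π ∈ Subgroup.closure (Set.range σ) := by
  have key : R.GS σ ≤ (Subgroup.closure (Set.range σ)).comap (MonoidHom.snd _ _) := by
    unfold RA.GS
    rw [Subgroup.closure_le]
    rintro x ⟨i, rfl⟩
    exact Subgroup.subset_closure ⟨i, rfl⟩
  exact key h

theorem RA.exists_of_snd (R : RA n I) (σ : I → Equiv.Perm S) (π : Equiv.Perm S)
    (h : π ∈ Subgroup.closure (Set.range σ)) : ∃ g, (g, π) ∈ R.GS σ := by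
  induction h using Subgroup.closure_induction with
  | mem x hx =>
    obtain ⟨i, rfl⟩ := hx
    exact ⟨R.s i, Subgroup.subset_closure ⟨i, rfl⟩⟩
  | one => exact ⟨1, (R.GS σ).one_mem⟩
  | mul x y hx hy ihx ihy =>
    obtain ⟨g, h⟩ := ihx
    obtain ⟨g', h'⟩ := ihy
    exact ⟨g * g', (R.GS σ).mul_mem h h'⟩
  | inv x hx ih =>
    obtain ⟨g, h⟩ := ih
    exact ⟨g⁻¹, (R.GS σ).inv_mem h⟩

theorem RA.GSx_fix (R : RA n I) (σ : I → Equiv.Perm S) (x : Hyp n)
    (g : Equiv.Perm (Hyp n) × Equiv.Perm S) (h : g ∈ R.GSx σ x) :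
    g ∈ R.GS σ ∧ g.1 x = x ∧ g.2 ∈ Subgroup.closure (σ '' {i | lor x.1 (R.e i) = 0}) := by
  have k1 : R.GSx σ x ≤ R.GS σ := by
    unfold RA.GSx
    rw [Subgroup.closure_le]
    rintro y ⟨i, -, rfl⟩
    exact Subgroup.subset_closure ⟨i, rfl⟩
  have k2 : R.GSx σ x ≤ (MulAction.stabilizer (Equiv.Perm (Hyp n)) x).comap (MonoidHom.fst _ _) := by
    unfold RA.GSx
    rw [Subgroup.closure_le]
    rintro y ⟨i, hi, rfl⟩
    show R.s i x = x
    apply Subtype.ext
    show (refl (R.e i) (R.unit i) x).1 = x.1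
    rw [refl_coe, hi]
    simp
  have k3 : R.GSx σ x ≤
      (Subgroup.closure (σ '' {i | lor x.1 (R.e i) = 0})).comap (MonoidHom.snd _ _) := by
    unfold RA.GSx
    rw [Subgroup.closure_le]
    rintro y ⟨i, hi, rfl⟩
    exact Subgroup.subset_closure ⟨i, hi, rfl⟩
  exact ⟨k1 h, k2 h, k3 h⟩

theorem RA.exists_of_act (R : RA n I) (σ : I → Equiv.Perm S) (x : Hyp n) (π : Equiv.Perm S)
    (h : π ∈ Subgroup.closure (σ '' {i | lor x.1 (R.e i) = 0})) : ∃ g, (g, π) ∈ R.GSx σ x := by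
  induction h using Subgroup.closure_induction with
  | mem y hy =>
    obtain ⟨i, hi, rfl⟩ := hy
    exact ⟨R.s i, Subgroup.subset_closure ⟨i, hi, rfl⟩⟩
  | one => exact ⟨1, (R.GSx σ x).one_mem⟩
  | mul y z hy hz ihy ihz =>
    obtain ⟨g, h⟩ := ihy
    obtain ⟨g', h'⟩ := ihz
    exact ⟨g * g', (R.GSx σ x).mul_mem h h'⟩
  | inv y hy ih =>
    obtain ⟨g, h⟩ := ih
    exact ⟨g⁻¹, (R.GSx σ x).inv_mem h⟩

end Pool.Agent.MP_455d73_gt.PQ
end

section

/-!
TASK M7 (medium): products of atlases and gluing of piecewise affine maps.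

`Atlas.prod`: (1) `PA` of the map `k ↦ Sum.elim (inc j (k ∘ inl)) (inc' j' (k ∘ inr))`: coordinatewise (`PA_iff`), each coordinate is the
composition of a coordinate of `inc j` with the linear map `k ↦ k ∘ inl` (`PAr.comp`). (2) clear. (3) `pr z = Sum.elim (pr (z ∘ inl))
(pr' (z ∘ inr))`. (4) pieces: `{z | z ∘ inl ∈ C l} ∩ {z | z ∘ inr ∈ C' l'}` (`HPoly.preimage`, `HPoly.inter`), index type
`Fin m × Fin m'` (transport to `Fin (m * m')`, `finProdFinEquiv`).
`Atlas.glue`: pieces indexed by `(j, l, i)`: `C_{j,l} ∩ pr_j⁻¹' D_{j,i}` with the affine maps `A_{j,i} ∘ pr_j`, where `D_{j,i}`, `A_{j,i}` are the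
pieces of `k ↦ f (inc j k)`. For `z ∈ X` in `C_{j,l}`: `z = inc j k`, `k ∈ Q j`, `pr_j z = k`, `f z = A_{j,i} (pr_j z)` if
`pr_j z ∈ D_{j,i}`. Cover: `z = inc j k`, some `l` with `z ∈ C_{j,l}`, some `i` with `k ∈ D_{j,i}`. `PA_mk'` with the index type
`Σ j, Fin (m j) × Fin (m' j)`.
-/

set_option autoImplicit false

open Finset
open scoped Classical

namespace Pool.Agent.MP_455d73_gt.PQ

variable {ι κ μ α β J J' : Type} [Fintype ι] [Fintype κ] [Fintype μ] [Fintype α] [Fintype β]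

/-- The restriction to the left coordinates. -/
private noncomputable def M7_L : (ι ⊕ κ → ℝ) →ᵃ[ℝ] (ι → ℝ) :=
  (LinearMap.funLeft ℝ ℝ (Sum.inl : ι → ι ⊕ κ)).toAffineMap

/-- The restriction to the right coordinates. -/
private noncomputable def M7_R : (ι ⊕ κ → ℝ) →ᵃ[ℝ] (κ → ℝ) :=
  (LinearMap.funLeft ℝ ℝ (Sum.inr : κ → ι ⊕ κ)).toAffineMap

omit [Fintype ι] [Fintype κ] in
private theorem M7_L_apply (z : ι ⊕ κ → ℝ) :
    (M7_L (ι := ι) (κ := κ)) z = fun i => z (Sum.inl i) := rfl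

omit [Fintype ι] [Fintype κ] in
private theorem M7_R_apply (z : ι ⊕ κ → ℝ) :
    (M7_R (ι := ι) (κ := κ)) z = fun i => z (Sum.inr i) := rfl

/-- The affine map given by a pair. -/
private noncomputable def M7_E (f : (ι ⊕ κ → ℝ) →ᵃ[ℝ] (α → ℝ)) (g : (ι ⊕ κ → ℝ) →ᵃ[ℝ] (β → ℝ)) :
    (ι ⊕ κ → ℝ) →ᵃ[ℝ] (α ⊕ β → ℝ) :=
  ((LinearEquiv.sumArrowLequivProdArrow α β ℝ ℝ).symm.toLinearMap.toAffineMap).comp (f.prod g)

omit [Fintype ι] [Fintype κ] [Fintype α] [Fintype β] in
private theorem M7_E_apply (f : (ι ⊕ κ → ℝ) →ᵃ[ℝ] (α → ℝ)) (g : (ι ⊕ κ → ℝ) →ᵃ[ℝ] (β → ℝ))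
    (z : ι ⊕ κ → ℝ) : M7_E f g z = Sum.elim (f z) (g z) := by
  funext x
  rcases x with a | b <;> rfl

theorem Atlas.prod {X : Set (ι → ℝ)} {Y : Set (κ → ℝ)} {Q : J → Set (α → ℝ)} {Q' : J' → Set (β → ℝ)}
    {inc : J → (α → ℝ) → (ι → ℝ)} {inc' : J' → (β → ℝ) → (κ → ℝ)} (h : Atlas X Q inc)
    (h' : Atlas Y Q' inc') :
    Atlas (prodSet X Y) (fun j : J × J' => prodSet (Q j.1) (Q' j.2))
      (fun j k => Sum.elim (inc j.1 (fun x => k (Sum.inl x))) (inc' j.2 (fun x => k (Sum.inr x)))) := by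
  obtain ⟨h1, h2, h3⟩ := h
  obtain ⟨h1', h2', h3'⟩ := h'
  refine ⟨?_, ?_, ?_⟩
  · rintro ⟨j, j'⟩
    rw [PA_iff]
    rintro (i | i)
    · have ha : PAr (Q j) (fun y => inc j y i) := (PA_iff.mp (h1 j)) i
      exact ha.comp (PA.affine (prodSet (Q j) (Q' j')) M7_L) (fun x hx => hx.1)
    · have ha : PAr (Q' j') (fun y => inc' j' y i) := (PA_iff.mp (h1' j')) i
      exact ha.comp (PA.affine (prodSet (Q j) (Q' j')) M7_R) (fun x hx => hx.2)
  · intro z
    constructor
    · rintro ⟨hz1, hz2⟩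
      obtain ⟨j, k, hk, hzk⟩ := (h2 _).mp hz1
      obtain ⟨j', k', hk', hzk'⟩ := (h2' _).mp hz2
      refine ⟨(j, j'), Sum.elim k k', ⟨hk, hk'⟩, ?_⟩
      funext x
      rcases x with x | x
      · exact congrFun hzk x
      · exact congrFun hzk' x
    · rintro ⟨⟨j, j'⟩, k, ⟨hk, hk'⟩, rfl⟩
      exact ⟨(h2 _).mpr ⟨j, _, hk, rfl⟩, (h2' _).mpr ⟨j', _, hk', rfl⟩⟩
  · rintro ⟨j, j'⟩
    obtain ⟨⟨pr, hpr⟩, m, C, hC, hCX⟩ := h3 j
    obtain ⟨⟨pr', hpr'⟩, m', C', hC', hCX'⟩ := h3' j'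
    refine ⟨⟨M7_E (pr.comp M7_L) (pr'.comp M7_R), ?_⟩, m * m',
      fun l => (M7_L ⁻¹' C (finProdFinEquiv.symm l).1) ∩ (M7_R ⁻¹' C' (finProdFinEquiv.symm l).2),
      fun l => ((hC _).preimage _).inter ((hC' _).preimage _), ?_⟩
    · rintro k ⟨hk, hk'⟩
      rw [M7_E_apply]
      funext x
      rcases x with x | x
      · exact congrFun (hpr _ hk) x
      · exact congrFun (hpr' _ hk') x
    · rintro z ⟨hz1, hz2⟩
      constructor
      · rintro ⟨l, hl1, hl2⟩
        obtain ⟨k, hk, hzk⟩ := (hCX _ hz1).mp ⟨_, hl1⟩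
        obtain ⟨k', hk', hzk'⟩ := (hCX' _ hz2).mp ⟨_, hl2⟩
        refine ⟨Sum.elim k k', ⟨hk, hk'⟩, ?_⟩
        funext x
        rcases x with x | x
        · exact congrFun hzk x
        · exact congrFun hzk' x
      · rintro ⟨k, ⟨hk, hk'⟩, hzk⟩
        obtain ⟨l, hl⟩ := (hCX _ hz1).mpr ⟨_, hk, by rw [hzk]; rfl⟩
        obtain ⟨l', hl'⟩ := (hCX' _ hz2).mpr ⟨_, hk', by rw [hzk]; rfl⟩
        refine ⟨finProdFinEquiv (l, l'), ?_, ?_⟩
        · simp only [Equiv.symm_apply_apply]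
          exact hl
        · simp only [Equiv.symm_apply_apply]
          exact hl'

theorem Atlas.glue [Finite J] {X : Set (ι → ℝ)} {Q : J → Set (α → ℝ)} {inc : J → (α → ℝ) → (ι → ℝ)}
    (h : Atlas X Q inc) (f : (ι → ℝ) → (μ → ℝ)) (hf : ∀ j, PA (Q j) (fun k => f (inc j k))) :
    PA X f := by
  obtain ⟨h1, h2, h3⟩ := h
  choose hpr m C hC hCX using h3
  choose pr hpr using hpr
  choose hcont m' D A hD hcov hA using hf
  refine PA_mk' (J := Σ j : J, Fin (m j) × Fin (m' j))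
    (fun s => C s.1 s.2.1 ∩ (pr s.1) ⁻¹' (D s.1 s.2.2))
    (fun s => (A s.1 s.2.2).comp (pr s.1))
    (fun s => (hC _ _).inter ((hD _ _).preimage _)) ?_ ?_
  · intro z hz
    obtain ⟨j, k, hk, hzk⟩ := (h2 z).mp hz
    obtain ⟨l, hl⟩ := (hCX j z hz).mpr ⟨k, hk, hzk⟩
    obtain ⟨i, hi⟩ := hcov j k hk
    refine ⟨⟨j, l, i⟩, hl, ?_⟩
    show pr j z ∈ D j i
    rw [hzk, hpr j k hk]
    exact hi
  · rintro ⟨j, l, i⟩ z hz ⟨hl, hi⟩
    obtain ⟨k, hk, hzk⟩ := (hCX j z hz).mp ⟨l, hl⟩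
    have hprz : pr j z = k := by rw [hzk, hpr j k hk]
    have hi' : k ∈ D j i := by
      have : pr j z ∈ D j i := hi
      rwa [hprz] at this
    show f z = (A j i) (pr j z)
    rw [hprz, ← hA j i k hk hi', hzk]

end Pool.Agent.MP_455d73_gt.PQ
end
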