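import Pool.Agent.Lib.MP_455d73_gt.Mg.G035
import Pool.Agent.Lib.MP_455d73_gt.Mg.G037

section

/-!
TASK B4 (hard-ish): the group acts properly discontinuously.

Notation `G = R.G`, `P = R.P`, `P° = {x | ∀ i, lor x e_i < 0}`.
(a) `P ⊆ closure P°`: for `x ∈ P` the points `r(t) • ((1 - t) • x.1 + t • ctr.1)` (normalised as in `B2c`) are in `P°` for
`0 < t ≤ 1` and tend to `x` for `t → 0`.
(b) Uniqueness: if `z ∈ P°`, `h ∈ G` and `h z ∈ P` then `h = 1`: take `S = Unit` (or any `σ`, e.g. `σ i = 1` on `PUnit`); by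
`RA.tits` for the pair `(h, 1)` (in `GS σ` by `exists_perm`), it is in `GSx σ z = closure ∅` since no wall contains `z`.
(c) local finiteness at `p ∈ P`: `RA.local_cover` gives `T` and an open neighbourhood `O` of `p` with `∀ z ∈ O, ∃ g ∈ T, g z ∈ P`. If
`h ∈ G` and `h '' P` meets `O` (open), then `h '' P°` meets `O` (by (a) and continuity of `h`: `h⁻¹' O` is open and meets `P`, so
it meets `P°`): `z = h a ∈ O`, `a ∈ P°`, `g z ∈ P` with `g ∈ T`: `(g h) a ∈ P`, so `g h = 1` by (b), `h = g⁻¹ ∈ T⁻¹`, a finite set.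
(d) at `y` arbitrary: `y = g₀ p` with `p ∈ P` (`RA.cover`), translate: `h '' P` meets `g₀ '' O` iff `(g₀⁻¹ h) '' P` meets `O`.
(e) `K` compact: finitely many such neighbourhoods cover `K`, so `{h ∈ G | h '' P meets K}` is finite (call it `F`).
(f) If `g ∈ G`, `x ∈ K`, `g x ∈ K`: `x ∈ h '' P` for some `h ∈ G` (`RA.cover`), `h ∈ F`, and `g x ∈ (g h) '' P`, so `g h ∈ F`:
`g ∈ F F⁻¹`, a finite set.
-/

set_option autoImplicit false

open Finset
open scoped Classical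

namespace Pool.Agent.MP_455d73_gt.PQ

variable {n : ℕ} {I : Type}

private theorem B4_closure (R : RA n I) (x : Hyp n) (hx : x ∈ R.P) :
    x ∈ closure {z : Hyp n | ∀ i, lor z.1 (R.e i) < 0} := by
  set v : ℝ → Mk n := fun t => (1 - t) • x.1 + t • R.ctr.1 with hvdef
  have hL : lor x.1 R.ctr.1 < 0 := Hyp.lor_lt x R.ctr
  have hvv : ∀ t, lor (v t) (v t) = -(1 - t) ^ 2 - t ^ 2 + 2 * t * (1 - t) * lor x.1 R.ctr.1 := by
    intro t
    simp only [hvdef, lor_add_left, lor_add_right, lor_smul_left, lor_smul_right, x.2.1, R.ctr.2.1,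
      lor_comm R.ctr.1 x.1]
    ring
  have hneg : ∀ t, 0 ≤ t → t ≤ 1 → lor (v t) (v t) < 0 := by
    intro t h0 h1
    rw [hvv]
    have h2 : 0 ≤ t * (1 - t) := mul_nonneg h0 (by linarith)
    nlinarith [mul_nonneg h2 (le_of_lt (neg_pos.mpr hL)), sq_nonneg (1 - 2 * t)]
  have hpos : ∀ t, 0 ≤ t → t ≤ 1 → 0 < (v t).2 := by
    intro t h0 h1
    show 0 < (1 - t) * x.1.2 + t * R.ctr.1.2
    rcases h0.eq_or_lt with h | h
    · rw [← h]
      have := x.2.2
      linarith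
    · have h3 := mul_pos h R.ctr.2.2
      have h4 := mul_nonneg (sub_nonneg.mpr h1) x.2.2.le
      linarith
  set F : ℝ → Mk n := fun t => (√(-lor (v t) (v t)))⁻¹ • v t with hF
  have hmem : ∀ t, 0 ≤ t ∧ t ≤ 1 → lor (F t) (F t) = -1 ∧ 0 < (F t).2 := by
    rintro t ⟨h0, h1⟩
    have hn := hneg t h0 h1
    have hs : 0 < √(-lor (v t) (v t)) := Real.sqrt_pos.mpr (by linarith)
    constructor
    · rw [hF]
      simp only [lor_smul_left, lor_smul_right]
      have h5 : lor (v t) (v t) = -(√(-lor (v t) (v t)) ^ 2) := by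
        rw [Real.sq_sqrt (by linarith)]
        ring
      have h6 : (√(-lor (v t) (v t)))⁻¹ * ((√(-lor (v t) (v t)))⁻¹ * lor (v t) (v t)) =
          -(((√(-lor (v t) (v t)))⁻¹ * √(-lor (v t) (v t))) ^ 2) := by
        nth_rewrite 3 [h5]
        ring
      rw [h6, inv_mul_cancel₀ hs.ne']
      norm_num
    · exact mul_pos (inv_pos.mpr hs) (hpos t h0 h1)
  let γ : ℝ → Hyp n := fun t => if h : 0 ≤ t ∧ t ≤ 1 then ⟨F t, hmem t h⟩ else x
  have hev : ∀ᶠ t in nhdsWithin (0 : ℝ) (Set.Ioi 0), 0 < t ∧ t ≤ 1 := by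
    have h1 : ∀ᶠ t in nhdsWithin (0 : ℝ) (Set.Ioi 0), t < 1 :=
      eventually_nhdsWithin_of_eventually_nhds (gt_mem_nhds one_pos)
    filter_upwards [h1, self_mem_nhdsWithin] with t h h'
    exact ⟨h', h.le⟩
  have hγ : ∀ t, 0 < t ∧ t ≤ 1 → (γ t).1 = F t := by
    intro t ht
    show (dite _ _ _ : Hyp n).1 = _
    rw [dif_pos ⟨ht.1.le, ht.2⟩]
  have hvc : Continuous v := by
    rw [hvdef]
    fun_prop
  have hlc : Continuous (fun t => lor (v t) (v t)) := continuous_lor.comp (hvc.prodMk hvc)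
  have h00 : lor (v 0) (v 0) = -1 := by
    rw [hvv]
    ring
  have hFc : ContinuousAt F 0 := by
    have hsq : ContinuousAt (fun t => √(-lor (v t) (v t))) 0 :=
      (Real.continuous_sqrt.comp hlc.neg).continuousAt
    have hne : √(-lor (v 0) (v 0)) ≠ 0 := by
      rw [h00]
      norm_num
    have hinv : ContinuousAt (fun t => (√(-lor (v t) (v t)))⁻¹) 0 := ContinuousAt.inv₀ hsq hne
    exact hinv.smul hvc.continuousAt
  have hF0 : F 0 = x.1 := by
    rw [hF]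
    simp only [h00]
    rw [hvdef]
    simp
  have ht1 : Filter.Tendsto (fun t => (γ t).1) (nhdsWithin (0 : ℝ) (Set.Ioi 0)) (nhds x.1) := by
    have h1 : Filter.Tendsto F (nhdsWithin (0 : ℝ) (Set.Ioi 0)) (nhds x.1) := by
      rw [← hF0]
      exact hFc.tendsto.mono_left nhdsWithin_le_nhds
    refine h1.congr' ?_
    filter_upwards [hev] with t ht
    exact (hγ t ht).symm
  have ht2 : Filter.Tendsto γ (nhdsWithin (0 : ℝ) (Set.Ioi 0)) (nhds x) :=
    tendsto_subtype_rng.mpr ht1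
  refine mem_closure_of_tendsto ht2 ?_
  filter_upwards [hev] with t ht
  intro i
  rw [hγ t ht, hF]
  simp only [lor_smul_left]
  have hs : 0 < √(-lor (v t) (v t)) :=
    Real.sqrt_pos.mpr (by linarith [hneg t ht.1.le ht.2])
  refine mul_neg_of_pos_of_neg (inv_pos.mpr hs) ?_
  rw [hvdef]
  simp only [lor_add_left, lor_smul_left]
  have h7 := hx i
  have h8 := mul_neg_of_pos_of_neg ht.1 (R.ctr_neg i)
  have h9 : (1 - t) * lor x.1 (R.e i) ≤ 0 :=
    mul_nonpos_of_nonneg_of_nonpos (by linarith [ht.2]) h7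
  linarith

theorem RA.unique_int (R : RA n I) (z : Hyp n) (hz : ∀ i, lor z.1 (R.e i) < 0) (h : Equiv.Perm (Hyp n))
    (hh : h ∈ R.G) (hP : h z ∈ R.P) : h = 1 := by
  let σ : I → Equiv.Perm Unit := fun _ => 1
  have hσ : R.Compat σ := ⟨fun _ => rfl, fun _ _ _ => rfl⟩
  obtain ⟨π, hπ⟩ := R.exists_perm σ h hh
  have h1 := (R.tits σ hσ (h, π) hπ z (fun i => (hz i).le) hP).2
  have h2 : R.GSx σ z = ⊥ := by
    unfold RA.GSx
    rw [Subgroup.closure_eq_bot_iff]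
    rintro g ⟨i, hi, -⟩
    exact absurd hi (hz i).ne
  rw [h2, Subgroup.mem_bot] at h1
  exact congrArg Prod.fst h1

private theorem B4_locfin_P [Finite I] (R : RA n I) (p : Hyp n) (hp : p ∈ R.P) :
    ∃ O : Set (Hyp n), IsOpen O ∧ p ∈ O ∧ {h | h ∈ R.G ∧ (h '' R.P ∩ O).Nonempty}.Finite := by
  obtain ⟨T, hT, hev⟩ := R.local_cover p hp
  obtain ⟨O, hO, hOo, hpO⟩ := eventually_nhds_iff.mp hev
  refine ⟨O, hOo, hpO, (T.image (fun g => g⁻¹)).finite_toSet.subset ?_⟩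
  rintro h ⟨hG, z, ⟨y, hy, rfl⟩, hzO⟩
  have hc : Continuous h := R.G_cont h hG
  have hy' := B4_closure R y hy
  obtain ⟨a, haO, ha⟩ := mem_closure_iff.mp hy' (h ⁻¹' O) (hOo.preimage hc) hzO
  obtain ⟨g, hgT, hgP⟩ := hO (h a) haO
  have h1 : g * h = 1 :=
    R.unique_int a ha (g * h) (R.G.mul_mem (hT g hgT).1 hG) (by rw [Equiv.Perm.mul_apply]; exact hgP)
  rw [Finset.coe_image]
  exact ⟨g, hgT, inv_eq_of_mul_eq_one_right h1⟩

theorem RA.locfin [Finite I] (R : RA n I) (y : Hyp n) :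
    ∃ O ∈ nhds y, {h | h ∈ R.G ∧ (h '' R.P ∩ O).Nonempty}.Finite := by
  obtain ⟨g, hg, hgP⟩ := R.cover y
  obtain ⟨O, hOo, hpO, hfin⟩ := B4_locfin_P R (g y) hgP
  have hc : Continuous g := R.G_cont g hg
  refine ⟨g ⁻¹' O, (hOo.preimage hc).mem_nhds hpO, (hfin.image (fun h => g⁻¹ * h)).subset ?_⟩
  rintro h ⟨hG, z, ⟨a, ha, rfl⟩, hzO⟩
  refine ⟨g * h, ⟨R.G.mul_mem hg hG, g (h a), ⟨a, ha, rfl⟩, hzO⟩, ?_⟩
  show g⁻¹ * (g * h) = h
  rw [inv_mul_cancel_left]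

theorem RA.meet_fin [Finite I] (R : RA n I) (K : Set (Hyp n)) (hK : IsCompact K) :
    {h | h ∈ R.G ∧ (h '' R.P ∩ K).Nonempty}.Finite := by
  choose O hO hfin using fun y => R.locfin y
  obtain ⟨t, -, htK⟩ := hK.elim_nhds_subcover O (fun y _ => hO y)
  refine (t.finite_toSet.biUnion (fun y _ => hfin y)).subset ?_
  rintro h ⟨hG, z, hz, hzK⟩
  obtain ⟨y, hyt, hzy⟩ := Set.mem_iUnion₂.mp (htK hzK)
  exact Set.mem_iUnion₂.mpr ⟨y, hyt, hG, z, hz, hzy⟩

theorem RA.propdisc [Finite I] (R : RA n I) (K : Set (Hyp n)) (hK : IsCompact K) :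
    {g | g ∈ R.G ∧ (g '' K ∩ K).Nonempty}.Finite := by
  have hF := R.meet_fin K hK
  refine (Set.Finite.image2 (fun a b : Equiv.Perm (Hyp n) => a * b⁻¹) hF hF).subset ?_
  rintro g ⟨hG, z, ⟨x, hxK, rfl⟩, hgK⟩
  obtain ⟨g1, hg1, hP⟩ := R.cover x
  have hx : g1⁻¹ (g1 x) = x := g1.symm_apply_apply x
  refine ⟨g * g1⁻¹, ⟨R.G.mul_mem hG (R.G.inv_mem hg1), g x, ⟨g1 x, hP, ?_⟩, hgK⟩, g1⁻¹,
    ⟨R.G.inv_mem hg1, x, ⟨g1 x, hP, hx⟩, hxK⟩, ?_⟩
  · rw [Equiv.Perm.mul_apply, hx]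
  · show g * g1⁻¹ * (g1⁻¹)⁻¹ = g
    rw [inv_inv, inv_mul_cancel_right]

end Pool.Agent.MP_455d73_gt.PQ
end

section

/-!
B6: the stabiliser of a point of a finite set is a uniform lattice.
-/

set_option autoImplicit false

open Finset
open scoped Classical

namespace Pool.Agent.MP_455d73_gt.PQ

variable {n : ℕ} {I S : Type}

theorem RA.stab_uniform [Finite I] [Finite S] (R : RA n I) (σ : I → Equiv.Perm S) (s₀ : S) :
    Uniform (R.stab σ s₀) := by
  have hG : R.stab σ s₀ ≤ R.G := by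
    rintro g ⟨π, h, -⟩
    exact R.fst_mem σ g π h
  refine ⟨hG.trans R.G_isom, ?_, ?_⟩
  · intro K hK
    refine (R.propdisc K hK).subset ?_
    rintro g ⟨hg, h⟩
    exact ⟨hG hg, h⟩
  · let Q : S → Prop := fun c => ∃ g π, (g, π) ∈ R.GS σ ∧ π c = s₀
    let G : S → Equiv.Perm (Hyp n) := fun c => if h : Q c then h.choose else 1
    have hQ : ∀ c, Q c → ∃ π, (G c, π) ∈ R.GS σ ∧ π c = s₀ := by
      intro c hc
      have : G c = hc.choose := dif_pos hc
      rw [this]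
      exact hc.choose_spec
    have hGc : ∀ c, Continuous (G c) := by
      intro c
      by_cases hc : Q c
      · obtain ⟨π, h, -⟩ := hQ c hc
        exact R.G_cont _ (R.fst_mem σ _ π h)
      · have : G c = 1 := dif_neg hc
        rw [this]
        exact continuous_id
    refine ⟨⋃ c, G c '' R.P, ?_, ?_⟩
    · exact isCompact_iUnion (fun c => (show IsCompact R.P from R.cpt).image (hGc c))
    · intro x
      obtain ⟨h, hh, hP⟩ := R.cover x
      obtain ⟨π, hπ⟩ := R.exists_perm σ h⁻¹ (R.G.inv_mem hh)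
      have hc : Q (π⁻¹ s₀) := ⟨h⁻¹, π, hπ, by simp⟩
      obtain ⟨π', h', h0⟩ := hQ _ hc
      refine ⟨G (π⁻¹ s₀) * h, ⟨π' * π⁻¹, ?_, ?_⟩, ?_⟩
      · have h1 := (R.GS σ).mul_mem h' ((R.GS σ).inv_mem hπ)
        have h2 : (G (π⁻¹ s₀), π') * (h⁻¹, π)⁻¹ = (G (π⁻¹ s₀) * h, π' * π⁻¹) := by
          ext1 <;> simp
        rw [h2] at h1
        exact h1
      · rw [Equiv.Perm.mul_apply, h0]
      · refine Set.mem_iUnion.mpr ⟨π⁻¹ s₀, h x, hP, ?_⟩
        rw [Equiv.Perm.mul_apply]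

end Pool.Agent.MP_455d73_gt.PQ
end
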