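import Pool.Agent.Lib.MP_455d73_gt.Mg.G035
import Pool.Agent.Lib.MP_455d73_gt.Mg.G037
import Pool.Agent.Lib.MP_455d73_gt.Mg.G033

section

/-!
TASK B5 (medium): the relation `R.At σ s₀ x k c` (the point `x` lies over the point `k` of the chart of the polytope in a
chamber with label `c`): `x = g p`, `p ∈ P`, `k = kl p`, `(g, π) ∈ GS σ`, `π c = s₀`.

`orb_eq`: elementary (subgroup). `orb_mono`: `closure (σ '' A) ≤ closure (σ '' B)`.
`at_exists`: `h x ∈ P` (`RA.cover`), `(h, ρ) ∈ GS` (`exists_perm`), `g = h⁻¹`, `π = ρ⁻¹`, `c = ρ s₀`.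
`at_unique`: `x = g p = g' p'`, so `(g'⁻¹ g) p = p' ∈ P`; by `RA.tits` `p' = p` and `(g'⁻¹ g, π'⁻¹ π) ∈ GSx σ p`; by `RA.GSx_fix` and
`mem_act_kl`, `π'⁻¹ π ∈ closure (σ '' act k)`, and `c' = π'⁻¹ s₀ = (π'⁻¹ π) c`.
`at_stab`: `(g₀, π₀) ∈ GS`, `π₀ s₀ = s₀`: `g₀ x = (g₀ g) p`, `(π₀ π) c = s₀`.
`at_same`: `x = g p`, `y = g' p'`, `kl p = kl p'` gives `p = p'` (`up_kl`); `c' = ρ c` with `ρ ∈ closure (σ '' act k)`; `RA.exists_of_act`
gives `(h, ρ) ∈ GSx σ p`, `h p = p`. The element `g' h g⁻¹` maps `x` to `g' h p = y`, and its permutation `π' ρ π⁻¹` maps `s₀` to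
`π' ρ c = π' c' = s₀`.
`at_surj`: `ρ s₀ = c` with `ρ ∈ closure (range σ)`; `(h, ρ⁻¹) ∈ GS` by `RA.exists_of_snd`; `x = h (up k)`, `kl (up k) = k` (`P1_ball`).
`at_act`: `At` for a wall: if `i ∈ act k` then `At x k c → At x k (σ i c)` (as `R.s i` fixes `up k`).
-/

set_option autoImplicit false

open Finset
open scoped Classical

namespace Pool.Agent.MP_455d73_gt.PQ

variable {n : ℕ} {I S : Type}

private theorem B5_inv_self {α : Type} (f : Equiv.Perm α) (x : α) : f⁻¹ (f x) = x :=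
  f.symm_apply_apply x

private theorem B5_act_eq (R : RA n I) (p : Hyp n) :
    {i | lor p.1 (R.e i) = 0} = R.act (kl p) := by
  ext i
  exact (mem_act_kl R p i).symm

theorem orb_eq (σ : I → Equiv.Perm S) (A : Set I) (c c' : S) (h : c' ∈ orb σ A c) :
    orb σ A c' = orb σ A c := by
  obtain ⟨ρ, hρ, rfl⟩ := h
  ext d
  constructor
  · rintro ⟨π, hπ, rfl⟩
    exact ⟨π * ρ, (Subgroup.closure (σ '' A)).mul_mem hπ hρ, rfl⟩
  · rintro ⟨π, hπ, rfl⟩
    refine ⟨π * ρ⁻¹, (Subgroup.closure (σ '' A)).mul_mem hπ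
      ((Subgroup.closure (σ '' A)).inv_mem hρ), ?_⟩
    rw [Equiv.Perm.mul_apply, B5_inv_self]

theorem mem_orb_self (σ : I → Equiv.Perm S) (A : Set I) (c : S) : c ∈ orb σ A c :=
  ⟨1, (Subgroup.closure (σ '' A)).one_mem, rfl⟩

theorem orb_mono (σ : I → Equiv.Perm S) (A B : Set I) (hAB : A ⊆ B) (c : S) :
    orb σ A c ⊆ orb σ B c := by
  rintro d ⟨π, hπ, rfl⟩
  exact ⟨π, Subgroup.closure_mono (Set.image_mono hAB) hπ, rfl⟩

theorem orb_eq_of_subset (σ : I → Equiv.Perm S) (A B : Set I) (hAB : A ⊆ B) (c c' : S)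
    (h : orb σ A c = orb σ A c') : orb σ B c = orb σ B c' := by
  have h1 : c ∈ orb σ A c' := h ▸ mem_orb_self σ A c
  exact orb_eq σ B c' c (orb_mono σ A B hAB c' h1)

theorem RA.at_exists [Finite I] (R : RA n I) (σ : I → Equiv.Perm S) (s₀ : S) (x : Hyp n) :
    ∃ k ∈ R.P1, ∃ c, R.At σ s₀ x k c := by
  obtain ⟨h, hh, hx⟩ := R.cover x
  obtain ⟨ρ, hρ⟩ := R.exists_perm σ h hh
  refine ⟨kl (h x), (kl_mem_P1 R (h x)).mpr hx, ρ s₀, h⁻¹, ρ⁻¹, (R.GS σ).inv_mem hρ, h x, hx, ?_,
    rfl, ?_⟩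
  · rw [B5_inv_self]
  · rw [B5_inv_self]

theorem RA.at_mem (R : RA n I) (σ : I → Equiv.Perm S) (s₀ : S) (x : Hyp n) (k : Fin n → ℝ) (c : S)
    (h : R.At σ s₀ x k c) : k ∈ R.P1 := by
  obtain ⟨g, π, hg, p, hp, hx, hk, hc⟩ := h
  rw [hk]
  exact (kl_mem_P1 R p).mpr hp

theorem RA.at_unique (R : RA n I) (σ : I → Equiv.Perm S) (hσ : R.Compat σ) (s₀ : S) (x : Hyp n)
    (k k' : Fin n → ℝ) (c c' : S) (h : R.At σ s₀ x k c) (h' : R.At σ s₀ x k' c') :
    k = k' ∧ orb σ (R.act k) c = orb σ (R.act k) c' := by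
  obtain ⟨g, π, hg, p, hp, hx, hk, hc⟩ := h
  obtain ⟨g', π', hg', p', hp', hx', hk', hc'⟩ := h'
  have hm : (g'⁻¹ * g, π'⁻¹ * π) ∈ R.GS σ :=
    (R.GS σ).mul_mem ((R.GS σ).inv_mem hg') hg
  have hgp : (g'⁻¹ * g) p = p' := by
    rw [Equiv.Perm.mul_apply, ← hx, hx', B5_inv_self]
  have ht := R.tits σ hσ (g'⁻¹ * g, π'⁻¹ * π) hm p hp (by
    show (g'⁻¹ * g) p ∈ R.P
    rw [hgp]
    exact hp')
  have hpp : p' = p := by
    rw [← hgp]
    exact ht.1
  have hf := R.GSx_fix σ p _ ht.2
  have hkk : k = k' := by rw [hk, hk', hpp]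
  refine ⟨hkk, ?_⟩
  have hc2 : c' = (π'⁻¹ * π) c := by
    rw [Equiv.Perm.mul_apply, hc, ← hc', B5_inv_self]
  have hmem : c' ∈ orb σ (R.act k) c := by
    refine ⟨π'⁻¹ * π, ?_, hc2.symm⟩
    rw [hk, ← B5_act_eq R p]
    exact hf.2.2
  exact (orb_eq σ (R.act k) c c' hmem).symm

theorem RA.at_stab (R : RA n I) (σ : I → Equiv.Perm S) (s₀ : S) (g : Equiv.Perm (Hyp n))
    (hg : g ∈ R.stab σ s₀) (x : Hyp n) (k : Fin n → ℝ) (c : S) (h : R.At σ s₀ x k c) :
    R.At σ s₀ (g x) k c := by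
  obtain ⟨π₀, hg₀, hs⟩ := hg
  obtain ⟨g', π, hg', p, hp, hx, hk, hc⟩ := h
  refine ⟨g * g', π₀ * π, (R.GS σ).mul_mem hg₀ hg', p, hp, ?_, hk, ?_⟩
  · rw [Equiv.Perm.mul_apply, ← hx]
  · rw [Equiv.Perm.mul_apply, hc, hs]

theorem RA.at_same (R : RA n I) (σ : I → Equiv.Perm S) (s₀ : S) (x y : Hyp n) (k : Fin n → ℝ)
    (c c' : S) (h : R.At σ s₀ x k c) (h' : R.At σ s₀ y k c')
    (ho : orb σ (R.act k) c = orb σ (R.act k) c') : ∃ g ∈ R.stab σ s₀, g x = y := by
  obtain ⟨g, π, hg, p, hp, hx, hk, hc⟩ := h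
  obtain ⟨g', π', hg', p', hp', hx', hk', hc'⟩ := h'
  have hpp : p' = p := by
    rw [← up_kl p', ← hk', hk, up_kl p]
  have hmem : c' ∈ orb σ (R.act k) c := by
    rw [ho]
    exact mem_orb_self σ (R.act k) c'
  obtain ⟨ρ, hρ, hρc⟩ := hmem
  rw [hk, ← B5_act_eq R p] at hρ
  obtain ⟨h, hh⟩ := R.exists_of_act σ p ρ hρ
  have hf := R.GSx_fix σ p (h, ρ) hh
  have hfix : h p = p := hf.2.1
  have hgs : (h, ρ) ∈ R.GS σ := hf.1
  refine ⟨g' * h * g⁻¹, ⟨π' * ρ * π⁻¹, ?_, ?_⟩, ?_⟩
  · exact (R.GS σ).mul_mem ((R.GS σ).mul_mem hg' hgs) ((R.GS σ).inv_mem hg)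
  · rw [← hc, Equiv.Perm.mul_apply, B5_inv_self, Equiv.Perm.mul_apply, hρc, hc', hc]
  · rw [hx, Equiv.Perm.mul_apply, B5_inv_self, Equiv.Perm.mul_apply, hfix, hx', hpp]

theorem RA.at_surj (R : RA n I) (σ : I → Equiv.Perm S) (s₀ : S) (hT : Trans σ s₀)
    (k : Fin n → ℝ) (hk : k ∈ R.P1) (c : S) : ∃ x, R.At σ s₀ x k c := by
  obtain ⟨ρ, hρ, hc⟩ := hT c
  obtain ⟨h, hh⟩ := R.exists_of_snd σ ρ⁻¹ ((Subgroup.closure (Set.range σ)).inv_mem hρ)
  refine ⟨h (up k), h, ρ⁻¹, hh, up k, up_mem_P R k hk, rfl, (kl_up k (P1_ball R k hk)).symm, ?_⟩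
  rw [← hc, B5_inv_self]

end Pool.Agent.MP_455d73_gt.PQ
end

section

/-!
M2: barycentric subdivision of the polytope.
-/

set_option autoImplicit false

open Finset
open scoped Classical

namespace Pool.Agent.MP_455d73_gt.PQ

variable {n : ℕ} {I : Type}

theorem RA.b_spec (R : RA n I) (A : Set I) (hA : A ∈ R.faces) : R.b A ∈ R.P1 ∧ R.act (R.b A) = A := by
  have h : ∃ k ∈ R.P1, R.act k = A := hA
  have e : R.b A = h.choose := dif_pos h
  rw [e]
  exact h.choose_spec

private theorem M2_al_sum [Fintype I] (R : RA n I) (i : I) (t : Set I → ℝ) (x : Set I → Fin n → ℝ)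
    (h1 : ∑ A, t A = 1) : R.al i (∑ A, t A • x A) = ∑ A, t A * R.al i (x A) := by
  unfold RA.al
  simp only [mul_sub, Finset.sum_sub_distrib, ← Finset.sum_mul, h1, one_mul]
  congr 1
  simp only [Finset.sum_apply, Pi.smul_apply, smul_eq_mul, Finset.sum_mul, Finset.mul_sum]
  rw [Finset.sum_comm]
  refine Finset.sum_congr rfl (fun A _ => Finset.sum_congr rfl (fun j _ => by ring))

private theorem M2_al_line (R : RA n I) (i : I) (b k : Fin n → ℝ) (s : ℝ) :
    R.al i (b + s • (k - b)) = R.al i b + s * (R.al i k - R.al i b) := by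
  unfold RA.al
  simp only [Pi.add_apply, Pi.smul_apply, Pi.sub_apply, smul_eq_mul, add_mul, Finset.sum_add_distrib,
    sub_mul, mul_assoc, ← Finset.mul_sum, Finset.sum_sub_distrib]
  ring

/-- The smallest element of a nonempty finite chain. -/
private theorem M2_min [Fintype I] (T : Finset (Set I)) (hT : T.Nonempty)
    (hc : ∀ A ∈ T, ∀ B ∈ T, A ⊆ B ∨ B ⊆ A) : ∃ A ∈ T, ∀ B ∈ T, A ⊆ B := by
  obtain ⟨A, hA, hmin⟩ := Finset.exists_minimal hT
  refine ⟨A, hA, fun B hB => ?_⟩
  rcases hc A hA B hB with h | h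
  · exact h
  · exact hmin hB h

/-- The zero set of the functionals at a weighted sum. -/
private theorem M2_zero [Fintype I] (R : RA n I) (t : Set I → ℝ) (h0 : ∀ A, 0 ≤ t A)
    (hf : ∀ A, t A ≠ 0 → A ∈ R.faces) (hc : ∀ A B, t A ≠ 0 → t B ≠ 0 → A ⊆ B ∨ B ⊆ A)
    (hne : ∃ A, t A ≠ 0) :
    ∃ A, t A ≠ 0 ∧ (∀ B, t B ≠ 0 → A ⊆ B) ∧ ∀ i, ∑ B, t B * R.al i (R.b B) = 0 ↔ i ∈ A := by
  obtain ⟨A1, hA1⟩ := hne
  obtain ⟨A, hA, hmin⟩ := M2_min (Finset.univ.filter (fun A => t A ≠ 0)) ⟨A1, by simpa using hA1⟩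
    (fun A hA B hB => hc A B (by simpa using hA) (by simpa using hB))
  have hA' : t A ≠ 0 := by simpa using hA
  refine ⟨A, hA', fun B hB => hmin B (by simpa using hB), fun i => ?_⟩
  have hnn : ∀ B, 0 ≤ t B * R.al i (R.b B) := by
    intro B
    by_cases hB : t B = 0
    · rw [hB, zero_mul]
    · exact mul_nonneg (h0 B) ((R.b_spec B (hf B hB)).1 i)
  rw [Finset.sum_eq_zero_iff_of_nonneg (fun B _ => hnn B)]
  constructor
  · intro h
    have h1 := h A (Finset.mem_univ A)
    have h2 : R.al i (R.b A) = 0 := (mul_eq_zero.mp h1).resolve_left hA'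
    have h3 : i ∈ R.act (R.b A) := h2
    rwa [(R.b_spec A (hf A hA')).2] at h3
  · intro hi B _
    by_cases hB : t B = 0
    · rw [hB, zero_mul]
    · have h1 : i ∈ B := hmin B (by simpa using hB) hi
      rw [← (R.b_spec B (hf B hB)).2] at h1
      have h2 : R.al i (R.b B) = 0 := h1
      rw [h2, mul_zero]

theorem RA.bary_mem [Fintype I] (R : RA n I) (k : Fin n → ℝ) (t : Set I → ℝ) (h : R.Bary k t) :
    k ∈ R.P1 ∧ t (R.act k) ≠ 0 ∧ ∀ B, t B ≠ 0 → R.act k ⊆ B := by
  obtain ⟨h0, hf, hc, h1, hk⟩ := h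
  have hal : ∀ i, R.al i k = ∑ A, t A * R.al i (R.b A) := by
    intro i
    rw [← hk, M2_al_sum R i t _ h1]
  have hne : ∃ A, t A ≠ 0 := by
    by_contra hcon
    push Not at hcon
    rw [Finset.sum_eq_zero (fun A _ => hcon A)] at h1
    exact zero_ne_one h1
  obtain ⟨A, hA, hmin, hz⟩ := M2_zero R t h0 hf hc hne
  have hact : R.act k = A := by
    ext i
    rw [← hz i, ← hal i]
    rfl
  rw [hact]
  refine ⟨fun i => ?_, hA, hmin⟩
  rw [hal i]
  refine Finset.sum_nonneg (fun B _ => ?_)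
  by_cases hB : t B = 0
  · rw [hB, zero_mul]
  · exact mul_nonneg (h0 B) ((R.b_spec B (hf B hB)).1 i)

private theorem M2_rec (R : RA n I) (b k : Fin n → ℝ) (hb : b ∈ R.P1)
    (h : ∀ i, R.al i b ≤ R.al i k) : k = b := by
  by_contra hne
  obtain ⟨j, hj⟩ := Function.ne_iff.mp hne
  have hd : 0 < |k j - b j| := abs_pos.mpr (sub_ne_zero.mpr hj)
  have hs : 0 ≤ 2 / |k j - b j| := by positivity
  have hy : b + (2 / |k j - b j|) • (k - b) ∈ R.P1 := by
    intro i
    rw [M2_al_line]
    have h1 := hb i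
    have h2 := mul_nonneg hs (sub_nonneg.mpr (h i))
    linarith
  have hball := P1_ball R _ hy
  have hball2 := P1_ball R b hb
  have h3 : (b + (2 / |k j - b j|) • (k - b)) j ^ 2 < 1 :=
    lt_of_le_of_lt (Finset.single_le_sum (f := fun l => (b + (2 / |k j - b j|) • (k - b)) l ^ 2)
      (fun l _ => sq_nonneg _) (Finset.mem_univ j)) hball
  have h4 : b j ^ 2 < 1 :=
    lt_of_le_of_lt (Finset.single_le_sum (f := fun l => b l ^ 2)
      (fun l _ => sq_nonneg _) (Finset.mem_univ j)) hball2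
  have h5 : |2 / |k j - b j| * (k j - b j)| = 2 := by
    rw [abs_mul, abs_div, abs_abs, abs_of_pos (by norm_num : (0 : ℝ) < 2)]
    field_simp
  have h6 : (b + (2 / |k j - b j|) • (k - b)) j = b j + 2 / |k j - b j| * (k j - b j) := rfl
  rw [h6] at h3
  have h7 := (sq_lt_one_iff_abs_lt_one _).mp h3
  have h8 := (sq_lt_one_iff_abs_lt_one _).mp h4
  have h9 : |2 / |k j - b j| * (k j - b j)| ≤
      |b j + 2 / |k j - b j| * (k j - b j)| + |b j| := by
    have := abs_sub (b j + 2 / |k j - b j| * (k j - b j)) (b j)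
    rwa [add_sub_cancel_left] at this
  linarith

private theorem M2_single [Fintype I] (R : RA n I) (A : Set I) (hA : A ∈ R.faces) :
    R.Bary (R.b A) (fun B => if B = A then 1 else 0) := by
  refine ⟨fun B => by by_cases h : B = A <;> simp [h], ?_, ?_, by simp, by simp⟩
  · intro B hB
    by_cases h : B = A
    · rwa [h]
    · simp [h] at hB
  · intro B C hB hC
    have h1 : B = A := by
      by_contra h
      simp [h] at hB
    have h2 : C = A := by
      by_contra h
      simp [h] at hC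
    rw [h1, h2]
    exact Or.inl subset_rfl

theorem RA.bary_exists [Fintype I] (R : RA n I) (k : Fin n → ℝ) (hk : k ∈ R.P1) : ∃ t, R.Bary k t := by
  suffices H : ∀ N : ℕ, ∀ k ∈ R.P1, (Finset.univ.filter (fun i => i ∉ R.act k)).card ≤ N →
      ∃ t, R.Bary k t from H _ k hk le_rfl
  intro N
  induction N with
  | zero =>
    intro k hk hN
    have hall : ∀ i, R.al i k = 0 := by
      intro i
      by_contra h
      have : i ∈ Finset.univ.filter (fun i => i ∉ R.act k) :=
        Finset.mem_filter.mpr ⟨Finset.mem_univ i, h⟩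
      rw [Finset.card_eq_zero.mp (Nat.le_zero.mp hN)] at this
      simp at this
    have hface : R.act k ∈ R.faces := ⟨k, hk, rfl⟩
    obtain ⟨hb, hba⟩ := R.b_spec _ hface
    have hkb : k = R.b (R.act k) := by
      refine M2_rec R _ k hb (fun i => ?_)
      have h1 : i ∈ R.act k := hall i
      rw [← hba] at h1
      have h2 : R.al i (R.b (R.act k)) = 0 := h1
      rw [h2, hall i]
    refine ⟨fun B => if B = R.act k then 1 else 0, ?_⟩
    have := M2_single R (R.act k) hface
    rwa [← hkb] at this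
  | succ N ih =>
    intro k hk hN
    have hface : R.act k ∈ R.faces := ⟨k, hk, rfl⟩
    obtain ⟨hb, hba⟩ := R.b_spec _ hface
    by_cases hkb : k = R.b (R.act k)
    · refine ⟨fun B => if B = R.act k then 1 else 0, ?_⟩
      have := M2_single R (R.act k) hface
      rwa [← hkb] at this
    obtain ⟨A, hAdef⟩ : ∃ A, A = R.act k := ⟨_, rfl⟩
    rw [← hAdef] at hface hb hba hkb
    obtain ⟨b, hbdef⟩ : ∃ b, b = R.b A := ⟨_, rfl⟩
    rw [← hbdef] at hb hba hkb
    have hzero : ∀ i, i ∈ A ↔ R.al i b = 0 := by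
      intro i
      rw [← hba]
      rfl
    have hzero' : ∀ i, i ∈ A ↔ R.al i k = 0 := by
      intro i
      rw [hAdef]
      rfl
    have hbpos : ∀ i, i ∉ A → 0 < R.al i b := fun i hi =>
      lt_of_le_of_ne (hb i) (fun h => hi ((hzero i).mpr h.symm))
    -- the set of the walls which decrease
    let J := Finset.univ.filter (fun i => R.al i k < R.al i b)
    have hJ : J.Nonempty := by
      by_contra hcon
      rw [Finset.not_nonempty_iff_eq_empty] at hcon
      apply hkb
      refine M2_rec R b k hb (fun i => ?_)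
      by_contra hlt
      push Not at hlt
      have : i ∈ J := by
        simp only [J, Finset.mem_filter, Finset.mem_univ, true_and]
        exact hlt
      rw [hcon] at this
      simp at this
    obtain ⟨i0, hi0, hmin⟩ := Finset.exists_min_image J (fun i => R.al i k / R.al i b) hJ
    have hi0' : R.al i0 k < R.al i0 b := by
      simpa [J] using hi0
    have hb0 : 0 < R.al i0 b := lt_of_le_of_lt (hk i0) hi0'
    have hi0A : i0 ∉ A := fun h => hb0.ne' ((hzero i0).mp h)
    have hk0 : 0 < R.al i0 k := lt_of_le_of_ne (hk i0) (fun h => hi0A ((hzero' i0).mpr h.symm))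
    obtain ⟨c, hc⟩ : ∃ c, c = R.al i0 k / R.al i0 b := ⟨_, rfl⟩
    have hc0 : 0 < c := by rw [hc]; positivity
    have hc1 : c < 1 := by rw [hc]; exact (div_lt_one hb0).mpr hi0'
    have h1c : 0 < 1 - c := by linarith
    have hall : ∀ i, c * R.al i b ≤ R.al i k := by
      intro i
      by_cases hi : R.al i k < R.al i b
      · have hbi : 0 < R.al i b := lt_of_le_of_lt (hk i) hi
        have := hmin i (by simpa [J] using hi)
        rw [← hc] at this
        exact (le_div_iff₀ hbi).mp this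
      · push Not at hi
        have h1 : c * R.al i b ≤ 1 * R.al i b := mul_le_mul_of_nonneg_right hc1.le (hb i)
        linarith
    obtain ⟨y, hy⟩ : ∃ y, y = b + (1 / (1 - c)) • (k - b) := ⟨_, rfl⟩
    have hyal : ∀ i, R.al i y = (R.al i k - c * R.al i b) / (1 - c) := by
      intro i
      rw [hy, M2_al_line]
      field_simp
      ring
    have hyP : y ∈ R.P1 := by
      intro i
      rw [hyal i]
      exact div_nonneg (by linarith [hall i]) h1c.le
    have hsub : ∀ i, i ∈ A → i ∈ R.act y := by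
      intro i hi
      show R.al i y = 0
      rw [hyal i, (hzero i).mp hi, (hzero' i).mp hi]
      simp
    have hi0y : i0 ∈ R.act y := by
      show R.al i0 y = 0
      rw [hyal i0, hc]
      have : R.al i0 k - R.al i0 k / R.al i0 b * R.al i0 b = 0 := by
        field_simp
        ring
      rw [this, zero_div]
    have hcard : (Finset.univ.filter (fun i => i ∉ R.act y)).card <
        (Finset.univ.filter (fun i => i ∉ R.act k)).card := by
      refine Finset.card_lt_card ?_
      rw [Finset.ssubset_iff_of_subset]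
      · refine ⟨i0, ?_, ?_⟩
        · rw [← hAdef]
          simpa using hi0A
        · simpa using hi0y
      · intro i hi
        rw [Finset.mem_filter] at hi ⊢
        refine ⟨hi.1, fun h => hi.2 ?_⟩
        rw [← hAdef] at h
        exact hsub i h
    obtain ⟨t, ht⟩ := ih y hyP (by omega)
    obtain ⟨-, -, htB⟩ := R.bary_mem y t ht
    obtain ⟨h0, hf, hch, h1, hyt⟩ := ht
    have hAsub : ∀ B, t B ≠ 0 → A ⊆ B := fun B hB i hi => htB B hB (hsub i hi)
    refine ⟨fun B => (if B = A then c else 0) + (1 - c) * t B, ?_, ?_, ?_, ?_, ?_⟩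
    · intro B
      have := mul_nonneg h1c.le (h0 B)
      show 0 ≤ (if B = A then c else 0) + (1 - c) * t B
      split
      · linarith
      · linarith
    · intro B hB
      by_cases h : B = A
      · rwa [h]
      · have : t B ≠ 0 := by
          intro h'
          simp [h, h'] at hB
        exact hf B this
    · intro B C hB hC
      have key : ∀ D, (if D = A then c else 0) + (1 - c) * t D ≠ 0 → D = A ∨ t D ≠ 0 := by
        intro D hD
        by_cases h : D = A
        · exact Or.inl h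
        · right
          intro h'
          simp [h, h'] at hD
      rcases key B hB with hB' | hB'
      · rcases key C hC with hC' | hC'
        · rw [hB', hC']
          exact Or.inl subset_rfl
        · rw [hB']
          exact Or.inl (hAsub C hC')
      · rcases key C hC with hC' | hC'
        · rw [hC']
          exact Or.inr (hAsub B hB')
        · exact hch B C hB' hC'
    · rw [Finset.sum_add_distrib, ← Finset.mul_sum, h1]
      simp
    · simp only [add_smul, Finset.sum_add_distrib, mul_smul, ← Finset.smul_sum, hyt]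
      have h2 : ∑ B, (if B = A then c else 0) • R.b B = c • b := by
        rw [Finset.sum_eq_single A]
        · simp [hbdef]
        · intro B _ hB
          simp [hB]
        · simp
      rw [h2, hy]
      ext j
      simp only [Pi.add_apply, Pi.smul_apply, Pi.sub_apply, smul_eq_mul]
      field_simp
      ring

private theorem M2_uniq [Fintype I] (R : RA n I) : ∀ N : ℕ, ∀ t t' : Set I → ℝ,
    (∀ A, 0 ≤ t A) → (∀ A, t A ≠ 0 → A ∈ R.faces) → (∀ A B, t A ≠ 0 → t B ≠ 0 → A ⊆ B ∨ B ⊆ A) →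
    (∀ A, 0 ≤ t' A) → (∀ A, t' A ≠ 0 → A ∈ R.faces) → (∀ A B, t' A ≠ 0 → t' B ≠ 0 → A ⊆ B ∨ B ⊆ A) →
    (∑ A, t A = ∑ A, t' A) → (∀ i, ∑ A, t A * R.al i (R.b A) = ∑ A, t' A * R.al i (R.b A)) →
    (Finset.univ.filter (fun A => t A ≠ 0)).card + (Finset.univ.filter (fun A => t' A ≠ 0)).card ≤ N →
    t = t' := by
  intro N
  induction N with
  | zero =>
    intro t t' _ _ _ _ _ _ _ _ hN
    have h1 : (Finset.univ.filter (fun A => t A ≠ 0)).card = 0 := by omega
    have h2 : (Finset.univ.filter (fun A => t' A ≠ 0)).card = 0 := by omega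
    rw [Finset.card_eq_zero, Finset.filter_eq_empty_iff] at h1 h2
    funext A
    have h3 := h1 (Finset.mem_univ A)
    have h4 := h2 (Finset.mem_univ A)
    push Not at h3 h4
    rw [h3, h4]
  | succ N ih =>
    -- the step, for `t A ≤ t' A`
    have step : ∀ t t' : Set I → ℝ,
        (∀ A, 0 ≤ t A) → (∀ A, t A ≠ 0 → A ∈ R.faces) →
        (∀ A B, t A ≠ 0 → t B ≠ 0 → A ⊆ B ∨ B ⊆ A) →
        (∀ A, 0 ≤ t' A) → (∀ A, t' A ≠ 0 → A ∈ R.faces) →
        (∀ A B, t' A ≠ 0 → t' B ≠ 0 → A ⊆ B ∨ B ⊆ A) →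
        (∑ A, t A = ∑ A, t' A) →
        (∀ i, ∑ A, t A * R.al i (R.b A) = ∑ A, t' A * R.al i (R.b A)) →
        (Finset.univ.filter (fun A => t A ≠ 0)).card +
          (Finset.univ.filter (fun A => t' A ≠ 0)).card ≤ N + 1 →
        ∀ A, t A ≠ 0 → t A ≤ t' A → t = t' := by
      intro t t' a1 a2 a3 b1 b2 b3 hs hl hN A hA hle
      have hA' : t' A ≠ 0 := (lt_of_lt_of_le (lt_of_le_of_ne (a1 A) hA.symm) hle).ne'
      have hne1 : ∀ B, t B - (if B = A then t A else 0) ≠ 0 → t B ≠ 0 := by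
        intro B hB h
        by_cases hBA : B = A
        · rw [hBA] at h
          exact hA h
        · simp [hBA, h] at hB
      have hne2 : ∀ B, t' B - (if B = A then t A else 0) ≠ 0 → t' B ≠ 0 := by
        intro B hB h
        by_cases hBA : B = A
        · rw [hBA] at h
          exact hA' h
        · simp [hBA, h] at hB
      have hsum : ∀ f : Set I → ℝ, ∑ B, (f B - (if B = A then t A else 0)) = ∑ B, f B - t A := by
        intro f
        rw [Finset.sum_sub_distrib]
        simp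
      have hsum2 : ∀ (f : Set I → ℝ) (i : I), ∑ B, (f B - (if B = A then t A else 0)) * R.al i (R.b B) =
          ∑ B, f B * R.al i (R.b B) - t A * R.al i (R.b A) := by
        intro f i
        simp only [sub_mul, Finset.sum_sub_distrib]
        simp
      have heq := ih (fun B => t B - (if B = A then t A else 0)) (fun B => t' B - (if B = A then t A else 0))
        (by
          intro B
          by_cases hBA : B = A
          · simp [hBA]
          · simp [hBA, a1 B])
        (fun B hB => a2 B (hne1 B hB)) (fun B C hB hC => a3 B C (hne1 B hB) (hne1 C hC))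
        (by
          intro B
          by_cases hBA : B = A
          · simp [hBA, hle]
          · simp [hBA, b1 B])
        (fun B hB => b2 B (hne2 B hB)) (fun B C hB hC => b3 B C (hne2 B hB) (hne2 C hC))
        (by rw [hsum, hsum, hs]) (by intro i; rw [hsum2, hsum2, hl i])
        (by
          have h1 : (Finset.univ.filter (fun B => t B - (if B = A then t A else 0) ≠ 0)).card <
              (Finset.univ.filter (fun B => t B ≠ 0)).card := by
            refine Finset.card_lt_card ?_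
            rw [Finset.ssubset_iff_of_subset]
            · exact ⟨A, by simpa using hA, by simp⟩
            · intro B hB
              rw [Finset.mem_filter] at hB ⊢
              exact ⟨hB.1, hne1 B hB.2⟩
          have h2 : (Finset.univ.filter (fun B => t' B - (if B = A then t A else 0) ≠ 0)).card ≤
              (Finset.univ.filter (fun B => t' B ≠ 0)).card := by
            refine Finset.card_le_card ?_
            intro B hB
            rw [Finset.mem_filter] at hB ⊢
            exact ⟨hB.1, hne2 B hB.2⟩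
          omega)
      funext B
      have : t B - (if B = A then t A else 0) = t' B - (if B = A then t A else 0) := congrFun heq B
      linarith
    intro t t' a1 a2 a3 b1 b2 b3 hs hl hN
    by_cases hne : ∃ A, t A ≠ 0
    · have hne' : ∃ A, t' A ≠ 0 := by
        by_contra hcon
        push Not at hcon
        obtain ⟨A, hA⟩ := hne
        rw [Finset.sum_eq_zero (fun A _ => hcon A)] at hs
        rw [Finset.sum_eq_zero_iff_of_nonneg (fun A _ => a1 A)] at hs
        exact hA (hs A (Finset.mem_univ A))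
      obtain ⟨A, hA, -, hz⟩ := M2_zero R t a1 a2 a3 hne
      obtain ⟨A', hA', -, hz'⟩ := M2_zero R t' b1 b2 b3 hne'
      have hAA : A = A' := by
        ext i
        rw [← hz i, ← hz' i, hl i]
      rw [← hAA] at hA'
      rcases le_total (t A) (t' A) with hle | hle
      · exact step t t' a1 a2 a3 b1 b2 b3 hs hl hN A hA hle
      · exact (step t' t b1 b2 b3 a1 a2 a3 hs.symm (fun i => (hl i).symm) (by omega) A hA' hle).symm
    · push Not at hne
      rw [Finset.sum_eq_zero (fun A _ => hne A)] at hs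
      have := (Finset.sum_eq_zero_iff_of_nonneg (fun A _ => b1 A)).mp hs.symm
      funext A
      rw [hne A, this A (Finset.mem_univ A)]

theorem RA.bary_unique [Fintype I] (R : RA n I) (k : Fin n → ℝ) (t t' : Set I → ℝ) (h : R.Bary k t)
    (h' : R.Bary k t') : t = t' := by
  obtain ⟨a1, a2, a3, a4, a5⟩ := h
  obtain ⟨b1, b2, b3, b4, b5⟩ := h'
  refine M2_uniq R _ t t' a1 a2 a3 b1 b2 b3 (by rw [a4, b4]) (fun i => ?_) le_rfl
  rw [← M2_al_sum R i t _ a4, ← M2_al_sum R i t' _ b4, a5, b5]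

theorem RA.t_spec [Fintype I] (R : RA n I) (k : Fin n → ℝ) (hk : k ∈ R.P1) : R.Bary k (R.t k) :=
  Classical.epsilon_spec (R.bary_exists k hk)

theorem RA.t_eq [Fintype I] (R : RA n I) (k : Fin n → ℝ) (t : Set I → ℝ) (h : R.Bary k t) : R.t k = t :=
  R.bary_unique k _ _ (R.t_spec k (R.bary_mem k t h).1) h

theorem RA.t_b [Fintype I] (R : RA n I) (A : Set I) (hA : A ∈ R.faces) :
    R.t (R.b A) = fun B => if B = A then 1 else 0 :=
  R.t_eq _ _ (M2_single R A hA)

end Pool.Agent.MP_455d73_gt.PQ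
end
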