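import Pool.Agent.Lib.MP_455d73_gt.Mg.G035
import Pool.Agent.Lib.MP_455d73_gt.Mg.G037
import Pool.Agent.Lib.MP_455d73_gt.Mg.G033

section

/-!
TASK M5b (easy): the elements of the group act linearly; the weights.

`exists_linear`: `Subgroup.closure_induction`: for `R.s i` the linear map `x ↦ x - (2 * lor x e) • e` (`reflFun_reflFun` gives the
inverse; `LinearEquiv.ofInvolutive` or similar); products; inverses.
`wt_of`: for `p ∈ P` and `x = g p`, `g ∈ G`: the chosen point `p'` in the definition of `R.wt x` satisfies `p' ∈ P`, `g' p' = x`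
(`Classical.epsilon_spec`), so `(g'⁻¹ g) p = p' ∈ P` and `p' = p` by `RA.tits` (with `S = PUnit`, all `σ i = 1`, `RA.exists_perm`).
`wt_pos`, `wt_inv` follow with `RA.cover`.
-/

set_option autoImplicit false

open Finset
open scoped Classical

namespace Pool.Agent.MP_455d73_gt.PQ

variable {n : ℕ} {I : Type}

private def M5b_reflLin (e : Mk n) : Mk n →ₗ[ℝ] Mk n where
  toFun := reflFun e
  map_add' x y := by
    unfold reflFun
    rw [lor_add_left]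
    module
  map_smul' r x := by
    unfold reflFun
    rw [lor_smul_left, RingHom.id_apply]
    module

theorem RA.exists_linear (R : RA n I) (g : Equiv.Perm (Hyp n)) (hg : g ∈ R.G) :
    ∃ T : Mk n ≃ₗ[ℝ] Mk n, ∀ x : Hyp n, (g x).1 = T x.1 := by
  unfold RA.G at hg
  induction hg using Subgroup.closure_induction with
  | mem g hg =>
    obtain ⟨i, rfl⟩ := hg
    refine ⟨LinearEquiv.ofInvolutive (M5b_reflLin (R.e i))
      (fun x => reflFun_reflFun (R.e i) (R.unit i) x), fun x => rfl⟩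
  | one => exact ⟨LinearEquiv.refl ℝ _, fun x => rfl⟩
  | mul a b _ _ ha hb =>
    obtain ⟨A, hA⟩ := ha
    obtain ⟨B, hB⟩ := hb
    refine ⟨B.trans A, fun x => ?_⟩
    rw [Equiv.Perm.mul_apply, hA, hB]
    rfl
  | inv a _ ha =>
    obtain ⟨A, hA⟩ := ha
    refine ⟨A.symm, fun x => ?_⟩
    have h := hA (a⁻¹ x)
    rw [show a (a⁻¹ x) = x from a.apply_symm_apply x] at h
    rw [h, LinearEquiv.symm_apply_apply]

theorem RA.strict (R : RA n I) (g : Equiv.Perm (Hyp n)) (hg : g ∈ R.G) (x : Hyp n) (hx : x ∈ R.P)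
    (hgx : g x ∈ R.P) : g x = x := by
  obtain ⟨π, hπ⟩ := R.exists_perm (fun _ => (1 : Equiv.Perm PUnit.{1})) g hg
  exact (R.tits (fun _ => (1 : Equiv.Perm PUnit.{1}))
    ⟨fun _ => mul_one 1, fun _ _ _ => rfl⟩ (g, π) hπ x hx hgx).1

theorem RA.wt_of (R : RA n I) (p : Hyp n) (hp : p ∈ R.P) (g : Equiv.Perm (Hyp n)) (hg : g ∈ R.G) :
    R.wt (g p) = (p.1.2)⁻¹ := by
  have hex : ∃ p' : Hyp n, p' ∈ R.P ∧ ∃ h ∈ R.G, h p' = g p := ⟨p, hp, g, hg, rfl⟩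
  obtain ⟨hP, h, hh, hhp⟩ := Classical.epsilon_spec hex
  unfold RA.wt
  set q := Classical.epsilon (fun p' : Hyp n => p' ∈ R.P ∧ ∃ h ∈ R.G, h p' = g p) with hq
  have h1 : (h⁻¹ * g) p = q := by
    rw [Equiv.Perm.mul_apply, ← hhp]
    exact h.symm_apply_apply q
  have h2 := R.strict (h⁻¹ * g) (R.G.mul_mem (R.G.inv_mem hh) hg) p hp (by rw [h1]; exact hP)
  rw [h1] at h2
  rw [h2]

theorem RA.wt_pos [Finite I] (R : RA n I) (x : Hyp n) : 0 < R.wt x := by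
  obtain ⟨g, hg, hx⟩ := R.cover x
  have h := R.wt_of (g x) hx g⁻¹ (R.G.inv_mem hg)
  rw [show g⁻¹ (g x) = x from g.symm_apply_apply x] at h
  rw [h]
  exact inv_pos.mpr (g x).2.2

theorem RA.wt_inv [Finite I] (R : RA n I) (x : Hyp n) (g : Equiv.Perm (Hyp n)) (hg : g ∈ R.G) :
    R.wt (g x) = R.wt x := by
  obtain ⟨h, hh, hx⟩ := R.cover x
  have h1 := R.wt_of (h x) hx h⁻¹ (R.G.inv_mem hh)
  have h2 := R.wt_of (h x) hx (g * h⁻¹) (R.G.mul_mem hg (R.G.inv_mem hh))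
  rw [Equiv.Perm.mul_apply] at h2
  rw [show h⁻¹ (h x) = x from h.symm_apply_apply x] at h1 h2
  rw [h1, h2]

end Pool.Agent.MP_455d73_gt.PQ
end

section

/-!
TASK Q1 (medium): a subgroup of finite index is the stabiliser of a point of a finite transitive set of labels.

`S = ↥R.G ⧸ Γ.subgroupOf R.G` (finite: `Subgroup.FiniteIndex`), `s₀` = the coset of `1`, `σ i = MulAction.toPerm ⟨R.s i, _⟩` (left
multiplication), where `R.s i ∈ R.G`. `Compat`: `R.s i * R.s i = 1` (`reflFun_reflFun`), and `R.s i * R.s j = R.s j * R.s i` if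
`lor e_i e_j = 0` (computation with `refl_coe`), `MulAction.toPermHom` is a homomorphism. By closure induction: `(g, π) ∈ GS σ` implies
`g ∈ R.G` and `π = toPerm ⟨g, _⟩`; and conversely for `g ∈ R.G` (`RA.exists_perm`). `Trans`: the coset of `g` is `toPerm g s₀`, and
`toPerm g` is in the closure of the range of `σ` (`RA.snd_mem`). `stab`: `toPerm g s₀ = s₀` iff `g ∈ Γ`.
-/

set_option autoImplicit false

open Finset
open scoped Classical

namespace Pool.Agent.MP_455d73_gt.PQ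

variable {n : ℕ} {I : Type}

private theorem Q1_mem (R : RA n I) (i : I) : R.s i ∈ R.G := Subgroup.subset_closure ⟨i, rfl⟩

private theorem Q1_sq (R : RA n I) (i : I) : R.s i * R.s i = 1 := by
  apply Equiv.ext
  intro x
  apply Subtype.ext
  show reflFun (R.e i) (reflFun (R.e i) x.1) = x.1
  exact reflFun_reflFun _ (R.unit i) _

private theorem Q1_comm (R : RA n I) (i j : I) (h : lor (R.e i) (R.e j) = 0) :
    R.s i * R.s j = R.s j * R.s i := by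
  apply Equiv.ext
  intro x
  apply Subtype.ext
  show reflFun (R.e i) (reflFun (R.e j) x.1) = reflFun (R.e j) (reflFun (R.e i) x.1)
  have h' : lor (R.e j) (R.e i) = 0 := by rw [lor_comm]; exact h
  unfold reflFun
  simp only [lor_sub_left, lor_smul_left, h, h', mul_zero, sub_zero]
  exact sub_right_comm _ _ _

/-- The permutation of the cosets. -/
private def Q1_p (R : RA n I) (Γ : Subgroup (Equiv.Perm (Hyp n))) (g : R.G) :
    Equiv.Perm (R.G ⧸ Γ.subgroupOf R.G) := MulAction.toPerm g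

private theorem Q1_p_mul (R : RA n I) (Γ : Subgroup (Equiv.Perm (Hyp n))) (g h : R.G) :
    Q1_p R Γ (g * h) = Q1_p R Γ g * Q1_p R Γ h := by
  apply Equiv.ext
  intro x
  exact mul_smul g h x

private theorem Q1_p_one (R : RA n I) (Γ : Subgroup (Equiv.Perm (Hyp n))) :
    Q1_p R Γ 1 = 1 := by
  apply Equiv.ext
  intro x
  exact one_smul R.G x

private theorem Q1_p_inv (R : RA n I) (Γ : Subgroup (Equiv.Perm (Hyp n))) (g : R.G) :
    Q1_p R Γ g⁻¹ = (Q1_p R Γ g)⁻¹ := by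
  rw [eq_inv_iff_mul_eq_one, ← Q1_p_mul, inv_mul_cancel, Q1_p_one]

/-- The labels. -/
private def Q1_σ (R : RA n I) (Γ : Subgroup (Equiv.Perm (Hyp n))) (i : I) :
    Equiv.Perm (R.G ⧸ Γ.subgroupOf R.G) := Q1_p R Γ ⟨R.s i, Q1_mem R i⟩

private theorem Q1_in (R : RA n I) (Γ : Subgroup (Equiv.Perm (Hyp n))) (g : Equiv.Perm (Hyp n))
    (hg : g ∈ R.G) : (g, Q1_p R Γ ⟨g, hg⟩) ∈ R.GS (Q1_σ R Γ) := by
  induction hg using Subgroup.closure_induction with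
  | mem x hx =>
    obtain ⟨i, rfl⟩ := hx
    exact Subgroup.subset_closure ⟨i, rfl⟩
  | one =>
    have h := (R.GS (Q1_σ R Γ)).one_mem
    have e : ((1 : Equiv.Perm (Hyp n)), Q1_p R Γ ⟨1, R.G.one_mem⟩) =
        (1 : Equiv.Perm (Hyp n) × Equiv.Perm (R.G ⧸ Γ.subgroupOf R.G)) :=
      Prod.ext rfl (Q1_p_one R Γ)
    rw [e]
    exact h
  | mul x y hx hy h1 h2 =>
    have h := (R.GS (Q1_σ R Γ)).mul_mem h1 h2
    have e : (x * y, Q1_p R Γ ⟨x * y, R.G.mul_mem hx hy⟩) =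
        (x, Q1_p R Γ ⟨x, hx⟩) * (y, Q1_p R Γ ⟨y, hy⟩) :=
      Prod.ext rfl (Q1_p_mul R Γ ⟨x, hx⟩ ⟨y, hy⟩)
    rw [e]
    exact h
  | inv x hx h1 =>
    have h := (R.GS (Q1_σ R Γ)).inv_mem h1
    have e : (x⁻¹, Q1_p R Γ ⟨x⁻¹, R.G.inv_mem hx⟩) = (x, Q1_p R Γ ⟨x, hx⟩)⁻¹ :=
      Prod.ext rfl (Q1_p_inv R Γ ⟨x, hx⟩)
    rw [e]
    exact h

private theorem Q1_out (R : RA n I) (Γ : Subgroup (Equiv.Perm (Hyp n)))
    (p : Equiv.Perm (Hyp n) × Equiv.Perm (R.G ⧸ Γ.subgroupOf R.G))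
    (hp : p ∈ R.GS (Q1_σ R Γ)) : ∃ hg : p.1 ∈ R.G, p.2 = Q1_p R Γ ⟨p.1, hg⟩ := by
  induction hp using Subgroup.closure_induction with
  | mem x hx =>
    obtain ⟨i, rfl⟩ := hx
    exact ⟨Q1_mem R i, rfl⟩
  | one => exact ⟨R.G.one_mem, (Q1_p_one R Γ).symm⟩
  | mul x y hx hy h1 h2 =>
    obtain ⟨a, ha⟩ := h1
    obtain ⟨b, hb⟩ := h2
    refine ⟨R.G.mul_mem a b, ?_⟩
    show x.2 * y.2 = _
    rw [ha, hb]
    exact (Q1_p_mul R Γ ⟨x.1, a⟩ ⟨y.1, b⟩).symm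
  | inv x hx h1 =>
    obtain ⟨a, ha⟩ := h1
    refine ⟨R.G.inv_mem a, ?_⟩
    show x.2⁻¹ = _
    rw [ha]
    exact (Q1_p_inv R Γ ⟨x.1, a⟩).symm

private theorem Q1_fix (R : RA n I) (Γ : Subgroup (Equiv.Perm (Hyp n))) (g : Equiv.Perm (Hyp n))
    (hg : g ∈ R.G) :
    Q1_p R Γ ⟨g, hg⟩ (((1 : R.G) : R.G ⧸ Γ.subgroupOf R.G)) =
      (((1 : R.G) : R.G ⧸ Γ.subgroupOf R.G)) ↔ g ∈ Γ := by
  have h1 : Q1_p R Γ ⟨g, hg⟩ (((1 : R.G) : R.G ⧸ Γ.subgroupOf R.G)) =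
      (((⟨g, hg⟩ : R.G) : R.G ⧸ Γ.subgroupOf R.G)) := by
    show (⟨g, hg⟩ : R.G) • (((1 : R.G) : R.G ⧸ Γ.subgroupOf R.G)) = _
    rw [MulAction.Quotient.smul_coe, smul_eq_mul, mul_one]
  rw [h1, eq_comm, QuotientGroup.eq, inv_one, one_mul]
  exact Subgroup.mem_subgroupOf

theorem RA.coset (R : RA n I) (Γ : Subgroup (Equiv.Perm (Hyp n))) (hΓ : Γ ≤ R.G)
    (hf : (Γ.subgroupOf R.G).FiniteIndex) :
    ∃ (S : Type) (_ : Fintype S) (σ : I → Equiv.Perm S) (s₀ : S),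
      R.Compat σ ∧ Trans σ s₀ ∧ R.stab σ s₀ = Γ := by
  have := hf
  have : Finite (R.G ⧸ Γ.subgroupOf R.G) := Subgroup.finite_quotient_of_finiteIndex
  refine ⟨R.G ⧸ Γ.subgroupOf R.G, Fintype.ofFinite _, Q1_σ R Γ, ((1 : R.G) : R.G ⧸ Γ.subgroupOf R.G),
    ⟨?_, ?_⟩, ?_, ?_⟩
  · intro i
    show Q1_p R Γ _ * Q1_p R Γ _ = 1
    rw [← Q1_p_mul, ← Q1_p_one R Γ]
    exact congrArg (Q1_p R Γ) (Subtype.ext (Q1_sq R i))
  · intro i j hij
    show Q1_p R Γ _ * Q1_p R Γ _ = Q1_p R Γ _ * Q1_p R Γ _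
    rw [← Q1_p_mul, ← Q1_p_mul]
    exact congrArg (Q1_p R Γ) (Subtype.ext (Q1_comm R i j hij))
  · rintro s
    obtain ⟨g, rfl⟩ := QuotientGroup.mk_surjective s
    refine ⟨Q1_p R Γ g, RA.snd_mem R (Q1_σ R Γ) g.1 _ (Q1_in R Γ g.1 g.2), ?_⟩
    show g • (((1 : R.G) : R.G ⧸ Γ.subgroupOf R.G)) = _
    rw [MulAction.Quotient.smul_coe, smul_eq_mul, mul_one]
  · apply le_antisymm
    · rintro g ⟨π, hπ, h0⟩
      obtain ⟨hg, hp⟩ := Q1_out R Γ (g, π) hπ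
      have hp' : π = Q1_p R Γ ⟨g, hg⟩ := hp
      rw [hp'] at h0
      exact (Q1_fix R Γ g hg).1 h0
    · intro g hg
      exact ⟨Q1_p R Γ ⟨g, hΓ hg⟩, Q1_in R Γ g (hΓ hg), (Q1_fix R Γ g (hΓ hg)).2 hg⟩

end Pool.Agent.MP_455d73_gt.PQ
end
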