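import Pool.Agent.Lib.MP_455d73_gt.Mg.G039
import Pool.Agent.Lib.MP_455d73_gt.Mg.G029
import Pool.Agent.Lib.MP_455d73_gt.Mg.G042

section

/-!
TASK M3 (medium): the coordinates in the barycentric subdivision are piecewise affine.

For a finset `C` of faces which is a chain, the vectors `(b A, 1)`, `A ∈ C`, in `(Fin n → ℝ) × ℝ` are linearly independent: order the chain
`A₁ ⊂ A₂ ⊂ … ⊂ A_m`; given `∑ c_j (b A_j, 1) = 0`, suppose not all `c_j` are zero. (By uniqueness of coordinates: with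
`P = ∑ c_j⁺ > 0` (the sum of the `c_j` is 0), the point `∑ (c_j⁺/P) b A_j = ∑ (c_j⁻/P) b A_j` has the two `Bary` coordinates
`c⁺/P` and `c⁻/P`, so `c⁺ = c⁻`, `c = 0`: `RA.bary_unique`.) So there is a linear map `L` from `(Fin n → ℝ) × ℝ` to `(Set I → ℝ)` with
`L (b A, 1)` = the indicator of `A` for `A ∈ C` (`LinearIndependent` gives a left inverse, or extend to a basis); put
`β_C k = L (k, 1)`, an affine map. The piece is `T_C = {k | 0 ≤ β_C k A ∀ A, β_C k A = 0 for A ∉ C, ∑ β_C k A = 1, ∑ β_C k A • b A = k}`, a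
convex polyhedron (finitely many affine equalities and inequalities; `HPoly.le`, `HPoly.iInter`, `HPoly.inter`). For `k ∈ T_C` one has
`Bary k (β_C k)`, so `R.t k = β_C k` (`RA.t_eq`). Each `k ∈ P1` is in `T_C` for `C` = the support of `R.t k`: `β_C k = R.t k` by
linearity. Apply `PA_mk'` with the finite index type of all finsets `C` (use a piece `∅`-like or the whole construction with `if` for
finsets which are not chains of faces, e.g. the index type `{C : Finset (Set I) // …}`).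
-/

set_option autoImplicit false

open Finset
open scoped Classical

namespace Pool.Agent.MP_455d73_gt.PQ

variable {n : ℕ} {I : Type}

theorem M3_eq {ι : Type} [Fintype ι] (f g : (ι → ℝ) →ᵃ[ℝ] ℝ) : HPoly {x | f x = g x} := by
  have h : {x | f x = g x} = {x | f x ≤ g x} ∩ {x | g x ≤ f x} := by
    ext x
    simp only [Set.mem_setOf_eq, Set.mem_inter_iff]
    exact le_antisymm_iff
  rw [h]
  exact (HPoly.le f g).inter (HPoly.le g f)

/-- Sums over the members of a finset as sums over all indices. -/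
theorem M3_sum {I : Type} [Fintype I] {M : Type} [AddCommGroup M] [Module ℝ M] (C : Finset (Set I))
    (g : C → ℝ) (v : Set I → M) :
    ∑ A : C, g A • v A = ∑ A : Set I, (if h : A ∈ C then g ⟨A, h⟩ else 0) • v A := by
  have h1 : ∑ A : C, g A • v A =
      ∑ A : C, (if h : (A : Set I) ∈ C then g ⟨A, h⟩ else 0) • v A := by
    refine Finset.sum_congr rfl fun A _ => ?_
    rw [dif_pos A.2]
  rw [h1, Finset.sum_coe_sort C (fun A => (if h : A ∈ C then g ⟨A, h⟩ else 0) • v A)]
  refine Finset.sum_subset (Finset.subset_univ C) fun A _ hA => ?_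
  rw [dif_neg hA, zero_smul]

theorem RA.b_indep (R : RA n I) [Fintype I] (C : Finset (Set I)) (hC : ∀ A ∈ C, A ∈ R.faces)
    (hc : ∀ A ∈ C, ∀ B ∈ C, A ⊆ B ∨ B ⊆ A) :
    LinearIndependent ℝ (fun A : C => ((R.b A, 1) : Mk n)) := by
  rw [Fintype.linearIndependent_iff]
  intro g hg
  rw [M3_sum C g (fun A => ((R.b A, 1) : Mk n))] at hg
  set c : Set I → ℝ := fun A => if h : A ∈ C then g ⟨A, h⟩ else 0 with hcdef
  have hcC : ∀ A, c A ≠ 0 → A ∈ C := by
    intro A hA
    by_contra hn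
    exact hA (by rw [hcdef]; exact dif_neg hn)
  have hs1 : ∑ A, c A • R.b A = 0 := by
    have := congrArg Prod.fst hg
    rw [Prod.fst_sum] at this
    exact this
  have hs2 : ∑ A, c A = 0 := by
    have := congrArg Prod.snd hg
    rw [Prod.snd_sum] at this
    simp only [Prod.smul_snd, smul_eq_mul, mul_one] at this
    exact this
  set P : ℝ := ∑ A, max (c A) 0 with hP
  have hP' : ∑ A, max (-(c A)) 0 = P := by
    have h1 : ∑ A, (max (c A) 0 - max (-(c A)) 0) = ∑ A, c A := by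
      refine Finset.sum_congr rfl fun A _ => ?_
      rcases le_total 0 (c A) with h | h
      · rw [max_eq_left h, max_eq_right (by linarith)]; ring
      · rw [max_eq_right h, max_eq_left (by linarith)]; ring
    rw [Finset.sum_sub_distrib, hs2] at h1
    linarith
  have hvec : ∑ A, max (c A) 0 • R.b A = ∑ A, max (-(c A)) 0 • R.b A := by
    have h1 : ∑ A, (max (c A) 0 • R.b A - max (-(c A)) 0 • R.b A) = ∑ A, c A • R.b A := by
      refine Finset.sum_congr rfl fun A _ => ?_
      rw [← sub_smul]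
      congr 1
      rcases le_total 0 (c A) with h | h
      · rw [max_eq_left h, max_eq_right (by linarith)]; ring
      · rw [max_eq_right h, max_eq_left (by linarith)]; ring
    rw [Finset.sum_sub_distrib, hs1] at h1
    exact sub_eq_zero.mp h1
  have hPnn : 0 ≤ P := Finset.sum_nonneg fun A _ => le_max_right _ _
  have hpos1 : ∀ A, max (c A) 0 / P ≠ 0 → A ∈ C := by
    intro A hA
    refine hcC A fun h0 => hA ?_
    rw [h0]; simp
  have hpos2 : ∀ A, max (-(c A)) 0 / P ≠ 0 → A ∈ C := by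
    intro A hA
    refine hcC A fun h0 => hA ?_
    rw [h0]; simp
  have hall : ∀ A, c A = 0 := by
    rcases hPnn.lt_or_eq with hlt | heq
    · have hb1 : R.Bary (∑ A, (max (c A) 0 / P) • R.b A) (fun A => max (c A) 0 / P) := by
        refine ⟨fun A => div_nonneg (le_max_right _ _) hPnn, fun A hA => hC A (hpos1 A hA),
          fun A B hA hB => hc A (hpos1 A hA) B (hpos1 B hB), ?_, rfl⟩
        rw [← Finset.sum_div, ← hP, div_self hlt.ne']
      have hb2 : R.Bary (∑ A, (max (c A) 0 / P) • R.b A) (fun A => max (-(c A)) 0 / P) := by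
        refine ⟨fun A => div_nonneg (le_max_right _ _) hPnn, fun A hA => hC A (hpos2 A hA),
          fun A B hA hB => hc A (hpos2 A hA) B (hpos2 B hB), ?_, ?_⟩
        · rw [← Finset.sum_div, hP', div_self hlt.ne']
        · simp only [div_eq_inv_mul, mul_smul]
          rw [← Finset.smul_sum, ← Finset.smul_sum, hvec]
      have heq := R.bary_unique _ _ _ hb1 hb2
      intro A
      have h1 : max (c A) 0 / P = max (-(c A)) 0 / P := congrFun heq A
      have h2 : max (c A) 0 = max (-(c A)) 0 := by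
        field_simp at h1
        exact h1
      rcases le_total 0 (c A) with h | h
      · rw [max_eq_left h, max_eq_right (by linarith)] at h2
        exact h2
      · rw [max_eq_right h, max_eq_left (by linarith)] at h2
        linarith
    · intro A
      have h1 : max (c A) 0 = 0 :=
        (Finset.sum_eq_zero_iff_of_nonneg (fun A _ => le_max_right _ _)).mp (hP.symm.trans heq.symm) A
          (Finset.mem_univ A)
      have h2 : max (-(c A)) 0 = 0 :=
        (Finset.sum_eq_zero_iff_of_nonneg (fun A _ => le_max_right _ _)).mp (hP'.trans heq.symm) A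
          (Finset.mem_univ A)
      have h3 := le_max_left (c A) 0
      have h4 := le_max_left (-(c A)) 0
      linarith
  intro A
  have := hall A
  simp only [hcdef] at this
  rw [dif_pos A.2] at this
  exact this

/-- The linear map which maps the vectors of a chain to the unit vectors. -/
theorem M3_lin [Fintype I] (R : RA n I) (C : Finset (Set I)) (hC : ∀ A ∈ C, A ∈ R.faces)
    (hc : ∀ A ∈ C, ∀ B ∈ C, A ⊆ B ∨ B ⊆ A) :
    ∃ L : Mk n →ₗ[ℝ] (Set I → ℝ), ∀ A ∈ C, L (R.b A, 1) = fun B => if B = A then 1 else 0 := by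
  have hli := R.b_indep C hC hc
  rw [linearIndependent_iff_injective_finsuppLinearCombination] at hli
  obtain ⟨g, hg⟩ := LinearMap.exists_leftInverse_of_injective _ (LinearMap.ker_eq_bot.mpr hli)
  refine ⟨LinearMap.pi fun B => if h : B ∈ C then (Finsupp.lapply ⟨B, h⟩).comp g else 0,
    fun A hA => ?_⟩
  have h1 : g (R.b A, 1) = Finsupp.single ⟨A, hA⟩ 1 := by
    have := LinearMap.congr_fun hg (Finsupp.single ⟨A, hA⟩ 1)
    simpa using this
  funext B
  rw [LinearMap.pi_apply]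
  by_cases hB : B ∈ C
  · rw [dif_pos hB, LinearMap.comp_apply, h1, Finsupp.lapply_apply, Finsupp.single_apply]
    simp only [Subtype.mk.injEq, eq_comm]
  · rw [dif_neg hB, LinearMap.zero_apply, if_neg]
    rintro rfl
    exact hB hA

/-- The affine map `k ↦ L (k, 1)`. -/
noncomputable def M3_aff {κ : Type} (L : Mk n →ₗ[ℝ] (κ → ℝ)) : (Fin n → ℝ) →ᵃ[ℝ] (κ → ℝ) :=
  (L.comp (LinearMap.inl ℝ (Fin n → ℝ) ℝ)).toAffineMap + AffineMap.const ℝ (Fin n → ℝ) (L (0, 1))

theorem M3_aff_apply {κ : Type} (L : Mk n →ₗ[ℝ] (κ → ℝ)) (k : Fin n → ℝ) :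
    M3_aff L k = L (k, 1) := by
  have h : M3_aff L k = L (k, 0) + L (0, 1) := rfl
  rw [h, ← map_add]
  simp

/-- The coordinates which belong to a chain. -/
theorem M3_simplex [Fintype I] (C : Finset (Set I)) :
    HPoly {t : Set I → ℝ | (∀ A, 0 ≤ t A) ∧ (∀ A, A ∉ C → t A = 0) ∧ ∑ A, t A = 1} := by
  have h1 : HPoly (⋂ A : Set I, {t : Set I → ℝ | 0 ≤ t A}) :=
    HPoly.iInter _ fun A =>
      HPoly.le 0 (LinearMap.proj (R := ℝ) (φ := fun _ : Set I => ℝ) A).toAffineMap
  have h2 : HPoly (⋂ A : {A : Set I // A ∉ C}, {t : Set I → ℝ | t A.1 = 0}) :=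
    HPoly.iInter _ fun A =>
      M3_eq (LinearMap.proj (R := ℝ) (φ := fun _ : Set I => ℝ) A.1).toAffineMap 0
  have h3 : HPoly {t : Set I → ℝ | ∑ A, t A = 1} := by
    have h := M3_eq (∑ A : Set I, LinearMap.proj (R := ℝ) (φ := fun _ : Set I => ℝ) A).toAffineMap
      (AffineMap.const ℝ (Set I → ℝ) (1 : ℝ))
    have e : {t : Set I → ℝ | ∑ A, t A = 1} = {t | (∑ A : Set I,
        LinearMap.proj (R := ℝ) (φ := fun _ : Set I => ℝ) A).toAffineMap t =
        (AffineMap.const ℝ (Set I → ℝ) (1 : ℝ)) t} := by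
      ext t
      simp
    rw [e]
    exact h
  have h := (h1.inter h2).inter h3
  have e : {t : Set I → ℝ | (∀ A, 0 ≤ t A) ∧ (∀ A, A ∉ C → t A = 0) ∧ ∑ A, t A = 1} =
      ((⋂ A : Set I, {t : Set I → ℝ | 0 ≤ t A}) ∩
        (⋂ A : {A : Set I // A ∉ C}, {t : Set I → ℝ | t A.1 = 0})) ∩ {t | ∑ A, t A = 1} := by
    ext t
    simp only [Set.mem_setOf_eq, Set.mem_inter_iff, Set.mem_iInter, Subtype.forall, and_assoc]
  rw [e]
  exact h

theorem RA.t_PA [Fintype I] (R : RA n I) : PA R.P1 R.t := by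
  have key : ∀ C : {C : Finset (Set I) // (∀ A ∈ C, A ∈ R.faces) ∧
      ∀ A ∈ C, ∀ B ∈ C, A ⊆ B ∨ B ⊆ A},
      ∃ L : Mk n →ₗ[ℝ] (Set I → ℝ), ∀ A ∈ C.1, L (R.b A, 1) = fun B => if B = A then 1 else 0 :=
    fun C => M3_lin R C.1 C.2.1 C.2.2
  choose L hL using key
  refine PA_mk' (fun C => (M3_aff (L C)) ⁻¹' {t : Set I → ℝ | (∀ A, 0 ≤ t A) ∧
      (∀ A, A ∉ C.1 → t A = 0) ∧ ∑ A, t A = 1} ∩ {k | ∑ A, M3_aff (L C) k A • R.b A = k})
    (fun C => M3_aff (L C)) ?_ ?_ ?_
  · intro C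
    refine HPoly.inter ((M3_simplex C.1).preimage _) ?_
    have h1 : HPoly (⋂ j : Fin n, {k : Fin n → ℝ |
        ((∑ A : Set I, (R.b A j) • LinearMap.proj (R := ℝ) (φ := fun _ : Set I => ℝ) A).toAffineMap.comp
          (M3_aff (L C))) k =
        (LinearMap.proj (R := ℝ) (φ := fun _ : Fin n => ℝ) j).toAffineMap k}) :=
      HPoly.iInter _ fun j => M3_eq _ _
    have e : {k : Fin n → ℝ | ∑ A, M3_aff (L C) k A • R.b A = k} = ⋂ j : Fin n, {k : Fin n → ℝ |
        ((∑ A : Set I, (R.b A j) • LinearMap.proj (R := ℝ) (φ := fun _ : Set I => ℝ) A).toAffineMap.comp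
          (M3_aff (L C))) k =
        (LinearMap.proj (R := ℝ) (φ := fun _ : Fin n => ℝ) j).toAffineMap k} := by
      ext k
      simp only [Set.mem_setOf_eq, Set.mem_iInter]
      rw [funext_iff]
      refine forall_congr' fun j => ?_
      have h2 : ((∑ A : Set I, (R.b A j) • LinearMap.proj (R := ℝ) (φ := fun _ : Set I => ℝ)
          A).toAffineMap.comp (M3_aff (L C))) k = (∑ A, M3_aff (L C) k A • R.b A) j := by
        simp [Finset.sum_apply, mul_comm]
      rw [h2]
      rfl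
    rw [e]
    exact h1
  · intro k hk
    have hB := R.t_spec k hk
    obtain ⟨hb1, hb2, hb3, hb4, hb5⟩ := hB
    have hC1 : ∀ A ∈ Finset.univ.filter (fun A => R.t k A ≠ 0), A ∈ R.faces := by
      intro A hA
      exact hb2 A (Finset.mem_filter.mp hA).2
    have hC2 : ∀ A ∈ Finset.univ.filter (fun A => R.t k A ≠ 0),
        ∀ B ∈ Finset.univ.filter (fun A => R.t k A ≠ 0), A ⊆ B ∨ B ⊆ A := by
      intro A hA B hB
      exact hb3 A B (Finset.mem_filter.mp hA).2 (Finset.mem_filter.mp hB).2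
    refine ⟨⟨Finset.univ.filter (fun A => R.t k A ≠ 0), hC1, hC2⟩, ?_⟩
    set D : {C : Finset (Set I) // (∀ A ∈ C, A ∈ R.faces) ∧ ∀ A ∈ C, ∀ B ∈ C, A ⊆ B ∨ B ⊆ A} :=
      ⟨Finset.univ.filter (fun A => R.t k A ≠ 0), hC1, hC2⟩ with hD
    have hbeta : M3_aff (L D) k = R.t k := by
      rw [M3_aff_apply]
      have h1 : ((k, 1) : Mk n) = ∑ A, R.t k A • ((R.b A, 1) : Mk n) := by
        refine Prod.ext ?_ ?_
        · rw [Prod.fst_sum]
          exact hb5.symm
        · rw [Prod.snd_sum]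
          simp only [Prod.smul_snd, smul_eq_mul, mul_one]
          exact hb4.symm
      rw [h1, map_sum]
      funext B
      rw [Finset.sum_apply]
      have h2 : ∀ A : Set I, (L D (R.t k A • ((R.b A, 1) : Mk n))) B =
          if B = A then R.t k A else 0 := by
        intro A
        rw [map_smul, Pi.smul_apply, smul_eq_mul]
        by_cases hA : R.t k A = 0
        · rw [hA, zero_mul]
          simp
        · rw [hL D A (Finset.mem_filter.mpr ⟨Finset.mem_univ A, hA⟩)]
          simp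
      rw [Finset.sum_congr rfl fun A _ => h2 A]
      simp
    refine ⟨?_, ?_⟩
    · rw [Set.mem_preimage, hbeta]
      refine ⟨hb1, fun A hA => ?_, hb4⟩
      by_contra hne
      exact hA (Finset.mem_filter.mpr ⟨Finset.mem_univ A, hne⟩)
    · rw [Set.mem_setOf_eq, hbeta]
      exact hb5
  · rintro C x _ ⟨⟨h1, h2, h3⟩, h4⟩
    refine R.t_eq x _ ⟨h1, fun A hA => C.2.1 A ?_, fun A B hA hB => C.2.2 A ?_ B ?_, h3, h4⟩
    · by_contra hn; exact hA (h2 A hn)
    · by_contra hn; exact hA (h2 A hn)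
    · by_contra hn; exact hB (h2 B hn)

end Pool.Agent.MP_455d73_gt.PQ
end

section

/-!
TASK M4 (easy): when two points of the model agree.

`→`: for `A` with `R.t k A ≠ 0` evaluate at `(A, orb σ A c)`: the left side is `R.t k A ≠ 0`, so the right side is not zero, hence
`orb σ A c = orb σ A c'` and `R.t k A = R.t k' A`; symmetrically for `k'`; if both are zero they agree. So `R.t k = R.t k'`, and
`k = ∑ t A • b A = k'` (`RA.t_spec`). With `A = act k` (`t k (act k) ≠ 0` by `RA.bary_mem`) we get the equality of orbits.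
`←`: for `A` with `R.t k A ≠ 0`, `act k ⊆ A` (`RA.bary_mem`), so `orb σ A c = orb σ A c'` (`orb_eq_of_subset`); the other coordinates
are `0` on both sides.
-/

set_option autoImplicit false

open Finset
open scoped Classical

namespace Pool.Agent.MP_455d73_gt.PQ

variable {n : ℕ} {I S : Type}

private theorem M4_key [Fintype I] (R : RA n I) (σ : I → Equiv.Perm S) (k k' : Fin n → ℝ) (c c' : S)
    (h : R.inc σ k c = R.inc σ k' c') (A : Set I) (hA : R.t k A ≠ 0) :
    orb σ A c = orb σ A c' ∧ R.t k A = R.t k' A := by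
  have h1 := congrFun h (A, orb σ A c)
  simp only [RA.inc, if_true] at h1
  by_cases h2 : orb σ A c = orb σ A c'
  · rw [if_pos h2] at h1
    exact ⟨h2, h1⟩
  · rw [if_neg h2] at h1
    exact absurd h1 hA

theorem RA.inc_eq_iff [Fintype I] (R : RA n I) (σ : I → Equiv.Perm S) (k k' : Fin n → ℝ) (hk : k ∈ R.P1)
    (hk' : k' ∈ R.P1) (c c' : S) :
    R.inc σ k c = R.inc σ k' c' ↔ k = k' ∧ orb σ (R.act k) c = orb σ (R.act k) c' := by
  constructor
  · intro h
    have ht : R.t k = R.t k' := by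
      funext A
      by_cases h1 : R.t k A = 0
      · by_cases h2 : R.t k' A = 0
        · rw [h1, h2]
        · exact ((M4_key R σ k' k c' c h.symm A h2).2).symm
      · exact (M4_key R σ k k' c c' h A h1).2
    have hb := R.t_spec k hk
    have hb' := R.t_spec k' hk'
    refine ⟨?_, ?_⟩
    · rw [← hb.2.2.2.2, ← hb'.2.2.2.2, ht]
    · exact (M4_key R σ k k' c c' h (R.act k) (R.bary_mem k (R.t k) hb).2.1).1
  · rintro ⟨rfl, ho⟩
    funext v
    simp only [RA.inc]
    by_cases h0 : R.t k v.1 = 0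
    · rw [h0]
      simp
    · have hsub := (R.bary_mem k (R.t k) (R.t_spec k hk)).2.2 v.1 h0
      rw [orb_eq_of_subset σ (R.act k) v.1 hsub c c' ho]

end Pool.Agent.MP_455d73_gt.PQ
end

section

/-!
TASK M5c (medium-hard): the family `R.K` (translates of the simplices of the barycentric subdivision) is a triangulation.

Facts. For a face `A`: `b A ∈ P1` is in the open ball (`P1_ball`), `(up (b A)).1 = s_A • (b A, 1)` with `s_A > 0`, `up (b A) ∈ R.P`, and
`kl (up (b A)) = b A` (`kl_up`), so `A ↦ up (b A)` is injective on faces (`RA.b_spec`: `act (b A) = A`).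
`K_indep`: `τ = C.image (fun A => g (up (b A)))`; `RA.exists_linear` gives `T` with `(g x).1 = T x.1`; the vectors are `T (s_A • (b A, 1))`;
`RA.b_indep`.
`K_sub`: a nonempty subset of `C.image φ` is `C'.image φ` with a nonempty `C' ⊆ C` (`Finset.subset_image_iff`).
`K_exists`: `y = g p` with `p ∈ P`, `g ∈ G` (`RA.cover`); `k = kl p`, `t = R.t k` (`RA.t_spec`); `p.1 = p.2 • (k, 1) = ∑ p.2 * t A • (b A, 1)`, so
`y.1 = T p.1 = ∑_{A ∈ C} (p.2 * t A / s_A) • (g (up (b A))).1` with `C` = the support of `t` and positive coefficients (write the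
coefficients as a function on the points: `A ↦ g (up (b A))` is injective on `C`).
`K_unique`: let `y.1 = ∑ v ∈ τ, t v • v.1` with `τ = C.image (fun A => g (up (b A)))`, `t v > 0`, and the same for `τ'`, `g'`, `C'`, `t'`. Then
`(g⁻¹ y).1 = T⁻¹ y.1 = ∑_{A ∈ C} c_A (b A, 1)`, `c_A > 0`: so `p = g⁻¹ y ∈ P` and `kl p` has the `Bary` coordinates `c_A / ∑ c`, with support
exactly `C`. In the same way `p' = g'⁻¹ y ∈ P` with `kl p'` having support `C'`. `(g'⁻¹ g) p = p'`, both in `P`: `p = p'` (`RA.strict`), so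
`C = C'` (`RA.bary_unique`). By `RA.tits` (`S = PUnit`) and `RA.GSx_fix`-like reasoning `g'⁻¹ g` is in the closure of the `R.s i` with
`lor p e_i = 0`, i.e. `i ∈ act (kl p)`; for `A ∈ C`, `act (kl p) ⊆ A` (`RA.bary_mem`), so these `R.s i` fix `up (b A)`
(`mem_act_kl`, `lor (up (b A)) e_i = 0`, `refl` formula): so `g (up (b A)) = g' (up (b A))`: `τ = τ'`.
`K_inv`: `Finset.map_eq_image`, `Finset.image_image`; `h * g ∈ G`.
-/

set_option autoImplicit false

open Finset
open scoped Classical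

namespace Pool.Agent.MP_455d73_gt.PQ

variable {n : ℕ} {I : Type}

/-- A point of hyperbolic space in terms of the chart. -/
private theorem M5c_eq (x : Hyp n) : x.1 = x.1.2 • ((kl x, 1) : Mk n) := by
  have h := x.2.2
  refine Prod.ext (funext fun j => ?_) ?_
  · simp only [kl, Prod.smul_fst, Pi.smul_apply, smul_eq_mul]
    field_simp
  · simp only [Prod.smul_snd, smul_eq_mul, mul_one]

theorem RA.up_b (R : RA n I) (A : Set I) (hA : A ∈ R.faces) :
    up (R.b A) ∈ R.P ∧ kl (up (R.b A)) = R.b A ∧ 0 < (up (R.b A)).1.2 ∧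
      (up (R.b A)).1 = (up (R.b A)).1.2 • ((R.b A, 1) : Mk n) := by
  obtain ⟨h1, h2⟩ := R.b_spec A hA
  have hk := kl_up _ (P1_ball R _ h1)
  refine ⟨up_mem_P R _ h1, hk, (up (R.b A)).2.2, ?_⟩
  have h := M5c_eq (up (R.b A))
  rw [hk] at h
  exact h

private theorem M5c_act (R : RA n I) (A : Set I) (hA : A ∈ R.faces) :
    R.act (kl (up (R.b A))) = A := by
  rw [(R.up_b A hA).2.1]
  exact (R.b_spec A hA).2

private theorem M5c_inj (R : RA n I) (g : Equiv.Perm (Hyp n)) (C : Finset (Set I))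
    (hC : ∀ A ∈ C, A ∈ R.faces) : Set.InjOn (fun A => g (up (R.b A))) (C : Set (Set I)) := by
  intro A hA B hB h
  have h' : up (R.b A) = up (R.b B) := g.injective h
  have h1 := M5c_act R A (hC A hA)
  rw [h', M5c_act R B (hC B hB)] at h1
  exact h1.symm

theorem RA.K_indep [Fintype I] (R : RA n I) (τ : Finset (Hyp n)) (hτ : τ ∈ R.K) :
    LinearIndependent ℝ (fun v : τ => (v : Hyp n).1) := by
  obtain ⟨g, hg, C, hne, hC, hc, rfl⟩ := hτ
  obtain ⟨T, hT⟩ := R.exists_linear g hg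
  have hind := R.b_indep C hC hc
  have hmem : ∀ A : C, g (up (R.b A)) ∈ C.image (fun A => g (up (R.b A))) :=
    fun A => Finset.mem_image_of_mem (fun A => g (up (R.b A))) A.2
  let f : C → (C.image (fun A => g (up (R.b A)))) := fun A => ⟨g (up (R.b A)), hmem A⟩
  have hf : Function.Bijective f := by
    constructor
    · intro A B h
      have h' : g (up (R.b A)) = g (up (R.b B)) := congrArg Subtype.val h
      exact Subtype.ext (M5c_inj R g C hC A.2 B.2 h')
    · rintro ⟨v, hv⟩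
      obtain ⟨A, hA, rfl⟩ := Finset.mem_image.mp hv
      exact ⟨⟨A, hA⟩, rfl⟩
  rw [← linearIndependent_equiv (Equiv.ofBijective f hf)]
  have h1 : LinearIndependent ℝ (fun A : C => T ((R.b A, 1) : Mk n)) :=
    hind.map' T.toLinearMap T.ker
  have hpos : ∀ A : C, (up (R.b A)).1.2 ≠ 0 := fun A => ((R.up_b A (hC A A.2)).2.2.1).ne'
  have h2 := h1.units_smul (fun A : C => Units.mk0 _ (hpos A))
  have h3 : ((fun A : C => Units.mk0 _ (hpos A)) • fun A : C => T ((R.b A, 1) : Mk n)) =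
      ((fun v : C.image (fun A => g (up (R.b A))) => (v : Hyp n).1) ∘ Equiv.ofBijective f hf) := by
    funext A
    change (up (R.b A)).1.2 • T ((R.b A, 1) : Mk n) = (g (up (R.b A))).1
    rw [hT, ← map_smul, ← (R.up_b A (hC A A.2)).2.2.2]
  rw [h3] at h2
  exact h2

theorem RA.K_sub (R : RA n I) (τ : Finset (Hyp n)) (hτ : τ ∈ R.K) (τ' : Finset (Hyp n)) (h : τ' ⊆ τ)
    (hne : τ'.Nonempty) : τ' ∈ R.K := by
  obtain ⟨g, hg, C, hne', hC, hc, rfl⟩ := hτ
  obtain ⟨C', hC', rfl⟩ := Finset.subset_image_iff.mp h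
  exact ⟨g, hg, C', Finset.image_nonempty.mp hne, fun A hA => hC A (hC' hA),
    fun A hA B hB => hc A (hC' hA) B (hC' hB), rfl⟩

theorem RA.K_exists [Fintype I] (R : RA n I) (y : Hyp n) :
    ∃ τ ∈ R.K, ∃ t : Hyp n → ℝ, (∀ v ∈ τ, 0 < t v) ∧ y.1 = ∑ v ∈ τ, t v • v.1 := by
  obtain ⟨g, hg, hP⟩ := R.cover y
  have hk : kl (g y) ∈ R.P1 := (kl_mem_P1 R _).mpr hP
  obtain ⟨h0, h1, h2, h3, h4⟩ := R.t_spec (kl (g y)) hk
  obtain ⟨T, hT⟩ := R.exists_linear g⁻¹ (R.G.inv_mem hg)
  set t := R.t (kl (g y)) with ht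
  set C : Finset (Set I) := Finset.univ.filter (fun A => t A ≠ 0) with hCdef
  have hmem : ∀ A, A ∈ C ↔ t A ≠ 0 := fun A => by
    rw [hCdef, Finset.mem_filter]
    exact ⟨fun h => h.2, fun h => ⟨Finset.mem_univ A, h⟩⟩
  have hC : ∀ A ∈ C, A ∈ R.faces := fun A hA => h1 A ((hmem A).mp hA)
  have hsum : ∀ F : Set I → Mk n, (∀ A, t A = 0 → F A = 0) → ∑ A ∈ C, F A = ∑ A, F A := by
    intro F hF
    apply Finset.sum_subset (Finset.subset_univ C)
    intro A _ hA
    apply hF
    by_contra h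
    exact hA ((hmem A).mpr h)
  have hne : C.Nonempty := by
    by_contra h
    rw [Finset.not_nonempty_iff_eq_empty] at h
    have : ∑ A, t A = 0 := by
      apply Finset.sum_eq_zero
      intro A _
      by_contra hA
      have := (hmem A).mpr hA
      rw [h] at this
      exact Finset.notMem_empty A this
    rw [h3] at this
    exact one_ne_zero this
  have hgy : (g y).1 = ∑ A ∈ C, ((g y).1.2 * t A) • ((R.b A, 1) : Mk n) := by
    rw [hsum _ (fun A hA => by rw [hA, mul_zero, zero_smul])]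
    have e1 : ∑ A, ((g y).1.2 * t A) • ((R.b A, 1) : Mk n) =
        (g y).1.2 • ∑ A, t A • ((R.b A, 1) : Mk n) := by
      rw [Finset.smul_sum]
      exact Finset.sum_congr rfl (fun A _ => by rw [mul_smul])
    have e2 : ∑ A, t A • ((R.b A, 1) : Mk n) = ((kl (g y), 1) : Mk n) := by
      refine Prod.ext ?_ ?_
      · rw [Prod.fst_sum]
        simp only [Prod.smul_fst]
        exact h4
      · rw [Prod.snd_sum]
        simp only [Prod.smul_snd, smul_eq_mul, mul_one]
        exact h3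
    rw [e1, e2]
    exact M5c_eq (g y)
  have hgg : ∀ x : Hyp n, g (g⁻¹ x) = x := fun x => g.apply_symm_apply x
  have hgg' : g⁻¹ (g y) = y := g.symm_apply_apply y
  refine ⟨C.image (fun A => g⁻¹ (up (R.b A))),
    ⟨g⁻¹, R.G.inv_mem hg, C, hne, hC, fun A hA B hB => h2 A B ((hmem A).mp hA) ((hmem B).mp hB), rfl⟩,
    fun v => (g y).1.2 * t (R.act (kl (g v))) / (g v).1.2, ?_, ?_⟩
  · intro v hv
    obtain ⟨A, hA, rfl⟩ := Finset.mem_image.mp hv
    change 0 < (g y).1.2 * t (R.act (kl (g (g⁻¹ (up (R.b A)))))) / (g (g⁻¹ (up (R.b A)))).1.2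
    rw [hgg, M5c_act R A (hC A hA)]
    have hA' : 0 < t A := lt_of_le_of_ne (h0 A) (Ne.symm ((hmem A).mp hA))
    exact div_pos (mul_pos (g y).2.2 hA') (up (R.b A)).2.2
  · rw [Finset.sum_image (M5c_inj R g⁻¹ C hC)]
    have e1 : y.1 = ∑ A ∈ C, T (((g y).1.2 * t A) • ((R.b A, 1) : Mk n)) := by
      rw [← map_sum]
      have e2 : y.1 = T (g y).1 := by
        rw [← hT, hgg']
      exact e2.trans (congrArg T hgy)
    refine e1.trans (Finset.sum_congr rfl fun A hA => ?_)
    change _ = ((g y).1.2 * t (R.act (kl (g (g⁻¹ (up (R.b A)))))) / (g (g⁻¹ (up (R.b A)))).1.2) •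
      (g⁻¹ (up (R.b A))).1
    rw [hgg, M5c_act R A (hC A hA), hT, ← map_smul]
    obtain ⟨-, -, hs, he⟩ := R.up_b A (hC A hA)
    congr 1
    have e3 := congrArg (fun w : Mk n => ((g y).1.2 * t A / (up (R.b A)).1.2) • w) he
    refine Eq.trans ?_ e3.symm
    change _ = ((g y).1.2 * t A / (up (R.b A)).1.2) • ((up (R.b A)).1.2 • ((R.b A, 1) : Mk n))
    rw [smul_smul, div_mul_cancel₀ _ hs.ne']

private theorem M5c_bary [Fintype I] (R : RA n I) (p : Hyp n) (C : Finset (Set I))
    (hC : ∀ A ∈ C, A ∈ R.faces) (hc : ∀ A ∈ C, ∀ B ∈ C, A ⊆ B ∨ B ⊆ A) (c : Set I → ℝ)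
    (hpos : ∀ A ∈ C, 0 < c A) (hp : p.1 = ∑ A ∈ C, c A • ((R.b A, 1) : Mk n)) :
    R.Bary (kl p) (fun A => if A ∈ C then c A / p.1.2 else 0) := by
  have hp0 : 0 < p.1.2 := p.2.2
  have hmem : ∀ A, (if A ∈ C then c A / p.1.2 else 0) ≠ 0 → A ∈ C := by
    intro A hA
    by_contra h
    exact hA (if_neg h)
  have hsnd : p.1.2 = ∑ A ∈ C, c A := by
    have := congrArg Prod.snd hp
    rw [Prod.snd_sum] at this
    simpa only [Prod.smul_snd, smul_eq_mul, mul_one] using this
  have hfst : p.1.1 = ∑ A ∈ C, c A • R.b A := by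
    have := congrArg Prod.fst hp
    rw [Prod.fst_sum] at this
    simpa only [Prod.smul_fst] using this
  refine ⟨?_, fun A hA => hC A (hmem A hA), fun A B hA hB => hc A (hmem A hA) B (hmem B hB), ?_, ?_⟩
  · intro A
    change 0 ≤ (if A ∈ C then c A / p.1.2 else 0)
    by_cases h : A ∈ C
    · rw [if_pos h]
      exact (div_pos (hpos A h) hp0).le
    · rw [if_neg h]
  · rw [Finset.sum_ite_mem, Finset.univ_inter, ← Finset.sum_div, ← hsnd, div_self hp0.ne']
  · have e : ∀ A, (if A ∈ C then c A / p.1.2 else 0) • R.b A =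
        if A ∈ C then (c A / p.1.2) • R.b A else 0 := by
      intro A
      by_cases h : A ∈ C
      · rw [if_pos h, if_pos h]
      · rw [if_neg h, if_neg h, zero_smul]
    rw [Finset.sum_congr rfl (fun A _ => e A), Finset.sum_ite_mem, Finset.univ_inter]
    funext j
    rw [Finset.sum_apply]
    have : kl p j = p.1.1 j / p.1.2 := rfl
    rw [this, hfst, Finset.sum_apply, Finset.sum_div]
    apply Finset.sum_congr rfl
    intro A _
    simp only [Pi.smul_apply, smul_eq_mul]
    ring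

private theorem M5c_pull [Fintype I] (R : RA n I) (y : Hyp n) (g : Equiv.Perm (Hyp n)) (hg : g ∈ R.G)
    (C : Finset (Set I)) (hC : ∀ A ∈ C, A ∈ R.faces) (t : Hyp n → ℝ)
    (hy : y.1 = ∑ v ∈ C.image (fun A => g (up (R.b A))), t v • v.1) :
    (g⁻¹ y).1 = ∑ A ∈ C, (t (g (up (R.b A))) * (up (R.b A)).1.2) • ((R.b A, 1) : Mk n) := by
  obtain ⟨T, hT⟩ := R.exists_linear g⁻¹ (R.G.inv_mem hg)
  rw [hT, hy, Finset.sum_image (M5c_inj R g C hC), map_sum]
  apply Finset.sum_congr rfl
  intro A hA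
  rw [map_smul, ← hT, show g⁻¹ (g (up (R.b A))) = up (R.b A) from g.symm_apply_apply _, mul_smul,
    ← (R.up_b A (hC A hA)).2.2.2]

theorem RA.K_unique [Fintype I] (R : RA n I) (y : Hyp n) (τ τ' : Finset (Hyp n)) (hτ : τ ∈ R.K)
    (hτ' : τ' ∈ R.K) (t t' : Hyp n → ℝ) (ht : ∀ v ∈ τ, 0 < t v) (ht' : ∀ v ∈ τ', 0 < t' v)
    (hy : y.1 = ∑ v ∈ τ, t v • v.1) (hy' : y.1 = ∑ v ∈ τ', t' v • v.1) : τ = τ' := by
  obtain ⟨g, hg, C, hne, hC, hc, rfl⟩ := hτ
  obtain ⟨g', hg', C', hne', hC', hc', rfl⟩ := hτ'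
  have h1 := M5c_pull R y g hg C hC t hy
  have h1' := M5c_pull R y g' hg' C' hC' t' hy'
  have hpos : ∀ A ∈ C, 0 < t (g (up (R.b A))) * (up (R.b A)).1.2 := fun A hA =>
    mul_pos (ht _ (Finset.mem_image_of_mem (fun A => g (up (R.b A))) hA)) (up (R.b A)).2.2
  have hpos' : ∀ A ∈ C', 0 < t' (g' (up (R.b A))) * (up (R.b A)).1.2 := fun A hA =>
    mul_pos (ht' _ (Finset.mem_image_of_mem (fun A => g' (up (R.b A))) hA)) (up (R.b A)).2.2
  have h2 := M5c_bary R (g⁻¹ y) C hC hc _ hpos h1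
  have h2' := M5c_bary R (g'⁻¹ y) C' hC' hc' _ hpos' h1'
  have hP : g⁻¹ y ∈ R.P := (kl_mem_P1 R _).mp (R.bary_mem _ _ h2).1
  have hP' : g'⁻¹ y ∈ R.P := (kl_mem_P1 R _).mp (R.bary_mem _ _ h2').1
  have hgg : g (g⁻¹ y) = y := g.apply_symm_apply y
  have hmv : (g'⁻¹ * g) (g⁻¹ y) = g'⁻¹ y := by
    rw [Equiv.Perm.mul_apply, hgg]
  have hh : g'⁻¹ * g ∈ R.G := R.G.mul_mem (R.G.inv_mem hg') hg
  have heq : g'⁻¹ y = g⁻¹ y := by
    rw [← hmv]
    exact R.strict _ hh _ hP (by rw [hmv]; exact hP')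
  rw [heq] at h2'
  have h3 := R.bary_unique _ _ _ h2 h2'
  have hCC : C = C' := by
    ext A
    have h4 := congrFun h3 A
    have hy0 : 0 < (g⁻¹ y).1.2 := (g⁻¹ y).2.2
    constructor
    · intro hA
      by_contra hA'
      simp only [if_pos hA, if_neg hA'] at h4
      exact (div_pos (hpos A hA) hy0).ne' h4
    · intro hA
      by_contra hA'
      simp only [if_pos hA, if_neg hA'] at h4
      exact (div_pos (hpos' A hA) hy0).ne h4
  subst hCC
  -- the element fixes the vertices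
  obtain ⟨π, hπ⟩ := R.exists_perm (fun _ : I => (1 : Equiv.Perm Unit)) _ hh
  have hcomp : R.Compat (fun _ : I => (1 : Equiv.Perm Unit)) :=
    ⟨fun _ => one_mul 1, fun _ _ _ => rfl⟩
  have h5 := (R.tits _ hcomp _ hπ (g⁻¹ y) hP (by
    change (g'⁻¹ * g) (g⁻¹ y) ∈ R.P
    rw [hmv]
    exact hP')).2
  have key : ∀ q : Equiv.Perm (Hyp n) × Equiv.Perm Unit,
      q ∈ R.GSx (fun _ : I => (1 : Equiv.Perm Unit)) (g⁻¹ y) →
      ∀ A ∈ C, q.1 (up (R.b A)) = up (R.b A) := by
    intro q hq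
    unfold RA.GSx at hq
    induction hq using Subgroup.closure_induction with
    | mem q hq =>
      obtain ⟨i, hi, rfl⟩ := hq
      intro A hA
      have hiA : i ∈ A := by
        refine (R.bary_mem _ _ h2).2.2 A ?_ ((mem_act_kl R _ i).mpr hi)
        simp only [if_pos hA]
        exact (div_pos (hpos A hA) (g⁻¹ y).2.2).ne'
      have h0 : lor (up (R.b A)).1 (R.e i) = 0 := by
        rw [← mem_act_kl, M5c_act R A (hC A hA)]
        exact hiA
      apply Subtype.ext
      change (refl (R.e i) (R.unit i) (up (R.b A))).1 = _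
      rw [refl_coe, h0, mul_zero, zero_smul, sub_zero]
    | one =>
      intro A _
      rfl
    | mul a b _ _ ha hb =>
      intro A hA
      change a.1 (b.1 (up (R.b A))) = _
      rw [hb A hA, ha A hA]
    | inv a _ ha =>
      intro A hA
      change a.1⁻¹ (up (R.b A)) = _
      rw [Equiv.Perm.inv_eq_iff_eq]
      exact (ha A hA).symm
  apply Finset.image_congr
  intro A hA
  have h6 : (g'⁻¹ * g) (up (R.b A)) = up (R.b A) := key _ h5 A hA
  change g (up (R.b A)) = g' (up (R.b A))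
  rw [Equiv.Perm.mul_apply, Equiv.Perm.inv_eq_iff_eq] at h6
  exact h6

theorem RA.K_inv (R : RA n I) (τ : Finset (Hyp n)) (hτ : τ ∈ R.K) (h : Equiv.Perm (Hyp n))
    (hh : h ∈ R.G) : τ.map h.toEmbedding ∈ R.K := by
  obtain ⟨g, hg, C, hne, hC, hc, rfl⟩ := hτ
  refine ⟨h * g, R.G.mul_mem hh hg, C, hne, hC, hc, ?_⟩
  rw [Finset.map_eq_image, Finset.image_image]
  rfl

end Pool.Agent.MP_455d73_gt.PQ
end
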