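import Pool.Agent.Lib.MP_455d73_gt.Mg.G038
import Pool.Agent.Lib.MP_455d73_gt.Mg.G039
import Pool.Agent.Lib.MP_455d73_gt.Mg.G040

section

/-!
TASK M5a (medium-hard): the orbit space is homeomorphic to the model.

Define `f : Hyp n → (Set I × Set S → ℝ)`, `f x = R.inc σ k c` for some `k`, `c` with `R.At σ s₀ x k c` (`RA.at_exists`, choice). By
`RA.at_unique` and `RA.inc_eq_iff` (`RA.at_mem`), `f x = R.inc σ k c` for all such `k`, `c`.
`f x = f y` iff `∃ g ∈ R.stab σ s₀, g x = y`: `←` `RA.at_stab`; `→` `RA.inc_eq_iff` and `RA.at_same`. The range of `f` is `R.X σ` (`RA.at_surj`).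
Continuity of `f`: for `h ∈ R.G` with `(h, π) ∈ GS σ` (`RA.exists_perm`) the set `h '' R.P` is closed (`R.cpt.isClosed`, `h` is a
homeomorphism: `RA.G_cont` for `h` and `h⁻¹`), and on it `f x = R.inc σ (kl (h⁻¹ x)) (π⁻¹ s₀)` (by definition of `At`), which is
continuous on `h '' R.P` since `R.t` is continuous on `P1` (`RA.t_PA` has the continuity as its first part; `continuous_kl`; `inc` is a
linear function of `R.t`). These sets cover `Hyp n` (`RA.cover`) and are locally finite (`RA.locfin`): so `f` is continuous (at `y`: take the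
neighbourhood `O` which meets only finitely many of the sets; remove those which do not contain `y`; on each of the remaining
finitely many closed sets `f` is continuous; `LocallyFinite.continuous` can be used).
`Φ` = the map induced by `f` on the quotient: a continuous bijection onto `R.X σ`. The quotient is compact: by `RA.stab_uniform`
(file `B6`, import it) it is the image of a compact set. `R.X σ` is Hausdorff. `Continuous.homeoOfEquivCompactToT2`.
The relation of `MulAction.orbitRel`: `(orbitRel Γ X).r a b ↔ a ∈ orbit Γ b`; the action of a subgroup `Γ` of `Equiv.Perm (Hyp n)` is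
`g • x = (g : Equiv.Perm (Hyp n)) x`.
-/

set_option autoImplicit false

open Finset
open scoped Classical

namespace Pool.Agent.MP_455d73_gt.PQ

variable {n : ℕ} {I S : Type}

private theorem M5a_cover [Finite I] (R : RA n I) :
    (⋃ h : R.G, (h : Equiv.Perm (Hyp n)) '' R.P) = Set.univ := by
  refine Set.eq_univ_of_forall fun x => ?_
  obtain ⟨g, hg, hx⟩ := R.cover x
  refine Set.mem_iUnion.2 ⟨⟨g⁻¹, R.G.inv_mem hg⟩, g x, hx, ?_⟩
  show g⁻¹ (g x) = x
  exact g.symm_apply_apply x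

private theorem M5a_lf [Finite I] (R : RA n I) :
    LocallyFinite (fun h : R.G => (h : Equiv.Perm (Hyp n)) '' R.P) := by
  intro y
  obtain ⟨O, hO, hf⟩ := R.locfin y
  refine ⟨O, hO, ?_⟩
  refine (hf.preimage (Subtype.val_injective.injOn (s := (Subtype.val ⁻¹'
    {h : Equiv.Perm (Hyp n) | h ∈ R.G ∧ (h '' R.P ∩ O).Nonempty} : Set R.G)))).subset ?_
  intro h hh
  exact ⟨h.2, hh⟩

private theorem M5a_closed (R : RA n I) (h : R.G) :
    IsClosed ((h : Equiv.Perm (Hyp n)) '' R.P) :=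
  (R.cpt.image (R.G_cont h h.2)).isClosed

private theorem M5a_inc [Fintype I] (R : RA n I) (σ : I → Equiv.Perm S) (c : S) :
    ContinuousOn (fun k => R.inc σ k c) R.P1 := by
  refine continuousOn_pi.2 fun v => ?_
  unfold RA.inc
  by_cases hv : v.2 = orb σ v.1 c
  · simp only [if_pos hv]
    exact (continuousOn_pi.1 R.t_PA.1) v.1
  · simp only [if_neg hv]
    exact continuousOn_const

theorem RA.exists_homeo [Fintype I] [Fintype S] (R : RA n I) (σ : I → Equiv.Perm S) (hσ : R.Compat σ)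
    (s₀ : S) (hT : Trans σ s₀) :
    ∃ Φ : Quotient (MulAction.orbitRel (R.stab σ s₀) (Hyp n)) ≃ₜ R.X σ,
      ∀ x k c, R.At σ s₀ x k c → (Φ (Quotient.mk _ x) : Set I × Set S → ℝ) = R.inc σ k c := by
  choose kf hk cf hAt using R.at_exists σ s₀
  obtain ⟨f, hf⟩ : ∃ f : Hyp n → (Set I × Set S → ℝ), f = fun x => R.inc σ (kf x) (cf x) := ⟨_, rfl⟩
  have feq : ∀ x k c, R.At σ s₀ x k c → f x = R.inc σ k c := by
    intro x k c h
    have h1 := R.at_unique σ hσ s₀ x (kf x) k (cf x) c (hAt x) h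
    rw [hf]
    exact (R.inc_eq_iff σ (kf x) k (hk x) (R.at_mem σ s₀ x k c h) (cf x) c).2 h1
  have fX : ∀ x, f x ∈ R.X σ := fun x => ⟨kf x, hk x, cf x, by rw [hf]⟩
  have fstab : ∀ g ∈ R.stab σ s₀, ∀ x, f (g x) = f x := by
    intro g hg x
    rw [feq (g x) (kf x) (cf x) (R.at_stab σ s₀ g hg x _ _ (hAt x)), hf]
  have fsame : ∀ x y, f x = f y → ∃ g ∈ R.stab σ s₀, g x = y := by
    intro x y h
    rw [hf] at h
    have h1 := (R.inc_eq_iff σ (kf x) (kf y) (hk x) (hk y) (cf x) (cf y)).1 h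
    have h2 := hAt y
    rw [← h1.1] at h2
    exact R.at_same σ s₀ x y (kf x) (cf x) (cf y) (hAt x) h2 h1.2
  have fcont : Continuous f := by
    refine (M5a_lf R).continuous (M5a_cover R) (M5a_closed R) ?_
    intro h
    obtain ⟨π, hπ⟩ := R.exists_perm σ h h.2
    have h1 : ContinuousOn (fun x : Hyp n => R.inc σ (kl ((h : Equiv.Perm (Hyp n))⁻¹ x)) (π⁻¹ s₀))
        ((h : Equiv.Perm (Hyp n)) '' R.P) := by
      refine ContinuousOn.comp (M5a_inc R σ (π⁻¹ s₀)) ?_ ?_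
      · exact (continuous_kl.comp (R.G_cont _ (R.G.inv_mem h.2))).continuousOn
      · rintro x ⟨p, hp, rfl⟩
        show kl ((h : Equiv.Perm (Hyp n))⁻¹ ((h : Equiv.Perm (Hyp n)) p)) ∈ R.P1
        have : (h : Equiv.Perm (Hyp n))⁻¹ ((h : Equiv.Perm (Hyp n)) p) = p :=
          (h : Equiv.Perm (Hyp n)).symm_apply_apply p
        rw [this]
        exact (kl_mem_P1 R p).2 hp
    refine h1.congr ?_
    rintro x ⟨p, hp, rfl⟩
    have h3 : (h : Equiv.Perm (Hyp n))⁻¹ ((h : Equiv.Perm (Hyp n)) p) = p :=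
      (h : Equiv.Perm (Hyp n)).symm_apply_apply p
    show f _ = R.inc σ (kl ((h : Equiv.Perm (Hyp n))⁻¹ ((h : Equiv.Perm (Hyp n)) p))) (π⁻¹ s₀)
    rw [h3]
    refine feq _ _ _ ⟨h, π, hπ, p, hp, rfl, rfl, ?_⟩
    exact π.apply_symm_apply s₀
  obtain ⟨F, hF⟩ : ∃ F : Hyp n → R.X σ, ∀ x, (F x : Set I × Set S → ℝ) = f x :=
    ⟨fun x => ⟨f x, fX x⟩, fun _ => rfl⟩
  have Fcont : Continuous F := by
    refine continuous_induced_rng.2 ?_
    have : Subtype.val ∘ F = f := funext hF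
    rw [this]
    exact fcont
  have hrel : ∀ a b : Hyp n, (MulAction.orbitRel (R.stab σ s₀) (Hyp n)).r a b → F a = F b := by
    rintro a b ⟨g, rfl⟩
    refine Subtype.ext ?_
    rw [hF, hF]
    exact fstab g g.2 b
  obtain ⟨G, hG⟩ : ∃ G : Quotient (MulAction.orbitRel (R.stab σ s₀) (Hyp n)) → R.X σ,
      G = Quotient.lift F hrel := ⟨_, rfl⟩
  have Gmk : ∀ x, G (Quotient.mk _ x) = F x := by
    intro x
    rw [hG]
    rfl
  have Gcont : Continuous G := by
    rw [hG]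
    exact Fcont.quotient_lift hrel
  have Gbij : Function.Bijective G := by
    constructor
    · intro a b
      refine Quotient.inductionOn₂ a b fun x y h => ?_
      rw [Gmk, Gmk] at h
      have h1 : f x = f y := by rw [← hF, ← hF, h]
      obtain ⟨g, hg, hgx⟩ := fsame x y h1
      refine Quotient.sound ?_
      refine (MulAction.orbitRel (R.stab σ s₀) (Hyp n)).symm ?_
      exact ⟨⟨g, hg⟩, hgx⟩
    · rintro ⟨z, k, hk', c, rfl⟩
      obtain ⟨x, hx⟩ := R.at_surj σ s₀ hT k hk' c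
      refine ⟨Quotient.mk _ x, ?_⟩
      rw [Gmk]
      refine Subtype.ext ?_
      rw [hF, feq x k c hx]
  have hcpt : CompactSpace (Quotient (MulAction.orbitRel (R.stab σ s₀) (Hyp n))) := by
    obtain ⟨_, _, K, hK, hcov⟩ := R.stab_uniform σ s₀
    refine ⟨?_⟩
    have h1 : (Set.univ : Set (Quotient (MulAction.orbitRel (R.stab σ s₀) (Hyp n)))) =
        (Quotient.mk _) '' K := by
      refine (Set.eq_univ_of_forall fun q => ?_).symm
      refine Quotient.inductionOn q fun x => ?_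
      obtain ⟨g, hg, hx⟩ := hcov x
      refine ⟨g x, hx, ?_⟩
      refine Quotient.sound ?_
      exact ⟨⟨g, hg⟩, rfl⟩
    rw [h1]
    exact hK.image continuous_quotient_mk'
  refine ⟨Continuous.homeoOfEquivCompactToT2 (f := Equiv.ofBijective G Gbij) Gcont, ?_⟩
  intro x k c h
  show ((G (Quotient.mk _ x) : R.X σ) : Set I × Set S → ℝ) = R.inc σ k c
  rw [Gmk, hF, feq x k c h]

end Pool.Agent.MP_455d73_gt.PQ
end

section

/-!
TASK M5d (easy): finitely many simplices modulo the stabiliser.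

For every `c : S` for which there is `(h, ρ) ∈ GS σ` with `ρ c = s₀` choose such a pair `(h c, ρ c)`. `𝓕` = all finsets
`C.image (fun A => h c (up (b A)))`, `C : Finset (Set I)`, `c : S` (a finite set: image of the finite type `Finset (Set I) × S`). Let
`τ = C.image (fun A => g (up (b A)))`, `g ∈ R.G`, `(g, π) ∈ GS σ` (`RA.exists_perm`), `c = π⁻¹ s₀`. Then `γ = g * (h c)⁻¹` has the
permutation `π (ρ c)⁻¹`, which maps `s₀` to `π c = s₀`: `γ ∈ R.stab σ s₀`, and `τ` is the image under `γ` of the member of `𝓕`.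
-/

set_option autoImplicit false

open Finset
open scoped Classical

namespace Pool.Agent.MP_455d73_gt.PQ

variable {n : ℕ} {I S : Type}

private theorem M5d_inv_self {α : Type} (f : Equiv.Perm α) (x : α) : f⁻¹ (f x) = x :=
  f.symm_apply_apply x

private theorem M5d_self_inv {α : Type} (f : Equiv.Perm α) (x : α) : f (f⁻¹ x) = x :=
  f.apply_symm_apply x

theorem RA.K_fin [Fintype I] [Fintype S] (R : RA n I) (σ : I → Equiv.Perm S) (s₀ : S) :
    ∃ 𝓕 : Finset (Finset (Hyp n)), ∀ τ ∈ R.K, ∃ τ' ∈ 𝓕, ∃ g ∈ R.stab σ s₀, τ = τ'.map g.toEmbedding := by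
  have hch : ∀ c : S, ∃ h : Equiv.Perm (Hyp n), (∃ g ρ, (g, ρ) ∈ R.GS σ ∧ ρ c = s₀) →
      ∃ ρ, (h, ρ) ∈ R.GS σ ∧ ρ c = s₀ := by
    intro c
    by_cases hc : ∃ g ρ, (g, ρ) ∈ R.GS σ ∧ ρ c = s₀
    · obtain ⟨g, hg⟩ := hc
      exact ⟨g, fun _ => hg⟩
    · exact ⟨1, fun h => absurd h hc⟩
  choose h hh using hch
  refine ⟨Finset.univ.image (fun q : Finset (Set I) × S =>
    q.1.image (fun A => h q.2 (up (R.b A)))), ?_⟩
  rintro τ ⟨g, hg, C, -, -, -, hτ⟩
  obtain ⟨π, hπ⟩ := R.exists_perm σ g hg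
  obtain ⟨ρ, hρ, hρc⟩ := hh (π⁻¹ s₀) ⟨g, π, hπ, M5d_self_inv π s₀⟩
  refine ⟨C.image (fun A => h (π⁻¹ s₀) (up (R.b A))), ?_, g * (h (π⁻¹ s₀))⁻¹, ⟨π * ρ⁻¹, ?_, ?_⟩, ?_⟩
  · exact Finset.mem_image.mpr ⟨(C, π⁻¹ s₀), Finset.mem_univ _, rfl⟩
  · exact (R.GS σ).mul_mem hπ ((R.GS σ).inv_mem hρ)
  · have h1 : ρ⁻¹ s₀ = π⁻¹ s₀ := by
      have h2 := M5d_inv_self ρ (π⁻¹ s₀)
      rw [hρc] at h2
      exact h2
    rw [Equiv.Perm.mul_apply, h1, M5d_self_inv]
  · rw [hτ]
    ext y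
    simp only [Finset.mem_image, Finset.mem_map]
    constructor
    · rintro ⟨A, hA, rfl⟩
      refine ⟨h (π⁻¹ s₀) (up (R.b A)), ⟨A, hA, rfl⟩, ?_⟩
      show (g * (h (π⁻¹ s₀))⁻¹) (h (π⁻¹ s₀) (up (R.b A))) = g (up (R.b A))
      rw [Equiv.Perm.mul_apply, M5d_inv_self]
    · rintro ⟨z, ⟨A, hA, rfl⟩, rfl⟩
      refine ⟨A, hA, ?_⟩
      show g (up (R.b A)) = (g * (h (π⁻¹ s₀))⁻¹) (h (π⁻¹ s₀) (up (R.b A)))
      rw [Equiv.Perm.mul_apply, M5d_inv_self]

end Pool.Agent.MP_455d73_gt.PQ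
end

section

/-!
TASK M5e (medium): the homeomorphism is affine on the simplices.

`τ = C.image (fun A => g (up (b A)))` with `g ∈ R.G`, `C` a chain of faces; `(g, π) ∈ GS σ` (`RA.exists_perm`), `c = π⁻¹ s₀`. For
`v = g (up (b A))`, `A ∈ C`: `R.wt v = ((up (b A)).1.2)⁻¹` (`RA.wt_of`), so `R.wt v • v.1 = T (b A, 1)` (`RA.up_b`, `RA.exists_linear`), and
`R.At σ s₀ v (b A) c`. Write `u A = t (g (up (b A)))` for `A ∈ C`, `u A = 0` otherwise (the map `A ↦ g (up (b A))` is injective on `C`). Then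
`∑ v ∈ τ, (t v * wt v) • v.1 = T (k, 1)` with `k = ∑ A, u A • b A`, `Bary k u`, `k ∈ P1` (`RA.bary_mem`), so `y = g (up k)` (both are positive
multiples of `T (k, 1)`, and a positive multiple of a vector in `Hyp n` is in `Hyp n` only for the factor 1), `kl (up k) = k`, and
`R.At σ s₀ y k c`. Hence `Φ y = R.inc σ k c` and `Φ v = R.inc σ (b A) c`. `R.t k = u` (`RA.t_eq`), `R.t (b A)` = the indicator of `A`
(`RA.t_b`): at `(B, o)`: `∑ A ∈ C, u A * (if o = orb σ B c then [B = A] else 0) = if o = orb σ B c then u B else 0`.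
-/

set_option autoImplicit false

open Finset
open scoped Classical

namespace Pool.Agent.MP_455d73_gt.PQ

variable {n : ℕ} {I S : Type}

theorem RA.affine_on [Fintype I] [Fintype S] (R : RA n I) (σ : I → Equiv.Perm S) (hσ : R.Compat σ)
    (s₀ : S) (Φ : Quotient (MulAction.orbitRel (R.stab σ s₀) (Hyp n)) ≃ₜ R.X σ)
    (hΦ : ∀ x k c, R.At σ s₀ x k c → (Φ (Quotient.mk _ x) : Set I × Set S → ℝ) = R.inc σ k c)
    (τ : Finset (Hyp n)) (hτ : τ ∈ R.K) (t : Hyp n → ℝ) (ht : ∀ v ∈ τ, 0 ≤ t v) (ht1 : ∑ v ∈ τ, t v = 1)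
    (y : Hyp n) (r : ℝ) (hr : 0 < r) (hy : y.1 = r • ∑ v ∈ τ, (t v * R.wt v) • v.1) :
    (Φ (Quotient.mk _ y) : Set I × Set S → ℝ) =
      ∑ v ∈ τ, t v • (Φ (Quotient.mk _ v) : Set I × Set S → ℝ) := by
  obtain ⟨g, hg, C, hCne, hCf, hCc, rfl⟩ := hτ
  obtain ⟨T, hT⟩ := R.exists_linear g hg
  obtain ⟨π, hπ⟩ := R.exists_perm σ g hg
  have hinj : ∀ A ∈ C, ∀ B ∈ C, g (up (R.b A)) = g (up (R.b B)) → A = B := by
    intro A hA B hB h
    have h1 : up (R.b A) = up (R.b B) := g.injective h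
    have h2 : R.b A = R.b B := by
      rw [← (R.up_b A (hCf A hA)).2.1, ← (R.up_b B (hCf B hB)).2.1, h1]
    rw [← (R.b_spec A (hCf A hA)).2, ← (R.b_spec B (hCf B hB)).2, h2]
  have hsum : ∀ {M : Type} [AddCommMonoid M] (f : Hyp n → M),
      ∑ v ∈ C.image (fun A => g (up (R.b A))), f v = ∑ A ∈ C, f (g (up (R.b A))) :=
    fun f => Finset.sum_image hinj
  have ht1' : ∑ A ∈ C, t (g (up (R.b A))) = 1 := by rw [← ht1, hsum]
  have ht' : ∀ A ∈ C, 0 ≤ t (g (up (R.b A))) := fun A hA =>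
    ht _ (Finset.mem_image_of_mem _ hA)
  obtain ⟨k, hk⟩ : ∃ k : Fin n → ℝ, k = ∑ A ∈ C, t (g (up (R.b A))) • R.b A := ⟨_, rfl⟩
  obtain ⟨u, hu⟩ : ∃ u : Set I → ℝ, u = fun A => if A ∈ C then t (g (up (R.b A))) else 0 := ⟨_, rfl⟩
  have hu0 : ∀ A, u A ≠ 0 → A ∈ C := by
    intro A h
    by_contra h1
    apply h
    rw [hu]
    exact if_neg h1
  have hbary : R.Bary k u := by
    refine ⟨fun A => ?_, fun A h => hCf A (hu0 A h),
      fun A B h h' => hCc A (hu0 A h) B (hu0 B h'), ?_, ?_⟩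
    · rw [hu]
      dsimp only
      split_ifs with h
      · exact ht' A h
      · exact le_rfl
    · rw [hu, Finset.sum_ite_mem, Finset.univ_inter, ht1']
    · rw [hu, hk]
      simp only [ite_smul, zero_smul]
      rw [Finset.sum_ite_mem, Finset.univ_inter]
  have hkP : k ∈ R.P1 := (R.bary_mem k u hbary).1
  have hball := P1_ball R k hkP
  have hlin : ∑ v ∈ C.image (fun A => g (up (R.b A))), (t v * R.wt v) • v.1 = T ((k, 1) : Mk n) := by
    rw [hsum]
    have e1 : ∀ A ∈ C, (t (g (up (R.b A))) * R.wt (g (up (R.b A)))) • (g (up (R.b A))).1 =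
        t (g (up (R.b A))) • T ((R.b A, 1) : Mk n) := by
      intro A hA
      obtain ⟨h1, h2, h3, h4⟩ := R.up_b A (hCf A hA)
      rw [R.wt_of _ h1 g hg, hT, h4]
      simp only [Prod.smul_mk, smul_eq_mul, mul_one]
      have e2 : T ((up (R.b A)).1.2 • R.b A, (up (R.b A)).1.2) =
          (up (R.b A)).1.2 • T ((R.b A, 1) : Mk n) := by
        rw [← map_smul]
        congr 1
        simp
      rw [e2, smul_smul, mul_assoc, inv_mul_cancel₀ h3.ne', mul_one]
    rw [Finset.sum_congr rfl e1]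
    rw [show ((k, 1) : Mk n) = ∑ A ∈ C, t (g (up (R.b A))) • ((R.b A, 1) : Mk n) from ?_,
      map_sum]
    · exact Finset.sum_congr rfl fun A _ => (map_smul T _ _).symm
    · refine Prod.ext ?_ ?_
      · rw [Prod.fst_sum, hk]
        rfl
      · rw [Prod.snd_sum]
        simp only [Prod.smul_mk, smul_eq_mul, mul_one]
        exact ht1'.symm
  rw [hlin] at hy
  have hup : (up k).1 = (√(1 - ∑ j, k j ^ 2))⁻¹ • ((k, 1) : Mk n) := by
    unfold up
    rw [dif_pos hball]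
  have hs : 0 < (√(1 - ∑ j, k j ^ 2))⁻¹ := by
    have : 0 < 1 - ∑ j, k j ^ 2 := by linarith
    positivity
  have hg1 : (g (up k)).1 = (√(1 - ∑ j, k j ^ 2))⁻¹ • T ((k, 1) : Mk n) := by
    rw [hT, hup, map_smul]
  have hyg : y = g (up k) := by
    have l1 := y.2.1
    have l2 := (g (up k)).2.1
    rw [hy, lor_smul_left, lor_smul_right] at l1
    rw [hg1, lor_smul_left, lor_smul_right] at l2
    have l3 : r = (√(1 - ∑ j, k j ^ 2))⁻¹ := by
      have hw : lor (T ((k, 1) : Mk n)) (T (k, 1)) ≠ 0 := by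
        intro h0
        rw [h0] at l1
        norm_num at l1
      have l4 : r ^ 2 = ((√(1 - ∑ j, k j ^ 2))⁻¹) ^ 2 := by
        apply mul_right_cancel₀ hw
        linear_combination l1 - l2
      exact (pow_left_inj₀ hr.le hs.le two_ne_zero).1 l4
    apply Subtype.ext
    rw [hy, hg1, l3]
  have hAt : ∀ x k', x = g (up k') → up k' ∈ R.P → kl (up k') = k' →
      R.At σ s₀ x k' (π⁻¹ s₀) := by
    intro x k' h1 h2 h3
    refine ⟨g, π, hπ, up k', h2, h1, h3.symm, ?_⟩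
    exact π.apply_symm_apply s₀
  rw [hΦ y k (π⁻¹ s₀) (hAt y k hyg (up_mem_P R k hkP) (kl_up k hball)), hsum]
  have e3 : ∀ A ∈ C, t (g (up (R.b A))) •
      (Φ (Quotient.mk _ (g (up (R.b A)))) : Set I × Set S → ℝ) =
      t (g (up (R.b A))) • R.inc σ (R.b A) (π⁻¹ s₀) := by
    intro A hA
    obtain ⟨h1, h2, h3, h4⟩ := R.up_b A (hCf A hA)
    rw [hΦ _ _ _ (hAt _ _ rfl h1 h2)]
  rw [Finset.sum_congr rfl e3]
  funext v
  rw [Finset.sum_apply]
  simp only [Pi.smul_apply, smul_eq_mul, RA.inc]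
  rw [R.t_eq k u hbary]
  by_cases hv : v.2 = orb σ v.1 (π⁻¹ s₀)
  · simp only [if_pos hv]
    have e4 : ∀ A ∈ C, t (g (up (R.b A))) * R.t (R.b A) v.1 =
        if v.1 = A then t (g (up (R.b A))) else 0 := by
      intro A hA
      rw [R.t_b A (hCf A hA)]
      dsimp only
      split_ifs <;> simp
    rw [Finset.sum_congr rfl e4, Finset.sum_ite_eq, hu]
  · simp only [if_neg hv, mul_zero, Finset.sum_const_zero]

end Pool.Agent.MP_455d73_gt.PQ
end

section

/-!
TASK M5 (easy): assembly: the model of the orbit space of the stabiliser.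

`Φ` from `RA.exists_homeo`, `𝒦 = R.K`, `w = R.wt`. The clauses: `RA.wt_pos`, `RA.K_indep`, `RA.K_sub`, `RA.K_exists` and `RA.K_unique`, `RA.wt_inv`
and `RA.K_inv` for the elements of `R.stab σ s₀ ≤ R.G` (`RA.fst_mem`), `RA.K_fin`, `RA.affine_on`.
-/

set_option autoImplicit false

open Finset
open scoped Classical

namespace Pool.Agent.MP_455d73_gt.PQ

variable {n : ℕ} {I S : Type}

theorem RA.isModel [Fintype I] [Fintype S] (R : RA n I) (σ : I → Equiv.Perm S) (hσ : R.Compat σ)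
    (s₀ : S) (hT : Trans σ s₀) : IsModel (R.stab σ s₀) (R.X σ) := by
  obtain ⟨Φ, hΦ⟩ := R.exists_homeo σ hσ s₀ hT
  have hG : ∀ g ∈ R.stab σ s₀, g ∈ R.G := by
    rintro g ⟨π, h, -⟩
    exact R.fst_mem σ g π h
  refine ⟨Φ, R.K, R.wt, R.wt_pos, ⟨R.K_indep, R.K_sub, fun y => ?_⟩, ⟨fun g hg x => R.wt_inv x g (hG g hg),
    fun g hg τ hτ => R.K_inv τ hτ g (hG g hg), R.K_fin σ s₀⟩, R.affine_on σ hσ s₀ Φ hΦ⟩
  obtain ⟨τ, hτ, t, ht, hy⟩ := R.K_exists y
  refine ⟨τ, ⟨hτ, t, ht, hy⟩, ?_⟩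
  rintro τ' ⟨hτ', t', ht', hy'⟩
  exact R.K_unique y τ' τ hτ' hτ t' t ht' ht hy' hy

end Pool.Agent.MP_455d73_gt.PQ
end
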