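import Pool.Agent.Lib.MP_455d73_gt.Mg.G040
import Pool.Agent.Lib.MP_455d73_gt.Mg.G032
import Pool.Agent.Lib.MP_455d73_gt.Mg.G039

section

/-!
TASK M6 (medium): the model has an atlas with one chart for every chamber.

(1) `k ↦ R.inc σ k c` is the composition of `R.t` (`RA.t_PA`) with a linear map. (2) definition of `R.X`.
(3) `pr z = ∑ v, z v • R.b v.1` (sum over `v : Set I × Set S`), linear: `pr (inc k c) = ∑ A, t k A • b A = k` (`RA.t_spec`).
(4) pieces: for every finset `C` of faces (sets `A`) let `D C = {z | ∀ v, ¬ (v.1 ∈ C ∧ v.2 = orb σ v.1 c) → z v = 0}`, where `C` ranges over the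
finsets which are chains of faces (finitely many; other finsets may be used too, see the argument), a convex polyhedron.
Claim: for `z ∈ X`: `z ∈ D C` for some `C` iff `z = inc k c` for some `k ∈ P1`. `←`: `C` = support of `t k` (or all faces). `→`: `z = inc k c'`;
for `A` with `t k A ≠ 0`, the coordinate at `(A, orb σ A c')` is not zero, so `orb σ A c' = orb σ A c`; with `A = act k` (`RA.bary_mem`)
and `RA.inc_eq_iff`: `z = inc k c`. (So one piece is enough: `C` = all sets.)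
-/

set_option autoImplicit false

open Finset
open scoped Classical

namespace Pool.Agent.MP_455d73_gt.PQ

variable {n : ℕ} {I S : Type}

/-- The linear part of the inclusion of a chamber. -/
private noncomputable def M6_L (σ : I → Equiv.Perm S) (c : S) :
    (Set I → ℝ) →ₗ[ℝ] (Set I × Set S → ℝ) where
  toFun t v := if v.2 = orb σ v.1 c then t v.1 else 0
  map_add' x y := by
    funext v
    by_cases h : v.2 = orb σ v.1 c <;> simp [h]
  map_smul' r x := by
    funext v
    by_cases h : v.2 = orb σ v.1 c <;> simp [h]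

/-- The projection onto the chart. -/
private noncomputable def M6_pr [Fintype I] [Fintype S] (R : RA n I) :
    (Set I × Set S → ℝ) →ₗ[ℝ] (Fin n → ℝ) where
  toFun z := ∑ v, z v • R.b v.1
  map_add' x y := by
    simp only [Pi.add_apply, add_smul, Finset.sum_add_distrib]
  map_smul' r x := by
    simp only [Pi.smul_apply, smul_eq_mul, mul_smul, Finset.smul_sum, RingHom.id_apply]

private theorem M6_zero [Fintype I] [Fintype S] (v : Set I × Set S) :
    HPoly {z : Set I × Set S → ℝ | z v = 0} := by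
  have h1 := HPoly.le (ι := Set I × Set S) ((LinearMap.proj (R := ℝ) (φ := fun _ : Set I × Set S => ℝ) v).toAffineMap)
    (AffineMap.const ℝ (Set I × Set S → ℝ) (0 : ℝ))
  have h2 := HPoly.le (ι := Set I × Set S) (AffineMap.const ℝ (Set I × Set S → ℝ) (0 : ℝ))
    ((LinearMap.proj (R := ℝ) (φ := fun _ : Set I × Set S => ℝ) v).toAffineMap)
  have h3 := h1.inter h2
  have h4 : {z : Set I × Set S → ℝ | z v = 0} =
      {x : Set I × Set S → ℝ | (LinearMap.proj (R := ℝ) (φ := fun _ : Set I × Set S => ℝ) v).toAffineMap x ≤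
        AffineMap.const ℝ (Set I × Set S → ℝ) (0 : ℝ) x} ∩
      {x : Set I × Set S → ℝ | AffineMap.const ℝ (Set I × Set S → ℝ) (0 : ℝ) x ≤
        (LinearMap.proj (R := ℝ) (φ := fun _ : Set I × Set S => ℝ) v).toAffineMap x} := by
    ext z
    simp only [Set.mem_ofPred_eq, Set.mem_inter_iff, AffineMap.const_apply, LinearMap.coe_toAffineMap,
      LinearMap.proj_apply]
    constructor
    · intro h
      exact ⟨h.le, h.ge⟩
    · rintro ⟨h, h'⟩
      exact le_antisymm h h'
  rw [h4]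
  exact h3

theorem RA.atlas [Fintype I] [Fintype S] (R : RA n I) (σ : I → Equiv.Perm S) :
    Atlas (R.X σ) (fun _ : S => R.P1) (fun c k => R.inc σ k c) := by
  refine ⟨?_, ?_, ?_⟩
  · intro c
    exact (R.t_PA).comp (PA.affine Set.univ (M6_L σ c).toAffineMap) (fun x _ => Set.mem_univ _)
  · intro z
    constructor
    · rintro ⟨k, hk, c, h⟩
      exact ⟨c, k, hk, h⟩
    · rintro ⟨c, k, hk, h⟩
      exact ⟨k, hk, c, h⟩
  · intro c
    refine ⟨⟨(M6_pr (S := S) R).toAffineMap, ?_⟩, ?_⟩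
    · intro k hk
      change ∑ v : Set I × Set S, R.inc σ k c v • R.b v.1 = k
      rw [Fintype.sum_prod_type]
      have h1 : ∀ A : Set I, ∑ B : Set S, R.inc σ k c (A, B) • R.b A = R.t k A • R.b A := by
        intro A
        simp only [RA.inc, ite_smul, zero_smul]
        rw [Finset.sum_ite_eq' Finset.univ (orb σ A c) (fun _ => R.t k A • R.b A)]
        rw [if_pos (Finset.mem_univ _)]
      rw [Finset.sum_congr rfl (fun A _ => h1 A)]
      exact (R.t_spec k hk).2.2.2.2
    · refine ⟨1, fun _ => ⋂ v : {v : Set I × Set S // v.2 ≠ orb σ v.1 c}, {z | z v.1 = 0}, ?_, ?_⟩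
      · intro _
        exact HPoly.iInter _ (fun v => M6_zero v.1)
      · rintro z ⟨k, hk, c', hz⟩
        constructor
        · rintro ⟨_, hl⟩
          refine ⟨k, hk, ?_⟩
          rw [hz]
          refine (R.inc_eq_iff σ k k hk hk c' c).2 ⟨rfl, ?_⟩
          by_contra hne
          have h1 := Set.mem_iInter.1 hl ⟨(R.act k, orb σ (R.act k) c'), hne⟩
          rw [hz] at h1
          simp only [RA.inc, Set.mem_ofPred_eq, if_true] at h1
          exact (R.bary_mem k (R.t k) (R.t_spec k hk)).2.1 h1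
        · rintro ⟨k2, hk2, h2⟩
          refine ⟨0, Set.mem_iInter.2 fun v => ?_⟩
          rw [Set.mem_ofPred_eq, h2]
          exact if_neg v.2

end Pool.Agent.MP_455d73_gt.PQ
end

section

/-!
TASK Q2 (medium): the labels of a product.

`comb_compat`: cases on `κ i`, `κ j`: permutations of different factors commute; same factor: `T.comL` and `hσa.2` (or `j = j'`).
`comb_trans`: by `T.surj` each `(σa j, 1)` and each `(1, σb j)` is in the closure of the range of `comb`; so for `π ∈ closure (range σa)` the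
permutation `(π, 1)` is (closure induction), and the same for `(1, ρ)`.
`orb_comb`: let `A` be a set of walls. Every element of `closure (comb '' A)` is of the form `(π, ρ)` with
`π ∈ closure (σa '' {j | ∃ i ∈ A, κ i = inl j})` and `ρ ∈ closure (σb '' {j | ∃ i ∈ A, κ i = inr j})` (closure induction), and all
such pairs occur. So `orb (comb κ σa σb) A (c, d) = orb σa A_L c ×ˢ orb σb A_R d`. As orbits are not empty, `orb … (c, d) = orb … (c', d')` iff
`orb σa A_L c = orb σa A_L c'` and `orb σb A_R d = orb σb A_R d'`. By `T.actL`: for `A = R.act k`, `A_L = Ra.act (f k ∘ inl)`.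
-/

set_option autoImplicit false

open Finset
open scoped Classical

namespace Pool.Agent.MP_455d73_gt.PQ

variable {n a b : ℕ} {I Ia Ib Sa Sb : Type}

private theorem comb_inl {κ : I → Ia ⊕ Ib} (σa : Ia → Equiv.Perm Sa) (σb : Ib → Equiv.Perm Sb) {i : I}
    {j : Ia} (h : κ i = Sum.inl j) : comb κ σa σb i = (σa j).prodCongr (Equiv.refl Sb) := by
  unfold comb
  rw [h]

private theorem comb_inr {κ : I → Ia ⊕ Ib} (σa : Ia → Equiv.Perm Sa) (σb : Ib → Equiv.Perm Sb) {i : I}
    {j : Ib} (h : κ i = Sum.inr j) : comb κ σa σb i = (Equiv.refl Sa).prodCongr (σb j) := by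
  unfold comb
  rw [h]

private theorem prodCongr_mul (a a' : Equiv.Perm Sa) (b b' : Equiv.Perm Sb) :
    (a.prodCongr b : Equiv.Perm (Sa × Sb)) * a'.prodCongr b' = (a * a').prodCongr (b * b') := by
  ext ⟨x, y⟩ <;> rfl

private theorem prodCongr_one :
    ((1 : Equiv.Perm Sa).prodCongr (1 : Equiv.Perm Sb) : Equiv.Perm (Sa × Sb)) = 1 := by
  ext ⟨x, y⟩ <;> rfl

private theorem prodCongr_inv (a : Equiv.Perm Sa) (b : Equiv.Perm Sb) :
    (a.prodCongr b : Equiv.Perm (Sa × Sb))⁻¹ = (a⁻¹).prodCongr (b⁻¹) := by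
  rw [inv_eq_iff_mul_eq_one, prodCongr_mul, mul_inv_cancel, mul_inv_cancel, prodCongr_one]

private theorem clos_left {κ : I → Ia ⊕ Ib} (σa : Ia → Equiv.Perm Sa) (σb : Ib → Equiv.Perm Sb)
    (A : Set I) (ρ : Equiv.Perm Sa)
    (h : ρ ∈ Subgroup.closure (σa '' {j | ∃ i ∈ A, κ i = Sum.inl j})) :
    (ρ.prodCongr (1 : Equiv.Perm Sb) : Equiv.Perm (Sa × Sb)) ∈
      Subgroup.closure (comb κ σa σb '' A) := by
  induction h using Subgroup.closure_induction with
  | mem x hx =>
    obtain ⟨j, ⟨i, hi, hij⟩, rfl⟩ := hx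
    exact Subgroup.subset_closure ⟨i, hi, comb_inl σa σb hij⟩
  | one => rw [prodCongr_one]; exact one_mem _
  | mul x y _ _ hx hy =>
    have := mul_mem hx hy
    rwa [prodCongr_mul, mul_one] at this
  | inv x _ hx =>
    have := inv_mem hx
    rwa [prodCongr_inv, inv_one] at this

private theorem clos_right {κ : I → Ia ⊕ Ib} (σa : Ia → Equiv.Perm Sa) (σb : Ib → Equiv.Perm Sb)
    (A : Set I) (ρ : Equiv.Perm Sb)
    (h : ρ ∈ Subgroup.closure (σb '' {j | ∃ i ∈ A, κ i = Sum.inr j})) :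
    ((1 : Equiv.Perm Sa).prodCongr ρ : Equiv.Perm (Sa × Sb)) ∈
      Subgroup.closure (comb κ σa σb '' A) := by
  induction h using Subgroup.closure_induction with
  | mem x hx =>
    obtain ⟨j, ⟨i, hi, hij⟩, rfl⟩ := hx
    exact Subgroup.subset_closure ⟨i, hi, comb_inr σa σb hij⟩
  | one => rw [prodCongr_one]; exact one_mem _
  | mul x y _ _ hx hy =>
    have := mul_mem hx hy
    rwa [prodCongr_mul, mul_one] at this
  | inv x _ hx =>
    have := inv_mem hx
    rwa [prodCongr_inv, inv_one] at this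

private theorem clos_pair {κ : I → Ia ⊕ Ib} (σa : Ia → Equiv.Perm Sa) (σb : Ib → Equiv.Perm Sb)
    (A : Set I) (ρ : Equiv.Perm Sa) (τ : Equiv.Perm Sb)
    (h : ρ ∈ Subgroup.closure (σa '' {j | ∃ i ∈ A, κ i = Sum.inl j}))
    (h' : τ ∈ Subgroup.closure (σb '' {j | ∃ i ∈ A, κ i = Sum.inr j})) :
    (ρ.prodCongr τ : Equiv.Perm (Sa × Sb)) ∈ Subgroup.closure (comb κ σa σb '' A) := by
  have := mul_mem (clos_left σa σb A ρ h) (clos_right σa σb A τ h')
  rwa [prodCongr_mul, mul_one, one_mul] at this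

private theorem clos_split {κ : I → Ia ⊕ Ib} (σa : Ia → Equiv.Perm Sa) (σb : Ib → Equiv.Perm Sb)
    (A : Set I) (π : Equiv.Perm (Sa × Sb)) (h : π ∈ Subgroup.closure (comb κ σa σb '' A)) :
    ∃ ρ ∈ Subgroup.closure (σa '' {j | ∃ i ∈ A, κ i = Sum.inl j}),
      ∃ τ ∈ Subgroup.closure (σb '' {j | ∃ i ∈ A, κ i = Sum.inr j}), π = ρ.prodCongr τ := by
  induction h using Subgroup.closure_induction with
  | mem x hx =>
    obtain ⟨i, hi, rfl⟩ := hx
    rcases hκ : κ i with j | j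
    · exact ⟨σa j, Subgroup.subset_closure ⟨j, ⟨i, hi, hκ⟩, rfl⟩, 1, one_mem _, comb_inl σa σb hκ⟩
    · exact ⟨1, one_mem _, σb j, Subgroup.subset_closure ⟨j, ⟨i, hi, hκ⟩, rfl⟩, comb_inr σa σb hκ⟩
  | one => exact ⟨1, one_mem _, 1, one_mem _, prodCongr_one.symm⟩
  | mul x y _ _ hx hy =>
    obtain ⟨ρ, hρ, τ, hτ, rfl⟩ := hx
    obtain ⟨ρ', hρ', τ', hτ', rfl⟩ := hy
    exact ⟨ρ * ρ', mul_mem hρ hρ', τ * τ', mul_mem hτ hτ', prodCongr_mul _ _ _ _⟩
  | inv x _ hx =>
    obtain ⟨ρ, hρ, τ, hτ, rfl⟩ := hx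
    exact ⟨ρ⁻¹, inv_mem hρ, τ⁻¹, inv_mem hτ, prodCongr_inv _ _⟩

private theorem orb_comb {κ : I → Ia ⊕ Ib} (σa : Ia → Equiv.Perm Sa) (σb : Ib → Equiv.Perm Sb)
    (A : Set I) (c : Sa) (d : Sb) : orb (comb κ σa σb) A (c, d) =
      orb σa {j | ∃ i ∈ A, κ i = Sum.inl j} c ×ˢ orb σb {j | ∃ i ∈ A, κ i = Sum.inr j} d := by
  ext ⟨x, y⟩
  constructor
  · rintro ⟨π, hπ, h⟩
    obtain ⟨ρ, hρ, τ, hτ, rfl⟩ := clos_split σa σb A π hπ
    have h1 : (ρ c, τ d) = (x, y) := h
    rw [Prod.mk.injEq] at h1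
    exact ⟨⟨ρ, hρ, h1.1⟩, ⟨τ, hτ, h1.2⟩⟩
  · rintro ⟨⟨ρ, hρ, h1⟩, ⟨τ, hτ, h2⟩⟩
    refine ⟨ρ.prodCongr τ, clos_pair σa σb A ρ τ hρ hτ, ?_⟩
    show (ρ c, τ d) = (x, y)
    rw [Prod.mk.injEq]
    exact ⟨h1, h2⟩

theorem Split.compat {R : RA n I} {Ra : RA a Ia} {Rb : RA b Ib} (T : Split R Ra Rb)
    (σa : Ia → Equiv.Perm Sa) (σb : Ib → Equiv.Perm Sb) (ha : Ra.Compat σa) (hb : Rb.Compat σb) :
    R.Compat (comb T.κ σa σb) := by
  constructor
  · intro i
    rcases hκ : T.κ i with j | j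
    · rw [comb_inl σa σb hκ]
      have := prodCongr_mul (σa j) (σa j) (1 : Equiv.Perm Sb) 1
      rw [ha.1 j, mul_one, prodCongr_one] at this
      exact this
    · rw [comb_inr σa σb hκ]
      have := prodCongr_mul (1 : Equiv.Perm Sa) 1 (σb j) (σb j)
      rw [hb.1 j, mul_one, prodCongr_one] at this
      exact this
  · intro i i' h
    rcases hκ : T.κ i with j | j <;> rcases hκ' : T.κ i' with j' | j'
    · rw [comb_inl σa σb hκ, comb_inl σa σb hκ']
      have h1 : σa j * σa j' = σa j' * σa j := by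
        rcases T.comL i i' j j' hκ hκ' h with h2 | h2
        · rw [h2]
        · exact ha.2 j j' h2
      have h3 := prodCongr_mul (σa j) (σa j') (1 : Equiv.Perm Sb) 1
      have h4 := prodCongr_mul (σa j') (σa j) (1 : Equiv.Perm Sb) 1
      rw [h1, ← h4] at h3
      exact h3
    · rw [comb_inl σa σb hκ, comb_inr σa σb hκ']
      have h3 := prodCongr_mul (σa j) 1 (1 : Equiv.Perm Sb) (σb j')
      have h4 := prodCongr_mul 1 (σa j) (σb j') (1 : Equiv.Perm Sb)
      rw [mul_one, one_mul] at h3 h4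
      exact h3.trans h4.symm
    · rw [comb_inr σa σb hκ, comb_inl σa σb hκ']
      have h3 := prodCongr_mul (σa j') 1 (1 : Equiv.Perm Sb) (σb j)
      have h4 := prodCongr_mul 1 (σa j') (σb j) (1 : Equiv.Perm Sb)
      rw [mul_one, one_mul] at h3 h4
      exact h4.trans h3.symm
    · rw [comb_inr σa σb hκ, comb_inr σa σb hκ']
      have h1 : σb j * σb j' = σb j' * σb j := by
        rcases T.comR i i' j j' hκ hκ' h with h2 | h2
        · rw [h2]
        · exact hb.2 j j' h2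
      have h3 := prodCongr_mul (1 : Equiv.Perm Sa) 1 (σb j) (σb j')
      have h4 := prodCongr_mul (1 : Equiv.Perm Sa) 1 (σb j') (σb j)
      rw [h1, ← h4] at h3
      exact h3

theorem Split.trans {R : RA n I} {Ra : RA a Ia} {Rb : RA b Ib} (T : Split R Ra Rb)
    (σa : Ia → Equiv.Perm Sa) (σb : Ib → Equiv.Perm Sb) (sa : Sa) (sb : Sb) (ha : Trans σa sa)
    (hb : Trans σb sb) : Trans (comb T.κ σa σb) (sa, sb) := by
  rintro ⟨c, d⟩
  obtain ⟨ρ, hρ, h1⟩ := ha c
  obtain ⟨τ, hτ, h2⟩ := hb d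
  have e1 : (σa '' {j | ∃ i ∈ (Set.univ : Set I), T.κ i = Sum.inl j}) = Set.range σa := by
    rw [← Set.image_univ]
    congr 1
    ext j
    simp only [Set.mem_univ, true_and, Set.mem_ofPred_eq, iff_true]
    exact T.surj _
  have e2 : (σb '' {j | ∃ i ∈ (Set.univ : Set I), T.κ i = Sum.inr j}) = Set.range σb := by
    rw [← Set.image_univ]
    congr 1
    ext j
    simp only [Set.mem_univ, true_and, Set.mem_ofPred_eq, iff_true]
    exact T.surj _
  have h3 := clos_pair (κ := T.κ) σa σb Set.univ ρ τ (by rw [e1]; exact hρ) (by rw [e2]; exact hτ)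
  rw [Set.image_univ] at h3
  refine ⟨_, h3, ?_⟩
  show (ρ sa, τ sb) = (c, d)
  rw [h1, h2]

theorem Split.orb_iff {R : RA n I} {Ra : RA a Ia} {Rb : RA b Ib} (T : Split R Ra Rb)
    (σa : Ia → Equiv.Perm Sa) (σb : Ib → Equiv.Perm Sb) (k : Fin n → ℝ) (hk : k ∈ R.P1) (c c' : Sa)
    (d d' : Sb) :
    orb (comb T.κ σa σb) (R.act k) (c, d) = orb (comb T.κ σa σb) (R.act k) (c', d') ↔
      orb σa (Ra.act (fun x => T.f k (Sum.inl x))) c = orb σa (Ra.act (fun x => T.f k (Sum.inl x))) c' ∧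
      orb σb (Rb.act (fun x => T.f k (Sum.inr x))) d = orb σb (Rb.act (fun x => T.f k (Sum.inr x))) d' := by
  have eL : {j | ∃ i ∈ R.act k, T.κ i = Sum.inl j} = Ra.act (fun x => T.f k (Sum.inl x)) := by
    ext j
    constructor
    · rintro ⟨i, hi, hij⟩
      exact (T.actL k hk j).2 ⟨i, hij, hi⟩
    · intro hj
      obtain ⟨i, hij, hi⟩ := (T.actL k hk j).1 hj
      exact ⟨i, hi, hij⟩
  have eR : {j | ∃ i ∈ R.act k, T.κ i = Sum.inr j} = Rb.act (fun x => T.f k (Sum.inr x)) := by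
    ext j
    constructor
    · rintro ⟨i, hi, hij⟩
      exact (T.actR k hk j).2 ⟨i, hij, hi⟩
    · intro hj
      obtain ⟨i, hij, hi⟩ := (T.actR k hk j).1 hj
      exact ⟨i, hi, hij⟩
  rw [orb_comb, orb_comb, eL, eR]
  constructor
  · intro h
    have hne : (orb σa (Ra.act fun x => T.f k (Sum.inl x)) c ×ˢ
        orb σb (Rb.act fun x => T.f k (Sum.inr x)) d).Nonempty :=
      ⟨(c, d), mem_orb_self _ _ _, mem_orb_self _ _ _⟩
    exact (Set.prod_eq_prod_iff_of_nonempty hne).1 h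
  · rintro ⟨h1, h2⟩
    rw [h1, h2]

end Pool.Agent.MP_455d73_gt.PQ
end
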