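import Pool.Agent.Lib.MP_455d73_gt.Mg.G043
import Pool.Agent.Lib.MP_455d73_gt.Mg.G037
import Pool.Agent.Lib.MP_455d73_gt.Mg.G042
import Pool.Agent.Lib.MP_455d73_gt.Mg.G041
import Pool.Agent.Lib.MP_455d73_gt.Mg.G038

section

/-!
TASK Q3 (medium-hard): the model of the product labels is PL homeomorphic to the product of the models.

Let `σ = comb T.κ σa σb`. Write `fL k = fun x => T.f k (inl x)`, `fR k` similarly; `fL k ∈ Ra.P1`, `fR k ∈ Rb.P1` for `k ∈ R.P1` (`T.gf`).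
Define `F` on `R.X σ`: `F (R.inc σ k (c, d)) = Sum.elim (Ra.inc σa (fL k) c) (Rb.inc σb (fR k) d)` (choice of `k`, `c`, `d`; a junk value outside
`R.X σ`). It is well defined and injective: by `RA.inc_eq_iff`, `R.inc σ k (c,d) = R.inc σ k' (c',d')` iff `k = k'` and the orbits agree, iff
(`Split.orb_iff`) `k = k'` and both orbit conditions, iff `fL k = fL k'`, `fR k = fR k'` (`T.gf`: `k = T.g (T.f k)`) and both orbit conditions,
iff the images agree (`RA.inc_eq_iff` twice). Surjective onto `prodSet (Ra.X σa) (Rb.X σb)`: for `ka ∈ Ra.P1`, `kb ∈ Rb.P1` take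
`k = T.g (Sum.elim ka kb)` (`T.fg`). Let `G` be the inverse.
`PA`: `F`: by `Atlas.glue` with `RA.atlas R σ` (`J = Sa × Sb`, finite): `k ↦ F (inc k (c, d)) = Sum.elim (Ra.inc σa (fL k) c) …` on `R.P1`: composition
of `T.f` (`T.fPA`) with `z ↦ Sum.elim (Ra.inc σa (z ∘ inl) c) (Rb.inc σb (z ∘ inr) d)` on `prodSet Ra.P1 Rb.P1`, which is PA since it is the first
part of `Atlas.prod (RA.atlas ..) (RA.atlas ..)` (`PA.comp`, `PA.congr`). `G`: by `Atlas.glue` with that product atlas: on the piece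
`(c, d)`: `z ↦ R.inc σ (T.g z) (c, d)`: composition of `T.gPA` with the first part of `RA.atlas R σ` (`PA.comp`, `PA.congr`).
-/

set_option autoImplicit false

open Finset
open scoped Classical

namespace Pool.Agent.MP_455d73_gt.PQ

variable {n a b : ℕ} {I Ia Ib Sa Sb : Type}

theorem Split.plhomeo [Fintype I] [Fintype Ia] [Fintype Ib] [Fintype Sa] [Fintype Sb] {R : RA n I}
    {Ra : RA a Ia} {Rb : RA b Ib} (T : Split R Ra Rb) (σa : Ia → Equiv.Perm Sa)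
    (σb : Ib → Equiv.Perm Sb) :
    PLHomeo (R.X (comb T.κ σa σb)) (prodSet (Ra.X σa) (Rb.X σb)) := by
  set σ := comb T.κ σa σb with hσ
  -- the map on the data
  set W : (Fin n → ℝ) → Sa × Sb → ((Set Ia × Set Sa) ⊕ (Set Ib × Set Sb) → ℝ) := fun k s =>
    Sum.elim (Ra.inc σa (fun x => T.f k (Sum.inl x)) s.1)
      (Rb.inc σb (fun x => T.f k (Sum.inr x)) s.2) with hW
  have key : ∀ k ∈ R.P1, ∀ k' ∈ R.P1, ∀ s s', R.inc σ k s = R.inc σ k' s' ↔ W k s = W k' s' := by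
    intro k hk k' hk' s s'
    have m := (T.gf k hk).1
    have m' := (T.gf k' hk').1
    have e1 : W k s = W k' s' ↔
        Ra.inc σa (fun x => T.f k (Sum.inl x)) s.1 = Ra.inc σa (fun x => T.f k' (Sum.inl x)) s'.1 ∧
        Rb.inc σb (fun x => T.f k (Sum.inr x)) s.2 = Rb.inc σb (fun x => T.f k' (Sum.inr x)) s'.2 := by
      constructor
      · intro h
        exact ⟨funext fun v => congrFun h (Sum.inl v), funext fun v => congrFun h (Sum.inr v)⟩
      · rintro ⟨h1, h2⟩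
        simp only [hW]
        rw [h1, h2]
    rw [e1, RA.inc_eq_iff R σ k k' hk hk', RA.inc_eq_iff Ra σa _ _ m.1 m'.1,
      RA.inc_eq_iff Rb σb _ _ m.2 m'.2]
    have e2 := T.orb_iff σa σb k hk s.1 s'.1 s.2 s'.2
    constructor
    · rintro ⟨h1, h2⟩
      have h3 := e2.1 h2
      subst h1
      exact ⟨⟨rfl, h3.1⟩, ⟨rfl, h3.2⟩⟩
    · rintro ⟨⟨h1, h2⟩, ⟨h3, h4⟩⟩
      refine ⟨?_, e2.2 ⟨h2, h4⟩⟩
      have h5 : T.f k = T.f k' := by
        funext v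
        rcases v with v | v
        · exact congrFun h1 v
        · exact congrFun h3 v
      rw [← (T.gf k hk).2, ← (T.gf k' hk').2, h5]
  have hY : ∀ z, z ∈ prodSet (Ra.X σa) (Rb.X σb) ↔ ∃ k ∈ R.P1, ∃ s, z = W k s := by
    intro z
    constructor
    · rintro ⟨⟨ka, hka, c, hc⟩, ⟨kb, hkb, d, hd⟩⟩
      have hm : Sum.elim ka kb ∈ prodSet Ra.P1 Rb.P1 := ⟨hka, hkb⟩
      obtain ⟨h1, h2⟩ := T.fg _ hm
      refine ⟨_, h1, (c, d), ?_⟩
      simp only [hW]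
      rw [h2]
      funext v
      rcases v with v | v
      · exact congrFun hc v
      · exact congrFun hd v
    · rintro ⟨k, hk, s, rfl⟩
      have m := (T.gf k hk).1
      exact ⟨⟨_, m.1, s.1, rfl⟩, ⟨_, m.2, s.2, rfl⟩⟩
  -- the two maps
  set F : (Set I × Set (Sa × Sb) → ℝ) → ((Set Ia × Set Sa) ⊕ (Set Ib × Set Sb) → ℝ) := fun z =>
    if h : ∃ p : (Fin n → ℝ) × (Sa × Sb), p.1 ∈ R.P1 ∧ z = R.inc σ p.1 p.2 then
      W h.choose.1 h.choose.2 else 0 with hF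
  set G : ((Set Ia × Set Sa) ⊕ (Set Ib × Set Sb) → ℝ) → (Set I × Set (Sa × Sb) → ℝ) := fun z =>
    if h : ∃ p : (Fin n → ℝ) × (Sa × Sb), p.1 ∈ R.P1 ∧ z = W p.1 p.2 then
      R.inc σ h.choose.1 h.choose.2 else 0 with hG
  have F_inc : ∀ k ∈ R.P1, ∀ s, F (R.inc σ k s) = W k s := by
    intro k hk s
    have h : ∃ p : (Fin n → ℝ) × (Sa × Sb), p.1 ∈ R.P1 ∧ R.inc σ k s = R.inc σ p.1 p.2 :=
      ⟨(k, s), hk, rfl⟩
    simp only [hF]
    rw [dif_pos h]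
    exact ((key k hk _ h.choose_spec.1 s _).1 h.choose_spec.2).symm
  have G_W : ∀ k ∈ R.P1, ∀ s, G (W k s) = R.inc σ k s := by
    intro k hk s
    have h : ∃ p : (Fin n → ℝ) × (Sa × Sb), p.1 ∈ R.P1 ∧ W k s = W p.1 p.2 :=
      ⟨(k, s), hk, rfl⟩
    simp only [hG]
    rw [dif_pos h]
    exact ((key k hk _ h.choose_spec.1 s _).2 h.choose_spec.2).symm
  have at1 := RA.atlas R σ
  have at2 := Atlas.prod (RA.atlas Ra σa) (RA.atlas Rb σb)
  refine ⟨F, G, ?_, ?_, ?_, ?_⟩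
  · refine Atlas.glue at1 F fun s => ?_
    have h1 := PA.comp T.fPA (at2.1 s) (fun k hk => (T.gf k hk).1)
    exact h1.congr fun k hk => (F_inc k hk s).symm
  · refine Atlas.glue at2 G fun s => ?_
    have h1 := PA.comp T.gPA (at1.1 s) (fun z hz => (T.fg z hz).1)
    refine h1.congr fun z hz => ?_
    have h2 := G_W _ (T.fg z hz).1 s
    simp only [hW] at h2
    rw [(T.fg z hz).2] at h2
    exact h2.symm
  · rintro z ⟨k, hk, s, rfl⟩
    rw [F_inc k hk s]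
    exact ⟨(hY _).2 ⟨k, hk, s, rfl⟩, G_W k hk s⟩
  · intro z hz
    obtain ⟨k, hk, s, rfl⟩ := (hY z).1 hz
    rw [G_W k hk s]
    exact ⟨⟨k, hk, s, rfl⟩, F_inc k hk s⟩

end Pool.Agent.MP_455d73_gt.PQ
end

section

/-!
TASK Q4 (easy): the theorem for a splitting.

`RA.coset` for `Ra`, `Γ` and for `Rb`, `Δ` gives `Sa, σa, sa` and `Sb, σb, sb`. `ι = Set Ia × Set Sa`, `κ = Set Ib × Set Sb`, `X = Ra.X σa`,
`Y = Rb.X σb`: `RA.isModel` (rewrite `R.stab σ s₀ = Γ`). `Λ = R.stab (comb T.κ σa σb) (sa, sb)`: uniform by `RA.stab_uniform`; the model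
`R.X (comb ..)` by `RA.isModel` with `Split.compat`, `Split.trans`; `Split.plhomeo`.
-/

set_option autoImplicit false

open Finset
open scoped Classical

namespace Pool.Agent.MP_455d73_gt.PQ

variable {n a b : ℕ} {I Ia Ib : Type}

theorem Split.main [Fintype I] [Fintype Ia] [Fintype Ib] {R : RA n I} {Ra : RA a Ia} {Rb : RA b Ib}
    (T : Split R Ra Rb) (Γ : Subgroup (Equiv.Perm (Hyp a))) (hΓ : Γ ≤ Ra.G)
    (hΓf : (Γ.subgroupOf Ra.G).FiniteIndex) (Δ : Subgroup (Equiv.Perm (Hyp b))) (hΔ : Δ ≤ Rb.G)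
    (hΔf : (Δ.subgroupOf Rb.G).FiniteIndex) :
    ∃ (ι κ : Type) (_ : Fintype ι) (_ : Fintype κ) (X : Set (ι → ℝ)) (Y : Set (κ → ℝ)),
      IsModel Γ X ∧ IsModel Δ Y ∧
        ∃ Λ : Subgroup (Equiv.Perm (Hyp n)), Uniform Λ ∧ QuotPL Λ (prodSet X Y) := by
  obtain ⟨Sa, fSa, σa, sa, ca, ta, ea⟩ := Ra.coset Γ hΓ hΓf
  obtain ⟨Sb, fSb, σb, sb, cb, tb, eb⟩ := Rb.coset Δ hΔ hΔf
  refine ⟨Set Ia × Set Sa, Set Ib × Set Sb, inferInstance, inferInstance, Ra.X σa, Rb.X σb,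
    ?_, ?_, R.stab (comb T.κ σa σb) (sa, sb), R.stab_uniform _ _, ?_⟩
  · rw [← ea]
    exact Ra.isModel σa ca sa ta
  · rw [← eb]
    exact Rb.isModel σb cb sb tb
  · exact ⟨Set I × Set (Sa × Sb), inferInstance, R.X (comb T.κ σa σb),
      R.isModel _ (T.compat σa σb ca cb) _ (T.trans σa σb sa sb ta tb), T.plhomeo σa σb⟩

end Pool.Agent.MP_455d73_gt.PQ
end
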